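import Pool.Agent.H523.FP4

set_option autoImplicit false
set_option linter.unusedSectionVars false

/-! # Counting with several residue classes per prime, and the greedy choice of classes -/

namespace Pool.Agent.H523.FF

open Polynomial Finset

open scoped Classical

variable {F : Type} [Field F] [Fintype F]

lemma crt_two (Q P r₀ r : F[X]) (h : IsCoprime Q P) : ∃ r₁ : F[X], ∀ x : F[X],
    (Q ∣ x - r₀ ∧ P ∣ x - r) ↔ Q * P ∣ x - r₁ := by
  obtain ⟨a, b, hab⟩ := h
  -- a Q + b P = 1
  refine ⟨r₀ * (b * P) + r * (a * Q), fun x => ?_⟩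
  have e1 : Q ∣ (r₀ * (b * P) + r * (a * Q)) - r₀ :=
    ⟨(r - r₀) * a, by linear_combination r₀ * hab⟩
  have e2 : P ∣ (r₀ * (b * P) + r * (a * Q)) - r :=
    ⟨(r₀ - r) * b, by linear_combination r * hab⟩
  constructor
  · rintro ⟨h1, h2⟩
    apply IsCoprime.mul_dvd ⟨a, b, hab⟩
    · have := dvd_sub h1 e1
      rwa [sub_sub_sub_cancel_right] at this
    · have := dvd_sub h2 e2
      rwa [sub_sub_sub_cancel_right] at this
  · intro h1
    constructor
    · have := dvd_add ((dvd_mul_right Q P).trans h1) e1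
      rwa [sub_add_sub_cancel] at this
    · have := dvd_add ((dvd_mul_left P Q).trans h1) e2
      rwa [sub_add_sub_cancel] at this

theorem count_aux (R : F[X] → Finset F[X]) (s : Finset F[X]) :
    (∀ P ∈ s, P.Monic ∧ Irreducible P) →
    (∀ P ∈ s, ∀ r ∈ R P, ∀ r' ∈ R P, P ∣ r - r' → r = r') →
    ∀ (Q r₀ : F[X]), Q.Monic → (∀ P ∈ s, IsCoprime Q P) → ∀ n : ℕ,
    Q.natDegree + ∑ P ∈ s, P.natDegree ≤ n →
    ((PL F n).filter (fun x => Q ∣ x - r₀ ∧ ∀ P ∈ s, ∃ r ∈ R P, P ∣ x - r)).card =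
      (∏ P ∈ s, (R P).card) * Fintype.card F ^ (n - (Q.natDegree + ∑ P ∈ s, P.natDegree)) := by
  induction s using Finset.induction_on with
  | empty =>
    intro _ _ Q r₀ hQ _ n hn
    simp only [Finset.sum_empty, add_zero, Finset.prod_empty, one_mul] at hn ⊢
    rw [← PL_mod Q hQ r₀ n hn]
    congr 1
    apply Finset.filter_congr
    intro x _
    simp
  | insert P s hPs ih =>
    intro hs hR Q r₀ hQ hcop n hn
    have hP := hs P (Finset.mem_insert_self _ _)
    have hs' : ∀ P' ∈ s, P'.Monic ∧ Irreducible P' := fun P' hP' =>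
      hs P' (Finset.mem_insert_of_mem hP')
    have hcs : ∀ P' ∈ s, IsCoprime P P' := fun P' hP' =>
      irr_coprime hP.1 hP.2 (hs' P' hP').1 (hs' P' hP').2 (by rintro rfl; exact hPs hP')
    have hdis : ∀ r ∈ R P, ∀ r' ∈ R P, r ≠ r' → Disjoint
        ((PL F n).filter (fun x => (Q ∣ x - r₀ ∧ P ∣ x - r) ∧ ∀ P' ∈ s, ∃ r ∈ R P', P' ∣ x - r))
        ((PL F n).filter (fun x => (Q ∣ x - r₀ ∧ P ∣ x - r') ∧ ∀ P' ∈ s, ∃ r ∈ R P', P' ∣ x - r)) := by
      intro r hr r' hr' hne
      rw [Finset.disjoint_left]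
      intro x hx hx'
      rw [Finset.mem_filter] at hx hx'
      apply hne
      apply hR P (Finset.mem_insert_self _ _) r hr r' hr'
      have := dvd_sub hx'.2.1.2 hx.2.1.2
      rwa [sub_sub_sub_cancel_left] at this
    have hunion : (PL F n).filter (fun x => Q ∣ x - r₀ ∧ ∀ P' ∈ insert P s, ∃ r ∈ R P', P' ∣ x - r) =
        (R P).biUnion (fun r => (PL F n).filter
          (fun x => (Q ∣ x - r₀ ∧ P ∣ x - r) ∧ ∀ P' ∈ s, ∃ r ∈ R P', P' ∣ x - r)) := by
      ext x
      simp only [Finset.mem_filter, Finset.mem_biUnion]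
      constructor
      · rintro ⟨h1, h2, h3⟩
        obtain ⟨r, hr, hx⟩ := h3 P (Finset.mem_insert_self _ _)
        exact ⟨r, hr, h1, ⟨h2, hx⟩, fun P' hP' => h3 P' (Finset.mem_insert_of_mem hP')⟩
      · rintro ⟨r, hr, h1, ⟨h2, h3⟩, h4⟩
        refine ⟨h1, h2, fun P' hP' => ?_⟩
        rcases Finset.mem_insert.mp hP' with rfl | h5
        · exact ⟨r, hr, h3⟩
        · exact h4 P' h5
    rw [hunion, Finset.card_biUnion hdis]
    have hsumins : ∑ P' ∈ insert P s, P'.natDegree = P.natDegree + ∑ P' ∈ s, P'.natDegree :=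
      Finset.sum_insert hPs
    have hQP : (Q * P).natDegree = Q.natDegree + P.natDegree := hQ.natDegree_mul hP.1
    have hterm : ∀ r ∈ R P, ((PL F n).filter
          (fun x => (Q ∣ x - r₀ ∧ P ∣ x - r) ∧ ∀ P' ∈ s, ∃ r ∈ R P', P' ∣ x - r)).card =
        (∏ P ∈ s, (R P).card) *
          Fintype.card F ^ (n - (Q.natDegree + ∑ P ∈ insert P s, P.natDegree)) := by
      intro r _
      obtain ⟨r₁, hr₁⟩ := crt_two Q P r₀ r (hcop P (Finset.mem_insert_self _ _))
      have h1 := ih hs' (fun P' hP' => hR P' (Finset.mem_insert_of_mem hP')) (Q * P) r₁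
        (hQ.mul hP.1) (fun P' hP' => IsCoprime.mul_left
          (hcop P' (Finset.mem_insert_of_mem hP')) (hcs P' hP')) n
        (by rw [hQP]; rw [hsumins] at hn; omega)
      rw [hQP] at h1
      rw [hsumins, ← add_assoc, ← h1]
      congr 1
      apply Finset.filter_congr
      intro x _
      rw [hr₁ x]
    rw [Finset.sum_congr rfl hterm, Finset.sum_const, smul_eq_mul, Finset.prod_insert hPs]
    ring

theorem count_multi (R : F[X] → Finset F[X]) (s : Finset F[X])
    (hs : ∀ P ∈ s, P.Monic ∧ Irreducible P)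
    (hR : ∀ P ∈ s, ∀ r ∈ R P, ∀ r' ∈ R P, P ∣ r - r' → r = r') (n : ℕ)
    (hn : ∑ P ∈ s, P.natDegree ≤ n) :
    ((PL F n).filter (fun x => ∀ P ∈ s, ∃ r ∈ R P, P ∣ x - r)).card =
      (∏ P ∈ s, (R P).card) * Fintype.card F ^ (n - ∑ P ∈ s, P.natDegree) := by
  have h := count_aux R s hs hR 1 0 monic_one (fun P _ => isCoprime_one_left) n (by simpa using hn)
  simp only [natDegree_one, zero_add] at h
  rw [← h]
  congr 1
  apply Finset.filter_congr
  intro x _
  simp

/-- the greedy choice of residues -/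
theorem greedy2 {κ : Type} (S : Finset κ) (T : Finset F[X]) (kill : F[X] → F[X] → κ → Prop)
    (wt : F[X] → ℝ) (hw0 : ∀ P ∈ T, 0 ≤ wt P) (hw1 : ∀ P ∈ T, wt P ≤ 1)
    (hwt : ∀ P ∈ T, ∀ k ∈ S, wt P * (Fintype.card F : ℝ) ^ P.natDegree ≤
      (((PL F P.natDegree).filter (fun b => kill P b k)).card : ℝ)) :
    ∃ b : F[X] → F[X], ((S.filter (fun k => ∀ P ∈ T, ¬ kill P (b P) k)).card : ℝ) ≤
      S.card * ∏ P ∈ T, (1 - wt P) := by
  have hq := two_le_card (F := F)
  have hq0 : (0:ℝ) < (Fintype.card F : ℝ) := by linarith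
  induction T using Finset.induction_on with
  | empty => exact ⟨fun _ => 0, by simp⟩
  | insert P T hPT ih =>
    obtain ⟨b, hb⟩ := ih (fun Q hQ => hw0 Q (Finset.mem_insert_of_mem hQ))
      (fun Q hQ => hw1 Q (Finset.mem_insert_of_mem hQ))
      (fun Q hQ => hwt Q (Finset.mem_insert_of_mem hQ))
    set S' := S.filter (fun k => ∀ Q ∈ T, ¬ kill Q (b Q) k) with hS'
    have hne : (PL F P.natDegree).Nonempty := by
      rw [← Finset.card_pos, card_PL]
      exact pow_pos Fintype.card_pos _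
    have hdc : ∑ c ∈ PL F P.natDegree, ((S'.card : ℝ) * wt P) ≤
        ∑ c ∈ PL F P.natDegree, ((S'.filter (fun k => kill P c k)).card : ℝ) := by
      have h1 : ∑ c ∈ PL F P.natDegree, ((S'.filter (fun k => kill P c k)).card : ℝ) =
          ∑ k ∈ S', (((PL F P.natDegree).filter (fun c => kill P c k)).card : ℝ) := by
        have : ∑ c ∈ PL F P.natDegree, (S'.filter (fun k => kill P c k)).card =
            ∑ k ∈ S', ((PL F P.natDegree).filter (fun c => kill P c k)).card := by
          simp only [Finset.card_filter]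
          exact Finset.sum_comm
        exact_mod_cast this
      rw [h1, Finset.sum_const, card_PL, nsmul_eq_mul]
      push_cast
      calc (Fintype.card F : ℝ) ^ P.natDegree * ((S'.card : ℝ) * wt P)
          = ∑ k ∈ S', wt P * (Fintype.card F : ℝ) ^ P.natDegree := by
            rw [Finset.sum_const, nsmul_eq_mul]; ring
        _ ≤ _ := Finset.sum_le_sum (fun k hk =>
            hwt P (Finset.mem_insert_self _ _) k (Finset.mem_filter.mp hk).1)
    obtain ⟨c, _, hc⟩ := Finset.exists_le_of_sum_le hne hdc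
    refine ⟨Function.update b P c, ?_⟩
    have hsub : S.filter (fun k => ∀ Q ∈ insert P T, ¬ kill Q (Function.update b P c Q) k) ⊆
        S' \ (S'.filter (fun k => kill P c k)) := by
      intro k hk
      rw [Finset.mem_filter] at hk
      obtain ⟨h1, h2⟩ := hk
      rw [Finset.mem_sdiff, Finset.mem_filter, hS', Finset.mem_filter]
      have hmem : k ∈ S ∧ ∀ Q ∈ T, ¬ kill Q (b Q) k := by
        refine ⟨h1, fun Q hQ => ?_⟩
        have := h2 Q (Finset.mem_insert_of_mem hQ)
        rwa [Function.update_of_ne (by rintro rfl; exact hPT hQ)] at this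
      refine ⟨hmem, fun hcon => ?_⟩
      have h3 := h2 P (Finset.mem_insert_self _ _)
      rw [Function.update_self] at h3
      exact h3 hcon.2
    have hle : ((S.filter (fun k => ∀ Q ∈ insert P T,
        ¬ kill Q (Function.update b P c Q) k)).card : ℝ) ≤
        (S'.card : ℝ) - ((S'.filter (fun k => kill P c k)).card : ℝ) := by
      have h1 := Finset.card_le_card hsub
      rw [Finset.card_sdiff_of_subset (Finset.filter_subset _ _)] at h1
      have h2 : (S'.filter (fun k => kill P c k)).card ≤ S'.card :=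
        Finset.card_le_card (Finset.filter_subset _ _)
      rw [← Nat.cast_sub h2]
      exact_mod_cast h1
    have hw := hw1 P (Finset.mem_insert_self _ _)
    rw [Finset.prod_insert hPT]
    calc ((S.filter (fun k => ∀ Q ∈ insert P T, ¬ kill Q (Function.update b P c Q) k)).card : ℝ)
        ≤ (S'.card : ℝ) - (S'.card : ℝ) * wt P := by linarith
      _ = (S'.card : ℝ) * (1 - wt P) := by ring
      _ ≤ (S.card * ∏ P ∈ T, (1 - wt P)) * (1 - wt P) :=
          mul_le_mul_of_nonneg_right hb (by linarith)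
      _ = _ := by ring

end Pool.Agent.H523.FF
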