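import Pool.Graph.R_pool_sql_team_seeded_3997aac3.Q284.WE.All
import Pool.Agent.H523.FP5

set_option autoImplicit false
set_option linter.unusedSectionVars false

/-!
# The classes of monic polynomials over a finite field: residue and leading coefficients

`BB M κ` is the ring `F[X]/(M) × F[X]/(X^(κ+1))`; the class `cl f` of a monic polynomial `f` is formed by
its residue modulo `M` and its first `κ + 1` coefficients (adapted from the library file
`Pool.Graph.R_pool_sql_team_seeded_35f281b4.K7.H76.SI.Cls`, where `F` has two elements).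
-/

namespace Pool.Agent.H523.RH

open Polynomial Finset
open Pool.Agent.H341R2.Sharp (Mon mem_Mon)

variable {F : Type} [Field F] [Fintype F]

/-- the ring of the classes -/
abbrev BB (M : F[X]) (κ : ℕ) : Type := AdjoinRoot M × AdjoinRoot (X ^ (κ + 1) : F[X])

/-- the class of a polynomial -/
noncomputable def cl (M : F[X]) (κ : ℕ) (f : F[X]) : BB M κ :=
  (AdjoinRoot.mk M f, AdjoinRoot.mk (X ^ (κ + 1)) f.reverse)

theorem finite_adjoinRoot {M : F[X]} (hM : M.Monic) : Finite (AdjoinRoot M) := by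
  have := hM.finite_adjoinRoot
  exact Module.finite_of_finite F

theorem finite_BB {M : F[X]} (hM : M.Monic) (κ : ℕ) : Finite (BB M κ) := by
  have := finite_adjoinRoot hM
  have := finite_adjoinRoot (M := (X ^ (κ + 1) : F[X])) (monic_X_pow _)
  infer_instance

theorem cl_mul (M : F[X]) (κ : ℕ) (f g : F[X]) : cl M κ (f * g) = cl M κ f * cl M κ g := by
  unfold cl
  rw [reverse_mul_of_domain, map_mul, map_mul]
  rfl

theorem reverse_one : (1 : F[X]).reverse = 1 := by
  rw [← C_1, reverse_C]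

theorem cl_one (M : F[X]) (κ : ℕ) : cl M κ 1 = 1 := by
  unfold cl
  rw [reverse_one, map_one, map_one]
  rfl

theorem cl_pow (M : F[X]) (κ : ℕ) (f : F[X]) (n : ℕ) : cl M κ (f ^ n) = cl M κ f ^ n := by
  induction n with
  | zero => rw [pow_zero, pow_zero, cl_one]
  | succ n ih => rw [pow_succ, pow_succ, cl_mul, ih]

theorem isUnit_mk_iff {M h : F[X]} : IsUnit (AdjoinRoot.mk M h) ↔ IsCoprime h M := by
  constructor
  · intro hu
    obtain ⟨u, hu⟩ := hu.exists_right_inv
    obtain ⟨g, rfl⟩ := AdjoinRoot.mk_surjective u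
    rw [← map_mul, ← map_one (AdjoinRoot.mk M), AdjoinRoot.mk_eq_mk] at hu
    obtain ⟨c, hc⟩ := hu
    exact ⟨g, -c, by linear_combination hc⟩
  · rintro ⟨a, b, hab⟩
    apply IsUnit.of_mul_eq_one (AdjoinRoot.mk M a)
    rw [← map_mul, ← map_one (AdjoinRoot.mk M), AdjoinRoot.mk_eq_mk]
    exact ⟨-b, by linear_combination hab⟩

theorem isUnit_mk_X_pow {κ : ℕ} {h : F[X]} (h0 : h.coeff 0 = 1) :
    IsUnit (AdjoinRoot.mk (X ^ (κ + 1) : F[X]) h) := by
  rw [isUnit_mk_iff, IsCoprime.pow_right_iff (by omega)]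
  have h1 : (X : F[X]) ∣ h - 1 := by
    rw [X_dvd_iff, coeff_sub, h0]
    simp
  obtain ⟨c, hc⟩ := h1
  exact ⟨1, -c, by linear_combination hc⟩

theorem coeff_zero_reverse_monic {f : F[X]} (hf : f.Monic) : f.reverse.coeff 0 = 1 := by
  rw [coeff_zero_reverse]
  exact hf

theorem isUnit_cl_iff {M : F[X]} {κ : ℕ} {f : F[X]} (hf : f.Monic) :
    IsUnit (cl M κ f) ↔ IsCoprime f M := by
  rw [Prod.isUnit_iff]
  constructor
  · rintro ⟨h, _⟩
    exact isUnit_mk_iff.1 h
  · intro h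
    exact ⟨isUnit_mk_iff.2 h, isUnit_mk_X_pow (coeff_zero_reverse_monic hf)⟩

theorem reflect_dvd_iff {m κ : ℕ} (hκ : κ ≤ m) {g : F[X]} (hg : g.degree < m) :
    X ^ (κ + 1) ∣ reflect m g ↔ g.degree < ((m - κ : ℕ) : WithBot ℕ) := by
  rw [X_pow_dvd_iff, degree_lt_iff_coeff_zero]
  constructor
  · intro h j hj
    by_cases hjm : j ≤ m
    · have h1 := h (m - j) (by omega)
      rw [coeff_reflect, revAt_le (by omega)] at h1
      rwa [show m - (m - j) = j by omega] at h1
    · exact coeff_eq_zero_of_degree_lt (hg.trans (by exact_mod_cast (by omega : m < j)))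
  · intro h i hi
    rw [coeff_reflect, revAt_le (by omega)]
    exact h _ (by omega)

theorem cl_eq_iff {M : F[X]} {κ m : ℕ} (hκ : κ ≤ m) {f g : F[X]} (hf : f ∈ Mon F m)
    (hg : g ∈ Mon F m) :
    cl M κ f = cl M κ g ↔ M ∣ f - g ∧ (f - g).degree < ((m - κ : ℕ) : WithBot ℕ) := by
  rw [mem_Mon] at hf hg
  unfold cl
  rw [Prod.mk.injEq, AdjoinRoot.mk_eq_mk, AdjoinRoot.mk_eq_mk]
  have h1 : f.reverse - g.reverse = reflect m (f - g) := by
    rw [reflect_sub, reverse, reverse, hf.2, hg.2]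
  have h2 : (f - g).degree < m := by
    have h3 := degree_sub_lt_left (p := f) (q := g)
      (by rw [degree_eq_natDegree hf.1.ne_zero, degree_eq_natDegree hg.1.ne_zero, hf.2, hg.2]) hf.1.ne_zero
      (by rw [hf.1.leadingCoeff, hg.1.leadingCoeff])
    rwa [degree_eq_natDegree hf.1.ne_zero, hf.2] at h3
  rw [h1, reflect_dvd_iff hκ h2]

theorem exists_cl_eq {M : F[X]} (hMm : M.Monic) {κ m : ℕ} (hm : M.natDegree + κ ≤ m) (f₀ : F[X])
    (hf₀ : f₀.Monic) : ∃ f ∈ Mon F m, cl M κ f = cl M κ f₀ := by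
  set g := f₀ with hg
  set h := f₀.reverse with hh
  have hb : h.coeff 0 = 1 := coeff_zero_reverse_monic hf₀
  have hM : M ≠ 0 := hMm.ne_zero
  have hXm : (X ^ (κ + 1) : F[X]).Monic := monic_X_pow _
  set h' := h %ₘ (X ^ (κ + 1)) with hh'
  have hdvd : X ^ (κ + 1) ∣ h - h' := by
    refine ⟨h /ₘ (X ^ (κ + 1)), ?_⟩
    have := modByMonic_add_div h (X ^ (κ + 1) : F[X])
    linear_combination -this
  have h'deg : h'.degree < ((κ + 1 : ℕ) : WithBot ℕ) := by
    have := degree_modByMonic_lt h hXm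
    rwa [degree_X_pow] at this
  have h'nat : h'.natDegree ≤ κ := by
    rw [natDegree_le_iff_degree_le]
    exact Order.lt_succ_iff.1 (by exact_mod_cast h'deg)
  have h'0 : h'.coeff 0 = 1 := by
    have h1 := X_pow_dvd_iff.1 hdvd 0 (by omega)
    rw [coeff_sub, hb] at h1
    exact (sub_eq_zero.1 h1).symm
  set T := reflect κ h' with hT
  have hTk : T.coeff κ = 1 := by
    rw [hT, coeff_reflect, revAt_le le_rfl, Nat.sub_self, h'0]
  have hTn : T.natDegree ≤ κ := by
    rw [natDegree_le_iff_coeff_eq_zero]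
    intro j hj
    rw [hT, coeff_reflect]
    rw [revAt_eq_self_of_lt hj]
    exact coeff_eq_zero_of_natDegree_lt (by omega)
  have hTm : T.Monic := monic_of_natDegree_le_of_coeff_eq_one κ hTn hTk
  have hTd : T.natDegree = κ := by
    apply le_antisymm hTn
    apply le_natDegree_of_ne_zero
    rw [hTk]
    exact one_ne_zero
  set f1 : F[X] := X ^ (m - κ) * T with hf1
  have hf1m : f1.Monic := (monic_X_pow _).mul hTm
  have hf1d : f1.natDegree = m := by
    rw [hf1, (monic_X_pow _).natDegree_mul hTm, natDegree_X_pow, hTd]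
    omega
  set r := (g - f1) %ₘ M with hr
  have hrdeg : r.degree < M.degree := degree_modByMonic_lt _ hMm
  have hrdeg' : r.degree < ((m - κ : ℕ) : WithBot ℕ) := by
    refine hrdeg.trans_le ?_
    rw [degree_eq_natDegree hM]
    exact_mod_cast (by omega : M.natDegree ≤ m - κ)
  have hrm : r.degree < m := hrdeg'.trans_le (by exact_mod_cast (by omega : m - κ ≤ m))
  have hrf1 : r.degree < f1.degree := by
    rw [degree_eq_natDegree hf1m.ne_zero, hf1d]
    exact hrm
  have hmon : f1 + r ∈ Mon F m := by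
    rw [mem_Mon]
    refine ⟨hf1m.add_of_left hrf1, ?_⟩
    rw [natDegree_add_eq_left_of_degree_lt hrf1, hf1d]
  refine ⟨f1 + r, hmon, ?_⟩
  unfold cl
  rw [Prod.mk.injEq, AdjoinRoot.mk_eq_mk, AdjoinRoot.mk_eq_mk]
  constructor
  · refine ⟨-((g - f1) /ₘ M), ?_⟩
    have := modByMonic_add_div (g - f1) M
    linear_combination this
  · have h1 : (f1 + r).reverse = reflect m f1 + reflect m r := by
      rw [reverse, (mem_Mon.1 hmon).2, reflect_add]
    have h2 : reflect m f1 = h' := by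
      have h3 : m = (m - κ) + κ := by omega
      conv_lhs => rw [h3]
      rw [hf1, reflect_mul _ _ (by rw [natDegree_X_pow]) hTn, reflect_monomial, revAt_le le_rfl, Nat.sub_self,
        pow_zero, one_mul, hT, reflect_reflect]
    have h3 : X ^ (κ + 1) ∣ reflect m r := (reflect_dvd_iff (by omega) hrm).2 hrdeg'
    rw [h1, h2]
    have h4 : h' + reflect m r - h = reflect m r - (h - h') := by ring
    rw [h4]
    exact dvd_sub h3 hdvd

/-- a class has exactly one member of degree `deg M + κ` -/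
theorem card_fiber {M : F[X]} (hM : M.Monic) (κ : ℕ) (f₀ : F[X]) (hf₀ : f₀.Monic)
    [DecidableEq (BB M κ)] :
    ((Mon F (M.natDegree + κ)).filter (fun f => cl M κ f = cl M κ f₀)).card = 1 := by
  rw [card_eq_one]
  obtain ⟨f, hf, hcl⟩ := exists_cl_eq hM (le_refl (M.natDegree + κ)) f₀ hf₀
  refine ⟨f, ?_⟩
  ext g
  rw [mem_filter, mem_singleton]
  constructor
  · rintro ⟨hg, hgcl⟩
    rw [← hcl, cl_eq_iff (by omega) hg hf] at hgcl
    obtain ⟨h1, h2⟩ := hgcl
    by_contra hne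
    have h3 := degree_le_of_dvd h1 (sub_ne_zero.mpr hne)
    rw [Nat.add_sub_cancel, ← degree_eq_natDegree hM.ne_zero] at h2
    exact absurd h3 (not_le.mpr h2)
  · rintro rfl
    exact ⟨hf, hcl⟩

section Chars

variable {B : Type} [CommRing B] [Finite B]

theorem sum_char_one [Fintype (MulChar B ℂ)] : ∑ χ : MulChar B ℂ, χ (1 : B) = (Nat.card Bˣ : ℂ) := by
  have h1 : ∀ χ : MulChar B ℂ, χ (1 : B) = 1 := fun χ => by rw [map_one]
  rw [sum_congr rfl (fun χ _ => h1 χ), sum_const, nsmul_eq_mul, mul_one, card_univ, ← Nat.card_eq_fintype_card,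
    MulChar.card_eq_card_units_of_hasEnoughRootsOfUnity B ℂ]

theorem sum_char_ne [Fintype (MulChar B ℂ)] {a : B} (h : a ≠ 1) : ∑ χ : MulChar B ℂ, χ a = 0 := by
  obtain ⟨χ0, hχ0⟩ := MulChar.exists_apply_ne_one_of_hasEnoughRootsOfUnity B ℂ h
  have h1 : ∑ χ : MulChar B ℂ, χ a = ∑ χ : MulChar B ℂ, (χ0 * χ) a :=
    (Fintype.sum_equiv (Equiv.mulLeft χ0) _ _ (fun χ => rfl)).symm
  have h2 : ∑ χ : MulChar B ℂ, (χ0 * χ) a = χ0 a * ∑ χ : MulChar B ℂ, χ a := by
    rw [mul_sum]
    exact sum_congr rfl fun χ _ => MulChar.mul_apply χ0 χ a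
  rw [h2] at h1
  have h3 : (χ0 a - 1) * ∑ χ : MulChar B ℂ, χ a = 0 := by linear_combination -h1
  rcases mul_eq_zero.1 h3 with h4 | h4
  · exact absurd (sub_eq_zero.1 h4) hχ0
  · exact h4

open scoped Classical in
/-- detection of a unit by the characters -/
theorem detect [Fintype (MulChar B ℂ)] (u : Bˣ) (x : B) :
    ∑ χ : MulChar B ℂ, χ (↑u⁻¹ : B) * χ x = if x = (u : B) then (Nat.card Bˣ : ℂ) else 0 := by
  have h1 : ∀ χ : MulChar B ℂ, χ (↑u⁻¹ : B) * χ x = χ (↑u⁻¹ * x) := fun χ => (map_mul χ _ _).symm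
  rw [sum_congr rfl (fun χ _ => h1 χ)]
  split_ifs with h
  · rw [h, Units.inv_mul]
    exact sum_char_one
  · apply sum_char_ne
    intro h2
    apply h
    calc x = u * (↑u⁻¹ * x) := by rw [← mul_assoc, Units.mul_inv, one_mul]
      _ = u := by rw [h2, mul_one]

theorem norm_char (χ : MulChar B ℂ) {a : B} (ha : IsUnit a) : ‖χ a‖ = 1 := by
  obtain ⟨u, rfl⟩ := ha
  have h0 : 0 < Nat.card Bˣ := Nat.card_pos
  have h1 : (χ (u : B)) ^ (Nat.card Bˣ) = 1 := by
    rw [← map_pow, ← Units.val_pow_eq_pow_val, pow_card_eq_one', Units.val_one, map_one]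
  exact Complex.norm_eq_one_of_pow_eq_one h1 h0.ne'

end Chars

section

open Pool.Agent.Q284 Pool.Agent.Q284.WE

variable (M : F[X]) (κ : ℕ)

open scoped Classical in
/-- the character as a function of polynomials -/
noncomputable def gχ (χ : MulChar (BB M κ) ℂ) (f : F[X]) : ℂ := if f.Monic then χ (cl M κ f) else 0

variable {M κ}

theorem gχ_monic (χ : MulChar (BB M κ) ℂ) {f : F[X]} (hf : f.Monic) : gχ M κ χ f = χ (cl M κ f) := by
  unfold gχ
  rw [if_pos hf]

theorem gχ_hay (hM : M.Monic) (χ : MulChar (BB M κ) ℂ) : PS.Hay M κ (gχ M κ χ) := by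
  have := finite_BB hM κ
  constructor
  · exact hM
  · intro f hf
    unfold gχ
    rw [if_neg hf]
  · rw [gχ_monic χ monic_one, cl_one, map_one]
  · intro f g hf hg
    rw [gχ_monic χ hf, gχ_monic χ hg, gχ_monic χ (hf.mul hg), cl_mul, map_mul]
  · intro f hf hc
    rw [gχ_monic χ hf]
    exact norm_char χ ((isUnit_cl_iff hf).mpr hc)
  · intro f hf hc
    rw [gχ_monic χ hf]
    exact χ.map_nonunit (fun h => hc ((isUnit_cl_iff hf).mp h))
  · intro f g hf hg h1 h2
    rw [gχ_monic χ hf, gχ_monic χ hg]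
    congr 1
    unfold cl
    rw [Prod.mk.injEq, AdjoinRoot.mk_eq_mk, AdjoinRoot.mk_eq_mk]
    exact ⟨h1, h2⟩

variable (M κ) in
open scoped Classical in
/-- the number of classes -/
noncomputable def Phi : ℕ := ((Mon F (M.natDegree + κ)).filter (fun f => IsCoprime f M)).card

variable (M κ) in
open scoped Classical in
/-- the weighted number of the prime powers in a class -/
noncomputable def WW (n : ℕ) (f₀ : F[X]) : ℝ :=
  ∑ P ∈ PS.PD F n, (P.natDegree : ℝ) * (if cl M κ P ^ (n / P.natDegree) = cl M κ f₀ then 1 else 0)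

variable (M) in
open scoped Classical in
/-- the weighted number of the prime powers prime to `M` -/
noncomputable def T0 (n : ℕ) : ℝ :=
  ∑ P ∈ (PS.PD F n).filter (fun P => IsCoprime P M), (P.natDegree : ℝ)

open scoped Classical in
/-- **The prime number theorem with Weil's error term**, weighted form -/
theorem pnt_weighted (hM : M.Monic) (n : ℕ) (hn : 1 ≤ n) {f₀ : F[X]} (hf₀ : f₀.Monic)
    (hc : IsCoprime f₀ M) :
    |WW M κ n f₀ - T0 M n / Phi M κ| ≤
      ((M.natDegree + κ : ℕ) : ℝ) * (√(Fintype.card F : ℝ)) ^ n := by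
  have := finite_BB hM κ
  have : Finite (MulChar (BB M κ) ℂ) := inferInstance
  let _ : Fintype (MulChar (BB M κ) ℂ) := Fintype.ofFinite _
  obtain ⟨u, hu⟩ := (isUnit_cl_iff (κ := κ) hf₀).mpr hc
  set G : ℂ := (Nat.card (BB M κ)ˣ : ℂ) with hG
  have hG0 : G ≠ 0 := by
    rw [hG, Nat.cast_ne_zero]
    exact Nat.card_pos.ne'
  set PR : Finset (MulChar (BB M κ) ℂ) := univ.filter (fun χ => ¬ NonPr M (gχ M κ χ)) with hPR
  have hprin : ∀ χ ∈ PR, ∀ f : F[X], f.Monic → IsCoprime f M → χ (cl M κ f) = 1 := by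
    intro χ hχ f hf hfc
    rw [hPR, mem_filter] at hχ
    by_contra hne
    exact hχ.2 ⟨f, hf, hfc, by rw [gχ_monic χ hf]; exact hne⟩
  have huinv : ∀ χ ∈ PR, χ (↑u⁻¹ : BB M κ) = 1 := by
    intro χ hχ
    have h1 : χ (↑u⁻¹ : BB M κ) * χ (u : BB M κ) = 1 := by
      rw [← map_mul, Units.inv_mul, map_one]
    rw [hu, hprin χ hχ f₀ hf₀ hc, mul_one] at h1
    exact h1
  -- the two sums
  have hdetect : ∀ x : BB M κ, ∑ χ : MulChar (BB M κ) ℂ, χ (↑u⁻¹ : BB M κ) * χ x =
      if x = cl M κ f₀ then G else 0 := by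
    intro x
    rw [detect u x, hu]
    split_ifs <;> rfl
  -- evaluation of the number of principal characters
  have hcount : (PR.card : ℂ) * (Phi M κ : ℂ) = G := by
    have h1 : ∑ f ∈ Mon F (M.natDegree + κ), ∑ χ : MulChar (BB M κ) ℂ,
        χ (↑u⁻¹ : BB M κ) * χ (cl M κ f) = G := by
      rw [sum_congr rfl (fun f _ => hdetect (cl M κ f)), ← sum_filter, sum_const,
        card_fiber hM κ f₀ hf₀, one_smul]
    rw [sum_comm] at h1
    have h2 : ∀ χ : MulChar (BB M κ) ℂ, ∑ f ∈ Mon F (M.natDegree + κ),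
        χ (↑u⁻¹ : BB M κ) * χ (cl M κ f) = if χ ∈ PR then (Phi M κ : ℂ) else 0 := by
      intro χ
      rw [← mul_sum]
      have h3 : ∑ f ∈ Mon F (M.natDegree + κ), χ (cl M κ f) =
          ∑ f ∈ Mon F (M.natDegree + κ), gχ M κ χ f :=
        sum_congr rfl (fun f hf => (gχ_monic χ (mem_Mon.mp hf).1).symm)
      split_ifs with h
      · rw [huinv χ h, one_mul]
        unfold Phi
        rw [card_filter]
        push_cast
        refine sum_congr rfl (fun f hf => ?_)
        have hfm := (mem_Mon.mp hf).1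
        split_ifs with hcf
        · exact hprin χ h f hfm hcf
        · exact χ.map_nonunit (fun hh => hcf ((isUnit_cl_iff hfm).mp hh))
      · rw [h3]
        have h4 : NonPr M (gχ M κ χ) := by
          by_contra h5
          exact h (mem_filter.mpr ⟨mem_univ _, h5⟩)
        rw [Pool.Agent.Q265.WE.AL_eq_zero (gχ_hay hM χ) h4 le_rfl, mul_zero]
    rw [sum_congr rfl (fun χ _ => h2 χ), sum_ite_mem, univ_inter, sum_const, nsmul_eq_mul] at h1
    exact h1
  -- the main sum
  have hmain : (G : ℂ) * ((WW M κ n f₀ : ℝ) : ℂ) =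
      ∑ χ : MulChar (BB M κ) ℂ, χ (↑u⁻¹ : BB M κ) * trc (gχ M κ χ) n := by
    unfold WW trc
    push_cast
    rw [mul_sum]
    simp only [mul_sum]
    rw [sum_comm]
    refine sum_congr rfl (fun P hP => ?_)
    have hPm : P.Monic := by
      unfold PS.PD at hP
      rw [mem_filter, mem_biUnion] at hP
      obtain ⟨⟨k, _, hk⟩, _⟩ := hP
      exact (mem_Mon.mp hk).1
    have h1 : ∀ χ : MulChar (BB M κ) ℂ, χ (↑u⁻¹ : BB M κ) * ((P.natDegree : ℂ) *
        gχ M κ χ P ^ (n / P.natDegree)) = (P.natDegree : ℂ) *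
        (χ (↑u⁻¹ : BB M κ) * χ (cl M κ P ^ (n / P.natDegree))) := by
      intro χ
      rw [gχ_monic χ hPm, map_pow]
      ring
    rw [sum_congr rfl (fun χ _ => h1 χ), ← mul_sum, hdetect]
    split_ifs
    · rw [Complex.ofReal_one]; ring
    · rw [Complex.ofReal_zero]; ring
  have hprsum : ∀ χ ∈ PR, χ (↑u⁻¹ : BB M κ) * trc (gχ M κ χ) n = ((T0 M n : ℝ) : ℂ) := by
    intro χ hχ
    rw [huinv χ hχ, one_mul]
    unfold trc T0
    push_cast
    rw [sum_filter]
    refine sum_congr rfl (fun P hP => ?_)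
    unfold PS.PD at hP
    rw [mem_filter, mem_biUnion] at hP
    obtain ⟨⟨k, hk1, hk⟩, hPi, hPd⟩ := hP
    have hPm := (mem_Mon.mp hk).1
    rw [gχ_monic χ hPm]
    split_ifs with hcf
    · rw [hprin χ hχ P hPm hcf, one_pow, mul_one]
    · rw [χ.map_nonunit (fun hh => hcf ((isUnit_cl_iff hPm).mp hh)), zero_pow, mul_zero]
      have h0 : 0 < P.natDegree := hPi.natDegree_pos
      have h1 : P.natDegree ≤ n := Nat.le_of_dvd (by omega) hPd
      exact (Nat.div_pos h1 h0).ne'
  have hPhi0 : (Phi M κ : ℂ) ≠ 0 := by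
    intro h0
    rw [h0, mul_zero] at hcount
    exact hG0 hcount.symm
  have hdiff : G * (((WW M κ n f₀ - T0 M n / Phi M κ : ℝ)) : ℂ) =
      ∑ χ ∈ univ.filter (fun χ : MulChar (BB M κ) ℂ => NonPr M (gχ M κ χ)),
        χ (↑u⁻¹ : BB M κ) * trc (gχ M κ χ) n := by
    have h1 := sum_filter_add_sum_filter_not (univ : Finset (MulChar (BB M κ) ℂ))
      (fun χ => NonPr M (gχ M κ χ)) (fun χ => χ (↑u⁻¹ : BB M κ) * trc (gχ M κ χ) n)
    rw [← hmain] at h1
    have h2 : ∑ χ ∈ univ.filter (fun χ : MulChar (BB M κ) ℂ => ¬ NonPr M (gχ M κ χ)),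
        χ (↑u⁻¹ : BB M κ) * trc (gχ M κ χ) n = PR.card * ((T0 M n : ℝ) : ℂ) := by
      rw [← hPR, sum_congr rfl hprsum, sum_const, nsmul_eq_mul]
    rw [h2] at h1
    push_cast
    have h3 : G * (((T0 M n : ℝ) : ℂ) / (Phi M κ : ℂ)) = PR.card * ((T0 M n : ℝ) : ℂ) := by
      rw [← hcount]
      field_simp
    rw [mul_sub, h3, ← h1]
    ring
  have hnorm : ‖G‖ * |WW M κ n f₀ - T0 M n / Phi M κ| ≤
      ‖G‖ * (((M.natDegree + κ : ℕ) : ℝ) * (√(Fintype.card F : ℝ)) ^ n) := by
    have h1 : ‖G‖ * |WW M κ n f₀ - T0 M n / Phi M κ| =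
        ‖G * (((WW M κ n f₀ - T0 M n / Phi M κ : ℝ)) : ℂ)‖ := by
      rw [norm_mul, Complex.norm_real, Real.norm_eq_abs]
    rw [h1, hdiff]
    refine (norm_sum_le _ _).trans ?_
    calc ∑ χ ∈ univ.filter (fun χ : MulChar (BB M κ) ℂ => NonPr M (gχ M κ χ)),
          ‖χ (↑u⁻¹ : BB M κ) * trc (gχ M κ χ) n‖
        ≤ ∑ χ ∈ univ.filter (fun χ : MulChar (BB M κ) ℂ => NonPr M (gχ M κ χ)),
            (((M.natDegree + κ : ℕ) : ℝ) * (√(Fintype.card F : ℝ)) ^ n) := by
          apply sum_le_sum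
          intro χ hχ
          rw [mem_filter] at hχ
          rw [norm_mul, norm_char χ (Units.isUnit _), one_mul]
          exact weil_hayes F M κ (gχ M κ χ) (gχ_hay hM χ) hχ.2 n hn
      _ ≤ ‖G‖ * (((M.natDegree + κ : ℕ) : ℝ) * (√(Fintype.card F : ℝ)) ^ n) := by
          rw [sum_const, nsmul_eq_mul]
          apply mul_le_mul_of_nonneg_right _ (by positivity)
          rw [hG, Complex.norm_natCast, ← MulChar.card_eq_card_units_of_hasEnoughRootsOfUnity (BB M κ) ℂ,
            Nat.card_eq_fintype_card]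
          exact_mod_cast card_le_univ _
  exact le_of_mul_le_mul_left hnorm (norm_pos_iff.mpr hG0)

end

end Pool.Agent.H523.RH
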