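import Pool.Agent.H523.RH1

set_option autoImplicit false
set_option linter.unusedSectionVars false

/-! # Prime polynomials in residue classes and short intervals, with Weil's error term -/

namespace Pool.Agent.H523.RH

open Polynomial Finset
open Pool.Agent.H341R2.Sharp (Mon mem_Mon)
open Pool.Agent.H523.FF (Ir mem_Ir PL mem_PL card_PL two_le_card Ir_card Ir_card_sum Ir_disj
  count_multi irr_coprime PL_mod)
open Pool.Agent.Q284 Pool.Agent.Q284.WE

open scoped Classical

variable {F : Type} [Field F] [Fintype F]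

lemma geom2 (q : ℝ) (hq : 2 ≤ q) (b : ℕ) : ∑ e ∈ range (b + 1), q ^ e ≤ 2 * q ^ b := by
  induction b with
  | zero => simp
  | succ b ih =>
    rw [Finset.sum_range_succ]
    have : 2 * q ^ b ≤ q ^ (b + 1) := by
      rw [pow_succ, mul_comm]; exact mul_le_mul_of_nonneg_left hq (by positivity)
    linarith

lemma PD_eq (n : ℕ) (hn : 1 ≤ n) : PS.PD F n = n.divisors.biUnion (Ir F) := by
  ext P
  unfold PS.PD
  rw [mem_filter, mem_biUnion, mem_biUnion]
  constructor
  · rintro ⟨⟨k, hk, hkP⟩, hPi, hPd⟩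
    have := mem_Mon.mp hkP
    exact ⟨P.natDegree, Nat.mem_divisors.mpr ⟨hPd, by omega⟩, mem_Ir.mpr ⟨this.1, hPi, rfl⟩⟩
  · rintro ⟨d, hd, hP⟩
    have hd := Nat.mem_divisors.mp hd
    have hP := mem_Ir.mp hP
    have hle := Nat.le_of_dvd (by omega) hd.1
    exact ⟨⟨d, by rw [mem_range]; omega, mem_Mon.mpr ⟨hP.1, hP.2.2⟩⟩, hP.2.1, by
      rw [hP.2.2]; exact hd.1⟩

lemma mem_PD {n : ℕ} {P : F[X]} (hn : 1 ≤ n) : P ∈ PS.PD F n ↔
    P.Monic ∧ Irreducible P ∧ P.natDegree ∣ n := by
  rw [PD_eq n hn, mem_biUnion]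
  constructor
  · rintro ⟨d, hd, hP⟩
    have hd := Nat.mem_divisors.mp hd
    have hP := mem_Ir.mp hP
    exact ⟨hP.1, hP.2.1, by rw [hP.2.2]; exact hd.1⟩
  · rintro ⟨h1, h2, h3⟩
    exact ⟨P.natDegree, Nat.mem_divisors.mpr ⟨h3, by omega⟩, mem_Ir.mpr ⟨h1, h2, rfl⟩⟩

lemma sum_PD (n : ℕ) (hn : 1 ≤ n) (φ : F[X] → ℝ) : ∑ P ∈ PS.PD F n, φ P =
    ∑ P ∈ Ir F n, φ P + ∑ d ∈ n.properDivisors, ∑ P ∈ Ir F d, φ P := by
  rw [PD_eq n hn, Finset.sum_biUnion (fun a _ b _ hab => Ir_disj a trivial b trivial hab),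
    ← Nat.insert_self_properDivisors (by omega), Finset.sum_insert Nat.self_notMem_properDivisors]

variable (F) in
lemma proper_le (n : ℕ) (hn : 1 ≤ n) :
    ∑ d ∈ n.properDivisors, ∑ P ∈ Ir F d, (P.natDegree : ℝ) ≤ 2 * (Fintype.card F : ℝ) ^ (n / 2) := by
  have hq := two_le_card (F := F)
  set q : ℝ := (Fintype.card F : ℝ) with hqd
  calc ∑ d ∈ n.properDivisors, ∑ P ∈ Ir F d, (P.natDegree : ℝ)
      = ∑ d ∈ n.properDivisors, (d : ℝ) * ((Ir F d).card : ℝ) := by
        refine Finset.sum_congr rfl (fun d _ => ?_)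
        rw [Finset.sum_congr rfl (fun P hP => by rw [(mem_Ir.mp hP).2.2]), Finset.sum_const,
          nsmul_eq_mul, mul_comm]
    _ ≤ ∑ d ∈ n.properDivisors, q ^ d := by
        apply Finset.sum_le_sum
        intro d hd
        have hd' := Nat.mem_properDivisors.mp hd
        have hd0 : 0 < d := Nat.pos_of_dvd_of_pos hd'.1 (by omega)
        have := Ir_card (F := F) d hd0
        rw [hqd]
        exact_mod_cast this
    _ ≤ ∑ d ∈ range (n / 2 + 1), q ^ d := by
        apply Finset.sum_le_sum_of_subset_of_nonneg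
        · intro d hd
          have hd' := Nat.mem_properDivisors.mp hd
          rw [Finset.mem_range]
          obtain ⟨c, hc⟩ := hd'.1
          have hc2 : 2 ≤ c := by
            by_contra hcon
            have : c = 0 ∨ c = 1 := by omega
            rcases this with rfl | rfl
            · omega
            · omega
          have : d * 2 ≤ n := by rw [hc]; exact Nat.mul_le_mul_left d hc2
          omega
        · intro d _ _
          positivity
    _ ≤ 2 * q ^ (n / 2) := geom2 q hq _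

lemma half_le (n : ℕ) : (Fintype.card F : ℝ) ^ (n / 2) ≤ (√(Fintype.card F : ℝ)) ^ n := by
  have hq := two_le_card (F := F)
  set q : ℝ := (Fintype.card F : ℝ) with hqd
  have h1 : 1 ≤ √q := by
    rw [Real.one_le_sqrt]; linarith
  calc q ^ (n / 2) = (√q) ^ (2 * (n / 2)) := by
        rw [pow_mul, Real.sq_sqrt (by linarith)]
    _ ≤ (√q) ^ n := pow_le_pow_right₀ h1 (by omega)

/-- the total weight -/
lemma total_PD (n : ℕ) (hn : 1 ≤ n) : (Fintype.card F : ℝ) ^ n ≤ ∑ P ∈ PS.PD F n, (P.natDegree : ℝ) ∧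
    ∑ P ∈ PS.PD F n, (P.natDegree : ℝ) ≤
      (Fintype.card F : ℝ) ^ n + 2 * (√(Fintype.card F : ℝ)) ^ n := by
  have hq := two_le_card (F := F)
  constructor
  · rw [PD_eq n hn, Finset.sum_biUnion (fun a _ b _ hab => Ir_disj a trivial b trivial hab)]
    have h1 := Ir_card_sum F n (by omega)
    have h2 : ∑ d ∈ n.divisors, ∑ P ∈ Ir F d, (P.natDegree : ℝ) =
        ((∑ d ∈ n.divisors, d * (Ir F d).card : ℕ) : ℝ) := by
      push_cast
      refine Finset.sum_congr rfl (fun d _ => ?_)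
      rw [Finset.sum_congr rfl (fun P hP => by rw [(mem_Ir.mp hP).2.2]), Finset.sum_const,
        nsmul_eq_mul, mul_comm]
    rw [h2]
    exact_mod_cast h1
  · rw [sum_PD n hn]
    have h1 := proper_le F n hn
    have h2 := half_le (F := F) n
    have h3 : ∑ P ∈ Ir F n, (P.natDegree : ℝ) ≤ (Fintype.card F : ℝ) ^ n := by
      rw [Finset.sum_congr rfl (fun P hP => by rw [(mem_Ir.mp hP).2.2]), Finset.sum_const,
        nsmul_eq_mul, mul_comm]
      exact_mod_cast Ir_card (F := F) n (by omega)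
    linarith

/-- the primes dividing a monic polynomial -/
lemma sum_dvd_le {M : F[X]} (hM : M.Monic) (S : Finset F[X])
    (hS : ∀ P ∈ S, P.Monic ∧ Irreducible P ∧ P ∣ M) : ∑ P ∈ S, P.natDegree ≤ M.natDegree := by
  have h1 : ∏ P ∈ S, P ∣ M := by
    apply Finset.prod_dvd_of_coprime
    · intro P hP Q hQ hne
      exact irr_coprime (hS P hP).1 (hS P hP).2.1 (hS Q hQ).1 (hS Q hQ).2.1 hne
    · intro P hP
      exact (hS P hP).2.2
  rw [← natDegree_prod_of_monic _ _ (fun P hP => (hS P hP).1)]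
  exact natDegree_le_of_dvd h1 hM.ne_zero

lemma T0_bounds {M : F[X]} (hM : M.Monic) (n : ℕ) (hn : 1 ≤ n) :
    |T0 M n - (Fintype.card F : ℝ) ^ n| ≤ 2 * (√(Fintype.card F : ℝ)) ^ n + M.natDegree := by
  obtain ⟨h1, h2⟩ := total_PD (F := F) n hn
  have h3 := Finset.sum_filter_add_sum_filter_not (PS.PD F n) (fun P => IsCoprime P M)
    (fun P => (P.natDegree : ℝ))
  have h4 : ∑ P ∈ (PS.PD F n).filter (fun P => ¬ IsCoprime P M), (P.natDegree : ℝ) ≤
      M.natDegree := by
    have := sum_dvd_le hM ((PS.PD F n).filter (fun P => ¬ IsCoprime P M)) (by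
      intro P hP
      rw [Finset.mem_filter, mem_PD hn] at hP
      obtain ⟨⟨a1, a2, a3⟩, a4⟩ := hP
      refine ⟨a1, a2, ?_⟩
      by_contra hnd
      exact a4 (a2.coprime_iff_not_dvd.mpr hnd))
    exact_mod_cast this
  have h5 : 0 ≤ ∑ P ∈ (PS.PD F n).filter (fun P => ¬ IsCoprime P M), (P.natDegree : ℝ) :=
    Finset.sum_nonneg (fun _ _ => Nat.cast_nonneg _)
  have h6 : T0 M n = ∑ P ∈ (PS.PD F n).filter (fun P => IsCoprime P M), (P.natDegree : ℝ) := rfl
  have h7 : (0:ℝ) ≤ (√(Fintype.card F : ℝ)) ^ n := by positivity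
  rw [abs_le]
  constructor
  · rw [h6]; linarith
  · rw [h6]; linarith

lemma WW_bounds {M : F[X]} {κ : ℕ} (n : ℕ) (hn : 1 ≤ n) (hκ : κ ≤ n) {f₀ : F[X]}
    (hf₀ : f₀ ∈ Mon F n) :
    |WW M κ n f₀ - n * (((Ir F n).filter
      (fun P => M ∣ P - f₀ ∧ (P - f₀).degree < ((n - κ : ℕ) : WithBot ℕ))).card : ℝ)| ≤
      2 * (√(Fintype.card F : ℝ)) ^ n := by
  unfold WW
  rw [sum_PD n hn]
  have h1 : ∑ P ∈ Ir F n, (P.natDegree : ℝ) *
      (if cl M κ P ^ (n / P.natDegree) = cl M κ f₀ then 1 else 0) =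
      n * (((Ir F n).filter
      (fun P => M ∣ P - f₀ ∧ (P - f₀).degree < ((n - κ : ℕ) : WithBot ℕ))).card : ℝ) := by
    rw [Finset.card_filter]
    push_cast
    rw [Finset.mul_sum]
    refine Finset.sum_congr rfl (fun P hP => ?_)
    have hP := mem_Ir.mp hP
    rw [hP.2.2, Nat.div_self (by omega), pow_one]
    have h2 := cl_eq_iff (M := M) hκ (mem_Mon.mpr ⟨hP.1, hP.2.2⟩) hf₀
    by_cases h : cl M κ P = cl M κ f₀
    · rw [if_pos h, if_pos (h2.mp h)]
    · rw [if_neg h, if_neg (fun hh => h (h2.mpr hh))]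
  rw [h1, add_sub_cancel_left]
  have h2 := proper_le F n hn
  have h3 := half_le (F := F) n
  rw [abs_le]
  constructor
  · have : 0 ≤ ∑ d ∈ n.properDivisors, ∑ P ∈ Ir F d, (P.natDegree : ℝ) *
        (if cl M κ P ^ (n / P.natDegree) = cl M κ f₀ then (1:ℝ) else 0) :=
      Finset.sum_nonneg (fun _ _ => Finset.sum_nonneg (fun P _ => by
        apply mul_nonneg (Nat.cast_nonneg _)
        split_ifs <;> norm_num))
    have h7 : (0:ℝ) ≤ (√(Fintype.card F : ℝ)) ^ n := by positivity
    linarith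
  · calc ∑ d ∈ n.properDivisors, ∑ P ∈ Ir F d, (P.natDegree : ℝ) *
        (if cl M κ P ^ (n / P.natDegree) = cl M κ f₀ then (1:ℝ) else 0)
        ≤ ∑ d ∈ n.properDivisors, ∑ P ∈ Ir F d, (P.natDegree : ℝ) := by
          apply Finset.sum_le_sum
          intro d _
          apply Finset.sum_le_sum
          intro P _
          have : (0:ℝ) ≤ P.natDegree := Nat.cast_nonneg _
          split_ifs <;> simp
      _ ≤ 2 * (√(Fintype.card F : ℝ)) ^ n := by linarith

/-- **Prime polynomials in residue classes and short intervals**: the number of the monic irreducible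
polynomials `P` of degree `n` with `P ≡ f₀` modulo `M` and `deg (P - f₀) < n - κ`. -/
theorem pnt {M : F[X]} (hM : M.Monic) (κ n : ℕ) (hn : 1 ≤ n) (hκ : κ ≤ n) {f₀ : F[X]}
    (hf₀ : f₀ ∈ Mon F n) (hc : IsCoprime f₀ M) :
    |n * (((Ir F n).filter
      (fun P => M ∣ P - f₀ ∧ (P - f₀).degree < ((n - κ : ℕ) : WithBot ℕ))).card : ℝ) -
      (Fintype.card F : ℝ) ^ n / Phi M κ| ≤
      (2 * M.natDegree + κ + 4 : ℝ) * (√(Fintype.card F : ℝ)) ^ n := by
  have h1 := pnt_weighted (κ := κ) hM n hn (mem_Mon.mp hf₀).1 hc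
  have h2 := WW_bounds (M := M) n hn hκ hf₀
  have h3 := T0_bounds hM n hn
  set q : ℝ := (Fintype.card F : ℝ) with hqd
  have hq := two_le_card (F := F)
  rw [← hqd] at hq
  set R : ℝ := (√q) ^ n with hR
  have hR1 : 1 ≤ R := one_le_pow₀ (by rw [Real.one_le_sqrt]; linarith)
  have hPhi : (1:ℝ) ≤ Phi M κ := by
    have : 0 < Phi M κ := by
      unfold Phi
      rw [Finset.card_pos]
      obtain ⟨f, hf, hcl⟩ := exists_cl_eq hM (le_refl (M.natDegree + κ)) f₀ (mem_Mon.mp hf₀).1
      refine ⟨f, Finset.mem_filter.mpr ⟨hf, ?_⟩⟩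
      rw [← isUnit_cl_iff (κ := κ) (mem_Mon.mp hf).1, hcl, isUnit_cl_iff (mem_Mon.mp hf₀).1]
      exact hc
    exact_mod_cast this
  have hPhi0 : (0:ℝ) < Phi M κ := by linarith
  have h4 : |T0 M n / Phi M κ - q ^ n / Phi M κ| ≤ 2 * R + M.natDegree * R := by
    rw [← sub_div, abs_div, abs_of_pos hPhi0, div_le_iff₀ hPhi0]
    refine h3.trans ?_
    have hd0 : (0:ℝ) ≤ M.natDegree := Nat.cast_nonneg _
    have h5 : (M.natDegree : ℝ) ≤ M.natDegree * R := le_mul_of_one_le_right hd0 hR1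
    have h6 : 0 ≤ 2 * R + M.natDegree * R := by positivity
    calc 2 * R + (M.natDegree : ℝ) ≤ 2 * R + M.natDegree * R := by linarith
      _ ≤ (2 * R + M.natDegree * R) * Phi M κ := le_mul_of_one_le_right h6 hPhi
  have h5 : ∀ a b c d : ℝ, |a - d| ≤ |b - a| + |b - c| + |c - d| := by
    intro a b c d
    have e : a - d = -(b - a) + (b - c) + (c - d) := by ring
    rw [e]
    refine (abs_add_le _ _).trans ?_
    have := abs_add_le (-(b - a)) (b - c)
    rw [abs_neg] at this
    linarith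
  refine (h5 _ (WW M κ n f₀) (T0 M n / Phi M κ) _).trans ?_
  push_cast at h1
  calc _ ≤ 2 * R + ((M.natDegree : ℝ) + κ) * R + (2 * R + M.natDegree * R) := by linarith
    _ = (2 * M.natDegree + κ + 4 : ℝ) * R := by ring

/-- the number of classes for a product of distinct primes -/
theorem Phi_prod (S : Finset F[X]) (hS : ∀ P ∈ S, P.Monic ∧ Irreducible P) (κ : ℕ) :
    (Phi (∏ P ∈ S, P) κ : ℝ) =
      (Fintype.card F : ℝ) ^ κ * ∏ P ∈ S, ((Fintype.card F : ℝ) ^ P.natDegree - 1) := by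
  set M : F[X] := ∏ P ∈ S, P with hM
  have hMm : M.Monic := monic_prod_of_monic _ _ (fun P hP => (hS P hP).1)
  have hMd : M.natDegree = ∑ P ∈ S, P.natDegree :=
    natDegree_prod_of_monic _ _ (fun P hP => (hS P hP).1)
  set n' := M.natDegree + κ with hn'
  set R : F[X] → Finset F[X] := fun P => (PL F P.natDegree).filter (fun b => ¬ P ∣ X ^ n' + b)
    with hR
  have hcop : ∀ x : F[X], IsCoprime (X ^ n' + x) M ↔ ∀ P ∈ S, ∃ r ∈ R P, P ∣ x - r := by
    intro x
    rw [hM, IsCoprime.prod_right_iff]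
    refine forall₂_congr (fun P hP => ?_)
    have hPm := (hS P hP).1
    rw [isCoprime_comm, (hS P hP).2.coprime_iff_not_dvd]
    have hmod : P ∣ x - x %ₘ P := by
      have h := modByMonic_add_div x P
      exact ⟨x /ₘ P, by linear_combination -h⟩
    constructor
    · intro h
      refine ⟨x %ₘ P, ?_, hmod⟩
      rw [hR, Finset.mem_filter, mem_PL, ← degree_eq_natDegree hPm.ne_zero]
      refine ⟨degree_modByMonic_lt x hPm, fun hd => h ?_⟩
      have := dvd_add hd hmod
      have e : X ^ n' + x %ₘ P + (x - x %ₘ P) = X ^ n' + x := by ring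
      rwa [e] at this
    · rintro ⟨r, hr, hxr⟩ hd
      rw [hR, Finset.mem_filter] at hr
      apply hr.2
      have := dvd_sub hd hxr
      have e : X ^ n' + x - (x - r) = X ^ n' + r := by ring
      rwa [e] at this
  have hRc : ∀ P ∈ S, ((R P).card : ℝ) = (Fintype.card F : ℝ) ^ P.natDegree - 1 := by
    intro P hP
    have hPm := (hS P hP).1
    have h1 : R P = PL F P.natDegree \ {(-X ^ n') %ₘ P} := by
      ext b
      rw [hR, Finset.mem_filter, Finset.mem_sdiff, Finset.mem_singleton]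
      apply and_congr_right
      intro hb
      rw [mem_PL, ← degree_eq_natDegree hPm.ne_zero] at hb
      rw [not_iff_not]
      constructor
      · intro h
        have h2 : (-X ^ n' : F[X]) %ₘ P = b %ₘ P := by
          apply modByMonic_eq_of_dvd_sub hPm
          have := (dvd_neg (a := P)).mpr h
          have e : -(X ^ n' + b) = -X ^ n' - b := by ring
          rwa [e] at this
        rw [h2, (modByMonic_eq_self_iff hPm).mpr hb]
      · intro h
        have h2 := modByMonic_add_div (-X ^ n' : F[X]) P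
        rw [← h] at h2
        exact ⟨-((-X ^ n') /ₘ P), by linear_combination h2⟩
    rw [h1, Finset.card_sdiff_of_subset, card_PL, Finset.card_singleton, Nat.cast_sub, Nat.cast_one]
    · push_cast; rfl
    · exact Nat.one_le_pow _ _ Fintype.card_pos
    · intro b hb
      rw [Finset.mem_singleton] at hb
      rw [hb, mem_PL, ← degree_eq_natDegree hPm.ne_zero]
      exact degree_modByMonic_lt _ hPm
  have hcount := count_multi R S hS (by
    intro P hP r hr r' hr' h
    rw [hR, Finset.mem_filter, mem_PL, ← degree_eq_natDegree (hS P hP).1.ne_zero] at hr hr'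
    by_contra hne
    have hne' : r - r' ≠ 0 := sub_ne_zero.mpr hne
    have h1 := degree_le_of_dvd h hne'
    have h2 : (r - r').degree < P.degree :=
      lt_of_le_of_lt (degree_sub_le _ _) (max_lt hr.1 hr'.1)
    exact absurd h1 (not_le.mpr h2)) n' (by rw [← hMd]; omega)
  have hPhi : Phi M κ = ((PL F n').filter (fun x => ∀ P ∈ S, ∃ r ∈ R P, P ∣ x - r)).card := by
    unfold Phi
    symm
    refine Finset.card_bij (fun x _ => X ^ n' + x) ?_ ?_ ?_
    · intro x hx
      rw [Finset.mem_filter, mem_PL] at hx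
      rw [Finset.mem_filter, mem_Mon]
      refine ⟨⟨monic_X_pow_add hx.1, ?_⟩, (hcop x).mpr hx.2⟩
      apply natDegree_eq_of_degree_eq_some
      rw [degree_add_eq_left_of_degree_lt (by rw [degree_X_pow]; exact hx.1), degree_X_pow]
    · intro x _ y _ h
      exact add_left_cancel h
    · intro f hf
      rw [Finset.mem_filter, mem_Mon] at hf
      refine ⟨f - X ^ n', ?_, by ring⟩
      have hdeg : (f - X ^ n').degree < ((n' : ℕ) : WithBot ℕ) := by
        have h3 := degree_sub_lt_left (p := f) (q := X ^ n')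
          (by rw [degree_X_pow, degree_eq_natDegree hf.1.1.ne_zero, hf.1.2]) hf.1.1.ne_zero
          (by rw [hf.1.1.leadingCoeff, leadingCoeff_X_pow])
        rw [degree_eq_natDegree hf.1.1.ne_zero, hf.1.2] at h3
        exact h3
      rw [Finset.mem_filter, mem_PL]
      refine ⟨hdeg, (hcop _).mp ?_⟩
      have e : X ^ n' + (f - X ^ n') = f := by ring
      rw [e]
      exact hf.2
  rw [hPhi, hcount, ← hMd]
  push_cast
  rw [Finset.prod_congr rfl hRc, mul_comm]
  congr 2
  omega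

end Pool.Agent.H523.RH
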