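import Mathlib

set_option autoImplicit false
set_option linter.unusedSectionVars false

/-! # An abstract dispersion inequality on a union of cosets -/

namespace Pool.Agent.H523.CM

open Finset

open scoped Classical

/-- **Parseval's identity** -/
theorem parseval {G : Type} [AddCommGroup G] [Fintype G] (u : G → ℂ) :
    ∑ ψ : AddChar G ℂ, ‖∑ g, u g * ψ g‖ ^ 2 = (Fintype.card G : ℝ) * ∑ g, ‖u g‖ ^ 2 := by
  have key : ∑ ψ : AddChar G ℂ, (∑ g, u g * ψ g) * (starRingEnd ℂ) (∑ g, u g * ψ g) =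
      (Fintype.card G : ℂ) * ∑ g, u g * (starRingEnd ℂ) (u g) := by
    calc ∑ ψ : AddChar G ℂ, (∑ g, u g * ψ g) * (starRingEnd ℂ) (∑ g, u g * ψ g)
        = ∑ ψ : AddChar G ℂ, ∑ g, ∑ g', u g * (starRingEnd ℂ) (u g') * ψ (g - g') := by
          refine sum_congr rfl (fun ψ _ => ?_)
          rw [map_sum, sum_mul_sum]
          refine sum_congr rfl (fun g _ => sum_congr rfl (fun g' _ => ?_))
          rw [map_mul, AddChar.map_sub_eq_div, div_eq_mul_inv, ← AddChar.map_neg_eq_inv,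
            AddChar.map_neg_eq_conj]
          ring
      _ = ∑ g, ∑ g', u g * (starRingEnd ℂ) (u g') * ∑ ψ : AddChar G ℂ, ψ (g - g') := by
          rw [sum_comm]
          refine sum_congr rfl (fun g _ => ?_)
          rw [sum_comm]
          exact sum_congr rfl (fun g' _ => by rw [mul_sum])
      _ = ∑ g, ∑ g', u g * (starRingEnd ℂ) (u g') * (if g = g' then (Fintype.card G : ℂ) else 0) := by
          refine sum_congr rfl (fun g _ => sum_congr rfl (fun g' _ => ?_))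
          rw [AddChar.sum_apply_eq_ite]
          simp only [sub_eq_zero]
      _ = _ := by
          rw [mul_sum]
          refine sum_congr rfl (fun g _ => ?_)
          simp only [mul_ite, mul_zero, sum_ite_eq, mem_univ, if_true]
          ring
  have e1 : ∀ z : ℂ, z * (starRingEnd ℂ) z = ((‖z‖ ^ 2 : ℝ) : ℂ) := by
    intro z
    rw [Complex.mul_conj, Complex.normSq_eq_norm_sq]
  simp only [e1] at key
  exact_mod_cast key

variable {G A : Type} [AddCommGroup G] [Fintype G] [AddCommGroup A]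

/-- sums over an invariant set -/
theorem sum_shift (ι : G →+ A) (S : Finset A) (hS : ∀ g f, f + ι g ∈ S ↔ f ∈ S) {R : Type}
    [AddCommMonoid R] (φ : A → R) (g : G) : ∑ f ∈ S, φ (f + ι g) = ∑ f ∈ S, φ f := by
  refine sum_bij (fun f _ => f + ι g) (fun f hf => (hS g f).mpr hf) (fun a _ b _ h => by
    simpa using h) (fun f hf => ⟨f - ι g, ?_, by abel⟩) (fun f _ => rfl)
  rw [← hS g]
  simpa using hf

/-- **The dispersion inequality.**  If the exponential sums of `E` over the cosets are small in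
mean square, then for every `w` the correlations of `w` and `E` are small in mean square. -/
theorem dispersion (ι : G →+ A) (S : Finset A) (hS : ∀ g f, f + ι g ∈ S ↔ f ∈ S)
    (w E : A → ℂ) (V : ℝ)
    (hV : ∀ ψ : AddChar G ℂ, ∑ f ∈ S, ‖∑ g, E (f + ι g) * ψ g‖ ^ 2 ≤ (Fintype.card G : ℝ) * V) :
    ∑ g, ‖∑ f ∈ S, w f * E (f + ι g)‖ ^ 2 ≤ V * ∑ f ∈ S, ‖w f‖ ^ 2 := by
  set N : ℝ := (Fintype.card G : ℝ) with hN
  have hN0 : 0 < N := by rw [hN]; exact_mod_cast Fintype.card_pos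
  have hNC : (Fintype.card G : ℂ) ≠ 0 := by exact_mod_cast Fintype.card_ne_zero
  -- the transforms
  set Et : AddChar G ℂ → A → ℂ := fun ψ f => ∑ g, E (f + ι g) * ψ g with hEt
  set wt : AddChar G ℂ → A → ℂ := fun ψ f => ∑ g, w (f + ι g) * (ψ g)⁻¹ with hwt
  have hEtg : ∀ ψ f g, Et ψ (f + ι g) = (ψ g)⁻¹ * Et ψ f := by
    intro ψ f g
    simp only [hEt]
    rw [mul_sum, ← Equiv.sum_comp (Equiv.addLeft g) (fun x => (ψ g)⁻¹ * (E (f + ι x) * ψ x))]
    refine sum_congr rfl (fun x _ => ?_)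
    simp only [Equiv.coe_addLeft, map_add, AddChar.map_add_eq_mul]
    have h0 : ψ g ≠ 0 := ψ.val_isUnit g |>.ne_zero
    rw [add_assoc]
    field_simp
  have hT : ∀ ψ : AddChar G ℂ, (Fintype.card G : ℂ) *
      ∑ g, (∑ f ∈ S, w f * E (f + ι g)) * ψ g = ∑ f ∈ S, Et ψ f * wt ψ f := by
    intro ψ
    have h1 : ∑ g, (∑ f ∈ S, w f * E (f + ι g)) * ψ g = ∑ f ∈ S, w f * Et ψ f := by
      simp only [hEt, sum_mul, mul_sum]
      rw [sum_comm]
      refine sum_congr rfl (fun f _ => sum_congr rfl (fun g _ => by ring))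
    have h2 : ∀ g : G, ∑ f ∈ S, w f * Et ψ f = ∑ f ∈ S, Et ψ f * (w (f + ι g) * (ψ g)⁻¹) := by
      intro g
      rw [← sum_shift ι S hS (fun f => w f * Et ψ f) g]
      refine sum_congr rfl (fun f _ => ?_)
      rw [hEtg]
      ring
    rw [h1]
    have h3 : (Fintype.card G : ℂ) * ∑ f ∈ S, w f * Et ψ f =
        ∑ g : G, ∑ f ∈ S, Et ψ f * (w (f + ι g) * (ψ g)⁻¹) := by
      rw [← sum_congr rfl (fun g _ => h2 g), sum_const, card_univ, nsmul_eq_mul]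
    rw [h3, sum_comm]
    refine sum_congr rfl (fun f _ => ?_)
    rw [← mul_sum]
  -- Cauchy-Schwarz for each character
  have hCS : ∀ ψ : AddChar G ℂ, N ^ 2 * ‖∑ g, (∑ f ∈ S, w f * E (f + ι g)) * ψ g‖ ^ 2 ≤
      N * V * ∑ f ∈ S, ‖wt ψ f‖ ^ 2 := by
    intro ψ
    have h1 : N ^ 2 * ‖∑ g, (∑ f ∈ S, w f * E (f + ι g)) * ψ g‖ ^ 2 =
        ‖∑ f ∈ S, Et ψ f * wt ψ f‖ ^ 2 := by
      rw [← hT ψ, norm_mul, mul_pow]
      simp [hN]
    rw [h1]
    have h2 : ‖∑ f ∈ S, Et ψ f * wt ψ f‖ ^ 2 ≤ (∑ f ∈ S, ‖Et ψ f‖ * ‖wt ψ f‖) ^ 2 := by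
      apply pow_le_pow_left₀ (norm_nonneg _)
      refine (norm_sum_le _ _).trans (le_of_eq ?_)
      exact sum_congr rfl (fun f _ => norm_mul _ _)
    have h3 : (∑ f ∈ S, ‖Et ψ f‖ * ‖wt ψ f‖) ^ 2 ≤
        (∑ f ∈ S, ‖Et ψ f‖ ^ 2) * ∑ f ∈ S, ‖wt ψ f‖ ^ 2 := sum_mul_sq_le_sq_mul_sq _ _ _
    refine h2.trans (h3.trans ?_)
    exact mul_le_mul_of_nonneg_right (hV ψ) (sum_nonneg (fun f _ => by positivity))
  -- Parseval for w
  have hw : ∑ ψ : AddChar G ℂ, ∑ f ∈ S, ‖wt ψ f‖ ^ 2 = N ^ 2 * ∑ f ∈ S, ‖w f‖ ^ 2 := by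
    rw [sum_comm]
    have h1 : ∀ f, ∑ ψ : AddChar G ℂ, ‖wt ψ f‖ ^ 2 = N * ∑ g, ‖w (f + ι g)‖ ^ 2 := by
      intro f
      rw [← parseval (fun g => w (f + ι g)), ← Equiv.sum_comp (Equiv.neg (AddChar G ℂ))]
      refine sum_congr rfl (fun ψ _ => ?_)
      simp only [hwt, Equiv.neg_apply, AddChar.neg_apply']
      congr 2
      refine sum_congr rfl (fun g _ => ?_)
      rw [inv_inv]
    simp only [h1]
    rw [← mul_sum, sum_comm, sum_congr rfl (fun g _ => sum_shift ι S hS (fun f => ‖w f‖ ^ 2) g),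
      sum_const, card_univ, nsmul_eq_mul]
    ring
  have hP := parseval (fun g => ∑ f ∈ S, w f * E (f + ι g))
  have h4 : N ^ 2 * (N * ∑ g, ‖∑ f ∈ S, w f * E (f + ι g)‖ ^ 2) ≤
      N ^ 2 * (N * (V * ∑ f ∈ S, ‖w f‖ ^ 2)) := by
    rw [← hP, mul_sum]
    calc ∑ ψ : AddChar G ℂ, N ^ 2 * ‖∑ g, (∑ f ∈ S, w f * E (f + ι g)) * ψ g‖ ^ 2
        ≤ ∑ ψ : AddChar G ℂ, N * V * ∑ f ∈ S, ‖wt ψ f‖ ^ 2 := sum_le_sum (fun ψ _ => hCS ψ)
      _ = N * V * (N ^ 2 * ∑ f ∈ S, ‖w f‖ ^ 2) := by rw [← mul_sum, hw]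
      _ = _ := by ring
  have h5 := le_of_mul_le_mul_left h4 (by positivity)
  exact le_of_mul_le_mul_left h5 hN0

end Pool.Agent.H523.CM
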