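import Pool.Agent.H523.CM9

set_option autoImplicit false
set_option linter.unusedSectionVars false

/-! # The singular series on average, and the master inequality -/

namespace Pool.Agent.H523.CM

open Polynomial Finset
open Pool.Agent.H341R2.Sharp (Mon mem_Mon)
open Pool.Agent.H523.FF (Ir mem_Ir PL mem_PL card_PL two_le_card IrLE mem_IrLE irr_coprime PL_mod
  Ir_card sum_IrLE)

open scoped Classical

variable {F : Type} [Field F] [Fintype F]

/-- the sum of `1 / |P|` over the primes `P ∣ x` with `z < deg P ≤ y` (and `1` for `x = 0`) -/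
noncomputable def Psi (z y : ℕ) (x : F[X]) : ℝ :=
  if x = 0 then 1 else ∑ P ∈ (IrLE F y \ IrLE F z).filter (fun P => P ∣ x),
    1 / (Fintype.card F : ℝ) ^ P.natDegree

theorem Psi_nonneg (z y : ℕ) (x : F[X]) : 0 ≤ Psi z y x := by
  unfold Psi
  split_ifs
  · exact zero_le_one
  · exact sum_nonneg (fun P _ => by positivity)

theorem mem_sd {z y : ℕ} {P : F[X]} : P ∈ IrLE F y \ IrLE F z ↔
    P.Monic ∧ Irreducible P ∧ z < P.natDegree ∧ P.natDegree ≤ y := by
  rw [mem_sdiff, mem_IrLE, mem_IrLE]
  constructor
  · rintro ⟨⟨h1, h2, h3⟩, h4⟩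
    refine ⟨h1, h2, ?_, h3⟩
    by_contra h5
    exact h4 ⟨h1, h2, by omega⟩
  · rintro ⟨h1, h2, h3, h4⟩
    exact ⟨⟨h1, h2, h4⟩, fun h => by omega⟩

theorem sum_sq_inv (z y : ℕ) : ∑ P ∈ IrLE F y \ IrLE F z,
    1 / ((Fintype.card F : ℝ) ^ P.natDegree) ^ 2 ≤ 1 / (Fintype.card F : ℝ) ^ z := by
  have hq := two_le_card (F := F)
  set q : ℝ := (Fintype.card F : ℝ) with hqd
  have hq0 : 0 < q := by linarith
  have hsub : IrLE F y \ IrLE F z ⊆ (Finset.Ioc z y).biUnion (Ir F) := by
    intro P hP
    rw [mem_sd] at hP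
    rw [mem_biUnion]
    exact ⟨P.natDegree, mem_Ioc.mpr ⟨hP.2.2.1, hP.2.2.2⟩, mem_Ir.mpr ⟨hP.1, hP.2.1, rfl⟩⟩
  calc ∑ P ∈ IrLE F y \ IrLE F z, 1 / (q ^ P.natDegree) ^ 2
      ≤ ∑ P ∈ (Finset.Ioc z y).biUnion (Ir F), 1 / (q ^ P.natDegree) ^ 2 :=
        sum_le_sum_of_subset_of_nonneg hsub (fun P _ _ => by positivity)
    _ = ∑ e ∈ Finset.Ioc z y, ((Ir F e).card : ℝ) * (1 / (q ^ e) ^ 2) :=
        sum_IrLE (Finset.Ioc z y) (fun e => 1 / (q ^ e) ^ 2)
    _ ≤ ∑ e ∈ Finset.Ioc z y, (1 / q) ^ e := by
        apply sum_le_sum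
        intro e he
        rw [mem_Ioc] at he
        have h1 := Ir_card (F := F) e (by omega)
        have h2 : (Ir F e).card ≤ Fintype.card F ^ e :=
          le_trans (Nat.le_mul_of_pos_left _ (by omega)) h1
        have h3 : ((Ir F e).card : ℝ) ≤ q ^ e := by rw [hqd]; exact_mod_cast h2
        calc ((Ir F e).card : ℝ) * (1 / (q ^ e) ^ 2) ≤ q ^ e * (1 / (q ^ e) ^ 2) :=
              mul_le_mul_of_nonneg_right h3 (by positivity)
          _ = (1 / q) ^ e := by
              rw [one_div_pow]
              field_simp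
    _ ≤ 1 / q ^ z := by
        -- geometric series
        have hx0 : 0 < 1 / q := by positivity
        have hx2 : 1 / q ≤ 1 / 2 := one_div_le_one_div_of_le (by norm_num) hq
        rcases le_or_gt y z with hyz | hyz
        · rw [Ioc_eq_empty (by omega), sum_empty]; positivity
        · have h1 : ∑ e ∈ Finset.Ioc z y, (1 / q) ^ e = (1 / q) ^ z * ∑ j ∈ Finset.Icc 1 (y - z), (1 / q) ^ j := by
            rw [mul_sum]
            symm
            refine sum_bij (fun j _ => z + j) ?_ (fun a _ b _ h => by simpa using h) ?_ ?_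
            · intro j hj
              rw [mem_Icc] at hj
              rw [mem_Ioc]
              omega
            · intro e he
              rw [mem_Ioc] at he
              exact ⟨e - z, mem_Icc.mpr (by omega), by omega⟩
            · intro j _
              rw [← pow_add]
          have h2 : ∑ j ∈ Finset.Icc 1 (y - z), (1 / q) ^ j ≤ 1 := by
            calc ∑ j ∈ Finset.Icc 1 (y - z), (1 / q) ^ j
                ≤ ∑ j ∈ Finset.Icc 1 (y - z), (1 / 2 : ℝ) * (1 / 2) ^ (j - 1) := by
                  apply sum_le_sum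
                  intro j hj
                  rw [mem_Icc] at hj
                  calc (1 / q) ^ j ≤ (1 / 2 : ℝ) ^ j := pow_le_pow_left₀ hx0.le hx2 j
                    _ = (1 / 2 : ℝ) * (1 / 2) ^ (j - 1) := by
                        rw [← pow_succ']; congr 1; omega
              _ = (1 / 2 : ℝ) * ∑ j ∈ Finset.Icc 1 (y - z), (1 / 2 : ℝ) ^ (j - 1) := by rw [mul_sum]
              _ ≤ (1 / 2 : ℝ) * 2 :=
                  mul_le_mul_of_nonneg_left (Pool.Agent.H523.FF.sum_half _) (by norm_num)
              _ = 1 := by norm_num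
          rw [h1, one_div_pow]
          exact mul_le_of_le_one_right (by positivity) h2

/-- the number of the prime divisors -/
theorem card_prime_divisors {S : Finset F[X]} (hS : ∀ P ∈ S, P.Monic ∧ Irreducible P) {x : F[X]}
    (hx : x ≠ 0) (hd : ∀ P ∈ S, P ∣ x) : S.card ≤ x.natDegree := by
  have h1 : ∏ P ∈ S, P ∣ x := (prod_dvd_iff hS x).mpr hd
  have h2 := natDegree_le_of_dvd h1 hx
  rw [natDegree_pr hS] at h2
  refine le_trans ?_ h2
  calc S.card = ∑ _P ∈ S, 1 := by simp
    _ ≤ ∑ P ∈ S, P.natDegree := sum_le_sum (fun P hP => (hS P hP).2.natDegree_pos)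

/-- **The average of `Psi` over a disc** -/
theorem Psi_avg {n m z y : ℕ} (hmn : m ≤ n) {B : F[X]} (hB : B.degree < n) :
    ∑ h ∈ PL F m, Psi z y (B - h) ≤
      (Fintype.card F : ℝ) ^ m * (1 / (Fintype.card F : ℝ) ^ z +
        (n + 1) / (Fintype.card F : ℝ) ^ m) := by
  have hq := two_le_card (F := F)
  set q : ℝ := (Fintype.card F : ℝ) with hqd
  have hq0 : 0 < q := by linarith
  set TT := IrLE F y \ IrLE F z with hTT
  have hpt : ∀ h ∈ PL F m, Psi z y (B - h) ≤ (if h = B then 1 else 0) +
      (∑ P ∈ TT.filter (fun P => P.natDegree ≤ m), (if P ∣ B - h then 1 / q ^ P.natDegree else 0) +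
        n / q ^ m) := by
    intro h hh
    have hnn : 0 ≤ ∑ P ∈ TT.filter (fun P => P.natDegree ≤ m),
        (if P ∣ B - h then 1 / q ^ P.natDegree else 0) :=
      sum_nonneg (fun P _ => by split_ifs <;> positivity)
    unfold Psi
    by_cases h0 : B - h = 0
    · have h1 : h = B := (sub_eq_zero.mp h0).symm
      rw [if_pos h0, if_pos h1]
      have : 0 ≤ (n:ℝ) / q ^ m := by positivity
      linarith
    · have h1 : h ≠ B := fun h2 => h0 (by rw [h2, sub_self])
      rw [if_neg h0, if_neg h1, zero_add]
      have hsp := sum_filter_add_sum_filter_not (TT.filter (fun P => P ∣ B - h))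
        (fun P => P.natDegree ≤ m) (fun P => 1 / q ^ P.natDegree)
      rw [← hsp]
      apply add_le_add
      · rw [filter_filter, ← sum_filter, filter_filter]
        apply le_of_eq
        congr 1
        ext P
        simp only [mem_filter]
        tauto
      · have hS : ∀ P ∈ (TT.filter (fun P => P ∣ B - h)).filter (fun P => ¬ P.natDegree ≤ m),
            P.Monic ∧ Irreducible P ∧ P ∣ B - h ∧ m < P.natDegree := by
          intro P hP
          rw [mem_filter, mem_filter, hTT, mem_sd] at hP
          exact ⟨hP.1.1.1, hP.1.1.2.1, hP.1.2, by omega⟩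
        have hc := card_prime_divisors (fun P hP => ⟨(hS P hP).1, (hS P hP).2.1⟩) h0
          (fun P hP => (hS P hP).2.2.1)
        have hdeg : (B - h).natDegree ≤ n := by
          have h3 : (B - h).degree < n := lt_of_le_of_lt (degree_sub_le _ _)
            (max_lt hB (lt_of_lt_of_le (mem_PL.mp hh) (by exact_mod_cast hmn)))
          rw [degree_eq_natDegree h0] at h3
          have : (B - h).natDegree < n := by exact_mod_cast h3
          omega
        calc ∑ P ∈ (TT.filter (fun P => P ∣ B - h)).filter (fun P => ¬ P.natDegree ≤ m),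
              1 / q ^ P.natDegree
            ≤ ∑ _P ∈ (TT.filter (fun P => P ∣ B - h)).filter (fun P => ¬ P.natDegree ≤ m),
                1 / q ^ m := by
              refine sum_le_sum (fun P hP => ?_)
              exact one_div_le_one_div_of_le (by positivity)
                (pow_le_pow_right₀ (by linarith) (hS P hP).2.2.2.le)
          _ ≤ n * (1 / q ^ m) := by
              rw [sum_const, nsmul_eq_mul]
              apply mul_le_mul_of_nonneg_right _ (by positivity)
              exact_mod_cast hc.trans hdeg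
          _ = n / q ^ m := by ring
  calc ∑ h ∈ PL F m, Psi z y (B - h)
      ≤ ∑ h ∈ PL F m, ((if h = B then (1:ℝ) else 0) +
      (∑ P ∈ TT.filter (fun P => P.natDegree ≤ m), (if P ∣ B - h then 1 / q ^ P.natDegree else 0) +
        n / q ^ m)) := sum_le_sum hpt
    _ = ∑ h ∈ PL F m, (if h = B then (1:ℝ) else 0) +
        (∑ P ∈ TT.filter (fun P => P.natDegree ≤ m),
          ∑ h ∈ PL F m, (if P ∣ B - h then 1 / q ^ P.natDegree else 0) + n) := by
        rw [sum_add_distrib, sum_add_distrib, sum_comm, sum_const, card_PL, nsmul_eq_mul, hqd]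
        push_cast
        congr 2
        field_simp
    _ ≤ 1 + (q ^ m * (1 / q ^ z) + n) := by
        apply add_le_add
        · rw [sum_ite_eq']
          split_ifs <;> norm_num
        · apply add_le_add _ le_rfl
          calc ∑ P ∈ TT.filter (fun P => P.natDegree ≤ m),
                ∑ h ∈ PL F m, (if P ∣ B - h then 1 / q ^ P.natDegree else 0)
              = ∑ P ∈ TT.filter (fun P => P.natDegree ≤ m), q ^ m * (1 / (q ^ P.natDegree) ^ 2) := by
                refine sum_congr rfl (fun P hP => ?_)
                rw [mem_filter, hTT, mem_sd] at hP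
                rw [← sum_filter, sum_const, nsmul_eq_mul]
                have h1 : (PL F m).filter (fun h => P ∣ B - h) = (PL F m).filter (fun h => P ∣ h - B) := by
                  apply filter_congr
                  intro h _
                  rw [← dvd_neg, neg_sub]
                rw [h1, PL_mod P hP.1.1 B m hP.2]
                have h2 : q ^ m = q ^ (m - P.natDegree) * q ^ P.natDegree := by
                  rw [← pow_add, Nat.sub_add_cancel hP.2]
                rw [h2, hqd]
                push_cast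
                field_simp
            _ = q ^ m * ∑ P ∈ TT.filter (fun P => P.natDegree ≤ m), 1 / (q ^ P.natDegree) ^ 2 := by
                rw [mul_sum]
            _ ≤ q ^ m * (1 / q ^ z) := by
                apply mul_le_mul_of_nonneg_left _ (by positivity)
                refine le_trans ?_ (sum_sq_inv (F := F) z y)
                exact sum_le_sum_of_subset_of_nonneg (filter_subset _ _) (fun P _ _ => by positivity)
    _ = q ^ m * (1 / q ^ z + (n + 1) / q ^ m) := by
        field_simp
        ring

/-- the size of the exceptional primes of a tuple -/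
noncomputable def DD {k : ℕ} (z y : ℕ) (g : Fin k → F[X]) : ℝ :=
  ∑ i, ∑ j, if i = j then 0 else Psi z y (g i - g j)

theorem DD_nonneg {k : ℕ} (z y : ℕ) (g : Fin k → F[X]) : 0 ≤ DD z y g :=
  sum_nonneg (fun i _ => sum_nonneg (fun j _ => by
    split_ifs
    · exact le_rfl
    · exact Psi_nonneg _ _ _))

/-- **The average of the exceptional primes** -/
theorem DD_avg {k n m z y : ℕ} (hmn : m ≤ n) (a : Fin k → F[X]) (ha : ∀ i, (a i).degree < n) :
    ∑ c : Fin k → (Fin m → F), DD z y (fun i => a i + inc m (c i)) ≤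
      (k:ℝ) ^ 2 * (((Fintype.card F : ℝ) ^ m) ^ k * (1 / (Fintype.card F : ℝ) ^ z +
        (n + 1) / (Fintype.card F : ℝ) ^ m)) := by
  have hq := two_le_card (F := F)
  set q : ℝ := (Fintype.card F : ℝ) with hqd
  have hq0 : 0 < q := by linarith
  set η : ℝ := 1 / q ^ z + (n + 1) / q ^ m with hη
  have hη0 : 0 ≤ η := by positivity
  have hcard : (Fintype.card (Fin m → F) : ℝ) = q ^ m := by
    rw [Fintype.card_fun, Fintype.card_fin, hqd]; push_cast; rfl
  have hpair : ∀ i j : Fin k, i ≠ j → ∑ c : Fin k → (Fin m → F),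
      Psi z y (a i + inc m (c i) - (a j + inc m (c j))) ≤ (q ^ m) ^ k * η := by
    intro i j hij
    rw [← (Equiv.funSplitAt j (Fin m → F)).symm.sum_comp, Fintype.sum_prod_type, sum_comm]
    have h1 : ∀ (r : {l // l ≠ j} → (Fin m → F)) (x : Fin m → F),
        Psi z y (a i + inc m (((Equiv.funSplitAt j (Fin m → F)).symm (x, r)) i) -
          (a j + inc m (((Equiv.funSplitAt j (Fin m → F)).symm (x, r)) j))) =
        Psi z y ((a i + inc m (r ⟨i, hij⟩) - a j) - inc m x) := by
      intro r x
      congr 1
      simp only [Equiv.funSplitAt_symm_apply, dif_neg hij, dite_true]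
      ring
    simp only [h1]
    have h2 : ∀ r : {l // l ≠ j} → (Fin m → F), ∑ x : Fin m → F,
        Psi z y ((a i + inc m (r ⟨i, hij⟩) - a j) - inc m x) ≤ q ^ m * η := by
      intro r
      rw [sum_inc m (fun h => Psi z y ((a i + inc m (r ⟨i, hij⟩) - a j) - h))]
      apply Psi_avg hmn
      refine lt_of_le_of_lt (degree_sub_le _ _) (max_lt ?_ (ha j))
      refine lt_of_le_of_lt (degree_add_le _ _) (max_lt (ha i) ?_)
      exact lt_of_lt_of_le (mem_PL.mp (inc_mem _)) (by exact_mod_cast hmn)
    refine (sum_le_sum (fun r _ => h2 r)).trans (le_of_eq ?_)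
    rw [sum_const, card_univ, nsmul_eq_mul]
    have h3 : (Fintype.card ({l : Fin k // l ≠ j} → (Fin m → F)) : ℝ) = (q ^ m) ^ (k - 1) := by
      rw [Fintype.card_fun]
      push_cast
      rw [hcard, Fintype.card_subtype_compl, Fintype.card_subtype_eq, Fintype.card_fin]
    rw [h3]
    have hk : 1 ≤ k := by
      have := i.2
      omega
    have h4 : (q ^ m) ^ k = (q ^ m) ^ (k - 1) * q ^ m := by
      rw [← pow_succ]; congr 1; omega
    rw [h4]
    ring
  unfold DD
  rw [sum_comm]
  calc ∑ i : Fin k, ∑ c : Fin k → (Fin m → F), ∑ j : Fin k,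
        (if i = j then 0 else Psi z y (a i + inc m (c i) - (a j + inc m (c j))))
      ≤ ∑ i : Fin k, ∑ j : Fin k, (q ^ m) ^ k * η := by
        apply sum_le_sum
        intro i _
        rw [sum_comm]
        apply sum_le_sum
        intro j _
        by_cases hij : i = j
        · simp only [if_pos hij, sum_const_zero]; positivity
        · simp only [if_neg hij]
          exact hpair i j hij
    _ = _ := by
        simp only [sum_const, card_univ, Fintype.card_fin, nsmul_eq_mul]
        ring

theorem nu_eq {k : ℕ} {z y : ℕ} {P : F[X]} (hP : P ∈ IrLE F y \ IrLE F z) {g : Fin k → F[X]}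
    (h : nu P g ≠ k) : ∃ i j : Fin k, i ≠ j ∧ P ∣ g i - g j := by
  have hPm := mem_sd.mp hP
  by_contra hcon
  push Not at hcon
  apply h
  unfold nu
  rw [card_image_of_injective, card_univ, Fintype.card_fin]
  intro i j hij
  by_contra hne
  apply hcon i j hne
  rw [← modByMonic_eq_zero_iff_dvd hPm.1, sub_modByMonic, sub_eq_zero]
  exact hij

theorem beta_prod_le {k z : ℕ} (hz : 0 < z) (g : Fin k → F[X]) :
    0 ≤ ∏ P ∈ IrLE F z, beta P g ∧ ∏ P ∈ IrLE F z, beta P g ≤ (Real.exp 3 * z) ^ k := by
  have h0 : ∀ P ∈ IrLE F z, 0 ≤ beta P g ∧ beta P g ≤ (1 + gP P) ^ k := by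
    intro P hP
    have hPm := mem_IrLE.mp hP
    have hn := norm_gt hPm.2.1
    have hx0 : 0 < (Fintype.card F : ℝ) ^ P.natDegree := by linarith
    have h1 := local_sum hPm.1 hPm.2.1 g
    have h2 : ∀ b : F[X], 0 ≤ ∏ i, (1 + aP P (b + g i)) ∧
        ∏ i, (1 + aP P (b + g i)) ≤ (1 + gP P) ^ k := by
      intro b
      constructor
      · exact prod_nonneg (fun i _ => (one_add_aP hPm.2.1 _).1)
      · calc ∏ i, (1 + aP P (b + g i)) ≤ ∏ _i : Fin k, (1 + gP P) :=
            prod_le_prod (fun i _ => (one_add_aP hPm.2.1 _).1) (fun i _ => (one_add_aP hPm.2.1 _).2)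
          _ = _ := by simp
    constructor
    · by_contra hneg
      push Not at hneg
      have h3 : 0 ≤ (Fintype.card F : ℝ) ^ P.natDegree * beta P g := by
        rw [← h1]
        exact sum_nonneg (fun b _ => (h2 b).1)
      nlinarith
    · have h3 : (Fintype.card F : ℝ) ^ P.natDegree * beta P g ≤
          (Fintype.card F : ℝ) ^ P.natDegree * (1 + gP P) ^ k := by
        rw [← h1]
        refine (sum_le_sum (fun b _ => (h2 b).2)).trans (le_of_eq ?_)
        rw [sum_const, card_PL, nsmul_eq_mul]
        push_cast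
        rfl
      exact le_of_mul_le_mul_left h3 hx0
  constructor
  · exact prod_nonneg (fun P hP => (h0 P hP).1)
  · refine (prod_le_prod (fun P hP => (h0 P hP).1) (fun P hP => (h0 P hP).2)).trans ?_
    rw [prod_pow]
    apply pow_le_pow_left₀ _ (mertens hz)
    exact prod_nonneg (fun P hP => by
      have := gP_pos (mem_IrLE.mp hP).2.1
      positivity)

/-- **The tail of the singular series** -/
theorem singular_tail {k z y : ℕ} (hz : 0 < z) (hzy : z ≤ y)
    (hk : 2 * (k:ℝ) ≤ (Fintype.card F : ℝ) ^ z) (g : Fin k → F[X]) (hD1 : DD z y g < 1)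
    (hD : 2 * k * DD z y g ≤ 1) :
    |∏ P ∈ IrLE F y, beta P g - ∏ P ∈ IrLE F z, beta P g| ≤
      (Real.exp 3 * z) ^ k * (5 * k * DD z y g + (k:ℝ) ^ 2 / (Fintype.card F : ℝ) ^ z) := by
  have hq := two_le_card (F := F)
  set q : ℝ := (Fintype.card F : ℝ) with hqd
  have hq0 : 0 < q := by linarith
  set TT := IrLE F y \ IrLE F z with hTT
  have hk0 : (0:ℝ) ≤ k := Nat.cast_nonneg _
  -- the differences do not vanish
  have hPsi : ∀ i j : Fin k, i ≠ j → Psi z y (g i - g j) ≤ DD z y g := by
    intro i j hij
    unfold DD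
    have hnn : ∀ i j : Fin k, 0 ≤ (if i = j then 0 else Psi z y (g i - g j)) := by
      intro i j
      split_ifs
      · exact le_rfl
      · exact Psi_nonneg _ _ _
    calc Psi z y (g i - g j) = (if i = j then 0 else Psi z y (g i - g j)) := by rw [if_neg hij]
      _ ≤ ∑ j, (if i = j then 0 else Psi z y (g i - g j)) :=
          single_le_sum (f := fun j => if i = j then 0 else Psi z y (g i - g j))
            (fun j _ => hnn i j) (mem_univ j)
      _ ≤ _ := single_le_sum (f := fun i => ∑ j, if i = j then 0 else Psi z y (g i - g j))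
            (fun i _ => sum_nonneg (fun j _ => hnn i j)) (mem_univ i)
  have hne : ∀ i j : Fin k, i ≠ j → g i - g j ≠ 0 := by
    intro i j hij h0
    have h1 := hPsi i j hij
    unfold Psi at h1
    rw [if_pos h0] at h1
    linarith
  -- the sum over the exceptional primes
  have hsum : ∑ P ∈ TT, (if nu P g = k then 0 else 1 / q ^ P.natDegree) ≤ DD z y g := by
    calc ∑ P ∈ TT, (if nu P g = k then 0 else 1 / q ^ P.natDegree)
        ≤ ∑ P ∈ TT, ∑ i : Fin k, ∑ j : Fin k,
            (if i = j then 0 else if P ∣ g i - g j then 1 / q ^ P.natDegree else 0) := by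
          apply sum_le_sum
          intro P hP
          have hnn : ∀ i j : Fin k,
              0 ≤ (if i = j then 0 else if P ∣ g i - g j then 1 / q ^ P.natDegree else 0) := by
            intro i j
            split_ifs <;> positivity
          split_ifs with hν
          · exact sum_nonneg (fun i _ => sum_nonneg (fun j _ => hnn i j))
          · obtain ⟨i, j, hij, hd⟩ := nu_eq hP hν
            calc 1 / q ^ P.natDegree =
                (if i = j then 0 else if P ∣ g i - g j then 1 / q ^ P.natDegree else 0) := by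
                  rw [if_neg hij, if_pos hd]
              _ ≤ ∑ j, (if i = j then 0 else if P ∣ g i - g j then 1 / q ^ P.natDegree else 0) :=
                  single_le_sum (f := fun j => if i = j then 0 else
                    if P ∣ g i - g j then 1 / q ^ P.natDegree else 0) (fun j _ => hnn i j)
                    (mem_univ j)
              _ ≤ _ := single_le_sum (f := fun i => ∑ j, if i = j then 0 else
                    if P ∣ g i - g j then 1 / q ^ P.natDegree else 0)
                    (fun i _ => sum_nonneg (fun j _ => hnn i j)) (mem_univ i)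
      _ = DD z y g := by
          unfold DD
          rw [sum_comm]
          refine sum_congr rfl (fun i _ => ?_)
          rw [sum_comm]
          refine sum_congr rfl (fun j _ => ?_)
          by_cases hij : i = j
          · simp [hij]
          · simp only [if_neg hij]
            unfold Psi
            rw [if_neg (hne i j hij), ← sum_filter]
  have hkP : ∀ P ∈ TT, 2 * (k:ℝ) ≤ q ^ P.natDegree := by
    intro P hP
    have := (mem_sd.mp hP).2.2.1
    exact hk.trans (pow_le_pow_right₀ (by linarith) this.le)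
  have hb : ∀ P ∈ TT, _ := fun P hP => beta_bounds (mem_sd.mp hP).2.1 g (hkP P hP)
  have ht : ∑ P ∈ TT, (if nu P g = k then 0 else 2 * (k:ℝ) / q ^ P.natDegree) ≤ 2 * k * DD z y g := by
    calc ∑ P ∈ TT, (if nu P g = k then 0 else 2 * (k:ℝ) / q ^ P.natDegree)
        = 2 * k * ∑ P ∈ TT, (if nu P g = k then 0 else 1 / q ^ P.natDegree) := by
          rw [mul_sum]
          refine sum_congr rfl (fun P _ => ?_)
          split_ifs <;> ring
      _ ≤ _ := mul_le_mul_of_nonneg_left hsum (by positivity)
  have ht0 : 0 ≤ ∑ P ∈ TT, (if nu P g = k then 0 else 2 * (k:ℝ) / q ^ P.natDegree) :=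
    sum_nonneg (fun P _ => by split_ifs <;> positivity)
  have ha : ∑ P ∈ TT, ((k:ℝ) ^ 2 / (q ^ P.natDegree) ^ 2 +
      (if nu P g = k then 0 else k / q ^ P.natDegree)) ≤ (k:ℝ) ^ 2 / q ^ z + k * DD z y g := by
    rw [sum_add_distrib]
    apply add_le_add
    · calc ∑ P ∈ TT, (k:ℝ) ^ 2 / (q ^ P.natDegree) ^ 2
          = (k:ℝ) ^ 2 * ∑ P ∈ TT, 1 / (q ^ P.natDegree) ^ 2 := by
            rw [mul_sum]
            exact sum_congr rfl (fun P _ => by ring)
        _ ≤ (k:ℝ) ^ 2 * (1 / q ^ z) :=
            mul_le_mul_of_nonneg_left (sum_sq_inv (F := F) z y) (by positivity)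
        _ = _ := by ring
    · calc ∑ P ∈ TT, (if nu P g = k then 0 else (k:ℝ) / q ^ P.natDegree)
          = k * ∑ P ∈ TT, (if nu P g = k then 0 else 1 / q ^ P.natDegree) := by
            rw [mul_sum]
            refine sum_congr rfl (fun P _ => ?_)
            split_ifs <;> ring
        _ ≤ _ := mul_le_mul_of_nonneg_left hsum hk0
  have hnear := prod_near_one TT (fun P => beta P g)
    (fun P => (k:ℝ) ^ 2 / (q ^ P.natDegree) ^ 2 + (if nu P g = k then 0 else k / q ^ P.natDegree))
    (fun P => if nu P g = k then 0 else 2 * k / q ^ P.natDegree)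
    (fun P hP => (hb P hP).2.1) (fun P hP => by
      have := (hb P hP).1
      rw [← hqd] at this
      linarith) (fun P hP => (hb P hP).2.2)
    (fun P _ => by split_ifs <;> positivity) (ht.trans hD) ht0
  have hsplit : ∏ P ∈ IrLE F y, beta P g = (∏ P ∈ TT, beta P g) * ∏ P ∈ IrLE F z, beta P g := by
    rw [hTT, prod_sdiff]
    intro P hP
    rw [mem_IrLE] at hP ⊢
    exact ⟨hP.1, hP.2.1, hP.2.2.trans hzy⟩
  obtain ⟨hS0, hS1⟩ := beta_prod_le hz g
  rw [hsplit]
  have e : (∏ P ∈ TT, beta P g) * ∏ P ∈ IrLE F z, beta P g - ∏ P ∈ IrLE F z, beta P g =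
      (∏ P ∈ IrLE F z, beta P g) * (∏ P ∈ TT, beta P g - 1) := by ring
  rw [e, abs_mul, abs_of_nonneg hS0]
  apply mul_le_mul hS1 _ (abs_nonneg _) (by positivity)
  refine hnear.trans ?_
  linarith

end Pool.Agent.H523.CM
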