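import Pool.Agent.H523.CM10

set_option autoImplicit false
set_option linter.unusedSectionVars false

/-! # The transfer theorem with an averaged bound for the prime factors -/

namespace Pool.Agent.H523.CM

open Polynomial Finset
open Pool.Agent.H341R2.Sharp (Mon mem_Mon)
open Pool.Agent.H523.FF (Ir mem_Ir PL mem_PL card_PL two_le_card IrLE mem_IrLE irr_coprime PL_mod Ir_card
  sum_IrLE)
open Pool.Agent.H523.RH (NP Phi Phi_prod Phi_pos var_NP)

open scoped Classical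

variable {F : Type} [Field F] [Fintype F]

/-- telescoping with different centres and a bound which depends on the point -/
theorem telescope2 {G A : Type} [AddCommGroup G] [Fintype G] [AddCommGroup A] (ι : G →+ A)
    (S : Finset A) (X Y : A → ℝ) (V : ℝ) (hV0 : 0 ≤ V) (K : A → ℝ) (hK0 : ∀ f, 0 ≤ K f)
    (k : ℕ) (a : Fin k → A)
    (hdisp : ∀ (i : Fin k) (w : A → ℂ), ∑ g, ‖∑ f ∈ S, w f *
      ((X (f + a i + ι g) - Y (f + a i + ι g) : ℝ) : ℂ)‖ ^ 2 ≤ V * ∑ f ∈ S, ‖w f‖ ^ 2)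
    (hX : ∀ (i : Fin k), ∀ f ∈ S, ∑ g, X (f + a i + ι g) ^ 2 ≤ K f)
    (hY : ∀ (i : Fin k), ∀ f ∈ S, ∑ g, Y (f + a i + ι g) ^ 2 ≤ K f)
    (b : A → ℂ) :
    ∑ c : Fin k → G, ‖∑ f ∈ S, b f *
        ((∏ i, X (f + a i + ι (c i)) - ∏ i, Y (f + a i + ι (c i)) : ℝ) : ℂ)‖ ^ 2 ≤
      (2 ^ (k + 1) - 2) * V * ∑ f ∈ S, ‖b f‖ ^ 2 * K f ^ (k - 1) := by
  induction k generalizing b with
  | zero => simp
  | succ k ih =>
    have hsplit : ∑ c : Fin (k + 1) → G,
        ‖∑ f ∈ S, b f * ((∏ i, X (f + a i + ι (c i)) - ∏ i, Y (f + a i + ι (c i)) : ℝ) : ℂ)‖ ^ 2 =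
        ∑ g : G, ∑ c : Fin k → G, ‖∑ f ∈ S, b f *
          ((X (f + a 0 + ι g) * ∏ i : Fin k, X (f + a i.succ + ι (c i)) -
          Y (f + a 0 + ι g) * ∏ i : Fin k, Y (f + a i.succ + ι (c i)) : ℝ) : ℂ)‖ ^ 2 := by
      rw [← (Fin.consEquiv (fun _ : Fin (k + 1) => G)).sum_comp, Fintype.sum_prod_type]
      refine sum_congr rfl (fun g _ => sum_congr rfl (fun c _ => ?_))
      simp only [Fin.consEquiv_apply, Fin.prod_univ_succ, Fin.cons_zero, Fin.cons_succ]
    rw [hsplit]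
    have hpt : ∀ (g : G) (c : Fin k → G), ‖∑ f ∈ S, b f *
          ((X (f + a 0 + ι g) * ∏ i : Fin k, X (f + a i.succ + ι (c i)) -
          Y (f + a 0 + ι g) * ∏ i : Fin k, Y (f + a i.succ + ι (c i)) : ℝ) : ℂ)‖ ^ 2 ≤
        2 * ‖∑ f ∈ S, (b f * (X (f + a 0 + ι g) : ℂ)) *
          ((∏ i : Fin k, X (f + a i.succ + ι (c i)) -
            ∏ i : Fin k, Y (f + a i.succ + ι (c i)) : ℝ) : ℂ)‖ ^ 2 +
        2 * ‖∑ f ∈ S, (b f * ((∏ i : Fin k, Y (f + a i.succ + ι (c i)) : ℝ) : ℂ)) *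
          ((X (f + a 0 + ι g) - Y (f + a 0 + ι g) : ℝ) : ℂ)‖ ^ 2 := by
      intro g c
      have e : ∑ f ∈ S, b f * ((X (f + a 0 + ι g) * ∏ i : Fin k, X (f + a i.succ + ι (c i)) -
          Y (f + a 0 + ι g) * ∏ i : Fin k, Y (f + a i.succ + ι (c i)) : ℝ) : ℂ) =
          ∑ f ∈ S, (b f * (X (f + a 0 + ι g) : ℂ)) *
          ((∏ i : Fin k, X (f + a i.succ + ι (c i)) -
            ∏ i : Fin k, Y (f + a i.succ + ι (c i)) : ℝ) : ℂ) +
          ∑ f ∈ S, (b f * ((∏ i : Fin k, Y (f + a i.succ + ι (c i)) : ℝ) : ℂ)) *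
          ((X (f + a 0 + ι g) - Y (f + a 0 + ι g) : ℝ) : ℂ) := by
        rw [← sum_add_distrib]
        refine sum_congr rfl (fun f _ => ?_)
        push_cast
        ring
      rw [e]
      have h1 := norm_add_le (∑ f ∈ S, (b f * (X (f + a 0 + ι g) : ℂ)) *
          ((∏ i : Fin k, X (f + a i.succ + ι (c i)) -
            ∏ i : Fin k, Y (f + a i.succ + ι (c i)) : ℝ) : ℂ))
          (∑ f ∈ S, (b f * ((∏ i : Fin k, Y (f + a i.succ + ι (c i)) : ℝ) : ℂ)) *
          ((X (f + a 0 + ι g) - Y (f + a 0 + ι g) : ℝ) : ℂ))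
      refine (pow_le_pow_left₀ (norm_nonneg _) h1 2).trans ?_
      nlinarith [sq_nonneg (‖∑ f ∈ S, (b f * (X (f + a 0 + ι g) : ℂ)) *
          ((∏ i : Fin k, X (f + a i.succ + ι (c i)) -
            ∏ i : Fin k, Y (f + a i.succ + ι (c i)) : ℝ) : ℂ)‖ -
          ‖∑ f ∈ S, (b f * ((∏ i : Fin k, Y (f + a i.succ + ι (c i)) : ℝ) : ℂ)) *
          ((X (f + a 0 + ι g) - Y (f + a 0 + ι g) : ℝ) : ℂ)‖)]
    have hk0 : (0:ℝ) ≤ 2 ^ (k + 1) - 2 := by
      have : (2:ℝ) ^ 1 ≤ 2 ^ (k + 1) := pow_le_pow_right₀ (by norm_num) (by omega)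
      linarith
    have h1 : ∑ g : G, ∑ c : Fin k → G, ‖∑ f ∈ S, (b f * (X (f + a 0 + ι g) : ℂ)) *
          ((∏ i : Fin k, X (f + a i.succ + ι (c i)) -
            ∏ i : Fin k, Y (f + a i.succ + ι (c i)) : ℝ) : ℂ)‖ ^ 2 ≤
        (2 ^ (k + 1) - 2) * V * ∑ f ∈ S, ‖b f‖ ^ 2 * K f ^ k := by
      calc ∑ g : G, ∑ c : Fin k → G, ‖∑ f ∈ S, (b f * (X (f + a 0 + ι g) : ℂ)) *
          ((∏ i : Fin k, X (f + a i.succ + ι (c i)) -
            ∏ i : Fin k, Y (f + a i.succ + ι (c i)) : ℝ) : ℂ)‖ ^ 2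
          ≤ ∑ g : G, (2 ^ (k + 1) - 2) * V *
              ∑ f ∈ S, ‖b f * (X (f + a 0 + ι g) : ℂ)‖ ^ 2 * K f ^ (k - 1) :=
            sum_le_sum (fun g _ => ih (fun i => a i.succ) (fun i w => hdisp i.succ w)
              (fun i f hf => hX i.succ f hf) (fun i f hf => hY i.succ f hf)
              (fun f => b f * (X (f + a 0 + ι g) : ℂ)))
        _ = (2 ^ (k + 1) - 2) * V *
              ∑ f ∈ S, ‖b f‖ ^ 2 * (∑ g : G, X (f + a 0 + ι g) ^ 2) * K f ^ (k - 1) := by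
            rw [← mul_sum, sum_comm]
            congr 1
            refine sum_congr rfl (fun f _ => ?_)
            rw [mul_sum, sum_mul]
            refine sum_congr rfl (fun g _ => ?_)
            rw [norm_mul, mul_pow, Complex.norm_real, Real.norm_eq_abs, sq_abs]
        _ ≤ (2 ^ (k + 1) - 2) * V * ∑ f ∈ S, ‖b f‖ ^ 2 * K f * K f ^ (k - 1) := by
            apply mul_le_mul_of_nonneg_left _ (mul_nonneg hk0 hV0)
            exact sum_le_sum (fun f hf => mul_le_mul_of_nonneg_right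
              (mul_le_mul_of_nonneg_left (hX 0 f hf) (by positivity)) (pow_nonneg (hK0 f) _))
        _ = (2 ^ (k + 1) - 2) * V * ∑ f ∈ S, ‖b f‖ ^ 2 * K f ^ k := by
            rcases Nat.eq_zero_or_pos k with hk | hk
            · subst hk; simp
            · congr 1
              refine sum_congr rfl (fun f _ => ?_)
              have : K f ^ k = K f ^ (k - 1) * K f := by
                rw [← pow_succ, Nat.sub_add_cancel hk]
              rw [this]
              ring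
    have h2 : ∑ g : G, ∑ c : Fin k → G, ‖∑ f ∈ S, (b f *
          ((∏ i : Fin k, Y (f + a i.succ + ι (c i)) : ℝ) : ℂ)) *
          ((X (f + a 0 + ι g) - Y (f + a 0 + ι g) : ℝ) : ℂ)‖ ^ 2 ≤
          V * ∑ f ∈ S, ‖b f‖ ^ 2 * K f ^ k := by
      rw [sum_comm]
      have hprod : ∀ f ∈ S, ∑ c : Fin k → G, ∏ i : Fin k, Y (f + a i.succ + ι (c i)) ^ 2 ≤ K f ^ k := by
        intro f hf
        have e := prod_sum_fin k (fun i g => Y (f + a i.succ + ι g) ^ 2)
        rw [← e]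
        calc ∏ i : Fin k, ∑ g : G, Y (f + a i.succ + ι g) ^ 2 ≤ ∏ _i : Fin k, K f :=
              prod_le_prod (fun i _ => sum_nonneg (fun g _ => by positivity))
                (fun i _ => hY i.succ f hf)
          _ = K f ^ k := by simp
      calc ∑ c : Fin k → G, ∑ g : G, ‖∑ f ∈ S, (b f *
          ((∏ i : Fin k, Y (f + a i.succ + ι (c i)) : ℝ) : ℂ)) *
          ((X (f + a 0 + ι g) - Y (f + a 0 + ι g) : ℝ) : ℂ)‖ ^ 2
          ≤ ∑ c : Fin k → G, V * ∑ f ∈ S,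
              ‖b f * ((∏ i : Fin k, Y (f + a i.succ + ι (c i)) : ℝ) : ℂ)‖ ^ 2 :=
            sum_le_sum (fun c _ => hdisp 0
              (fun f => b f * ((∏ i : Fin k, Y (f + a i.succ + ι (c i)) : ℝ) : ℂ)))
        _ = V * ∑ f ∈ S, ‖b f‖ ^ 2 *
              ∑ c : Fin k → G, ∏ i : Fin k, Y (f + a i.succ + ι (c i)) ^ 2 := by
            rw [← mul_sum, sum_comm]
            congr 1
            refine sum_congr rfl (fun f _ => ?_)
            rw [mul_sum]
            refine sum_congr rfl (fun c _ => ?_)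
            rw [norm_mul, mul_pow, Complex.norm_real, Real.norm_eq_abs, sq_abs, prod_pow]
        _ ≤ V * ∑ f ∈ S, ‖b f‖ ^ 2 * K f ^ k := by
            apply mul_le_mul_of_nonneg_left _ hV0
            exact sum_le_sum (fun f hf => mul_le_mul_of_nonneg_left (hprod f hf) (by positivity))
    calc ∑ g : G, ∑ c : Fin k → G, ‖∑ f ∈ S, b f *
          ((X (f + a 0 + ι g) * ∏ i : Fin k, X (f + a i.succ + ι (c i)) -
          Y (f + a 0 + ι g) * ∏ i : Fin k, Y (f + a i.succ + ι (c i)) : ℝ) : ℂ)‖ ^ 2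
        ≤ ∑ g : G, ∑ c : Fin k → G, (2 * ‖∑ f ∈ S, (b f * (X (f + a 0 + ι g) : ℂ)) *
          ((∏ i : Fin k, X (f + a i.succ + ι (c i)) -
            ∏ i : Fin k, Y (f + a i.succ + ι (c i)) : ℝ) : ℂ)‖ ^ 2 +
        2 * ‖∑ f ∈ S, (b f * ((∏ i : Fin k, Y (f + a i.succ + ι (c i)) : ℝ) : ℂ)) *
          ((X (f + a 0 + ι g) - Y (f + a 0 + ι g) : ℝ) : ℂ)‖ ^ 2) :=
          sum_le_sum (fun g _ => sum_le_sum (fun c _ => hpt g c))
      _ ≤ 2 * ((2 ^ (k + 1) - 2) * V * ∑ f ∈ S, ‖b f‖ ^ 2 * K f ^ k) +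
          2 * (V * ∑ f ∈ S, ‖b f‖ ^ 2 * K f ^ k) := by
          simp only [sum_add_distrib, ← mul_sum]
          linarith
      _ = _ := by
          rw [Nat.add_sub_cancel]
          ring

/-- **The variance of the number of primes in the discs** -/
theorem disc_var {m n : ℕ} (hn : 1 ≤ n) (hmn : m ≤ n) :
    ∑ f ∈ Mon F n, (∑ c, th n (f + inc m c) - (Fintype.card F : ℝ) ^ m) ^ 2 ≤
      ((n:ℝ) + 5) ^ 2 * (Fintype.card F : ℝ) ^ n * (Fintype.card F : ℝ) ^ m := by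
  have hq := two_le_card (F := F)
  set q : ℝ := (Fintype.card F : ℝ) with hqd
  have hq0 : 0 < q := by linarith
  have hv := var_NP (F := F) monic_one (n - m) n hn (by rw [natDegree_one]; omega)
  rw [natDegree_one, ← hqd] at hv
  have hPhi : (Phi (1 : F[X]) (n - m) : ℝ) = q ^ (n - m) := by
    have h := Phi_prod (F := F) ∅ (by simp) (n - m)
    simpa using h
  have e1 : n - 0 - (n - m) = m := by omega
  have e2 : n - (n - m) = m := by omega
  rw [hPhi, e1] at hv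
  have e3 : q ^ n / q ^ (n - m) = q ^ m := by
    rw [div_eq_iff (by positivity), ← pow_add]; congr 1; omega
  rw [e3] at hv
  have hfil : (Mon F n).filter (fun f => IsCoprime f (1 : F[X])) = Mon F n :=
    filter_true_of_mem (fun f _ => isCoprime_one_right)
  rw [hfil] at hv
  have hNP : ∀ f ∈ Mon F n, ∑ c, th n (f + inc m c) = (n:ℝ) * NP (1 : F[X]) (n - m) n f := by
    intro f _
    rw [sum_inc m (fun h => th n (f + h))]
    unfold th NP
    rw [← sum_filter, sum_const, nsmul_eq_mul, mul_comm, e2]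
    congr 2
    refine card_bij (fun h _ => f + h) ?_ (fun a _ b _ h => by simpa using h) ?_
    · intro h hh
      rw [mem_filter] at hh ⊢
      refine ⟨hh.2, one_dvd _, ?_⟩
      rw [add_sub_cancel_left]
      exact mem_PL.mp hh.1
    · intro P hP
      rw [mem_filter] at hP
      refine ⟨P - f, ?_, by ring⟩
      rw [mem_filter, mem_PL]
      exact ⟨hP.2.2, by rw [add_sub_cancel]; exact hP.1⟩
  rw [sum_congr rfl (fun f hf => by rw [hNP f hf])]
  refine hv.trans ?_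
  apply mul_le_mul_of_nonneg_right _ (by positivity)
  apply mul_le_mul_of_nonneg_right _ (by positivity)
  apply pow_le_pow_left₀ (by positivity)
  have h1 : ((n - m : ℕ) : ℝ) ≤ n := by exact_mod_cast Nat.sub_le _ _
  push_cast
  linarith

/-- few discs have too many primes -/
theorem disc_excess {m n : ℕ} (hn : 1 ≤ n) (hmn : m ≤ n) {a : F[X]} (ha : a.degree < n) :
    (((Mon F n).filter (fun f => 2 * (Fintype.card F : ℝ) ^ m < ∑ c, th n (f + a + inc m c))).card : ℝ) ≤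
      ((n:ℝ) + 5) ^ 2 * (Fintype.card F : ℝ) ^ n / (Fintype.card F : ℝ) ^ m := by
  have hq := two_le_card (F := F)
  have hv := disc_var (F := F) hn hmn
  set q : ℝ := (Fintype.card F : ℝ) with hqd
  have hq0 : 0 < q := by linarith
  have hqm : 0 < q ^ m := by positivity
  rw [← sum_Mon_shift ha (fun f => (∑ c, th n (f + inc m c) - q ^ m) ^ 2)] at hv
  rw [le_div_iff₀ hqm]
  have h1 : (((Mon F n).filter (fun f => 2 * q ^ m < ∑ c, th n (f + a + inc m c))).card : ℝ) *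
      (q ^ m) ^ 2 ≤ ((n:ℝ) + 5) ^ 2 * q ^ n * q ^ m := by
    refine le_trans ?_ hv
    rw [← nsmul_eq_mul, ← sum_const]
    calc ∑ _f ∈ (Mon F n).filter (fun f => 2 * q ^ m < ∑ c, th n (f + a + inc m c)), (q ^ m) ^ 2
        ≤ ∑ f ∈ (Mon F n).filter (fun f => 2 * q ^ m < ∑ c, th n (f + a + inc m c)),
          (∑ c, th n (f + a + inc m c) - q ^ m) ^ 2 := by
          apply sum_le_sum
          intro f hf
          rw [mem_filter] at hf
          apply pow_le_pow_left₀ hqm.le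
          linarith [hf.2]
      _ ≤ _ := sum_le_sum_of_subset_of_nonneg (filter_subset _ _) (fun f _ _ => sq_nonneg _)
  have h2 : (((Mon F n).filter (fun f => 2 * q ^ m < ∑ c, th n (f + a + inc m c))).card : ℝ) * q ^ m *
      q ^ m ≤ ((n:ℝ) + 5) ^ 2 * q ^ n * q ^ m := by
    rw [mul_assoc, ← pow_two]
    exact h1
  exact le_of_mul_le_mul_right h2 hqm

/-- **Prime tuples against arbitrary weights**, with the better exponent -/
theorem transfer2 {k n m r z : ℕ} (hrm : 2 * r ≤ m) (hmn : m ≤ n) (hrn : r < n) (hz : 0 < z)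
    (hzr : z ≤ r) (hW : ∑ P ∈ IrLE F z, P.natDegree ≤ n)
    (hmk : ((n:ℝ) + 5) ^ (k + 1) ≤ (Fintype.card F : ℝ) ^ m) (a : Fin k → F[X])
    (ha : ∀ i, (a i).degree < n) (b : F[X] → ℂ) (hb : ∀ f, ‖b f‖ ≤ 1) :
    ∑ c : Fin k → (Fin m → F), ‖∑ f ∈ Mon F n, b f *
        ((∏ i, th n (f + a i + inc m (c i)) - ∏ i, Lz z (f + a i + inc m (c i)) : ℝ) : ℂ)‖ ^ 2 ≤
      2 ^ (k + 2) * ((Fintype.card F : ℝ) ^ n) ^ 2 * ((Fintype.card F : ℝ) ^ m) ^ k *
        (12 ^ k * (k + 1) * ((n:ℝ) + 5) ^ (k + 1) / (Fintype.card F : ℝ) ^ r +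
          (2 * (1 / (Fintype.card F : ℝ) ^ z) ^ 2 +
            2 * ((1 / 2 : ℝ) ^ (r / z) * (Real.exp 3 * z) ^ 2)) *
            (Real.exp 3 * r) ^ (2 * (k - 1))) := by
  have hq := two_le_card (F := F)
  set q : ℝ := (Fintype.card F : ℝ) with hqd
  have hq0 : 0 < q := by linarith
  have hr1 : 0 < r := by omega
  have hrr : (1:ℝ) ≤ r := by exact_mod_cast hr1
  have hrn2 : 2 * (r:ℝ) ≤ n := by exact_mod_cast hrm.trans hmn
  have hzrr : (z:ℝ) ≤ r := by exact_mod_cast hzr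
  have hzr1 : (1:ℝ) ≤ z := by exact_mod_cast hz
  have hcard : (Fintype.card (Fin m → F) : ℝ) = q ^ m := by
    rw [Fintype.card_fun, Fintype.card_fin, hqd]; push_cast; rfl
  have he3 : Real.exp 3 < 20.1 := by
    have h1 := Real.exp_one_lt_d9
    have h2 : Real.exp 3 = Real.exp 1 ^ 3 := by rw [← Real.exp_nat_mul]; norm_num
    rw [h2]
    calc Real.exp 1 ^ 3 < 2.7182818286 ^ 3 := pow_lt_pow_left₀ h1 (Real.exp_pos 1).le (by norm_num)
      _ < 20.1 := by norm_num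
  have he31 : 1 ≤ Real.exp 3 := Real.one_le_exp (by norm_num)
  set δ : ℝ := 2 * (1 / q ^ z) ^ 2 + 2 * ((1 / 2 : ℝ) ^ (r / z) * (Real.exp 3 * z) ^ 2) with hδ
  have hδ0 : 0 ≤ δ := by positivity
  rcases Nat.eq_zero_or_pos k with hk | hk
  · subst hk
    have h0 : ∑ c : Fin 0 → (Fin m → F), ‖∑ f ∈ Mon F n, b f *
        ((∏ i, th n (f + a i + inc m (c i)) - ∏ i, Lz z (f + a i + inc m (c i)) : ℝ) : ℂ)‖ ^ 2 = 0 := by
      simp
    rw [h0]
    positivity
  -- the two dispersion inequalities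
  have hS : ∀ (c : Fin m → F) (f : F[X]), f + inc m c ∈ Mon F n ↔ f ∈ Mon F n := fun c f =>
    Mon_shift hmn _ _ (mem_PL.mp (inc_mem c))
  have hd1 : ∀ (i : Fin k) (w : F[X] → ℂ), ∑ c, ‖∑ f ∈ Mon F n, w f *
      ((th n (f + a i + inc m c) - Lb r (f + a i + inc m c) : ℝ) : ℂ)‖ ^ 2 ≤
      ((n : ℝ) + 5) ^ 2 * q ^ (n + m - r) * ∑ f ∈ Mon F n, ‖w f‖ ^ 2 := by
    intro i w
    exact disp_centre (E := fun x => th n x - Lb r x) (fun w => dispersion (inc (F := F) m) (Mon F n)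
      hS w (fun x => ((th n x - Lb r x : ℝ) : ℂ)) _ (fun ψ => V_bound hrm hmn hrn ψ)) (ha i) w
  have hd2 : ∀ (i : Fin k) (w : F[X] → ℂ), ∑ c, ‖∑ f ∈ Mon F n, w f *
      ((Lb r (f + a i + inc m c) - Lz z (f + a i + inc m c) : ℝ) : ℂ)‖ ^ 2 ≤
      (q ^ (n + m) * δ) * ∑ f ∈ Mon F n, ‖w f‖ ^ 2 := by
    intro i w
    exact disp_centre (E := fun x => Lb r x - Lz z x) (fun w => dispersion (inc (F := F) m) (Mon F n)
      hS w (fun x => ((Lb r x - Lz z x : ℝ) : ℂ)) _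
      (fun ψ => V_models hrm hmn hz hzr hW ψ)) (ha i) w
  -- local mean squares
  set ν : ℝ := (n:ℝ) + 5 with hν
  have hν1 : 1 ≤ ν := by rw [hν]; have : (0:ℝ) ≤ n := Nat.cast_nonneg _; linarith
  have hth0 : ∀ x : F[X], 0 ≤ th n x ∧ th n x ≤ ν := by
    intro x
    unfold th
    split_ifs
    · exact ⟨Nat.cast_nonneg _, by rw [hν]; linarith⟩
    · exact ⟨le_rfl, by linarith⟩
  have hth : ∀ f : F[X], ∑ c, th n (f + inc m c) ^ 2 ≤ ν * ∑ c, th n (f + inc m c) := by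
    intro f
    rw [mul_sum]
    refine sum_le_sum (fun c _ => ?_)
    rw [pow_two]
    exact mul_le_mul_of_nonneg_right (hth0 _).2 (hth0 _).1
  have hth' : ∀ f : F[X], ∑ c, th n (f + inc m c) ≤ ν * q ^ m := by
    intro f
    calc ∑ c, th n (f + inc m c) ≤ ∑ _c : Fin m → F, ν := sum_le_sum (fun c _ => (hth0 _).2)
      _ = ν * q ^ m := by rw [sum_const, card_univ, nsmul_eq_mul, hcard, mul_comm]
  have hLb : ∀ f : F[X], ∑ c, Lb r (f + inc m c) ^ 2 ≤ q ^ m * (Real.exp 3 * r) := by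
    intro f
    rw [sum_inc m (fun h => Lb r (f + h) ^ 2)]
    have h1 := LS_sq (𝒮 := SF F r) (m := m) (fun s hs => (mem_SF.mp hs).1) (fun s hs t ht => by
      have h2 := (mem_SF.mp hs).2
      have h3 := (mem_SF.mp ht).2
      have h4 := sum_union_inter (s₁ := s) (s₂ := t) (f := fun P : F[X] => P.natDegree)
      omega) f
    calc ∑ h ∈ PL F m, Lb r (f + h) ^ 2 = q ^ m * ∑ s ∈ SF F r, ∏ P ∈ s, gP P := h1
      _ ≤ q ^ m * (Real.exp 3 * r) := by
          apply mul_le_mul_of_nonneg_left _ (by positivity)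
          exact sum_gP_le hr1 (filter_subset _ _)
  have hLz : ∀ f : F[X], ∑ c, Lz z (f + inc m c) ^ 2 ≤ q ^ m * (Real.exp 3 * r) ^ 2 := by
    intro f
    calc ∑ c, Lz z (f + inc m c) ^ 2 ≤ ∑ _c : Fin m → F, (Real.exp 3 * r) ^ 2 := by
          refine sum_le_sum (fun c _ => ?_)
          have h1 := Lz_bounds hz (f + inc m c)
          refine sq_le_of_abs h1.1 (h1.2.trans ?_)
          exact mul_le_mul_of_nonneg_left hzrr (by positivity)
      _ = q ^ m * (Real.exp 3 * r) ^ 2 := by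
          rw [sum_const, card_univ, nsmul_eq_mul, hcard]
  have hqm : 0 < q ^ m := by positivity
  have he3r : 1 ≤ Real.exp 3 * r := by nlinarith
  -- the two stages
  have hbn1 : ∀ f, ‖b f‖ ^ 2 ≤ 1 := fun f => pow_le_one₀ (n := 2) (norm_nonneg _) (hb f)
  have hbn : ∑ f ∈ Mon F n, ‖b f‖ ^ 2 ≤ q ^ n := by
    calc ∑ f ∈ Mon F n, ‖b f‖ ^ 2 ≤ ∑ _f ∈ Mon F n, (1:ℝ) := sum_le_sum (fun f _ => hbn1 f)
      _ = q ^ n := by rw [sum_const, nsmul_eq_mul, mul_one, card_Mon]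
  set K : F[X] → ℝ := fun f => if ∃ i, 2 * q ^ m < ∑ c, th n (f + a i + inc m c) then
    12 * ν ^ 2 * q ^ m else 12 * ν * q ^ m with hK
  have hK0 : ∀ f, 0 ≤ K f := by
    intro f
    rw [hK]
    simp only
    split_ifs <;> positivity
  have hKX : ∀ (i : Fin k), ∀ f ∈ Mon F n, ∑ c, th n (f + a i + inc m c) ^ 2 ≤ K f := by
    intro i f _
    rw [hK]
    simp only
    split_ifs with h
    · refine (hth _).trans ((mul_le_mul_of_nonneg_left (hth' _) (by linarith)).trans ?_)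
      nlinarith [mul_pos (pow_pos (lt_of_lt_of_le one_pos hν1) 2) hqm]
    · push Not at h
      refine (hth _).trans ((mul_le_mul_of_nonneg_left (h i) (by linarith)).trans ?_)
      nlinarith [mul_pos (lt_of_lt_of_le one_pos hν1) hqm]
  have hKY : ∀ (i : Fin k), ∀ f ∈ Mon F n, ∑ c, Lb r (f + a i + inc m c) ^ 2 ≤ K f := by
    intro i f _
    have h1 : q ^ m * (Real.exp 3 * r) ≤ 12 * ν * q ^ m := by
      have h2 : Real.exp 3 * r ≤ 12 * ν := by
        rw [hν]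
        nlinarith
      calc q ^ m * (Real.exp 3 * r) ≤ q ^ m * (12 * ν) := mul_le_mul_of_nonneg_left h2 hqm.le
        _ = _ := by ring
    have h3 : 12 * ν * q ^ m ≤ 12 * ν ^ 2 * q ^ m := by
      apply mul_le_mul_of_nonneg_right _ hqm.le
      nlinarith
    rw [hK]
    simp only
    split_ifs with h
    · exact (hLb _).trans (h1.trans h3)
    · exact (hLb _).trans h1
  have s1 := telescope2 (inc (F := F) m) (Mon F n) (th n) (Lb r) (((n : ℝ) + 5) ^ 2 * q ^ (n + m - r))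
    (by positivity) K hK0 k a hd1 hKX hKY b
  have s2 := telescope' (inc (F := F) m) (Mon F n) (Lb r) (Lz z) (q ^ (n + m) * δ)
    (q ^ m * (Real.exp 3 * r) ^ 2) (by positivity) (by positivity) k a hd2
    (fun i f _ => (hLb _).trans (by
      apply mul_le_mul_of_nonneg_left _ hqm.le
      nlinarith)) (fun i f _ => hLz _) b
  have hk2 : (0:ℝ) ≤ 2 ^ (k + 1) - 2 := by
    have : (2:ℝ) ^ 1 ≤ 2 ^ (k + 1) := pow_le_pow_right₀ (by norm_num) (by omega)
    linarith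
  have hkk : (q ^ m) ^ k = q ^ m * (q ^ m) ^ (k - 1) := by
    rw [← pow_succ']; congr 1; omega
  -- the average of `K`
  have hKavg : ∑ f ∈ Mon F n, ‖b f‖ ^ 2 * K f ^ (k - 1) ≤
      q ^ n * (12 ^ (k - 1) * (k + 1) * ν ^ (k - 1) * (q ^ m) ^ (k - 1)) := by
    set E : Finset F[X] := (Mon F n).filter (fun f => ∃ i, 2 * q ^ m < ∑ c, th n (f + a i + inc m c))
      with hE
    have hEc : (E.card : ℝ) ≤ k * (ν ^ 2 * q ^ n / q ^ m) := by
      have h1 : E ⊆ (univ : Finset (Fin k)).biUnion (fun i => (Mon F n).filter (fun f =>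
          2 * q ^ m < ∑ c, th n (f + a i + inc m c))) := by
        intro f hf
        rw [hE, mem_filter] at hf
        obtain ⟨i, hi⟩ := hf.2
        rw [mem_biUnion]
        exact ⟨i, mem_univ _, mem_filter.mpr ⟨hf.1, hi⟩⟩
      have h2 : (E.card : ℝ) ≤ ∑ i : Fin k, (((Mon F n).filter (fun f =>
          2 * q ^ m < ∑ c, th n (f + a i + inc m c))).card : ℝ) := by
        have h3 := (card_le_card h1).trans card_biUnion_le
        exact_mod_cast h3
      refine h2.trans ?_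
      calc ∑ i : Fin k, (((Mon F n).filter (fun f =>
          2 * q ^ m < ∑ c, th n (f + a i + inc m c))).card : ℝ)
          ≤ ∑ _i : Fin k, ν ^ 2 * q ^ n / q ^ m :=
            sum_le_sum (fun i _ => disc_excess (by omega) hmn (ha i))
        _ = _ := by simp
    calc ∑ f ∈ Mon F n, ‖b f‖ ^ 2 * K f ^ (k - 1) ≤ ∑ f ∈ Mon F n, K f ^ (k - 1) := by
          refine sum_le_sum (fun f _ => ?_)
          have := mul_le_mul_of_nonneg_right (hbn1 f) (pow_nonneg (hK0 f) (k - 1))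
          linarith
      _ ≤ ∑ f ∈ Mon F n, ((12 * ν * q ^ m) ^ (k - 1) + (if f ∈ E then (12 * ν ^ 2 * q ^ m) ^ (k - 1)
            else 0)) := by
          refine sum_le_sum (fun f hf => ?_)
          rw [hK]
          simp only
          by_cases h : ∃ i, 2 * q ^ m < ∑ c, th n (f + a i + inc m c)
          · rw [if_pos h, if_pos (by rw [hE, mem_filter]; exact ⟨hf, h⟩)]
            have : 0 ≤ (12 * ν * q ^ m) ^ (k - 1) := by positivity
            linarith
          · rw [if_neg h]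
            have : 0 ≤ (if f ∈ E then (12 * ν ^ 2 * q ^ m) ^ (k - 1) else 0) := by
              split_ifs <;> positivity
            linarith
      _ = q ^ n * (12 * ν * q ^ m) ^ (k - 1) + E.card * (12 * ν ^ 2 * q ^ m) ^ (k - 1) := by
          rw [sum_add_distrib, sum_const, nsmul_eq_mul, card_Mon, ← sum_filter, sum_const, nsmul_eq_mul]
          have e : (Mon F n).filter (fun f => f ∈ E) = E := by
            rw [hE]
            ext f
            simp only [mem_filter]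
            tauto
          rw [e]
      _ ≤ q ^ n * (12 * ν * q ^ m) ^ (k - 1) +
            (k * (ν ^ 2 * q ^ n / q ^ m)) * (12 * ν ^ 2 * q ^ m) ^ (k - 1) := by
          have := mul_le_mul_of_nonneg_right hEc (show 0 ≤ (12 * ν ^ 2 * q ^ m) ^ (k - 1) by positivity)
          linarith
      _ ≤ _ := by
          have e1 : (12 * ν * q ^ m) ^ (k - 1) = 12 ^ (k - 1) * ν ^ (k - 1) * (q ^ m) ^ (k - 1) := by
            rw [mul_pow, mul_pow]
          have e2 : (12 * ν ^ 2 * q ^ m) ^ (k - 1) =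
              12 ^ (k - 1) * ν ^ (k - 1) * (q ^ m) ^ (k - 1) * ν ^ (k - 1) := by
            rw [mul_pow, mul_pow, pow_two, mul_pow]; ring
          rw [e1, e2]
          have h4 : ν ^ 2 * ν ^ (k - 1) / q ^ m ≤ 1 := by
            rw [div_le_one hqm, ← pow_add]
            have : 2 + (k - 1) = k + 1 := by omega
            rw [this]
            exact hmk
          have h5 : 0 ≤ q ^ n * (12 ^ (k - 1) * ν ^ (k - 1) * (q ^ m) ^ (k - 1)) * k := by positivity
          have h6 := mul_le_mul_of_nonneg_left h4 h5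
          calc q ^ n * (12 ^ (k - 1) * ν ^ (k - 1) * (q ^ m) ^ (k - 1)) +
            k * (ν ^ 2 * q ^ n / q ^ m) * (12 ^ (k - 1) * ν ^ (k - 1) * (q ^ m) ^ (k - 1) * ν ^ (k - 1))
              = q ^ n * (12 ^ (k - 1) * ν ^ (k - 1) * (q ^ m) ^ (k - 1)) +
                q ^ n * (12 ^ (k - 1) * ν ^ (k - 1) * (q ^ m) ^ (k - 1)) * k *
                  (ν ^ 2 * ν ^ (k - 1) / q ^ m) := by ring
            _ ≤ q ^ n * (12 ^ (k - 1) * ν ^ (k - 1) * (q ^ m) ^ (k - 1)) +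
                q ^ n * (12 ^ (k - 1) * ν ^ (k - 1) * (q ^ m) ^ (k - 1)) * k * 1 := by linarith
            _ = _ := by ring
  have t1 : (2 ^ (k + 1) - 2) * (ν ^ 2 * q ^ (n + m - r)) *
      ∑ f ∈ Mon F n, ‖b f‖ ^ 2 * K f ^ (k - 1) ≤
      2 ^ (k + 1) * (q ^ n) ^ 2 * (q ^ m) ^ k * (12 ^ k * (k + 1) * ν ^ (k + 1) / q ^ r) := by
    have e2 : ν ^ (k + 1) = ν ^ 2 * ν ^ (k - 1) := by
      rw [← pow_add]; congr 1; omega
    have e3 : q ^ (n + m - r) = q ^ n * q ^ m / q ^ r := by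
      rw [eq_div_iff (by positivity), ← pow_add, ← pow_add]; congr 1; omega
    have e4 : (12:ℝ) ^ (k - 1) ≤ 12 ^ k := pow_le_pow_right₀ (by norm_num) (by omega)
    rw [e2, hkk, e3]
    have h0 : 0 ≤ ν ^ 2 * (q ^ n * q ^ m / q ^ r) := by positivity
    calc (2 ^ (k + 1) - 2) * (ν ^ 2 * (q ^ n * q ^ m / q ^ r)) *
          ∑ f ∈ Mon F n, ‖b f‖ ^ 2 * K f ^ (k - 1)
        ≤ 2 ^ (k + 1) * (ν ^ 2 * (q ^ n * q ^ m / q ^ r)) *
            (q ^ n * (12 ^ (k - 1) * (k + 1) * ν ^ (k - 1) * (q ^ m) ^ (k - 1))) := by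
          apply mul_le_mul _ hKavg _ (by positivity)
          · exact mul_le_mul_of_nonneg_right (by linarith) h0
          · exact sum_nonneg (fun f _ => mul_nonneg (by positivity) (pow_nonneg (hK0 f) _))
      _ = 12 ^ (k - 1) * (2 ^ (k + 1) * (q ^ n) ^ 2 * (q ^ m * (q ^ m) ^ (k - 1)) *
            ((k + 1) * (ν ^ 2 * ν ^ (k - 1)) / q ^ r)) := by field_simp
      _ ≤ 12 ^ k * (2 ^ (k + 1) * (q ^ n) ^ 2 * (q ^ m * (q ^ m) ^ (k - 1)) *
            ((k + 1) * (ν ^ 2 * ν ^ (k - 1)) / q ^ r)) :=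
          mul_le_mul_of_nonneg_right e4 (by positivity)
      _ = _ := by field_simp
  have t2 : (2 ^ (k + 1) - 2) * (q ^ (n + m) * δ * (q ^ m * (Real.exp 3 * r) ^ 2) ^ (k - 1)) *
      ∑ f ∈ Mon F n, ‖b f‖ ^ 2 ≤
      2 ^ (k + 1) * (q ^ n) ^ 2 * (q ^ m) ^ k * (δ * (Real.exp 3 * r) ^ (2 * (k - 1))) := by
    have e1 : (q ^ m * (Real.exp 3 * r) ^ 2) ^ (k - 1) =
        (q ^ m) ^ (k - 1) * (Real.exp 3 * r) ^ (2 * (k - 1)) := by
      rw [mul_pow, ← pow_mul (Real.exp 3 * r)]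
    have e0 : q ^ (n + m) = q ^ n * q ^ m := pow_add _ _ _
    rw [e1, hkk, e0]
    have h0 : 0 ≤ q ^ n * q ^ m * δ * ((q ^ m) ^ (k - 1) * (Real.exp 3 * r) ^ (2 * (k - 1))) := by
      positivity
    calc (2 ^ (k + 1) - 2) * (q ^ n * q ^ m * δ *
          ((q ^ m) ^ (k - 1) * (Real.exp 3 * r) ^ (2 * (k - 1)))) * ∑ f ∈ Mon F n, ‖b f‖ ^ 2
        ≤ 2 ^ (k + 1) * (q ^ n * q ^ m * δ *
          ((q ^ m) ^ (k - 1) * (Real.exp 3 * r) ^ (2 * (k - 1)))) * q ^ n := by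
          apply mul_le_mul _ hbn (sum_nonneg (fun f _ => by positivity)) (by positivity)
          exact mul_le_mul_of_nonneg_right (by linarith) h0
      _ = _ := by ring
  have s1' := s1.trans t1
  have s2' := s2.trans t2
  calc ∑ c : Fin k → (Fin m → F), ‖∑ f ∈ Mon F n, b f *
        ((∏ i, th n (f + a i + inc m (c i)) - ∏ i, Lz z (f + a i + inc m (c i)) : ℝ) : ℂ)‖ ^ 2
      ≤ ∑ c : Fin k → (Fin m → F), (2 * ‖∑ f ∈ Mon F n, b f *
        ((∏ i, th n (f + a i + inc m (c i)) - ∏ i, Lb r (f + a i + inc m (c i)) : ℝ) : ℂ)‖ ^ 2 +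
        2 * ‖∑ f ∈ Mon F n, b f *
        ((∏ i, Lb r (f + a i + inc m (c i)) - ∏ i, Lz z (f + a i + inc m (c i)) : ℝ) : ℂ)‖ ^ 2) := by
        apply sum_le_sum
        intro c _
        have e : ∑ f ∈ Mon F n, b f *
            ((∏ i, th n (f + a i + inc m (c i)) - ∏ i, Lz z (f + a i + inc m (c i)) : ℝ) : ℂ) =
            ∑ f ∈ Mon F n, b f *
            ((∏ i, th n (f + a i + inc m (c i)) - ∏ i, Lb r (f + a i + inc m (c i)) : ℝ) : ℂ) +
            ∑ f ∈ Mon F n, b f *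
            ((∏ i, Lb r (f + a i + inc m (c i)) - ∏ i, Lz z (f + a i + inc m (c i)) : ℝ) : ℂ) := by
          rw [← sum_add_distrib]
          refine sum_congr rfl (fun f _ => ?_)
          push_cast
          ring
        rw [e]
        have h3 := norm_add_le (∑ f ∈ Mon F n, b f *
            ((∏ i, th n (f + a i + inc m (c i)) - ∏ i, Lb r (f + a i + inc m (c i)) : ℝ) : ℂ))
            (∑ f ∈ Mon F n, b f *
            ((∏ i, Lb r (f + a i + inc m (c i)) - ∏ i, Lz z (f + a i + inc m (c i)) : ℝ) : ℂ))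
        refine (pow_le_pow_left₀ (norm_nonneg _) h3 2).trans ?_
        nlinarith [sq_nonneg (‖∑ f ∈ Mon F n, b f *
            ((∏ i, th n (f + a i + inc m (c i)) - ∏ i, Lb r (f + a i + inc m (c i)) : ℝ) : ℂ)‖ -
            ‖∑ f ∈ Mon F n, b f *
            ((∏ i, Lb r (f + a i + inc m (c i)) - ∏ i, Lz z (f + a i + inc m (c i)) : ℝ) : ℂ)‖)]
    _ ≤ 2 * (2 ^ (k + 1) * (q ^ n) ^ 2 * (q ^ m) ^ k * (12 ^ k * (k + 1) * ν ^ (k + 1) / q ^ r)) +
          2 * (2 ^ (k + 1) * (q ^ n) ^ 2 * (q ^ m) ^ k * (δ * (Real.exp 3 * r) ^ (2 * (k - 1)))) := by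
        rw [sum_add_distrib, ← mul_sum, ← mul_sum]
        linarith
    _ = _ := by rw [pow_succ 2 (k + 1)]; ring

end Pool.Agent.H523.CM
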