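import Pool.Agent.H523.RH3

set_option autoImplicit false
set_option linter.unusedSectionVars false

/-! # The variance of the numbers of prime polynomials in residue classes and short intervals -/

namespace Pool.Agent.H523.RH

open Polynomial Finset
open Pool.Agent.H341R2.Sharp (Mon mem_Mon)
open Pool.Agent.H523.FF (Ir mem_Ir PL mem_PL card_PL two_le_card Ir_card Ir_card_sum Ir_disj
  count_multi irr_coprime PL_mod)
open Pool.Agent.Q284 Pool.Agent.Q284.WE

open scoped Classical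

variable {F : Type} [Field F] [Fintype F] {M : F[X]} {κ : ℕ}

/-- the number of the members of a class -/
theorem card_fiber' (hM : M.Monic) (κ n : ℕ) (hn : M.natDegree + κ ≤ n) (f₀ : F[X])
    (hf₀ : f₀.Monic) :
    ((Mon F n).filter (fun f => cl M κ f = cl M κ f₀)).card =
      Fintype.card F ^ (n - M.natDegree - κ) := by
  obtain ⟨f₁, hf₁, hcl⟩ := exists_cl_eq hM hn f₀ hf₀
  have hf₁' := mem_Mon.mp hf₁
  rw [← card_PL (F := F) (n - M.natDegree - κ)]
  symm
  refine Finset.card_bij (fun g _ => f₁ + M * g) ?_ ?_ ?_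
  · intro g hg
    rw [mem_PL] at hg
    have hdeg : (M * g).degree < ((n - κ : ℕ) : WithBot ℕ) := by
      by_cases hg0 : g = 0
      · rw [hg0, mul_zero, degree_zero]; exact WithBot.bot_lt_coe _
      · rw [degree_mul, degree_eq_natDegree hM.ne_zero, degree_eq_natDegree hg0]
        rw [degree_eq_natDegree hg0] at hg
        have h1 : g.natDegree < n - M.natDegree - κ := by exact_mod_cast hg
        have h2 : M.natDegree + g.natDegree < n - κ := by omega
        exact_mod_cast h2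
    have hdegn : (M * g).degree < f₁.degree := by
      refine lt_of_lt_of_le hdeg ?_
      rw [degree_eq_natDegree hf₁'.1.ne_zero, hf₁'.2]
      exact_mod_cast Nat.sub_le _ _
    have hmem : f₁ + M * g ∈ Mon F n := by
      rw [mem_Mon]
      exact ⟨hf₁'.1.add_of_left hdegn, by
        rw [natDegree_add_eq_left_of_degree_lt hdegn, hf₁'.2]⟩
    rw [mem_filter]
    refine ⟨hmem, ?_⟩
    rw [← hcl, cl_eq_iff (by omega) hmem hf₁]
    have e : f₁ + M * g - f₁ = M * g := by ring
    rw [e]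
    exact ⟨dvd_mul_right _ _, hdeg⟩
  · intro g _ g' _ h
    have := add_left_cancel h
    exact mul_left_cancel₀ hM.ne_zero this
  · intro f hf
    rw [mem_filter] at hf
    obtain ⟨hfm, hfc⟩ := hf
    rw [← hcl, cl_eq_iff (by omega) hfm hf₁] at hfc
    obtain ⟨⟨g, hg⟩, hdeg⟩ := hfc
    refine ⟨g, ?_, by linear_combination -hg⟩
    rw [mem_PL]
    by_cases hg0 : g = 0
    · rw [hg0, degree_zero]; exact WithBot.bot_lt_coe _
    · rw [hg, degree_mul, degree_eq_natDegree hM.ne_zero, degree_eq_natDegree hg0] at hdeg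
      rw [degree_eq_natDegree hg0]
      have h1 : M.natDegree + g.natDegree < n - κ := by exact_mod_cast hdeg
      have h2 : g.natDegree < n - M.natDegree - κ := by omega
      exact_mod_cast h2

/-- sums over the members of degree `n` of functions of the class -/
theorem sum_classes (hM : M.Monic) (κ n : ℕ) (hn : M.natDegree + κ ≤ n) (φ : F[X] → ℝ)
    (hφ : ∀ f g : F[X], cl M κ f = cl M κ g → φ f = φ g) :
    ∑ f ∈ (Mon F n).filter (fun f => IsCoprime f M), φ f =
      (Fintype.card F : ℝ) ^ (n - M.natDegree - κ) *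
        ∑ f ∈ (Mon F (M.natDegree + κ)).filter (fun f => IsCoprime f M), φ f := by
  have hmaps : ∀ f ∈ (Mon F n).filter (fun f => IsCoprime f M), ∃ f₀ ∈ (Mon F (M.natDegree + κ)).filter
      (fun f => IsCoprime f M), cl M κ f₀ = cl M κ f := by
    intro f hf
    rw [mem_filter] at hf
    have hfm := (mem_Mon.mp hf.1).1
    obtain ⟨f₀, hf₀, hcl⟩ := exists_cl_eq hM (le_refl (M.natDegree + κ)) f hfm
    refine ⟨f₀, mem_filter.mpr ⟨hf₀, ?_⟩, hcl⟩
    rw [← isUnit_cl_iff (κ := κ) (mem_Mon.mp hf₀).1, hcl, isUnit_cl_iff hfm]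
    exact hf.2
  have hr : ∀ f : F[X], ∃ f₀ : F[X], f ∈ (Mon F n).filter (fun f => IsCoprime f M) →
      f₀ ∈ (Mon F (M.natDegree + κ)).filter (fun f => IsCoprime f M) ∧ cl M κ f₀ = cl M κ f := by
    intro f
    by_cases hf : f ∈ (Mon F n).filter (fun f => IsCoprime f M)
    · obtain ⟨f₀, h1, h2⟩ := hmaps f hf
      exact ⟨f₀, fun _ => ⟨h1, h2⟩⟩
    · exact ⟨0, fun h => absurd h hf⟩
  choose r hr using hr
  rw [← sum_fiberwise_of_maps_to (fun f hf => (hr f hf).1), mul_sum]
  refine sum_congr rfl (fun f₀ hf₀ => ?_)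
  have hf₀' := mem_filter.mp hf₀
  have hf₀m := (mem_Mon.mp hf₀'.1).1
  have h1 : ((Mon F n).filter (fun f => IsCoprime f M)).filter (fun f => r f = f₀) =
      (Mon F n).filter (fun f => cl M κ f = cl M κ f₀) := by
    ext f
    constructor
    · intro hff
      obtain ⟨hf, h2⟩ := mem_filter.mp hff
      have h3 := (hr f hf).2
      rw [h2] at h3
      exact mem_filter.mpr ⟨(mem_filter.mp hf).1, h3.symm⟩
    · intro hff
      obtain ⟨hf, h2⟩ := mem_filter.mp hff
      have hfm := (mem_Mon.mp hf).1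
      have hfc : f ∈ (Mon F n).filter (fun f => IsCoprime f M) := by
        rw [mem_filter]
        refine ⟨hf, ?_⟩
        rw [← isUnit_cl_iff (κ := κ) hfm, h2, isUnit_cl_iff hf₀m]
        exact hf₀'.2
      refine mem_filter.mpr ⟨hfc, ?_⟩
      obtain ⟨h3, h4⟩ := hr f hfc
      have h5 := card_fiber hM κ f₀ hf₀m
      rw [card_eq_one] at h5
      obtain ⟨x, hx⟩ := h5
      have h6 : r f ∈ (Mon F (M.natDegree + κ)).filter (fun f => cl M κ f = cl M κ f₀) :=
        mem_filter.mpr ⟨(mem_filter.mp h3).1, h4.trans h2⟩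
      have h7 : f₀ ∈ (Mon F (M.natDegree + κ)).filter (fun f => cl M κ f = cl M κ f₀) :=
        mem_filter.mpr ⟨hf₀'.1, rfl⟩
      rw [hx, mem_singleton] at h6 h7
      rw [h6, h7]
  rw [h1, sum_congr rfl (fun f hf => hφ f f₀ (mem_filter.mp hf).2), sum_const,
    card_fiber' hM κ n hn f₀ hf₀m, nsmul_eq_mul]
  push_cast
  ring

/-- the number of the prime polynomials of degree `n` in the class and in the disc of `f` -/
noncomputable def NP (M : F[X]) (κ n : ℕ) (f : F[X]) : ℕ :=
  ((Ir F n).filter (fun P => M ∣ P - f ∧ (P - f).degree < ((n - κ : ℕ) : WithBot ℕ))).card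

/-- the number of classes is positive -/
theorem Phi_pos (hM : M.Monic) (κ : ℕ) : 0 < Phi M κ := by
  unfold Phi
  rw [card_pos]
  obtain ⟨f, hf, hcl⟩ := exists_cl_eq hM (le_refl (M.natDegree + κ)) 1 monic_one
  refine ⟨f, mem_filter.mpr ⟨hf, ?_⟩⟩
  rw [← isUnit_cl_iff (κ := κ) (mem_Mon.mp hf).1, hcl, isUnit_cl_iff monic_one]
  exact isCoprime_one_left

/-- **The variance of the numbers of prime polynomials in residue classes and short intervals** -/
theorem var_NP (hM : M.Monic) (κ n : ℕ) (hn : 1 ≤ n) (hκ : M.natDegree + κ ≤ n) :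
    ∑ f ∈ (Mon F n).filter (fun f => IsCoprime f M),
      ((n : ℝ) * NP M κ n f - (Fintype.card F : ℝ) ^ n / Phi M κ) ^ 2 ≤
      (2 * (M.natDegree : ℝ) + κ + 5) ^ 2 *
        (Fintype.card F : ℝ) ^ n * (Fintype.card F : ℝ) ^ (n - M.natDegree - κ) := by
  have hq := two_le_card (F := F)
  set q : ℝ := (Fintype.card F : ℝ) with hqd
  have hq0 : 0 < q := by linarith
  set A := (Mon F n).filter (fun f => IsCoprime f M) with hA
  set D : ℝ := (M.natDegree : ℝ) with hD
  have hD0 : 0 ≤ D := Nat.cast_nonneg _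
  set R : ℝ := (√q) ^ n with hR
  have hR1 : 1 ≤ R := one_le_pow₀ (by rw [Real.one_le_sqrt]; linarith)
  have hRR : R ^ 2 = q ^ n := by
    rw [hR, ← pow_mul, mul_comm n 2, pow_mul, Real.sq_sqrt hq0.le]
  set w : ℝ := q ^ (n - M.natDegree - κ) with hw
  have hw0 : 0 < w := by positivity
  have hPhi : (1:ℝ) ≤ Phi M κ := by exact_mod_cast Phi_pos hM κ
  have hPhi0 : (0:ℝ) < Phi M κ := by linarith
  -- the first part
  have e1 : ∑ f ∈ A, (WW M κ n f - T0 M n / Phi M κ) ^ 2 ≤
      w * (((M.natDegree + κ : ℕ) : ℝ) ^ 2 * q ^ n) := by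
    rw [hA, sum_classes hM κ n hκ (fun f => (WW M κ n f - T0 M n / Phi M κ) ^ 2) (by
      intro f g h
      unfold WW
      rw [h])]
    exact mul_le_mul_of_nonneg_left (variance hM κ n hn) hw0.le
  -- the prime powers
  set Ef : F[X] → ℝ := fun f => WW M κ n f - n * NP M κ n f with hEf
  have hEf' : ∀ f ∈ A, Ef f = ∑ d ∈ n.properDivisors, ∑ P ∈ Ir F d, (P.natDegree : ℝ) *
      (if cl M κ P ^ (n / P.natDegree) = cl M κ f then 1 else 0) := by
    intro f hf
    have hfm := (mem_filter.mp hf).1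
    rw [hEf]
    simp only
    unfold WW NP
    rw [sum_PD n hn]
    have h1 : ∑ P ∈ Ir F n, (P.natDegree : ℝ) *
        (if cl M κ P ^ (n / P.natDegree) = cl M κ f then 1 else 0) =
        n * (((Ir F n).filter
        (fun P => M ∣ P - f ∧ (P - f).degree < ((n - κ : ℕ) : WithBot ℕ))).card : ℝ) := by
      rw [Finset.card_filter]
      push_cast
      rw [Finset.mul_sum]
      refine Finset.sum_congr rfl (fun P hP => ?_)
      have hP := mem_Ir.mp hP
      rw [hP.2.2, Nat.div_self (by omega), pow_one]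
      have h2 := cl_eq_iff (M := M) (κ := κ) (by omega) (mem_Mon.mpr ⟨hP.1, hP.2.2⟩) hfm
      by_cases h : cl M κ P = cl M κ f
      · rw [if_pos h, if_pos (h2.mp h)]
      · rw [if_neg h, if_neg (fun hh => h (h2.mpr hh))]
    rw [h1, add_sub_cancel_left]
  have hEf0 : ∀ f ∈ A, 0 ≤ Ef f := by
    intro f hf
    rw [hEf' f hf]
    exact sum_nonneg (fun _ _ => sum_nonneg (fun P _ => by
      apply mul_nonneg (Nat.cast_nonneg _)
      split_ifs <;> norm_num))
  have hEf1 : ∀ f ∈ A, Ef f ≤ 2 * R := by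
    intro f hf
    have h1 := WW_bounds (M := M) (κ := κ) n hn (by omega) (mem_filter.mp hf).1
    exact (le_abs_self _).trans h1
  have hEs : ∑ f ∈ A, Ef f ≤ 2 * R * w := by
    rw [sum_congr rfl hEf', sum_comm]
    have h2 := proper_le F n hn
    have h3 := half_le (F := F) n
    rw [← hqd] at h2 h3
    calc ∑ d ∈ n.properDivisors, ∑ f ∈ A, ∑ P ∈ Ir F d, (P.natDegree : ℝ) *
          (if cl M κ P ^ (n / P.natDegree) = cl M κ f then 1 else 0)
        ≤ ∑ d ∈ n.properDivisors, ∑ P ∈ Ir F d, (P.natDegree : ℝ) * w := by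
          apply sum_le_sum
          intro d hd
          rw [sum_comm]
          apply sum_le_sum
          intro P hP
          rw [← mul_sum]
          apply mul_le_mul_of_nonneg_left _ (Nat.cast_nonneg _)
          rw [← sum_filter, sum_const, nsmul_eq_mul, mul_one]
          have hPm := (mem_Ir.mp hP).1
          have h4 : (A.filter (fun f => cl M κ P ^ (n / P.natDegree) = cl M κ f)) ⊆
              (Mon F n).filter (fun f => cl M κ f = cl M κ (P ^ (n / P.natDegree))) := by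
            intro f hf
            rw [mem_filter] at hf ⊢
            refine ⟨(mem_filter.mp hf.1).1, ?_⟩
            rw [cl_pow]
            exact hf.2.symm
          have h5 := card_le_card h4
          rw [card_fiber' hM κ n hκ _ (hPm.pow _)] at h5
          rw [hw, hqd]
          exact_mod_cast h5
      _ = (∑ d ∈ n.properDivisors, ∑ P ∈ Ir F d, (P.natDegree : ℝ)) * w := by
          rw [sum_mul]
          exact sum_congr rfl (fun d _ => by rw [sum_mul])
      _ ≤ 2 * R * w := by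
          apply mul_le_mul_of_nonneg_right _ hw0.le
          linarith
  have e2 : ∑ f ∈ A, (Ef f) ^ 2 ≤ 4 * q ^ n * w := by
    calc ∑ f ∈ A, (Ef f) ^ 2 ≤ ∑ f ∈ A, 2 * R * Ef f := by
          apply sum_le_sum
          intro f hf
          rw [sq]
          exact mul_le_mul_of_nonneg_right (hEf1 f hf) (hEf0 f hf)
      _ = 2 * R * ∑ f ∈ A, Ef f := by rw [mul_sum]
      _ ≤ 2 * R * (2 * R * w) := mul_le_mul_of_nonneg_left hEs (by positivity)
      _ = 4 * q ^ n * w := by rw [← hRR]; ring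
  -- the main term
  have e3 : ∑ f ∈ A, (T0 M n / Phi M κ - q ^ n / Phi M κ) ^ 2 ≤ (D + 2) ^ 2 * q ^ n * w := by
    have h1 : (A.card : ℝ) = w * Phi M κ := by
      have h2 := sum_classes hM κ n hκ (fun _ => (1:ℝ)) (fun _ _ _ => rfl)
      rw [← hA, sum_const, nsmul_eq_mul, mul_one, sum_const, nsmul_eq_mul, mul_one] at h2
      rw [h2]
      rfl
    rw [sum_const, nsmul_eq_mul, h1, ← sub_div, div_pow]
    have h2 := T0_bounds hM n hn
    rw [← hqd, ← hR, ← hD] at h2
    have h3 : (T0 M n - q ^ n) ^ 2 ≤ ((D + 2) * R) ^ 2 := by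
      rw [← sq_abs (T0 M n - q ^ n)]
      apply pow_le_pow_left₀ (abs_nonneg _)
      have h5 : D ≤ D * R := le_mul_of_one_le_right hD0 hR1
      linarith
    have h4 : ((D + 2) * R) ^ 2 = (D + 2) ^ 2 * q ^ n := by rw [mul_pow, hRR]
    rw [h4] at h3
    have h5 : 0 ≤ (D + 2) ^ 2 * q ^ n := by positivity
    calc w * (Phi M κ : ℝ) * ((T0 M n - q ^ n) ^ 2 / (Phi M κ : ℝ) ^ 2)
        = w * ((T0 M n - q ^ n) ^ 2 / (Phi M κ : ℝ)) := by field_simp
      _ ≤ w * ((D + 2) ^ 2 * q ^ n) := by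
          apply mul_le_mul_of_nonneg_left _ hw0.le
          rw [div_le_iff₀ hPhi0]
          exact h3.trans (le_mul_of_one_le_right h5 hPhi)
      _ = _ := by ring
  -- together
  have h3sq : ∀ a b c α β γ : ℝ, 0 < α → 0 < β → 0 < γ →
      (a - b + c) ^ 2 ≤ (α + β + γ) * (a ^ 2 / α + b ^ 2 / β + c ^ 2 / γ) := by
    intro a b c α β γ hα hβ hγ
    have h1 : (α + β + γ) * (a ^ 2 / α + b ^ 2 / β + c ^ 2 / γ) - (a - b + c) ^ 2 =
        (β * a + α * b) ^ 2 / (α * β) + (γ * a - α * c) ^ 2 / (α * γ) +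
          (γ * b + β * c) ^ 2 / (β * γ) := by
      field_simp
      ring
    have h2 : 0 ≤ (β * a + α * b) ^ 2 / (α * β) + (γ * a - α * c) ^ 2 / (α * γ) +
          (γ * b + β * c) ^ 2 / (β * γ) := by positivity
    linarith
  have hκ0 : (0:ℝ) ≤ κ := Nat.cast_nonneg _
  set α : ℝ := D + κ + 1 with hα
  have hα0 : 0 < α := by linarith
  have hγ0 : 0 < D + 2 := by linarith
  have hsum : α + 2 + (D + 2) = 2 * D + κ + 5 := by rw [hα]; ring
  have e1' : (∑ f ∈ A, (WW M κ n f - T0 M n / Phi M κ) ^ 2) / α ≤ α * (q ^ n * w) := by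
    rw [div_le_iff₀ hα0]
    refine e1.trans ?_
    push_cast
    rw [← hD]
    have h1 : (D + κ) ^ 2 ≤ α ^ 2 := pow_le_pow_left₀ (by linarith) (by linarith) 2
    calc w * ((D + κ) ^ 2 * q ^ n) = (D + κ) ^ 2 * (q ^ n * w) := by ring
      _ ≤ α ^ 2 * (q ^ n * w) := mul_le_mul_of_nonneg_right h1 (by positivity)
      _ = _ := by ring
  have e2' : (∑ f ∈ A, (Ef f) ^ 2) / 2 ≤ 2 * (q ^ n * w) := by
    rw [div_le_iff₀ (by norm_num)]
    linarith
  have e3' : (∑ f ∈ A, (T0 M n / Phi M κ - q ^ n / Phi M κ) ^ 2) / (D + 2) ≤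
      (D + 2) * (q ^ n * w) := by
    rw [div_le_iff₀ hγ0]
    refine e3.trans (le_of_eq ?_)
    ring
  calc ∑ f ∈ A, ((n : ℝ) * NP M κ n f - q ^ n / Phi M κ) ^ 2
      ≤ ∑ f ∈ A, (α + 2 + (D + 2)) * ((WW M κ n f - T0 M n / Phi M κ) ^ 2 / α + (Ef f) ^ 2 / 2 +
          (T0 M n / Phi M κ - q ^ n / Phi M κ) ^ 2 / (D + 2)) := by
        apply sum_le_sum
        intro f _
        refine le_trans (le_of_eq ?_) (h3sq _ _ _ α 2 (D + 2) hα0 (by norm_num) hγ0)
        rw [hEf]
        ring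
    _ = (α + 2 + (D + 2)) * ((∑ f ∈ A, (WW M κ n f - T0 M n / Phi M κ) ^ 2) / α +
          (∑ f ∈ A, (Ef f) ^ 2) / 2 +
          (∑ f ∈ A, (T0 M n / Phi M κ - q ^ n / Phi M κ) ^ 2) / (D + 2)) := by
        rw [← mul_sum, sum_add_distrib, sum_add_distrib, sum_div, sum_div, sum_div]
    _ ≤ (α + 2 + (D + 2)) * (α * (q ^ n * w) + 2 * (q ^ n * w) + (D + 2) * (q ^ n * w)) := by
        apply mul_le_mul_of_nonneg_left _ (by linarith)
        linarith
    _ = (α + 2 + (D + 2)) ^ 2 * q ^ n * w := by ring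
    _ = _ := by rw [hsum]

end Pool.Agent.H523.RH
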