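import Pool.Agent.H523.CM1
import Pool.Agent.H523.RH4

set_option autoImplicit false
set_option linter.unusedSectionVars false

/-! # Additive characters of `F[X]`: rational approximation and sums over discs -/

namespace Pool.Agent.H523.CM

open Polynomial Finset
open Pool.Agent.H341R2.Sharp (Mon mem_Mon)
open Pool.Agent.H523.FF (Ir mem_Ir PL mem_PL card_PL two_le_card IrLE mem_IrLE irr_coprime PL_mod)

open scoped Classical

variable {F : Type} [Field F] [Fintype F]

/-- polynomials of degree `< m` from their coefficients -/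
noncomputable def inc (m : ℕ) : (Fin m → F) →+ F[X] :=
  ((degreeLT F m).subtype.comp (degreeLTEquiv F m).symm.toLinearMap).toAddMonoidHom

/-- the coefficients of degree `< m` -/
noncomputable def cf (m : ℕ) : F[X] →+ (Fin m → F) where
  toFun f := fun i => f.coeff i
  map_zero' := by ext; simp
  map_add' := by intro f g; ext; simp

theorem inc_mem {m : ℕ} (c : Fin m → F) : inc m c ∈ PL F m := by
  rw [mem_PL]
  exact mem_degreeLT.mp ((degreeLTEquiv F m).symm c).2

theorem inc_inj (m : ℕ) : Function.Injective (inc (F := F) m) := by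
  intro c c' h
  exact (degreeLTEquiv F m).symm.injective (Subtype.ext h)

theorem cf_inc {m : ℕ} (c : Fin m → F) : cf m (inc m c) = c := by
  have h : degreeLTEquiv F m ((degreeLTEquiv F m).symm c) = c := LinearEquiv.apply_symm_apply _ _
  funext i
  exact congrFun h i

theorem inc_cf {m : ℕ} {f : F[X]} (hf : f.degree < m) : inc m (cf m f) = f := by
  have h : (degreeLTEquiv F m).symm (degreeLTEquiv F m ⟨f, mem_degreeLT.mpr hf⟩) =
    ⟨f, mem_degreeLT.mpr hf⟩ := LinearEquiv.symm_apply_apply _ _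
  exact congrArg Subtype.val h

theorem sum_inc {R : Type} [AddCommMonoid R] (m : ℕ) (φ : F[X] → R) :
    ∑ c, φ (inc m c) = ∑ h ∈ PL F m, φ h := by
  refine sum_bij (fun c _ => inc m c) (fun c _ => inc_mem c) (fun c _ c' _ h => inc_inj m h)
    (fun f hf => ⟨cf m f, mem_univ _, inc_cf (mem_PL.mp hf)⟩) (fun _ _ => rfl)

theorem Mon_shift {m n : ℕ} (hmn : m ≤ n) (h f : F[X]) (hh : h.degree < m) :
    f + h ∈ Mon F n ↔ f ∈ Mon F n := by
  have key : ∀ f h : F[X], h.degree < m → f ∈ Mon F n → f + h ∈ Mon F n := by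
    intro f h hh hf
    rw [mem_Mon] at hf ⊢
    have h1 : h.degree < f.degree := by
      refine lt_of_lt_of_le hh ?_
      rw [degree_eq_natDegree hf.1.ne_zero, hf.2]
      exact_mod_cast hmn
    exact ⟨hf.1.add_of_left h1, by rw [natDegree_add_eq_left_of_degree_lt h1, hf.2]⟩
  constructor
  · intro hf
    have := key (f + h) (-h) (by rwa [degree_neg]) hf
    simpa using this
  · exact key f h hh

/-- sums over the residue classes of a disc -/
theorem sum_periodic {R : Type} [Semiring R] {Q : F[X]} (hQ : Q.Monic) {d : ℕ} (hd : Q.natDegree ≤ d)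
    (η : F[X] → R) (hη : ∀ x y : F[X], Q ∣ x - y → η x = η y) (f : F[X]) :
    ∑ g ∈ PL F d, η (f + g) = ((Fintype.card F ^ (d - Q.natDegree) : ℕ) : R) *
      ∑ b ∈ PL F Q.natDegree, η (f + b) := by
  have hQd : (Q.natDegree : WithBot ℕ) = Q.degree := (degree_eq_natDegree hQ.ne_zero).symm
  rw [← sum_fiberwise_of_maps_to (s := PL F d) (t := PL F Q.natDegree) (g := fun g => g %ₘ Q)
    (fun g _ => by
      rw [mem_PL, hQd]
      exact degree_modByMonic_lt g hQ), mul_sum]
  refine sum_congr rfl (fun b hb => ?_)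
  rw [mem_PL, hQd] at hb
  have h1 : (PL F d).filter (fun g => g %ₘ Q = b) = (PL F d).filter (fun g => Q ∣ g - b) := by
    apply filter_congr
    intro g _
    rw [← modByMonic_eq_zero_iff_dvd hQ, sub_modByMonic, (modByMonic_eq_self_iff hQ).mpr hb,
      sub_eq_zero]
  rw [h1, sum_congr rfl (g := fun _ => η (f + b)) (fun g hg => by
    apply hη
    have := (mem_filter.mp hg).2
    have e : f + g - (f + b) = g - b := by ring
    rwa [e]), sum_const, PL_mod Q hQ b d hd, nsmul_eq_mul]

variable (Ψ : AddChar F[X] ℂ)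

/-- **Dirichlet's theorem for additive characters** -/
theorem exists_denominator (r : ℕ) : ∃ Q : F[X], Q.Monic ∧ Q.natDegree ≤ r ∧
    (∀ g : F[X], g.degree < r → Ψ (Q * g) = 1) ∧
    ∀ D : F[X], D.Monic → (∀ g : F[X], g.degree < r → Ψ (D * g) = 1) →
      Q.natDegree ≤ D.natDegree := by
  have hex : ∃ k : ℕ, ∃ Q : F[X], Q.Monic ∧ Q.natDegree = k ∧ k ≤ r ∧
      ∀ g : F[X], g.degree < r → Ψ (Q * g) = 1 := by
    set T : (Fin (r + 1) → F) → AddChar (Fin r → F) ℂ := fun c =>
      Ψ.compAddMonoidHom ((AddMonoidHom.mulLeft (inc (r + 1) c)).comp (inc r)) with hT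
    have hcard : Fintype.card (AddChar (Fin r → F) ℂ) < Fintype.card (Fin (r + 1) → F) := by
      rw [AddChar.card_eq]
      simp only [Fintype.card_pi, prod_const, card_univ, Fintype.card_fin]
      exact Nat.pow_lt_pow_right Fintype.one_lt_card (Nat.lt_succ_self r)
    obtain ⟨c, c', hne, hcc⟩ := Fintype.exists_ne_map_eq_of_card_lt T hcard
    set Q₀ : F[X] := inc (r + 1) (c - c') with hQ₀
    have hQ0 : Q₀ ≠ 0 := by
      intro h
      have h2 : inc (r + 1) (c - c') = inc (r + 1) 0 := by rw [map_zero]; exact h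
      exact hne (sub_eq_zero.mp (inc_inj _ h2))
    have hQd : Q₀.natDegree ≤ r := by
      have h1 := mem_PL.mp (inc_mem (c - c'))
      rw [← hQ₀, degree_eq_natDegree hQ0] at h1
      have : Q₀.natDegree < r + 1 := by exact_mod_cast h1
      omega
    have hpsi : ∀ g : F[X], g.degree < r → Ψ (Q₀ * g) = 1 := by
      intro g hg
      have h1 : T c (cf r g) = T c' (cf r g) := by rw [hcc]
      simp only [hT, AddChar.compAddMonoidHom_apply, AddMonoidHom.comp_apply,
        AddMonoidHom.coe_mulLeft, inc_cf hg] at h1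
      have h2 : Q₀ * g = inc (r + 1) c * g - inc (r + 1) c' * g := by
        rw [hQ₀, map_sub, sub_mul]
      rw [h2, AddChar.map_sub_eq_div, h1, div_self (Ψ.val_isUnit _).ne_zero]
    refine ⟨Q₀.natDegree, C (Q₀.leadingCoeff)⁻¹ * Q₀, ?_, ?_, hQd, ?_⟩
    · exact monic_C_mul_of_mul_leadingCoeff_eq_one
        (inv_mul_cancel₀ (leadingCoeff_ne_zero.mpr hQ0))
    · exact natDegree_C_mul (inv_ne_zero (leadingCoeff_ne_zero.mpr hQ0))
    · intro g hg
      have h3 : C (Q₀.leadingCoeff)⁻¹ * Q₀ * g = Q₀ * (C (Q₀.leadingCoeff)⁻¹ * g) := by ring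
      rw [h3]
      apply hpsi
      rw [degree_C_mul (inv_ne_zero (leadingCoeff_ne_zero.mpr hQ0))]
      exact hg
  obtain ⟨Q, hQm, hQk, hkr, hQ⟩ := Nat.find_spec hex
  refine ⟨Q, hQm, by rw [hQk]; exact hkr, hQ, fun D hD hDg => ?_⟩
  rw [hQk]
  by_cases hDr : D.natDegree ≤ r
  · exact Nat.find_min' hex ⟨D, hD, rfl, hDr, hDg⟩
  · omega

/-- the character with denominator `Q` which agrees with `Ψ` on a disc -/
noncomputable def phi (Q : F[X]) : AddChar F[X] ℂ :=
  Ψ.compAddMonoidHom (modByMonicHom Q).toAddMonoidHom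

theorem phi_apply (Q x : F[X]) : phi Ψ Q x = Ψ (x %ₘ Q) := rfl

variable {Ψ} {Q : F[X]} {r : ℕ}

theorem phi_mul (hQ : Q.Monic) (y : F[X]) : phi Ψ Q (Q * y) = 1 := by
  rw [phi_apply, (modByMonic_eq_zero_iff_dvd hQ).mpr (dvd_mul_right _ _), AddChar.map_zero_eq_one]

theorem phi_periodic (hQ : Q.Monic) {x y : F[X]} (h : Q ∣ x - y) : phi Ψ Q x = phi Ψ Q y := by
  obtain ⟨z, hz⟩ := h
  have : x = Q * z + y := by rw [← hz]; ring
  rw [this, AddChar.map_add_eq_mul, phi_mul hQ, one_mul]

theorem phi_eq (hQ : Q.Monic) (hg : ∀ g : F[X], g.degree < r → Ψ (Q * g) = 1) {x : F[X]}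
    (hx : x.degree < ((Q.natDegree + r : ℕ) : WithBot ℕ)) : phi Ψ Q x = Ψ x := by
  have h1 := modByMonic_add_div x Q
  have h2 : (x /ₘ Q).degree < r := by
    by_cases h0 : x /ₘ Q = 0
    · rw [h0, degree_zero]; exact WithBot.bot_lt_coe _
    · have hx0 : x ≠ 0 := by
        rintro rfl
        exact h0 (zero_divByMonic _)
      have h3 : Q.natDegree ≤ x.natDegree := by
        by_contra hcon
        apply h0
        rw [divByMonic_eq_zero_iff hQ]
        exact degree_lt_degree (by omega)
      rw [degree_eq_natDegree h0, natDegree_divByMonic x hQ]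
      rw [degree_eq_natDegree hx0] at hx
      have h4 : x.natDegree < Q.natDegree + r := by exact_mod_cast hx
      exact_mod_cast (by omega : x.natDegree - Q.natDegree < r)
  rw [phi_apply]
  conv_rhs => rw [← h1, AddChar.map_add_eq_mul, hg _ h2, mul_one]

/-- the conductor is exactly `Q` -/
theorem phi_conductor (hQ : Q.Monic) (hg : ∀ g : F[X], g.degree < r → Ψ (Q * g) = 1)
    (hmin : ∀ D : F[X], D.Monic → (∀ g : F[X], g.degree < r → Ψ (D * g) = 1) →
      Q.natDegree ≤ D.natDegree) {T : F[X]} (hT : ∀ y : F[X], phi Ψ Q (T * y) = 1) : Q ∣ T := by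
  set D := normalize (EuclideanDomain.gcd Q T) with hD
  have hg0 : EuclideanDomain.gcd Q T ≠ 0 := by
    intro h
    have := EuclideanDomain.gcd_dvd_left Q T
    rw [h, zero_dvd_iff] at this
    exact hQ.ne_zero this
  have hDm : D.Monic := monic_normalize hg0
  have hDQ : D ∣ Q := (normalize_dvd_iff).mpr (EuclideanDomain.gcd_dvd_left Q T)
  have hDT : D ∣ T := (normalize_dvd_iff).mpr (EuclideanDomain.gcd_dvd_right Q T)
  have hDy : ∀ y : F[X], phi Ψ Q (D * y) = 1 := by
    intro y
    have h1 : EuclideanDomain.gcd Q T ∣ D := (associated_normalize _).dvd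
    obtain ⟨c, hc⟩ := h1
    have h2 := EuclideanDomain.gcd_eq_gcd_ab Q T
    have h3 : D * y = Q * (EuclideanDomain.gcdA Q T * c * y) + T * (EuclideanDomain.gcdB Q T * c * y) := by
      rw [hc, h2]; ring
    rw [h3, AddChar.map_add_eq_mul, phi_mul hQ, hT, one_mul]
  have hDle : Q.natDegree ≤ D.natDegree := by
    apply hmin D hDm
    intro g hgr
    rw [← phi_eq (r := r) hQ hg, hDy]
    have hDd : D.natDegree ≤ Q.natDegree := natDegree_le_of_dvd hDQ hQ.ne_zero
    by_cases h0 : g = 0
    · rw [h0, mul_zero, degree_zero]; exact WithBot.bot_lt_coe _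
    · rw [degree_mul, degree_eq_natDegree hDm.ne_zero, degree_eq_natDegree h0]
      rw [degree_eq_natDegree h0] at hgr
      have h5 : g.natDegree < r := by exact_mod_cast hgr
      exact_mod_cast (by omega : D.natDegree + g.natDegree < Q.natDegree + r)
  have hDQ' : D = Q := by
    obtain ⟨c, hc⟩ := hDQ
    have hc0 : c ≠ 0 := by
      rintro rfl
      rw [mul_zero] at hc
      exact hQ.ne_zero hc
    have hcm : c.Monic := hDm.of_mul_monic_left (by rw [← hc]; exact hQ)
    have h1 : Q.natDegree = D.natDegree + c.natDegree := by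
      conv_lhs => rw [hc]
      exact natDegree_mul hDm.ne_zero hc0
    have h2 : c.natDegree = 0 := by omega
    rw [hcm.natDegree_eq_zero] at h2
    rw [hc, h2, mul_one]
  rw [← hDQ']
  exact hDT

/-- **Sums over the multiples of `T` in a disc** -/
theorem sum_multiples {φ : AddChar F[X] ℂ} (hQ : Q.Monic) (hφ : ∀ y : F[X], φ (Q * y) = 1)
    (hc : ∀ T : F[X], (∀ y : F[X], φ (T * y) = 1) → Q ∣ T) {T : F[X]} (hT : T.Monic) {d : ℕ}
    (hd : T.natDegree + Q.natDegree ≤ d) (f : F[X]) :
    ∑ g ∈ (PL F d).filter (fun g => T ∣ f + g), φ (f + g) =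
      if Q ∣ T then ((Fintype.card F ^ (d - T.natDegree) : ℕ) : ℂ) else 0 := by
  split_ifs with h
  · have h1 : ∀ g ∈ (PL F d).filter (fun g => T ∣ f + g), φ (f + g) = 1 := by
      intro g hg
      obtain ⟨z, hz⟩ := h.trans (mem_filter.mp hg).2
      rw [hz, hφ]
    rw [sum_congr rfl h1, sum_const, nsmul_eq_mul, mul_one]
    have h2 : (PL F d).filter (fun g => T ∣ f + g) = (PL F d).filter (fun g => T ∣ g - (-f)) := by
      apply filter_congr
      intro g _
      rw [sub_neg_eq_add, add_comm]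
    rw [h2, PL_mod T hT (-f) d (by omega)]
  · have h1 : ∃ y : F[X], y.degree < Q.natDegree ∧ φ (T * y) ≠ 1 := by
      by_contra hcon
      push Not at hcon
      apply h
      apply hc
      intro y
      have h2 := modByMonic_add_div y Q
      have h3 : T * y = T * (y %ₘ Q) + Q * (T * (y /ₘ Q)) := by
        conv_lhs => rw [← h2]
        ring
      rw [h3, AddChar.map_add_eq_mul, hφ, mul_one]
      apply hcon
      rw [← degree_eq_natDegree hQ.ne_zero]
      exact degree_modByMonic_lt y hQ
    obtain ⟨y, hy, hne⟩ := h1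
    have hTy : (T * y).degree < d := by
      by_cases h0 : y = 0
      · rw [h0, mul_zero, degree_zero]; exact WithBot.bot_lt_coe _
      · rw [degree_mul, degree_eq_natDegree hT.ne_zero, degree_eq_natDegree h0]
        rw [degree_eq_natDegree h0] at hy
        have h5 : y.natDegree < Q.natDegree := by exact_mod_cast hy
        exact_mod_cast (by omega : T.natDegree + y.natDegree < d)
    have hsh : ∑ g ∈ (PL F d).filter (fun g => T ∣ f + g), φ (f + g) =
        φ (T * y) * ∑ g ∈ (PL F d).filter (fun g => T ∣ f + g), φ (f + g) := by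
      rw [mul_sum]
      symm
      refine sum_bij (fun g _ => g + T * y) ?_ (fun a _ b _ h => by simpa using h) ?_ ?_
      · intro g hg
        rw [mem_filter, mem_PL] at hg ⊢
        refine ⟨lt_of_le_of_lt (degree_add_le _ _) (max_lt hg.1 hTy), ?_⟩
        rw [← add_assoc]
        exact dvd_add hg.2 (dvd_mul_right _ _)
      · intro g hg
        rw [mem_filter, mem_PL] at hg
        refine ⟨g - T * y, ?_, by ring⟩
        rw [mem_filter, mem_PL]
        refine ⟨lt_of_le_of_lt (degree_sub_le _ _) (max_lt hg.1 hTy), ?_⟩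
        rw [← add_sub_assoc]
        exact dvd_sub hg.2 (dvd_mul_right _ _)
      · intro g _
        rw [← AddChar.map_add_eq_mul]
        congr 1
        ring
    have h6 : (1 - φ (T * y)) * ∑ g ∈ (PL F d).filter (fun g => T ∣ f + g), φ (f + g) = 0 := by
      linear_combination hsh
    rcases mul_eq_zero.mp h6 with h7 | h7
    · exact absurd (by linear_combination -h7) hne
    · exact h7

end Pool.Agent.H523.CM
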