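import Pool.Agent.H523.CM9

set_option autoImplicit false
set_option linter.unusedSectionVars false

/-! # Divisor functions on the monic polynomials -/

namespace Pool.Agent.H523.CM

open Polynomial Finset
open Pool.Agent.H341R2.Sharp (Mon mem_Mon)
open Pool.Agent.H523.FF (Ir mem_Ir PL mem_PL card_PL two_le_card IrLE mem_IrLE irr_coprime PL_mod)

open scoped Classical

variable {F : Type} [Field F] [Fintype F]

variable (F) in
/-- the monic polynomials of degree at most `y` -/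
noncomputable def ML (y : ℕ) : Finset F[X] := (range (y + 1)).biUnion (Mon F)

theorem mem_ML {y : ℕ} {M : F[X]} : M ∈ ML F y ↔ M.Monic ∧ M.natDegree ≤ y := by
  unfold ML
  rw [mem_biUnion]
  constructor
  · rintro ⟨j, hj, h⟩
    rw [mem_Mon] at h
    rw [mem_range] at hj
    exact ⟨h.1, by omega⟩
  · rintro ⟨h1, h2⟩
    exact ⟨M.natDegree, mem_range.mpr (by omega), mem_Mon.mpr ⟨h1, rfl⟩⟩

theorem sum_ML {R : Type} [AddCommMonoid R] (y : ℕ) (φ : F[X] → R) :
    ∑ M ∈ ML F y, φ M = ∑ j ∈ range (y + 1), ∑ M ∈ Mon F j, φ M := by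
  unfold ML
  rw [sum_biUnion]
  intro i _ j _ hij
  rw [Function.onFun, disjoint_left]
  intro M h1 h2
  rw [mem_Mon] at h1 h2
  exact hij (h1.2.symm.trans h2.2)

/-- sums over the multiples of a monic polynomial -/
theorem sum_mult {R : Type} [AddCommMonoid R] {n : ℕ} {M : F[X]} (hM : M.Monic)
    (hn : M.natDegree ≤ n) (φ : F[X] → R) :
    ∑ f ∈ (Mon F n).filter (fun f => M ∣ f), φ f = ∑ g ∈ Mon F (n - M.natDegree), φ (M * g) := by
  symm
  refine sum_bij (fun g _ => M * g) ?_ ?_ ?_ (fun _ _ => rfl)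
  · intro g hg
    rw [mem_Mon] at hg
    rw [mem_filter, mem_Mon]
    refine ⟨⟨hM.mul hg.1, ?_⟩, dvd_mul_right _ _⟩
    rw [hM.natDegree_mul hg.1, hg.2]
    omega
  · intro a _ b _ h
    exact mul_left_cancel₀ hM.ne_zero h
  · intro f hf
    rw [mem_filter, mem_Mon] at hf
    obtain ⟨g, hg⟩ := hf.2
    have hg1 : g.Monic := hM.of_mul_monic_left (by rw [← hg]; exact hf.1.1)
    refine ⟨g, ?_, hg.symm⟩
    rw [mem_Mon]
    refine ⟨hg1, ?_⟩
    have h1 := hf.1.2
    rw [hg, hM.natDegree_mul hg1] at h1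
    omega

/-- the number of the monic divisors -/
noncomputable def tau (f : F[X]) : ℕ := ((ML F f.natDegree).filter (fun M => M ∣ f)).card

theorem mem_div {f M : F[X]} (hf : f ≠ 0) :
    M ∈ (ML F f.natDegree).filter (fun M => M ∣ f) ↔ M.Monic ∧ M ∣ f := by
  rw [mem_filter, mem_ML]
  constructor
  · rintro ⟨⟨h1, _⟩, h2⟩
    exact ⟨h1, h2⟩
  · rintro ⟨h1, h2⟩
    exact ⟨⟨h1, natDegree_le_of_dvd h2 hf⟩, h2⟩

theorem tau_pos {f : F[X]} (hf : f ≠ 0) : 1 ≤ tau f := by
  unfold tau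
  rw [Nat.one_le_iff_ne_zero, ← Nat.pos_iff_ne_zero, card_pos]
  exact ⟨1, (mem_div hf).mpr ⟨monic_one, one_dvd _⟩⟩

theorem tau_mul_le {f g : F[X]} (hf : f ≠ 0) (hg : g ≠ 0) : tau (f * g) ≤ tau f * tau g := by
  unfold tau
  rw [← card_product]
  have hsub : (ML F (f * g).natDegree).filter (fun M => M ∣ f * g) ⊆
      (((ML F f.natDegree).filter (fun M => M ∣ f)) ×ˢ
        ((ML F g.natDegree).filter (fun M => M ∣ g))).image (fun x => x.1 * x.2) := by
    intro D hD
    rw [mem_div (mul_ne_zero hf hg)] at hD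
    obtain ⟨hDm, hDd⟩ := hD
    obtain ⟨D₁, D₂, h1, h2, h12⟩ := exists_dvd_and_dvd_of_dvd_mul hDd
    have hD0 : D ≠ 0 := hDm.ne_zero
    have hD₁ : D₁ ≠ 0 := by
      rintro rfl
      rw [zero_mul] at h12
      exact hD0 h12
    have hlc : D₁.leadingCoeff ≠ 0 := leadingCoeff_ne_zero.mpr hD₁
    have hm1 : (C D₁.leadingCoeff⁻¹ * D₁).Monic := by
      rw [Monic, leadingCoeff_mul, leadingCoeff_C, inv_mul_cancel₀ hlc]
    have hprod : (C D₁.leadingCoeff⁻¹ * D₁) * (C D₁.leadingCoeff * D₂) = D := by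
      rw [h12]
      have : C D₁.leadingCoeff⁻¹ * C D₁.leadingCoeff = (1 : F[X]) := by
        rw [← C_mul, inv_mul_cancel₀ hlc, C_1]
      calc (C D₁.leadingCoeff⁻¹ * D₁) * (C D₁.leadingCoeff * D₂)
          = (C D₁.leadingCoeff⁻¹ * C D₁.leadingCoeff) * (D₁ * D₂) := by ring
        _ = D₁ * D₂ := by rw [this, one_mul]
    have hm2 : (C D₁.leadingCoeff * D₂).Monic := hm1.of_mul_monic_left (by rw [hprod]; exact hDm)
    rw [mem_image]
    refine ⟨(C D₁.leadingCoeff⁻¹ * D₁, C D₁.leadingCoeff * D₂), ?_, hprod⟩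
    rw [mem_product]
    refine ⟨(mem_div hf).mpr ⟨hm1, ?_⟩, (mem_div hg).mpr ⟨hm2, ?_⟩⟩
    · obtain ⟨x, hx⟩ := h1
      refine ⟨C D₁.leadingCoeff * x, ?_⟩
      rw [hx]
      have : C D₁.leadingCoeff⁻¹ * C D₁.leadingCoeff = (1 : F[X]) := by
        rw [← C_mul, inv_mul_cancel₀ hlc, C_1]
      calc D₁ * x = (C D₁.leadingCoeff⁻¹ * C D₁.leadingCoeff) * (D₁ * x) := by rw [this, one_mul]
        _ = _ := by ring
    · obtain ⟨x, hx⟩ := h2
      refine ⟨C D₁.leadingCoeff⁻¹ * x, ?_⟩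
      rw [hx]
      have : C D₁.leadingCoeff * C D₁.leadingCoeff⁻¹ = (1 : F[X]) := by
        rw [← C_mul, mul_inv_cancel₀ hlc, C_1]
      calc D₂ * x = (C D₁.leadingCoeff * C D₁.leadingCoeff⁻¹) * (D₂ * x) := by rw [this, one_mul]
        _ = _ := by ring
  exact (card_le_card hsub).trans card_image_le

/-- the divisors of a polynomial have at most as many divisors -/
theorem tau_dvd_le {f g : F[X]} (hg : g ≠ 0) (h : f ∣ g) : tau f ≤ tau g := by
  unfold tau
  apply card_le_card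
  have hf : f ≠ 0 := by
    rintro rfl
    exact hg (zero_dvd_iff.mp h)
  intro M hM
  rw [mem_div hf] at hM
  rw [mem_div hg]
  exact ⟨hM.1, hM.2.trans h⟩

/-- **The moments of the divisor function** -/
theorem tau_moment (κ n : ℕ) : ∑ f ∈ Mon F n, (tau f : ℝ) ^ κ ≤
    ((n:ℝ) + 1) ^ (2 ^ κ - 1) * (Fintype.card F : ℝ) ^ n := by
  have hq := two_le_card (F := F)
  induction κ generalizing n with
  | zero =>
    simp only [pow_zero, sum_const, nsmul_eq_mul, mul_one, Nat.sub_self, one_mul]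
    have h := sum_Mon_eq (F := F) n (fun _ => (1:ℝ))
    rw [sum_const, sum_const, nsmul_eq_mul, nsmul_eq_mul, mul_one, mul_one, card_PL] at h
    rw [h]
    push_cast
    exact le_rfl
  | succ κ ih =>
    have h1 : ∑ f ∈ Mon F n, (tau f : ℝ) ^ (κ + 1) =
        ∑ M ∈ ML F n, ∑ f ∈ (Mon F n).filter (fun f => M ∣ f), (tau f : ℝ) ^ κ := by
      have h2 : ∀ f ∈ Mon F n, (tau f : ℝ) ^ (κ + 1) =
          ∑ M ∈ ML F n, if M ∣ f then (tau f : ℝ) ^ κ else 0 := by
        intro f hf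
        rw [mem_Mon] at hf
        rw [← sum_filter, sum_const, nsmul_eq_mul, pow_succ, mul_comm]
        congr 1
        unfold tau
        rw [hf.2]
      rw [sum_congr rfl h2, sum_comm]
      refine sum_congr rfl (fun M _ => ?_)
      rw [sum_filter]
    rw [h1, sum_ML]
    have h3 : ∀ a ∈ range (n + 1), ∑ M ∈ Mon F a, ∑ f ∈ (Mon F n).filter (fun f => M ∣ f),
        (tau f : ℝ) ^ κ ≤ ((n:ℝ) + 1) ^ (2 * (2 ^ κ - 1)) * (Fintype.card F : ℝ) ^ n := by
      intro a ha
      rw [mem_range] at ha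
      calc ∑ M ∈ Mon F a, ∑ f ∈ (Mon F n).filter (fun f => M ∣ f), (tau f : ℝ) ^ κ
          ≤ ∑ M ∈ Mon F a, ∑ g ∈ Mon F (n - a), (tau M : ℝ) ^ κ * (tau g : ℝ) ^ κ := by
            refine sum_le_sum (fun M hM => ?_)
            rw [mem_Mon] at hM
            rw [sum_mult hM.1 (by omega), hM.2]
            refine sum_le_sum (fun g hg => ?_)
            rw [mem_Mon] at hg
            rw [← mul_pow]
            apply pow_le_pow_left₀ (Nat.cast_nonneg _)
            exact_mod_cast tau_mul_le hM.1.ne_zero hg.1.ne_zero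
        _ = (∑ M ∈ Mon F a, (tau M : ℝ) ^ κ) * ∑ g ∈ Mon F (n - a), (tau g : ℝ) ^ κ := by
            rw [sum_mul_sum]
        _ ≤ (((a:ℝ) + 1) ^ (2 ^ κ - 1) * (Fintype.card F : ℝ) ^ a) *
              ((((n - a : ℕ):ℝ) + 1) ^ (2 ^ κ - 1) * (Fintype.card F : ℝ) ^ (n - a)) := by
            apply mul_le_mul (ih a) (ih (n - a)) (sum_nonneg (fun _ _ => by positivity))
            positivity
        _ ≤ (((n:ℝ) + 1) ^ (2 ^ κ - 1) * (Fintype.card F : ℝ) ^ a) *
              (((n:ℝ) + 1) ^ (2 ^ κ - 1) * (Fintype.card F : ℝ) ^ (n - a)) := by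
            have ha' : (a:ℝ) ≤ n := by exact_mod_cast (by omega : a ≤ n)
            have hb' : ((n - a : ℕ):ℝ) ≤ n := by exact_mod_cast Nat.sub_le _ _
            apply mul_le_mul _ _ (by positivity) (by positivity)
            · apply mul_le_mul_of_nonneg_right _ (by positivity)
              exact pow_le_pow_left₀ (by positivity) (by linarith) _
            · apply mul_le_mul_of_nonneg_right _ (by positivity)
              exact pow_le_pow_left₀ (by positivity) (by linarith) _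
        _ = _ := by
            have e : (Fintype.card F : ℝ) ^ n =
                (Fintype.card F : ℝ) ^ a * (Fintype.card F : ℝ) ^ (n - a) := by
              rw [← pow_add]; congr 1; omega
            rw [e, mul_comm 2, pow_mul]
            ring
    calc ∑ a ∈ range (n + 1), ∑ M ∈ Mon F a, ∑ f ∈ (Mon F n).filter (fun f => M ∣ f),
        (tau f : ℝ) ^ κ
        ≤ ∑ _a ∈ range (n + 1), ((n:ℝ) + 1) ^ (2 * (2 ^ κ - 1)) * (Fintype.card F : ℝ) ^ n :=
          sum_le_sum h3
      _ = _ := by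
          rw [sum_const, card_range, nsmul_eq_mul]
          have e : 2 ^ (κ + 1) - 1 = 1 + 2 * (2 ^ κ - 1) := by
            have : 1 ≤ 2 ^ κ := Nat.one_le_two_pow
            rw [pow_succ]; omega
          rw [e, pow_add, pow_one]
          push_cast
          ring

end Pool.Agent.H523.CM
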