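import Pool.Agent.H523.CM20

set_option autoImplicit false
set_option linter.unusedSectionVars false

/-! # The model in residue classes -/

namespace Pool.Agent.H523.CM

open Polynomial Finset
open Pool.Agent.H341R2.Sharp (Mon mem_Mon)
open Pool.Agent.H523.FF (Ir mem_Ir PL mem_PL card_PL two_le_card IrLE mem_IrLE irr_coprime PL_mod)

open scoped Classical

variable {F : Type} [Field F] [Fintype F]

theorem sum_aP_affine {P : F[X]} (hP : P.Monic) (hPI : Irreducible P) {M : F[X]} (hM : ¬ P ∣ M)
    (a : F[X]) : ∑ b ∈ PL F P.natDegree, aP P (M * b + a) = 0 := by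
  have hPd : (P.natDegree : WithBot ℕ) = P.degree := (degree_eq_natDegree hP.ne_zero).symm
  rw [← sum_aP hP hPI]
  have hmod : ∀ x : F[X], P ∣ x - x %ₘ P := fun x =>
    ⟨x /ₘ P, by linear_combination -(modByMonic_add_div x P)⟩
  refine sum_bij' (i := fun b _ => (M * b + a) %ₘ P)
    (j := fun y _ => if h : ∃ b ∈ PL F P.natDegree, (M * b + a) %ₘ P = y then h.choose else 0)
    ?_ ?_ ?_ ?_ ?_
  · intro b _
    rw [mem_PL, hPd]
    exact degree_modByMonic_lt _ hP
  · intro y _
    split_ifs with h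
    · exact h.choose_spec.1
    · rw [mem_PL, degree_zero]; exact WithBot.bot_lt_coe _
  · intro b hb
    have h : ∃ b' ∈ PL F P.natDegree, (M * b' + a) %ₘ P = (M * b + a) %ₘ P := ⟨b, hb, rfl⟩
    rw [dif_pos h]
    obtain ⟨h1, h2⟩ := h.choose_spec
    set b' := h.choose with hb'
    have h3 : P ∣ M * (b' - b) := by
      have e1 := hmod (M * b' + a)
      have e2 := hmod (M * b + a)
      rw [h2] at e1
      have := dvd_sub e1 e2
      have e3 : M * b' + a - (M * b + a) %ₘ P - (M * b + a - (M * b + a) %ₘ P) = M * (b' - b) := by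
        ring
      rwa [e3] at this
    have h4 : P ∣ b' - b := (hPI.prime.dvd_or_dvd h3).resolve_left hM
    by_contra hne
    have h5 : b' - b ≠ 0 := sub_ne_zero.mpr hne
    have h6 := degree_le_of_dvd h4 h5
    have h7 : (b' - b).degree < (P.natDegree : WithBot ℕ) :=
      lt_of_le_of_lt (degree_sub_le _ _) (max_lt (mem_PL.mp h1) (mem_PL.mp hb))
    rw [hPd] at h7
    exact absurd h6 (not_le.mpr h7)
  · intro y hy
    -- surjectivity
    have h : ∃ b ∈ PL F P.natDegree, (M * b + a) %ₘ P = y := by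
      have hcop : IsCoprime M P := (hPI.coprime_iff_not_dvd.mpr hM).symm
      obtain ⟨u, v, huv⟩ := hcop
      refine ⟨(u * (y - a)) %ₘ P, ?_, ?_⟩
      · rw [mem_PL, hPd]
        exact degree_modByMonic_lt _ hP
      · have hy' : y %ₘ P = y := (modByMonic_eq_self_iff hP).mpr (by
          rw [← hPd]; exact mem_PL.mp hy)
        obtain ⟨w, hw⟩ := hmod (u * (y - a))
        have e : M * (u * (y - a) %ₘ P) + a - y = P * (-(M * w) - v * (y - a)) := by
          have e1 : u * (y - a) %ₘ P = u * (y - a) - P * w := by rw [← hw]; ring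
          rw [e1]
          linear_combination (y - a) * huv
        have e2 : (M * (u * (y - a) %ₘ P) + a) %ₘ P = y %ₘ P := by
          rw [← sub_eq_zero, ← sub_modByMonic, modByMonic_eq_zero_iff_dvd hP, e]
          exact dvd_mul_right _ _
        rw [e2, hy']
    rw [dif_pos h]
    exact h.choose_spec.2
  · intro b _
    exact aP_periodic (hmod _)

/-- the Ramanujan sums over the multiples of a polynomial -/
theorem sum_mult_aP {M : F[X]} {k : ℕ} {s : Finset F[X]}
    (hs : ∀ P ∈ s, P.Monic ∧ Irreducible P) (hk : ∑ P ∈ s, P.natDegree ≤ k) (a : F[X]) :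
    ∑ g ∈ Mon F k, ∏ P ∈ s, aP P (M * g + a) =
      if ∀ P ∈ s, P ∣ M then (Fintype.card F : ℝ) ^ k * ∏ P ∈ s, aP P a else 0 := by
  rw [sum_Mon_eq k (fun g => ∏ P ∈ s, aP P (M * g + a))]
  rw [independence hs hk (fun P x => aP P (M * x + a)) (by
    intro P _ x y hxy
    apply aP_periodic
    have : M * x + a - (M * y + a) = M * (x - y) := by ring
    rw [this]
    exact hxy.mul_left M) (X ^ k)]
  split_ifs with h
  · have h2 : ∀ P ∈ s, ∑ b ∈ PL F P.natDegree, aP P (M * b + a) =
        (Fintype.card F : ℝ) ^ P.natDegree * aP P a := by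
      intro P hP
      rw [sum_congr rfl (g := fun _ => aP P a) (fun b _ => aP_periodic (by
        have : M * b + a - a = M * b := by ring
        rw [this]
        exact (h P hP).mul_right b)), sum_const, card_PL, nsmul_eq_mul]
      push_cast
      rfl
    rw [prod_congr rfl h2, prod_mul_distrib, prod_pow_eq_pow_sum]
    push_cast
    rw [← mul_assoc, ← pow_add, Nat.sub_add_cancel hk]
  · push Not at h
    obtain ⟨P, hP, h3⟩ := h
    rw [prod_eq_zero hP (sum_aP_affine (hs P hP).1 (hs P hP).2 h3 a), mul_zero]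

/-- the model over the multiples of a polynomial -/
theorem Lb_mult {M : F[X]} (hM : M.Monic) {n r : ℕ} (hn : M.natDegree + r ≤ n) (a : F[X]) :
    ∑ f ∈ (Mon F n).filter (fun f => M ∣ f), Lb r (f + a) =
      (Fintype.card F : ℝ) ^ (n - M.natDegree) *
        ∑ s ∈ (SF F r).filter (fun s => s ⊆ pd M), ∏ P ∈ s, aP P a := by
  rw [sum_mult hM (by omega)]
  unfold Lb
  rw [sum_comm, mul_sum, sum_filter]
  refine sum_congr rfl (fun s hs => ?_)
  have hs' := mem_SF.mp hs
  rw [sum_mult_aP hs'.1 (by omega) a]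
  have e : (∀ P ∈ s, P ∣ M) ↔ s ⊆ pd M := by
    constructor
    · intro h P hP
      rw [mem_pd hM]
      exact ⟨(hs'.1 P hP).1, (hs'.1 P hP).2, h P hP⟩
    · intro h P hP
      exact ((mem_pd hM).mp (h hP)).2.2
  simp only [e]

/-- the number of the reduced residue classes -/
noncomputable def phi1 (M : F[X]) : ℕ := ((PL F M.natDegree).filter (fun b => IsCoprime b M)).card

theorem sum_pd_le {M : F[X]} (hM : M.Monic) : ∑ P ∈ pd M, P.natDegree ≤ M.natDegree := by
  have h1 := pr_pd_dvd hM
  have h2 := natDegree_le_of_dvd h1 hM.ne_zero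
  rwa [natDegree_pr (pd_pr hM)] at h2

theorem phi1_eq {M : F[X]} (hM : M.Monic) : (phi1 M : ℝ) =
    (Fintype.card F : ℝ) ^ (M.natDegree - ∑ P ∈ pd M, P.natDegree) *
      ∏ P ∈ pd M, ((Fintype.card F : ℝ) ^ P.natDegree - 1) := by
  have h1 : (phi1 M : ℝ) = ∑ b ∈ PL F M.natDegree, ∏ P ∈ pd M, (if P ∣ 0 + b then (0:ℝ) else 1) := by
    unfold phi1
    rw [card_filter]
    push_cast
    refine sum_congr rfl (fun b _ => ?_)
    rw [zero_add, coprime_iff hM]
    split_ifs with h
    · symm
      apply prod_eq_one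
      intro P hP
      rw [if_neg (h P hP)]
    · symm
      push Not at h
      obtain ⟨P, hP, h2⟩ := h
      apply prod_eq_zero hP
      rw [if_pos h2]
  rw [h1, independence (pd_pr hM) (sum_pd_le hM) (fun P x => if P ∣ x then (0:ℝ) else 1) (by
    intro P _ x y hxy
    have : P ∣ x ↔ P ∣ y := by
      constructor
      · intro hx
        have := dvd_sub hx hxy
        rwa [sub_sub_cancel] at this
      · intro hy
        have := dvd_add hxy hy
        rwa [sub_add_cancel] at this
    simp only [this]) 0]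
  push_cast
  congr 1
  refine prod_congr rfl (fun P hP => ?_)
  rw [sum_residues (pd_pr hM P hP).1]
  ring

/-- the expected number in a residue class, by the Ramanujan sums -/
theorem main_class {M : F[X]} (hM : M.Monic) (a : F[X]) :
    (if IsCoprime a M then 1 / (phi1 M : ℝ) else 0) =
      1 / (Fintype.card F : ℝ) ^ M.natDegree * ∑ s ∈ (pd M).powerset, ∏ P ∈ s, aP P a := by
  have hq := two_le_card (F := F)
  have hq0 : (0:ℝ) < (Fintype.card F : ℝ) := by linarith
  rw [← prod_one_add]
  rw [prod_congr rfl (fun P hP => one_add_aP_eq (pd_pr hM P hP).2 a)]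
  split_ifs with h
  · rw [coprime_iff hM] at h
    rw [prod_congr rfl (fun P hP => if_neg (h P hP)), phi1_eq hM]
    have h1 : ∀ P ∈ pd M, (1 - 1 / (Fintype.card F : ℝ) ^ P.natDegree)⁻¹ =
        (Fintype.card F : ℝ) ^ P.natDegree / ((Fintype.card F : ℝ) ^ P.natDegree - 1) := by
      intro P hP
      have h2 := norm_gt (pd_pr hM P hP).2
      have h3 : (Fintype.card F : ℝ) ^ P.natDegree - 1 ≠ 0 := by linarith
      have h4 : (Fintype.card F : ℝ) ^ P.natDegree ≠ 0 := by linarith
      rw [one_sub_div h4, inv_div]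
    rw [prod_congr rfl h1, prod_div_distrib, prod_pow_eq_pow_sum]
    have h5 : ∏ P ∈ pd M, ((Fintype.card F : ℝ) ^ P.natDegree - 1) ≠ 0 := by
      rw [prod_ne_zero_iff]
      intro P hP
      have h2 := norm_gt (pd_pr hM P hP).2
      linarith
    have h6 : (Fintype.card F : ℝ) ^ M.natDegree =
        (Fintype.card F : ℝ) ^ (M.natDegree - ∑ P ∈ pd M, P.natDegree) *
          (Fintype.card F : ℝ) ^ (∑ P ∈ pd M, P.natDegree) := by
      rw [← pow_add]; congr 1
      have := sum_pd_le hM
      omega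
    rw [h6]
    field_simp
  · rw [coprime_iff hM] at h
    push Not at h
    obtain ⟨P, hP, h2⟩ := h
    rw [prod_eq_zero hP (by rw [if_pos h2]), mul_zero]

/-- the difference of the model and the expected number in a residue class -/
theorem class_diff {M : F[X]} (hM : M.Monic) {n r : ℕ} (hn : M.natDegree + r ≤ n) (a : F[X]) :
    ∑ f ∈ (Mon F n).filter (fun f => M ∣ f), Lb r (f + a) -
      (if IsCoprime a M then (Fintype.card F : ℝ) ^ n / (phi1 M : ℝ) else 0) =
      - ((Fintype.card F : ℝ) ^ (n - M.natDegree) *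
        ∑ s ∈ (pd M).powerset.filter (fun s => r < ∑ P ∈ s, P.natDegree), ∏ P ∈ s, aP P a) := by
  have hq := two_le_card (F := F)
  have hq0 : (0:ℝ) < (Fintype.card F : ℝ) := by linarith
  rw [Lb_mult hM hn]
  have h1 : (if IsCoprime a M then (Fintype.card F : ℝ) ^ n / (phi1 M : ℝ) else 0) =
      (Fintype.card F : ℝ) ^ n * (if IsCoprime a M then 1 / (phi1 M : ℝ) else 0) := by
    split_ifs
    · ring
    · ring
  rw [h1, main_class hM]
  have h2 : (SF F r).filter (fun s => s ⊆ pd M) =
      (pd M).powerset.filter (fun s => ¬ r < ∑ P ∈ s, P.natDegree) := by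
    ext s
    rw [mem_filter, mem_filter, mem_SF, mem_powerset]
    constructor
    · rintro ⟨⟨h3, h4⟩, h5⟩
      exact ⟨h5, by omega⟩
    · rintro ⟨h3, h4⟩
      exact ⟨⟨fun P hP => pd_pr hM P (h3 hP), by omega⟩, h3⟩
  rw [h2, ← sum_filter_add_sum_filter_not (pd M).powerset (fun s => r < ∑ P ∈ s, P.natDegree)]
  have h3 : (Fintype.card F : ℝ) ^ n * (1 / (Fintype.card F : ℝ) ^ M.natDegree) =
      (Fintype.card F : ℝ) ^ (n - M.natDegree) := by
    rw [mul_one_div, div_eq_iff (by positivity), ← pow_add]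
    congr 1; omega
  rw [← mul_assoc, h3]
  ring

end Pool.Agent.H523.CM
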