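import Pool.Agent.H523.CM21

set_option autoImplicit false
set_option linter.unusedSectionVars false

/-! # Level of distribution with fixed coefficients, for almost all residues -/

namespace Pool.Agent.H523.CM

open Polynomial Finset
open Pool.Agent.H341R2.Sharp (Mon mem_Mon)
open Pool.Agent.H523.FF (Ir mem_Ir PL mem_PL card_PL two_le_card IrLE mem_IrLE irr_coprime PL_mod)

open scoped Classical ComplexConjugate

variable {F : Type} [Field F] [Fintype F]

/-- the mean square of a combination of Ramanujan sums -/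
theorem weighted_sq {𝒮 : Finset (Finset F[X])} (h𝒮 : ∀ s ∈ 𝒮, ∀ P ∈ s, P.Monic ∧ Irreducible P) {m : ℕ}
    (hm : ∀ s ∈ 𝒮, ∀ t ∈ 𝒮, ∑ P ∈ s ∪ t, P.natDegree ≤ m) (γ : Finset F[X] → ℂ) (f : F[X]) :
    ∑ g ∈ PL F m, ‖∑ s ∈ 𝒮, γ s * ((∏ P ∈ s, aP P (f + g) : ℝ) : ℂ)‖ ^ 2 =
      (Fintype.card F : ℝ) ^ m * ∑ s ∈ 𝒮, ‖γ s‖ ^ 2 * ∏ P ∈ s, gP P := by
  have hC : ((∑ g ∈ PL F m, ‖∑ s ∈ 𝒮, γ s * ((∏ P ∈ s, aP P (f + g) : ℝ) : ℂ)‖ ^ 2 : ℝ) : ℂ) =
      (((Fintype.card F : ℝ) ^ m * ∑ s ∈ 𝒮, ‖γ s‖ ^ 2 * ∏ P ∈ s, gP P : ℝ) : ℂ) := by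
    rw [Complex.ofReal_sum]
    have h1 : ∀ g : F[X], ((‖∑ s ∈ 𝒮, γ s * ((∏ P ∈ s, aP P (f + g) : ℝ) : ℂ)‖ ^ 2 : ℝ) : ℂ) =
        ∑ s ∈ 𝒮, ∑ t ∈ 𝒮, (γ s * conj (γ t)) *
          (((∏ P ∈ s, aP P (f + g)) * (∏ P ∈ t, aP P (f + g)) : ℝ) : ℂ) := by
      intro g
      rw [Complex.ofReal_pow, ← Complex.mul_conj', map_sum, sum_mul_sum]
      refine sum_congr rfl (fun s _ => sum_congr rfl (fun t _ => ?_))
      rw [map_mul, Complex.conj_ofReal]
      push_cast
      ring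
    rw [sum_congr rfl (fun g _ => h1 g), sum_comm, Complex.ofReal_mul, Complex.ofReal_sum, mul_sum]
    refine sum_congr rfl (fun s hs => ?_)
    rw [sum_comm]
    have h2 : ∀ t ∈ 𝒮, ∑ g ∈ PL F m, (γ s * conj (γ t)) *
          (((∏ P ∈ s, aP P (f + g)) * (∏ P ∈ t, aP P (f + g)) : ℝ) : ℂ) =
        if s = t then (γ s * conj (γ t)) * (((Fintype.card F : ℝ) ^ m * ∏ P ∈ s, gP P : ℝ) : ℂ) else 0 := by
      intro t ht
      rw [← mul_sum, ← Complex.ofReal_sum, orthogonality (h𝒮 s hs) (h𝒮 t ht) (hm s hs t ht) f]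
      split_ifs
      · rfl
      · simp
    rw [sum_congr rfl h2, sum_ite_eq, if_pos hs, Complex.mul_conj']
    push_cast
    ring
  exact_mod_cast hC

theorem pow_card_le_tau {s : Finset F[X]} (hs : ∀ P ∈ s, P.Monic ∧ Irreducible P) :
    2 ^ s.card ≤ tau (∏ P ∈ s, P) := by
  rw [← card_powerset]
  unfold tau
  refine card_le_card_of_injOn (fun t => ∏ P ∈ t, P) ?_ ?_
  · intro t ht
    rw [mem_coe, mem_powerset] at ht
    rw [mem_coe, mem_div (monic_pr hs).ne_zero]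
    exact ⟨monic_pr (fun P hP => hs P (ht hP)), prod_dvd_prod_of_subset _ _ _ ht⟩
  · intro t₁ ht₁ t₂ ht₂ h
    rw [mem_coe, mem_powerset] at ht₁ ht₂
    exact pr_inj (fun P hP => hs P (ht₁ hP)) (fun P hP => hs P (ht₂ hP)) h

theorem prod_gP_le {s : Finset F[X]} (hs : ∀ P ∈ s, P.Monic ∧ Irreducible P) :
    ∏ P ∈ s, gP P ≤ (tau (∏ P ∈ s, P) : ℝ) / (Fintype.card F : ℝ) ^ (∑ P ∈ s, P.natDegree) := by
  have hq := two_le_card (F := F)
  have hq0 : (0:ℝ) < (Fintype.card F : ℝ) := by linarith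
  have h1 : ∏ P ∈ s, gP P ≤ ∏ P ∈ s, (2 / (Fintype.card F : ℝ) ^ P.natDegree) := by
    refine prod_le_prod (fun P hP => (gP_pos (hs P hP).2).le) (fun P hP => ?_)
    unfold gP
    have h2 : (Fintype.card F : ℝ) ^ 1 ≤ (Fintype.card F : ℝ) ^ P.natDegree :=
      pow_le_pow_right₀ (by linarith) (hs P hP).2.natDegree_pos
    rw [pow_one] at h2
    rw [div_le_div_iff₀ (by linarith) (by positivity)]
    linarith
  refine h1.trans ?_
  rw [prod_div_distrib, prod_const, prod_pow_eq_pow_sum]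
  apply div_le_div_of_nonneg_right _ (by positivity)
  exact_mod_cast pow_card_le_tau hs

/-- the coefficients of the Ramanujan sums -/
theorem gamma_bound {κ n y : ℕ} (hyn : y ≤ n) (c : F[X] → ℂ)
    (hc : ∀ M : F[X], M.Monic → ‖c M‖ ≤ (tau M : ℝ) ^ κ)
    {s : Finset F[X]} (hs : ∀ P ∈ s, P.Monic ∧ Irreducible P) (hsy : ∑ P ∈ s, P.natDegree ≤ y) :
    ‖∑ M ∈ (ML F y).filter (fun M => s ⊆ pd M), c M * ((Fintype.card F : ℝ) ^ (n - M.natDegree) : ℝ)‖ ≤
      (tau (∏ P ∈ s, P) : ℝ) ^ κ * (Fintype.card F : ℝ) ^ (n - ∑ P ∈ s, P.natDegree) *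
        ((n:ℝ) + 1) ^ (2 ^ κ) := by
  have hq := two_le_card (F := F)
  set q : ℝ := (Fintype.card F : ℝ) with hqd
  have hq0 : 0 < q := by linarith
  set D := ∏ P ∈ s, P with hD
  have hDm : D.Monic := monic_pr hs
  have hDd : D.natDegree = ∑ P ∈ s, P.natDegree := natDegree_pr hs
  set d := ∑ P ∈ s, P.natDegree with hd
  -- the multiples of `D`
  have hfil : (ML F y).filter (fun M => s ⊆ pd M) = (ML F y).filter (fun M => D ∣ M) := by
    apply filter_congr
    intro M hM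
    rw [mem_ML] at hM
    rw [hD, prod_dvd_iff hs]
    constructor
    · intro h P hP
      exact ((mem_pd hM.1).mp (h hP)).2.2
    · intro h P hP
      exact (mem_pd hM.1).mpr ⟨(hs P hP).1, (hs P hP).2, h P hP⟩
  rw [hfil]
  calc ‖∑ M ∈ (ML F y).filter (fun M => D ∣ M), c M * ((q ^ (n - M.natDegree) : ℝ) : ℂ)‖
      ≤ ∑ M ∈ (ML F y).filter (fun M => D ∣ M), (tau M : ℝ) ^ κ * q ^ (n - M.natDegree) := by
        refine (norm_sum_le _ _).trans (sum_le_sum (fun M hM => ?_))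
        rw [mem_filter, mem_ML] at hM
        rw [norm_mul, Complex.norm_real, Real.norm_of_nonneg (by positivity)]
        exact mul_le_mul_of_nonneg_right (hc M hM.1.1) (by positivity)
    _ = ∑ j ∈ range (y + 1), ∑ M ∈ (Mon F j).filter (fun M => D ∣ M),
          (tau M : ℝ) ^ κ * q ^ (n - j) := by
        rw [sum_filter, sum_ML]
        refine sum_congr rfl (fun j _ => ?_)
        rw [sum_filter]
        refine sum_congr rfl (fun M hM => ?_)
        rw [(mem_Mon.mp hM).2]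
    _ ≤ ∑ j ∈ range (y + 1), (tau D : ℝ) ^ κ * q ^ (n - d) * ((n:ℝ) + 1) ^ (2 ^ κ - 1) := by
        refine sum_le_sum (fun j hj => ?_)
        rw [mem_range] at hj
        by_cases hjd : d ≤ j
        · rw [sum_mult hDm (by rw [hDd]; exact hjd), hDd]
          calc ∑ g ∈ Mon F (j - d), (tau (D * g) : ℝ) ^ κ * q ^ (n - j)
              ≤ ∑ g ∈ Mon F (j - d), ((tau D : ℝ) ^ κ * (tau g : ℝ) ^ κ) * q ^ (n - j) := by
                refine sum_le_sum (fun g hg => ?_)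
                apply mul_le_mul_of_nonneg_right _ (by positivity)
                rw [← mul_pow]
                apply pow_le_pow_left₀ (Nat.cast_nonneg _)
                exact_mod_cast tau_mul_le hDm.ne_zero (mem_Mon.mp hg).1.ne_zero
            _ = (tau D : ℝ) ^ κ * q ^ (n - j) * ∑ g ∈ Mon F (j - d), (tau g : ℝ) ^ κ := by
                rw [mul_sum]
                exact sum_congr rfl (fun g _ => by ring)
            _ ≤ (tau D : ℝ) ^ κ * q ^ (n - j) *
                  ((((j - d : ℕ):ℝ) + 1) ^ (2 ^ κ - 1) * q ^ (j - d)) :=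
                mul_le_mul_of_nonneg_left (tau_moment κ (j - d)) (by positivity)
            _ ≤ (tau D : ℝ) ^ κ * q ^ (n - j) *
                  (((n:ℝ) + 1) ^ (2 ^ κ - 1) * q ^ (j - d)) := by
                apply mul_le_mul_of_nonneg_left _ (by positivity)
                apply mul_le_mul_of_nonneg_right _ (by positivity)
                apply pow_le_pow_left₀ (by positivity)
                have : ((j - d : ℕ):ℝ) ≤ n := by exact_mod_cast (by omega : j - d ≤ n)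
                linarith
            _ = _ := by
                have e : q ^ (n - d) = q ^ (n - j) * q ^ (j - d) := by
                  rw [← pow_add]; congr 1; omega
                rw [e]; ring
        · have h0 : (Mon F j).filter (fun M => D ∣ M) = ∅ := by
            rw [filter_eq_empty_iff]
            intro M hM h
            rw [mem_Mon] at hM
            have := natDegree_le_of_dvd h hM.1.ne_zero
            omega
          rw [h0, sum_empty]
          positivity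
    _ = ((y:ℝ) + 1) * ((tau D : ℝ) ^ κ * q ^ (n - d) * ((n:ℝ) + 1) ^ (2 ^ κ - 1)) := by
        rw [sum_const, card_range, nsmul_eq_mul]
        push_cast
        ring
    _ ≤ ((n:ℝ) + 1) * ((tau D : ℝ) ^ κ * q ^ (n - d) * ((n:ℝ) + 1) ^ (2 ^ κ - 1)) := by
        apply mul_le_mul_of_nonneg_right _ (by positivity)
        have : (y:ℝ) ≤ n := by exact_mod_cast hyn
        linarith
    _ = _ := by
        have e : ((n:ℝ) + 1) ^ (2 ^ κ) = ((n:ℝ) + 1) * ((n:ℝ) + 1) ^ (2 ^ κ - 1) := by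
          rw [← pow_succ']; congr 1
          have : 1 ≤ 2 ^ κ := Nat.one_le_two_pow
          omega
        rw [e]; ring

/-- the second part of the error -/
theorem E2_bound {κ n m r y : ℕ} (hr : m < 2 * (r + 1)) (hyn : y ≤ n) (c : F[X] → ℂ)
    (hc : ∀ M : F[X], M.Monic → ‖c M‖ ≤ (tau M : ℝ) ^ κ) (a : F[X]) :
    ∑ h ∈ PL F m, ‖∑ s ∈ (SF F y).filter (fun s => r < ∑ P ∈ s, P.natDegree),
        (∑ M ∈ (ML F y).filter (fun M => s ⊆ pd M), c M * ((Fintype.card F : ℝ) ^ (n - M.natDegree) : ℝ)) *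
          ((∏ P ∈ s, aP P (a + h) : ℝ) : ℂ)‖ ^ 2 ≤
      ((n:ℝ) + 1) ^ (2 ^ (2 * κ + 1) + 2 ^ (κ + 1) + 2) * (Fintype.card F : ℝ) ^ (2 * n) := by
  have hq := two_le_card (F := F)
  set q : ℝ := (Fintype.card F : ℝ) with hqd
  have hq0 : 0 < q := by linarith
  have hq1 : 1 ≤ q := by linarith
  set γ : Finset F[X] → ℂ := fun s =>
    ∑ M ∈ (ML F y).filter (fun M => s ⊆ pd M), c M * ((q ^ (n - M.natDegree) : ℝ) : ℂ) with hγ
  set 𝒯 : ℕ → Finset (Finset F[X]) := fun j => (SF F y).filter (fun s => ∑ P ∈ s, P.natDegree = j)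
    with h𝒯
  set e : ℕ := 2 ^ (2 * κ + 1) + 2 ^ (κ + 1) with he
  have hj : ∀ j ∈ (range (y + 1)).filter (fun j => r < j),
      ∑ h ∈ PL F m, ‖∑ s ∈ 𝒯 j, γ s * ((∏ P ∈ s, aP P (a + h) : ℝ) : ℂ)‖ ^ 2 ≤
        ((n:ℝ) + 1) ^ e * q ^ (2 * n) := by
    intro j hj
    rw [mem_filter, mem_range] at hj
    have hmem : ∀ s ∈ 𝒯 j, (∀ P ∈ s, P.Monic ∧ Irreducible P) ∧ ∑ P ∈ s, P.natDegree = j := by
      intro s hs
      rw [h𝒯, mem_filter, mem_SF] at hs
      exact ⟨hs.1.1, hs.2⟩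
    have hsub : PL F m ⊆ PL F (2 * j) := by
      intro h hh
      rw [mem_PL] at hh ⊢
      exact lt_of_lt_of_le hh (by exact_mod_cast (by omega : m ≤ 2 * j))
    calc ∑ h ∈ PL F m, ‖∑ s ∈ 𝒯 j, γ s * ((∏ P ∈ s, aP P (a + h) : ℝ) : ℂ)‖ ^ 2
        ≤ ∑ h ∈ PL F (2 * j), ‖∑ s ∈ 𝒯 j, γ s * ((∏ P ∈ s, aP P (a + h) : ℝ) : ℂ)‖ ^ 2 :=
          sum_le_sum_of_subset_of_nonneg hsub (fun _ _ _ => by positivity)
      _ = q ^ (2 * j) * ∑ s ∈ 𝒯 j, ‖γ s‖ ^ 2 * ∏ P ∈ s, gP P := by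
          apply weighted_sq (fun s hs => (hmem s hs).1)
          intro s hs t ht
          have h3 := (hmem s hs).2
          have h4 := (hmem t ht).2
          have h5 := sum_union_inter (s₁ := s) (s₂ := t) (f := fun P : F[X] => P.natDegree)
          omega
      _ ≤ q ^ (2 * j) * ∑ s ∈ 𝒯 j, (q ^ (2 * (n - j)) / q ^ j * ((n:ℝ) + 1) ^ (2 ^ (κ + 1))) *
            (tau (∏ P ∈ s, P) : ℝ) ^ (2 * κ + 1) := by
          apply mul_le_mul_of_nonneg_left _ (by positivity)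
          refine sum_le_sum (fun s hs => ?_)
          obtain ⟨h1, h2⟩ := hmem s hs
          have h3 := gamma_bound hyn c hc h1 (by omega)
          rw [h2, ← hqd] at h3
          have h4 := prod_gP_le h1
          rw [h2, ← hqd] at h4
          have h5 : ‖γ s‖ ^ 2 ≤ ((tau (∏ P ∈ s, P) : ℝ) ^ κ * q ^ (n - j) * ((n:ℝ) + 1) ^ (2 ^ κ)) ^ 2 :=
            pow_le_pow_left₀ (norm_nonneg _) h3 2
          calc ‖γ s‖ ^ 2 * ∏ P ∈ s, gP P
              ≤ ((tau (∏ P ∈ s, P) : ℝ) ^ κ * q ^ (n - j) * ((n:ℝ) + 1) ^ (2 ^ κ)) ^ 2 *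
                  ((tau (∏ P ∈ s, P) : ℝ) / q ^ j) := by
                apply mul_le_mul h5 h4 _ (by positivity)
                exact prod_nonneg (fun P hP => (gP_pos (h1 P hP).2).le)
            _ = _ := by
                have e1 : ((n:ℝ) + 1) ^ (2 ^ (κ + 1)) = (((n:ℝ) + 1) ^ (2 ^ κ)) ^ 2 := by
                  rw [← pow_mul, pow_succ]
                have e2 : q ^ (2 * (n - j)) = (q ^ (n - j)) ^ 2 := by
                  rw [← pow_mul, mul_comm]
                rw [e1, e2, pow_add, pow_one, mul_comm 2 κ, pow_mul]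
                ring
      _ = q ^ (2 * j) * (q ^ (2 * (n - j)) / q ^ j * ((n:ℝ) + 1) ^ (2 ^ (κ + 1))) *
            ∑ s ∈ 𝒯 j, (tau (∏ P ∈ s, P) : ℝ) ^ (2 * κ + 1) := by
          rw [← mul_sum]; ring
      _ ≤ q ^ (2 * j) * (q ^ (2 * (n - j)) / q ^ j * ((n:ℝ) + 1) ^ (2 ^ (κ + 1))) *
            (((j:ℝ) + 1) ^ (2 ^ (2 * κ + 1) - 1) * q ^ j) := by
          apply mul_le_mul_of_nonneg_left _ (by positivity)
          refine le_trans ?_ (tau_moment (F := F) (2 * κ + 1) j)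
          have hinj : Set.InjOn (fun s : Finset F[X] => ∏ P ∈ s, P) (𝒯 j) := by
            intro s hs t ht h
            exact pr_inj (hmem s hs).1 (hmem t ht).1 h
          rw [← sum_image (f := fun D : F[X] => (tau D : ℝ) ^ (2 * κ + 1)) hinj]
          apply sum_le_sum_of_subset_of_nonneg
          · intro D hD
            rw [mem_image] at hD
            obtain ⟨s, hs, rfl⟩ := hD
            rw [mem_Mon]
            exact ⟨monic_pr (hmem s hs).1, by rw [natDegree_pr (hmem s hs).1, (hmem s hs).2]⟩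
          · intro _ _ _
            positivity
      _ ≤ q ^ (2 * j) * (q ^ (2 * (n - j)) / q ^ j * ((n:ℝ) + 1) ^ (2 ^ (κ + 1))) *
            (((n:ℝ) + 1) ^ (2 ^ (2 * κ + 1)) * q ^ j) := by
          apply mul_le_mul_of_nonneg_left _ (by positivity)
          apply mul_le_mul_of_nonneg_right _ (by positivity)
          have hjn : (j:ℝ) ≤ n := by exact_mod_cast (by omega : j ≤ n)
          calc ((j:ℝ) + 1) ^ (2 ^ (2 * κ + 1) - 1) ≤ ((n:ℝ) + 1) ^ (2 ^ (2 * κ + 1) - 1) :=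
                pow_le_pow_left₀ (by positivity) (by linarith) _
            _ ≤ ((n:ℝ) + 1) ^ (2 ^ (2 * κ + 1)) :=
                pow_le_pow_right₀ (by have : (0:ℝ) ≤ n := Nat.cast_nonneg n; linarith)
                  (Nat.sub_le _ _)
      _ = _ := by
          have e1 : q ^ (2 * n) = q ^ (2 * j) * q ^ (2 * (n - j)) := by
            rw [← pow_add]; congr 1; omega
          have e2 : ((n:ℝ) + 1) ^ e = ((n:ℝ) + 1) ^ (2 ^ (2 * κ + 1)) * ((n:ℝ) + 1) ^ (2 ^ (κ + 1)) := by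
            rw [he, pow_add]
          rw [e1, e2]
          generalize ((n:ℝ) + 1) ^ (2 ^ (2 * κ + 1)) = A
          generalize ((n:ℝ) + 1) ^ (2 ^ (κ + 1)) = B
          have hqj : q ^ j ≠ 0 := by positivity
          field_simp
  -- the sum over the degrees
  have hsplit : ∀ x : F[X], ∑ s ∈ (SF F y).filter (fun s => r < ∑ P ∈ s, P.natDegree),
        γ s * ((∏ P ∈ s, aP P x : ℝ) : ℂ) = ∑ j ∈ (range (y + 1)).filter (fun j => r < j),
          ∑ s ∈ 𝒯 j, γ s * ((∏ P ∈ s, aP P x : ℝ) : ℂ) := by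
    intro x
    rw [← sum_fiberwise_of_maps_to (s := (SF F y).filter (fun s => r < ∑ P ∈ s, P.natDegree))
      (t := (range (y + 1)).filter (fun j => r < j)) (g := fun s => ∑ P ∈ s, P.natDegree)
      (fun s hs => by
        rw [mem_filter, mem_SF] at hs
        rw [mem_filter, mem_range]
        exact ⟨by omega, hs.2⟩)]
    refine sum_congr rfl (fun j hj => ?_)
    rw [mem_filter] at hj
    have e1 : ((SF F y).filter (fun s => r < ∑ P ∈ s, P.natDegree)).filter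
        (fun s => ∑ P ∈ s, P.natDegree = j) = 𝒯 j := by
      rw [h𝒯]
      ext s
      simp only [mem_filter]
      constructor
      · rintro ⟨⟨h1, _⟩, h3⟩
        exact ⟨h1, h3⟩
      · rintro ⟨h1, h3⟩
        exact ⟨⟨h1, by rw [h3]; exact hj.2⟩, h3⟩
    rw [e1]
  have hcard : ((((range (y + 1)).filter (fun j => r < j)).card : ℕ) : ℝ) ≤ (n:ℝ) + 1 := by
    have h1 : ((range (y + 1)).filter (fun j => r < j)).card ≤ n + 1 :=
      (card_filter_le _ _).trans (by rw [card_range]; omega)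
    exact_mod_cast h1
  calc ∑ h ∈ PL F m, ‖∑ s ∈ (SF F y).filter (fun s => r < ∑ P ∈ s, P.natDegree),
        γ s * ((∏ P ∈ s, aP P (a + h) : ℝ) : ℂ)‖ ^ 2
      ≤ ∑ h ∈ PL F m, ((n:ℝ) + 1) * ∑ j ∈ (range (y + 1)).filter (fun j => r < j),
          ‖∑ s ∈ 𝒯 j, γ s * ((∏ P ∈ s, aP P (a + h) : ℝ) : ℂ)‖ ^ 2 := by
        refine sum_le_sum (fun h _ => ?_)
        rw [hsplit]
        refine (pow_le_pow_left₀ (norm_nonneg _) (norm_sum_le _ _) 2).trans ?_
        refine sq_sum_le_card_mul_sum_sq.trans ?_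
        exact mul_le_mul_of_nonneg_right hcard (sum_nonneg (fun _ _ => by positivity))
    _ = ((n:ℝ) + 1) * ∑ j ∈ (range (y + 1)).filter (fun j => r < j), ∑ h ∈ PL F m,
          ‖∑ s ∈ 𝒯 j, γ s * ((∏ P ∈ s, aP P (a + h) : ℝ) : ℂ)‖ ^ 2 := by
        rw [← mul_sum, sum_comm]
    _ ≤ ((n:ℝ) + 1) * ∑ _j ∈ (range (y + 1)).filter (fun j => r < j),
          ((n:ℝ) + 1) ^ e * q ^ (2 * n) :=
        mul_le_mul_of_nonneg_left (sum_le_sum hj) (by positivity)
    _ ≤ ((n:ℝ) + 1) * (((n:ℝ) + 1) * (((n:ℝ) + 1) ^ e * q ^ (2 * n))) := by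
        apply mul_le_mul_of_nonneg_left _ (by positivity)
        rw [sum_const, nsmul_eq_mul]
        exact mul_le_mul_of_nonneg_right hcard (by positivity)
    _ = _ := by rw [pow_add _ e 2]; ring

end Pool.Agent.H523.CM
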