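import Pool.Agent.H523.CM7

set_option autoImplicit false
set_option linter.unusedSectionVars false

/-! # The prime tuples against arbitrary weights: the transfer theorem -/

namespace Pool.Agent.H523.CM

open Polynomial Finset
open Pool.Agent.H341R2.Sharp (Mon mem_Mon)
open Pool.Agent.H523.FF (Ir mem_Ir PL mem_PL card_PL two_le_card IrLE mem_IrLE irr_coprime PL_mod Ir_card)

open scoped Classical

variable {F : Type} [Field F] [Fintype F]

theorem prod_sum_fin {R : Type} [CommSemiring R] {G : Type} [Fintype G] (k : ℕ) (φ : Fin k → G → R) :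
    ∏ i : Fin k, ∑ g : G, φ i g = ∑ c : Fin k → G, ∏ i : Fin k, φ i (c i) := by
  rw [prod_univ_sum, Fintype.piFinset_univ]

/-- telescoping with different centres -/
theorem telescope' {G A : Type} [AddCommGroup G] [Fintype G] [AddCommGroup A] (ι : G →+ A)
    (S : Finset A) (X Y : A → ℝ) (V B : ℝ) (hV0 : 0 ≤ V) (hB0 : 0 ≤ B) (k : ℕ) (a : Fin k → A)
    (hdisp : ∀ (i : Fin k) (w : A → ℂ), ∑ g, ‖∑ f ∈ S, w f *
      ((X (f + a i + ι g) - Y (f + a i + ι g) : ℝ) : ℂ)‖ ^ 2 ≤ V * ∑ f ∈ S, ‖w f‖ ^ 2)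
    (hX : ∀ (i : Fin k), ∀ f ∈ S, ∑ g, X (f + a i + ι g) ^ 2 ≤ B)
    (hY : ∀ (i : Fin k), ∀ f ∈ S, ∑ g, Y (f + a i + ι g) ^ 2 ≤ B)
    (b : A → ℂ) :
    ∑ c : Fin k → G, ‖∑ f ∈ S, b f *
        ((∏ i, X (f + a i + ι (c i)) - ∏ i, Y (f + a i + ι (c i)) : ℝ) : ℂ)‖ ^ 2 ≤
      (2 ^ (k + 1) - 2) * (V * B ^ (k - 1)) * ∑ f ∈ S, ‖b f‖ ^ 2 := by
  induction k generalizing b with
  | zero => simp
  | succ k ih =>
    have hsplit : ∑ c : Fin (k + 1) → G,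
        ‖∑ f ∈ S, b f * ((∏ i, X (f + a i + ι (c i)) - ∏ i, Y (f + a i + ι (c i)) : ℝ) : ℂ)‖ ^ 2 =
        ∑ g : G, ∑ c : Fin k → G, ‖∑ f ∈ S, b f *
          ((X (f + a 0 + ι g) * ∏ i : Fin k, X (f + a i.succ + ι (c i)) -
          Y (f + a 0 + ι g) * ∏ i : Fin k, Y (f + a i.succ + ι (c i)) : ℝ) : ℂ)‖ ^ 2 := by
      rw [← (Fin.consEquiv (fun _ : Fin (k + 1) => G)).sum_comp, Fintype.sum_prod_type]
      refine sum_congr rfl (fun g _ => sum_congr rfl (fun c _ => ?_))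
      simp only [Fin.consEquiv_apply, Fin.prod_univ_succ, Fin.cons_zero, Fin.cons_succ]
    rw [hsplit]
    have hpt : ∀ (g : G) (c : Fin k → G), ‖∑ f ∈ S, b f *
          ((X (f + a 0 + ι g) * ∏ i : Fin k, X (f + a i.succ + ι (c i)) -
          Y (f + a 0 + ι g) * ∏ i : Fin k, Y (f + a i.succ + ι (c i)) : ℝ) : ℂ)‖ ^ 2 ≤
        2 * ‖∑ f ∈ S, (b f * (X (f + a 0 + ι g) : ℂ)) *
          ((∏ i : Fin k, X (f + a i.succ + ι (c i)) -
            ∏ i : Fin k, Y (f + a i.succ + ι (c i)) : ℝ) : ℂ)‖ ^ 2 +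
        2 * ‖∑ f ∈ S, (b f * ((∏ i : Fin k, Y (f + a i.succ + ι (c i)) : ℝ) : ℂ)) *
          ((X (f + a 0 + ι g) - Y (f + a 0 + ι g) : ℝ) : ℂ)‖ ^ 2 := by
      intro g c
      have e : ∑ f ∈ S, b f * ((X (f + a 0 + ι g) * ∏ i : Fin k, X (f + a i.succ + ι (c i)) -
          Y (f + a 0 + ι g) * ∏ i : Fin k, Y (f + a i.succ + ι (c i)) : ℝ) : ℂ) =
          ∑ f ∈ S, (b f * (X (f + a 0 + ι g) : ℂ)) *
          ((∏ i : Fin k, X (f + a i.succ + ι (c i)) -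
            ∏ i : Fin k, Y (f + a i.succ + ι (c i)) : ℝ) : ℂ) +
          ∑ f ∈ S, (b f * ((∏ i : Fin k, Y (f + a i.succ + ι (c i)) : ℝ) : ℂ)) *
          ((X (f + a 0 + ι g) - Y (f + a 0 + ι g) : ℝ) : ℂ) := by
        rw [← sum_add_distrib]
        refine sum_congr rfl (fun f _ => ?_)
        push_cast
        ring
      rw [e]
      have h1 := norm_add_le (∑ f ∈ S, (b f * (X (f + a 0 + ι g) : ℂ)) *
          ((∏ i : Fin k, X (f + a i.succ + ι (c i)) -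
            ∏ i : Fin k, Y (f + a i.succ + ι (c i)) : ℝ) : ℂ))
          (∑ f ∈ S, (b f * ((∏ i : Fin k, Y (f + a i.succ + ι (c i)) : ℝ) : ℂ)) *
          ((X (f + a 0 + ι g) - Y (f + a 0 + ι g) : ℝ) : ℂ))
      refine (pow_le_pow_left₀ (norm_nonneg _) h1 2).trans ?_
      nlinarith [sq_nonneg (‖∑ f ∈ S, (b f * (X (f + a 0 + ι g) : ℂ)) *
          ((∏ i : Fin k, X (f + a i.succ + ι (c i)) -
            ∏ i : Fin k, Y (f + a i.succ + ι (c i)) : ℝ) : ℂ)‖ -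
          ‖∑ f ∈ S, (b f * ((∏ i : Fin k, Y (f + a i.succ + ι (c i)) : ℝ) : ℂ)) *
          ((X (f + a 0 + ι g) - Y (f + a 0 + ι g) : ℝ) : ℂ)‖)]
    have hb0 : 0 ≤ ∑ f ∈ S, ‖b f‖ ^ 2 := sum_nonneg (fun f _ => by positivity)
    have hk0 : (0:ℝ) ≤ 2 ^ (k + 1) - 2 := by
      have : (2:ℝ) ^ 1 ≤ 2 ^ (k + 1) := pow_le_pow_right₀ (by norm_num) (by omega)
      linarith
    have h1 : ∑ g : G, ∑ c : Fin k → G, ‖∑ f ∈ S, (b f * (X (f + a 0 + ι g) : ℂ)) *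
          ((∏ i : Fin k, X (f + a i.succ + ι (c i)) -
            ∏ i : Fin k, Y (f + a i.succ + ι (c i)) : ℝ) : ℂ)‖ ^ 2 ≤
        (2 ^ (k + 1) - 2) * (V * B ^ k) * ∑ f ∈ S, ‖b f‖ ^ 2 := by
      calc ∑ g : G, ∑ c : Fin k → G, ‖∑ f ∈ S, (b f * (X (f + a 0 + ι g) : ℂ)) *
          ((∏ i : Fin k, X (f + a i.succ + ι (c i)) -
            ∏ i : Fin k, Y (f + a i.succ + ι (c i)) : ℝ) : ℂ)‖ ^ 2
          ≤ ∑ g : G, (2 ^ (k + 1) - 2) * (V * B ^ (k - 1)) *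
              ∑ f ∈ S, ‖b f * (X (f + a 0 + ι g) : ℂ)‖ ^ 2 :=
            sum_le_sum (fun g _ => ih (fun i => a i.succ) (fun i w => hdisp i.succ w)
              (fun i f hf => hX i.succ f hf) (fun i f hf => hY i.succ f hf)
              (fun f => b f * (X (f + a 0 + ι g) : ℂ)))
        _ = (2 ^ (k + 1) - 2) * (V * B ^ (k - 1)) *
              ∑ f ∈ S, ‖b f‖ ^ 2 * ∑ g : G, X (f + a 0 + ι g) ^ 2 := by
            rw [← mul_sum, sum_comm]
            congr 1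
            refine sum_congr rfl (fun f _ => ?_)
            rw [mul_sum]
            refine sum_congr rfl (fun g _ => ?_)
            rw [norm_mul, mul_pow, Complex.norm_real, Real.norm_eq_abs, sq_abs]
        _ ≤ (2 ^ (k + 1) - 2) * (V * B ^ (k - 1)) * ∑ f ∈ S, ‖b f‖ ^ 2 * B := by
            apply mul_le_mul_of_nonneg_left _ (mul_nonneg hk0 (by positivity))
            exact sum_le_sum (fun f hf => mul_le_mul_of_nonneg_left (hX 0 f hf) (by positivity))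
        _ = (2 ^ (k + 1) - 2) * (V * B ^ k) * ∑ f ∈ S, ‖b f‖ ^ 2 := by
            rw [← sum_mul]
            rcases Nat.eq_zero_or_pos k with hk | hk
            · subst hk; simp
            · have : B ^ k = B ^ (k - 1) * B := by
                rw [← pow_succ, Nat.sub_add_cancel hk]
              rw [this]
              ring
    have h2 : ∑ g : G, ∑ c : Fin k → G, ‖∑ f ∈ S, (b f *
          ((∏ i : Fin k, Y (f + a i.succ + ι (c i)) : ℝ) : ℂ)) *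
          ((X (f + a 0 + ι g) - Y (f + a 0 + ι g) : ℝ) : ℂ)‖ ^ 2 ≤
          V * B ^ k * ∑ f ∈ S, ‖b f‖ ^ 2 := by
      rw [sum_comm]
      have hprod : ∀ f ∈ S, ∑ c : Fin k → G, ∏ i : Fin k, Y (f + a i.succ + ι (c i)) ^ 2 ≤ B ^ k := by
        intro f hf
        have e := prod_sum_fin k (fun i g => Y (f + a i.succ + ι g) ^ 2)
        rw [← e]
        calc ∏ i : Fin k, ∑ g : G, Y (f + a i.succ + ι g) ^ 2 ≤ ∏ _i : Fin k, B :=
              prod_le_prod (fun i _ => sum_nonneg (fun g _ => by positivity))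
                (fun i _ => hY i.succ f hf)
          _ = B ^ k := by simp
      calc ∑ c : Fin k → G, ∑ g : G, ‖∑ f ∈ S, (b f *
          ((∏ i : Fin k, Y (f + a i.succ + ι (c i)) : ℝ) : ℂ)) *
          ((X (f + a 0 + ι g) - Y (f + a 0 + ι g) : ℝ) : ℂ)‖ ^ 2
          ≤ ∑ c : Fin k → G, V * ∑ f ∈ S,
              ‖b f * ((∏ i : Fin k, Y (f + a i.succ + ι (c i)) : ℝ) : ℂ)‖ ^ 2 :=
            sum_le_sum (fun c _ => hdisp 0
              (fun f => b f * ((∏ i : Fin k, Y (f + a i.succ + ι (c i)) : ℝ) : ℂ)))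
        _ = V * ∑ f ∈ S, ‖b f‖ ^ 2 *
              ∑ c : Fin k → G, ∏ i : Fin k, Y (f + a i.succ + ι (c i)) ^ 2 := by
            rw [← mul_sum, sum_comm]
            congr 1
            refine sum_congr rfl (fun f _ => ?_)
            rw [mul_sum]
            refine sum_congr rfl (fun c _ => ?_)
            rw [norm_mul, mul_pow, Complex.norm_real, Real.norm_eq_abs, sq_abs, prod_pow]
        _ ≤ V * ∑ f ∈ S, ‖b f‖ ^ 2 * B ^ k := by
            apply mul_le_mul_of_nonneg_left _ hV0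
            exact sum_le_sum (fun f hf => mul_le_mul_of_nonneg_left (hprod f hf) (by positivity))
        _ = V * B ^ k * ∑ f ∈ S, ‖b f‖ ^ 2 := by rw [← sum_mul]; ring
    calc ∑ g : G, ∑ c : Fin k → G, ‖∑ f ∈ S, b f *
          ((X (f + a 0 + ι g) * ∏ i : Fin k, X (f + a i.succ + ι (c i)) -
          Y (f + a 0 + ι g) * ∏ i : Fin k, Y (f + a i.succ + ι (c i)) : ℝ) : ℂ)‖ ^ 2
        ≤ ∑ g : G, ∑ c : Fin k → G, (2 * ‖∑ f ∈ S, (b f * (X (f + a 0 + ι g) : ℂ)) *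
          ((∏ i : Fin k, X (f + a i.succ + ι (c i)) -
            ∏ i : Fin k, Y (f + a i.succ + ι (c i)) : ℝ) : ℂ)‖ ^ 2 +
        2 * ‖∑ f ∈ S, (b f * ((∏ i : Fin k, Y (f + a i.succ + ι (c i)) : ℝ) : ℂ)) *
          ((X (f + a 0 + ι g) - Y (f + a 0 + ι g) : ℝ) : ℂ)‖ ^ 2) :=
          sum_le_sum (fun g _ => sum_le_sum (fun c _ => hpt g c))
      _ ≤ 2 * ((2 ^ (k + 1) - 2) * (V * B ^ k) * ∑ f ∈ S, ‖b f‖ ^ 2) +
          2 * (V * B ^ k * ∑ f ∈ S, ‖b f‖ ^ 2) := by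
          simp only [sum_add_distrib, ← mul_sum]
          linarith
      _ = _ := by
          rw [Nat.add_sub_cancel]
          ring

/-- the dispersion inequality around other centres -/
theorem disp_centre {n m : ℕ} {E : F[X] → ℝ} {V : ℝ}
    (h : ∀ w : F[X] → ℂ, ∑ c, ‖∑ f ∈ Mon F n, w f * (E (f + inc m c) : ℂ)‖ ^ 2 ≤
      V * ∑ f ∈ Mon F n, ‖w f‖ ^ 2) {a : F[X]} (ha : a.degree < n) (w : F[X] → ℂ) :
    ∑ c, ‖∑ f ∈ Mon F n, w f * (E (f + a + inc m c) : ℂ)‖ ^ 2 ≤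
      V * ∑ f ∈ Mon F n, ‖w f‖ ^ 2 := by
  have h1 := h (fun f => w (f - a))
  have h2 : ∑ f ∈ Mon F n, ‖w (f - a)‖ ^ 2 = ∑ f ∈ Mon F n, ‖w f‖ ^ 2 := by
    rw [← sum_Mon_shift ha (fun f => ‖w (f - a)‖ ^ 2)]
    simp
  have h3 : ∀ c : Fin m → F, ∑ f ∈ Mon F n, w (f - a) * (E (f + inc m c) : ℂ) =
      ∑ f ∈ Mon F n, w f * (E (f + a + inc m c) : ℂ) := by
    intro c
    rw [← sum_Mon_shift ha (fun f => w (f - a) * (E (f + inc m c) : ℂ))]
    simp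
  simp only [h3] at h1
  rw [h2] at h1
  exact h1

theorem sq_le_of_abs {x y : ℝ} (h0 : 0 ≤ x) (h : x ≤ y) : x ^ 2 ≤ y ^ 2 :=
  pow_le_pow_left₀ h0 h 2

/-- **Prime tuples against arbitrary weights**: for almost all tuples of shifts the primes may be
replaced by the polynomials without prime factors of degree at most `z`. -/
theorem transfer {k n m r z : ℕ} (hrm : 2 * r ≤ m) (hmn : m ≤ n) (hrn : r < n) (hz : 0 < z)
    (hzr : z ≤ r) (hW : ∑ P ∈ IrLE F z, P.natDegree ≤ n) (a : Fin k → F[X])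
    (ha : ∀ i, (a i).degree < n) (b : F[X] → ℂ) (hb : ∀ f, ‖b f‖ ≤ 1) :
    ∑ c : Fin k → (Fin m → F), ‖∑ f ∈ Mon F n, b f *
        ((∏ i, th n (f + a i + inc m (c i)) - ∏ i, Lz z (f + a i + inc m (c i)) : ℝ) : ℂ)‖ ^ 2 ≤
      2 ^ (k + 2) * ((Fintype.card F : ℝ) ^ n) ^ 2 * ((Fintype.card F : ℝ) ^ m) ^ k *
        ((n + 5) ^ (2 * k) / (Fintype.card F : ℝ) ^ r +
          (2 * (1 / (Fintype.card F : ℝ) ^ z) ^ 2 +
            2 * ((1 / 2 : ℝ) ^ (r / z) * (Real.exp 3 * z) ^ 2)) *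
            (Real.exp 3 * r) ^ (2 * (k - 1))) := by
  have hq := two_le_card (F := F)
  set q : ℝ := (Fintype.card F : ℝ) with hqd
  have hq0 : 0 < q := by linarith
  have hr1 : 0 < r := by omega
  have hrr : (1:ℝ) ≤ r := by exact_mod_cast hr1
  have hrn2 : 2 * (r:ℝ) ≤ n := by exact_mod_cast hrm.trans hmn
  have hzrr : (z:ℝ) ≤ r := by exact_mod_cast hzr
  have hzr1 : (1:ℝ) ≤ z := by exact_mod_cast hz
  have hcard : (Fintype.card (Fin m → F) : ℝ) = q ^ m := by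
    rw [Fintype.card_fun, Fintype.card_fin, hqd]; push_cast; rfl
  have he3 : Real.exp 3 < 20.1 := by
    have h1 := Real.exp_one_lt_d9
    have h2 : Real.exp 3 = Real.exp 1 ^ 3 := by rw [← Real.exp_nat_mul]; norm_num
    rw [h2]
    calc Real.exp 1 ^ 3 < 2.7182818286 ^ 3 := pow_lt_pow_left₀ h1 (Real.exp_pos 1).le (by norm_num)
      _ < 20.1 := by norm_num
  have he31 : 1 ≤ Real.exp 3 := Real.one_le_exp (by norm_num)
  set δ : ℝ := 2 * (1 / q ^ z) ^ 2 + 2 * ((1 / 2 : ℝ) ^ (r / z) * (Real.exp 3 * z) ^ 2) with hδ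
  have hδ0 : 0 ≤ δ := by positivity
  rcases Nat.eq_zero_or_pos k with hk | hk
  · subst hk
    have h0 : ∑ c : Fin 0 → (Fin m → F), ‖∑ f ∈ Mon F n, b f *
        ((∏ i, th n (f + a i + inc m (c i)) - ∏ i, Lz z (f + a i + inc m (c i)) : ℝ) : ℂ)‖ ^ 2 = 0 := by
      simp
    rw [h0]
    positivity
  -- the two dispersion inequalities
  have hS : ∀ (c : Fin m → F) (f : F[X]), f + inc m c ∈ Mon F n ↔ f ∈ Mon F n := fun c f =>
    Mon_shift hmn _ _ (mem_PL.mp (inc_mem c))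
  have hd1 : ∀ (i : Fin k) (w : F[X] → ℂ), ∑ c, ‖∑ f ∈ Mon F n, w f *
      ((th n (f + a i + inc m c) - Lb r (f + a i + inc m c) : ℝ) : ℂ)‖ ^ 2 ≤
      ((n : ℝ) + 5) ^ 2 * q ^ (n + m - r) * ∑ f ∈ Mon F n, ‖w f‖ ^ 2 := by
    intro i w
    exact disp_centre (E := fun x => th n x - Lb r x) (fun w => dispersion (inc (F := F) m) (Mon F n)
      hS w (fun x => ((th n x - Lb r x : ℝ) : ℂ)) _ (fun ψ => V_bound hrm hmn hrn ψ)) (ha i) w
  have hd2 : ∀ (i : Fin k) (w : F[X] → ℂ), ∑ c, ‖∑ f ∈ Mon F n, w f *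
      ((Lb r (f + a i + inc m c) - Lz z (f + a i + inc m c) : ℝ) : ℂ)‖ ^ 2 ≤
      (q ^ (n + m) * δ) * ∑ f ∈ Mon F n, ‖w f‖ ^ 2 := by
    intro i w
    exact disp_centre (E := fun x => Lb r x - Lz z x) (fun w => dispersion (inc (F := F) m) (Mon F n)
      hS w (fun x => ((Lb r x - Lz z x : ℝ) : ℂ)) _
      (fun ψ => V_models hrm hmn hz hzr hW ψ)) (ha i) w
  -- local mean squares
  have hth : ∀ f : F[X], ∑ c, th n (f + inc m c) ^ 2 ≤ q ^ m * ((n:ℝ) + 5) ^ 2 := by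
    intro f
    calc ∑ c, th n (f + inc m c) ^ 2 ≤ ∑ _c : Fin m → F, ((n:ℝ) + 5) ^ 2 := by
          refine sum_le_sum (fun c _ => ?_)
          unfold th
          split_ifs
          · exact sq_le_of_abs (Nat.cast_nonneg _) (by linarith)
          · exact sq_le_of_abs le_rfl (by positivity)
      _ = q ^ m * ((n:ℝ) + 5) ^ 2 := by
          rw [sum_const, card_univ, nsmul_eq_mul, hcard]
  have hLb : ∀ f : F[X], ∑ c, Lb r (f + inc m c) ^ 2 ≤ q ^ m * (Real.exp 3 * r) := by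
    intro f
    rw [sum_inc m (fun h => Lb r (f + h) ^ 2)]
    have h1 := LS_sq (𝒮 := SF F r) (m := m) (fun s hs => (mem_SF.mp hs).1) (fun s hs t ht => by
      have h2 := (mem_SF.mp hs).2
      have h3 := (mem_SF.mp ht).2
      have h4 := sum_union_inter (s₁ := s) (s₂ := t) (f := fun P : F[X] => P.natDegree)
      omega) f
    calc ∑ h ∈ PL F m, Lb r (f + h) ^ 2 = q ^ m * ∑ s ∈ SF F r, ∏ P ∈ s, gP P := h1
      _ ≤ q ^ m * (Real.exp 3 * r) := by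
          apply mul_le_mul_of_nonneg_left _ (by positivity)
          exact sum_gP_le hr1 (filter_subset _ _)
  have hLz : ∀ f : F[X], ∑ c, Lz z (f + inc m c) ^ 2 ≤ q ^ m * (Real.exp 3 * r) ^ 2 := by
    intro f
    calc ∑ c, Lz z (f + inc m c) ^ 2 ≤ ∑ _c : Fin m → F, (Real.exp 3 * r) ^ 2 := by
          refine sum_le_sum (fun c _ => ?_)
          have h1 := Lz_bounds hz (f + inc m c)
          refine sq_le_of_abs h1.1 (h1.2.trans ?_)
          exact mul_le_mul_of_nonneg_left hzrr (by positivity)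
      _ = q ^ m * (Real.exp 3 * r) ^ 2 := by
          rw [sum_const, card_univ, nsmul_eq_mul, hcard]
  have hqm : 0 < q ^ m := by positivity
  have he3r : 1 ≤ Real.exp 3 * r := by nlinarith
  -- the two stages
  have hbn : ∑ f ∈ Mon F n, ‖b f‖ ^ 2 ≤ q ^ n := by
    calc ∑ f ∈ Mon F n, ‖b f‖ ^ 2 ≤ ∑ _f ∈ Mon F n, (1:ℝ) := by
          refine sum_le_sum (fun f _ => ?_)
          exact pow_le_one₀ (n := 2) (norm_nonneg _) (hb f)
      _ = q ^ n := by rw [sum_const, nsmul_eq_mul, mul_one, card_Mon]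
  have s1 := telescope' (inc (F := F) m) (Mon F n) (th n) (Lb r) (((n : ℝ) + 5) ^ 2 * q ^ (n + m - r))
    (q ^ m * ((n:ℝ) + 5) ^ 2) (by positivity) (by positivity) k a hd1 (fun i f _ => hth _)
    (fun i f _ => (hLb _).trans (by
      apply mul_le_mul_of_nonneg_left _ hqm.le
      nlinarith)) b
  have s2 := telescope' (inc (F := F) m) (Mon F n) (Lb r) (Lz z) (q ^ (n + m) * δ)
    (q ^ m * (Real.exp 3 * r) ^ 2) (by positivity) (by positivity) k a hd2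
    (fun i f _ => (hLb _).trans (by
      apply mul_le_mul_of_nonneg_left _ hqm.le
      nlinarith)) (fun i f _ => hLz _) b
  have hk2 : (0:ℝ) ≤ 2 ^ (k + 1) - 2 := by
    have : (2:ℝ) ^ 1 ≤ 2 ^ (k + 1) := pow_le_pow_right₀ (by norm_num) (by omega)
    linarith
  have hkk : (q ^ m) ^ k = q ^ m * (q ^ m) ^ (k - 1) := by
    rw [← pow_succ']; congr 1; omega
  have t1 : (2 ^ (k + 1) - 2) * (((n : ℝ) + 5) ^ 2 * q ^ (n + m - r) *
      (q ^ m * ((n:ℝ) + 5) ^ 2) ^ (k - 1)) * ∑ f ∈ Mon F n, ‖b f‖ ^ 2 ≤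
      2 ^ (k + 1) * (q ^ n) ^ 2 * (q ^ m) ^ k * ((n + 5) ^ (2 * k) / q ^ r) := by
    have e1 : (q ^ m * ((n:ℝ) + 5) ^ 2) ^ (k - 1) = (q ^ m) ^ (k - 1) * ((n:ℝ) + 5) ^ (2 * (k - 1)) := by
      rw [mul_pow, ← pow_mul ((n:ℝ) + 5)]
    have e2 : ((n:ℝ) + 5) ^ (2 * k) = ((n:ℝ) + 5) ^ 2 * ((n:ℝ) + 5) ^ (2 * (k - 1)) := by
      rw [← pow_add]; congr 1; omega
    have e3 : q ^ (n + m - r) = q ^ n * q ^ m / q ^ r := by
      rw [eq_div_iff (by positivity), ← pow_add, ← pow_add]; congr 1; omega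
    rw [e1, e2, e3, hkk]
    have h0 : 0 ≤ ((n : ℝ) + 5) ^ 2 * (q ^ n * q ^ m / q ^ r) *
        ((q ^ m) ^ (k - 1) * ((n:ℝ) + 5) ^ (2 * (k - 1))) := by positivity
    calc (2 ^ (k + 1) - 2) * (((n : ℝ) + 5) ^ 2 * (q ^ n * q ^ m / q ^ r) *
          ((q ^ m) ^ (k - 1) * ((n:ℝ) + 5) ^ (2 * (k - 1)))) * ∑ f ∈ Mon F n, ‖b f‖ ^ 2
        ≤ 2 ^ (k + 1) * (((n : ℝ) + 5) ^ 2 * (q ^ n * q ^ m / q ^ r) *
          ((q ^ m) ^ (k - 1) * ((n:ℝ) + 5) ^ (2 * (k - 1)))) * q ^ n := by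
          apply mul_le_mul _ hbn (sum_nonneg (fun f _ => by positivity)) (by positivity)
          exact mul_le_mul_of_nonneg_right (by linarith) h0
      _ = _ := by field_simp
  have t2 : (2 ^ (k + 1) - 2) * (q ^ (n + m) * δ * (q ^ m * (Real.exp 3 * r) ^ 2) ^ (k - 1)) *
      ∑ f ∈ Mon F n, ‖b f‖ ^ 2 ≤
      2 ^ (k + 1) * (q ^ n) ^ 2 * (q ^ m) ^ k * (δ * (Real.exp 3 * r) ^ (2 * (k - 1))) := by
    have e1 : (q ^ m * (Real.exp 3 * r) ^ 2) ^ (k - 1) =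
        (q ^ m) ^ (k - 1) * (Real.exp 3 * r) ^ (2 * (k - 1)) := by
      rw [mul_pow, ← pow_mul (Real.exp 3 * r)]
    have e0 : q ^ (n + m) = q ^ n * q ^ m := pow_add _ _ _
    rw [e1, hkk, e0]
    have h0 : 0 ≤ q ^ n * q ^ m * δ * ((q ^ m) ^ (k - 1) * (Real.exp 3 * r) ^ (2 * (k - 1))) := by
      positivity
    calc (2 ^ (k + 1) - 2) * (q ^ n * q ^ m * δ *
          ((q ^ m) ^ (k - 1) * (Real.exp 3 * r) ^ (2 * (k - 1)))) * ∑ f ∈ Mon F n, ‖b f‖ ^ 2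
        ≤ 2 ^ (k + 1) * (q ^ n * q ^ m * δ *
          ((q ^ m) ^ (k - 1) * (Real.exp 3 * r) ^ (2 * (k - 1)))) * q ^ n := by
          apply mul_le_mul _ hbn (sum_nonneg (fun f _ => by positivity)) (by positivity)
          exact mul_le_mul_of_nonneg_right (by linarith) h0
      _ = _ := by ring
  have s1' := s1.trans t1
  have s2' := s2.trans t2
  calc ∑ c : Fin k → (Fin m → F), ‖∑ f ∈ Mon F n, b f *
        ((∏ i, th n (f + a i + inc m (c i)) - ∏ i, Lz z (f + a i + inc m (c i)) : ℝ) : ℂ)‖ ^ 2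
      ≤ ∑ c : Fin k → (Fin m → F), (2 * ‖∑ f ∈ Mon F n, b f *
        ((∏ i, th n (f + a i + inc m (c i)) - ∏ i, Lb r (f + a i + inc m (c i)) : ℝ) : ℂ)‖ ^ 2 +
        2 * ‖∑ f ∈ Mon F n, b f *
        ((∏ i, Lb r (f + a i + inc m (c i)) - ∏ i, Lz z (f + a i + inc m (c i)) : ℝ) : ℂ)‖ ^ 2) := by
        apply sum_le_sum
        intro c _
        have e : ∑ f ∈ Mon F n, b f *
            ((∏ i, th n (f + a i + inc m (c i)) - ∏ i, Lz z (f + a i + inc m (c i)) : ℝ) : ℂ) =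
            ∑ f ∈ Mon F n, b f *
            ((∏ i, th n (f + a i + inc m (c i)) - ∏ i, Lb r (f + a i + inc m (c i)) : ℝ) : ℂ) +
            ∑ f ∈ Mon F n, b f *
            ((∏ i, Lb r (f + a i + inc m (c i)) - ∏ i, Lz z (f + a i + inc m (c i)) : ℝ) : ℂ) := by
          rw [← sum_add_distrib]
          refine sum_congr rfl (fun f _ => ?_)
          push_cast
          ring
        rw [e]
        have h3 := norm_add_le (∑ f ∈ Mon F n, b f *
            ((∏ i, th n (f + a i + inc m (c i)) - ∏ i, Lb r (f + a i + inc m (c i)) : ℝ) : ℂ))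
            (∑ f ∈ Mon F n, b f *
            ((∏ i, Lb r (f + a i + inc m (c i)) - ∏ i, Lz z (f + a i + inc m (c i)) : ℝ) : ℂ))
        refine (pow_le_pow_left₀ (norm_nonneg _) h3 2).trans ?_
        nlinarith [sq_nonneg (‖∑ f ∈ Mon F n, b f *
            ((∏ i, th n (f + a i + inc m (c i)) - ∏ i, Lb r (f + a i + inc m (c i)) : ℝ) : ℂ)‖ -
            ‖∑ f ∈ Mon F n, b f *
            ((∏ i, Lb r (f + a i + inc m (c i)) - ∏ i, Lz z (f + a i + inc m (c i)) : ℝ) : ℂ)‖)]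
    _ ≤ 2 * (2 ^ (k + 1) * (q ^ n) ^ 2 * (q ^ m) ^ k * ((n + 5) ^ (2 * k) / q ^ r)) +
          2 * (2 ^ (k + 1) * (q ^ n) ^ 2 * (q ^ m) ^ k * (δ * (Real.exp 3 * r) ^ (2 * (k - 1)))) := by
        rw [sum_add_distrib, ← mul_sum, ← mul_sum]
        linarith
    _ = _ := by rw [pow_succ 2 (k + 1)]; ring

end Pool.Agent.H523.CM
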