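import Pool.Agent.H523.CM22
import Pool.Agent.H523.CM8

set_option autoImplicit false
set_option linter.unusedSectionVars false

/-! # Level of distribution with fixed coefficients, for almost all residues: the theorem -/

namespace Pool.Agent.H523.CM

open Polynomial Finset
open Pool.Agent.H341R2.Sharp (Mon mem_Mon)
open Pool.Agent.H523.FF (Ir mem_Ir PL mem_PL card_PL two_le_card IrLE mem_IrLE irr_coprime PL_mod)

open scoped Classical

variable {F : Type} [Field F] [Fintype F]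

/-- the weight of a sequence of moduli -/
noncomputable def wt (y : ℕ) (c : F[X] → ℂ) (f : F[X]) : ℂ := ∑ M ∈ ML F y, if M ∣ f then c M else 0

theorem wt_bound {κ n y : ℕ} (hyn : y ≤ n) (c : F[X] → ℂ)
    (hc : ∀ M : F[X], M.Monic → ‖c M‖ ≤ (tau M : ℝ) ^ κ) {f : F[X]} (hf : f ∈ Mon F n) :
    ‖wt y c f‖ ≤ (tau f : ℝ) ^ (κ + 1) := by
  rw [mem_Mon] at hf
  have hf0 := hf.1.ne_zero
  unfold wt
  calc ‖∑ M ∈ ML F y, if M ∣ f then c M else 0‖
      ≤ ∑ M ∈ ML F y, (if M ∣ f then (tau f : ℝ) ^ κ else 0) := by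
        refine (norm_sum_le _ _).trans (sum_le_sum (fun M hM => ?_))
        rw [mem_ML] at hM
        split_ifs with h
        · refine (hc M hM.1).trans ?_
          apply pow_le_pow_left₀ (Nat.cast_nonneg _)
          exact_mod_cast tau_dvd_le hf0 h
        · rw [norm_zero]
    _ = (((ML F y).filter (fun M => M ∣ f)).card : ℝ) * (tau f : ℝ) ^ κ := by
        rw [← sum_filter, sum_const, nsmul_eq_mul]
    _ ≤ (tau f : ℝ) * (tau f : ℝ) ^ κ := by
        apply mul_le_mul_of_nonneg_right _ (by positivity)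
        have h : ((ML F y).filter (fun M => M ∣ f)).card ≤ tau f := by
          unfold tau
          apply card_le_card
          intro M hM
          rw [mem_filter, mem_ML] at hM
          rw [mem_div hf0]
          exact ⟨hM.1.1, hM.2⟩
        exact_mod_cast h
    _ = _ := by rw [pow_succ]; ring

theorem wt_sq {κ n y : ℕ} (hyn : y ≤ n) (c : F[X] → ℂ)
    (hc : ∀ M : F[X], M.Monic → ‖c M‖ ≤ (tau M : ℝ) ^ κ) :
    ∑ f ∈ Mon F n, ‖wt y c f‖ ^ 2 ≤
      ((n:ℝ) + 1) ^ (2 ^ (2 * κ + 2) - 1) * (Fintype.card F : ℝ) ^ n := by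
  refine le_trans ?_ (tau_moment (F := F) (2 * κ + 2) n)
  refine sum_le_sum (fun f hf => ?_)
  refine (pow_le_pow_left₀ (norm_nonneg _) (wt_bound hyn c hc hf) 2).trans (le_of_eq ?_)
  rw [← pow_mul]
  congr 1
  ring

/-- **Level of distribution with fixed coefficients, in the mean square over the residues of an
arbitrary disc** -/
theorem level {κ n m : ℕ} (hn : 1 ≤ n) (hmn : m ≤ n) (c : F[X] → ℂ)
    (hc : ∀ M : F[X], M.Monic → ‖c M‖ ≤ (tau M : ℝ) ^ κ) {a : F[X]} (ha : a.degree < n) :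
    ∑ h ∈ PL F m, ‖∑ M ∈ ML F (n - m / 2), c M *
      ((∑ f ∈ (Mon F n).filter (fun f => M ∣ f), th n (f + (a + h)) -
        (if IsCoprime (a + h) M then (Fintype.card F : ℝ) ^ n / (phi1 M : ℝ) else 0) : ℝ) : ℂ)‖ ^ 2 ≤
      ((n:ℝ) + 1) ^ (2 ^ (2 * κ + 2) + 8) * (Fintype.card F : ℝ) ^ (2 * n + m - m / 2) := by
  have hq := two_le_card (F := F)
  set q : ℝ := (Fintype.card F : ℝ) with hqd
  have hq0 : 0 < q := by linarith
  set r := m / 2 with hr
  set y := n - r with hy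
  have hrm : 2 * r ≤ m := by omega
  have hrn : r < n := by omega
  have hyn : y ≤ n := by omega
  set E1 : F[X] → ℂ := fun h => ∑ f ∈ Mon F n, wt y c f *
    ((th n (f + a + h) - Lb r (f + a + h) : ℝ) : ℂ) with hE1
  set E2 : F[X] → ℂ := fun h => ∑ s ∈ (SF F y).filter (fun s => r < ∑ P ∈ s, P.natDegree),
        (∑ M ∈ (ML F y).filter (fun M => s ⊆ pd M), c M * ((q ^ (n - M.natDegree) : ℝ) : ℂ)) *
          ((∏ P ∈ s, aP P (a + h) : ℝ) : ℂ) with hE2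
  -- the decomposition
  have hdec : ∀ h : F[X], ∑ M ∈ ML F y, c M *
      ((∑ f ∈ (Mon F n).filter (fun f => M ∣ f), th n (f + (a + h)) -
        (if IsCoprime (a + h) M then q ^ n / (phi1 M : ℝ) else 0) : ℝ) : ℂ) = E1 h - E2 h := by
    intro h
    have h1 : E1 h = ∑ M ∈ ML F y, c M *
        ((∑ f ∈ (Mon F n).filter (fun f => M ∣ f), (th n (f + (a + h)) - Lb r (f + (a + h))) : ℝ) : ℂ) := by
      rw [hE1]
      simp only
      unfold wt
      have e1 : ∀ f ∈ Mon F n, (∑ M ∈ ML F y, if M ∣ f then c M else 0) *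
          ((th n (f + a + h) - Lb r (f + a + h) : ℝ) : ℂ) =
          ∑ M ∈ ML F y, if M ∣ f then c M * ((th n (f + (a + h)) - Lb r (f + (a + h)) : ℝ) : ℂ) else 0 := by
        intro f _
        rw [sum_mul, add_assoc]
        refine sum_congr rfl (fun M _ => ?_)
        split_ifs
        · rfl
        · rw [zero_mul]
      rw [sum_congr rfl e1, sum_comm]
      refine sum_congr rfl (fun M _ => ?_)
      rw [← sum_filter, Complex.ofReal_sum, mul_sum]
    have h2 : E2 h = ∑ M ∈ ML F y, c M * ((q ^ (n - M.natDegree) *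
        ∑ s ∈ (pd M).powerset.filter (fun s => r < ∑ P ∈ s, P.natDegree), ∏ P ∈ s, aP P (a + h) : ℝ) : ℂ) := by
      rw [hE2]
      simp only
      have e1 : ∀ s ∈ (SF F y).filter (fun s => r < ∑ P ∈ s, P.natDegree),
          (∑ M ∈ (ML F y).filter (fun M => s ⊆ pd M), c M * ((q ^ (n - M.natDegree) : ℝ) : ℂ)) *
          ((∏ P ∈ s, aP P (a + h) : ℝ) : ℂ) =
          ∑ M ∈ (ML F y).filter (fun M => s ⊆ pd M), c M * ((q ^ (n - M.natDegree) : ℝ) : ℂ) *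
          ((∏ P ∈ s, aP P (a + h) : ℝ) : ℂ) := by
        intro s _
        rw [sum_mul]
      rw [sum_congr rfl e1, sum_comm' (s' := fun M => (pd M).powerset.filter
        (fun s => r < ∑ P ∈ s, P.natDegree)) (t' := ML F y) (by
          intro s M
          rw [mem_filter, mem_filter, mem_filter, mem_SF, mem_powerset]
          constructor
          · rintro ⟨⟨_, h4⟩, h5, h6⟩
            exact ⟨⟨h6, h4⟩, h5⟩
          · rintro ⟨⟨h6, h4⟩, h5⟩
            have hM := mem_ML.mp h5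
            refine ⟨⟨⟨fun P hP => pd_pr hM.1 P (h6 hP), ?_⟩, h4⟩, h5, h6⟩
            exact ((sum_le_sum_of_subset h6).trans (sum_pd_le hM.1)).trans hM.2)]
      refine sum_congr rfl (fun M _ => ?_)
      rw [Complex.ofReal_mul, Complex.ofReal_sum, mul_sum, mul_sum]
      exact sum_congr rfl (fun s _ => by ring)
    rw [h1, h2, ← sum_sub_distrib]
    refine sum_congr rfl (fun M hM => ?_)
    rw [mem_ML] at hM
    have h3 := class_diff (n := n) (r := r) hM.1 (by omega) (a + h)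
    rw [← hqd] at h3
    rw [← mul_sub, ← Complex.ofReal_sub]
    congr 2
    rw [sum_sub_distrib]
    linarith
  -- the two bounds
  have b1 : ∑ h ∈ PL F m, ‖E1 h‖ ^ 2 ≤
      ((n:ℝ) + 5) ^ 2 * q ^ (n + m - r) * (((n:ℝ) + 1) ^ (2 ^ (2 * κ + 2) - 1) * q ^ n) := by
    have hS : ∀ (c : Fin m → F) (f : F[X]), f + inc m c ∈ Mon F n ↔ f ∈ Mon F n := fun c f =>
      Mon_shift hmn _ _ (mem_PL.mp (inc_mem c))
    have h1 := disp_centre (E := fun x => th n x - Lb r x) (fun w => dispersion (inc (F := F) m)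
      (Mon F n) hS w (fun x => ((th n x - Lb r x : ℝ) : ℂ)) _ (fun ψ => V_bound hrm hmn hrn ψ)) ha
      (wt y c)
    rw [sum_inc m (fun h => ‖∑ f ∈ Mon F n, wt y c f *
      ((th n (f + a + h) - Lb r (f + a + h) : ℝ) : ℂ)‖ ^ 2)] at h1
    refine h1.trans ?_
    apply mul_le_mul_of_nonneg_left (wt_sq hyn c hc) (by positivity)
  have b2 : ∑ h ∈ PL F m, ‖E2 h‖ ^ 2 ≤
      ((n:ℝ) + 1) ^ (2 ^ (2 * κ + 1) + 2 ^ (κ + 1) + 2) * q ^ (2 * n) :=
    E2_bound (by omega) hyn c hc a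
  have hn1 : (1:ℝ) ≤ n := by exact_mod_cast hn
  have hN : (1:ℝ) ≤ (n:ℝ) + 1 := by linarith
  have hN2 : (2:ℝ) ≤ (n:ℝ) + 1 := by linarith
  set W : ℝ := (n:ℝ) + 1 with hW
  have hpw : 2 ^ (κ + 1) ≤ 2 ^ (2 * κ + 1) := Nat.pow_le_pow_right (by norm_num) (by omega)
  have hpw2 : 2 ^ (2 * κ + 2) = 2 * 2 ^ (2 * κ + 1) := by rw [pow_succ 2 (2 * κ + 1)]; ring
  have hpw0 : 1 ≤ 2 ^ (2 * κ + 2) := Nat.one_le_two_pow
  set T : ℕ := 2 ^ (2 * κ + 2) with hT
  have c1 : 2 * (((n:ℝ) + 5) ^ 2 * q ^ (n + m - r) * (W ^ (T - 1) * q ^ n)) ≤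
      W ^ (T + 7) * q ^ (2 * n + m - r) := by
    have e1 : q ^ (2 * n + m - r) = q ^ (n + m - r) * q ^ n := by
      rw [← pow_add]; congr 1; omega
    have e2 : ((n:ℝ) + 5) ^ 2 ≤ 25 * W ^ 2 := by
      have : (n:ℝ) + 5 ≤ 5 * W := by rw [hW]; linarith
      calc ((n:ℝ) + 5) ^ 2 ≤ (5 * W) ^ 2 := pow_le_pow_left₀ (by positivity) this 2
        _ = _ := by ring
    have e3 : (50:ℝ) ≤ W ^ 6 := by
      calc (50:ℝ) ≤ 2 ^ 6 := by norm_num
        _ ≤ W ^ 6 := pow_le_pow_left₀ (by norm_num) hN2 6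
    have e4 : W ^ (T + 7) = W ^ 6 * (W ^ 2 * W ^ (T - 1)) := by
      rw [← pow_add, ← pow_add]; congr 1; omega
    rw [e1, e4]
    have e5 : 0 ≤ W ^ 2 * W ^ (T - 1) * (q ^ (n + m - r) * q ^ n) := by positivity
    calc 2 * (((n:ℝ) + 5) ^ 2 * q ^ (n + m - r) * (W ^ (T - 1) * q ^ n))
        = (2 * ((n:ℝ) + 5) ^ 2) * (W ^ (T - 1) * (q ^ (n + m - r) * q ^ n)) := by ring
      _ ≤ (2 * (25 * W ^ 2)) * (W ^ (T - 1) * (q ^ (n + m - r) * q ^ n)) := by
          apply mul_le_mul_of_nonneg_right _ (by positivity)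
          linarith
      _ = 50 * (W ^ 2 * W ^ (T - 1) * (q ^ (n + m - r) * q ^ n)) := by ring
      _ ≤ W ^ 6 * (W ^ 2 * W ^ (T - 1) * (q ^ (n + m - r) * q ^ n)) :=
          mul_le_mul_of_nonneg_right e3 e5
      _ = _ := by ring
  have c2 : 2 * (W ^ (2 ^ (2 * κ + 1) + 2 ^ (κ + 1) + 2) * q ^ (2 * n)) ≤
      W ^ (T + 7) * q ^ (2 * n + m - r) := by
    have e1 : q ^ (2 * n) ≤ q ^ (2 * n + m - r) := pow_le_pow_right₀ (by linarith) (by omega)
    have e2 : 2 * W ^ (2 ^ (2 * κ + 1) + 2 ^ (κ + 1) + 2) ≤ W ^ (T + 7) := by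
      calc 2 * W ^ (2 ^ (2 * κ + 1) + 2 ^ (κ + 1) + 2)
          ≤ W * W ^ (2 ^ (2 * κ + 1) + 2 ^ (κ + 1) + 2) :=
            mul_le_mul_of_nonneg_right hN2 (by positivity)
        _ = W ^ (2 ^ (2 * κ + 1) + 2 ^ (κ + 1) + 3) := by rw [← pow_succ']
        _ ≤ W ^ (T + 7) := pow_le_pow_right₀ hN (by omega)
    calc 2 * (W ^ (2 ^ (2 * κ + 1) + 2 ^ (κ + 1) + 2) * q ^ (2 * n))
        = (2 * W ^ (2 ^ (2 * κ + 1) + 2 ^ (κ + 1) + 2)) * q ^ (2 * n) := by ring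
      _ ≤ W ^ (T + 7) * q ^ (2 * n + m - r) := mul_le_mul e2 e1 (by positivity) (by positivity)
  calc ∑ h ∈ PL F m, ‖∑ M ∈ ML F y, c M *
      ((∑ f ∈ (Mon F n).filter (fun f => M ∣ f), th n (f + (a + h)) -
        (if IsCoprime (a + h) M then q ^ n / (phi1 M : ℝ) else 0) : ℝ) : ℂ)‖ ^ 2
      ≤ ∑ h ∈ PL F m, (2 * ‖E1 h‖ ^ 2 + 2 * ‖E2 h‖ ^ 2) := by
        refine sum_le_sum (fun h _ => ?_)
        rw [hdec]
        have h1 := norm_sub_le (E1 h) (E2 h)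
        refine (pow_le_pow_left₀ (norm_nonneg _) h1 2).trans ?_
        nlinarith [sq_nonneg (‖E1 h‖ - ‖E2 h‖)]
    _ = 2 * ∑ h ∈ PL F m, ‖E1 h‖ ^ 2 + 2 * ∑ h ∈ PL F m, ‖E2 h‖ ^ 2 := by
        rw [sum_add_distrib, mul_sum, mul_sum]
    _ ≤ 2 * (((n:ℝ) + 5) ^ 2 * q ^ (n + m - r) * (W ^ (T - 1) * q ^ n)) +
          2 * (W ^ (2 ^ (2 * κ + 1) + 2 ^ (κ + 1) + 2) * q ^ (2 * n)) := by linarith
    _ ≤ W ^ (T + 7) * q ^ (2 * n + m - r) + W ^ (T + 7) * q ^ (2 * n + m - r) := add_le_add c1 c2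
    _ = 2 * (W ^ (T + 7) * q ^ (2 * n + m - r)) := by ring
    _ ≤ W * (W ^ (T + 7) * q ^ (2 * n + m - r)) :=
        mul_le_mul_of_nonneg_right hN2 (by positivity)
    _ = _ := by rw [show T + 8 = (T + 7) + 1 from rfl, pow_succ W (T + 7)]; ring

end Pool.Agent.H523.CM
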