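import Pool.Agent.H523.CM2

set_option autoImplicit false
set_option linter.unusedSectionVars false

/-! # The circle method over `F_q[t]`: the model of the primes and the main inequality -/

namespace Pool.Agent.H523.CM

open Polynomial Finset
open Pool.Agent.H341R2.Sharp (Mon mem_Mon)
open Pool.Agent.H523.FF (Ir mem_Ir PL mem_PL card_PL two_le_card IrLE mem_IrLE irr_coprime PL_mod)
open Pool.Agent.H523.RH (NP Phi Phi_prod Phi_pos var_NP)

open scoped Classical

variable {F : Type} [Field F] [Fintype F]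

/-- divisibility by a product of distinct primes -/
theorem prod_dvd_iff {s : Finset F[X]} (hs : ∀ P ∈ s, P.Monic ∧ Irreducible P) (x : F[X]) :
    ∏ P ∈ s, P ∣ x ↔ ∀ P ∈ s, P ∣ x := by
  constructor
  · exact fun h P hP => (dvd_prod_of_mem (fun P => P) hP).trans h
  · intro h
    apply Finset.prod_dvd_of_coprime _ h
    intro P hP P' hP' hne
    exact irr_coprime (hs P hP).1 (hs P hP).2 (hs P' hP').1 (hs P' hP').2 hne

/-- a prime divisor of a product of distinct primes is one of them -/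
theorem mem_of_dvd {s : Finset F[X]} (hs : ∀ P ∈ s, P.Monic ∧ Irreducible P) {P : F[X]}
    (hP : P.Monic) (hPI : Irreducible P) (h : P ∣ ∏ P' ∈ s, P') : P ∈ s := by
  obtain ⟨P', hP', hd⟩ := (hPI.prime.dvd_finsetProd_iff _).mp h
  have := eq_of_monic_of_associated hP (hs P' hP').1
    ((hPI.dvd_irreducible_iff_associated (hs P' hP').2).mp hd)
  rwa [this]

theorem monic_pr {s : Finset F[X]} (hs : ∀ P ∈ s, P.Monic ∧ Irreducible P) :
    (∏ P ∈ s, P).Monic := monic_prod_of_monic _ _ (fun P hP => (hs P hP).1)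

theorem natDegree_pr {s : Finset F[X]} (hs : ∀ P ∈ s, P.Monic ∧ Irreducible P) :
    (∏ P ∈ s, P).natDegree = ∑ P ∈ s, P.natDegree :=
  natDegree_prod_of_monic _ _ (fun P hP => (hs P hP).1)

theorem pr_inj {s t : Finset F[X]} (hs : ∀ P ∈ s, P.Monic ∧ Irreducible P)
    (ht : ∀ P ∈ t, P.Monic ∧ Irreducible P) (h : ∏ P ∈ s, P = ∏ P ∈ t, P) : s = t := by
  ext P
  constructor
  · intro hP
    exact mem_of_dvd ht (hs P hP).1 (hs P hP).2 (h ▸ dvd_prod_of_mem (fun P => P) hP)
  · intro hP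
    exact mem_of_dvd hs (ht P hP).1 (ht P hP).2 (h ▸ dvd_prod_of_mem (fun P => P) hP)

/-- the alternating sum over the multiples of `Q` -/
theorem alt {Q : F[X]} (hQ : Q.Monic) {s : Finset F[X]} (hs : ∀ P ∈ s, P.Monic ∧ Irreducible P) :
    ∑ t ∈ s.powerset, (-1 : ℂ) ^ t.card * (if Q ∣ ∏ P ∈ t, P then 1 else 0) =
      if Q = ∏ P ∈ s, P then (-1) ^ s.card else 0 := by
  split_ifs with h
  · rw [sum_eq_single_of_mem s (mem_powerset_self s)]
    · rw [if_pos (by rw [h]), mul_one]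
    · intro t ht hts
      rw [if_neg, mul_zero]
      intro hd
      apply hts
      have hts' := mem_powerset.mp ht
      refine Finset.Subset.antisymm hts' (fun P hP => ?_)
      refine mem_of_dvd (fun P' hP' => hs P' (hts' hP')) (hs P hP).1 (hs P hP).2 ?_
      refine dvd_trans ?_ hd
      rw [h]
      exact dvd_prod_of_mem (fun P => P) hP
  · by_cases hd : Q ∣ ∏ P ∈ s, P
    · obtain ⟨R, hR⟩ := hd
      have hR0 : R ≠ 0 := by
        rintro rfl
        rw [mul_zero] at hR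
        exact (monic_pr hs).ne_zero hR
      have hRm : R.Monic := hQ.of_mul_monic_left (by rw [← hR]; exact monic_pr hs)
      have hRu : ¬ IsUnit R := by
        intro hu
        rw [hRm.isUnit_iff] at hu
        rw [hu, mul_one] at hR
        exact h hR.symm
      obtain ⟨P₁, hP₁, hP₁R⟩ := WfDvdMonoid.exists_irreducible_factor hRu hR0
      have hP₁s : ∃ P₀ ∈ s, P₀ ∣ R := by
        have h1 : P₁ ∣ ∏ P ∈ s, P := hR ▸ hP₁R.mul_left Q
        obtain ⟨P', hP', hd⟩ := (hP₁.prime.dvd_finsetProd_iff _).mp h1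
        have h2 := (hP₁.dvd_irreducible_iff_associated (hs P' hP').2).mp hd
        exact ⟨P', hP', h2.dvd_iff_dvd_left.mp hP₁R⟩
      obtain ⟨P₀, hP₀s, R', hR'⟩ := hP₁s
      have hP₀ := hs P₀ hP₀s
      set s' := s.erase P₀ with hs'
      have hins : insert P₀ s' = s := insert_erase hP₀s
      have hnot : P₀ ∉ s' := notMem_erase P₀ s
      have hQs' : Q ∣ ∏ P ∈ s', P := by
        refine ⟨R', ?_⟩
        have h1 : ∏ P ∈ s, P = P₀ * ∏ P ∈ s', P := by
          rw [← hins, prod_insert hnot]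
        have h2 : P₀ * ∏ P ∈ s', P = P₀ * (Q * R') := by
          rw [← h1, hR, hR']; ring
        exact mul_left_cancel₀ hP₀.1.ne_zero h2
      have hP₀Q : IsCoprime Q P₀ := by
        rw [isCoprime_comm, hP₀.2.coprime_iff_not_dvd]
        intro hd
        exact hnot (mem_of_dvd (fun P hP => hs P (mem_of_mem_erase hP)) hP₀.1 hP₀.2
          (hd.trans hQs'))
      rw [← hins, sum_powerset_insert hnot, ← sum_add_distrib]
      apply sum_eq_zero
      intro t ht
      have hPt : P₀ ∉ t := fun h => hnot (mem_powerset.mp ht h)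
      rw [card_insert_of_notMem hPt, prod_insert hPt, pow_succ]
      have h3 : Q ∣ P₀ * ∏ P ∈ t, P ↔ Q ∣ ∏ P ∈ t, P :=
        ⟨fun h => hP₀Q.dvd_of_dvd_mul_left h, fun h => h.mul_left P₀⟩
      simp only [h3]
      ring
    · apply sum_eq_zero
      intro t ht
      rw [if_neg, mul_zero]
      intro h1
      exact hd (h1.trans (prod_dvd_prod_of_subset _ _ _ (mem_powerset.mp ht)))

/-- expansion of a product of local factors -/
theorem expand {s : Finset F[X]} (hs : ∀ P ∈ s, P.Monic ∧ Irreducible P) (c : F[X] → ℂ) (x : F[X]) :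
    ∏ P ∈ s, (1 + (if P ∣ x then c P else 0)) =
      ∑ t ∈ s.powerset, (if ∏ P ∈ t, P ∣ x then ∏ P ∈ t, c P else 0) := by
  rw [prod_one_add]
  refine sum_congr rfl (fun t ht => ?_)
  rw [prod_ite_zero]
  simp only [prod_dvd_iff (fun P hP => hs P (mem_powerset.mp ht hP))]

section sums
variable {φ : AddChar F[X] ℂ} {Q : F[X]} (hQ : Q.Monic) (hφ : ∀ y : F[X], φ (Q * y) = 1)
  (hc : ∀ T : F[X], (∀ y : F[X], φ (T * y) = 1) → Q ∣ T)
include hQ hφ hc

theorem sum_expand {s : Finset F[X]} (hs : ∀ P ∈ s, P.Monic ∧ Irreducible P) {d : ℕ}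
    (hd : ∑ P ∈ s, P.natDegree + Q.natDegree ≤ d) (c : F[X] → ℂ) (f : F[X]) :
    ∑ g ∈ PL F d, (∏ P ∈ s, (1 + (if P ∣ f + g then c P else 0))) * φ (f + g) =
      ∑ t ∈ s.powerset, (∏ P ∈ t, c P) * (if Q ∣ ∏ P ∈ t, P then
        ((Fintype.card F ^ (d - ∑ P ∈ t, P.natDegree) : ℕ) : ℂ) else 0) := by
  simp only [expand hs]
  simp only [sum_mul]
  rw [sum_comm]
  refine sum_congr rfl (fun t ht => ?_)
  have ht' : ∀ P ∈ t, P.Monic ∧ Irreducible P := fun P hP => hs P (mem_powerset.mp ht hP)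
  have hdt : (∏ P ∈ t, P).natDegree + Q.natDegree ≤ d := by
    rw [natDegree_pr ht']
    have : ∑ P ∈ t, P.natDegree ≤ ∑ P ∈ s, P.natDegree :=
      sum_le_sum_of_subset (mem_powerset.mp ht)
    omega
  rw [← natDegree_pr ht', ← sum_multiples hQ hφ hc (monic_pr ht') hdt f, mul_sum, sum_filter]
  refine sum_congr rfl (fun g _ => ?_)
  split_ifs <;> simp

/-- the Ramanujan sums -/
theorem sum_ramanujan {s : Finset F[X]} (hs : ∀ P ∈ s, P.Monic ∧ Irreducible P) {d : ℕ}
    (hd : ∑ P ∈ s, P.natDegree + Q.natDegree ≤ d) (f : F[X]) :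
    ∑ g ∈ PL F d, (∏ P ∈ s, (1 + (if P ∣ f + g then -((Fintype.card F : ℂ) ^ P.natDegree) else 0))) *
        φ (f + g) = (Fintype.card F : ℂ) ^ d * (if Q = ∏ P ∈ s, P then (-1) ^ s.card else 0) := by
  rw [sum_expand hQ hφ hc hs hd, ← alt hQ hs, mul_sum]
  refine sum_congr rfl (fun t ht => ?_)
  have h1 : ∑ P ∈ t, P.natDegree ≤ ∑ P ∈ s, P.natDegree :=
    sum_le_sum_of_subset (mem_powerset.mp ht)
  have h2 : ∏ P ∈ t, -((Fintype.card F : ℂ) ^ P.natDegree) =
      (-1) ^ t.card * (Fintype.card F : ℂ) ^ (∑ P ∈ t, P.natDegree) := by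
    rw [prod_neg, prod_pow_eq_pow_sum]
  rw [h2]
  split_ifs
  · push_cast
    have h3 : (Fintype.card F : ℂ) ^ d = (Fintype.card F : ℂ) ^ (∑ P ∈ t, P.natDegree) *
        (Fintype.card F : ℂ) ^ (d - ∑ P ∈ t, P.natDegree) := by
      rw [← pow_add]; congr 1; omega
    rw [h3]
    ring
  · simp

/-- the set of the prime divisors -/
noncomputable def pd (Q : F[X]) : Finset F[X] := (IrLE F Q.natDegree).filter (fun P => P ∣ Q)

omit hφ hc in
theorem mem_pd {P : F[X]} : P ∈ pd Q ↔ P.Monic ∧ Irreducible P ∧ P ∣ Q := by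
  unfold pd
  rw [mem_filter, mem_IrLE]
  constructor
  · exact fun h => ⟨h.1.1, h.1.2.1, h.2⟩
  · exact fun h => ⟨⟨h.1, h.2.1, natDegree_le_of_dvd h.2.2 hQ.ne_zero⟩, h.2.2⟩

omit hφ hc in
theorem pd_pr : ∀ P ∈ pd Q, P.Monic ∧ Irreducible P := fun P hP =>
  ⟨((mem_pd hQ).mp hP).1, ((mem_pd hQ).mp hP).2.1⟩

omit hφ hc in
theorem pr_pd_dvd : ∏ P ∈ pd Q, P ∣ Q := by
  rw [prod_dvd_iff (pd_pr hQ)]
  exact fun P hP => ((mem_pd hQ).mp hP).2.2

omit hφ hc in
theorem coprime_iff (x : F[X]) : IsCoprime x Q ↔ ∀ P ∈ pd Q, ¬ P ∣ x := by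
  constructor
  · intro h P hP hd
    have h1 := (mem_pd hQ).mp hP
    exact h1.2.1.not_isUnit (h.isUnit_of_dvd' hd h1.2.2)
  · intro h
    refine isCoprime_of_irreducible_dvd (fun h0 => hQ.ne_zero h0.2) (fun z hz hzx hzQ => ?_)
    apply h (normalize z)
    · rw [mem_pd hQ]
      exact ⟨monic_normalize hz.ne_zero, (associated_normalize z).irreducible hz,
        (normalize_dvd_iff).mpr hzQ⟩
    · exact (normalize_dvd_iff).mpr hzx

/-- the sum over the reduced residues -/
theorem sum_reduced {d : ℕ} (hd : 2 * Q.natDegree ≤ d) (f : F[X]) :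
    ∑ g ∈ PL F d, (if IsCoprime (f + g) Q then φ (f + g) else 0) =
      (Fintype.card F : ℂ) ^ (d - Q.natDegree) *
        (if Q = ∏ P ∈ pd Q, P then (-1) ^ (pd Q).card else 0) := by
  have hdeg : ∑ P ∈ pd Q, P.natDegree ≤ Q.natDegree := by
    rw [← natDegree_pr (pd_pr hQ)]
    exact natDegree_le_of_dvd (pr_pd_dvd hQ) hQ.ne_zero
  have h1 : ∀ g : F[X], (if IsCoprime (f + g) Q then φ (f + g) else 0) =
      (∏ P ∈ pd Q, (1 + (if P ∣ f + g then (-1 : ℂ) else 0))) * φ (f + g) := by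
    intro g
    split_ifs with h
    · rw [prod_eq_one, one_mul]
      intro P hP
      rw [if_neg ((coprime_iff hQ _).mp h P hP), add_zero]
    · rw [coprime_iff hQ] at h
      push Not at h
      obtain ⟨P, hP, hd⟩ := h
      rw [prod_eq_zero hP (by rw [if_pos hd]; norm_num), zero_mul]
  simp only [h1]
  rw [sum_expand hQ hφ hc (pd_pr hQ) (by omega), ← alt hQ (pd_pr hQ), mul_sum]
  refine sum_congr rfl (fun t ht => ?_)
  have ht' : ∀ P ∈ t, P.Monic ∧ Irreducible P := fun P hP => pd_pr hQ P (mem_powerset.mp ht hP)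
  rw [prod_const]
  split_ifs with h
  · have h2 : ∏ P ∈ t, P ∣ Q :=
      (prod_dvd_prod_of_subset _ _ _ (mem_powerset.mp ht)).trans (pr_pd_dvd hQ)
    have h3 : Q = ∏ P ∈ t, P := eq_of_monic_of_associated hQ (monic_pr ht')
      (associated_of_dvd_dvd h h2)
    have h4 : ∑ P ∈ t, P.natDegree = Q.natDegree := by
      rw [← natDegree_pr ht', ← h3]
    rw [h4]
    push_cast
    ring
  · simp

end sums

/-- the local factor `a_P(f) = (1 - |P| [P ∣ f]) / (|P| - 1)` -/
noncomputable def aP (P f : F[X]) : ℝ :=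
  (1 - (if P ∣ f then (Fintype.card F : ℝ) ^ P.natDegree else 0)) /
    ((Fintype.card F : ℝ) ^ P.natDegree - 1)

variable (F) in
/-- the sets of primes with a product of degree at most `r` -/
noncomputable def SF (r : ℕ) : Finset (Finset F[X]) :=
  (IrLE F r).powerset.filter (fun s => ∑ P ∈ s, P.natDegree ≤ r)

theorem mem_SF {r : ℕ} {s : Finset F[X]} : s ∈ SF F r ↔
    (∀ P ∈ s, P.Monic ∧ Irreducible P) ∧ ∑ P ∈ s, P.natDegree ≤ r := by
  unfold SF
  rw [mem_filter, mem_powerset]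
  constructor
  · intro h
    exact ⟨fun P hP => ⟨(mem_IrLE.mp (h.1 hP)).1, (mem_IrLE.mp (h.1 hP)).2.1⟩, h.2⟩
  · intro h
    refine ⟨fun P hP => ?_, h.2⟩
    rw [mem_IrLE]
    exact ⟨(h.1 P hP).1, (h.1 P hP).2,
      (single_le_sum (f := fun P : F[X] => P.natDegree) (fun _ _ => Nat.zero_le _) hP).trans h.2⟩

/-- the model `Λ^♭` of the primes: the truncated Ramanujan expansion -/
noncomputable def Lb (r : ℕ) (f : F[X]) : ℝ := ∑ s ∈ SF F r, ∏ P ∈ s, aP P f

/-- the weight of the primes of degree `n` -/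
noncomputable def th (n : ℕ) (f : F[X]) : ℝ := if f ∈ Ir F n then (n : ℝ) else 0

theorem norm_gt {P : F[X]} (hP : Irreducible P) : (1:ℝ) < (Fintype.card F : ℝ) ^ P.natDegree :=
  one_lt_pow₀ (by have := two_le_card (F := F); linarith) hP.natDegree_pos.ne'

theorem aP_prod (s : Finset F[X]) (f : F[X]) : ((∏ P ∈ s, aP P f : ℝ) : ℂ) =
    (∏ P ∈ s, (1 / ((Fintype.card F : ℂ) ^ P.natDegree - 1))) *
      ∏ P ∈ s, (1 + (if P ∣ f then -((Fintype.card F : ℂ) ^ P.natDegree) else 0)) := by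
  rw [← prod_mul_distrib]
  push_cast
  refine prod_congr rfl (fun P _ => ?_)
  unfold aP
  split_ifs <;> push_cast <;> ring

/-- **Fourier coefficients of the model** -/
theorem Lb_fourier {φ : AddChar F[X] ℂ} {Q : F[X]} (hQ : Q.Monic) (hφ : ∀ y : F[X], φ (Q * y) = 1)
    (hc : ∀ T : F[X], (∀ y : F[X], φ (T * y) = 1) → Q ∣ T) {r d κ n : ℕ}
    (hQr : Q.natDegree ≤ r) (hd : d = Q.natDegree + r) (hn : n = κ + d) (f : F[X]) :
    ∑ g ∈ PL F d, (Lb r (f + g) : ℂ) * φ (f + g) =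
      ((((Fintype.card F : ℝ) ^ n / (Phi Q κ : ℝ) : ℝ)) : ℂ) *
        ∑ b ∈ PL F Q.natDegree, (if IsCoprime (f + b) Q then φ (f + b) else 0) := by
  have hq := two_le_card (F := F)
  have hqC : (Fintype.card F : ℂ) ≠ 0 := by exact_mod_cast Fintype.card_ne_zero
  -- the right side
  have hR := sum_periodic (R := ℂ) hQ (d := d) (by omega)
    (fun x => if IsCoprime x Q then φ x else 0) (by
      intro x y hxy
      have h1 : IsCoprime x Q ↔ IsCoprime y Q := by
        obtain ⟨z, hz⟩ := hxy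
        have : x = y + z * Q := by linear_combination hz
        rw [this]
        exact IsCoprime.add_mul_right_left_iff
      have h2 : φ x = φ y := by
        obtain ⟨z, hz⟩ := hxy
        have : x = Q * z + y := by rw [← hz]; ring
        rw [this, AddChar.map_add_eq_mul, hφ, one_mul]
      simp only [h1, h2]) f
  rw [sum_reduced hQ hφ hc (by omega)] at hR
  push_cast at hR
  have hR' := mul_left_cancel₀ (pow_ne_zero _ hqC) hR
  rw [← hR']
  -- the left side
  have hL : ∑ g ∈ PL F d, (Lb r (f + g) : ℂ) * φ (f + g) = ∑ s ∈ SF F r,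
      (∏ P ∈ s, (1 / ((Fintype.card F : ℂ) ^ P.natDegree - 1))) *
        ((Fintype.card F : ℂ) ^ d * (if Q = ∏ P ∈ s, P then (-1) ^ s.card else 0)) := by
    have e : ∀ g ∈ PL F d, (Lb r (f + g) : ℂ) * φ (f + g) = ∑ s ∈ SF F r,
        (∏ P ∈ s, (1 / ((Fintype.card F : ℂ) ^ P.natDegree - 1))) *
        ((∏ P ∈ s, (1 + (if P ∣ f + g then -((Fintype.card F : ℂ) ^ P.natDegree) else 0))) *
          φ (f + g)) := by
      intro g _
      unfold Lb
      rw [Complex.ofReal_sum, sum_mul]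
      refine sum_congr rfl (fun s _ => ?_)
      rw [aP_prod]
      ring
    rw [sum_congr rfl e, sum_comm]
    refine sum_congr rfl (fun s hs => ?_)
    rw [← mul_sum, sum_ramanujan hQ hφ hc (mem_SF.mp hs).1 (by have := (mem_SF.mp hs).2; omega)]
  rw [hL]
  by_cases h : Q = ∏ P ∈ pd Q, P
  · have hmem : pd Q ∈ SF F r := by
      rw [mem_SF]
      refine ⟨pd_pr hQ, ?_⟩
      rw [← natDegree_pr (pd_pr hQ), ← h]
      exact hQr
    rw [sum_eq_single_of_mem (pd Q) hmem]
    · rw [if_pos h]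
      have h1 := Phi_prod (pd Q) (pd_pr hQ) κ
      rw [← h] at h1
      rw [h1, hn]
      push_cast
      rw [pow_add, prod_div_distrib, prod_const_one]
      have h2 : ∏ P ∈ pd Q, ((Fintype.card F : ℂ) ^ P.natDegree - 1) ≠ 0 := by
        rw [prod_ne_zero_iff]
        intro P hP
        have h3 := norm_gt (pd_pr hQ P hP).2
        intro h4
        have h5 : ((Fintype.card F : ℝ) ^ P.natDegree - 1 : ℝ) = 0 := by exact_mod_cast h4
        linarith
      field_simp
    · intro s hs hne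
      rw [if_neg, mul_zero, mul_zero]
      intro h3
      exact hne (pr_inj (mem_SF.mp hs).1 (pd_pr hQ) (h3.symm.trans h))
  · rw [if_neg h, mul_zero]
    apply sum_eq_zero
    intro s hs
    rw [if_neg, mul_zero, mul_zero]
    intro h3
    apply h
    have h4 : s = pd Q := by
      ext P
      rw [mem_pd hQ]
      constructor
      · intro hP
        exact ⟨((mem_SF.mp hs).1 P hP).1, ((mem_SF.mp hs).1 P hP).2,
          h3 ▸ dvd_prod_of_mem (fun P => P) hP⟩
      · rintro ⟨a, b, c⟩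
        exact mem_of_dvd (mem_SF.mp hs).1 a b (h3 ▸ c)
    rw [← h4]
    exact h3

end Pool.Agent.H523.CM
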