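import Pool.Agent.H523.CM21
import Pool.Agent.H523.CM8

set_option autoImplicit false
set_option linter.unusedSectionVars false

/-! # Binary problems: affine changes of variables and the main term -/

namespace Pool.Agent.H523.CM

open Polynomial Finset
open Pool.Agent.H341R2.Sharp (Mon mem_Mon)
open Pool.Agent.H523.FF (Ir mem_Ir PL mem_PL card_PL two_le_card IrLE mem_IrLE irr_coprime PL_mod)

open scoped Classical

variable {F : Type} [Field F] [Fintype F]

theorem deg_C_mul_le (c : F) (x : F[X]) : (C c * x).degree ≤ x.degree := by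
  by_cases hc : c = 0
  · rw [hc, C_0, zero_mul, degree_zero]
    exact bot_le
  · rw [degree_mul, degree_C hc, zero_add]

/-- the polynomial `g` with `α f + β g = B` -/
noncomputable def conj2 (α β : F) (B f : F[X]) : F[X] := C β⁻¹ * (B - C α * f)

theorem conj2_eq {α β : F} (hβ : β ≠ 0) {B f g : F[X]} : conj2 α β B f = g ↔ C α * f + C β * g = B := by
  unfold conj2
  have h1 : C β * C β⁻¹ = (1 : F[X]) := by rw [← C_mul, mul_inv_cancel₀ hβ, C_1]
  have h2 : C β⁻¹ * C β = (1 : F[X]) := by rw [← C_mul, inv_mul_cancel₀ hβ, C_1]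
  constructor
  · rintro rfl
    calc C α * f + C β * (C β⁻¹ * (B - C α * f)) = C α * f + (C β * C β⁻¹) * (B - C α * f) := by ring
      _ = B := by rw [h1]; ring
  · intro h
    rw [← h]
    calc C β⁻¹ * (C α * f + C β * g - C α * f) = (C β⁻¹ * C β) * g := by ring
      _ = g := by rw [h2, one_mul]

theorem conj2_invol {α β : F} (hα : α ≠ 0) (hβ : β ≠ 0) (B f : F[X]) :
    conj2 β α B (conj2 α β B f) = f := by
  rw [conj2_eq hα]
  have h := (conj2_eq (α := α) hβ (B := B) (f := f) (g := conj2 α β B f)).mp rfl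
  rw [add_comm]
  exact h

theorem conj2_add {α β : F} (B h f : F[X]) : conj2 α β (B + h) f = conj2 α β B f + C β⁻¹ * h := by
  unfold conj2
  ring

theorem conj2_mem {α β : F} (hβ : β ≠ 0) {n : ℕ} {B : F[X]}
    (hB : (B - C (α + β) * X ^ n).degree < (n : WithBot ℕ)) {f : F[X]} (hf : f ∈ Mon F n) :
    conj2 α β B f ∈ Mon F n := by
  rw [mem_Mon] at hf
  have h2 : C β⁻¹ * C β = (1 : F[X]) := by rw [← C_mul, inv_mul_cancel₀ hβ, C_1]
  -- the difference from `X ^ n` is small
  have hfd : (f - X ^ n).degree < (n : WithBot ℕ) := by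
    have h1 : (f - X ^ n).degree < f.degree := by
      refine degree_sub_lt_left ?_ hf.1.ne_zero ?_
      · rw [degree_X_pow, degree_eq_natDegree hf.1.ne_zero, hf.2]
      · rw [hf.1.leadingCoeff, (monic_X_pow n).leadingCoeff]
    rwa [degree_eq_natDegree hf.1.ne_zero, hf.2] at h1
  have e : conj2 α β B f = X ^ n + C β⁻¹ * ((B - C (α + β) * X ^ n) - C α * (f - X ^ n)) := by
    unfold conj2
    rw [C_add]
    calc C β⁻¹ * (B - C α * f) = (C β⁻¹ * C β) * X ^ n - X ^ n + C β⁻¹ * (B - C α * f)  := by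
          rw [h2]; ring
      _ = X ^ n + C β⁻¹ * (B - (C α + C β) * X ^ n - C α * (f - X ^ n)) + (2 * (C β⁻¹ * C β) - 2) * X ^ n := by
          ring
      _ = _ := by rw [h2]; ring
  have hsmall : (C β⁻¹ * ((B - C (α + β) * X ^ n) - C α * (f - X ^ n))).degree < (n : WithBot ℕ) := by
    have hC : ∀ (c : F) (x : F[X]), x.degree < (n : WithBot ℕ) → (C c * x).degree < (n : WithBot ℕ) := by
      intro c x hx
      exact lt_of_le_of_lt (deg_C_mul_le c x) hx
    apply hC
    exact lt_of_le_of_lt (degree_sub_le _ _) (max_lt hB (hC _ _ hfd))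
  rw [e, mem_Mon]
  exact ⟨monic_X_pow_add hsmall, by
    rw [natDegree_add_eq_left_of_degree_lt (by rw [degree_X_pow]; exact hsmall), natDegree_X_pow]⟩

theorem sum_PL_scale {R : Type} [AddCommMonoid R] {m : ℕ} {c : F} (hc : c ≠ 0) (φ : F[X] → R) :
    ∑ h ∈ PL F m, φ (C c * h) = ∑ h ∈ PL F m, φ h := by
  have h1 : C c * C c⁻¹ = (1 : F[X]) := by rw [← C_mul, mul_inv_cancel₀ hc, C_1]
  refine sum_bij (fun h _ => C c * h) ?_ ?_ ?_ (fun _ _ => rfl)
  · intro h hh
    rw [mem_PL] at hh ⊢
    exact lt_of_le_of_lt (deg_C_mul_le c h) hh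
  · intro a _ b _ h
    exact mul_left_cancel₀ (by simpa using hc) h
  · intro h hh
    rw [mem_PL] at hh
    refine ⟨C c⁻¹ * h, ?_, ?_⟩
    · rw [mem_PL]
      exact lt_of_le_of_lt (deg_C_mul_le c⁻¹ h) hh
    · rw [← mul_assoc, h1, one_mul]

/-- the dispersion inequality for the binary problem -/
theorem disp_affine {n m : ℕ} {E : F[X] → ℝ} {V : ℝ}
    (h : ∀ w : F[X] → ℂ, ∑ c, ‖∑ f ∈ Mon F n, w f * (E (f + inc m c) : ℂ)‖ ^ 2 ≤
      V * ∑ f ∈ Mon F n, ‖w f‖ ^ 2) {α β : F} (hα : α ≠ 0) (hβ : β ≠ 0) {B : F[X]}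
    (hB : (B - C (α + β) * X ^ n).degree < (n : WithBot ℕ)) (w : F[X] → ℂ) :
    ∑ h ∈ PL F m, ‖∑ f ∈ Mon F n, w f * (E (conj2 α β (B + h) f) : ℂ)‖ ^ 2 ≤
      V * ∑ f ∈ Mon F n, ‖w f‖ ^ 2 := by
  have hB' : (B - C (β + α) * X ^ n).degree < (n : WithBot ℕ) := by rw [add_comm β α]; exact hB
  have hbij : ∀ {R : Type} [AddCommMonoid R] (φ : F[X] → R),
      ∑ f ∈ Mon F n, φ f = ∑ g ∈ Mon F n, φ (conj2 β α B g) := by
    intro R _ φ
    refine sum_bij' (i := fun f _ => conj2 α β B f) (j := fun g _ => conj2 β α B g) ?_ ?_ ?_ ?_ ?_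
    · intro f hf; exact conj2_mem hβ hB hf
    · intro g hg; exact conj2_mem hα hB' hg
    · intro f _; exact conj2_invol hα hβ B f
    · intro g _; exact conj2_invol hβ hα B g
    · intro f _; rw [conj2_invol hα hβ]
  have h1 := h (fun g => w (conj2 β α B g))
  rw [← hbij (fun f => ‖w f‖ ^ 2)] at h1
  refine le_trans (le_of_eq ?_) h1
  rw [sum_inc m (fun h => ‖∑ f ∈ Mon F n, w (conj2 β α B f) * (E (f + h) : ℂ)‖ ^ 2),
    ← sum_PL_scale (inv_ne_zero hβ) (fun h => ‖∑ f ∈ Mon F n, w (conj2 β α B f) * (E (f + h) : ℂ)‖ ^ 2)]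
  refine sum_congr rfl (fun h _ => ?_)
  rw [hbij (fun f => w f * (E (conj2 α β (B + h) f) : ℂ))]
  congr 2
  refine sum_congr rfl (fun g _ => ?_)
  rw [conj2_add, conj2_invol hβ hα]

theorem aP_unit {P : F[X]} {c : F} (hc : c ≠ 0) (x : F[X]) : aP P (C c * x) = aP P x := by
  unfold aP
  have h : P ∣ C c * x ↔ P ∣ x := by
    have hu : IsUnit (C c : F[X]) := isUnit_C.mpr (isUnit_iff_ne_zero.mpr hc)
    exact hu.dvd_mul_left
  simp only [h]

/-- the local sum of the binary problem -/
theorem local_binary {P : F[X]} (hP : P.Monic) (hPI : Irreducible P) {α β : F} (hα : α ≠ 0)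
    (hβ : β ≠ 0) (B : F[X]) :
    ∑ b ∈ PL F P.natDegree, aP P b * aP P (conj2 α β B b) =
      (Fintype.card F : ℝ) ^ P.natDegree * (-(gP P) * aP P B) := by
  have hn := norm_gt hPI
  have h1 : ∀ b : F[X], aP P (conj2 α β B b) = aP P (C (-α) * b + B) := by
    intro b
    unfold conj2
    rw [aP_unit (inv_ne_zero hβ)]
    congr 1
    rw [C_neg]
    ring
  have h2 : ∀ b ∈ PL F P.natDegree, aP P b = gP P - (if b = 0 then gP P + 1 else 0) := by
    intro b hb
    have h3 : P ∣ b ↔ b = 0 := by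
      constructor
      · intro h
        by_contra h0
        have h3 := degree_le_of_dvd h h0
        rw [mem_PL, ← degree_eq_natDegree hP.ne_zero] at hb
        exact absurd h3 (not_le.mpr hb)
      · rintro rfl; exact dvd_zero _
    unfold aP gP
    simp only [h3]
    have h4 : (Fintype.card F : ℝ) ^ P.natDegree - 1 ≠ 0 := by linarith
    split_ifs
    · field_simp
      ring
    · simp
  have h5 : ¬ P ∣ C (-α) := by
    intro h
    have hu : IsUnit (C (-α) : F[X]) := isUnit_C.mpr (isUnit_iff_ne_zero.mpr (neg_ne_zero.mpr hα))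
    exact hPI.not_isUnit (isUnit_of_dvd_unit h hu)
  have h6 := sum_aP_affine hP hPI h5 B
  calc ∑ b ∈ PL F P.natDegree, aP P b * aP P (conj2 α β B b)
      = ∑ b ∈ PL F P.natDegree, (gP P * aP P (C (-α) * b + B) -
          (if b = 0 then (gP P + 1) * aP P B else 0)) := by
        refine sum_congr rfl (fun b hb => ?_)
        rw [h1, h2 b hb]
        split_ifs with h0
        · rw [h0, mul_zero, zero_add]; ring
        · ring
    _ = -((gP P + 1) * aP P B) := by
        rw [sum_sub_distrib, ← mul_sum, h6, sum_ite_eq', if_pos (by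
          rw [mem_PL, degree_zero]; exact WithBot.bot_lt_coe _)]
        ring
    _ = _ := by
        unfold gP
        have h4 : (Fintype.card F : ℝ) ^ P.natDegree - 1 ≠ 0 := by linarith
        field_simp
        ring

/-- the truncated singular series of the binary problem -/
noncomputable def SB (r : ℕ) (B : F[X]) : ℝ := ∑ s ∈ SF F r, ∏ P ∈ s, (-(gP P) * aP P B)

/-- **The main term of the binary problem** -/
theorem main_binary {n r : ℕ} (hr : 2 * r ≤ n) {α β : F} (hα : α ≠ 0) (hβ : β ≠ 0) (B : F[X]) :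
    ∑ f ∈ Mon F n, Lb r f * Lb r (conj2 α β B f) = (Fintype.card F : ℝ) ^ n * SB r B := by
  rw [sum_Mon_eq n (fun f => Lb r f * Lb r (conj2 α β B f))]
  have h1 : ∀ x : F[X], Lb r x * Lb r (conj2 α β B x) = ∑ s ∈ SF F r, ∑ t ∈ SF F r,
      (∏ P ∈ s, aP P x) * (∏ P ∈ t, aP P (conj2 α β B x)) := by
    intro x
    unfold Lb
    rw [sum_mul_sum]
  simp only [h1]
  rw [sum_comm]
  unfold SB
  rw [mul_sum]
  refine sum_congr rfl (fun s hs => ?_)
  rw [sum_comm]
  have hs' := mem_SF.mp hs
  have h2 : ∀ t ∈ SF F r, ∑ g ∈ PL F n, (∏ P ∈ s, aP P (X ^ n + g)) *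
      (∏ P ∈ t, aP P (conj2 α β B (X ^ n + g))) =
      if s = t then (Fintype.card F : ℝ) ^ n * ∏ P ∈ s, (-(gP P) * aP P B) else 0 := by
    intro t ht
    have ht' := mem_SF.mp ht
    have hm : ∑ P ∈ s ∪ t, P.natDegree ≤ n := by
      have h5 := sum_union_inter (s₁ := s) (s₂ := t) (f := fun P : F[X] => P.natDegree)
      omega
    set φ : F[X] → F[X] → ℝ := fun P x => (if P ∈ s then aP P x else 1) *
      (if P ∈ t then aP P (conj2 α β B x) else 1) with hφ
    have hu : ∀ P ∈ s ∪ t, P.Monic ∧ Irreducible P := by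
      intro P hP
      rcases mem_union.mp hP with h | h
      · exact hs'.1 P h
      · exact ht'.1 P h
    have h3 : ∀ x : F[X], (∏ P ∈ s, aP P x) * (∏ P ∈ t, aP P (conj2 α β B x)) =
        ∏ P ∈ s ∪ t, φ P x := by
      intro x
      rw [hφ, prod_mul_distrib]
      congr 1
      · rw [prod_ite_mem]
        rw [union_inter_cancel_left]
      · rw [prod_ite_mem]
        rw [union_inter_cancel_right]
    simp only [h3]
    have hconj : ∀ P x y : F[X], P ∣ x - y → aP P (conj2 α β B x) = aP P (conj2 α β B y) := by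
      intro P x y hxy
      apply aP_periodic
      have : conj2 α β B x - conj2 α β B y = (C β⁻¹ * C (-α)) * (x - y) := by
        unfold conj2
        rw [C_neg]
        ring
      rw [this]
      exact hxy.mul_left _
    rw [independence hu hm φ (by
      intro P _ x y hxy
      simp only [hφ, aP_periodic hxy, hconj P x y hxy]) (X ^ n)]
    split_ifs with h
    · subst h
      rw [union_self]
      rw [union_self] at hm
      have h4 : ∀ P ∈ s, ∑ b ∈ PL F P.natDegree, φ P b = (Fintype.card F : ℝ) ^ P.natDegree *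
          (-(gP P) * aP P B) := by
        intro P hP
        simp only [hφ, if_pos hP]
        exact local_binary (hs'.1 P hP).1 (hs'.1 P hP).2 hα hβ B
      rw [prod_congr rfl h4, prod_mul_distrib, prod_pow_eq_pow_sum]
      push_cast
      rw [← mul_assoc, ← pow_add, Nat.sub_add_cancel hm]
    · -- some prime is in exactly one of the sets
      have h5 : ∃ P ∈ s ∪ t, ∑ b ∈ PL F P.natDegree, φ P b = 0 := by
        have : ∃ P, ¬ (P ∈ s ↔ P ∈ t) := by
          by_contra hcon
          push Not at hcon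
          exact h (Finset.ext hcon)
        obtain ⟨P, hP⟩ := this
        by_cases hPs : P ∈ s
        · have hPt : P ∉ t := fun h' => hP ⟨fun _ => h', fun _ => hPs⟩
          refine ⟨P, mem_union_left _ hPs, ?_⟩
          simp only [hφ, if_pos hPs, if_neg hPt, mul_one]
          exact sum_aP (hs'.1 P hPs).1 (hs'.1 P hPs).2
        · have hPt : P ∈ t := by
            by_contra hPt
            exact hP ⟨fun h' => absurd h' hPs, fun h' => absurd h' hPt⟩
          refine ⟨P, mem_union_right _ hPt, ?_⟩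
          simp only [hφ, if_neg hPs, if_pos hPt, one_mul]
          have h6 : ¬ P ∣ C (-α) := by
            intro h
            have hu : IsUnit (C (-α) : F[X]) :=
              isUnit_C.mpr (isUnit_iff_ne_zero.mpr (neg_ne_zero.mpr hα))
            exact (ht'.1 P hPt).2.not_isUnit (isUnit_of_dvd_unit h hu)
          rw [← sum_aP_affine (ht'.1 P hPt).1 (ht'.1 P hPt).2 h6 B]
          refine sum_congr rfl (fun b _ => ?_)
          unfold conj2
          rw [aP_unit (inv_ne_zero hβ)]
          congr 1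
          rw [C_neg]
          ring
      obtain ⟨P, hP, h6⟩ := h5
      rw [prod_eq_zero hP h6, mul_zero]
  rw [sum_congr rfl h2, sum_ite_eq, if_pos hs]

end Pool.Agent.H523.CM
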