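import Pool.Agent.H523.CM30
import Pool.Agent.H523.CM10

set_option autoImplicit false
set_option linter.unusedSectionVars false

/-! # The singular series of the binary problem -/

namespace Pool.Agent.H523.CM

open Polynomial Finset Filter
open Pool.Agent.H341R2.Sharp (Mon mem_Mon)
open Pool.Agent.H523.FF (Ir mem_Ir PL mem_PL card_PL two_le_card IrLE mem_IrLE irr_coprime PL_mod
  Ir_card sum_IrLE)

open scoped Classical Topology

variable {F : Type} [Field F] [Fintype F]

variable (F) in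
/-- the sets of primes of degree at most `y` with a product of degree `j` -/
noncomputable def SDj (y j : ℕ) : Finset (Finset F[X]) :=
  (IrLE F y).powerset.filter (fun s => ∑ P ∈ s, P.natDegree = j)

theorem mem_SDj {y j : ℕ} {s : Finset F[X]} : s ∈ SDj F y j ↔
    s ⊆ IrLE F y ∧ ∑ P ∈ s, P.natDegree = j := by
  unfold SDj
  rw [mem_filter, mem_powerset]

theorem SDj_prime {y j : ℕ} {s : Finset F[X]} (hs : s ∈ SDj F y j) :
    ∀ P ∈ s, P.Monic ∧ Irreducible P := by
  intro P hP
  have h := mem_IrLE.mp ((mem_SDj.mp hs).1 hP)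
  exact ⟨h.1, h.2.1⟩

/-- the local term of the binary problem -/
noncomputable def cB (P B : F[X]) : ℝ := -(gP P) * aP P B

/-- the part of the singular series of degree `j` -/
noncomputable def Blk (y j : ℕ) (B : F[X]) : ℝ := ∑ s ∈ SDj F y j, ∏ P ∈ s, cB P B

theorem gP_le_one {P : F[X]} (hP : Irreducible P) : gP P ≤ 1 := by
  have hq := two_le_card (F := F)
  have h2 : (Fintype.card F : ℝ) ^ 1 ≤ (Fintype.card F : ℝ) ^ P.natDegree :=
    pow_le_pow_right₀ (by linarith) hP.natDegree_pos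
  rw [pow_one] at h2
  unfold gP
  rw [div_le_one (by linarith)]
  linarith

theorem gP_eq {P : F[X]} (hP : Irreducible P) :
    gP P = (1 + gP P) / (Fintype.card F : ℝ) ^ P.natDegree := by
  have hn := norm_gt hP
  unfold gP
  have h1 : (Fintype.card F : ℝ) ^ P.natDegree - 1 ≠ 0 := by linarith
  have h2 : (Fintype.card F : ℝ) ^ P.natDegree ≠ 0 := by linarith
  field_simp
  ring

theorem cB_values {P : F[X]} (hP : Irreducible P) (B : F[X]) :
    cB P B = if P ∣ B then gP P else -(gP P) ^ 2 := by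
  have hn := norm_gt hP
  unfold cB aP gP
  have h1 : (Fintype.card F : ℝ) ^ P.natDegree - 1 ≠ 0 := by linarith
  split_ifs
  · field_simp
    ring
  · field_simp
    ring

theorem IrLE_zero : IrLE F 0 = ∅ := by
  ext P
  rw [mem_IrLE]
  simp only [notMem_empty, iff_false]
  rintro ⟨_, h2, h3⟩
  have := h2.natDegree_pos
  omega

theorem sum_gP_sq (z : ℕ) : ∑ P ∈ IrLE F z, (gP P) ^ 2 ≤ 4 := by
  have hq := two_le_card (F := F)
  have h1 := sum_sq_inv (F := F) 0 z
  rw [IrLE_zero, sdiff_empty, pow_zero, div_one] at h1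
  calc ∑ P ∈ IrLE F z, (gP P) ^ 2
      ≤ ∑ P ∈ IrLE F z, 4 * (1 / ((Fintype.card F : ℝ) ^ P.natDegree) ^ 2) := by
        refine sum_le_sum (fun P hP => ?_)
        have hPI := (mem_IrLE.mp hP).2.1
        have hn := norm_gt hPI
        rw [gP_eq hPI, div_pow]
        rw [mul_one_div]
        apply div_le_div_of_nonneg_right _ (by positivity)
        have h2 := gP_le_one hPI
        have h3 := gP_pos hPI
        nlinarith
    _ = 4 * ∑ P ∈ IrLE F z, 1 / ((Fintype.card F : ℝ) ^ P.natDegree) ^ 2 := by rw [mul_sum]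
    _ ≤ 4 := by linarith

/-- the sums of the cubes of `gP` over a block -/
theorem block_sum {y j : ℕ} :
    ∑ s ∈ SDj F y j, ∏ P ∈ s, (gP P * (1 + gP P) ^ 2) ≤ Real.exp 11 * (j + 1) := by
  have hsub : SDj F y j ⊆ (IrLE F (j + 1)).powerset := by
    intro s hs
    rw [mem_powerset]
    intro P hP
    have h1 := SDj_prime hs P hP
    rw [mem_IrLE]
    refine ⟨h1.1, h1.2, ?_⟩
    have h2 : P.natDegree ≤ ∑ P ∈ s, P.natDegree :=
      single_le_sum (f := fun P : F[X] => P.natDegree) (fun _ _ => Nat.zero_le _) hP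
    rw [(mem_SDj.mp hs).2] at h2
    omega
  calc ∑ s ∈ SDj F y j, ∏ P ∈ s, (gP P * (1 + gP P) ^ 2)
      ≤ ∑ s ∈ (IrLE F (j + 1)).powerset, ∏ P ∈ s, (gP P * (1 + gP P) ^ 2) := by
        apply sum_le_sum_of_subset_of_nonneg hsub
        intro s hs _
        refine prod_nonneg (fun P hP => ?_)
        have := gP_pos (mem_IrLE.mp (mem_powerset.mp hs hP)).2.1
        positivity
    _ = ∏ P ∈ IrLE F (j + 1), (1 + gP P * (1 + gP P) ^ 2) := by rw [prod_one_add]
    _ ≤ ∏ P ∈ IrLE F (j + 1), ((1 + gP P) * (1 + 2 * (gP P) ^ 2)) := by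
        refine prod_le_prod (fun P hP => ?_) (fun P hP => ?_)
        · have := gP_pos (mem_IrLE.mp hP).2.1
          positivity
        · have := gP_pos (mem_IrLE.mp hP).2.1
          have h3 : 0 < gP P ^ 3 := by positivity
          nlinarith
    _ = (∏ P ∈ IrLE F (j + 1), (1 + gP P)) * ∏ P ∈ IrLE F (j + 1), (1 + 2 * (gP P) ^ 2) := by
        rw [prod_mul_distrib]
    _ ≤ (Real.exp 3 * (j + 1)) * Real.exp 8 := by
        apply mul_le_mul
        · have := mertens (F := F) (z := j + 1) (by omega)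
          push_cast at this
          exact this
        · calc ∏ P ∈ IrLE F (j + 1), (1 + 2 * (gP P) ^ 2)
              ≤ ∏ P ∈ IrLE F (j + 1), Real.exp (2 * (gP P) ^ 2) := by
                refine prod_le_prod (fun P hP => by positivity) (fun P hP => ?_)
                have := Real.add_one_le_exp (2 * (gP P) ^ 2)
                linarith
            _ = Real.exp (2 * ∑ P ∈ IrLE F (j + 1), (gP P) ^ 2) := by
                rw [← Real.exp_sum, mul_sum]
            _ ≤ Real.exp 8 := by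
                apply Real.exp_le_exp.mpr
                have := sum_gP_sq (F := F) (j + 1)
                linarith
        · exact prod_nonneg (fun P _ => by positivity)
        · positivity
    _ = Real.exp 11 * (j + 1) := by
        have : Real.exp 11 = Real.exp 3 * Real.exp 8 := by
          rw [← Real.exp_add]; norm_num
        rw [this]
        ring

theorem sum_cube {y j : ℕ} : ∑ s ∈ SDj F y j, ∏ P ∈ s, (gP P) ^ 3 ≤
    Real.exp 11 * (j + 1) / (Fintype.card F : ℝ) ^ (2 * j) := by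
  have hq := two_le_card (F := F)
  have hq0 : (0:ℝ) < (Fintype.card F : ℝ) := by linarith
  rw [le_div_iff₀ (by positivity)]
  refine le_trans (le_of_eq ?_) (block_sum (F := F) (y := y) (j := j))
  rw [sum_mul]
  refine sum_congr rfl (fun s hs => ?_)
  have e : (Fintype.card F : ℝ) ^ (2 * j) = ∏ P ∈ s, ((Fintype.card F : ℝ) ^ P.natDegree) ^ 2 := by
    rw [prod_pow, prod_pow_eq_pow_sum, (mem_SDj.mp hs).2, ← pow_mul, mul_comm]
  rw [e, ← prod_mul_distrib]
  refine prod_congr rfl (fun P hP => ?_)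
  have hPI := (SDj_prime hs P hP).2
  have hn := norm_gt hPI
  have h1 := gP_eq hPI
  have h2 : 1 + gP P = gP P * (Fintype.card F : ℝ) ^ P.natDegree := by
    rw [eq_div_iff (by positivity)] at h1
    exact h1.symm
  rw [h2]
  ring

theorem sum_square {y j : ℕ} : ∑ s ∈ SDj F y j, ∏ P ∈ s, (gP P) ^ 2 ≤
    Real.exp 11 * (j + 1) / (Fintype.card F : ℝ) ^ j := by
  have hq := two_le_card (F := F)
  have hq0 : (0:ℝ) < (Fintype.card F : ℝ) := by linarith
  rw [le_div_iff₀ (by positivity)]
  refine le_trans ?_ (block_sum (F := F) (y := y) (j := j))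
  rw [sum_mul]
  refine sum_le_sum (fun s hs => ?_)
  have e : (Fintype.card F : ℝ) ^ j = ∏ P ∈ s, (Fintype.card F : ℝ) ^ P.natDegree := by
    rw [prod_pow_eq_pow_sum, (mem_SDj.mp hs).2]
  rw [e, ← prod_mul_distrib]
  refine prod_le_prod (fun P hP => ?_) (fun P hP => ?_)
  · positivity
  · have hPI := (SDj_prime hs P hP).2
    have hn := norm_gt hPI
    have h1 := gP_eq hPI
    have h0 := gP_pos hPI
    have h2 : 1 + gP P = gP P * (Fintype.card F : ℝ) ^ P.natDegree := by
      rw [eq_div_iff (by positivity)] at h1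
      exact h1.symm
    calc gP P ^ 2 * (Fintype.card F : ℝ) ^ P.natDegree
        = gP P * (gP P * (Fintype.card F : ℝ) ^ P.natDegree) := by ring
      _ = gP P * (1 + gP P) := by rw [← h2]
      _ ≤ gP P * (1 + gP P) ^ 2 := by
          apply mul_le_mul_of_nonneg_left _ h0.le
          nlinarith

/-- the mean square of a combination of the Ramanujan sums -/
theorem weighted_sq_real {𝒮 : Finset (Finset F[X])} (h𝒮 : ∀ s ∈ 𝒮, ∀ P ∈ s, P.Monic ∧ Irreducible P)
    {m : ℕ} (hm : ∀ s ∈ 𝒮, ∀ t ∈ 𝒮, ∑ P ∈ s ∪ t, P.natDegree ≤ m) (w : Finset F[X] → ℝ) (f : F[X]) :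
    ∑ g ∈ PL F m, (∑ s ∈ 𝒮, w s * ∏ P ∈ s, aP P (f + g)) ^ 2 =
      (Fintype.card F : ℝ) ^ m * ∑ s ∈ 𝒮, w s ^ 2 * ∏ P ∈ s, gP P := by
  have h1 : ∀ g : F[X], (∑ s ∈ 𝒮, w s * ∏ P ∈ s, aP P (f + g)) ^ 2 = ∑ s ∈ 𝒮, ∑ t ∈ 𝒮,
      (w s * w t) * ((∏ P ∈ s, aP P (f + g)) * (∏ P ∈ t, aP P (f + g))) := by
    intro g
    rw [sq, sum_mul_sum]
    exact sum_congr rfl (fun s _ => sum_congr rfl (fun t _ => by ring))
  simp only [h1]
  rw [sum_comm, mul_sum]
  refine sum_congr rfl (fun s hs => ?_)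
  rw [sum_comm]
  have h2 : ∀ t ∈ 𝒮, ∑ g ∈ PL F m, (w s * w t) *
      ((∏ P ∈ s, aP P (f + g)) * (∏ P ∈ t, aP P (f + g))) =
      if s = t then (w s * w t) * ((Fintype.card F : ℝ) ^ m * ∏ P ∈ s, gP P) else 0 := by
    intro t ht
    rw [← mul_sum, orthogonality (h𝒮 s hs) (h𝒮 t ht) (hm s hs t ht) f]
    split_ifs
    · rfl
    · simp
  rw [sum_congr rfl h2, sum_ite_eq, if_pos hs]
  ring

/-- **The mean square of a block over a disc** -/
theorem Blk_sq {m y j : ℕ} (hmj : m ≤ 2 * j) (B : F[X]) :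
    ∑ h ∈ PL F m, (Blk y j (B + h)) ^ 2 ≤ Real.exp 11 * (j + 1) := by
  have hq := two_le_card (F := F)
  have hq0 : (0:ℝ) < (Fintype.card F : ℝ) := by linarith
  have hsub : PL F m ⊆ PL F (2 * j) := by
    intro h hh
    rw [mem_PL] at hh ⊢
    exact lt_of_lt_of_le hh (by exact_mod_cast hmj)
  have h1 : ∀ h : F[X], Blk y j (B + h) =
      ∑ s ∈ SDj F y j, (∏ P ∈ s, -(gP P)) * ∏ P ∈ s, aP P (B + h) := by
    intro h
    unfold Blk cB
    exact sum_congr rfl (fun s _ => prod_mul_distrib)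
  calc ∑ h ∈ PL F m, (Blk y j (B + h)) ^ 2
      ≤ ∑ h ∈ PL F (2 * j), (Blk y j (B + h)) ^ 2 :=
        sum_le_sum_of_subset_of_nonneg hsub (fun _ _ _ => sq_nonneg _)
    _ = (Fintype.card F : ℝ) ^ (2 * j) *
          ∑ s ∈ SDj F y j, (∏ P ∈ s, -(gP P)) ^ 2 * ∏ P ∈ s, gP P := by
        rw [← weighted_sq_real (fun s hs => SDj_prime hs) (m := 2 * j) (fun s hs t ht => by
          have h2 := (mem_SDj.mp hs).2
          have h3 := (mem_SDj.mp ht).2
          have h4 := sum_union_inter (s₁ := s) (s₂ := t) (f := fun P : F[X] => P.natDegree)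
          omega) (fun s => ∏ P ∈ s, -(gP P)) B]
        exact sum_congr rfl (fun h _ => by rw [h1])
    _ = (Fintype.card F : ℝ) ^ (2 * j) * ∑ s ∈ SDj F y j, ∏ P ∈ s, (gP P) ^ 3 := by
        congr 1
        refine sum_congr rfl (fun s _ => ?_)
        rw [← prod_pow, ← prod_mul_distrib]
        exact prod_congr rfl (fun P _ => by ring)
    _ ≤ (Fintype.card F : ℝ) ^ (2 * j) * (Real.exp 11 * (j + 1) / (Fintype.card F : ℝ) ^ (2 * j)) :=
        mul_le_mul_of_nonneg_left sum_cube (by positivity)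
    _ = _ := by field_simp

/-- **The pointwise bound for a block** -/
theorem Blk_abs {n y j : ℕ} {B : F[X]} (hB0 : B ≠ 0) (hB : B.natDegree ≤ n) :
    |Blk y j B| ≤ (Fintype.card F : ℝ) ^ n * (Real.exp 11 * (j + 1) / (Fintype.card F : ℝ) ^ j) := by
  have hq := two_le_card (F := F)
  have hq0 : (0:ℝ) < (Fintype.card F : ℝ) := by linarith
  calc |Blk y j B| ≤ ∑ s ∈ SDj F y j, |∏ P ∈ s, cB P B| := abs_sum_le_sum_abs _ _
    _ ≤ ∑ s ∈ SDj F y j, (Fintype.card F : ℝ) ^ n * ∏ P ∈ s, (gP P) ^ 2 := by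
        refine sum_le_sum (fun s hs => ?_)
        have hsp := SDj_prime hs
        rw [abs_prod]
        have h1 : ∀ P ∈ s, |cB P B| ≤ (gP P) ^ 2 * (if P ∣ B then (Fintype.card F : ℝ) ^ P.natDegree
            else 1) := by
          intro P hP
          have hPI := (hsp P hP).2
          have h0 := gP_pos hPI
          have hn := norm_gt hPI
          rw [cB_values hPI]
          split_ifs
          · rw [abs_of_pos h0]
            have h2 := gP_eq hPI
            rw [eq_div_iff (by positivity)] at h2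
            nlinarith
          · rw [abs_neg, abs_of_pos (by positivity), mul_one]
        refine (prod_le_prod (fun P _ => abs_nonneg _) h1).trans ?_
        rw [prod_mul_distrib, mul_comm]
        apply mul_le_mul_of_nonneg_right _ (prod_nonneg (fun P _ => by positivity))
        rw [← prod_filter, prod_pow_eq_pow_sum]
        apply pow_le_pow_right₀ (by linarith)
        have h2 : ∀ P ∈ s.filter (fun P => P ∣ B), P.Monic ∧ Irreducible P := fun P hP =>
          hsp P (mem_filter.mp hP).1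
        rw [← natDegree_pr h2]
        refine le_trans (natDegree_le_of_dvd ?_ hB0) hB
        rw [prod_dvd_iff h2]
        exact fun P hP => (mem_filter.mp hP).2
    _ = (Fintype.card F : ℝ) ^ n * ∑ s ∈ SDj F y j, ∏ P ∈ s, (gP P) ^ 2 := by rw [mul_sum]
    _ ≤ _ := mul_le_mul_of_nonneg_left sum_square (by positivity)

/-- the partial products of the singular series -/
noncomputable def SP (y : ℕ) (B : F[X]) : ℝ := ∏ P ∈ IrLE F y, (1 + cB P B)

theorem SP_eq {y J : ℕ} (hJ : ∑ P ∈ IrLE F y, P.natDegree ≤ J) (B : F[X]) :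
    SP y B = ∑ j ∈ range (J + 1), Blk y j B := by
  unfold SP Blk SDj
  rw [prod_one_add]
  refine (sum_fiberwise_of_maps_to (fun s hs => ?_) _).symm
  rw [mem_powerset] at hs
  rw [mem_range]
  have : ∑ P ∈ s, P.natDegree ≤ ∑ P ∈ IrLE F y, P.natDegree := sum_le_sum_of_subset hs
  omega

theorem SB_eq {y r : ℕ} (hry : r ≤ y) (B : F[X]) :
    SB r B = ∑ j ∈ range (r + 1), Blk y j B := by
  unfold SB Blk
  have h1 : SF F r = (range (r + 1)).biUnion (fun j => SDj F y j) := by
    ext s
    rw [mem_SF, mem_biUnion]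
    constructor
    · rintro ⟨h1, h2⟩
      refine ⟨∑ P ∈ s, P.natDegree, mem_range.mpr (by omega), mem_SDj.mpr ⟨?_, rfl⟩⟩
      intro P hP
      rw [mem_IrLE]
      refine ⟨(h1 P hP).1, (h1 P hP).2, ?_⟩
      have h3 : P.natDegree ≤ ∑ P ∈ s, P.natDegree :=
        single_le_sum (f := fun P : F[X] => P.natDegree) (fun _ _ => Nat.zero_le _) hP
      omega
    · rintro ⟨j, hj, hs⟩
      rw [mem_range] at hj
      refine ⟨SDj_prime hs, ?_⟩
      have := (mem_SDj.mp hs).2
      omega
  rw [h1, sum_biUnion]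
  · rfl
  · intro i _ j _ hij
    rw [Function.onFun, Finset.disjoint_left]
    intro s hs ht
    exact hij ((mem_SDj.mp hs).2.symm.trans (mem_SDj.mp ht).2)

theorem geom_tail (x : ℝ) (hx0 : 0 ≤ x) (hx : x ≤ 1 / 2) (a b : ℕ) (hab : a ≤ b) :
    ∑ j ∈ Finset.Ico a b, ((j:ℝ) + 1) * x ^ j ≤ 2 * (a + 2) * x ^ a := by
  have h : ∀ b, a ≤ b → ∑ j ∈ Finset.Ico a b, ((j:ℝ) + 1) * x ^ j ≤
      2 * (a + 2) * x ^ a - 2 * (b + 2) * x ^ b := by
    intro b hb
    induction b, hb using Nat.le_induction with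
    | base => simp
    | succ b hb ih =>
      rw [sum_Ico_succ_top hb]
      have h1 : 0 ≤ x ^ b := pow_nonneg hx0 b
      have h2 : x ^ (b + 1) ≤ x ^ b * (1 / 2) := by
        rw [pow_succ]
        exact mul_le_mul_of_nonneg_left hx h1
      push_cast
      have h3 : 0 ≤ (b:ℝ) := Nat.cast_nonneg b
      nlinarith
  have h1 := h b hab
  have h2 : 0 ≤ 2 * ((b:ℝ) + 2) * x ^ b := by positivity
  linarith

/-- **The tail of the singular series in mean square** -/
theorem tail_sq {n m r y : ℕ} (hn : 1 ≤ n) (hmn : m ≤ n) (hr : m < 2 * (r + 1)) (hrn : r ≤ n)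
    (hy : n ≤ y) (B : F[X]) (hB : B.natDegree ≤ n) :
    ∑ h ∈ (PL F m).filter (fun h => B + h ≠ 0), (SB r (B + h) - SP y (B + h)) ^ 2 ≤
      (160 * Real.exp 11 + 98 * Real.exp 22) * (n:ℝ) ^ 3 := by
  have hq := two_le_card (F := F)
  set q : ℝ := (Fintype.card F : ℝ) with hqd
  have hq0 : (0:ℝ) < q := by linarith
  have hnr : (1:ℝ) ≤ n := by exact_mod_cast hn
  set J := max (4 * n + 1) (∑ P ∈ IrLE F y, P.natDegree) with hJ
  have hJ1 : 4 * n + 1 ≤ J := le_max_left _ _
  have hsplit : ∀ B : F[X], SP y B - SB r B = ∑ j ∈ Finset.Ico (r + 1) (4 * n + 1), Blk y j B +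
      ∑ j ∈ Finset.Ico (4 * n + 1) (J + 1), Blk y j B := by
    intro B
    rw [SP_eq (le_max_right (4 * n + 1) _) B, SB_eq (le_trans hrn hy) B, ← hJ,
      sum_Ico_consecutive _ (by omega) (by omega), range_eq_Ico, range_eq_Ico,
      ← sum_Ico_consecutive _ (Nat.zero_le (r + 1)) (show r + 1 ≤ J + 1 by omega)]
    ring
  have hb : ∀ h ∈ (PL F m).filter (fun h => B + h ≠ 0),
      |∑ j ∈ Finset.Ico (4 * n + 1) (J + 1), Blk y j (B + h)| ≤ 7 * Real.exp 11 / q ^ n := by
    intro h hh
    rw [mem_filter, mem_PL] at hh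
    have hdeg : (B + h).natDegree ≤ n := by
      refine (natDegree_add_le _ _).trans (max_le hB ?_)
      exact natDegree_le_iff_degree_le.mpr (hh.1.le.trans (by exact_mod_cast hmn))
    calc |∑ j ∈ Finset.Ico (4 * n + 1) (J + 1), Blk y j (B + h)|
        ≤ ∑ j ∈ Finset.Ico (4 * n + 1) (J + 1), |Blk y j (B + h)| := abs_sum_le_sum_abs _ _
      _ ≤ ∑ j ∈ Finset.Ico (4 * n + 1) (J + 1), q ^ n * (Real.exp 11 * (j + 1) / q ^ j) :=
          sum_le_sum (fun j _ => Blk_abs hh.2 hdeg)
      _ = q ^ n * Real.exp 11 * ∑ j ∈ Finset.Ico (4 * n + 1) (J + 1), ((j:ℝ) + 1) * (1 / q) ^ j := by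
          rw [mul_sum]
          refine sum_congr rfl (fun j _ => ?_)
          rw [one_div_pow]
          field_simp
      _ ≤ q ^ n * Real.exp 11 * (2 * (((4 * n + 1 : ℕ) : ℝ) + 2) * (1 / q) ^ (4 * n + 1)) := by
          apply mul_le_mul_of_nonneg_left _ (by positivity)
          exact geom_tail _ (by positivity) (one_div_le_one_div_of_le (by norm_num) hq) _ _ (by omega)
      _ = Real.exp 11 * ((4 * n + 3) * 2) / (q * (q ^ n * q ^ (2 * n))) := by
          rw [one_div_pow]
          have e : q ^ (4 * n + 1) = q ^ n * (q * (q ^ n * q ^ (2 * n))) := by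
            rw [← pow_add, ← pow_succ', ← pow_add]
            congr 1
            omega
          rw [e]
          push_cast
          field_simp
          ring
      _ ≤ 7 * Real.exp 11 / q ^ n := by
          rw [div_le_div_iff₀ (by positivity) (by positivity)]
          have h1 : (n:ℝ) ≤ q ^ (2 * n) := by
            have h2 : (n:ℝ) ≤ 2 ^ n := by exact_mod_cast (Nat.lt_two_pow_self (n := n)).le
            have h3 : (2:ℝ) ^ n ≤ q ^ n := pow_le_pow_left₀ (by norm_num) hq n
            have h4 : q ^ n ≤ q ^ (2 * n) := pow_le_pow_right₀ (by linarith) (by omega)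
            linarith
          have h5 : (4 * (n:ℝ) + 3) * 2 ≤ 7 * (q * q ^ (2 * n)) := by
            have h6 : (4 * (n:ℝ) + 3) ≤ 7 * q ^ (2 * n) := by linarith
            have h7 : 0 < q ^ (2 * n) := by positivity
            nlinarith
          calc Real.exp 11 * ((4 * n + 3) * 2) * q ^ n ≤
              Real.exp 11 * (7 * (q * q ^ (2 * n))) * q ^ n := by
                apply mul_le_mul_of_nonneg_right _ (by positivity)
                exact mul_le_mul_of_nonneg_left h5 (Real.exp_pos _).le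
            _ = _ := by ring
  have ha : ∑ h ∈ PL F m, (∑ j ∈ Finset.Ico (r + 1) (4 * n + 1), Blk y j (B + h)) ^ 2 ≤
      80 * Real.exp 11 * (n:ℝ) ^ 3 := by
    calc ∑ h ∈ PL F m, (∑ j ∈ Finset.Ico (r + 1) (4 * n + 1), Blk y j (B + h)) ^ 2
        ≤ ∑ h ∈ PL F m, (4 * n : ℝ) * ∑ j ∈ Finset.Ico (r + 1) (4 * n + 1), (Blk y j (B + h)) ^ 2 := by
          refine sum_le_sum (fun h _ => ?_)
          refine sq_sum_le_card_mul_sum_sq.trans ?_
          apply mul_le_mul_of_nonneg_right _ (sum_nonneg (fun _ _ => sq_nonneg _))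
          rw [Nat.card_Ico]
          have : 4 * n + 1 - (r + 1) ≤ 4 * n := by omega
          exact_mod_cast this
      _ = (4 * n : ℝ) * ∑ j ∈ Finset.Ico (r + 1) (4 * n + 1), ∑ h ∈ PL F m, (Blk y j (B + h)) ^ 2 := by
          rw [← mul_sum, sum_comm]
      _ ≤ (4 * n : ℝ) * ∑ j ∈ Finset.Ico (r + 1) (4 * n + 1), Real.exp 11 * (4 * n + 1) := by
          apply mul_le_mul_of_nonneg_left _ (by positivity)
          refine sum_le_sum (fun j hj => ?_)
          rw [Finset.mem_Ico] at hj
          refine (Blk_sq (by omega) B).trans ?_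
          apply mul_le_mul_of_nonneg_left _ (Real.exp_pos _).le
          have : (j:ℝ) ≤ 4 * n := by
            have : j ≤ 4 * n := by omega
            exact_mod_cast this
          linarith
      _ ≤ (4 * n : ℝ) * ((4 * n) * (Real.exp 11 * (4 * n + 1))) := by
          apply mul_le_mul_of_nonneg_left _ (by positivity)
          rw [sum_const, nsmul_eq_mul, Nat.card_Ico]
          apply mul_le_mul_of_nonneg_right _ (by positivity)
          have : 4 * n + 1 - (r + 1) ≤ 4 * n := by omega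
          exact_mod_cast this
      _ ≤ 80 * Real.exp 11 * (n:ℝ) ^ 3 := by
          have h1 : (4 * (n:ℝ) + 1) ≤ 5 * n := by linarith
          have h2 : 0 < Real.exp 11 := Real.exp_pos _
          calc (4 * n : ℝ) * ((4 * n) * (Real.exp 11 * (4 * n + 1)))
              = 16 * n ^ 2 * Real.exp 11 * (4 * n + 1) := by ring
            _ ≤ 16 * n ^ 2 * Real.exp 11 * (5 * n) := mul_le_mul_of_nonneg_left h1 (by positivity)
            _ = _ := by ring
  have e22 : Real.exp 22 = Real.exp 11 ^ 2 := by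
    rw [← Real.exp_nat_mul]; norm_num
  have hqn : 1 ≤ q ^ n := one_le_pow₀ (by linarith)
  calc ∑ h ∈ (PL F m).filter (fun h => B + h ≠ 0), (SB r (B + h) - SP y (B + h)) ^ 2
      ≤ ∑ h ∈ (PL F m).filter (fun h => B + h ≠ 0),
          (2 * (∑ j ∈ Finset.Ico (r + 1) (4 * n + 1), Blk y j (B + h)) ^ 2 +
            2 * (7 * Real.exp 11 / q ^ n) ^ 2) := by
        refine sum_le_sum (fun h hh => ?_)
        have h1 := hsplit (B + h)
        have h2 := hb h hh
        have h3 : (SB r (B + h) - SP y (B + h)) ^ 2 =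
            (∑ j ∈ Finset.Ico (r + 1) (4 * n + 1), Blk y j (B + h) +
              ∑ j ∈ Finset.Ico (4 * n + 1) (J + 1), Blk y j (B + h)) ^ 2 := by
          rw [← h1]; ring
        rw [h3]
        have h4 : (∑ j ∈ Finset.Ico (4 * n + 1) (J + 1), Blk y j (B + h)) ^ 2 ≤
            (7 * Real.exp 11 / q ^ n) ^ 2 := by
          rw [← sq_abs]
          exact pow_le_pow_left₀ (abs_nonneg _) h2 2
        nlinarith [sq_nonneg (∑ j ∈ Finset.Ico (r + 1) (4 * n + 1), Blk y j (B + h) -
              ∑ j ∈ Finset.Ico (4 * n + 1) (J + 1), Blk y j (B + h))]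
    _ = 2 * ∑ h ∈ (PL F m).filter (fun h => B + h ≠ 0),
          (∑ j ∈ Finset.Ico (r + 1) (4 * n + 1), Blk y j (B + h)) ^ 2 +
          ((PL F m).filter (fun h => B + h ≠ 0)).card * (2 * (7 * Real.exp 11 / q ^ n) ^ 2) := by
        rw [sum_add_distrib, ← mul_sum, sum_const, nsmul_eq_mul]
    _ ≤ 2 * (80 * Real.exp 11 * (n:ℝ) ^ 3) + q ^ n * (2 * (7 * Real.exp 11 / q ^ n) ^ 2) := by
        apply add_le_add
        · apply mul_le_mul_of_nonneg_left _ (by norm_num)
          refine le_trans ?_ ha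
          exact sum_le_sum_of_subset_of_nonneg (filter_subset _ _) (fun _ _ _ => sq_nonneg _)
        · apply mul_le_mul_of_nonneg_right _ (by positivity)
          calc (((PL F m).filter (fun h => B + h ≠ 0)).card : ℝ) ≤ ((PL F m).card : ℝ) := by
                exact_mod_cast card_filter_le _ _
            _ = q ^ m := by rw [card_PL, hqd]; push_cast; rfl
            _ ≤ q ^ n := pow_le_pow_right₀ (by linarith) hmn
    _ = 160 * Real.exp 11 * (n:ℝ) ^ 3 + 98 * Real.exp 22 / q ^ n := by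
        rw [e22]
        field_simp
        ring
    _ ≤ _ := by
        have h1 : 98 * Real.exp 22 / q ^ n ≤ 98 * Real.exp 22 := by
          apply div_le_self (by positivity) hqn
        have h2 : (1:ℝ) ≤ (n:ℝ) ^ 3 := one_le_pow₀ hnr
        have h3 : 0 < Real.exp 22 := Real.exp_pos _
        nlinarith

end Pool.Agent.H523.CM
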