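import Pool.Agent.H523.CM31

set_option autoImplicit false
set_option linter.unusedSectionVars false

/-! # The binary Goldbach problem in short intervals -/

namespace Pool.Agent.H523.CM

open Polynomial Finset Filter
open Pool.Agent.H341R2.Sharp (Mon mem_Mon)
open Pool.Agent.H523.FF (Ir mem_Ir PL mem_PL card_PL two_le_card IrLE mem_IrLE irr_coprime PL_mod
  Ir_card sum_IrLE)

open scoped Classical Topology

variable {F : Type} [Field F] [Fintype F]

theorem one_add_cB_nonneg {P : F[X]} (hP : Irreducible P) (B : F[X]) : 0 ≤ 1 + cB P B := by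
  have h1 := gP_pos hP
  have h2 := gP_le_one hP
  rw [cB_values hP]
  split_ifs
  · positivity
  · nlinarith

theorem one_add_cB_ge {P : F[X]} (hP : Irreducible P) (B : F[X]) : 1 - gP P ^ 2 ≤ 1 + cB P B := by
  have h1 := gP_pos hP
  rw [cB_values hP]
  split_ifs
  · nlinarith
  · linarith

theorem IrLE_mono {y y' : ℕ} (h : y ≤ y') : IrLE F y ⊆ IrLE F y' := by
  intro P hP
  rw [mem_IrLE] at hP ⊢
  exact ⟨hP.1, hP.2.1, hP.2.2.trans h⟩

theorem SP_nonneg (y : ℕ) (B : F[X]) : 0 ≤ SP y B :=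
  prod_nonneg (fun P hP => one_add_cB_nonneg (mem_IrLE.mp hP).2.1 B)

/-- **The singular series of the binary problem converges** -/
theorem SP_converges {B : F[X]} (hB0 : B ≠ 0) : ∃ S : ℝ, Tendsto (fun y => SP y B) atTop (𝓝 S) := by
  have hanti : Antitone (fun y => SP (y + B.natDegree) B) := by
    apply antitone_nat_of_succ_le
    intro y
    unfold SP
    rw [← prod_sdiff (IrLE_mono (F := F) (show y + B.natDegree ≤ y + 1 + B.natDegree by omega))]
    apply mul_le_of_le_one_left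
    · exact prod_nonneg (fun P hP => one_add_cB_nonneg (mem_IrLE.mp hP).2.1 B)
    · apply prod_le_one
      · intro P hP
        exact one_add_cB_nonneg (mem_sd.mp hP).2.1 B
      · intro P hP
        rw [mem_sd] at hP
        have h1 : ¬ P ∣ B := by
          intro h
          have := natDegree_le_of_dvd h hB0
          omega
        rw [cB_values hP.2.1, if_neg h1]
        have := sq_nonneg (gP P)
        linarith
  have hb : BddBelow (Set.range (fun y => SP (y + B.natDegree) B)) := by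
    refine ⟨0, ?_⟩
    rintro x ⟨y, rfl⟩
    exact SP_nonneg _ _
  exact ⟨_, (tendsto_add_atTop_iff_nat B.natDegree).mp (tendsto_atTop_ciInf hanti hb)⟩

theorem one_sub_sum_le_prod {ι : Type} (s : Finset ι) (x : ι → ℝ) (h : ∀ i ∈ s, 0 ≤ x i ∧ x i ≤ 1) :
    1 - ∑ i ∈ s, x i ≤ ∏ i ∈ s, (1 - x i) ∧ ∏ i ∈ s, (1 - x i) ≤ 1 := by
  induction s using Finset.induction_on with
  | empty => simp
  | insert a s ha ih =>
    have h1 := ih (fun i hi => h i (mem_insert_of_mem hi))
    have h2 := h a (mem_insert_self a s)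
    have h3 : 0 ≤ ∏ i ∈ s, (1 - x i) := prod_nonneg (fun i hi => by
      have := (h i (mem_insert_of_mem hi)).2
      linarith)
    rw [sum_insert ha, prod_insert ha]
    constructor
    · nlinarith [h1.1, h1.2, h2.1, h2.2]
    · nlinarith [h1.1, h1.2, h2.1, h2.2]

/-- **The lower bound for the singular series** -/
theorem SP_lower {B : F[X]} (hloc : Fintype.card F = 2 → ∀ P : F[X], P.Monic → P.natDegree = 1 → P ∣ B)
    {y : ℕ} (hy : 1 ≤ y) : 1 / 9 ≤ SP y B := by
  have hq := two_le_card (F := F)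
  have hq1 : 2 ≤ Fintype.card F := Fintype.one_lt_card
  set q : ℝ := (Fintype.card F : ℝ) with hqd
  have hq0 : 0 < q := by linarith
  have hsplit : SP y B = (∏ P ∈ IrLE F y \ IrLE F 1, (1 + cB P B)) * ∏ P ∈ IrLE F 1, (1 + cB P B) := by
    unfold SP
    rw [prod_sdiff (IrLE_mono hy)]
  have hA : ∀ κ : ℝ, 0 ≤ κ → (∀ P ∈ IrLE F y \ IrLE F 1, 1 + gP P ≤ κ) →
      1 - κ ^ 2 / q ≤ ∏ P ∈ IrLE F y \ IrLE F 1, (1 + cB P B) := by
    intro κ hκ0 hκ
    have h1 : ∑ P ∈ IrLE F y \ IrLE F 1, gP P ^ 2 ≤ κ ^ 2 / q := by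
      have h2 := sum_sq_inv (F := F) 1 y
      rw [pow_one] at h2
      calc ∑ P ∈ IrLE F y \ IrLE F 1, gP P ^ 2
          ≤ ∑ P ∈ IrLE F y \ IrLE F 1, κ ^ 2 * (1 / (q ^ P.natDegree) ^ 2) := by
            refine sum_le_sum (fun P hP => ?_)
            have hPI := (mem_sd.mp hP).2.1
            have hn := norm_gt hPI
            have h0 := gP_pos hPI
            rw [gP_eq hPI, div_pow, mul_one_div]
            apply div_le_div_of_nonneg_right _ (by positivity)
            exact pow_le_pow_left₀ (by linarith) (hκ P hP) 2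
        _ = κ ^ 2 * ∑ P ∈ IrLE F y \ IrLE F 1, 1 / (q ^ P.natDegree) ^ 2 := by rw [mul_sum]
        _ ≤ κ ^ 2 * (1 / q) := mul_le_mul_of_nonneg_left h2 (by positivity)
        _ = _ := by ring
    have h3 := (one_sub_sum_le_prod (IrLE F y \ IrLE F 1) (fun P => gP P ^ 2) (fun P hP => by
      have hPI := (mem_sd.mp hP).2.1
      have h1 := gP_pos hPI
      have h2 := gP_le_one hPI
      exact ⟨by positivity, by nlinarith⟩)).1
    calc 1 - κ ^ 2 / q ≤ 1 - ∑ P ∈ IrLE F y \ IrLE F 1, gP P ^ 2 := by linarith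
      _ ≤ _ := h3
      _ ≤ _ := prod_le_prod (fun P hP => by
          have hPI := (mem_sd.mp hP).2.1
          have h1 := gP_pos hPI
          have h2 := gP_le_one hPI
          nlinarith) (fun P hP => one_add_cB_ge (mem_sd.mp hP).2.1 B)
  -- the size of the primes of degree at least two
  have hsize : ∀ P ∈ IrLE F y \ IrLE F 1, q ^ 2 ≤ q ^ P.natDegree := by
    intro P hP
    exact pow_le_pow_right₀ (by linarith) (mem_sd.mp hP).2.2.1
  rw [hsplit]
  rcases Nat.lt_or_ge 2 (Fintype.card F) with h3 | h3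
  · -- at least three elements
    have hq3 : 3 ≤ q := by rw [hqd]; exact_mod_cast h3
    have h1 := hA (9 / 8) (by norm_num) (fun P hP => by
      have hPI := (mem_sd.mp hP).2.1
      have h4 : (9:ℝ) ≤ q ^ P.natDegree := le_trans (by nlinarith) (hsize P hP)
      unfold gP
      rw [← hqd]
      have h5 : 1 / (q ^ P.natDegree - 1) ≤ 1 / 8 :=
        one_div_le_one_div_of_le (by norm_num) (by linarith)
      linarith)
    have h2 : 1 / 4 ≤ ∏ P ∈ IrLE F 1, (1 + cB P B) := by
      have h4 := (one_sub_sum_le_prod (IrLE F 1) (fun P => gP P ^ 2) (fun P hP => by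
        have hPI := (mem_IrLE.mp hP).2.1
        have h1 := gP_pos hPI
        have h2 := gP_le_one hPI
        exact ⟨by positivity, by nlinarith⟩)).1
      have h5 : ∑ P ∈ IrLE F 1, gP P ^ 2 ≤ 3 / 4 := by
        have h6 : IrLE F 1 = Ir F 1 := by
          ext P
          rw [mem_IrLE, mem_Ir]
          constructor
          · rintro ⟨h7, h8, h9⟩
            exact ⟨h7, h8, by have := h8.natDegree_pos; omega⟩
          · rintro ⟨h7, h8, h9⟩
            exact ⟨h7, h8, h9.le⟩
        have h7 : ((Ir F 1).card : ℝ) ≤ q := by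
          have h8 := Ir_card (F := F) 1 one_pos
          rw [one_mul, pow_one] at h8
          rw [hqd]
          exact_mod_cast h8
        calc ∑ P ∈ IrLE F 1, gP P ^ 2 = ∑ P ∈ Ir F 1, (1 / (q - 1)) ^ 2 := by
              rw [h6]
              refine sum_congr rfl (fun P hP => ?_)
              unfold gP
              rw [(mem_Ir.mp hP).2.2, pow_one]
          _ = ((Ir F 1).card : ℝ) * (1 / (q - 1)) ^ 2 := by rw [sum_const, nsmul_eq_mul]
          _ ≤ q * (1 / (q - 1)) ^ 2 := mul_le_mul_of_nonneg_right h7 (by positivity)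
          _ ≤ 3 / 4 := by
              rw [one_div_pow, mul_one_div, div_le_div_iff₀ (by nlinarith) (by norm_num)]
              nlinarith
      calc (1:ℝ) / 4 ≤ 1 - ∑ P ∈ IrLE F 1, gP P ^ 2 := by linarith
        _ ≤ _ := h4
        _ ≤ _ := prod_le_prod (fun P hP => by
            have hPI := (mem_IrLE.mp hP).2.1
            have h1 := gP_pos hPI
            have h2 := gP_le_one hPI
            nlinarith) (fun P hP => one_add_cB_ge (mem_IrLE.mp hP).2.1 B)
    have h6 : (37:ℝ) / 64 ≤ 1 - (9 / 8) ^ 2 / q := by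
      have h7 : (9 / 8 : ℝ) ^ 2 / q ≤ (9 / 8) ^ 2 / 3 :=
        div_le_div_of_nonneg_left (by norm_num) (by norm_num) hq3
      norm_num at h7 ⊢
      linarith
    calc (1:ℝ) / 9 ≤ 37 / 64 * (1 / 4) := by norm_num
      _ ≤ _ := mul_le_mul (h6.trans h1) h2 (by norm_num) (by linarith)
  · have hc : Fintype.card F = 2 := by omega
    have hq2 : q = 2 := by rw [hqd, hc]; norm_num
    have h1 := hA (4 / 3) (by norm_num) (fun P hP => by
      have hPI := (mem_sd.mp hP).2.1
      have h4 : (4:ℝ) ≤ q ^ P.natDegree := le_trans (by nlinarith) (hsize P hP)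
      unfold gP
      rw [← hqd]
      have h5 : 1 / (q ^ P.natDegree - 1) ≤ 1 / 3 :=
        one_div_le_one_div_of_le (by norm_num) (by linarith)
      linarith)
    have h2 : 1 ≤ ∏ P ∈ IrLE F 1, (1 + cB P B) := by
      have h4 : ∀ P ∈ IrLE F 1, (1:ℝ) ≤ 1 + cB P B := by
        intro P hP
        rw [mem_IrLE] at hP
        rw [cB_values hP.2.1, if_pos (hloc hc P hP.1 (by have := hP.2.1.natDegree_pos; omega))]
        have := gP_pos hP.2.1
        linarith
      calc (1:ℝ) = ∏ P ∈ IrLE F 1, (1:ℝ) := by simp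
        _ ≤ _ := prod_le_prod (fun _ _ => zero_le_one) h4
    rw [hq2] at h1
    calc (1:ℝ) / 9 = (1 - (4 / 3) ^ 2 / 2) * 1 := by norm_num
      _ ≤ _ := mul_le_mul h1 h2 zero_le_one (le_trans (by norm_num) h1)

/-- the weighted number of the representations -/
noncomputable def TT (α β : F) (n : ℕ) (B : F[X]) : ℝ :=
  ∑ f ∈ Mon F n, th n f * th n (conj2 α β B f)

theorem sum_th_sq {n : ℕ} (hn : 1 ≤ n) : ∑ f ∈ Mon F n, th n f ^ 2 ≤ n * (Fintype.card F : ℝ) ^ n := by
  have h1 : ∑ f ∈ Mon F n, th n f ^ 2 = ∑ f ∈ (Mon F n).filter (fun f => f ∈ Ir F n), (n:ℝ) ^ 2 := by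
    rw [sum_filter]
    refine sum_congr rfl (fun f _ => ?_)
    unfold th
    split_ifs
    · rfl
    · simp
  rw [h1, sum_const, nsmul_eq_mul]
  have h2 : ((Mon F n).filter (fun f => f ∈ Ir F n)).card ≤ (Ir F n).card :=
    card_le_card (fun f hf => (mem_filter.mp hf).2)
  have h3 : ((n * (Ir F n).card : ℕ) : ℝ) ≤ ((Fintype.card F ^ n : ℕ) : ℝ) :=
    Nat.cast_le.mpr (Ir_card (F := F) n hn)
  push_cast at h3
  have h2' : (((Mon F n).filter (fun f => f ∈ Ir F n)).card : ℝ) ≤ ((Ir F n).card : ℝ) := by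
    exact_mod_cast h2
  calc (((Mon F n).filter (fun f => f ∈ Ir F n)).card : ℝ) * (n:ℝ) ^ 2
      ≤ ((Ir F n).card : ℝ) * (n:ℝ) ^ 2 := mul_le_mul_of_nonneg_right h2' (by positivity)
    _ = (n:ℝ) * ((n:ℝ) * ((Ir F n).card : ℝ)) := by ring
    _ ≤ _ := mul_le_mul_of_nonneg_left h3 (Nat.cast_nonneg _)

theorem sum_Lb_sq {n r : ℕ} (hn : 1 ≤ n) (hr : 2 * r ≤ n) :
    ∑ f ∈ Mon F n, Lb r f ^ 2 ≤ Real.exp 3 * n * (Fintype.card F : ℝ) ^ n := by
  have h1 := LS_sq_Mon (𝒮 := SF F r) (n := n) (fun s hs => (mem_SF.mp hs).1) (fun s hs t ht => by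
      have h2 := (mem_SF.mp hs).2
      have h3 := (mem_SF.mp ht).2
      have h4 := sum_union_inter (s₁ := s) (s₂ := t) (f := fun P : F[X] => P.natDegree)
      omega)
  have h2 : ∑ s ∈ SF F r, ∏ P ∈ s, gP P ≤ Real.exp 3 * (r + 1 : ℕ) := by
    apply sum_gP_le (by omega)
    intro s hs
    rw [mem_SF] at hs
    rw [mem_powerset]
    intro P hP
    rw [mem_IrLE]
    refine ⟨(hs.1 P hP).1, (hs.1 P hP).2, ?_⟩
    have h3 : P.natDegree ≤ ∑ P ∈ s, P.natDegree :=
      single_le_sum (f := fun P : F[X] => P.natDegree) (fun _ _ => Nat.zero_le _) hP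
    omega
  have h3 : ((r + 1 : ℕ) : ℝ) ≤ n := by
    have : r + 1 ≤ n := by omega
    exact_mod_cast this
  calc ∑ f ∈ Mon F n, Lb r f ^ 2 = (Fintype.card F : ℝ) ^ n * ∑ s ∈ SF F r, ∏ P ∈ s, gP P := h1
    _ ≤ (Fintype.card F : ℝ) ^ n * (Real.exp 3 * n) := by
        apply mul_le_mul_of_nonneg_left _ (by positivity)
        exact h2.trans (mul_le_mul_of_nonneg_left h3 (Real.exp_pos _).le)
    _ = _ := by ring

theorem conj2_bij {R : Type} [AddCommMonoid R] {α β : F} (hα : α ≠ 0) (hβ : β ≠ 0) {n : ℕ} {B : F[X]}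
    (hB : (B - C (α + β) * X ^ n).degree < (n : WithBot ℕ)) (φ : F[X] → R) :
    ∑ f ∈ Mon F n, φ f = ∑ g ∈ Mon F n, φ (conj2 β α B g) := by
  have hB' : (B - C (β + α) * X ^ n).degree < (n : WithBot ℕ) := by rw [add_comm β α]; exact hB
  refine sum_bij' (i := fun f _ => conj2 α β B f) (j := fun g _ => conj2 β α B g) ?_ ?_ ?_ ?_ ?_
  · intro f hf; exact conj2_mem hβ hB hf
  · intro g hg; exact conj2_mem hα hB' hg
  · intro f _; exact conj2_invol hα hβ B f
  · intro g _; exact conj2_invol hβ hα B g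
  · intro f _; rw [conj2_invol hα hβ]

/-- **The circle method for the binary problem** -/
theorem binary_sq {n m r : ℕ} (hn : 1 ≤ n) (hrm : 2 * r ≤ m) (hmn : m ≤ n) {α β : F} (hα : α ≠ 0)
    (hβ : β ≠ 0) {B : F[X]} (hB : (B - C (α + β) * X ^ n).degree < (n : WithBot ℕ)) :
    ∑ h ∈ PL F m, (TT α β n (B + h) - (Fintype.card F : ℝ) ^ n * SB r (B + h)) ^ 2 ≤
      2 * (1 + Real.exp 3) * n * (n + 5) ^ 2 * (Fintype.card F : ℝ) ^ (2 * n + m - r) := by
  have hq := two_le_card (F := F)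
  set q : ℝ := (Fintype.card F : ℝ) with hqd
  have hq0 : 0 < q := by linarith
  have hrn : r < n := by omega
  have hB' : (B - C (β + α) * X ^ n).degree < (n : WithBot ℕ) := by rw [add_comm β α]; exact hB
  set V : ℝ := ((n : ℝ) + 5) ^ 2 * q ^ (n + m - r) with hV
  have hS : ∀ (c : Fin m → F) (f : F[X]), f + inc m c ∈ Mon F n ↔ f ∈ Mon F n := fun c f =>
    Mon_shift hmn _ _ (mem_PL.mp (inc_mem c))
  have hd : ∀ w : F[X] → ℂ, ∑ c, ‖∑ f ∈ Mon F n, w f *
      ((th n (f + inc m c) - Lb r (f + inc m c) : ℝ) : ℂ)‖ ^ 2 ≤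
      V * ∑ f ∈ Mon F n, ‖w f‖ ^ 2 := by
    intro w
    exact dispersion (inc (F := F) m) (Mon F n)
      hS w (fun x => ((th n x - Lb r x : ℝ) : ℂ)) _ (fun ψ => V_bound hrm hmn hrn ψ)
  have real_form : ∀ (s : Finset F[X]) (u v : F[X] → ℝ), ‖∑ f ∈ s, ((u f : ℝ) : ℂ) * ((v f : ℝ) : ℂ)‖ ^ 2 =
      (∑ f ∈ s, u f * v f) ^ 2 := by
    intro s u v
    have e : ∑ f ∈ s, ((u f : ℝ) : ℂ) * ((v f : ℝ) : ℂ) = ((∑ f ∈ s, u f * v f : ℝ) : ℂ) := by
      push_cast
      rfl
    rw [e, Complex.norm_real, Real.norm_eq_abs, sq_abs]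
  have d1 := disp_affine (E := fun x => th n x - Lb r x) hd hα hβ hB (fun f => ((th n f : ℝ) : ℂ))
  have d2 := disp_affine (E := fun x => th n x - Lb r x) hd hβ hα hB' (fun f => ((Lb r f : ℝ) : ℂ))
  simp only [real_form, Complex.norm_real, Real.norm_eq_abs, sq_abs] at d1 d2
  have e1 : ∀ h ∈ PL F m, TT α β n (B + h) - q ^ n * SB r (B + h) =
      ∑ f ∈ Mon F n, th n f * (th n (conj2 α β (B + h) f) - Lb r (conj2 α β (B + h) f)) +
      ∑ f ∈ Mon F n, Lb r f * (th n (conj2 β α (B + h) f) - Lb r (conj2 β α (B + h) f)) := by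
    intro h hh
    rw [mem_PL] at hh
    have hBh : (B + h - C (α + β) * X ^ n).degree < (n : WithBot ℕ) := by
      have e2 : B + h - C (α + β) * X ^ n = (B - C (α + β) * X ^ n) + h := by ring
      rw [e2]
      exact lt_of_le_of_lt (degree_add_le _ _) (max_lt hB (lt_of_lt_of_le hh (by exact_mod_cast hmn)))
    have hBh' : (B + h - C (β + α) * X ^ n).degree < (n : WithBot ℕ) := by
      rw [add_comm β α]; exact hBh
    have e3 : ∑ f ∈ Mon F n, Lb r f * (th n (conj2 β α (B + h) f) - Lb r (conj2 β α (B + h) f)) =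
        ∑ f ∈ Mon F n, Lb r (conj2 α β (B + h) f) * (th n f - Lb r f) := by
      rw [conj2_bij hβ hα hBh' (fun f => Lb r f * (th n (conj2 β α (B + h) f) -
        Lb r (conj2 β α (B + h) f)))]
      refine sum_congr rfl (fun f _ => ?_)
      rw [conj2_invol hα hβ]
    rw [e3, hqd, ← main_binary (show 2 * r ≤ n by omega) hα hβ (B + h)]
    unfold TT
    rw [← sum_sub_distrib, ← sum_add_distrib]
    refine sum_congr rfl (fun f _ => ?_)
    ring
  calc ∑ h ∈ PL F m, (TT α β n (B + h) - q ^ n * SB r (B + h)) ^ 2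
      ≤ ∑ h ∈ PL F m, (2 * (∑ f ∈ Mon F n, th n f *
          (th n (conj2 α β (B + h) f) - Lb r (conj2 α β (B + h) f))) ^ 2 +
        2 * (∑ f ∈ Mon F n, Lb r f *
          (th n (conj2 β α (B + h) f) - Lb r (conj2 β α (B + h) f))) ^ 2) := by
        refine sum_le_sum (fun h hh => ?_)
        rw [e1 h hh]
        nlinarith [sq_nonneg (∑ f ∈ Mon F n, th n f *
          (th n (conj2 α β (B + h) f) - Lb r (conj2 α β (B + h) f)) - ∑ f ∈ Mon F n, Lb r f *
          (th n (conj2 β α (B + h) f) - Lb r (conj2 β α (B + h) f)))]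
    _ ≤ 2 * (V * (n * q ^ n)) + 2 * (V * (Real.exp 3 * n * q ^ n)) := by
        rw [sum_add_distrib, ← mul_sum, ← mul_sum]
        have hV0 : 0 ≤ V := by positivity
        have h1 := mul_le_mul_of_nonneg_left (sum_th_sq (F := F) hn) hV0
        have h2 := mul_le_mul_of_nonneg_left (sum_Lb_sq (F := F) (r := r) hn (by omega)) hV0
        linarith
    _ = _ := by
        have e2 : q ^ (2 * n + m - r) = q ^ (n + m - r) * q ^ n := by
          rw [← pow_add]; congr 1; omega
        rw [hV, e2]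
        ring

/-- **The binary problem on average over a disc** -/
theorem goldbach_sq {n m : ℕ} (hn : 1 ≤ n) (hmn : m ≤ n) {α β : F} (hα : α ≠ 0)
    (hβ : β ≠ 0) {B : F[X]} (hB : (B - C (α + β) * X ^ n).degree < (n : WithBot ℕ))
    (S : F[X] → ℝ) (hS : ∀ D : F[X], D ≠ 0 → Tendsto (fun y => SP y D) atTop (𝓝 (S D))) :
    ∑ h ∈ (PL F m).filter (fun h => B + h ≠ 0),
      (TT α β n (B + h) - (Fintype.card F : ℝ) ^ n * S (B + h)) ^ 2 ≤
      (144 * (1 + Real.exp 3) + 320 * Real.exp 11 + 196 * Real.exp 22) * (n:ℝ) ^ 3 *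
        (Fintype.card F : ℝ) ^ (2 * n + m - m / 2) := by
  have hq := two_le_card (F := F)
  set q : ℝ := (Fintype.card F : ℝ) with hqd
  have hq0 : 0 < q := by linarith
  have hnr : (1:ℝ) ≤ n := by exact_mod_cast hn
  set r := m / 2 with hr
  have hrm : 2 * r ≤ m := by omega
  have hBdeg : B.natDegree ≤ n := by
    have e : B = (B - C (α + β) * X ^ n) + C (α + β) * X ^ n := by ring
    rw [e]
    refine (natDegree_add_le _ _).trans (max_le ?_ (natDegree_C_mul_X_pow_le _ _))
    exact natDegree_le_iff_degree_le.mpr hB.le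
  have hb := binary_sq (r := r) hn hrm hmn hα hβ hB
  rw [← hqd] at hb
  -- the singular series
  have ht : ∑ h ∈ (PL F m).filter (fun h => B + h ≠ 0), (SB r (B + h) - S (B + h)) ^ 2 ≤
      (160 * Real.exp 11 + 98 * Real.exp 22) * (n:ℝ) ^ 3 := by
    have hlim : Tendsto (fun y => ∑ h ∈ (PL F m).filter (fun h => B + h ≠ 0),
        (SB r (B + h) - SP y (B + h)) ^ 2) atTop
        (𝓝 (∑ h ∈ (PL F m).filter (fun h => B + h ≠ 0), (SB r (B + h) - S (B + h)) ^ 2)) := by
      apply tendsto_finsetSum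
      intro h hh
      exact (tendsto_const_nhds.sub (hS _ (mem_filter.mp hh).2)).pow 2
    refine le_of_tendsto hlim ?_
    filter_upwards [eventually_ge_atTop n] with y hy
    exact tail_sq hn hmn (by omega) (by omega) hy B hBdeg
  calc ∑ h ∈ (PL F m).filter (fun h => B + h ≠ 0), (TT α β n (B + h) - q ^ n * S (B + h)) ^ 2
      ≤ ∑ h ∈ (PL F m).filter (fun h => B + h ≠ 0),
          (2 * (TT α β n (B + h) - q ^ n * SB r (B + h)) ^ 2 +
            2 * (q ^ n) ^ 2 * (SB r (B + h) - S (B + h)) ^ 2) := by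
        refine sum_le_sum (fun h _ => ?_)
        nlinarith [sq_nonneg ((TT α β n (B + h) - q ^ n * SB r (B + h)) -
          q ^ n * (SB r (B + h) - S (B + h)))]
    _ = 2 * ∑ h ∈ (PL F m).filter (fun h => B + h ≠ 0),
          (TT α β n (B + h) - q ^ n * SB r (B + h)) ^ 2 +
          2 * (q ^ n) ^ 2 * ∑ h ∈ (PL F m).filter (fun h => B + h ≠ 0),
            (SB r (B + h) - S (B + h)) ^ 2 := by
        rw [sum_add_distrib, ← mul_sum, ← mul_sum]
    _ ≤ 2 * (2 * (1 + Real.exp 3) * n * (n + 5) ^ 2 * q ^ (2 * n + m - r)) +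
          2 * (q ^ n) ^ 2 * ((160 * Real.exp 11 + 98 * Real.exp 22) * (n:ℝ) ^ 3) := by
        apply add_le_add
        · apply mul_le_mul_of_nonneg_left _ (by norm_num)
          refine le_trans ?_ hb
          exact sum_le_sum_of_subset_of_nonneg (filter_subset _ _) (fun _ _ _ => sq_nonneg _)
        · exact mul_le_mul_of_nonneg_left ht (by positivity)
    _ ≤ _ := by
        have h1 : (q ^ n) ^ 2 ≤ q ^ (2 * n + m - r) := by
          rw [← pow_mul]
          exact pow_le_pow_right₀ (by linarith) (by omega)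
        have h2 : ((n:ℝ) + 5) ^ 2 ≤ 36 * n ^ 2 := by nlinarith
        have h3 : 0 < q ^ (2 * n + m - r) := by positivity
        have h4 : 2 * (2 * (1 + Real.exp 3) * n * (n + 5) ^ 2 * q ^ (2 * n + m - r)) ≤
            144 * (1 + Real.exp 3) * (n:ℝ) ^ 3 * q ^ (2 * n + m - r) := by
          calc 2 * (2 * (1 + Real.exp 3) * n * (n + 5) ^ 2 * q ^ (2 * n + m - r))
              = (4 * (1 + Real.exp 3) * n * q ^ (2 * n + m - r)) * (n + 5) ^ 2 := by ring
            _ ≤ (4 * (1 + Real.exp 3) * n * q ^ (2 * n + m - r)) * (36 * n ^ 2) :=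
                mul_le_mul_of_nonneg_left h2 (by positivity)
            _ = _ := by ring
        have h5 : 2 * (q ^ n) ^ 2 * ((160 * Real.exp 11 + 98 * Real.exp 22) * (n:ℝ) ^ 3) ≤
            (320 * Real.exp 11 + 196 * Real.exp 22) * (n:ℝ) ^ 3 * q ^ (2 * n + m - r) := by
          calc 2 * (q ^ n) ^ 2 * ((160 * Real.exp 11 + 98 * Real.exp 22) * (n:ℝ) ^ 3)
              = ((320 * Real.exp 11 + 196 * Real.exp 22) * (n:ℝ) ^ 3) * (q ^ n) ^ 2 := by ring
            _ ≤ _ := mul_le_mul_of_nonneg_left h1 (by positivity)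
        linarith

end Pool.Agent.H523.CM
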