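import Pool.Agent.H523.CM3

set_option autoImplicit false
set_option linter.unusedSectionVars false

/-! # The circle method over `F_q[t]`: the main inequality -/

namespace Pool.Agent.H523.CM

open Polynomial Finset
open Pool.Agent.H341R2.Sharp (Mon mem_Mon)
open Pool.Agent.H523.FF (Ir mem_Ir PL mem_PL card_PL two_le_card IrLE mem_IrLE irr_coprime PL_mod)
open Pool.Agent.H523.RH (NP Phi Phi_prod Phi_pos var_NP)

open scoped Classical

variable {F : Type} [Field F] [Fintype F]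

theorem sum_PL_shift {R : Type} [AddCommMonoid R] {d : ℕ} {h : F[X]} (hh : h.degree < d)
    (φ : F[X] → R) : ∑ g ∈ PL F d, φ (g + h) = ∑ g ∈ PL F d, φ g := by
  refine sum_bij (fun g _ => g + h) ?_ (fun a _ b _ h => by simpa using h) ?_ (fun _ _ => rfl)
  · intro g hg
    rw [mem_PL] at hg ⊢
    exact lt_of_le_of_lt (degree_add_le _ _) (max_lt hg hh)
  · intro g hg
    rw [mem_PL] at hg
    refine ⟨g - h, ?_, by ring⟩
    rw [mem_PL]
    exact lt_of_le_of_lt (degree_sub_le _ _) (max_lt hg hh)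

theorem sum_Mon_shift {R : Type} [AddCommMonoid R] {n : ℕ} {h : F[X]} (hh : h.degree < n)
    (φ : F[X] → R) : ∑ f ∈ Mon F n, φ (f + h) = ∑ f ∈ Mon F n, φ f := by
  refine sum_bij (fun g _ => g + h) (fun g hg => (Mon_shift le_rfl h g hh).mpr hg)
    (fun a _ b _ h => by simpa using h) ?_ (fun _ _ => rfl)
  intro g hg
  refine ⟨g - h, ?_, by ring⟩
  rw [← Mon_shift le_rfl h _ hh]
  simpa using hg

/-- the exponential sums over the primes of a disc in terms of the classes modulo `Q` -/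
theorem sum_primes {φ : AddChar F[X] ℂ} {Q : F[X]} (hQ : Q.Monic) (hφ : ∀ y : F[X], φ (Q * y) = 1)
    {n d : ℕ} (hd : Q.natDegree ≤ d) (hdn : d ≤ n) {f : F[X]} (hf : f ∈ Mon F n) :
    ∑ g ∈ PL F d, (th n (f + g) : ℂ) * φ (f + g) =
      ∑ b ∈ PL F Q.natDegree, ((n : ℝ) * NP Q (n - d) n (f + b) : ℝ) * φ (f + b) := by
  have hQd : (Q.natDegree : WithBot ℕ) = Q.degree := (degree_eq_natDegree hQ.ne_zero).symm
  have hnd : n - (n - d) = d := by omega
  -- both sides are sums over pairs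
  have hL : ∑ g ∈ PL F d, (th n (f + g) : ℂ) * φ (f + g) =
      ∑ P ∈ (Ir F n).filter (fun P => (P - f).degree < (d : WithBot ℕ)), (n : ℂ) * φ P := by
    have h1 : ∀ g ∈ PL F d, (th n (f + g) : ℂ) * φ (f + g) =
        if f + g ∈ Ir F n then (n : ℂ) * φ (f + g) else 0 := by
      intro g _
      unfold th
      split_ifs <;> simp
    rw [sum_congr rfl h1, ← sum_filter]
    refine sum_bij (fun g _ => f + g) ?_ (fun a _ b _ h => by simpa using h) ?_ (fun _ _ => rfl)
    · intro g hg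
      rw [mem_filter] at hg ⊢
      refine ⟨hg.2, ?_⟩
      rw [add_sub_cancel_left]
      exact mem_PL.mp hg.1
    · intro P hP
      rw [mem_filter] at hP
      refine ⟨P - f, ?_, by ring⟩
      rw [mem_filter, mem_PL]
      exact ⟨hP.2, by rw [add_sub_cancel]; exact hP.1⟩
  rw [hL, ← sum_fiberwise_of_maps_to (t := PL F Q.natDegree) (g := fun P => (P - f) %ₘ Q)
    (fun P _ => by
      rw [mem_PL, hQd]
      exact degree_modByMonic_lt _ hQ)]
  refine sum_congr rfl (fun b hb => ?_)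
  rw [mem_PL] at hb
  have hbQ : b %ₘ Q = b := (modByMonic_eq_self_iff hQ).mpr (by rw [← hQd]; exact hb)
  have h2 : ((Ir F n).filter (fun P => (P - f).degree < (d : WithBot ℕ))).filter
      (fun P => (P - f) %ₘ Q = b) = (Ir F n).filter (fun P => Q ∣ P - (f + b) ∧
        (P - (f + b)).degree < ((n - (n - d) : ℕ) : WithBot ℕ)) := by
    rw [filter_filter, hnd]
    apply filter_congr
    intro P _
    have hbd : b.degree < (d : WithBot ℕ) := lt_of_lt_of_le hb (by exact_mod_cast hd)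
    have e1 : (P - f) %ₘ Q = b ↔ Q ∣ P - (f + b) := by
      have e : P - (f + b) = (P - f) - b := by ring
      rw [e, ← modByMonic_eq_zero_iff_dvd hQ, sub_modByMonic (P - f) b Q, hbQ, sub_eq_zero]
    have e2 : (P - f).degree < (d : WithBot ℕ) ↔ (P - (f + b)).degree < (d : WithBot ℕ) := by
      constructor
      · intro h
        have e : P - (f + b) = (P - f) - b := by ring
        rw [e]
        exact lt_of_le_of_lt (degree_sub_le _ _) (max_lt h hbd)
      · intro h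
        have e : P - f = (P - (f + b)) + b := by ring
        rw [e]
        exact lt_of_le_of_lt (degree_add_le _ _) (max_lt h hbd)
    rw [e1, e2]
    tauto
  rw [h2, sum_congr rfl (g := fun _ => (n : ℂ) * φ (f + b)) (fun P hP => by
    obtain ⟨z, hz⟩ := (mem_filter.mp hP).2.1
    have : P = Q * z + (f + b) := by rw [← hz]; ring
    rw [this, AddChar.map_add_eq_mul, hφ, one_mul]), sum_const, nsmul_eq_mul]
  unfold NP
  push_cast
  ring

/-- **The mean square of the exponential sums over the discs**, for a character with a small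
denominator -/
theorem U_bound {φ : AddChar F[X] ℂ} {Q : F[X]} (hQ : Q.Monic) (hφ : ∀ y : F[X], φ (Q * y) = 1)
    (hc : ∀ T : F[X], (∀ y : F[X], φ (T * y) = 1) → Q ∣ T) {r n : ℕ}
    (hQr : Q.natDegree ≤ r) (hrn : r < n) (hd : Q.natDegree + r ≤ n) :
    ∑ f ∈ Mon F n, ‖∑ g ∈ PL F (Q.natDegree + r),
        ((th n (f + g) - Lb r (f + g) : ℝ) : ℂ) * φ (f + g)‖ ^ 2 ≤
      ((Fintype.card F : ℝ) ^ Q.natDegree) ^ 2 * (((n : ℝ) + 5) ^ 2 * (Fintype.card F : ℝ) ^ (n + r)) := by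
  have hq := two_le_card (F := F)
  set q : ℝ := (Fintype.card F : ℝ) with hqd
  have hq0 : 0 < q := by linarith
  set d := Q.natDegree + r with hdd
  set κ := n - d with hκ
  set Ef : F[X] → ℝ := fun x => if IsCoprime x Q then (n : ℝ) * NP Q κ n x - q ^ n / (Phi Q κ : ℝ) else 0
    with hEf
  have hnorm : ∀ x : F[X], ‖φ x‖ = 1 := by
    intro x
    obtain ⟨p, hp⟩ := CharP.exists F
    have hp0 : p ≠ 0 := by
      have := CharP.char_is_prime F p
      exact this.ne_zero
    have h1 : φ x ^ p = 1 := by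
      rw [← AddChar.map_nsmul_eq_pow, nsmul_eq_mul, CharP.cast_eq_zero, zero_mul,
        AddChar.map_zero_eq_one]
    have h2 : ‖φ x‖ ^ p = 1 := by rw [← norm_pow, h1, norm_one]
    exact (pow_eq_one_iff_of_nonneg (norm_nonneg _) hp0).mp h2
  -- the pointwise identity
  have hU : ∀ f ∈ Mon F n, ∑ g ∈ PL F d, ((th n (f + g) - Lb r (f + g) : ℝ) : ℂ) * φ (f + g) =
      ∑ b ∈ PL F Q.natDegree, (Ef (f + b) : ℂ) * φ (f + b) := by
    intro f hf
    have e1 : ∑ g ∈ PL F d, ((th n (f + g) - Lb r (f + g) : ℝ) : ℂ) * φ (f + g) =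
        ∑ g ∈ PL F d, (th n (f + g) : ℂ) * φ (f + g) -
          ∑ g ∈ PL F d, (Lb r (f + g) : ℂ) * φ (f + g) := by
      rw [← sum_sub_distrib]
      refine sum_congr rfl (fun g _ => ?_)
      push_cast
      ring
    rw [e1, sum_primes hQ hφ (by omega) hd hf, Lb_fourier hQ hφ hc hQr hdd
      (show n = κ + d by omega) f, mul_sum, ← sum_sub_distrib]
    refine sum_congr rfl (fun b hb => ?_)
    have hnd : n - d = κ := rfl
    rw [hnd, hEf]
    simp only
    split_ifs with h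
    · have hqC : (Fintype.card F : ℂ) = ((q : ℝ) : ℂ) := by simp [hqd]
      push_cast
      rw [hqC]
      ring
    · -- no primes in the class
      have h0 : NP Q κ n (f + b) = 0 := by
        unfold NP
        rw [card_eq_zero, filter_eq_empty_iff]
        rintro P hP ⟨h1, -⟩
        apply h
        have hP := mem_Ir.mp hP
        have h2 : IsCoprime P Q := by
          rw [hP.2.1.coprime_iff_not_dvd]
          intro h3
          have := natDegree_le_of_dvd h3 hQ.ne_zero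
          omega
        obtain ⟨z, hz⟩ := h1
        have h3 : f + b = P + (-z) * Q := by linear_combination -hz
        rw [h3]
        exact IsCoprime.add_mul_right_left_iff.mpr h2
      rw [h0]
      simp
  rw [sum_congr rfl (fun f hf => by rw [hU f hf])]
  have hcardQ : ((PL F Q.natDegree).card : ℝ) = q ^ Q.natDegree := by
    rw [card_PL, hqd]; push_cast; rfl
  calc ∑ f ∈ Mon F n, ‖∑ b ∈ PL F Q.natDegree, (Ef (f + b) : ℂ) * φ (f + b)‖ ^ 2
      ≤ ∑ f ∈ Mon F n, q ^ Q.natDegree * ∑ b ∈ PL F Q.natDegree, (Ef (f + b)) ^ 2 := by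
        apply sum_le_sum
        intro f _
        have h1 : ‖∑ b ∈ PL F Q.natDegree, (Ef (f + b) : ℂ) * φ (f + b)‖ ≤
            ∑ b ∈ PL F Q.natDegree, |Ef (f + b)| := by
          refine (norm_sum_le _ _).trans (le_of_eq (sum_congr rfl (fun b _ => ?_)))
          rw [norm_mul, hnorm, mul_one, Complex.norm_real, Real.norm_eq_abs]
        refine (pow_le_pow_left₀ (norm_nonneg _) h1 2).trans ?_
        refine sq_sum_le_card_mul_sum_sq.trans (le_of_eq ?_)
        rw [hcardQ]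
        simp only [sq_abs]
    _ = q ^ Q.natDegree * ∑ b ∈ PL F Q.natDegree, ∑ f ∈ Mon F n, (Ef (f + b)) ^ 2 := by
        rw [← mul_sum, sum_comm]
    _ = q ^ Q.natDegree * (q ^ Q.natDegree * ∑ f ∈ Mon F n, (Ef f) ^ 2) := by
        congr 1
        rw [sum_congr rfl (g := fun _ => ∑ f ∈ Mon F n, (Ef f) ^ 2) (fun b hb => by
          apply sum_Mon_shift (φ := fun x => (Ef x) ^ 2)
          refine lt_of_lt_of_le (mem_PL.mp hb) ?_
          exact_mod_cast (by omega : Q.natDegree ≤ n)), sum_const, nsmul_eq_mul, hcardQ]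
    _ ≤ q ^ Q.natDegree * (q ^ Q.natDegree * (((n:ℝ) + 5) ^ 2 * q ^ n * q ^ r)) := by
        have hv := var_NP hQ κ n (by omega) (by omega)
        rw [← hqd] at hv
        have h1 : ∑ f ∈ Mon F n, (Ef f) ^ 2 = ∑ f ∈ (Mon F n).filter (fun f => IsCoprime f Q),
            ((n : ℝ) * NP Q κ n f - q ^ n / (Phi Q κ : ℝ)) ^ 2 := by
          rw [sum_filter]
          refine sum_congr rfl (fun f _ => ?_)
          rw [hEf]
          simp only
          split_ifs <;> simp
        rw [h1]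
        have h2 : n - Q.natDegree - κ = r := by omega
        rw [h2] at hv
        have h3 : (2 * (Q.natDegree : ℝ) + κ + 5) ^ 2 ≤ ((n:ℝ) + 5) ^ 2 := by
          apply pow_le_pow_left₀ (by positivity)
          have : 2 * Q.natDegree + κ + 5 ≤ n + 5 := by omega
          exact_mod_cast this
        refine mul_le_mul_of_nonneg_left (mul_le_mul_of_nonneg_left (hv.trans ?_) ?_) ?_
        · exact mul_le_mul_of_nonneg_right (mul_le_mul_of_nonneg_right h3 (by positivity))
            (by positivity)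
        · positivity
        · positivity
    _ = q ^ Q.natDegree * (q ^ Q.natDegree * (((n:ℝ) + 5) ^ 2 * q ^ (n + r))) := by
        rw [pow_add]; ring
    _ = _ := by ring

/-- **The mean square of the exponential sums over the discs of radius `m`**, for every additive
character -/
theorem V_bound {m n r : ℕ} (hrm : 2 * r ≤ m) (hmn : m ≤ n) (hrn : r < n)
    (ψ : AddChar (Fin m → F) ℂ) :
    ∑ f ∈ Mon F n, ‖∑ c, ((th n (f + inc m c) - Lb r (f + inc m c) : ℝ) : ℂ) * ψ c‖ ^ 2 ≤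
      (Fintype.card (Fin m → F) : ℝ) *
        (((n : ℝ) + 5) ^ 2 * (Fintype.card F : ℝ) ^ (n + m - r)) := by
  have hq := two_le_card (F := F)
  set q : ℝ := (Fintype.card F : ℝ) with hqd
  have hq0 : 0 < q := by linarith
  set Ψ : AddChar F[X] ℂ := ψ.compAddMonoidHom (cf m) with hΨ
  set Ev : F[X] → ℝ := fun x => th n x - Lb r x with hEv
  obtain ⟨Q, hQ, hQr, hg, hmin⟩ := exists_denominator Ψ r
  set φ := phi Ψ Q with hφd
  set d := Q.natDegree + r with hdd
  have hdm : d ≤ m := by omega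
  have hU := U_bound hQ (fun y => phi_mul (Ψ := Ψ) hQ y)
    (fun T hT => phi_conductor hQ hg hmin hT) hQr hrn (hdm.trans hmn)
  rw [← hφd, ← hdd, ← hqd] at hU
  have hΨ1 : ∀ c : Fin m → F, ψ c = Ψ (inc m c) := by
    intro c
    rw [hΨ, AddChar.compAddMonoidHom_apply, cf_inc]
  have hnormΨ : ∀ (χ : AddChar F[X] ℂ) (x : F[X]), ‖χ x‖ = 1 := by
    intro χ x
    obtain ⟨p, hp⟩ := CharP.exists F
    have hp0 : p ≠ 0 := (CharP.char_is_prime F p).ne_zero
    have h1 : χ x ^ p = 1 := by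
      rw [← AddChar.map_nsmul_eq_pow, nsmul_eq_mul, CharP.cast_eq_zero, zero_mul,
        AddChar.map_zero_eq_one]
    have h2 : ‖χ x‖ ^ p = 1 := by rw [← norm_pow, h1, norm_one]
    exact (pow_eq_one_iff_of_nonneg (norm_nonneg _) hp0).mp h2
  -- averaging over the smaller disc
  have key : ∀ f : F[X], (q ^ d) ^ 2 * ‖∑ c, (Ev (f + inc m c) : ℂ) * ψ c‖ ^ 2 ≤
      q ^ m * ∑ h ∈ PL F m, ‖∑ g ∈ PL F d, (Ev (f + h + g) : ℂ) * φ (f + h + g)‖ ^ 2 := by
    intro f
    have e1 : ∑ c, (Ev (f + inc m c) : ℂ) * ψ c = ∑ h ∈ PL F m, (Ev (f + h) : ℂ) * Ψ h := by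
      rw [← sum_inc m (fun h => (Ev (f + h) : ℂ) * Ψ h)]
      exact sum_congr rfl (fun c _ => by rw [hΨ1])
    have e2 : ∀ g ∈ PL F d, ∑ h ∈ PL F m, (Ev (f + h) : ℂ) * Ψ h =
        ∑ h ∈ PL F m, (Ev (f + h + g) : ℂ) * (Ψ h * Ψ g) := by
      intro g hg
      rw [← sum_PL_shift (h := g) (lt_of_lt_of_le (mem_PL.mp hg) (by exact_mod_cast hdm))
        (fun h => (Ev (f + h) : ℂ) * Ψ h)]
      refine sum_congr rfl (fun h _ => ?_)
      rw [AddChar.map_add_eq_mul, add_assoc]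
    have e3 : ((q ^ d : ℝ) : ℂ) * ∑ h ∈ PL F m, (Ev (f + h) : ℂ) * Ψ h =
        ∑ h ∈ PL F m, Ψ h * ((φ (f + h))⁻¹ *
          ∑ g ∈ PL F d, (Ev (f + h + g) : ℂ) * φ (f + h + g)) := by
      have hcd : ((q ^ d : ℝ) : ℂ) = ((PL F d).card : ℂ) := by
        rw [card_PL, hqd]; push_cast; rfl
      rw [hcd, ← nsmul_eq_mul, ← sum_const, sum_congr rfl e2, sum_comm]
      refine sum_congr rfl (fun h _ => ?_)
      rw [mul_sum, mul_sum]
      refine sum_congr rfl (fun g hg' => ?_)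
      have h0 : φ (f + h) ≠ 0 := (φ.val_isUnit _).ne_zero
      have h1 : φ g = Ψ g := phi_eq hQ hg (mem_PL.mp hg')
      rw [AddChar.map_add_eq_mul φ (f + h) g, ← h1]
      field_simp
    rw [e1]
    have e4 : (q ^ d) ^ 2 * ‖∑ h ∈ PL F m, (Ev (f + h) : ℂ) * Ψ h‖ ^ 2 =
        ‖((q ^ d : ℝ) : ℂ) * ∑ h ∈ PL F m, (Ev (f + h) : ℂ) * Ψ h‖ ^ 2 := by
      rw [norm_mul, mul_pow, Complex.norm_real, Real.norm_of_nonneg (by positivity)]
    rw [e4, e3]
    have e5 : ‖∑ h ∈ PL F m, Ψ h * ((φ (f + h))⁻¹ *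
          ∑ g ∈ PL F d, (Ev (f + h + g) : ℂ) * φ (f + h + g))‖ ≤
        ∑ h ∈ PL F m, ‖∑ g ∈ PL F d, (Ev (f + h + g) : ℂ) * φ (f + h + g)‖ := by
      refine (norm_sum_le _ _).trans (le_of_eq (sum_congr rfl (fun h _ => ?_)))
      rw [norm_mul, norm_mul, norm_inv, hnormΨ, hnormΨ, inv_one, one_mul, one_mul]
    refine (pow_le_pow_left₀ (norm_nonneg _) e5 2).trans ?_
    refine sq_sum_le_card_mul_sum_sq.trans (le_of_eq ?_)
    rw [card_PL, hqd]
    push_cast
    rfl
  have hqd0 : 0 < (q ^ d) ^ 2 := by positivity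
  have h1 : (q ^ d) ^ 2 * ∑ f ∈ Mon F n, ‖∑ c, (Ev (f + inc m c) : ℂ) * ψ c‖ ^ 2 ≤
      (q ^ d) ^ 2 * (q ^ m * (((n : ℝ) + 5) ^ 2 * q ^ (n + m - r))) := by
    calc (q ^ d) ^ 2 * ∑ f ∈ Mon F n, ‖∑ c, (Ev (f + inc m c) : ℂ) * ψ c‖ ^ 2
        ≤ ∑ f ∈ Mon F n, q ^ m * ∑ h ∈ PL F m,
            ‖∑ g ∈ PL F d, (Ev (f + h + g) : ℂ) * φ (f + h + g)‖ ^ 2 := by
          rw [mul_sum]
          exact sum_le_sum (fun f _ => key f)
      _ = q ^ m * ∑ h ∈ PL F m, ∑ f ∈ Mon F n,
            ‖∑ g ∈ PL F d, (Ev (f + h + g) : ℂ) * φ (f + h + g)‖ ^ 2 := by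
          rw [← mul_sum, sum_comm]
      _ = q ^ m * (q ^ m * ∑ f ∈ Mon F n,
            ‖∑ g ∈ PL F d, (Ev (f + g) : ℂ) * φ (f + g)‖ ^ 2) := by
          congr 1
          rw [sum_congr rfl (g := fun _ => ∑ f ∈ Mon F n,
            ‖∑ g ∈ PL F d, (Ev (f + g) : ℂ) * φ (f + g)‖ ^ 2) (fun h hh => by
            apply sum_Mon_shift
              (φ := fun f => ‖∑ g ∈ PL F d, (Ev (f + g) : ℂ) * φ (f + g)‖ ^ 2)
            exact lt_of_lt_of_le (mem_PL.mp hh) (by exact_mod_cast hmn)), sum_const,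
            nsmul_eq_mul, card_PL, hqd]
          push_cast
          rfl
      _ ≤ q ^ m * (q ^ m * ((q ^ Q.natDegree) ^ 2 * (((n : ℝ) + 5) ^ 2 * q ^ (n + r)))) := by
          apply mul_le_mul_of_nonneg_left _ (by positivity)
          exact mul_le_mul_of_nonneg_left hU (by positivity)
      _ = (q ^ d) ^ 2 * (q ^ m * (((n : ℝ) + 5) ^ 2 * q ^ (n + m - r))) := by
          have e : q ^ m * q ^ (n + r) = (q ^ r) ^ 2 * q ^ (n + m - r) := by
            rw [← pow_add, ← pow_mul, ← pow_add]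
            congr 1
            omega
          have e' : q ^ d = q ^ Q.natDegree * q ^ r := by rw [hdd, pow_add]
          rw [e']
          calc q ^ m * (q ^ m * ((q ^ Q.natDegree) ^ 2 * (((n : ℝ) + 5) ^ 2 * q ^ (n + r))))
              = q ^ m * (q ^ Q.natDegree) ^ 2 * ((n : ℝ) + 5) ^ 2 * (q ^ m * q ^ (n + r)) := by ring
            _ = _ := by rw [e]; ring
  have h2 := le_of_mul_le_mul_left h1 hqd0
  have h3 : (Fintype.card (Fin m → F) : ℝ) = q ^ m := by
    rw [Fintype.card_fun, Fintype.card_fin, hqd]; push_cast; rfl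
  rw [h3]
  exact h2

/-- **The main inequality**: the correlations of an arbitrary function with the difference of the
primes and their model are small for almost all shifts. -/
theorem correlation {m n r : ℕ} (hrm : 2 * r ≤ m) (hmn : m ≤ n) (hrn : r < n) (w : F[X] → ℂ) :
    ∑ h ∈ PL F m, ‖∑ f ∈ Mon F n, w f * ((th n (f + h) - Lb r (f + h) : ℝ) : ℂ)‖ ^ 2 ≤
      ((n : ℝ) + 5) ^ 2 * (Fintype.card F : ℝ) ^ (n + m - r) * ∑ f ∈ Mon F n, ‖w f‖ ^ 2 := by
  have h := dispersion (inc (F := F) m) (Mon F n) (fun c f => Mon_shift hmn _ _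
    (mem_PL.mp (inc_mem c))) w (fun x => ((th n x - Lb r x : ℝ) : ℂ)) _
    (fun ψ => V_bound hrm hmn hrn ψ)
  rw [sum_inc m (fun h => ‖∑ f ∈ Mon F n, w f * ((th n (f + h) - Lb r (f + h) : ℝ) : ℂ)‖ ^ 2)] at h
  exact h

end Pool.Agent.H523.CM
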