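import Pool.Agent.H523.CM13
import Pool.Agent.H523.CM31

set_option autoImplicit false
set_option linter.unusedSectionVars false

/-! # Local correlations and the truncated singular series of a `k`-tuple -/

namespace Pool.Agent.H523.CM

open Polynomial Finset Filter
open Pool.Agent.H341R2.Sharp (Mon mem_Mon)
open Pool.Agent.H523.FF (Ir mem_Ir PL mem_PL card_PL two_le_card IrLE mem_IrLE irr_coprime PL_mod
  Ir_card sum_IrLE)

open scoped Classical Topology

variable {F : Type} [Field F] [Fintype F] {k : ℕ}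

/-- the local correlation of the members in `T` -/
noncomputable def EP (P : F[X]) (T : Finset (Fin k)) (g : Fin k → F[X]) : ℝ :=
  (∑ b ∈ PL F P.natDegree, ∏ i ∈ T, aP P (b + g i)) / (Fintype.card F : ℝ) ^ P.natDegree

/-- the union of the sets -/
noncomputable def Ug (s : Fin k → Finset F[X]) : Finset F[X] := univ.biUnion s

/-- the members in which `P` occurs -/
noncomputable def Tp (s : Fin k → Finset F[X]) (P : F[X]) : Finset (Fin k) :=
  univ.filter (fun i => P ∈ s i)

theorem mem_Ug {s : Fin k → Finset F[X]} {P : F[X]} : P ∈ Ug s ↔ ∃ i, P ∈ s i := by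
  unfold Ug
  rw [mem_biUnion]
  simp

theorem Tp_nonempty {s : Fin k → Finset F[X]} {P : F[X]} (h : P ∈ Ug s) : (Tp s P).Nonempty := by
  obtain ⟨i, hi⟩ := mem_Ug.mp h
  exact ⟨i, mem_filter.mpr ⟨mem_univ _, hi⟩⟩

theorem prod_swap (s : Fin k → Finset F[X]) (φ : Fin k → F[X] → ℝ) :
    ∏ i, ∏ P ∈ s i, φ i P = ∏ P ∈ Ug s, ∏ i ∈ Tp s P, φ i P := by
  apply Finset.prod_comm'
  intro i P
  unfold Tp
  rw [mem_Ug, mem_filter]
  constructor
  · rintro ⟨_, h⟩
    exact ⟨⟨mem_univ _, h⟩, ⟨i, h⟩⟩
  · rintro ⟨h, _⟩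
    exact ⟨mem_univ _, h.2⟩

/-- the sum of a periodic function over a shifted set of residues -/
theorem periodic_shift {P : F[X]} (hP : P.Monic) (hPI : Irreducible P) (φ : F[X] → ℝ)
    (hφ : ∀ x y : F[X], P ∣ x - y → φ x = φ y) (c : F[X]) :
    ∑ b ∈ PL F P.natDegree, φ (b + c) = ∑ b ∈ PL F P.natDegree, φ b := by
  have h := independence (F := F) (R := ℝ) (u := {P}) (m := P.natDegree)
    (by simpa using ⟨hP, hPI⟩) (by simp) (fun _ => φ) (by
      intro Q hQ
      rw [mem_singleton] at hQ
      subst hQ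
      exact hφ) c
  simp only [prod_singleton, sum_singleton, Nat.sub_self, pow_zero, Nat.cast_one, one_mul] at h
  rw [← h]
  exact sum_congr rfl (fun b _ => by rw [add_comm])

/-- the sum over a disc of a product of the terms of the models -/
theorem disc_sum {d : ℕ} {s : Fin k → Finset F[X]} (hs : ∀ i, ∀ P ∈ s i, P.Monic ∧ Irreducible P)
    (hd : ∑ P ∈ Ug s, P.natDegree ≤ d) (g : Fin k → F[X]) (D : F[X]) :
    ∑ x ∈ PL F d, ∏ i, ∏ P ∈ s i, aP P (D + x + g i) =
      (Fintype.card F : ℝ) ^ d * ∏ P ∈ Ug s, EP P (Tp s P) g := by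
  have hq := two_le_card (F := F)
  have hq0 : (0:ℝ) < (Fintype.card F : ℝ) := by linarith
  have hu : ∀ P ∈ Ug s, P.Monic ∧ Irreducible P := by
    intro P hP
    obtain ⟨i, hi⟩ := mem_Ug.mp hP
    exact hs i P hi
  have h1 : ∀ x : F[X], ∏ i, ∏ P ∈ s i, aP P (D + x + g i) =
      ∏ P ∈ Ug s, (fun P y => ∏ i ∈ Tp s P, aP P (y + g i)) P (D + x) := by
    intro x
    rw [prod_swap s (fun i P => aP P (D + x + g i))]
  rw [sum_congr rfl (fun x _ => h1 x)]
  rw [independence hu hd (fun P y => ∏ i ∈ Tp s P, aP P (y + g i)) (by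
    intro P _ x y hxy
    refine prod_congr rfl (fun i _ => ?_)
    apply aP_periodic
    have : x + g i - (y + g i) = x - y := by ring
    rw [this]
    exact hxy) D]
  have h2 : ∀ P ∈ Ug s, ∑ b ∈ PL F P.natDegree, (fun P y => ∏ i ∈ Tp s P, aP P (y + g i)) P b =
      (Fintype.card F : ℝ) ^ P.natDegree * EP P (Tp s P) g := by
    intro P _
    unfold EP
    field_simp
  rw [prod_congr rfl h2, prod_mul_distrib, prod_pow_eq_pow_sum]
  push_cast
  rw [← mul_assoc, ← pow_add, Nat.sub_add_cancel hd]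

/-- the singular series of a collection of sets -/
noncomputable def PM (𝒮 : Finset (Finset F[X])) (g : Fin k → F[X]) : ℝ :=
  ∑ s ∈ Fintype.piFinset (fun _ : Fin k => 𝒮), ∏ P ∈ Ug s, EP P (Tp s P) g

theorem main_LS {𝒮 : Finset (Finset F[X])} (h𝒮 : ∀ s ∈ 𝒮, ∀ P ∈ s, P.Monic ∧ Irreducible P) {d : ℕ}
    (hd : ∀ s ∈ Fintype.piFinset (fun _ : Fin k => 𝒮), ∑ P ∈ Ug s, P.natDegree ≤ d)
    (g : Fin k → F[X]) (D : F[X]) :
    ∑ x ∈ PL F d, ∏ i, LS 𝒮 (D + x + g i) = (Fintype.card F : ℝ) ^ d * PM 𝒮 g := by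
  unfold LS PM
  have h1 : ∀ x : F[X], ∏ i : Fin k, ∑ s ∈ 𝒮, ∏ P ∈ s, aP P (D + x + g i) =
      ∑ s ∈ Fintype.piFinset (fun _ : Fin k => 𝒮), ∏ i, ∏ P ∈ s i, aP P (D + x + g i) := by
    intro x
    rw [Finset.prod_univ_sum]
  rw [sum_congr rfl (fun x _ => h1 x), sum_comm, mul_sum]
  refine sum_congr rfl (fun s hs => ?_)
  exact disc_sum (fun i P hP => h𝒮 (s i) (Fintype.mem_piFinset.mp hs i) P hP) (hd s hs) g D

theorem PM_powerset (y : ℕ) (g : Fin k → F[X]) :
    PM (IrLE F y).powerset g = ∏ P ∈ IrLE F y, beta P g := by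
  have hq := two_le_card (F := F)
  have hq0 : (0:ℝ) < (Fintype.card F : ℝ) := by linarith
  set N := ∑ P ∈ IrLE F y, P.natDegree with hN
  have h1 := main_LS (k := k) (𝒮 := (IrLE F y).powerset) (d := N) (fun s hs P hP => by
    have := mem_IrLE.mp (mem_powerset.mp hs hP)
    exact ⟨this.1, this.2.1⟩) (fun s hs => by
      apply sum_le_sum_of_subset
      intro P hP
      obtain ⟨i, hi⟩ := mem_Ug.mp hP
      exact mem_powerset.mp (Fintype.mem_piFinset.mp hs i) hi) g (X ^ N)
  have h2 := main_term (k := k) (n := N) (z := y) le_rfl g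
  rw [sum_Mon_eq N (fun f => ∏ i, Lz y (f + g i))] at h2
  simp only [Lz_eq] at h2
  rw [h1] at h2
  exact mul_left_cancel₀ (by positivity) h2

theorem aP_values (P : F[X]) (hPI : Irreducible P) (x : F[X]) :
    aP P x = if P ∣ x then -1 else gP P := by
  have hn := norm_gt hPI
  unfold aP gP
  have h1 : (Fintype.card F : ℝ) ^ P.natDegree - 1 ≠ 0 := by linarith
  split_ifs
  · field_simp
    ring
  · simp

theorem abs_aP_le {P : F[X]} (hPI : Irreducible P) (x : F[X]) : |aP P x| ≤ 1 := by
  rw [aP_values P hPI]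
  have h1 := gP_pos hPI
  have h2 := gP_le_one hPI
  split_ifs
  · norm_num
  · rw [abs_of_pos h1]; exact h2

/-- `P` divides a difference of two members -/
def DivD (P : F[X]) (g : Fin k → F[X]) : Prop := ∃ i j : Fin k, i ≠ j ∧ P ∣ g i - g j

/-- the bound for the local correlations -/
noncomputable def xP (P : F[X]) (g : Fin k → F[X]) : ℝ :=
  3 * gP P ^ 2 + (if DivD P g then gP P else 0)

theorem xP_nonneg {P : F[X]} (hPI : Irreducible P) (g : Fin k → F[X]) : 0 ≤ xP P g := by
  have h1 := gP_pos hPI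
  unfold xP
  split_ifs <;> positivity

theorem count_shift {P : F[X]} (hP : P.Monic) (c : F[X]) :
    ∑ b ∈ PL F P.natDegree, (if P ∣ b + c then (1:ℝ) else 0) = 1 := by
  rw [← sum_filter, sum_const, nsmul_eq_mul, mul_one]
  have h1 : (PL F P.natDegree).filter (fun b => P ∣ b + c) =
      (PL F P.natDegree).filter (fun b => P ∣ b - (-c)) := by
    apply filter_congr
    intro b _
    rw [sub_neg_eq_add]
  rw [h1, PL_mod P hP (-c) P.natDegree le_rfl, Nat.sub_self, pow_zero]
  norm_num

/-- **The bound for the local correlations** -/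
theorem EP_bound {P : F[X]} (hP : P.Monic) (hPI : Irreducible P) {T : Finset (Fin k)}
    (hT : T.Nonempty) (g : Fin k → F[X]) : |EP P T g| ≤ xP P g := by
  have hn := norm_gt hPI
  have h0 := gP_pos hPI
  have h01 := gP_le_one hPI
  set Q : ℝ := (Fintype.card F : ℝ) ^ P.natDegree with hQ
  have hQ0 : 0 < Q := by linarith
  have hgQ : 1 / Q ≤ gP P := by
    unfold gP
    rw [← hQ]
    exact one_div_le_one_div_of_le (by linarith) (by linarith)
  rcases Nat.lt_or_ge 1 T.card with hc | hc
  · -- two members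
    obtain ⟨i, hi, j, hj, hij⟩ := Finset.one_lt_card.mp hc
    have hsplit : ∀ b : F[X], |∏ l ∈ T, aP P (b + g l)| ≤ |aP P (b + g i)| * |aP P (b + g j)| := by
      intro b
      rw [abs_prod, ← mul_prod_erase T _ hi, ← mul_prod_erase (T.erase i) _
        (mem_erase.mpr ⟨hij.symm, hj⟩), ← mul_assoc]
      apply mul_le_of_le_one_right (by positivity)
      exact prod_le_one (fun _ _ => abs_nonneg _) (fun l _ => abs_aP_le hPI _)
    have hE : |EP P T g| ≤ (∑ b ∈ PL F P.natDegree, |aP P (b + g i)| * |aP P (b + g j)|) / Q := by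
      unfold EP
      rw [abs_div, abs_of_pos hQ0]
      apply div_le_div_of_nonneg_right _ hQ0.le
      exact (abs_sum_le_sum_abs _ _).trans (sum_le_sum (fun b _ => hsplit b))
    refine hE.trans ?_
    unfold xP
    by_cases hd : P ∣ g i - g j
    · rw [if_pos ⟨i, j, hij, hd⟩]
      have h1 : ∀ b : F[X], |aP P (b + g i)| * |aP P (b + g j)| =
          (if P ∣ b + g i then (1:ℝ) else 0) * (1 - gP P ^ 2) + gP P ^ 2 := by
        intro b
        have h2 : aP P (b + g j) = aP P (b + g i) := by
          apply aP_periodic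
          have : b + g j - (b + g i) = -(g i - g j) := by ring
          rw [this]
          exact hd.neg_right
        rw [h2, aP_values P hPI]
        split_ifs
        · norm_num
        · rw [abs_of_pos h0]; ring
      rw [sum_congr rfl (fun b _ => h1 b), sum_add_distrib, ← sum_mul, count_shift hP, sum_const,
        card_PL, nsmul_eq_mul]
      push_cast
      rw [← hQ, add_div, mul_div_cancel_left₀ _ hQ0.ne']
      have h3 : 1 * (1 - gP P ^ 2) / Q ≤ gP P := by
        rw [one_mul]
        refine le_trans ?_ hgQ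
        apply div_le_div_of_nonneg_right _ hQ0.le
        nlinarith
      nlinarith
    · have h1 : ∀ b : F[X], |aP P (b + g i)| * |aP P (b + g j)| ≤
          gP P * (if P ∣ b + g i then (1:ℝ) else 0) + gP P * (if P ∣ b + g j then (1:ℝ) else 0) +
            gP P ^ 2 := by
        intro b
        rw [aP_values P hPI, aP_values P hPI]
        by_cases h2 : P ∣ b + g i
        · by_cases h3 : P ∣ b + g j
          · exfalso
            apply hd
            have : g i - g j = (b + g i) - (b + g j) := by ring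
            rw [this]
            exact dvd_sub h2 h3
          · rw [if_pos h2, if_neg h3, if_pos h2, if_neg h3, abs_of_pos h0]
            norm_num
            nlinarith
        · by_cases h3 : P ∣ b + g j
          · rw [if_neg h2, if_pos h3, if_neg h2, if_pos h3, abs_of_pos h0]
            norm_num
            nlinarith
          · rw [if_neg h2, if_neg h3, if_neg h2, if_neg h3, abs_of_pos h0]
            nlinarith
      have h4 : (∑ b ∈ PL F P.natDegree, |aP P (b + g i)| * |aP P (b + g j)|) / Q ≤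
          (2 * gP P + Q * gP P ^ 2) / Q := by
        apply div_le_div_of_nonneg_right _ hQ0.le
        refine (sum_le_sum (fun b _ => h1 b)).trans (le_of_eq ?_)
        rw [sum_add_distrib, sum_add_distrib, ← mul_sum, ← mul_sum, count_shift hP, count_shift hP,
          sum_const, card_PL, nsmul_eq_mul]
        push_cast
        rw [← hQ]
        ring
      refine h4.trans ?_
      have h5 : (2 * gP P + Q * gP P ^ 2) / Q = 2 * gP P * (1 / Q) + gP P ^ 2 := by
        field_simp
      rw [h5]
      have h6 : 2 * gP P * (1 / Q) ≤ 2 * gP P * gP P := mul_le_mul_of_nonneg_left hgQ (by linarith)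
      have h7 : (0:ℝ) ≤ (if DivD P g then gP P else 0) := by split_ifs <;> linarith
      nlinarith
  · -- one member
    have hc1 : T.card = 1 := by
      have := hT.card_pos
      omega
    obtain ⟨i, rfl⟩ := card_eq_one.mp hc1
    have h1 : EP P {i} g = 0 := by
      unfold EP
      simp only [prod_singleton]
      rw [periodic_shift hP hPI (fun y => aP P y) (fun x y h => aP_periodic h) (g i),
        sum_aP hP hPI, zero_div]
    rw [h1, abs_zero]
    exact xP_nonneg hPI g

/-- **The tail of the singular series of a tuple** -/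
theorem PM_tail {y r : ℕ} (hry : r ≤ y) (g : Fin k → F[X]) :
    |PM (SF F r) g - ∏ P ∈ IrLE F y, beta P g| ≤
      ∑ U ∈ (IrLE F y).powerset.filter (fun U => r < ∑ P ∈ U, P.natDegree),
        ∏ P ∈ U, (2 ^ k * xP P g) := by
  have hSF : SF F r ⊆ (IrLE F y).powerset := by
    intro s hs
    rw [mem_SF] at hs
    rw [mem_powerset]
    intro P hP
    rw [mem_IrLE]
    refine ⟨(hs.1 P hP).1, (hs.1 P hP).2, ?_⟩
    have h3 : P.natDegree ≤ ∑ P ∈ s, P.natDegree :=
      single_le_sum (f := fun P : F[X] => P.natDegree) (fun _ _ => Nat.zero_le _) hP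
    omega
  set A := Fintype.piFinset (fun _ : Fin k => SF F r) with hA
  set B := Fintype.piFinset (fun _ : Fin k => (IrLE F y).powerset) with hB
  have hAB : A ⊆ B := Fintype.piFinset_subset _ _ (fun _ => hSF)
  have h1 : ∏ P ∈ IrLE F y, beta P g - PM (SF F r) g =
      ∑ s ∈ B \ A, ∏ P ∈ Ug s, EP P (Tp s P) g := by
    rw [← PM_powerset]
    unfold PM
    rw [← hA, ← hB, ← sum_sdiff hAB]
    ring
  rw [abs_sub_comm, h1]
  have hprime : ∀ s ∈ B, ∀ P ∈ Ug s, P ∈ IrLE F y := by
    intro s hs P hP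
    obtain ⟨i, hi⟩ := mem_Ug.mp hP
    exact mem_powerset.mp (Fintype.mem_piFinset.mp hs i) hi
  have h2 : ∀ s ∈ B \ A, |∏ P ∈ Ug s, EP P (Tp s P) g| ≤ ∏ P ∈ Ug s, xP P g := by
    intro s hs
    rw [Finset.mem_sdiff] at hs
    rw [abs_prod]
    refine prod_le_prod (fun _ _ => abs_nonneg _) (fun P hP => ?_)
    have h3 := mem_IrLE.mp (hprime s hs.1 P hP)
    exact EP_bound h3.1 h3.2.1 (Tp_nonempty hP) g
  have hmap : ∀ s ∈ B \ A, Ug s ∈ (IrLE F y).powerset.filter (fun U => r < ∑ P ∈ U, P.natDegree) := by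
    intro s hs
    rw [Finset.mem_sdiff] at hs
    rw [mem_filter, mem_powerset]
    refine ⟨fun P hP => hprime s hs.1 P hP, ?_⟩
    by_contra hcon
    push Not at hcon
    apply hs.2
    rw [hA, Fintype.mem_piFinset]
    intro i
    rw [mem_SF]
    refine ⟨fun P hP => ?_, ?_⟩
    · have h3 := mem_IrLE.mp (hprime s hs.1 P (mem_Ug.mpr ⟨i, hP⟩))
      exact ⟨h3.1, h3.2.1⟩
    · refine le_trans (sum_le_sum_of_subset ?_) hcon
      intro P hP
      exact mem_Ug.mpr ⟨i, hP⟩
  calc |∑ s ∈ B \ A, ∏ P ∈ Ug s, EP P (Tp s P) g|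
      ≤ ∑ s ∈ B \ A, ∏ P ∈ Ug s, xP P g :=
        (abs_sum_le_sum_abs _ _).trans (sum_le_sum h2)
    _ = ∑ U ∈ (IrLE F y).powerset.filter (fun U => r < ∑ P ∈ U, P.natDegree),
          ∑ s ∈ (B \ A).filter (fun s => Ug s = U), ∏ P ∈ Ug s, xP P g :=
        (sum_fiberwise_of_maps_to hmap _).symm
    _ ≤ _ := by
        refine sum_le_sum (fun U hU => ?_)
        rw [mem_filter, mem_powerset] at hU
        have hU0 : 0 ≤ ∏ P ∈ U, xP P g := prod_nonneg (fun P hP =>
          xP_nonneg (mem_IrLE.mp (hU.1 hP)).2.1 g)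
        have h3 : ∑ s ∈ (B \ A).filter (fun s => Ug s = U), ∏ P ∈ Ug s, xP P g =
            (((B \ A).filter (fun s => Ug s = U)).card : ℝ) * ∏ P ∈ U, xP P g := by
          rw [← nsmul_eq_mul, ← sum_const]
          exact sum_congr rfl (fun s hs => by rw [(mem_filter.mp hs).2])
        have h4 : ((B \ A).filter (fun s => Ug s = U)).card ≤ (2 ^ k) ^ U.card := by
          have h5 : (B \ A).filter (fun s => Ug s = U) ⊆
              Fintype.piFinset (fun _ : Fin k => U.powerset) := by
            intro s hs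
            rw [mem_filter] at hs
            rw [Fintype.mem_piFinset]
            intro i
            rw [mem_powerset, ← hs.2]
            intro P hP
            exact mem_Ug.mpr ⟨i, hP⟩
          refine (card_le_card h5).trans (le_of_eq ?_)
          rw [Fintype.card_piFinset]
          simp only [card_powerset, prod_const, card_univ, Fintype.card_fin]
          rw [← pow_mul, ← pow_mul, mul_comm]
        rw [h3, prod_mul_distrib, prod_const]
        apply mul_le_mul_of_nonneg_right _ hU0
        exact_mod_cast h4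

end Pool.Agent.H523.CM
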