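import Mathlib

set_option autoImplicit false
set_option linter.unusedSectionVars false

/-! # Tails of sums over subsets -/

namespace Pool.Agent.H523.CM

open Finset

variable {α : Type} [DecidableEq α]

theorem sum_biUnion_le' {ι : Type} (I : Finset ι) (t : ι → Finset α) (δ : α → ℕ) :
    ∑ P ∈ I.biUnion t, δ P ≤ ∑ p ∈ I, ∑ P ∈ t p, δ P := by
  classical
  induction I using Finset.induction_on with
  | empty => simp
  | insert a s ha ih =>
    rw [biUnion_insert, sum_insert ha]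
    have h := sum_union_inter (s₁ := t a) (s₂ := s.biUnion t) (f := δ)
    omega

theorem one_le_prod_one_add (S : Finset α) (w : α → ℝ) (hw : ∀ P ∈ S, 0 ≤ w P) :
    1 ≤ ∏ P ∈ S, (1 + w P) := by
  apply Finset.prod_induction (fun P => 1 + w P) (fun x => 1 ≤ x)
  · intro a b ha hb
    exact one_le_mul_of_one_le_of_one_le ha hb
  · exact le_rfl
  · intro P hP
    have := hw P hP
    linarith

theorem prod_mono_subset {S T : Finset α} (hST : S ⊆ T) (w : α → ℝ) (hw : ∀ P ∈ T, 0 ≤ w P) :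
    ∏ P ∈ S, (1 + w P) ≤ ∏ P ∈ T, (1 + w P) := by
  rw [← prod_sdiff hST]
  apply le_mul_of_one_le_left
  · exact zero_le_one.trans (one_le_prod_one_add S w (fun P hP => hw P (hST hP)))
  · exact one_le_prod_one_add _ w (fun P hP => hw P (sdiff_subset hP))

/-- the sum of the weights of the subsets of size more than `r` -/
noncomputable def Tl (S : Finset α) (w : α → ℝ) (δ : α → ℕ) (r : ℕ) : ℝ :=
  ∑ U ∈ S.powerset.filter (fun U => r < ∑ P ∈ U, δ P), ∏ P ∈ U, w P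

theorem Tl_eq (S : Finset α) (w : α → ℝ) (δ : α → ℕ) (r : ℕ) :
    Tl S w δ r = ∑ U ∈ S.powerset, if r < ∑ P ∈ U, δ P then ∏ P ∈ U, w P else 0 := by
  unfold Tl
  rw [sum_filter]

theorem Tl_nonneg (S : Finset α) (w : α → ℝ) (δ : α → ℕ) (r : ℕ) (hw : ∀ P ∈ S, 0 ≤ w P) :
    0 ≤ Tl S w δ r :=
  sum_nonneg (fun U hU => prod_nonneg (fun P hP =>
    hw P (mem_powerset.mp (mem_filter.mp hU).1 hP)))

theorem Tl_mono {S T : Finset α} (hST : S ⊆ T) (w : α → ℝ) (δ : α → ℕ) (r : ℕ)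
    (hw : ∀ P ∈ T, 0 ≤ w P) : Tl S w δ r ≤ Tl T w δ r := by
  unfold Tl
  apply sum_le_sum_of_subset_of_nonneg
  · intro U hU
    rw [mem_filter, mem_powerset] at hU ⊢
    exact ⟨hU.1.trans hST, hU.2⟩
  · intro U hU _
    exact prod_nonneg (fun P hP => hw P (mem_powerset.mp (mem_filter.mp hU).1 hP))

theorem Tl_weight {S : Finset α} (w w' : α → ℝ) (δ : α → ℕ) (r : ℕ)
    (hw : ∀ P ∈ S, 0 ≤ w P) (hww : ∀ P ∈ S, w P ≤ w' P) : Tl S w δ r ≤ Tl S w' δ r := by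
  unfold Tl
  refine sum_le_sum (fun U hU => ?_)
  have hU' := mem_powerset.mp (mem_filter.mp hU).1
  exact prod_le_prod (fun P hP => hw P (hU' hP)) (fun P hP => hww P (hU' hP))

/-- the sum over the subsets, split with respect to a subset `A` -/
theorem powerset_split {S A : Finset α} (hA : A ⊆ S) (φ : Finset α → ℝ) :
    ∑ U ∈ S.powerset, φ U = ∑ U₁ ∈ A.powerset, ∑ U₂ ∈ (S \ A).powerset, φ (U₁ ∪ U₂) := by
  rw [← sum_product']
  symm
  refine sum_bij' (i := fun p _ => p.1 ∪ p.2) (j := fun U _ => (U ∩ A, U \ A)) ?_ ?_ ?_ ?_ ?_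
  · rintro ⟨U₁, U₂⟩ h
    rw [mem_product, mem_powerset, mem_powerset] at h
    rw [mem_powerset]
    exact union_subset (h.1.trans hA) (h.2.trans sdiff_subset)
  · intro U h
    rw [mem_powerset] at h
    rw [mem_product, mem_powerset, mem_powerset]
    exact ⟨inter_subset_right, sdiff_subset_sdiff h subset_rfl⟩
  · rintro ⟨U₁, U₂⟩ h
    rw [mem_product, mem_powerset, mem_powerset] at h
    have h2 : Disjoint U₂ A := disjoint_of_subset_left h.2 sdiff_disjoint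
    refine Prod.ext ?_ ?_
    · ext x
      simp only [mem_inter, mem_union]
      constructor
      · rintro ⟨hx | hx, hxA⟩
        · exact hx
        · exact absurd hxA (Finset.disjoint_left.mp h2 hx)
      · exact fun hx => ⟨Or.inl hx, h.1 hx⟩
    · ext x
      simp only [Finset.mem_sdiff, mem_union]
      constructor
      · rintro ⟨hx | hx, hxA⟩
        · exact absurd (h.1 hx) hxA
        · exact hx
      · exact fun hx => ⟨Or.inr hx, Finset.disjoint_left.mp h2 hx⟩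
  · intro U _
    ext x
    simp only [mem_union, mem_inter, Finset.mem_sdiff]
    tauto
  · intro _ _
    rfl

theorem prod_split {S A : Finset α} {U₁ U₂ : Finset α} (h1 : U₁ ⊆ A) (h2 : U₂ ⊆ S \ A) (w : α → ℝ) :
    ∏ P ∈ U₁ ∪ U₂, w P = (∏ P ∈ U₁, w P) * ∏ P ∈ U₂, w P := by
  apply prod_union
  exact disjoint_of_subset_left h1 (disjoint_of_subset_right h2 disjoint_sdiff)

theorem sum_split {S A : Finset α} {U₁ U₂ : Finset α} (h1 : U₁ ⊆ A) (h2 : U₂ ⊆ S \ A) (δ : α → ℕ) :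
    ∑ P ∈ U₁ ∪ U₂, δ P = (∑ P ∈ U₁, δ P) + ∑ P ∈ U₂, δ P := by
  apply sum_union
  exact disjoint_of_subset_left h1 (disjoint_of_subset_right h2 disjoint_sdiff)

/-- **Splitting off the part outside `A`** by Rankin's trick -/
theorem split_tail {S A : Finset α} (hA : A ⊆ S) (w : α → ℝ) (hw : ∀ P ∈ S, 0 ≤ w P) (δ : α → ℕ)
    (ω : ℝ) (hω : 1 ≤ ω) {R r : ℕ} (hR : 2 * R ≤ r) :
    Tl S w δ r ≤ (∏ P ∈ S \ A, (1 + w P * ω ^ δ P)) *
      ((1 / ω) ^ R * ∏ P ∈ A, (1 + w P) + Tl A w δ R) := by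
  have hω0 : 0 < ω := by linarith
  rw [Tl_eq, powerset_split hA]
  have h1 : ∀ U₁ ∈ A.powerset, ∀ U₂ ∈ (S \ A).powerset,
      (if r < ∑ P ∈ U₁ ∪ U₂, δ P then ∏ P ∈ U₁ ∪ U₂, w P else 0) ≤
      ((1 / ω) ^ R * ∏ P ∈ U₁, w P + (if R < ∑ P ∈ U₁, δ P then ∏ P ∈ U₁, w P else 0)) *
        ∏ P ∈ U₂, (w P * ω ^ δ P) := by
    intro U₁ hU₁ U₂ hU₂
    rw [mem_powerset] at hU₁ hU₂
    have hw1 : 0 ≤ ∏ P ∈ U₁, w P := prod_nonneg (fun P hP => hw P (hA (hU₁ hP)))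
    have hw2 : 0 ≤ ∏ P ∈ U₂, w P := prod_nonneg (fun P hP => hw P (sdiff_subset (hU₂ hP)))
    have hω2 : ∏ P ∈ U₂, (w P * ω ^ δ P) = (∏ P ∈ U₂, w P) * ω ^ (∑ P ∈ U₂, δ P) := by
      rw [prod_mul_distrib, prod_pow_eq_pow_sum]
    have hωp : 1 ≤ ω ^ (∑ P ∈ U₂, δ P) := one_le_pow₀ hω
    rw [prod_split hU₁ hU₂, sum_split hU₁ hU₂, hω2]
    by_cases hr : r < ∑ P ∈ U₁, δ P + ∑ P ∈ U₂, δ P
    · rw [if_pos hr]
      by_cases hR1 : R < ∑ P ∈ U₁, δ P
      · rw [if_pos hR1]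
        have h3 : (∏ P ∈ U₁, w P) * (∏ P ∈ U₂, w P) ≤
            (∏ P ∈ U₁, w P) * ((∏ P ∈ U₂, w P) * ω ^ (∑ P ∈ U₂, δ P)) :=
          mul_le_mul_of_nonneg_left (le_mul_of_one_le_right hw2 hωp) hw1
        have h4 : 0 ≤ (1 / ω) ^ R * (∏ P ∈ U₁, w P) * ((∏ P ∈ U₂, w P) * ω ^ (∑ P ∈ U₂, δ P)) := by
          positivity
        nlinarith
      · rw [if_neg hR1, add_zero]
        have h3 : R ≤ ∑ P ∈ U₂, δ P := by omega
        have h4 : ω ^ R ≤ ω ^ (∑ P ∈ U₂, δ P) := pow_le_pow_right₀ hω h3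
        have h5 : 1 ≤ (1 / ω) ^ R * ω ^ (∑ P ∈ U₂, δ P) := by
          rw [one_div_pow, one_div_mul_eq_div, le_div_iff₀ (by positivity), one_mul]
          exact h4
        calc (∏ P ∈ U₁, w P) * (∏ P ∈ U₂, w P)
            ≤ ((∏ P ∈ U₁, w P) * (∏ P ∈ U₂, w P)) * ((1 / ω) ^ R * ω ^ (∑ P ∈ U₂, δ P)) :=
              le_mul_of_one_le_right (by positivity) h5
          _ = _ := by ring
    · rw [if_neg hr]
      have h3 : (0:ℝ) ≤ (if R < ∑ P ∈ U₁, δ P then ∏ P ∈ U₁, w P else 0) := by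
        split_ifs
        · exact hw1
        · exact le_rfl
      positivity
  refine (sum_le_sum (fun U₁ hU₁ => sum_le_sum (fun U₂ hU₂ => h1 U₁ hU₁ U₂ hU₂))).trans (le_of_eq ?_)
  rw [Tl_eq, prod_one_add, prod_one_add, mul_sum, ← sum_add_distrib, mul_comm, sum_mul_sum]

/-- **The tail of a union** -/
theorem union_tail {ι : Type} (I : Finset ι) {A : Finset α} (Ap : ι → Finset α)
    (hsub : ∀ p ∈ I, Ap p ⊆ A) (hcov : ∀ P ∈ A, ∃ p ∈ I, P ∈ Ap p) (w : α → ℝ)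
    (hw : ∀ P ∈ A, 0 ≤ w P) (δ : α → ℕ) {R R' : ℕ} (hR : I.card * R' ≤ R) :
    Tl A w δ R ≤ (∑ p ∈ I, Tl (Ap p) w δ R') * ∏ P ∈ A, (1 + w P) := by
  have h1 : ∀ U ∈ A.powerset, (if R < ∑ P ∈ U, δ P then ∏ P ∈ U, w P else 0) ≤
      ∑ p ∈ I, (if R' < ∑ P ∈ U ∩ Ap p, δ P then ∏ P ∈ U, w P else 0) := by
    intro U hU
    rw [mem_powerset] at hU
    have hw0 : 0 ≤ ∏ P ∈ U, w P := prod_nonneg (fun P hP => hw P (hU hP))
    have hnn : ∀ p ∈ I, (0:ℝ) ≤ (if R' < ∑ P ∈ U ∩ Ap p, δ P then ∏ P ∈ U, w P else 0) := by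
      intro p _
      split_ifs
      · exact hw0
      · exact le_rfl
    split_ifs with hr
    · have h2 : ∃ p ∈ I, R' < ∑ P ∈ U ∩ Ap p, δ P := by
        by_contra hcon
        push Not at hcon
        have h3 : ∑ P ∈ U, δ P ≤ ∑ p ∈ I, ∑ P ∈ U ∩ Ap p, δ P := by
          have h4 : U ⊆ I.biUnion (fun p => U ∩ Ap p) := by
            intro P hP
            obtain ⟨p, hp, hPp⟩ := hcov P (hU hP)
            exact mem_biUnion.mpr ⟨p, hp, mem_inter.mpr ⟨hP, hPp⟩⟩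
          calc ∑ P ∈ U, δ P ≤ ∑ P ∈ I.biUnion (fun p => U ∩ Ap p), δ P := sum_le_sum_of_subset h4
            _ ≤ ∑ p ∈ I, ∑ P ∈ U ∩ Ap p, δ P := sum_biUnion_le' _ _ _
        have h5 : ∑ p ∈ I, ∑ P ∈ U ∩ Ap p, δ P ≤ I.card * R' := by
          calc _ ≤ ∑ _p ∈ I, R' := sum_le_sum hcon
            _ = _ := by rw [sum_const, smul_eq_mul]
        omega
      obtain ⟨p, hp, hpr⟩ := h2
      calc ∏ P ∈ U, w P = (if R' < ∑ P ∈ U ∩ Ap p, δ P then ∏ P ∈ U, w P else 0) := by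
            rw [if_pos hpr]
        _ ≤ _ := single_le_sum (f := fun p => if R' < ∑ P ∈ U ∩ Ap p, δ P then ∏ P ∈ U, w P else 0)
            hnn hp
    · exact sum_nonneg hnn
  rw [Tl_eq]
  refine (sum_le_sum h1).trans ?_
  rw [sum_comm, sum_mul]
  refine sum_le_sum (fun p hp => ?_)
  rw [powerset_split (hsub p hp), Tl_eq, sum_mul]
  refine sum_le_sum (fun U₁ hU₁ => ?_)
  rw [mem_powerset] at hU₁
  have hw1 : 0 ≤ ∏ P ∈ U₁, w P := prod_nonneg (fun P hP => hw P (hsub p hp (hU₁ hP)))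
  have h2 : ∀ U₂ ∈ (A \ Ap p).powerset,
      (if R' < ∑ P ∈ (U₁ ∪ U₂) ∩ Ap p, δ P then ∏ P ∈ U₁ ∪ U₂, w P else 0) =
      (if R' < ∑ P ∈ U₁, δ P then ∏ P ∈ U₁, w P else 0) * ∏ P ∈ U₂, w P := by
    intro U₂ hU₂
    rw [mem_powerset] at hU₂
    have h3 : (U₁ ∪ U₂) ∩ Ap p = U₁ := by
      ext x
      simp only [mem_inter, mem_union]
      constructor
      · rintro ⟨hx | hx, hxA⟩
        · exact hx
        · exact absurd hxA (Finset.mem_sdiff.mp (hU₂ hx)).2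
      · exact fun hx => ⟨Or.inl hx, hU₁ hx⟩
    rw [h3, prod_split hU₁ hU₂]
    split_ifs
    · rfl
    · rw [zero_mul]
  rw [sum_congr rfl h2, ← mul_sum]
  apply mul_le_mul_of_nonneg_left
  · rw [← prod_one_add]
    exact prod_mono_subset sdiff_subset w hw
  · split_ifs
    · exact hw1
    · exact le_rfl

/-- a subset of controlled size -/
theorem exists_block (δ : α → ℕ) {j₀ R : ℕ} (U : Finset α) (hj : ∀ P ∈ U, δ P ≤ j₀)
    (hU : R < ∑ P ∈ U, δ P) : ∃ V ⊆ U, R < ∑ P ∈ V, δ P ∧ ∑ P ∈ V, δ P ≤ R + j₀ := by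
  induction U using Finset.induction_on with
  | empty => simp at hU
  | insert a s ha ih =>
    by_cases h : R < ∑ P ∈ s, δ P
    · obtain ⟨V, hV, h1, h2⟩ := ih (fun P hP => hj P (mem_insert_of_mem hP)) h
      exact ⟨V, hV.trans (subset_insert _ _), h1, h2⟩
    · refine ⟨insert a s, subset_rfl, hU, ?_⟩
      rw [sum_insert ha]
      have := hj a (mem_insert_self a s)
      omega

/-- **The tail is controlled by the blocks** -/
theorem block_tail {A : Finset α} (w : α → ℝ) (hw : ∀ P ∈ A, 0 ≤ w P) (δ : α → ℕ) {j₀ R : ℕ}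
    (hj : ∀ P ∈ A, δ P ≤ j₀) :
    Tl A w δ R ≤ (∑ V ∈ A.powerset.filter (fun V => R < ∑ P ∈ V, δ P ∧ ∑ P ∈ V, δ P ≤ R + j₀),
      ∏ P ∈ V, w P) * ∏ P ∈ A, (1 + w P) := by
  set 𝒱 := A.powerset.filter (fun V => R < ∑ P ∈ V, δ P ∧ ∑ P ∈ V, δ P ≤ R + j₀) with h𝒱
  have h1 : ∀ U ∈ A.powerset, (if R < ∑ P ∈ U, δ P then ∏ P ∈ U, w P else 0) ≤
      ∑ V ∈ 𝒱, (if V ⊆ U then ∏ P ∈ U, w P else 0) := by
    intro U hU
    rw [mem_powerset] at hU
    have hw0 : 0 ≤ ∏ P ∈ U, w P := prod_nonneg (fun P hP => hw P (hU hP))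
    have hnn : ∀ V ∈ 𝒱, (0:ℝ) ≤ (if V ⊆ U then ∏ P ∈ U, w P else 0) := by
      intro V _
      split_ifs
      · exact hw0
      · exact le_rfl
    split_ifs with hr
    · obtain ⟨V, hV, h2, h3⟩ := exists_block δ U (fun P hP => hj P (hU hP)) hr
      calc ∏ P ∈ U, w P = (if V ⊆ U then ∏ P ∈ U, w P else 0) := by rw [if_pos hV]
        _ ≤ _ := single_le_sum (f := fun V => if V ⊆ U then ∏ P ∈ U, w P else 0) hnn
            (by rw [h𝒱, mem_filter, mem_powerset]; exact ⟨hV.trans hU, h2, h3⟩)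
    · exact sum_nonneg hnn
  rw [Tl_eq]
  refine (sum_le_sum h1).trans ?_
  rw [sum_comm, sum_mul]
  refine sum_le_sum (fun V hV => ?_)
  rw [h𝒱, mem_filter, mem_powerset] at hV
  have hw1 : 0 ≤ ∏ P ∈ V, w P := prod_nonneg (fun P hP => hw P (hV.1 hP))
  rw [powerset_split hV.1]
  have h2 : ∀ U₁ ∈ V.powerset, U₁ ≠ V → ∑ U₂ ∈ (A \ V).powerset,
      (if V ⊆ U₁ ∪ U₂ then ∏ P ∈ U₁ ∪ U₂, w P else 0) = 0 := by
    intro U₁ hU₁ hne
    rw [mem_powerset] at hU₁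
    refine sum_eq_zero (fun U₂ hU₂ => ?_)
    rw [mem_powerset] at hU₂
    rw [if_neg]
    intro hsub
    apply hne
    apply subset_antisymm hU₁
    intro x hx
    rcases mem_union.mp (hsub hx) with h | h
    · exact h
    · exact absurd hx (Finset.mem_sdiff.mp (hU₂ h)).2
  rw [sum_eq_single_of_mem V (mem_powerset_self V) h2]
  have h3 : ∀ U₂ ∈ (A \ V).powerset, (if V ⊆ V ∪ U₂ then ∏ P ∈ V ∪ U₂, w P else 0) =
      (∏ P ∈ V, w P) * ∏ P ∈ U₂, w P := by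
    intro U₂ hU₂
    rw [mem_powerset] at hU₂
    rw [if_pos subset_union_left, prod_split subset_rfl hU₂]
  rw [sum_congr rfl h3, ← mul_sum]
  apply mul_le_mul_of_nonneg_left _ hw1
  rw [← prod_one_add]
  exact prod_mono_subset sdiff_subset w hw

end Pool.Agent.H523.CM
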