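import Pool.Agent.H523.CM40
import Pool.Agent.H523.CM41

set_option autoImplicit false
set_option linter.unusedSectionVars false

/-! # The tail of the singular series of a tuple -/

namespace Pool.Agent.H523.CM

open Polynomial Finset
open Pool.Agent.H341R2.Sharp (Mon mem_Mon)
open Pool.Agent.H523.FF (Ir mem_Ir PL mem_PL card_PL two_le_card IrLE mem_IrLE irr_coprime PL_mod
  Ir_card sum_IrLE)

open scoped Classical

variable {F : Type} [Field F] [Fintype F] {k : ℕ}

variable (F) in
/-- the fourth root of the number of elements of the field -/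
noncomputable def om : ℝ := Real.sqrt (Real.sqrt (Fintype.card F : ℝ))

theorem om_pos : 0 < om F := by
  have hq := two_le_card (F := F)
  unfold om
  exact Real.sqrt_pos.mpr (Real.sqrt_pos.mpr (by linarith))

theorem om_four : om F ^ 4 = (Fintype.card F : ℝ) := by
  have hq := two_le_card (F := F)
  unfold om
  have h1 : Real.sqrt (Real.sqrt (Fintype.card F : ℝ)) ^ 2 = Real.sqrt (Fintype.card F : ℝ) :=
    Real.sq_sqrt (Real.sqrt_nonneg _)
  have h2 : Real.sqrt (Fintype.card F : ℝ) ^ 2 = (Fintype.card F : ℝ) := Real.sq_sqrt (by linarith)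
  calc Real.sqrt (Real.sqrt (Fintype.card F : ℝ)) ^ 4 =
      (Real.sqrt (Real.sqrt (Fintype.card F : ℝ)) ^ 2) ^ 2 := by ring
    _ = _ := by rw [h1, h2]

theorem one_lt_om : 1 < om F := by
  have hq := two_le_card (F := F)
  by_contra h
  push Not at h
  have h1 : om F ^ 4 ≤ 1 := pow_le_one₀ om_pos.le h
  rw [om_four] at h1
  linarith

theorem om_div : om F / (Fintype.card F : ℝ) = (1 / om F) ^ 3 := by
  have h0 := om_pos (F := F)
  rw [← om_four (F := F)]
  field_simp

theorem om_div_le : (1 / om F) ^ 3 ≤ 3 / 5 := by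
  have h0 := om_pos (F := F)
  have hq := two_le_card (F := F)
  by_contra h
  push Not at h
  have h1 : ((3:ℝ) / 5) ^ 4 < ((1 / om F) ^ 3) ^ 4 := pow_lt_pow_left₀ h (by norm_num) (by norm_num)
  have h2 : ((1 / om F) ^ 3) ^ 4 = 1 / (om F ^ 4) ^ 3 := by
    rw [one_div_pow, one_div_pow, ← pow_mul, ← pow_mul]
  rw [h2, om_four] at h1
  have h3 : (8:ℝ) ≤ (Fintype.card F : ℝ) ^ 3 := by
    calc (8:ℝ) = 2 ^ 3 := by norm_num
      _ ≤ _ := pow_le_pow_left₀ (by norm_num) hq 3
  have h4 : 1 / (Fintype.card F : ℝ) ^ 3 ≤ 1 / 8 := one_div_le_one_div_of_le (by norm_num) h3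
  have h5 : ((3:ℝ) / 5) ^ 4 = 81 / 625 := by norm_num
  rw [h5] at h1
  linarith

theorem geo35 (y : ℕ) : ∑ e ∈ Finset.Icc 1 y, ((3:ℝ) / 5) ^ e ≤ 3 / 2 - 3 / 2 * (3 / 5) ^ y := by
  induction y with
  | zero => simp
  | succ y ih =>
    rw [sum_Icc_succ_top (by omega)]
    have h1 : ((3:ℝ) / 5) ^ (y + 1) = (3 / 5) ^ y * (3 / 5) := pow_succ _ _
    rw [h1]
    linarith

/-- the sum of `ω ^ deg P / |P| ^ 2` -/
theorem sum_om (y : ℕ) :
    ∑ P ∈ IrLE F y, om F ^ P.natDegree / ((Fintype.card F : ℝ) ^ P.natDegree) ^ 2 ≤ 3 / 2 := by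
  have hq := two_le_card (F := F)
  set q : ℝ := (Fintype.card F : ℝ) with hqd
  have hq0 : 0 < q := by linarith
  have h0 := om_pos (F := F)
  unfold IrLE
  rw [sum_IrLE (Finset.Icc 1 y) (fun e => om F ^ e / (q ^ e) ^ 2)]
  calc ∑ e ∈ Finset.Icc 1 y, ((Ir F e).card : ℝ) * (om F ^ e / (q ^ e) ^ 2)
      ≤ ∑ e ∈ Finset.Icc 1 y, ((3:ℝ) / 5) ^ e := by
        refine sum_le_sum (fun e he => ?_)
        rw [Finset.mem_Icc] at he
        have h1 := Ir_card (F := F) e (by omega)
        have h2 : (Ir F e).card ≤ Fintype.card F ^ e :=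
          le_trans (Nat.le_mul_of_pos_left _ (by omega)) h1
        have h3 : ((Ir F e).card : ℝ) ≤ q ^ e := by rw [hqd]; exact_mod_cast h2
        calc ((Ir F e).card : ℝ) * (om F ^ e / (q ^ e) ^ 2) ≤ q ^ e * (om F ^ e / (q ^ e) ^ 2) :=
              mul_le_mul_of_nonneg_right h3 (by positivity)
          _ = (om F / q) ^ e := by
              rw [div_pow]
              field_simp
          _ ≤ (3 / 5) ^ e := by
              apply pow_le_pow_left₀ (by positivity)
              rw [hqd, om_div]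
              exact om_div_le
    _ ≤ 3 / 2 - 3 / 2 * (3 / 5) ^ y := geo35 y
    _ ≤ 3 / 2 := by
        have : (0:ℝ) ≤ 3 / 2 * (3 / 5) ^ y := by positivity
        linarith

theorem gP_le_two {P : F[X]} (hP : Irreducible P) : gP P ≤ 2 / (Fintype.card F : ℝ) ^ P.natDegree := by
  have hn := norm_gt hP
  have h1 := gP_le_one hP
  rw [gP_eq hP]
  apply div_le_div_of_nonneg_right _ (by linarith)
  linarith

/-- the number of the primes that divide a difference -/
theorem card_DivD {n y : ℕ} (g : Fin k → F[X]) (hg : ∀ i, (g i).degree < n)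
    (hinj : Function.Injective g) :
    (((IrLE F y).filter (fun P => DivD P g)).card : ℝ) ≤ (k:ℝ) ^ 2 * n := by
  set I : Finset (Fin k × Fin k) := univ.filter (fun p => p.1 ≠ p.2) with hI
  have hsub : (IrLE F y).filter (fun P => DivD P g) ⊆
      I.biUnion (fun p => (IrLE F y).filter (fun P => P ∣ g p.1 - g p.2)) := by
    intro P hP
    rw [mem_filter] at hP
    obtain ⟨i, j, hij, hd⟩ := hP.2
    rw [mem_biUnion]
    exact ⟨(i, j), mem_filter.mpr ⟨mem_univ _, hij⟩, mem_filter.mpr ⟨hP.1, hd⟩⟩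
  have h1 : ∀ p ∈ I, ((IrLE F y).filter (fun P => P ∣ g p.1 - g p.2)).card ≤ n := by
    intro p hp
    rw [hI, mem_filter] at hp
    have h0 : g p.1 - g p.2 ≠ 0 := by
      rw [sub_ne_zero]
      exact fun h => hp.2 (hinj h)
    refine (card_prime_divisors (S := (IrLE F y).filter (fun P => P ∣ g p.1 - g p.2)) (fun P hP => by
      have := mem_IrLE.mp (mem_filter.mp hP).1
      exact ⟨this.1, this.2.1⟩) h0 (fun P hP => (mem_filter.mp hP).2)).trans ?_
    have h2 : (g p.1 - g p.2).degree < (n : WithBot ℕ) :=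
      lt_of_le_of_lt (degree_sub_le _ _) (max_lt (hg _) (hg _))
    rw [degree_eq_natDegree h0] at h2
    have : (g p.1 - g p.2).natDegree < n := by exact_mod_cast h2
    omega
  have h2 : I.card ≤ k ^ 2 := by
    calc I.card ≤ (univ : Finset (Fin k × Fin k)).card := card_filter_le _ _
      _ = k ^ 2 := by rw [card_univ, Fintype.card_prod, Fintype.card_fin, sq]
  have h3 : ((IrLE F y).filter (fun P => DivD P g)).card ≤ k ^ 2 * n := by
    calc _ ≤ ∑ p ∈ I, ((IrLE F y).filter (fun P => P ∣ g p.1 - g p.2)).card :=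
          (card_le_card hsub).trans card_biUnion_le
      _ ≤ ∑ _p ∈ I, n := sum_le_sum h1
      _ = I.card * n := by rw [sum_const, smul_eq_mul]
      _ ≤ k ^ 2 * n := Nat.mul_le_mul_right _ h2
  exact_mod_cast h3

/-- the small primes that divide a difference -/
noncomputable def Asm (j₀ y : ℕ) (g : Fin k → F[X]) : Finset F[X] :=
  (IrLE F y).filter (fun P => DivD P g ∧ P.natDegree ≤ j₀)

/-- the contribution of the other primes is bounded -/
theorem prod_lo {n y j₀ : ℕ} (hn : 1 ≤ n) (hj₀ : (n:ℝ) ≤ om F ^ (3 * j₀)) (g : Fin k → F[X])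
    (hg : ∀ i, (g i).degree < n) (hinj : Function.Injective g) :
    ∏ P ∈ IrLE F y \ Asm j₀ y g, (1 + 2 ^ k * xP P g * om F ^ P.natDegree) ≤
      Real.exp (2 ^ k * (18 + 2 * (k:ℝ) ^ 2)) := by
  have hq := two_le_card (F := F)
  set q : ℝ := (Fintype.card F : ℝ) with hqd
  have hq0 : 0 < q := by linarith
  have h0 := om_pos (F := F)
  have h01 := one_lt_om (F := F)
  have hnr : (0:ℝ) < n := by exact_mod_cast hn
  have hpr : ∀ P ∈ IrLE F y \ Asm j₀ y g, P.Monic ∧ Irreducible P := by
    intro P hP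
    have := mem_IrLE.mp (Finset.mem_sdiff.mp hP).1
    exact ⟨this.1, this.2.1⟩
  calc ∏ P ∈ IrLE F y \ Asm j₀ y g, (1 + 2 ^ k * xP P g * om F ^ P.natDegree)
      ≤ ∏ P ∈ IrLE F y \ Asm j₀ y g, Real.exp (2 ^ k * xP P g * om F ^ P.natDegree) := by
        refine prod_le_prod (fun P hP => ?_) (fun P hP => ?_)
        · have := xP_nonneg (hpr P hP).2 g
          positivity
        · have := Real.add_one_le_exp (2 ^ k * xP P g * om F ^ P.natDegree)
          linarith
    _ = Real.exp (2 ^ k * ∑ P ∈ IrLE F y \ Asm j₀ y g, xP P g * om F ^ P.natDegree) := by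
        rw [← Real.exp_sum, mul_sum]
        congr 1
        exact sum_congr rfl (fun P _ => by ring)
    _ ≤ _ := by
        apply Real.exp_le_exp.mpr
        apply mul_le_mul_of_nonneg_left _ (by positivity)
        have h1 : ∀ P ∈ IrLE F y \ Asm j₀ y g, xP P g * om F ^ P.natDegree ≤
            12 * (om F ^ P.natDegree / (q ^ P.natDegree) ^ 2) +
              (if DivD P g then 2 / (n:ℝ) else 0) := by
          intro P hP
          have hPI := (hpr P hP).2
          have hg0 := gP_pos hPI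
          have hg2 := gP_le_two hPI
          rw [← hqd] at hg2
          have hqp : 0 < q ^ P.natDegree := by positivity
          have homp : 0 < om F ^ P.natDegree := by positivity
          unfold xP
          rw [add_mul]
          apply add_le_add
          · have h2 : gP P ^ 2 ≤ (2 / q ^ P.natDegree) ^ 2 := pow_le_pow_left₀ hg0.le hg2 2
            calc 3 * gP P ^ 2 * om F ^ P.natDegree ≤ 3 * (2 / q ^ P.natDegree) ^ 2 * om F ^ P.natDegree := by
                  apply mul_le_mul_of_nonneg_right _ homp.le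
                  linarith
              _ = _ := by
                  rw [div_pow]
                  ring
          · split_ifs with hd
            · -- the degree is more than `j₀`
              have h3 : j₀ < P.natDegree := by
                by_contra hcon
                push Not at hcon
                exact (Finset.mem_sdiff.mp hP).2
                  (mem_filter.mpr ⟨(Finset.mem_sdiff.mp hP).1, hd, hcon⟩)
              have h4 : om F ^ P.natDegree / q ^ P.natDegree ≤ 1 / n := by
                rw [← div_pow, hqd, om_div, ← pow_mul, one_div_pow]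
                apply one_div_le_one_div_of_le hnr
                refine hj₀.trans (pow_le_pow_right₀ h01.le ?_)
                omega
              calc gP P * om F ^ P.natDegree ≤ 2 / q ^ P.natDegree * om F ^ P.natDegree :=
                    mul_le_mul_of_nonneg_right hg2 homp.le
                _ = 2 * (om F ^ P.natDegree / q ^ P.natDegree) := by ring
                _ ≤ 2 * (1 / n) := mul_le_mul_of_nonneg_left h4 (by norm_num)
                _ = 2 / n := by ring
            · rw [zero_mul]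
        calc ∑ P ∈ IrLE F y \ Asm j₀ y g, xP P g * om F ^ P.natDegree
            ≤ ∑ P ∈ IrLE F y \ Asm j₀ y g, (12 * (om F ^ P.natDegree / (q ^ P.natDegree) ^ 2) +
              (if DivD P g then 2 / (n:ℝ) else 0)) := sum_le_sum h1
          _ ≤ ∑ P ∈ IrLE F y, (12 * (om F ^ P.natDegree / (q ^ P.natDegree) ^ 2) +
              (if DivD P g then 2 / (n:ℝ) else 0)) := by
              apply sum_le_sum_of_subset_of_nonneg sdiff_subset
              intro P _ _
              have : (0:ℝ) ≤ (if DivD P g then 2 / (n:ℝ) else 0) := by split_ifs <;> positivity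
              positivity
          _ = 12 * ∑ P ∈ IrLE F y, om F ^ P.natDegree / (q ^ P.natDegree) ^ 2 +
              (((IrLE F y).filter (fun P => DivD P g)).card : ℝ) * (2 / n) := by
              rw [sum_add_distrib, ← mul_sum, ← sum_filter, sum_const, nsmul_eq_mul]
          _ ≤ 12 * (3 / 2) + ((k:ℝ) ^ 2 * n) * (2 / n) := by
              apply add_le_add
              · exact mul_le_mul_of_nonneg_left (sum_om y) (by norm_num)
              · exact mul_le_mul_of_nonneg_right (card_DivD g hg hinj) (by positivity)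
          _ = _ := by
              field_simp
              ring

/-- the product over the small primes -/
theorem prod_small {y j₀ : ℕ} (hj : 1 ≤ j₀) (g : Fin k → F[X]) :
    ∏ P ∈ Asm j₀ y g, (1 + 2 ^ k * xP P g) ≤ (Real.exp 3 * j₀) ^ (2 ^ (k + 2)) := by
  have hw : ∀ P ∈ Asm j₀ y g, 2 ^ k * xP P g ≤ 2 ^ (k + 2) * gP P := by
    intro P hP
    rw [Asm, mem_filter] at hP
    have hPI := (mem_IrLE.mp hP.1).2.1
    have h0 := gP_pos hPI
    have h1 := gP_le_one hPI
    unfold xP
    rw [if_pos hP.2.1, pow_add]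
    have h2 : 3 * gP P ^ 2 + gP P ≤ 2 ^ 2 * gP P := by nlinarith
    calc 2 ^ k * (3 * gP P ^ 2 + gP P) ≤ 2 ^ k * (2 ^ 2 * gP P) :=
          mul_le_mul_of_nonneg_left h2 (by positivity)
      _ = _ := by ring
  have hsub : Asm j₀ y g ⊆ IrLE F j₀ := by
    intro P hP
    rw [Asm, mem_filter, mem_IrLE] at hP
    rw [mem_IrLE]
    exact ⟨hP.1.1, hP.1.2.1, hP.2.2⟩
  calc ∏ P ∈ Asm j₀ y g, (1 + 2 ^ k * xP P g) ≤ ∏ P ∈ Asm j₀ y g, (1 + 2 ^ (k + 2) * gP P) := by
        refine prod_le_prod (fun P hP => ?_) (fun P hP => ?_)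
        · have := xP_nonneg (mem_IrLE.mp (hsub hP)).2.1 g
          positivity
        · have := hw P hP
          linarith
    _ ≤ ∏ P ∈ IrLE F j₀, (1 + 2 ^ (k + 2) * gP P) := by
        apply prod_mono_subset hsub
        intro P hP
        have := gP_pos (mem_IrLE.mp hP).2.1
        positivity
    _ ≤ ∏ P ∈ IrLE F j₀, (1 + gP P) ^ (2 ^ (k + 2)) := by
        refine prod_le_prod (fun P hP => ?_) (fun P hP => ?_)
        · have := gP_pos (mem_IrLE.mp hP).2.1
          positivity
        · have h1 := one_add_mul_le_pow (a := gP P) (by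
            have := gP_pos (mem_IrLE.mp hP).2.1
            linarith) (2 ^ (k + 2))
          push_cast at h1
          exact h1
    _ = (∏ P ∈ IrLE F j₀, (1 + gP P)) ^ (2 ^ (k + 2)) := by rw [prod_pow]
    _ ≤ _ := by
        apply pow_le_pow_left₀
        · exact prod_nonneg (fun P hP => by
            have := gP_pos (mem_IrLE.mp hP).2.1
            positivity)
        · exact mertens (by omega)

/-- the blocks of the small prime divisors of `x` -/
noncomputable def tauB (κ : ℝ) (j₀ R : ℕ) (x : F[X]) : ℝ :=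
  ∑ V ∈ (IrLE F j₀).powerset.filter (fun V => R < ∑ P ∈ V, P.natDegree ∧
    ∑ P ∈ V, P.natDegree ≤ R + j₀), if ∏ P ∈ V, P ∣ x then ∏ P ∈ V, (κ * gP P) else 0

theorem tauB_nonneg {κ : ℝ} (hκ : 0 ≤ κ) (j₀ R : ℕ) (x : F[X]) : 0 ≤ tauB κ j₀ R x := by
  refine sum_nonneg (fun V hV => ?_)
  rw [mem_filter, mem_powerset] at hV
  split_ifs
  · refine prod_nonneg (fun P hP => ?_)
    have := gP_pos (mem_IrLE.mp (hV.1 hP)).2.1
    positivity
  · exact le_rfl

/-- **The average of the blocks over a disc** -/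
theorem tauB_avg {κ : ℝ} (hκ : 0 ≤ κ) {m j₀ R : ℕ} (hm : R + j₀ ≤ m) (B : F[X]) :
    ∑ h ∈ PL F m, tauB κ j₀ R (B - h) ≤
      (Fintype.card F : ℝ) ^ m * ((1 / om F) ^ R * Real.exp (3 * κ)) := by
  have hq := two_le_card (F := F)
  set q : ℝ := (Fintype.card F : ℝ) with hqd
  have hq0 : 0 < q := by linarith
  have h0 := om_pos (F := F)
  have h01 := one_lt_om (F := F)
  unfold tauB
  rw [sum_comm]
  set 𝒱 := (IrLE F j₀).powerset.filter (fun V => R < ∑ P ∈ V, P.natDegree ∧
    ∑ P ∈ V, P.natDegree ≤ R + j₀) with h𝒱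
  have hV : ∀ V ∈ 𝒱, (∀ P ∈ V, P.Monic ∧ Irreducible P) ∧ R < ∑ P ∈ V, P.natDegree ∧
      ∑ P ∈ V, P.natDegree ≤ m := by
    intro V hV
    rw [h𝒱, mem_filter, mem_powerset] at hV
    refine ⟨fun P hP => ?_, hV.2.1, by omega⟩
    have := mem_IrLE.mp (hV.1 hP)
    exact ⟨this.1, this.2.1⟩
  have h1 : ∀ V ∈ 𝒱, ∑ h ∈ PL F m, (if ∏ P ∈ V, P ∣ B - h then ∏ P ∈ V, (κ * gP P) else 0) =
      q ^ m * ∏ P ∈ V, (κ * gP P / q ^ P.natDegree) := by
    intro V hVm
    obtain ⟨hVp, _, hVd⟩ := hV V hVm
    rw [← sum_filter, sum_const, nsmul_eq_mul]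
    have h2 : (PL F m).filter (fun h => ∏ P ∈ V, P ∣ B - h) =
        (PL F m).filter (fun h => ∏ P ∈ V, P ∣ h - B) := by
      apply filter_congr
      intro h _
      rw [← dvd_neg, neg_sub]
    rw [h2, PL_mod (∏ P ∈ V, P) (monic_pr hVp) B m (by rw [natDegree_pr hVp]; exact hVd),
      natDegree_pr hVp, prod_div_distrib, prod_pow_eq_pow_sum]
    have h3 : q ^ m = q ^ (m - ∑ P ∈ V, P.natDegree) * q ^ (∑ P ∈ V, P.natDegree) := by
      rw [← pow_add, Nat.sub_add_cancel hVd]
    rw [h3]
    push_cast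
    rw [← hqd]
    field_simp
  rw [sum_congr rfl h1, ← mul_sum]
  apply mul_le_mul_of_nonneg_left _ (by positivity)
  have h2 : ∀ V ∈ 𝒱, ∏ P ∈ V, (κ * gP P / q ^ P.natDegree) ≤
      (1 / om F) ^ R * ∏ P ∈ V, (κ * gP P / q ^ P.natDegree * om F ^ P.natDegree) := by
    intro V hVm
    obtain ⟨hVp, hVR, _⟩ := hV V hVm
    have h3 : 0 ≤ ∏ P ∈ V, (κ * gP P / q ^ P.natDegree) := prod_nonneg (fun P hP => by
      have := gP_pos (hVp P hP).2
      positivity)
    rw [prod_mul_distrib, prod_pow_eq_pow_sum]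
    have h4 : 1 ≤ (1 / om F) ^ R * om F ^ (∑ P ∈ V, P.natDegree) := by
      rw [one_div_pow, one_div_mul_eq_div, le_div_iff₀ (by positivity), one_mul]
      exact pow_le_pow_right₀ h01.le hVR.le
    calc ∏ P ∈ V, (κ * gP P / q ^ P.natDegree)
        ≤ (∏ P ∈ V, (κ * gP P / q ^ P.natDegree)) * ((1 / om F) ^ R * om F ^ (∑ P ∈ V, P.natDegree)) :=
          le_mul_of_one_le_right h3 h4
      _ = _ := by ring
  have hterm : ∀ P ∈ IrLE F j₀, 0 ≤ κ * gP P / q ^ P.natDegree * om F ^ P.natDegree := by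
    intro P hP
    have := gP_pos (mem_IrLE.mp hP).2.1
    positivity
  calc ∑ V ∈ 𝒱, ∏ P ∈ V, (κ * gP P / q ^ P.natDegree)
      ≤ ∑ V ∈ 𝒱, (1 / om F) ^ R * ∏ P ∈ V, (κ * gP P / q ^ P.natDegree * om F ^ P.natDegree) :=
        sum_le_sum h2
    _ = (1 / om F) ^ R * ∑ V ∈ 𝒱, ∏ P ∈ V, (κ * gP P / q ^ P.natDegree * om F ^ P.natDegree) := by
        rw [mul_sum]
    _ ≤ (1 / om F) ^ R * Real.exp (3 * κ) := by
        apply mul_le_mul_of_nonneg_left _ (by positivity)
        calc ∑ V ∈ 𝒱, ∏ P ∈ V, (κ * gP P / q ^ P.natDegree * om F ^ P.natDegree)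
            ≤ ∑ V ∈ (IrLE F j₀).powerset, ∏ P ∈ V, (κ * gP P / q ^ P.natDegree * om F ^ P.natDegree) := by
              apply sum_le_sum_of_subset_of_nonneg (filter_subset _ _)
              intro V hV' _
              exact prod_nonneg (fun P hP => hterm P (mem_powerset.mp hV' hP))
          _ = ∏ P ∈ IrLE F j₀, (1 + κ * gP P / q ^ P.natDegree * om F ^ P.natDegree) := by
              rw [prod_one_add]
          _ ≤ ∏ P ∈ IrLE F j₀, Real.exp (κ * gP P / q ^ P.natDegree * om F ^ P.natDegree) := by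
              refine prod_le_prod (fun P hP => ?_) (fun P hP => ?_)
              · have := hterm P hP
                linarith
              · have := Real.add_one_le_exp (κ * gP P / q ^ P.natDegree * om F ^ P.natDegree)
                linarith
          _ = Real.exp (∑ P ∈ IrLE F j₀, κ * gP P / q ^ P.natDegree * om F ^ P.natDegree) := by
              rw [← Real.exp_sum]
          _ ≤ Real.exp (3 * κ) := by
              apply Real.exp_le_exp.mpr
              calc ∑ P ∈ IrLE F j₀, κ * gP P / q ^ P.natDegree * om F ^ P.natDegree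
                  ≤ ∑ P ∈ IrLE F j₀, 2 * κ * (om F ^ P.natDegree / (q ^ P.natDegree) ^ 2) := by
                    refine sum_le_sum (fun P hP => ?_)
                    have hg2 := gP_le_two (mem_IrLE.mp hP).2.1
                    rw [← hqd] at hg2
                    have hqp : 0 < q ^ P.natDegree := by positivity
                    have homp : 0 < om F ^ P.natDegree := by positivity
                    calc κ * gP P / q ^ P.natDegree * om F ^ P.natDegree =
                        gP P * (κ / q ^ P.natDegree * om F ^ P.natDegree) := by ring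
                      _ ≤ 2 / q ^ P.natDegree * (κ / q ^ P.natDegree * om F ^ P.natDegree) :=
                          mul_le_mul_of_nonneg_right hg2 (by positivity)
                      _ = _ := by
                          rw [sq]
                          field_simp
                _ = 2 * κ * ∑ P ∈ IrLE F j₀, om F ^ P.natDegree / (q ^ P.natDegree) ^ 2 := by
                    rw [mul_sum]
                _ ≤ 2 * κ * (3 / 2) := mul_le_mul_of_nonneg_left (sum_om j₀) (by positivity)
                _ = 3 * κ := by ring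

/-- **The tail of the singular series of one tuple** -/
theorem tail_tuple {n y r R R' j₀ : ℕ} (hn : 1 ≤ n) (hry : r ≤ y) (hR : 2 * R ≤ r)
    (hR' : k ^ 2 * R' ≤ R) (hj : 1 ≤ j₀) (hj₀ : (n:ℝ) ≤ om F ^ (3 * j₀)) (g : Fin k → F[X])
    (hg : ∀ i, (g i).degree < n) (hinj : Function.Injective g) :
    |PM (SF F r) g - ∏ P ∈ IrLE F y, beta P g| ≤
      Real.exp (2 ^ k * (18 + 2 * (k:ℝ) ^ 2)) * ((Real.exp 3 * j₀) ^ (2 ^ (k + 2))) ^ 2 *
        ((1 / om F) ^ R + ∑ i, ∑ j, if i = j then 0 else tauB (2 ^ (k + 2)) j₀ R' (g i - g j)) := by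
  have h0 := om_pos (F := F)
  have h01 := one_lt_om (F := F)
  set A := Asm j₀ y g with hA
  set w : F[X] → ℝ := fun P => 2 ^ k * xP P g with hw
  set J : ℝ := (Real.exp 3 * j₀) ^ (2 ^ (k + 2)) with hJ
  set κ : ℝ := 2 ^ (k + 2) with hκ
  have hκ0 : 0 ≤ κ := by positivity
  have hw0 : ∀ P ∈ IrLE F y, 0 ≤ w P := by
    intro P hP
    have := xP_nonneg (mem_IrLE.mp hP).2.1 g
    simp only [hw]
    positivity
  have hAsub : A ⊆ IrLE F y := filter_subset _ _
  have hwA : ∀ P ∈ A, 0 ≤ w P := fun P hP => hw0 P (hAsub hP)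
  have hwκ : ∀ P ∈ A, w P ≤ κ * gP P := by
    intro P hP
    rw [hA, Asm, mem_filter] at hP
    have hPI := (mem_IrLE.mp hP.1).2.1
    have h0 := gP_pos hPI
    have h1 := gP_le_one hPI
    simp only [hw, hκ]
    unfold xP
    rw [if_pos hP.2.1, pow_add]
    have h2 : 3 * gP P ^ 2 + gP P ≤ 2 ^ 2 * gP P := by nlinarith
    calc 2 ^ k * (3 * gP P ^ 2 + gP P) ≤ 2 ^ k * (2 ^ 2 * gP P) :=
          mul_le_mul_of_nonneg_left h2 (by positivity)
      _ = _ := by ring
  have hJ1 : 1 ≤ J := by
    apply one_le_pow₀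
    have h1 : (1:ℝ) ≤ j₀ := by exact_mod_cast hj
    have h2 : 1 ≤ Real.exp 3 := Real.one_le_exp (by norm_num)
    nlinarith
  have hprodA : ∏ P ∈ A, (1 + w P) ≤ J := prod_small hj g
  -- the pairs
  set I : Finset (Fin k × Fin k) := univ.filter (fun p => p.1 ≠ p.2) with hI
  set Ap : Fin k × Fin k → Finset F[X] := fun p =>
    (IrLE F y).filter (fun P => P ∣ g p.1 - g p.2 ∧ P.natDegree ≤ j₀) with hAp
  have hIc : I.card ≤ k ^ 2 := by
    calc I.card ≤ (univ : Finset (Fin k × Fin k)).card := card_filter_le _ _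
      _ = k ^ 2 := by rw [card_univ, Fintype.card_prod, Fintype.card_fin, sq]
  have hApsub : ∀ p ∈ I, Ap p ⊆ A := by
    intro p hp P hP
    rw [hI, mem_filter] at hp
    simp only [hAp, mem_filter] at hP
    rw [hA, Asm, mem_filter]
    exact ⟨hP.1, ⟨p.1, p.2, hp.2, hP.2.1⟩, hP.2.2⟩
  have hcov : ∀ P ∈ A, ∃ p ∈ I, P ∈ Ap p := by
    intro P hP
    rw [hA, Asm, mem_filter] at hP
    obtain ⟨⟨i, j, hij, hd⟩, hdeg⟩ := hP.2
    refine ⟨(i, j), mem_filter.mpr ⟨mem_univ _, hij⟩, ?_⟩
    simp only [hAp, mem_filter]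
    exact ⟨hP.1, hd, hdeg⟩
  have h1 := PM_tail hry g
  have h2 := split_tail hAsub w hw0 (fun P : F[X] => P.natDegree) (om F) h01.le hR
  have h3 := union_tail I Ap hApsub hcov w hwA (fun P : F[X] => P.natDegree) (R := R) (R' := R')
    ((Nat.mul_le_mul_right _ hIc).trans hR')
  -- one pair
  have h4 : ∀ p ∈ I, Tl (Ap p) w (fun P : F[X] => P.natDegree) R' ≤ tauB κ j₀ R' (g p.1 - g p.2) * J := by
    intro p hp
    have hwp : ∀ P ∈ Ap p, 0 ≤ w P := fun P hP => hwA P (hApsub p hp hP)
    refine (block_tail w hwp (fun P : F[X] => P.natDegree) (j₀ := j₀) (fun P hP => by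
      simp only [hAp, mem_filter] at hP
      exact hP.2.2)).trans ?_
    apply mul_le_mul
    · unfold tauB
      rw [← sum_filter]
      refine le_trans (sum_le_sum (fun V hV => ?_))
        (sum_le_sum_of_subset_of_nonneg (f := fun V => ∏ P ∈ V, (κ * gP P)) ?_ ?_)
      · rw [mem_filter, mem_powerset] at hV
        exact prod_le_prod (fun P hP => hwp P (hV.1 hP)) (fun P hP => hwκ P (hApsub p hp (hV.1 hP)))
      · intro V hV
        rw [mem_filter, mem_powerset] at hV
        have hVp : ∀ P ∈ V, P.Monic ∧ Irreducible P := by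
          intro P hP
          have h5 := hV.1 hP
          simp only [hAp, mem_filter] at h5
          have h6 := mem_IrLE.mp h5.1
          exact ⟨h6.1, h6.2.1⟩
        rw [mem_filter, mem_filter, mem_powerset]
        refine ⟨⟨?_, hV.2⟩, ?_⟩
        · intro P hP
          have h5 := hV.1 hP
          simp only [hAp, mem_filter] at h5
          rw [mem_IrLE]
          exact ⟨(hVp P hP).1, (hVp P hP).2, h5.2.2⟩
        · rw [prod_dvd_iff hVp]
          intro P hP
          have h5 := hV.1 hP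
          simp only [hAp, mem_filter] at h5
          exact h5.2.1
      · intro V hV _
        rw [mem_filter, mem_filter, mem_powerset] at hV
        refine prod_nonneg (fun P hP => ?_)
        have := gP_pos (mem_IrLE.mp (hV.1.1 hP)).2.1
        positivity
    · exact (prod_mono_subset (hApsub p hp) w hwA).trans hprodA
    · exact zero_le_one.trans (one_le_prod_one_add _ w hwp)
    · exact tauB_nonneg hκ0 _ _ _
  have h5 : ∑ p ∈ I, tauB κ j₀ R' (g p.1 - g p.2) =
      ∑ i, ∑ j, if i = j then 0 else tauB κ j₀ R' (g i - g j) := by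
    rw [hI, sum_filter, Fintype.sum_prod_type]
    refine sum_congr rfl (fun i _ => sum_congr rfl (fun j _ => ?_))
    by_cases hij : i = j
    · rw [if_neg (by simpa using hij), if_pos hij]
    · rw [if_pos (by simpa using hij), if_neg hij]
  have hτ0 : 0 ≤ ∑ p ∈ I, tauB κ j₀ R' (g p.1 - g p.2) := sum_nonneg (fun p _ => tauB_nonneg hκ0 _ _ _)
  have h6 : Tl A w (fun P : F[X] => P.natDegree) R ≤ J ^ 2 * ∑ p ∈ I, tauB κ j₀ R' (g p.1 - g p.2) := by
    refine h3.trans ?_
    have h7 : ∑ p ∈ I, Tl (Ap p) w (fun P : F[X] => P.natDegree) R' ≤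
        (∑ p ∈ I, tauB κ j₀ R' (g p.1 - g p.2)) * J := by
      rw [sum_mul]
      exact sum_le_sum h4
    calc (∑ p ∈ I, Tl (Ap p) w (fun P : F[X] => P.natDegree) R') * ∏ P ∈ A, (1 + w P)
        ≤ ((∑ p ∈ I, tauB κ j₀ R' (g p.1 - g p.2)) * J) * J := by
          apply mul_le_mul h7 hprodA
          · exact zero_le_one.trans (one_le_prod_one_add _ w hwA)
          · positivity
      _ = _ := by ring
  have hlo := prod_lo (y := y) hn hj₀ g hg hinj
  have hlo0 : 0 ≤ ∏ P ∈ IrLE F y \ A, (1 + w P * om F ^ P.natDegree) := by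
    refine prod_nonneg (fun P hP => ?_)
    have := hw0 P (sdiff_subset hP)
    positivity
  refine h1.trans (h2.trans ?_)
  rw [← h5]
  have h8 : (1 / om F) ^ R * ∏ P ∈ A, (1 + w P) + Tl A w (fun P : F[X] => P.natDegree) R ≤
      J ^ 2 * ((1 / om F) ^ R + ∑ p ∈ I, tauB κ j₀ R' (g p.1 - g p.2)) := by
    have h9 : (1 / om F) ^ R * ∏ P ∈ A, (1 + w P) ≤ J ^ 2 * (1 / om F) ^ R := by
      rw [mul_comm]
      apply mul_le_mul_of_nonneg_right _ (by positivity)
      refine hprodA.trans ?_
      nlinarith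
    rw [mul_add]
    exact add_le_add h9 h6
  calc (∏ P ∈ IrLE F y \ A, (1 + w P * om F ^ P.natDegree)) *
        ((1 / om F) ^ R * ∏ P ∈ A, (1 + w P) + Tl A w (fun P : F[X] => P.natDegree) R)
      ≤ (∏ P ∈ IrLE F y \ A, (1 + w P * om F ^ P.natDegree)) *
        (J ^ 2 * ((1 / om F) ^ R + ∑ p ∈ I, tauB κ j₀ R' (g p.1 - g p.2))) :=
        mul_le_mul_of_nonneg_left h8 hlo0
    _ ≤ Real.exp (2 ^ k * (18 + 2 * (k:ℝ) ^ 2)) *
        (J ^ 2 * ((1 / om F) ^ R + ∑ p ∈ I, tauB κ j₀ R' (g p.1 - g p.2))) := by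
        apply mul_le_mul_of_nonneg_right hlo
        positivity
    _ = _ := by ring

end Pool.Agent.H523.CM
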