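import Pool.Agent.H523.CM4

set_option autoImplicit false
set_option linter.unusedSectionVars false

/-! # Replacing the factors of a product one at a time; independence of the primes -/

namespace Pool.Agent.H523.CM

open Polynomial Finset
open Pool.Agent.H341R2.Sharp (Mon mem_Mon)
open Pool.Agent.H523.FF (Ir mem_Ir PL mem_PL card_PL two_le_card IrLE mem_IrLE irr_coprime PL_mod)

open scoped Classical

/-- **Replacing the factors one at a time** -/
theorem telescope {G A : Type} [AddCommGroup G] [Fintype G] [AddCommGroup A] (ι : G →+ A)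
    (S : Finset A) (X Y : A → ℝ) (V B : ℝ) (hV0 : 0 ≤ V) (hB0 : 0 ≤ B)
    (hdisp : ∀ w : A → ℂ, ∑ g, ‖∑ f ∈ S, w f * ((X (f + ι g) - Y (f + ι g) : ℝ) : ℂ)‖ ^ 2 ≤
      V * ∑ f ∈ S, ‖w f‖ ^ 2)
    (hX : ∀ f ∈ S, ∑ g, X (f + ι g) ^ 2 ≤ B) (hY : ∀ f ∈ S, ∑ g, Y (f + ι g) ^ 2 ≤ B) (k : ℕ)
    (b : A → ℂ) :
    ∑ c : Fin k → G, ‖∑ f ∈ S, b f * ((∏ i, X (f + ι (c i)) - ∏ i, Y (f + ι (c i)) : ℝ) : ℂ)‖ ^ 2 ≤
      (2 ^ (k + 1) - 2) * (V * B ^ (k - 1)) * ∑ f ∈ S, ‖b f‖ ^ 2 := by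
  induction k generalizing b with
  | zero => simp
  | succ k ih =>
    have hsplit : ∑ c : Fin (k + 1) → G,
        ‖∑ f ∈ S, b f * ((∏ i, X (f + ι (c i)) - ∏ i, Y (f + ι (c i)) : ℝ) : ℂ)‖ ^ 2 =
        ∑ g : G, ∑ c : Fin k → G, ‖∑ f ∈ S, b f * ((X (f + ι g) * ∏ i, X (f + ι (c i)) -
          Y (f + ι g) * ∏ i, Y (f + ι (c i)) : ℝ) : ℂ)‖ ^ 2 := by
      rw [← (Fin.consEquiv (fun _ : Fin (k + 1) => G)).sum_comp, Fintype.sum_prod_type]
      refine sum_congr rfl (fun g _ => sum_congr rfl (fun c _ => ?_))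
      simp only [Fin.consEquiv_apply, Fin.prod_univ_succ, Fin.cons_zero, Fin.cons_succ]
    rw [hsplit]
    have hpt : ∀ (g : G) (c : Fin k → G), ‖∑ f ∈ S, b f * ((X (f + ι g) * ∏ i, X (f + ι (c i)) -
          Y (f + ι g) * ∏ i, Y (f + ι (c i)) : ℝ) : ℂ)‖ ^ 2 ≤
        2 * ‖∑ f ∈ S, (b f * (X (f + ι g) : ℂ)) *
          ((∏ i, X (f + ι (c i)) - ∏ i, Y (f + ι (c i)) : ℝ) : ℂ)‖ ^ 2 +
        2 * ‖∑ f ∈ S, (b f * ((∏ i, Y (f + ι (c i)) : ℝ) : ℂ)) *
          ((X (f + ι g) - Y (f + ι g) : ℝ) : ℂ)‖ ^ 2 := by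
      intro g c
      have e : ∑ f ∈ S, b f * ((X (f + ι g) * ∏ i, X (f + ι (c i)) -
          Y (f + ι g) * ∏ i, Y (f + ι (c i)) : ℝ) : ℂ) =
          ∑ f ∈ S, (b f * (X (f + ι g) : ℂ)) *
          ((∏ i, X (f + ι (c i)) - ∏ i, Y (f + ι (c i)) : ℝ) : ℂ) +
          ∑ f ∈ S, (b f * ((∏ i, Y (f + ι (c i)) : ℝ) : ℂ)) *
          ((X (f + ι g) - Y (f + ι g) : ℝ) : ℂ) := by
        rw [← sum_add_distrib]
        refine sum_congr rfl (fun f _ => ?_)
        push_cast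
        ring
      rw [e]
      have h1 := norm_add_le (∑ f ∈ S, (b f * (X (f + ι g) : ℂ)) *
          ((∏ i, X (f + ι (c i)) - ∏ i, Y (f + ι (c i)) : ℝ) : ℂ))
          (∑ f ∈ S, (b f * ((∏ i, Y (f + ι (c i)) : ℝ) : ℂ)) *
          ((X (f + ι g) - Y (f + ι g) : ℝ) : ℂ))
      refine (pow_le_pow_left₀ (norm_nonneg _) h1 2).trans ?_
      nlinarith [sq_nonneg (‖∑ f ∈ S, (b f * (X (f + ι g) : ℂ)) *
          ((∏ i, X (f + ι (c i)) - ∏ i, Y (f + ι (c i)) : ℝ) : ℂ)‖ -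
          ‖∑ f ∈ S, (b f * ((∏ i, Y (f + ι (c i)) : ℝ) : ℂ)) *
          ((X (f + ι g) - Y (f + ι g) : ℝ) : ℂ)‖)]
    have hb0 : 0 ≤ ∑ f ∈ S, ‖b f‖ ^ 2 := sum_nonneg (fun f _ => by positivity)
    -- the first part
    have h1 : ∑ g : G, ∑ c : Fin k → G, ‖∑ f ∈ S, (b f * (X (f + ι g) : ℂ)) *
          ((∏ i, X (f + ι (c i)) - ∏ i, Y (f + ι (c i)) : ℝ) : ℂ)‖ ^ 2 ≤
        (2 ^ (k + 1) - 2) * (V * B ^ k) * ∑ f ∈ S, ‖b f‖ ^ 2 := by
      have hk0 : (0:ℝ) ≤ 2 ^ (k + 1) - 2 := by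
        have : (2:ℝ) ^ 1 ≤ 2 ^ (k + 1) := pow_le_pow_right₀ (by norm_num) (by omega)
        linarith
      calc ∑ g : G, ∑ c : Fin k → G, ‖∑ f ∈ S, (b f * (X (f + ι g) : ℂ)) *
          ((∏ i, X (f + ι (c i)) - ∏ i, Y (f + ι (c i)) : ℝ) : ℂ)‖ ^ 2
          ≤ ∑ g : G, (2 ^ (k + 1) - 2) * (V * B ^ (k - 1)) *
              ∑ f ∈ S, ‖b f * (X (f + ι g) : ℂ)‖ ^ 2 :=
            sum_le_sum (fun g _ => ih (fun f => b f * (X (f + ι g) : ℂ)))
        _ = (2 ^ (k + 1) - 2) * (V * B ^ (k - 1)) *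
              ∑ f ∈ S, ‖b f‖ ^ 2 * ∑ g : G, X (f + ι g) ^ 2 := by
            rw [← mul_sum, sum_comm]
            congr 1
            refine sum_congr rfl (fun f _ => ?_)
            rw [mul_sum]
            refine sum_congr rfl (fun g _ => ?_)
            rw [norm_mul, mul_pow, Complex.norm_real, Real.norm_eq_abs, sq_abs]
        _ ≤ (2 ^ (k + 1) - 2) * (V * B ^ (k - 1)) * ∑ f ∈ S, ‖b f‖ ^ 2 * B := by
            apply mul_le_mul_of_nonneg_left _ (mul_nonneg hk0 (by positivity))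
            exact sum_le_sum (fun f hf => mul_le_mul_of_nonneg_left (hX f hf) (by positivity))
        _ = (2 ^ (k + 1) - 2) * (V * B ^ k) * ∑ f ∈ S, ‖b f‖ ^ 2 := by
            rw [← sum_mul]
            rcases Nat.eq_zero_or_pos k with hk | hk
            · subst hk; simp
            · have : B ^ k = B ^ (k - 1) * B := by
                rw [← pow_succ, Nat.sub_add_cancel hk]
              rw [this]
              ring
    -- the second part
    have h2 : ∑ g : G, ∑ c : Fin k → G, ‖∑ f ∈ S, (b f * ((∏ i, Y (f + ι (c i)) : ℝ) : ℂ)) *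
          ((X (f + ι g) - Y (f + ι g) : ℝ) : ℂ)‖ ^ 2 ≤ V * B ^ k * ∑ f ∈ S, ‖b f‖ ^ 2 := by
      rw [sum_comm]
      calc ∑ c : Fin k → G, ∑ g : G, ‖∑ f ∈ S, (b f * ((∏ i, Y (f + ι (c i)) : ℝ) : ℂ)) *
          ((X (f + ι g) - Y (f + ι g) : ℝ) : ℂ)‖ ^ 2
          ≤ ∑ c : Fin k → G, V * ∑ f ∈ S, ‖b f * ((∏ i, Y (f + ι (c i)) : ℝ) : ℂ)‖ ^ 2 :=
            sum_le_sum (fun c _ => hdisp (fun f => b f * ((∏ i, Y (f + ι (c i)) : ℝ) : ℂ)))
        _ = V * ∑ f ∈ S, ‖b f‖ ^ 2 * (∑ g : G, Y (f + ι g) ^ 2) ^ k := by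
            rw [← mul_sum, sum_comm]
            congr 1
            refine sum_congr rfl (fun f _ => ?_)
            rw [Fintype.sum_pow, mul_sum]
            refine sum_congr rfl (fun c _ => ?_)
            rw [norm_mul, mul_pow, Complex.norm_real, Real.norm_eq_abs, sq_abs, prod_pow]
        _ ≤ V * ∑ f ∈ S, ‖b f‖ ^ 2 * B ^ k := by
            apply mul_le_mul_of_nonneg_left _ hV0
            refine sum_le_sum (fun f hf => mul_le_mul_of_nonneg_left ?_ (by positivity))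
            exact pow_le_pow_left₀ (sum_nonneg (fun g _ => by positivity)) (hY f hf) k
        _ = V * B ^ k * ∑ f ∈ S, ‖b f‖ ^ 2 := by rw [← sum_mul]; ring
    calc ∑ g : G, ∑ c : Fin k → G, ‖∑ f ∈ S, b f * ((X (f + ι g) * ∏ i, X (f + ι (c i)) -
          Y (f + ι g) * ∏ i, Y (f + ι (c i)) : ℝ) : ℂ)‖ ^ 2
        ≤ ∑ g : G, ∑ c : Fin k → G, (2 * ‖∑ f ∈ S, (b f * (X (f + ι g) : ℂ)) *
          ((∏ i, X (f + ι (c i)) - ∏ i, Y (f + ι (c i)) : ℝ) : ℂ)‖ ^ 2 +
        2 * ‖∑ f ∈ S, (b f * ((∏ i, Y (f + ι (c i)) : ℝ) : ℂ)) *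
          ((X (f + ι g) - Y (f + ι g) : ℝ) : ℂ)‖ ^ 2) :=
          sum_le_sum (fun g _ => sum_le_sum (fun c _ => hpt g c))
      _ ≤ 2 * ((2 ^ (k + 1) - 2) * (V * B ^ k) * ∑ f ∈ S, ‖b f‖ ^ 2) +
          2 * (V * B ^ k * ∑ f ∈ S, ‖b f‖ ^ 2) := by
          simp only [sum_add_distrib, ← mul_sum]
          linarith
      _ = _ := by
          rw [Nat.add_sub_cancel]
          ring

section ind
variable {F : Type} [Field F] [Fintype F] {R : Type} [CommRing R]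

/-- two coprime moduli -/
theorem sum_coprime_moduli {P Q : F[X]} (hP : P.Monic) (hQ : Q.Monic) (hPQ : IsCoprime P Q) {m : ℕ}
    (hm : P.natDegree + Q.natDegree ≤ m) (α β : F[X] → R)
    (hα : ∀ x y : F[X], P ∣ x - y → α x = α y) (hβ : ∀ x y : F[X], Q ∣ x - y → β x = β y)
    (f : F[X]) :
    ∑ g ∈ PL F m, α (f + g) * β (f + g) =
      ((Fintype.card F ^ (m - P.natDegree - Q.natDegree) : ℕ) : R) *
        ((∑ b ∈ PL F P.natDegree, α b) * ∑ b ∈ PL F Q.natDegree, β b) := by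
  have hPd : (P.natDegree : WithBot ℕ) = P.degree := (degree_eq_natDegree hP.ne_zero).symm
  have hQd : (Q.natDegree : WithBot ℕ) = Q.degree := (degree_eq_natDegree hQ.ne_zero).symm
  have hmod : ∀ (M : F[X]) (hM : M.Monic) (x : F[X]), M ∣ x - x %ₘ M := by
    intro M hM x
    exact ⟨x /ₘ M, by linear_combination -(modByMonic_add_div x M)⟩
  rw [← sum_fiberwise_of_maps_to (t := PL F P.natDegree ×ˢ PL F Q.natDegree)
    (g := fun g => ((f + g) %ₘ P, (f + g) %ₘ Q)) (fun g _ => by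
      rw [mem_product, mem_PL, mem_PL, hPd, hQd]
      exact ⟨degree_modByMonic_lt _ hP, degree_modByMonic_lt _ hQ⟩), sum_mul_sum,
    ← sum_product', mul_sum]
  refine sum_congr rfl (fun x hx => ?_)
  obtain ⟨b, b'⟩ := x
  rw [mem_product, mem_PL, mem_PL, hPd, hQd] at hx
  simp only at hx ⊢
  have hb : b %ₘ P = b := (modByMonic_eq_self_iff hP).mpr hx.1
  have hb' : b' %ₘ Q = b' := (modByMonic_eq_self_iff hQ).mpr hx.2
  -- the solution of the congruences
  obtain ⟨u, v, huv⟩ := hPQ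
  set r₀ : F[X] := b * (v * Q) + b' * (u * P) with hr₀
  have h1 : P ∣ r₀ - b := ⟨u * (b' - b), by rw [hr₀]; linear_combination b * huv⟩
  have h2 : Q ∣ r₀ - b' := ⟨v * (b - b'), by rw [hr₀]; linear_combination b' * huv⟩
  have hset : (PL F m).filter (fun g => ((f + g) %ₘ P, (f + g) %ₘ Q) = (b, b')) =
      (PL F m).filter (fun g => P * Q ∣ g - (r₀ - f)) := by
    apply filter_congr
    intro g _
    rw [Prod.mk.injEq]
    have e1 : (f + g) %ₘ P = b ↔ P ∣ g - (r₀ - f) := by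
      have e : (f + g) %ₘ P = b ↔ P ∣ (f + g) - b := by
        rw [← modByMonic_eq_zero_iff_dvd hP, sub_modByMonic (f + g) b P, hb, sub_eq_zero]
      rw [e]
      constructor
      · intro h
        have := dvd_sub h h1
        have e' : f + g - b - (r₀ - b) = g - (r₀ - f) := by ring
        rwa [e'] at this
      · intro h
        have := dvd_add h h1
        have e' : g - (r₀ - f) + (r₀ - b) = f + g - b := by ring
        rwa [e'] at this
    have e2 : (f + g) %ₘ Q = b' ↔ Q ∣ g - (r₀ - f) := by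
      have e : (f + g) %ₘ Q = b' ↔ Q ∣ (f + g) - b' := by
        rw [← modByMonic_eq_zero_iff_dvd hQ, sub_modByMonic (f + g) b' Q, hb', sub_eq_zero]
      rw [e]
      constructor
      · intro h
        have := dvd_sub h h2
        have e' : f + g - b' - (r₀ - b') = g - (r₀ - f) := by ring
        rwa [e'] at this
      · intro h
        have := dvd_add h h2
        have e' : g - (r₀ - f) + (r₀ - b') = f + g - b' := by ring
        rwa [e'] at this
    rw [e1, e2]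
    constructor
    · rintro ⟨h3, h4⟩
      exact IsCoprime.mul_dvd ⟨u, v, huv⟩ h3 h4
    · intro h3
      exact ⟨(dvd_mul_right P Q).trans h3, (dvd_mul_left Q P).trans h3⟩
  have hval : ∀ g ∈ (PL F m).filter (fun g => ((f + g) %ₘ P, (f + g) %ₘ Q) = (b, b')),
      α (f + g) * β (f + g) = α b * β b' := by
    intro g hg
    have h3 := (mem_filter.mp hg).2
    rw [Prod.mk.injEq] at h3
    have h4 : α (f + g) = α b := hα _ _ (by rw [← h3.1]; exact hmod P hP _)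
    have h5 : β (f + g) = β b' := hβ _ _ (by rw [← h3.2]; exact hmod Q hQ _)
    rw [h4, h5]
  rw [sum_congr rfl hval, sum_const, hset, PL_mod (P * Q) (hP.mul hQ) (r₀ - f) m
    (by rw [hP.natDegree_mul hQ]; exact hm), hP.natDegree_mul hQ, Nat.sub_add_eq, nsmul_eq_mul]

/-- **Independence of the primes** -/
theorem independence {u : Finset F[X]} (hu : ∀ P ∈ u, P.Monic ∧ Irreducible P) {m : ℕ}
    (hm : ∑ P ∈ u, P.natDegree ≤ m) (φ : F[X] → F[X] → R)
    (hφ : ∀ P ∈ u, ∀ x y : F[X], P ∣ x - y → φ P x = φ P y) (f : F[X]) :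
    ∑ g ∈ PL F m, ∏ P ∈ u, φ P (f + g) =
      ((Fintype.card F ^ (m - ∑ P ∈ u, P.natDegree) : ℕ) : R) *
        ∏ P ∈ u, ∑ b ∈ PL F P.natDegree, φ P b := by
  induction u using Finset.induction_on generalizing m f with
  | empty =>
    simp only [prod_empty, sum_const, nsmul_eq_mul, mul_one, sum_empty, Nat.sub_zero, card_PL]
  | insert P u hP ih =>
    have hu' : ∀ P' ∈ u, P'.Monic ∧ Irreducible P' := fun P' h => hu P' (mem_insert_of_mem h)
    have hPm := hu P (mem_insert_self P u)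
    rw [sum_insert hP] at hm
    have hcop : IsCoprime P (∏ P' ∈ u, P') := by
      apply IsCoprime.prod_right
      intro P' hP'
      exact irr_coprime hPm.1 hPm.2 (hu' P' hP').1 (hu' P' hP').2 (by
        rintro rfl; exact hP hP')
    have hdeg := natDegree_pr hu'
    have h1 := sum_coprime_moduli (R := R) hPm.1 (monic_pr hu') hcop (m := m) (by rw [hdeg]; exact hm)
      (φ P) (fun x => ∏ P' ∈ u, φ P' x) (hφ P (mem_insert_self P u)) (by
        intro x y hxy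
        refine prod_congr rfl (fun P' hP' => ?_)
        exact hφ P' (mem_insert_of_mem hP') x y ((dvd_prod_of_mem (fun P => P) hP').trans hxy)) f
    have h2 := ih hu' (m := (∏ P' ∈ u, P').natDegree) (by rw [hdeg])
      (fun P' hP' => hφ P' (mem_insert_of_mem hP')) 0
    simp only [zero_add] at h2
    rw [hdeg, Nat.sub_self, pow_zero, Nat.cast_one, one_mul] at h2
    simp only [prod_insert hP]
    rw [h1, hdeg, h2, sum_insert hP, Nat.sub_add_eq]

end ind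

end Pool.Agent.H523.CM
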