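import Pool.Agent.H523.FF2

set_option autoImplicit false
set_option linter.unusedSectionVars false

/-! # Counting irreducible polynomials from below, and roots of constant polynomials modulo primes -/

namespace Pool.Agent.H523.FF

open Polynomial Finset

open scoped Classical

variable {F : Type} [Field F] [Fintype F]

variable (F) in
/-- `q ^ e ≤ ∑_{d ∣ e} d π(d)` -/
theorem Ir_card_sum (e : ℕ) (he : 0 < e) :
    Fintype.card F ^ e ≤ ∑ d ∈ e.divisors, d * (Ir F d).card := by
  have hq : 1 < Fintype.card F := Fintype.one_lt_card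
  set G : F[X] := X ^ (Fintype.card F) ^ e - X with hG
  have hG0 : G ≠ 0 := FiniteField.X_pow_card_pow_sub_X_ne_zero F he.ne' hq
  have hGdeg : G.natDegree = Fintype.card F ^ e :=
    FiniteField.X_pow_card_pow_sub_X_natDegree_eq F he.ne' hq
  have hsep : G.Separable := by
    obtain ⟨p, hp⟩ := CharP.exists F
    have := hp
    have hpp : p.Prime := (CharP.char_is_prime_or_zero F p).resolve_right
      (CharP.char_ne_zero_of_finite F p)
    obtain ⟨n, _, hn⟩ := FiniteField.card F p
    apply galois_poly_separable p
    rw [hn]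
    exact dvd_pow (dvd_pow_self p n.ne_zero) he.ne'
  have hsq : Squarefree G := hsep.squarefree
  set s := (UniqueFactorizationMonoid.normalizedFactors G).toFinset with hs
  have hnodup : (UniqueFactorizationMonoid.normalizedFactors G).Nodup :=
    (UniqueFactorizationMonoid.squarefree_iff_nodup_normalizedFactors hG0).mp hsq
  have hmem : ∀ P ∈ s, P.Monic ∧ Irreducible P ∧ P ∣ G := by
    intro P hP
    rw [hs, Multiset.mem_toFinset] at hP
    have h1 := UniqueFactorizationMonoid.irreducible_of_normalized_factor P hP
    have h2 := UniqueFactorizationMonoid.dvd_of_mem_normalizedFactors hP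
    have h3 := UniqueFactorizationMonoid.normalize_normalized_factor P hP
    refine ⟨?_, h1, h2⟩
    rw [← h3]
    exact monic_normalize h1.ne_zero
  have hprod : Associated (∏ P ∈ s, P) G := by
    have h1 := UniqueFactorizationMonoid.prod_normalizedFactors hG0
    have h2 : ∏ P ∈ s, P = (UniqueFactorizationMonoid.normalizedFactors G).prod := by
      rw [Finset.prod, hs, Multiset.toFinset_val, hnodup.dedup, Multiset.map_id']
    rw [h2]
    exact h1
  have hdeg : ∑ P ∈ s, P.natDegree = Fintype.card F ^ e := by
    rw [← hGdeg, ← natDegree_eq_of_degree_eq (degree_eq_degree_of_associated hprod)]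
    exact (natDegree_prod_of_monic _ _ (fun P hP => (hmem P hP).1)).symm
  rw [← hdeg]
  calc ∑ P ∈ s, P.natDegree ≤ ∑ P ∈ e.divisors.biUnion (Ir F), P.natDegree := by
        apply Finset.sum_le_sum_of_subset
        intro P hP
        obtain ⟨h1, h2, h3⟩ := hmem P hP
        rw [Finset.mem_biUnion]
        refine ⟨P.natDegree, ?_, mem_Ir.mpr ⟨h1, h2, rfl⟩⟩
        rw [Nat.mem_divisors]
        refine ⟨?_, he.ne'⟩
        apply h2.natDegree_dvd_of_dvd_X_pow_card_pow_sub_X
        rw [Nat.card_eq_fintype_card]
        exact h3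
    _ = ∑ d ∈ e.divisors, d * (Ir F d).card := by
        rw [Finset.sum_biUnion (fun a _ b _ hab => Ir_disj a trivial b trivial hab)]
        refine Finset.sum_congr rfl (fun d _ => ?_)
        rw [Finset.sum_congr rfl (fun P hP => (mem_Ir.mp hP).2.2), Finset.sum_const, smul_eq_mul,
          mul_comm]

/-- lower bound for the number of monic irreducible polynomials -/
theorem Ir_card_lower (e : ℕ) (he : 0 < e) :
    (Fintype.card F : ℝ) ^ e / e - 2 * (Fintype.card F : ℝ) ^ (e / 2) / e ≤ ((Ir F e).card : ℝ) := by
  have hq := two_le_card (F := F)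
  set q : ℝ := (Fintype.card F : ℝ) with hqd
  have he0 : (0:ℝ) < e := by exact_mod_cast he
  have h1 := Ir_card_sum F e he
  have h2 : ∑ d ∈ e.divisors, d * (Ir F d).card = e * (Ir F e).card +
      ∑ d ∈ e.properDivisors, d * (Ir F d).card := by
    rw [← Nat.insert_self_properDivisors he.ne', Finset.sum_insert Nat.self_notMem_properDivisors]
  have h3 : ((∑ d ∈ e.properDivisors, d * (Ir F d).card : ℕ) : ℝ) ≤ 2 * q ^ (e / 2) := by
    push_cast
    calc ∑ d ∈ e.properDivisors, (d : ℝ) * ((Ir F d).card : ℝ) ≤
          ∑ d ∈ range (e / 2 + 1), q ^ d := by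
          calc ∑ d ∈ e.properDivisors, (d : ℝ) * ((Ir F d).card : ℝ) ≤
              ∑ d ∈ e.properDivisors, q ^ d := by
                apply Finset.sum_le_sum
                intro d hd
                have hd' := Nat.mem_properDivisors.mp hd
                have hd0 : 0 < d := Nat.pos_of_dvd_of_pos hd'.1 he
                have := Ir_card (F := F) d hd0
                rw [hqd]
                exact_mod_cast this
            _ ≤ ∑ d ∈ range (e / 2 + 1), q ^ d := by
                apply Finset.sum_le_sum_of_subset_of_nonneg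
                · intro d hd
                  have hd' := Nat.mem_properDivisors.mp hd
                  rw [Finset.mem_range]
                  obtain ⟨c, hc⟩ := hd'.1
                  have hc2 : 2 ≤ c := by
                    by_contra hcon
                    have : c = 0 ∨ c = 1 := by omega
                    rcases this with rfl | rfl
                    · omega
                    · omega
                  have : d * 2 ≤ e := by rw [hc]; exact Nat.mul_le_mul_left d hc2
                  omega
                · intro d _ _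
                  positivity
      _ ≤ 2 * q ^ (e / 2) := by
          have hq1 : (1:ℝ) < q := by linarith
          rw [geom_sum_eq hq1.ne']
          rw [div_le_iff₀ (by linarith), pow_succ]
          have : 0 < q ^ (e / 2) := by positivity
          nlinarith
  have h4 : q ^ e ≤ e * ((Ir F e).card : ℝ) + 2 * q ^ (e / 2) := by
    have h5 : ((Fintype.card F ^ e : ℕ) : ℝ) ≤ ((∑ d ∈ e.divisors, d * (Ir F d).card : ℕ) : ℝ) :=
      Nat.cast_le.mpr h1
    rw [h2, Nat.cast_add] at h5
    push_cast at h5 h3
    linarith
  rw [← sub_div, div_le_iff₀ he0]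
  linarith

/-! ## Roots modulo primes -/

/-- residues modulo `P` at which the constant polynomial `f` vanishes -/
noncomputable def RT (f P : F[X]) : Finset F[X] := (PL F P.natDegree).filter (fun b => P ∣ f.comp b)

lemma comp_sub_dvd (f a b : F[X]) : a - b ∣ f.comp a - f.comp b := by
  have h := sub_dvd_eval_sub a b (f.map C)
  rwa [eval_map, eval_map] at h

lemma dvd_comp_congr {f a b P : F[X]} (h : P ∣ a - b) : P ∣ f.comp a ↔ P ∣ f.comp b := by
  have h1 := h.trans (comp_sub_dvd f a b)
  constructor
  · intro h2
    have := dvd_sub h2 h1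
    rwa [sub_sub_cancel] at this
  · intro h2
    have := dvd_add h1 h2
    rwa [sub_add_cancel] at this

lemma RT_iff {f P c : F[X]} (hP : P.Monic) : P ∣ f.comp c ↔ ∃ b ∈ RT f P, P ∣ c - b := by
  have hmod : P ∣ c - c %ₘ P := by
    have h := modByMonic_add_div c P
    exact ⟨c /ₘ P, by linear_combination -h⟩
  constructor
  · intro h
    refine ⟨c %ₘ P, ?_, hmod⟩
    unfold RT
    rw [Finset.mem_filter, mem_PL, ← degree_eq_natDegree hP.ne_zero]
    exact ⟨degree_modByMonic_lt c hP, (dvd_comp_congr hmod).mp h⟩
  · rintro ⟨b, hb, hcb⟩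
    unfold RT at hb
    rw [Finset.mem_filter] at hb
    exact (dvd_comp_congr hcb).mpr hb.2

lemma RT_inj {f P b b' : F[X]} (hP : P.Monic) (hb : b ∈ RT f P) (hb' : b' ∈ RT f P)
    (h : P ∣ b - b') : b = b' := by
  unfold RT at hb hb'
  rw [Finset.mem_filter, mem_PL, ← degree_eq_natDegree hP.ne_zero] at hb hb'
  by_contra hne
  have hne' : b - b' ≠ 0 := sub_ne_zero.mpr hne
  have h1 := degree_le_of_dvd h hne'
  have h2 : (b - b').degree < P.degree :=
    lt_of_le_of_lt (degree_sub_le _ _) (max_lt hb.1 hb'.1)
  exact absurd h1 (not_le.mpr h2)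

/-- an irreducible polynomial of degree `d` has exactly `d` roots modulo every prime of degree
divisible by `d` -/
theorem card_RT (f P : F[X]) (hf : Irreducible f) (hP : P.Monic) (hP' : Irreducible P)
    (hd : f.natDegree ∣ P.natDegree) : (RT f P).card = f.natDegree := by
  have : Fact (Irreducible P) := ⟨hP'⟩
  have hfin : Finite (AdjoinRoot P) := by
    have : Module.Finite F (AdjoinRoot P) := hP.finite_adjoinRoot
    exact Module.finite_of_finite F
  have : Fintype (AdjoinRoot P) := Fintype.ofFinite _
  have hcard : Fintype.card (AdjoinRoot P) = Fintype.card F ^ P.natDegree := by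
    have h1 : Module.finrank F (AdjoinRoot P) = P.natDegree := finrank_quotient_span_eq_natDegree
    rw [← h1]
    exact Module.card_eq_pow_finrank
  let k := AdjoinRoot P
  have hcard : Fintype.card k = Fintype.card F ^ P.natDegree := hcard
  set g : k[X] := f.map (algebraMap F k) with hg
  have hg0 : g ≠ 0 := (Polynomial.map_ne_zero_iff (algebraMap F k).injective).mpr hf.ne_zero
  have hdvd : g ∣ X ^ Fintype.card k - X := by
    have h1 := (hf.natDegree_dvd_iff_dvd_X_pow_card_pow_sub_X (n := P.natDegree)).mp hd
    rw [Nat.card_eq_fintype_card] at h1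
    have h2 := Polynomial.map_dvd (algebraMap F k) h1
    rw [hcard]
    simpa using h2
  have hX0 : (X ^ Fintype.card k - X : k[X]) ≠ 0 :=
    FiniteField.X_pow_card_sub_X_ne_zero k Fintype.one_lt_card
  have hXs : (X ^ Fintype.card k - X : k[X]).Splits := by
    rw [splits_iff_card_roots, FiniteField.roots_X_pow_card_sub_X,
      FiniteField.X_pow_card_sub_X_natDegree_eq k Fintype.one_lt_card]
    rfl
  have hgs : g.Splits := Splits.of_dvd hXs hX0 hdvd
  have hroots : g.roots ≤ (X ^ Fintype.card k - X : k[X]).roots := roots.le_of_dvd hX0 hdvd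
  have hnodup : g.roots.Nodup := by
    rw [FiniteField.roots_X_pow_card_sub_X] at hroots
    exact Multiset.nodup_of_le hroots Finset.univ.nodup
  have hcr : g.roots.card = f.natDegree := by
    rw [← hgs.natDegree_eq_card_roots, hg, natDegree_map]
  have hcr2 : g.roots.toFinset.card = f.natDegree := by
    rw [Multiset.toFinset_card_of_nodup hnodup, hcr]
  rw [← hcr2]
  have hev : ∀ b : F[X], (AdjoinRoot.mk P b) ∈ g.roots.toFinset ↔ P ∣ f.comp b := by
    intro b
    rw [Multiset.mem_toFinset, mem_roots hg0, IsRoot.def, hg, eval_map]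
    have h1 : eval₂ (algebraMap F k) (AdjoinRoot.mk P b) f = AdjoinRoot.mk P (f.comp b) := by
      rw [Polynomial.comp, Polynomial.hom_eval₂]
      rfl
    rw [h1, AdjoinRoot.mk_eq_zero]
  refine Finset.card_bij (fun b _ => AdjoinRoot.mk P b) ?_ ?_ ?_
  · intro b hb
    unfold RT at hb
    rw [hev]
    exact (Finset.mem_filter.mp hb).2
  · intro b hb b' hb' h
    exact RT_inj hP hb hb' (AdjoinRoot.mk_eq_mk.mp h)
  · intro x hx
    obtain ⟨c, rfl⟩ := AdjoinRoot.mk_surjective x
    rw [hev] at hx
    obtain ⟨b, hb, hcb⟩ := (RT_iff hP).mp hx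
    exact ⟨b, hb, (AdjoinRoot.mk_eq_mk.mpr hcb).symm⟩

end Pool.Agent.H523.FF
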