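import Pool.Agent.H523.CM32
import Pool.Agent.H523.FP1

set_option autoImplicit false
set_option linter.unusedSectionVars false

/-! # The sum of the singular series over the multiples of a modulus: the generating function -/

namespace Pool.Agent.H523.CM

open Polynomial Finset Filter
open Pool.Agent.H341R2.Sharp (Mon mem_Mon)
open Pool.Agent.H523.FF (Ir mem_Ir PL mem_PL card_PL two_le_card IrLE mem_IrLE irr_coprime PL_mod
  Ir_card sum_IrLE)

open scoped Classical Topology

variable {F : Type} [Field F] [Fintype F]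

/-- the number of the nonzero multiples of a product of distinct primes -/
theorem card_multiples {m : ℕ} {U : Finset F[X]} (hU : ∀ P ∈ U, P.Monic ∧ Irreducible P) :
    (((PL F m).filter (fun h => h ≠ 0 ∧ ∏ P ∈ U, P ∣ h)).card : ℝ) =
      if ∑ P ∈ U, P.natDegree < m then
        (Fintype.card F : ℝ) ^ (m - ∑ P ∈ U, P.natDegree) - 1 else 0 := by
  have hmon := monic_pr hU
  have hdeg := natDegree_pr hU
  split_ifs with h
  · have h1 := PL_mod (∏ P ∈ U, P) hmon 0 m (by omega)
    simp only [sub_zero] at h1
    have h2 : (PL F m).filter (fun h => ∏ P ∈ U, P ∣ h) =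
        insert 0 ((PL F m).filter (fun h => h ≠ 0 ∧ ∏ P ∈ U, P ∣ h)) := by
      ext x
      rw [mem_insert, mem_filter, mem_filter]
      constructor
      · rintro ⟨h3, h4⟩
        by_cases hx : x = 0
        · exact Or.inl hx
        · exact Or.inr ⟨h3, hx, h4⟩
      · rintro (h3 | h3)
        · rw [h3]
          refine ⟨mem_PL.mpr ?_, dvd_zero _⟩
          rw [degree_zero]
          exact WithBot.bot_lt_coe m
        · exact ⟨h3.1, h3.2.2⟩
    rw [h2, card_insert_of_notMem (by
      rw [mem_filter]
      rintro ⟨_, h3, _⟩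
      exact h3 rfl), hdeg] at h1
    have h3 : ((((PL F m).filter (fun h => h ≠ 0 ∧ ∏ P ∈ U, P ∣ h)).card + 1 : ℕ) : ℝ) =
        ((Fintype.card F ^ (m - ∑ P ∈ U, P.natDegree) : ℕ) : ℝ) := by rw [h1]
    push_cast at h3
    linarith
  · have h1 : (PL F m).filter (fun h => h ≠ 0 ∧ ∏ P ∈ U, P ∣ h) = ∅ := by
      rw [filter_eq_empty_iff]
      rintro x hx ⟨h3, h4⟩
      have h5 := natDegree_le_of_dvd h4 h3
      rw [hdeg] at h5
      rw [mem_PL, degree_eq_natDegree h3] at hx
      have h6 : x.natDegree < m := by exact_mod_cast hx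
      omega
    rw [h1, card_empty, Nat.cast_zero]

/-- the alternating sum over the square-free polynomials of degree `j` -/
noncomputable def zz (F : Type) [Field F] [Fintype F] (y j : ℕ) : ℝ :=
  ∑ U ∈ SDj F y j, (-1 : ℝ) ^ U.card

theorem zz_sum {y n : ℕ} (hny : n ≤ y) :
    ∑ j ∈ range (n + 1), zz F y j * (Fintype.card F : ℝ) ^ (n - j) = if n = 0 then 1 else 0 := by
  have hprime : ∀ U ∈ (IrLE F y).powerset, ∀ P ∈ U, P.Monic ∧ Irreducible P := by
    intro U hU P hP
    have := mem_IrLE.mp (mem_powerset.mp hU hP)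
    exact ⟨this.1, this.2.1⟩
  -- both sides count the polynomials without prime factors
  have h1 : ∑ x ∈ PL F n, ∏ P ∈ IrLE F y, (1 + (if P ∣ X ^ n + x then (-1:ℝ) else 0)) =
      if n = 0 then 1 else 0 := by
    split_ifs with hn
    · subst hn
      have h2 : PL F 0 = {0} := by
        ext x
        rw [mem_PL, mem_singleton]
        constructor
        · intro h
          by_contra h3
          rw [degree_eq_natDegree h3] at h
          have : x.natDegree < 0 := by exact_mod_cast h
          omega
        · rintro rfl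
          rw [degree_zero]
          exact WithBot.bot_lt_coe 0
      rw [h2, sum_singleton, pow_zero, add_zero]
      apply prod_eq_one
      intro P hP
      rw [if_neg, add_zero]
      intro h3
      exact (mem_IrLE.mp hP).2.1.not_isUnit (isUnit_of_dvd_one h3)
    · apply sum_eq_zero
      intro x hx
      have hxd := mem_PL.mp hx
      have hmon : (X ^ n + x : F[X]).Monic := by
        apply monic_X_pow_add
        exact hxd
      have hdeg : (X ^ n + x : F[X]).natDegree = n := by
        rw [natDegree_add_eq_left_of_degree_lt (by rw [degree_X_pow]; exact hxd), natDegree_X_pow]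
      have hnu : ¬ IsUnit (X ^ n + x : F[X]) := by
        intro h3
        rw [hmon.isUnit_iff] at h3
        rw [h3, natDegree_one] at hdeg
        exact hn hdeg.symm
      obtain ⟨P, hP1, hP2⟩ := WfDvdMonoid.exists_irreducible_factor hnu hmon.ne_zero
      have hP0 := hP1.ne_zero
      have hlc : P.leadingCoeff ≠ 0 := leadingCoeff_ne_zero.mpr hP0
      set P' := C P.leadingCoeff⁻¹ * P with hP'
      have hassoc : Associated P' P := by
        rw [hP']
        exact associated_unit_mul_left _ _ (isUnit_C.mpr (isUnit_iff_ne_zero.mpr (inv_ne_zero hlc)))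
      have hPm : P'.Monic := by
        rw [hP', Monic, leadingCoeff_mul, leadingCoeff_C, inv_mul_cancel₀ hlc]
      have hPI : Irreducible P' := hassoc.irreducible_iff.mpr hP1
      have hPd : P' ∣ X ^ n + x := hassoc.dvd_iff_dvd_left.mpr hP2
      apply prod_eq_zero (i := P')
      · rw [mem_IrLE]
        refine ⟨hPm, hPI, ?_⟩
        have := natDegree_le_of_dvd hPd hmon.ne_zero
        omega
      · rw [if_pos hPd]
        norm_num
  rw [← h1]
  have h2 : ∀ x : F[X], ∏ P ∈ IrLE F y, (1 + (if P ∣ X ^ n + x then (-1:ℝ) else 0)) =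
      ∑ U ∈ (IrLE F y).powerset, (if ∏ P ∈ U, P ∣ X ^ n + x then (-1:ℝ) ^ U.card else 0) := by
    intro x
    rw [prod_one_add]
    refine sum_congr rfl (fun U hU => ?_)
    rw [prod_ite_zero]
    simp only [prod_dvd_iff (hprime U hU), prod_const]
  rw [sum_congr rfl (fun x _ => h2 x), sum_comm]
  have h3 : ∀ U ∈ (IrLE F y).powerset, ∑ x ∈ PL F n,
      (if ∏ P ∈ U, P ∣ X ^ n + x then (-1:ℝ) ^ U.card else 0) =
      if ∑ P ∈ U, P.natDegree ≤ n then
        (-1:ℝ) ^ U.card * (Fintype.card F : ℝ) ^ (n - ∑ P ∈ U, P.natDegree) else 0 := by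
    intro U hU
    have hmon := monic_pr (hprime U hU)
    have hdeg := natDegree_pr (hprime U hU)
    split_ifs with h
    · rw [← sum_filter, sum_const, nsmul_eq_mul]
      have h4 := PL_mod (∏ P ∈ U, P) hmon (-X ^ n) n (by omega)
      rw [hdeg] at h4
      have h5 : (PL F n).filter (fun x => ∏ P ∈ U, P ∣ X ^ n + x) =
          (PL F n).filter (fun x => ∏ P ∈ U, P ∣ x - -X ^ n) := by
        apply filter_congr
        intro x _
        rw [sub_neg_eq_add, add_comm]
      rw [h5, h4]
      push_cast
      ring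
    · apply sum_eq_zero
      intro x hx
      have hxd := mem_PL.mp hx
      have hmonx : (X ^ n + x : F[X]).Monic := monic_X_pow_add hxd
      have hdegx : (X ^ n + x : F[X]).natDegree = n := by
        rw [natDegree_add_eq_left_of_degree_lt (by rw [degree_X_pow]; exact hxd), natDegree_X_pow]
      rw [if_neg]
      intro h4
      have h5 := natDegree_le_of_dvd h4 hmonx.ne_zero
      omega
  rw [sum_congr rfl h3, ← sum_filter]
  have h4 : (IrLE F y).powerset.filter (fun U => ∑ P ∈ U, P.natDegree ≤ n) =
      (range (n + 1)).biUnion (fun j => SDj F y j) := by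
    ext U
    rw [mem_filter, mem_biUnion, mem_powerset]
    constructor
    · rintro ⟨h5, h6⟩
      exact ⟨_, mem_range.mpr (by omega), mem_SDj.mpr ⟨h5, rfl⟩⟩
    · rintro ⟨j, h5, h6⟩
      rw [mem_SDj] at h6
      rw [mem_range] at h5
      exact ⟨h6.1, by omega⟩
  rw [h4, sum_biUnion]
  · refine sum_congr rfl (fun j hj => ?_)
    unfold zz
    rw [sum_mul]
    refine sum_congr rfl (fun U hU => ?_)
    rw [(mem_SDj.mp hU).2]
  · intro i _ j _ hij
    rw [Function.onFun, disjoint_left]
    intro U h5 h6
    exact hij ((mem_SDj.mp h5).2.symm.trans (mem_SDj.mp h6).2)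

/-- **The Euler product of the zeta function**, in truncated form -/
theorem zz_eq {y j : ℕ} (hjy : j ≤ y) :
    zz F y j = if j = 0 then 1 else if j = 1 then -(Fintype.card F : ℝ) else 0 := by
  have hq := two_le_card (F := F)
  set q : ℝ := (Fintype.card F : ℝ) with hqd
  rcases j with _ | j
  · have h1 := zz_sum (F := F) hjy
    simpa using h1
  · have h1 := zz_sum (F := F) hjy
    have h2 := zz_sum (F := F) (show j ≤ y by omega)
    rw [sum_range_succ, Nat.sub_self, pow_zero, mul_one] at h1
    have h3 : ∑ i ∈ range (j + 1), zz F y i * q ^ (j + 1 - i) =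
        q * ∑ i ∈ range (j + 1), zz F y i * q ^ (j - i) := by
      rw [mul_sum]
      refine sum_congr rfl (fun i hi => ?_)
      rw [mem_range] at hi
      rw [show j + 1 - i = (j - i) + 1 by omega, pow_succ]
      ring
    rw [h3, h2] at h1
    rcases j with _ | j
    · rw [if_pos rfl, mul_one, if_neg (by norm_num)] at h1
      rw [if_neg (by norm_num), if_pos (by norm_num)]
      linarith
    · rw [if_neg (by omega), mul_zero, zero_add, if_neg (by omega)] at h1
      rw [if_neg (by omega), if_neg (by omega)]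
      exact h1

/-- the coefficients of a product of binomials -/
theorem coeff_prod_binom (T : Finset F[X]) (a b : F[X] → ℝ) (j : ℕ) :
    (∏ P ∈ T, (C (a P) + C (b P) * X ^ P.natDegree : ℝ[X])).coeff j =
      ∑ U ∈ T.powerset.filter (fun U => ∑ P ∈ U, P.natDegree = j),
        (∏ P ∈ U, b P) * ∏ P ∈ T \ U, a P := by
  have h1 : ∏ P ∈ T, (C (a P) + C (b P) * X ^ P.natDegree : ℝ[X]) =
      ∑ U ∈ T.powerset, C ((∏ P ∈ U, b P) * ∏ P ∈ T \ U, a P) * X ^ (∑ P ∈ U, P.natDegree) := by
    rw [prod_congr rfl (fun P _ => add_comm (C (a P)) (C (b P) * X ^ P.natDegree)), prod_add]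
    refine sum_congr rfl (fun U _ => ?_)
    rw [prod_mul_distrib, prod_pow_eq_pow_sum, C_mul, map_prod, map_prod]
    ring
  rw [h1, finsetSum_coeff, sum_filter]
  refine sum_congr rfl (fun U _ => ?_)
  rw [coeff_C_mul, coeff_X_pow]
  by_cases h : ∑ P ∈ U, P.natDegree = j
  · rw [if_pos h, if_pos h.symm, mul_one]
  · rw [if_neg h, if_neg (fun h2 => h h2.symm), mul_zero]

end Pool.Agent.H523.CM
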