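import Pool.Agent.H523.CM50
import Pool.Agent.H523.CM42

set_option autoImplicit false
set_option linter.unusedSectionVars false

/-! # The sum of the singular series over the multiples of a modulus: the norm of the coefficients -/

namespace Pool.Agent.H523.CM

open Polynomial Finset Filter
open Pool.Agent.H341R2.Sharp (Mon mem_Mon)
open Pool.Agent.H523.FF (Ir mem_Ir PL mem_PL card_PL two_le_card IrLE mem_IrLE irr_coprime PL_mod
  Ir_card sum_IrLE)

open scoped Classical Topology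

/-- a weighted `ℓ¹` norm of the coefficients -/
noncomputable def nrm (ρ : ℝ) (M : ℕ) (p : ℝ[X]) : ℝ := ∑ i ∈ range M, |p.coeff i| * ρ ^ i

theorem nrm_nonneg {ρ : ℝ} (hρ : 0 ≤ ρ) (M : ℕ) (p : ℝ[X]) : 0 ≤ nrm ρ M p :=
  sum_nonneg (fun _ _ => by positivity)

theorem nrm_add {ρ : ℝ} (hρ : 0 ≤ ρ) (M : ℕ) (p r : ℝ[X]) :
    nrm ρ M (p + r) ≤ nrm ρ M p + nrm ρ M r := by
  unfold nrm
  rw [← sum_add_distrib]
  refine sum_le_sum (fun i _ => ?_)
  rw [coeff_add, ← add_mul]
  exact mul_le_mul_of_nonneg_right (abs_add_le _ _) (by positivity)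

theorem nrm_monomial {ρ : ℝ} (hρ : 0 ≤ ρ) (M : ℕ) (a : ℝ) (n : ℕ) :
    nrm ρ M (C a * X ^ n) ≤ |a| * ρ ^ n := by
  unfold nrm
  have h1 : ∀ i ∈ range M, |(C a * X ^ n : ℝ[X]).coeff i| * ρ ^ i = if n = i then |a| * ρ ^ n else 0 := by
    intro i _
    rw [coeff_C_mul, coeff_X_pow]
    by_cases h : n = i
    · rw [if_pos h, if_pos h.symm, mul_one, h]
    · rw [if_neg h, if_neg (fun h2 => h h2.symm), mul_zero, abs_zero, zero_mul]
  rw [sum_congr rfl h1, sum_ite_eq]
  split_ifs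
  · exact le_rfl
  · positivity

theorem nrm_mul {ρ : ℝ} (hρ : 0 ≤ ρ) (M : ℕ) (p r : ℝ[X]) :
    nrm ρ M (p * r) ≤ nrm ρ M p * nrm ρ M r := by
  have h1 : nrm ρ M p * nrm ρ M r = ∑ x ∈ range M ×ˢ range M,
      (|p.coeff x.1| * ρ ^ x.1) * (|r.coeff x.2| * ρ ^ x.2) := by
    unfold nrm
    rw [sum_mul_sum, sum_product]
  rw [h1]
  calc nrm ρ M (p * r) ≤ ∑ n ∈ range M, ∑ x ∈ antidiagonal n,
        (|p.coeff x.1| * ρ ^ x.1) * (|r.coeff x.2| * ρ ^ x.2) := by
        unfold nrm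
        refine sum_le_sum (fun n _ => ?_)
        rw [coeff_mul]
        refine (mul_le_mul_of_nonneg_right (abs_sum_le_sum_abs _ _) (by positivity)).trans ?_
        rw [sum_mul]
        refine sum_le_sum (fun x hx => ?_)
        rw [HasAntidiagonal.mem_antidiagonal] at hx
        rw [abs_mul, ← hx, pow_add]
        exact le_of_eq (by ring)
    _ = ∑ x ∈ (range M).biUnion (fun n => antidiagonal n),
        (|p.coeff x.1| * ρ ^ x.1) * (|r.coeff x.2| * ρ ^ x.2) := by
        rw [sum_biUnion]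
        intro i _ j _ hij
        rw [Function.onFun, disjoint_left]
        intro x h3 h4
        rw [HasAntidiagonal.mem_antidiagonal] at h3 h4
        exact hij (h3.symm.trans h4)
    _ ≤ _ := by
        apply sum_le_sum_of_subset_of_nonneg
        · intro x hx
          rw [mem_biUnion] at hx
          obtain ⟨n, h3, h4⟩ := hx
          rw [mem_range] at h3
          rw [HasAntidiagonal.mem_antidiagonal] at h4
          rw [mem_product, mem_range, mem_range]
          omega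
        · intro _ _ _
          positivity

theorem nrm_one {ρ : ℝ} (hρ : 0 ≤ ρ) (M : ℕ) : nrm ρ M 1 ≤ 1 := by
  have h := nrm_monomial hρ M 1 0
  rwa [C_1, pow_zero, mul_one, abs_one, pow_zero, mul_one] at h

theorem nrm_prod {ρ : ℝ} (hρ : 0 ≤ ρ) (M : ℕ) {ι : Type} (s : Finset ι) (p : ι → ℝ[X]) (w : ι → ℝ)
    (h : ∀ i ∈ s, nrm ρ M (p i) ≤ w i) : nrm ρ M (∏ i ∈ s, p i) ≤ ∏ i ∈ s, w i := by
  induction s using Finset.induction_on with
  | empty =>
    rw [prod_empty, prod_empty]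
    exact nrm_one hρ M
  | insert a s ha ih =>
    rw [prod_insert ha, prod_insert ha]
    have h1 := ih (fun i hi => h i (mem_insert_of_mem hi))
    have h2 := h a (mem_insert_self a s)
    exact (nrm_mul hρ M _ _).trans (mul_le_mul h2 h1 (nrm_nonneg hρ M _)
      ((nrm_nonneg hρ M _).trans h2))

variable {F : Type} [Field F] [Fintype F]

variable (F) in
/-- the eighth root of `q` -/
noncomputable def rho : ℝ := Real.sqrt (om F)

theorem rho_sq : rho F ^ 2 = om F := Real.sq_sqrt (om_pos (F := F)).le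

theorem rho_ge : 13 / 12 ≤ rho F := by
  have hq := two_le_card (F := F)
  have h0 : 0 ≤ rho F := Real.sqrt_nonneg _
  by_contra h
  push Not at h
  have h1 : rho F ^ 8 < (13 / 12) ^ 8 := pow_lt_pow_left₀ h h0 (by norm_num)
  have h2 : rho F ^ 8 = (Fintype.card F : ℝ) := by
    rw [← om_four (F := F), ← rho_sq, ← pow_mul]
  rw [h2] at h1
  have h3 : ((13:ℝ) / 12) ^ 8 < 2 := by norm_num
  linarith

theorem rho_pow_ge (t : ℕ) : 2 + (t:ℝ) ≤ 24 * rho F ^ t := by
  have h := rho_ge (F := F)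
  have h1 := one_add_mul_le_pow (show (-2:ℝ) ≤ rho F - 1 by linarith) t
  rw [add_sub_cancel] at h1
  have h2 : (0:ℝ) ≤ t := Nat.cast_nonneg t
  nlinarith

/-- the inverse of the norm of `P` -/
noncomputable def iP (P : F[X]) : ℝ := 1 / (Fintype.card F : ℝ) ^ P.natDegree

theorem iP_pos (P : F[X]) : 0 < iP P := by
  have hq := two_le_card (F := F)
  unfold iP
  positivity

theorem iP_eq {P : F[X]} (hP : Irreducible P) : iP P * (1 + gP P) = gP P := by
  have h := gP_eq hP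
  unfold iP
  rw [one_div, inv_mul_eq_div]
  exact h.symm

noncomputable def fW (P : F[X]) : ℝ[X] :=
  C (1 - gP P ^ 2) + C (gP P * (1 + gP P)) * X ^ P.natDegree

noncomputable def fZ (P : F[X]) : ℝ[X] := C 1 + C (-iP P) * X ^ P.natDegree

noncomputable def fK (P : F[X]) : ℝ[X] := 1 - C (gP P ^ 2) * (1 - X ^ P.natDegree) ^ 2

theorem fW_mul_fZ {P : F[X]} (hP : Irreducible P) : fW P * fZ P = fK P := by
  have hx := iP_eq hP
  have e1 : gP P * (1 + gP P) - (1 - gP P ^ 2) * iP P = 2 * gP P ^ 2 := by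
    have : (1 - gP P ^ 2) * iP P = (1 - gP P) * (iP P * (1 + gP P)) := by ring
    rw [this, hx]
    ring
  have e2 : gP P * (1 + gP P) * iP P = gP P ^ 2 := by
    have : gP P * (1 + gP P) * iP P = gP P * (iP P * (1 + gP P)) := by ring
    rw [this, hx]
    ring
  have h1 : fW P * fZ P = C (1 - gP P ^ 2) +
      C (gP P * (1 + gP P) - (1 - gP P ^ 2) * iP P) * X ^ P.natDegree -
      C (gP P * (1 + gP P) * iP P) * (X ^ P.natDegree) ^ 2 := by
    unfold fW fZ
    simp only [C_sub, C_mul, C_add, C_neg, C_1]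
    ring
  rw [h1, e1, e2]
  unfold fK
  simp only [C_sub, C_mul, C_1, C_pow]
  have h2 : (C 2 : ℝ[X]) = 2 := by
    rw [← C_ofNat]
  rw [h2]
  ring

theorem nrm_fK {M : ℕ} {P : F[X]} (hP : Irreducible P) :
    nrm (rho F) M (fK P) ≤ 1 + 12 * (om F ^ P.natDegree / ((Fintype.card F : ℝ) ^ P.natDegree) ^ 2) := by
  have hρ : 0 ≤ rho F := Real.sqrt_nonneg _
  have hρ1 : 1 ≤ rho F := by linarith [rho_ge (F := F)]
  have hg0 := gP_pos hP
  have hg1 := gP_le_one hP
  have hg2 := gP_le_two hP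
  have hq := two_le_card (F := F)
  have e : fK P = C (1 - gP P ^ 2) * X ^ 0 + C (2 * gP P ^ 2) * X ^ P.natDegree +
      C (-(gP P ^ 2)) * X ^ (2 * P.natDegree) := by
    unfold fK
    rw [pow_zero, mul_one, mul_comm 2 P.natDegree, pow_mul]
    simp only [C_sub, C_mul, C_1, C_pow, C_neg]
    have h2 : (C 2 : ℝ[X]) = 2 := by
      rw [← C_ofNat]
    rw [h2]
    ring
  rw [e]
  refine (nrm_add hρ M _ _).trans ?_
  refine (add_le_add (nrm_add hρ M _ _) (nrm_monomial hρ M _ _)).trans ?_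
  refine (add_le_add (add_le_add (nrm_monomial hρ M _ _) (nrm_monomial hρ M _ _)) le_rfl).trans ?_
  rw [pow_zero, mul_one, abs_of_nonneg (by nlinarith : (0:ℝ) ≤ 1 - gP P ^ 2),
    abs_of_nonneg (by positivity : (0:ℝ) ≤ 2 * gP P ^ 2), abs_neg,
    abs_of_nonneg (by positivity : (0:ℝ) ≤ gP P ^ 2), pow_mul, rho_sq]
  have h1 : rho F ^ P.natDegree ≤ om F ^ P.natDegree := by
    rw [← rho_sq, ← pow_mul, mul_comm 2, pow_mul]
    have : 1 ≤ rho F ^ P.natDegree := one_le_pow₀ hρ1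
    nlinarith
  have h2 : gP P ^ 2 ≤ 4 / ((Fintype.card F : ℝ) ^ P.natDegree) ^ 2 := by
    calc gP P ^ 2 ≤ (2 / (Fintype.card F : ℝ) ^ P.natDegree) ^ 2 := pow_le_pow_left₀ hg0.le hg2 2
      _ = _ := by
        rw [div_pow]
        norm_num
  have h3 : 0 < om F ^ P.natDegree := pow_pos om_pos _
  have h4 : gP P ^ 2 * om F ^ P.natDegree ≤
      4 / ((Fintype.card F : ℝ) ^ P.natDegree) ^ 2 * om F ^ P.natDegree :=
    mul_le_mul_of_nonneg_right h2 h3.le
  have h5 : 2 * gP P ^ 2 * rho F ^ P.natDegree ≤ 2 * (gP P ^ 2 * om F ^ P.natDegree) := by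
    have := mul_le_mul_of_nonneg_left h1 (by positivity : (0:ℝ) ≤ 2 * gP P ^ 2)
    linarith
  have h6 : 12 * (om F ^ P.natDegree / ((Fintype.card F : ℝ) ^ P.natDegree) ^ 2) =
      3 * (4 / ((Fintype.card F : ℝ) ^ P.natDegree) ^ 2 * om F ^ P.natDegree) := by ring
  rw [h6]
  have h7 : 0 ≤ gP P ^ 2 := by positivity
  linarith

theorem nrm_fZ {M : ℕ} {P : F[X]} : nrm (rho F) M (fZ P) ≤ 2 := by
  have hρ : 0 ≤ rho F := Real.sqrt_nonneg _
  have hq := two_le_card (F := F)
  have hρq : rho F ≤ (Fintype.card F : ℝ) := by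
    have h1 : (1:ℝ) ≤ rho F := by linarith [rho_ge (F := F)]
    have h2 : rho F ^ 8 = (Fintype.card F : ℝ) := by
      rw [← om_four (F := F), ← rho_sq, ← pow_mul]
    rw [← h2]
    exact le_self_pow₀ h1 (by norm_num)
  have e : fZ P = C 1 * X ^ 0 + C (-iP P) * X ^ P.natDegree := by
    unfold fZ
    rw [pow_zero, mul_one]
  rw [e]
  refine (nrm_add hρ M _ _).trans ?_
  refine (add_le_add (nrm_monomial hρ M _ _) (nrm_monomial hρ M _ _)).trans ?_
  rw [abs_one, pow_zero, mul_one, abs_neg, abs_of_pos (iP_pos P)]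
  have h1 : iP P * rho F ^ P.natDegree ≤ 1 := by
    unfold iP
    rw [one_div, inv_mul_le_one₀ (by positivity)]
    exact pow_le_pow_left₀ hρ hρq _
  linarith

/-- the coprime primes -/
noncomputable def TA (y : ℕ) (Q : F[X]) : Finset F[X] := (IrLE F y).filter (fun P => ¬ P ∣ Q)

/-- the primes dividing the modulus -/
noncomputable def TD (y : ℕ) (Q : F[X]) : Finset F[X] := (IrLE F y).filter (fun P => P ∣ Q)

theorem TA_prime {y : ℕ} {Q : F[X]} : ∀ P ∈ TA y Q, P.Monic ∧ Irreducible P := by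
  intro P hP
  unfold TA at hP
  have := mem_IrLE.mp (mem_filter.mp hP).1
  exact ⟨this.1, this.2.1⟩

theorem TD_prime {y : ℕ} {Q : F[X]} : ∀ P ∈ TD y Q, P.Monic ∧ Irreducible P := by
  intro P hP
  unfold TD at hP
  have := mem_IrLE.mp (mem_filter.mp hP).1
  exact ⟨this.1, this.2.1⟩

/-- the polynomial `κ` -/
noncomputable def kap (y : ℕ) (Q : F[X]) : ℝ[X] := (∏ P ∈ TA y Q, fK P) * ∏ P ∈ TD y Q, fZ P

theorem nrm_kap {M y : ℕ} {Q : F[X]} : nrm (rho F) M (kap y Q) ≤
    Real.exp 18 * 2 ^ (TD y Q).card := by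
  have hρ : 0 ≤ rho F := Real.sqrt_nonneg _
  have hq := two_le_card (F := F)
  have hom := om_pos (F := F)
  unfold kap
  refine (nrm_mul hρ M _ _).trans ?_
  have h1 := nrm_prod hρ M (TA y Q) fK (fun P => 1 + 12 * (om F ^ P.natDegree /
    ((Fintype.card F : ℝ) ^ P.natDegree) ^ 2)) (fun P hP => nrm_fK (TA_prime P hP).2)
  have h2 := nrm_prod hρ M (TD y Q) fZ (fun _ => 2) (fun P _ => nrm_fZ)
  rw [prod_const] at h2
  refine mul_le_mul (h1.trans ?_) h2 (nrm_nonneg hρ M _) (Real.exp_pos _).le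
  calc ∏ P ∈ TA y Q, (1 + 12 * (om F ^ P.natDegree / ((Fintype.card F : ℝ) ^ P.natDegree) ^ 2))
      ≤ ∏ P ∈ TA y Q, Real.exp (12 * (om F ^ P.natDegree /
        ((Fintype.card F : ℝ) ^ P.natDegree) ^ 2)) := by
        refine prod_le_prod (fun P _ => by positivity) (fun P _ => ?_)
        rw [add_comm]
        exact Real.add_one_le_exp _
    _ = Real.exp (12 * ∑ P ∈ TA y Q, om F ^ P.natDegree /
        ((Fintype.card F : ℝ) ^ P.natDegree) ^ 2) := by
        rw [← Real.exp_sum, mul_sum]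
    _ ≤ Real.exp 18 := by
        apply Real.exp_le_exp.mpr
        have h3 : ∑ P ∈ TA y Q, om F ^ P.natDegree / ((Fintype.card F : ℝ) ^ P.natDegree) ^ 2 ≤
            3 / 2 := by
          refine le_trans ?_ (sum_om (F := F) y)
          apply sum_le_sum_of_subset_of_nonneg (filter_subset _ _)
          intro _ _ _
          positivity
        linarith

end Pool.Agent.H523.CM
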