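import Pool.Agent.H523.CM51

set_option autoImplicit false
set_option linter.unusedSectionVars false

/-! # The sum of the singular series over the multiples of a modulus: evaluation -/

namespace Pool.Agent.H523.CM

open Polynomial Finset Filter
open Pool.Agent.H341R2.Sharp (Mon mem_Mon)
open Pool.Agent.H523.FF (Ir mem_Ir PL mem_PL card_PL two_le_card IrLE mem_IrLE irr_coprime PL_mod
  Ir_card sum_IrLE)

open scoped Classical Topology

variable {F : Type} [Field F] [Fintype F]

theorem coeff_ZT {y j : ℕ} (hj : j ≤ y) :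
    (∏ P ∈ IrLE F y, fZ P).coeff j = (1 - X : ℝ[X]).coeff j := by
  have hq := two_le_card (F := F)
  have hq0 : (0:ℝ) < (Fintype.card F : ℝ) := by linarith
  have h1 := coeff_prod_binom (IrLE F y) (fun _ => 1) (fun P => -iP P) j
  have h2 : (∏ P ∈ IrLE F y, fZ P).coeff j = zz F y j / (Fintype.card F : ℝ) ^ j := by
    unfold fZ
    rw [h1]
    unfold zz SDj
    rw [sum_div]
    refine sum_congr rfl (fun U hU => ?_)
    rw [prod_const_one, mul_one, prod_neg]
    have h3 : ∏ P ∈ U, iP P = 1 / (Fintype.card F : ℝ) ^ j := by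
      unfold iP
      rw [prod_div_distrib, prod_const_one, prod_pow_eq_pow_sum, (mem_filter.mp hU).2]
    rw [h3]
    ring
  rw [h2, zz_eq hj, coeff_sub, coeff_one, coeff_X]
  rcases j with _ | _ | j
  · simp
  · simp only [zero_add, one_ne_zero, if_false, if_true, pow_one, zero_sub]
    rw [neg_div, div_self hq0.ne']
  · rw [if_neg (by omega), if_neg (by omega), if_neg (by omega), if_neg (by omega), zero_div,
      sub_zero]

/-- the generating polynomial of the weights -/
noncomputable def WW (y : ℕ) (Q : F[X]) : ℝ[X] := ∏ P ∈ TA y Q, fW P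

theorem WW_mul {y : ℕ} {Q : F[X]} : WW y Q * ∏ P ∈ IrLE F y, fZ P = kap y Q := by
  have h1 : ∏ P ∈ IrLE F y, fZ P = (∏ P ∈ TD y Q, fZ P) * ∏ P ∈ TA y Q, fZ P := by
    unfold TD TA
    rw [prod_filter_mul_prod_filter_not]
  have h2 : (∏ P ∈ TA y Q, fW P) * ∏ P ∈ TA y Q, fZ P = ∏ P ∈ TA y Q, fK P := by
    rw [← prod_mul_distrib]
    exact prod_congr rfl (fun P hP => fW_mul_fZ (TA_prime P hP).2)
  unfold WW kap
  rw [h1, ← h2]
  ring

theorem WW_coeff {y : ℕ} {Q : F[X]} : ∀ j : ℕ, j ≤ y →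
    (WW y Q).coeff j = ∑ i ∈ range (j + 1), (kap y Q).coeff i := by
  have key : ∀ j ≤ y, (kap y Q).coeff j = (WW y Q * (1 - X)).coeff j := by
    intro j hj
    rw [← WW_mul (Q := Q), coeff_mul, coeff_mul]
    refine sum_congr rfl (fun x hx => ?_)
    rw [HasAntidiagonal.mem_antidiagonal] at hx
    rw [coeff_ZT (F := F) (show x.2 ≤ y by omega)]
  intro j
  induction j with
  | zero =>
    intro hj
    rw [zero_add, sum_range_one, key 0 hj, mul_sub, mul_one, coeff_sub, coeff_mul_X_zero, sub_zero]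
  | succ j ih =>
    intro hj
    rw [sum_range_succ, ← ih (by omega), key (j + 1) hj, mul_sub, mul_one, coeff_sub, coeff_mul_X]
    ring

theorem sum_nonzero_multiples {y m : ℕ} {Q : F[X]} :
    ∑ h ∈ (PL F m).filter (fun h => h ≠ 0), ∏ P ∈ TA y Q, (1 + cB P (Q * h)) =
      ∑ j ∈ range m, ((Fintype.card F : ℝ) ^ (m - j) - 1) * (WW y Q).coeff j := by
  have hpr : ∀ U ∈ (TA y Q).powerset, ∀ P ∈ U, P.Monic ∧ Irreducible P := fun U hU P hP =>
    TA_prime P (mem_powerset.mp hU hP)
  have h1 : ∀ h : F[X], ∏ P ∈ TA y Q, (1 + cB P (Q * h)) =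
      ∑ U ∈ (TA y Q).powerset, (if ∏ P ∈ U, P ∣ h then
        (∏ P ∈ U, (gP P * (1 + gP P))) * ∏ P ∈ TA y Q \ U, (1 - gP P ^ 2) else 0) := by
    intro h
    have h2 : ∀ P ∈ TA y Q, 1 + cB P (Q * h) =
        (if P ∣ h then gP P * (1 + gP P) else 0) + (1 - gP P ^ 2) := by
      intro P hP
      have hPI := (TA_prime P hP).2
      have hnd : ¬ P ∣ Q := by
        unfold TA at hP
        exact (mem_filter.mp hP).2
      have hiff : P ∣ Q * h ↔ P ∣ h := by
        constructor
        · intro h3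
          exact (hPI.prime.dvd_or_dvd h3).resolve_left hnd
        · exact fun h3 => h3.mul_left Q
      rw [cB_values hPI]
      simp only [hiff]
      split_ifs <;> ring
    rw [prod_congr rfl h2, prod_add]
    refine sum_congr rfl (fun U hU => ?_)
    rw [prod_ite_zero]
    simp only [prod_dvd_iff (hpr U hU)]
    split_ifs
    · rfl
    · rw [zero_mul]
  rw [sum_congr rfl (fun h _ => h1 h), sum_comm]
  have h2 : ∀ U ∈ (TA y Q).powerset, ∑ h ∈ (PL F m).filter (fun h => h ≠ 0),
      (if ∏ P ∈ U, P ∣ h then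
        (∏ P ∈ U, (gP P * (1 + gP P))) * ∏ P ∈ TA y Q \ U, (1 - gP P ^ 2) else 0) =
      if ∑ P ∈ U, P.natDegree < m then ((Fintype.card F : ℝ) ^ (m - ∑ P ∈ U, P.natDegree) - 1) *
        ((∏ P ∈ U, (gP P * (1 + gP P))) * ∏ P ∈ TA y Q \ U, (1 - gP P ^ 2)) else 0 := by
    intro U hU
    rw [← sum_filter, filter_filter, sum_const, nsmul_eq_mul, card_multiples (hpr U hU)]
    split_ifs
    · rfl
    · rw [zero_mul]
  rw [sum_congr rfl h2, ← sum_filter]
  have h3 := sum_fiberwise_of_maps_to (s := (TA y Q).powerset.filter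
    (fun U => ∑ P ∈ U, P.natDegree < m)) (t := range m) (g := fun U => ∑ P ∈ U, P.natDegree)
    (fun U hU => mem_range.mpr (mem_filter.mp hU).2)
    (fun U => ((Fintype.card F : ℝ) ^ (m - ∑ P ∈ U, P.natDegree) - 1) *
        ((∏ P ∈ U, (gP P * (1 + gP P))) * ∏ P ∈ TA y Q \ U, (1 - gP P ^ 2)))
  rw [← h3]
  refine sum_congr rfl (fun j hj => ?_)
  rw [mem_range] at hj
  unfold WW fW
  rw [coeff_prod_binom, mul_sum, filter_filter]
  have h4 : (TA y Q).powerset.filter (fun U => ∑ P ∈ U, P.natDegree < m ∧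
      ∑ P ∈ U, P.natDegree = j) = (TA y Q).powerset.filter (fun U => ∑ P ∈ U, P.natDegree = j) := by
    apply filter_congr
    intro U _
    constructor
    · exact fun h => h.2
    · exact fun h => ⟨by omega, h⟩
  rw [h4]
  refine sum_congr rfl (fun U hU => ?_)
  rw [(mem_filter.mp hU).2]

theorem geo_ico {q : ℝ} (hq : 1 < q) (i t : ℕ) :
    ∑ j ∈ Finset.Ico i (i + t), (q ^ (i + t - j) - 1) = (q ^ (t + 1) - q) / (q - 1) - t := by
  have hq1 : q - 1 ≠ 0 := by linarith
  induction t with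
  | zero => simp
  | succ t ih =>
    rw [show i + (t + 1) = i + t + 1 by ring, sum_Ico_succ_top (by omega)]
    have h1 : ∑ j ∈ Finset.Ico i (i + t), (q ^ (i + t + 1 - j) - 1) =
        q * ∑ j ∈ Finset.Ico i (i + t), (q ^ (i + t - j) - 1) + (q - 1) * t := by
      rw [mul_sum]
      have h2 : (q - 1) * (t:ℝ) = ∑ _j ∈ Finset.Ico i (i + t), (q - 1) := by
        rw [sum_const, Nat.card_Ico, Nat.add_sub_cancel_left, nsmul_eq_mul]
        ring
      rw [h2, ← sum_add_distrib]
      refine sum_congr rfl (fun j hj => ?_)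
      rw [Finset.mem_Ico] at hj
      rw [show i + t + 1 - j = (i + t - j) + 1 by omega, pow_succ]
      ring
    rw [h1, ih, show i + t + 1 - (i + t) = 1 by omega, pow_one]
    push_cast
    field_simp
    ring

/-- the weight of a coefficient -/
noncomputable def psi (q : ℝ) (m i : ℕ) : ℝ := (q ^ (m + 1) * (1 / q) ^ i - q) / (q - 1) - m + i

theorem sum_WW {y m : ℕ} (hmy : m ≤ y) {Q : F[X]} :
    ∑ j ∈ range m, ((Fintype.card F : ℝ) ^ (m - j) - 1) * (WW y Q).coeff j =
      ∑ i ∈ range m, (kap y Q).coeff i * psi (Fintype.card F : ℝ) m i := by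
  have hq := two_le_card (F := F)
  set q : ℝ := (Fintype.card F : ℝ) with hqd
  have h1 : ∑ j ∈ range m, (q ^ (m - j) - 1) * (WW y Q).coeff j =
      ∑ j ∈ range m, ∑ i ∈ range (j + 1), (q ^ (m - j) - 1) * (kap y Q).coeff i := by
    refine sum_congr rfl (fun j hj => ?_)
    rw [mem_range] at hj
    rw [WW_coeff j (by omega), mul_sum]
  rw [h1, sum_comm' (t' := range m) (s' := fun i => Finset.Ico i m) (by
    intro j i
    rw [mem_range, mem_range, mem_range, Finset.mem_Ico]
    omega)]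
  refine sum_congr rfl (fun i hi => ?_)
  rw [mem_range] at hi
  rw [← sum_mul, mul_comm]
  congr 1
  have h2 := geo_ico (show (1:ℝ) < q by linarith) i (m - i)
  rw [show i + (m - i) = m by omega] at h2
  rw [h2]
  unfold psi
  have h3 : q ^ (m - i + 1) = q ^ (m + 1) * (1 / q) ^ i := by
    rw [one_div, inv_pow, ← div_eq_mul_inv, eq_div_iff (by positivity), ← pow_add]
    congr 1
    omega
  rw [h3, Nat.cast_sub hi.le]
  ring

theorem sum_psi {p : ℝ[X]} {M m : ℕ} (hM : p.natDegree < M) (q : ℝ) :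
    ∑ i ∈ range M, p.coeff i * psi q m i =
      q ^ (m + 1) / (q - 1) * p.eval (1 / q) - (q / (q - 1) + m) * p.eval 1 +
        (derivative p).eval 1 := by
  rw [eval_eq_sum_range' hM, eval_eq_sum_range' hM, derivative_eval]
  rw [sum_over_range' p (fun _ => by rw [zero_mul, zero_mul]) M hM, mul_sum, mul_sum,
    ← sum_sub_distrib, ← sum_add_distrib]
  refine sum_congr rfl (fun i _ => ?_)
  unfold psi
  rw [one_pow, one_pow]
  ring

theorem psi_abs {q : ℝ} (hq : 2 ≤ q) {m i : ℕ} (hi : m ≤ i) : |psi q m i| ≤ 2 + ((i - m : ℕ) : ℝ) := by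
  unfold psi
  rw [Nat.cast_sub hi]
  have h0 : 0 < q ^ (m + 1) * (1 / q) ^ i := by positivity
  have h1 : q ^ (m + 1) * (1 / q) ^ i ≤ q := by
    rw [one_div, inv_pow, ← div_eq_mul_inv, div_le_iff₀ (by positivity), ← pow_succ']
    exact pow_le_pow_right₀ (by linarith) (by omega)
  have h2 : -2 ≤ (q ^ (m + 1) * (1 / q) ^ i - q) / (q - 1) := by
    rw [le_div_iff₀ (by linarith)]
    linarith
  have h3 : (q ^ (m + 1) * (1 / q) ^ i - q) / (q - 1) ≤ 0 :=
    div_nonpos_of_nonpos_of_nonneg (by linarith) (by linarith)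
  have h4 : (m:ℝ) ≤ i := by exact_mod_cast hi
  rw [abs_le]
  constructor <;> linarith

/-- the terms of large index are negligible -/
theorem sum_psi_tail {y m M : ℕ} {Q : F[X]} :
    |∑ i ∈ Finset.Ico m M, (kap y Q).coeff i * psi (Fintype.card F : ℝ) m i| ≤
      24 * (Real.exp 18 * 2 ^ (TD y Q).card) / rho F ^ m := by
  have hq := two_le_card (F := F)
  have hρ1 : 1 ≤ rho F := by linarith [rho_ge (F := F)]
  have hρ0 : 0 < rho F := by linarith
  rw [le_div_iff₀ (by positivity)]
  calc |∑ i ∈ Finset.Ico m M, (kap y Q).coeff i * psi (Fintype.card F : ℝ) m i| * rho F ^ m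
      ≤ (∑ i ∈ Finset.Ico m M, |(kap y Q).coeff i * psi (Fintype.card F : ℝ) m i|) * rho F ^ m :=
        mul_le_mul_of_nonneg_right (abs_sum_le_sum_abs _ _) (by positivity)
    _ ≤ ∑ i ∈ Finset.Ico m M, 24 * (|(kap y Q).coeff i| * rho F ^ i) := by
        rw [sum_mul]
        refine sum_le_sum (fun i hi => ?_)
        rw [Finset.mem_Ico] at hi
        rw [abs_mul]
        have h1 := (psi_abs hq hi.1).trans (rho_pow_ge (F := F) (i - m))
        calc |(kap y Q).coeff i| * |psi (Fintype.card F : ℝ) m i| * rho F ^ m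
            ≤ |(kap y Q).coeff i| * (24 * rho F ^ (i - m)) * rho F ^ m :=
              mul_le_mul_of_nonneg_right (mul_le_mul_of_nonneg_left h1 (abs_nonneg _))
                (by positivity)
          _ = 24 * (|(kap y Q).coeff i| * (rho F ^ (i - m) * rho F ^ m)) := by ring
          _ = _ := by
            rw [← pow_add, show i - m + m = i by omega]
    _ ≤ 24 * nrm (rho F) M (kap y Q) := by
        rw [← mul_sum]
        refine mul_le_mul_of_nonneg_left ?_ (by norm_num)
        unfold nrm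
        apply sum_le_sum_of_subset_of_nonneg
        · intro i hi
          rw [Finset.mem_Ico] at hi
          exact mem_range.mpr hi.2
        · intro _ _ _
          positivity
    _ ≤ _ := mul_le_mul_of_nonneg_left nrm_kap (by norm_num)

theorem eval_one_fK (P : F[X]) : (fK P).eval 1 = 1 := by
  unfold fK
  simp

theorem eval_one_fZ (P : F[X]) : (fZ P).eval 1 = 1 - iP P := by
  unfold fZ
  simp
  ring

theorem deriv_one_fK (P : F[X]) : (derivative (fK P)).eval 1 = 0 := by
  unfold fK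
  simp [derivative_pow]

theorem deriv_one_fZ (P : F[X]) : (derivative (fZ P)).eval 1 = -(iP P * P.natDegree) := by
  unfold fZ
  rw [derivative_add, derivative_C, zero_add, derivative_C_mul, derivative_X_pow, eval_mul, eval_C,
    eval_mul, eval_pow, eval_X, one_pow, mul_one, eval_C]
  ring

theorem eval_inv_fZ (P : F[X]) : (fZ P).eval (1 / (Fintype.card F : ℝ)) = 1 - iP P ^ 2 := by
  unfold fZ iP
  simp
  ring

theorem eval_inv_fK {P : F[X]} (hP : Irreducible P) :
    (fK P).eval (1 / (Fintype.card F : ℝ)) = 1 - iP P ^ 2 := by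
  have hx := iP_eq hP
  have h1 : ((1:ℝ) / (Fintype.card F : ℝ)) ^ P.natDegree = iP P := by
    unfold iP
    rw [one_div_pow]
  have h2 : (fK P).eval (1 / (Fintype.card F : ℝ)) = 1 - gP P ^ 2 * (1 - iP P) ^ 2 := by
    unfold fK
    simp only [eval_sub, eval_one, eval_mul, eval_C, eval_pow, eval_X, h1]
  have h3 : gP P * (1 - iP P) = iP P := by
    have : gP P * (1 - iP P) = iP P * (1 + gP P) - gP P * iP P := by rw [hx]; ring
    rw [this]
    ring
  rw [h2, ← mul_pow, h3]

end Pool.Agent.H523.CM
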