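import Pool.Agent.H523.CM52

set_option autoImplicit false
set_option linter.unusedSectionVars false

/-! # The sum of the singular series over the multiples of a modulus: the limit -/

namespace Pool.Agent.H523.CM

open Polynomial Finset Filter
open Pool.Agent.H341R2.Sharp (Mon mem_Mon)
open Pool.Agent.H523.FF (Ir mem_Ir PL mem_PL card_PL two_le_card IrLE mem_IrLE irr_coprime PL_mod
  Ir_card sum_IrLE)

open scoped Classical Topology

variable {F : Type} [Field F] [Fintype F]

/-- the number of the square-free polynomials of degree `j` -/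
theorem card_SDj (y j : ℕ) : ((SDj F y j).card : ℝ) ≤ (Fintype.card F : ℝ) ^ j := by
  have h1 : (SDj F y j).card ≤ (Mon F j).card := by
    refine card_le_card_of_injOn (fun U => ∏ P ∈ U, P) ?_ ?_
    · intro U hU
      rw [mem_coe] at hU
      rw [mem_coe, mem_Mon]
      have h := SDj_prime hU
      exact ⟨monic_pr h, by rw [natDegree_pr h, (mem_SDj.mp hU).2]⟩
    · intro U hU V hV h
      rw [mem_coe] at hU hV
      exact pr_inj (SDj_prime hU) (SDj_prime hV) h
  have h2 : ((Mon F j).card : ℝ) = (Fintype.card F : ℝ) ^ j := by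
    have h := sum_Mon_eq (F := F) j (fun _ => (1:ℝ))
    rw [sum_const, sum_const, nsmul_eq_mul, nsmul_eq_mul, mul_one, mul_one, card_PL] at h
    rw [h]
    push_cast
    rfl
  rw [← h2]
  exact_mod_cast h1

/-- the value of the Euler product at `1 / q` -/
theorem prod_iP_sq (y : ℕ) (hy : 1 ≤ y) :
    |∏ P ∈ IrLE F y, (1 - iP P ^ 2) - (1 - 1 / (Fintype.card F : ℝ))| ≤
      2 / (Fintype.card F : ℝ) ^ y := by
  have hq := two_le_card (F := F)
  set q : ℝ := (Fintype.card F : ℝ) with hqd
  have hq0 : 0 < q := by linarith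
  set Z : ℝ[X] := ∏ P ∈ IrLE F y, fZ P with hZ
  have h1 : Z.eval (1 / q) = ∏ P ∈ IrLE F y, (1 - iP P ^ 2) := by
    rw [hZ, eval_prod]
    exact prod_congr rfl (fun P _ => eval_inv_fZ P)
  set M := max (Z.natDegree + 1) (y + 1) with hM
  have hM1 : Z.natDegree < M := lt_of_lt_of_le (Nat.lt_succ_self _) (le_max_left _ _)
  have hM2 : y + 1 ≤ M := le_max_right _ _
  have h2 : Z.eval (1 / q) = ∑ i ∈ range (y + 1), Z.coeff i * (1 / q) ^ i +
      ∑ i ∈ Finset.Ico (y + 1) M, Z.coeff i * (1 / q) ^ i := by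
    rw [eval_eq_sum_range' hM1, ← sum_range_add_sum_Ico _ hM2]
  have h3 : ∑ i ∈ range (y + 1), Z.coeff i * (1 / q) ^ i = 1 - 1 / q := by
    have h4 : ∀ i ∈ range (y + 1), Z.coeff i * (1 / q) ^ i =
        (1 - X : ℝ[X]).coeff i * (1 / q) ^ i := by
      intro i hi
      rw [mem_range] at hi
      rw [hZ, coeff_ZT (by omega)]
    rw [sum_congr rfl h4]
    have h5 : (1 - X : ℝ[X]).natDegree < y + 1 := by
      have : (1 - X : ℝ[X]).natDegree ≤ 1 := by
        refine (natDegree_sub_le _ _).trans ?_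
        simp
      omega
    rw [← eval_eq_sum_range' h5]
    simp
  have h4 : |∑ i ∈ Finset.Ico (y + 1) M, Z.coeff i * (1 / q) ^ i| ≤ 2 / q ^ y := by
    calc |∑ i ∈ Finset.Ico (y + 1) M, Z.coeff i * (1 / q) ^ i|
        ≤ ∑ i ∈ Finset.Ico (y + 1) M, |Z.coeff i * (1 / q) ^ i| := abs_sum_le_sum_abs _ _
      _ ≤ ∑ i ∈ Finset.Ico (y + 1) M, (1 / q) ^ i := by
          refine sum_le_sum (fun i _ => ?_)
          have h5 : |Z.coeff i| ≤ 1 := by
            have h6 := coeff_prod_binom (IrLE F y) (fun _ => 1) (fun P => -iP P) i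
            rw [hZ]
            unfold fZ
            rw [h6]
            refine (abs_sum_le_sum_abs _ _).trans ?_
            have h7 : ∀ U ∈ (IrLE F y).powerset.filter (fun U => ∑ P ∈ U, P.natDegree = i),
                |(∏ P ∈ U, -iP P) * ∏ P ∈ IrLE F y \ U, (1:ℝ)| = 1 / q ^ i := by
              intro U hU
              rw [prod_const_one, mul_one, prod_neg, abs_mul, abs_pow, abs_neg, abs_one, one_pow,
                one_mul, abs_of_pos (prod_pos (fun P _ => iP_pos P))]
              unfold iP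
              rw [prod_div_distrib, prod_const_one, prod_pow_eq_pow_sum, (mem_filter.mp hU).2]
            rw [sum_congr rfl h7, sum_const, nsmul_eq_mul]
            have h8 := card_SDj (F := F) y i
            unfold SDj at h8
            rw [mul_one_div, div_le_one (by positivity)]
            exact h8
          rw [abs_mul, abs_of_pos (by positivity : (0:ℝ) < (1 / q) ^ i)]
          exact mul_le_of_le_one_left (by positivity) h5
      _ ≤ 2 / q ^ y := by
          have h5 : ∀ N, y + 1 ≤ N → ∑ i ∈ Finset.Ico (y + 1) N, (1 / q) ^ i ≤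
              2 / q ^ y - 2 * (1 / q) ^ N := by
            intro N hN
            induction N, hN using Nat.le_induction with
            | base =>
              rw [Finset.Ico_self, sum_empty]
              have h6 : 2 * (1 / q) ^ (y + 1) ≤ 2 / q ^ y := by
                rw [one_div_pow, pow_succ, mul_one_div, div_le_div_iff₀ (by positivity)
                  (by positivity)]
                have h7 : 0 < q ^ y := by positivity
                nlinarith
              linarith
            | succ N hN ih =>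
              rw [sum_Ico_succ_top hN]
              have h6 : (1 / q) ^ (N + 1) ≤ (1 / q) ^ N / 2 := by
                rw [pow_succ, div_eq_mul_one_div ((1 / q) ^ N)]
                refine mul_le_mul_of_nonneg_left ?_ (by positivity)
                exact one_div_le_one_div_of_le (by norm_num) hq
              linarith
          have h6 := h5 M hM2
          have h7 : 0 < (1 / q) ^ M := by positivity
          linarith
  rw [← h1, h2, h3, add_sub_cancel_left]
  exact h4

/-- the Euler product of the modulus -/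
noncomputable def PhD (y : ℕ) (Q : F[X]) : ℝ := ∏ P ∈ TD y Q, (1 + gP P)

theorem PhD_mul (y : ℕ) (Q : F[X]) : PhD y Q * ∏ P ∈ TD y Q, (1 - iP P) = 1 := by
  unfold PhD
  rw [← prod_mul_distrib]
  apply prod_eq_one
  intro P hP
  have hx := iP_eq (TD_prime P hP).2
  have : (1 + gP P) * (1 - iP P) = 1 + gP P - iP P * (1 + gP P) := by ring
  rw [this, hx]
  ring

theorem deriv_one_kap (y : ℕ) (Q : F[X]) : (derivative (kap y Q)).eval 1 =
    -(∏ P ∈ TD y Q, (1 - iP P)) * ∑ P ∈ TD y Q, P.natDegree * gP P := by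
  unfold kap
  rw [derivative_mul, eval_add, eval_mul, eval_mul]
  have h1 : (derivative (∏ P ∈ TA y Q, fK P)).eval 1 = 0 := by
    rw [derivative_prod_finset, eval_finsetSum]
    apply sum_eq_zero
    intro P _
    rw [eval_mul, deriv_one_fK, mul_zero]
  have h2 : (∏ P ∈ TA y Q, fK P).eval 1 = 1 := by
    rw [eval_prod]
    exact prod_eq_one (fun P _ => eval_one_fK P)
  rw [h1, h2, zero_mul, zero_add, one_mul, derivative_prod_finset, eval_finsetSum, mul_sum]
  refine sum_congr rfl (fun P hP => ?_)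
  rw [eval_mul, eval_prod, deriv_one_fZ]
  have h3 : ∏ P' ∈ TD y Q, (1 - iP P') = (1 - iP P) * ∏ P' ∈ (TD y Q).erase P, (1 - iP P') :=
    (mul_prod_erase _ _ hP).symm
  rw [h3, prod_congr rfl (fun P' _ => eval_one_fZ P')]
  have hx := iP_eq (TD_prime P hP).2
  have h4 : (1 - iP P) * gP P = iP P := by
    have : (1 - iP P) * gP P = gP P - iP P * gP P := by ring
    rw [this]
    linarith
  calc (∏ P' ∈ (TD y Q).erase P, (1 - iP P')) * -(iP P * P.natDegree)
      = -(∏ P' ∈ (TD y Q).erase P, (1 - iP P')) * ((1 - iP P) * gP P) * P.natDegree := by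
        rw [h4]; ring
    _ = _ := by ring

/-- **The sum of the truncated singular series over the multiples of `Q`** -/
theorem sum_SP_finite {y m : ℕ} (hmy : m ≤ y) (hy : 1 ≤ y) {Q : F[X]} :
    |∑ h ∈ (PL F m).filter (fun h => h ≠ 0), SP y (Q * h) -
        (PhD y Q * (Fintype.card F : ℝ) ^ m - (Fintype.card F : ℝ) / ((Fintype.card F : ℝ) - 1) - m -
          ∑ P ∈ TD y Q, P.natDegree * gP P)| ≤
      PhD y Q * (4 * (Fintype.card F : ℝ) ^ m / (Fintype.card F : ℝ) ^ y +
        24 * (Real.exp 18 * 2 ^ (TD y Q).card) / rho F ^ m) := by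
  have hq := two_le_card (F := F)
  set q : ℝ := (Fintype.card F : ℝ) with hqd
  have hq0 : 0 < q := by linarith
  have hPh : 0 < PhD y Q := by
    unfold PhD
    exact prod_pos (fun P hP => by
      have := gP_pos (TD_prime P hP).2
      linarith)
  have h1 : ∀ h : F[X], SP y (Q * h) = PhD y Q * ∏ P ∈ TA y Q, (1 + cB P (Q * h)) := by
    intro h
    unfold SP PhD TA TD
    rw [← prod_filter_mul_prod_filter_not (IrLE F y) (fun P => P ∣ Q)]
    congr 1
    refine prod_congr rfl (fun P hP => ?_)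
    rw [mem_filter, mem_IrLE] at hP
    rw [cB_values hP.1.2.1, if_pos (hP.2.mul_right h)]
  rw [sum_congr rfl (fun h _ => h1 h), ← mul_sum, sum_nonzero_multiples, sum_WW hmy]
  set κ := kap y Q with hκ
  set M := max (κ.natDegree + 1) m with hM
  have hM1 : κ.natDegree < M := lt_of_lt_of_le (Nat.lt_succ_self _) (le_max_left _ _)
  have hM2 : m ≤ M := le_max_right _ _
  have h2 := sum_psi (m := m) hM1 q
  rw [← sum_range_add_sum_Ico _ hM2] at h2
  have h3 := sum_psi_tail (y := y) (m := m) (M := M) (Q := Q)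
  rw [← hqd, ← hκ] at h3
  set S₁ := ∑ i ∈ range m, κ.coeff i * psi q m i with hS₁
  set S₂ := ∑ i ∈ Finset.Ico m M, κ.coeff i * psi q m i with hS₂
  -- the values
  have e1 : κ.eval 1 = ∏ P ∈ TD y Q, (1 - iP P) := by
    rw [hκ]
    unfold kap
    rw [eval_mul, eval_prod, eval_prod, prod_congr rfl (fun P _ => eval_one_fK P), prod_const_one,
      one_mul]
    exact prod_congr rfl (fun P _ => eval_one_fZ P)
  have e2 : κ.eval (1 / q) = ∏ P ∈ IrLE F y, (1 - iP P ^ 2) := by
    rw [hκ]
    unfold kap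
    rw [eval_mul, eval_prod, eval_prod,
      prod_congr rfl (fun P hP => eval_inv_fK (TA_prime P hP).2),
      prod_congr rfl (fun P _ => eval_inv_fZ P), mul_comm]
    unfold TA TD
    rw [prod_filter_mul_prod_filter_not]
  have e3 := deriv_one_kap y Q
  rw [← hκ] at e3
  rw [e1, e2, e3] at h2
  have h4 := PhD_mul y Q
  set φ := ∏ P ∈ TD y Q, (1 - iP P) with hφ
  set E := ∏ P ∈ IrLE F y, (1 - iP P ^ 2) with hE
  have h5 := prod_iP_sq (F := F) y hy
  rw [← hqd, ← hE] at h5
  set G := ∑ P ∈ TD y Q, P.natDegree * gP P with hG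
  have h6 : PhD y Q * S₁ - (PhD y Q * q ^ m - q / (q - 1) - m - G) =
      PhD y Q * (q ^ (m + 1) / (q - 1) * (E - (1 - 1 / q)) - S₂) := by
    have e4 : S₁ = q ^ (m + 1) / (q - 1) * E - (q / (q - 1) + m) * φ + -φ * G - S₂ := by
      rw [← h2]
      ring
    have e5 : q ^ (m + 1) / (q - 1) * (1 - 1 / q) = q ^ m := by
      have : q - 1 ≠ 0 := by linarith
      field_simp
      ring
    calc PhD y Q * S₁ - (PhD y Q * q ^ m - q / (q - 1) - m - G)
        = PhD y Q * (q ^ (m + 1) / (q - 1) * E - S₂) - (PhD y Q * φ) * (q / (q - 1) + m + G) -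
          (PhD y Q * q ^ m - q / (q - 1) - m - G) := by rw [e4]; ring
      _ = PhD y Q * (q ^ (m + 1) / (q - 1) * E - S₂ - q ^ m) := by rw [h4]; ring
      _ = _ := by rw [← e5]; ring
  rw [h6, abs_mul, abs_of_pos hPh]
  refine mul_le_mul_of_nonneg_left ?_ hPh.le
  refine (abs_sub _ _).trans (add_le_add ?_ h3)
  rw [abs_mul, abs_of_pos (div_pos (by positivity) (by linarith) : 0 < q ^ (m + 1) / (q - 1))]
  have h7 : q ^ (m + 1) / (q - 1) ≤ 2 * q ^ m := by
    rw [div_le_iff₀ (by linarith), pow_succ]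
    have : 0 < q ^ m := by positivity
    nlinarith
  calc q ^ (m + 1) / (q - 1) * |E - (1 - 1 / q)| ≤ 2 * q ^ m * (2 / q ^ y) :=
        mul_le_mul h7 h5 (abs_nonneg _) (by positivity)
    _ = _ := by ring

/-- the prime divisors do not depend on the cutoff -/
theorem TD_eq {y : ℕ} {Q : F[X]} (hQ : Q ≠ 0) (hy : Q.natDegree ≤ y) : TD y Q = pd Q := by
  unfold TD pd
  ext P
  rw [mem_filter, mem_filter, mem_IrLE, mem_IrLE]
  constructor
  · rintro ⟨⟨h1, h2, _⟩, h4⟩
    exact ⟨⟨h1, h2, natDegree_le_of_dvd h4 hQ⟩, h4⟩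
  · rintro ⟨⟨h1, h2, h3⟩, h4⟩
    exact ⟨⟨h1, h2, h3.trans hy⟩, h4⟩

/-- **The sum of the singular series over the multiples of `Q`** -/
theorem sum_SP_limit {m : ℕ} {Q : F[X]} (hQ : Q ≠ 0) (S : F[X] → ℝ)
    (hS : ∀ D : F[X], D ≠ 0 → Tendsto (fun y => SP y D) atTop (𝓝 (S D))) :
    |∑ h ∈ (PL F m).filter (fun h => h ≠ 0), S (Q * h) -
        ((∏ P ∈ pd Q, (1 + gP P)) * (Fintype.card F : ℝ) ^ m -
          (Fintype.card F : ℝ) / ((Fintype.card F : ℝ) - 1) - m -
          ∑ P ∈ pd Q, P.natDegree * gP P)| ≤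
      (∏ P ∈ pd Q, (1 + gP P)) * (24 * (Real.exp 18 * 2 ^ (pd Q).card) / rho F ^ m) := by
  have hq := two_le_card (F := F)
  set q : ℝ := (Fintype.card F : ℝ) with hqd
  have hq0 : 0 < q := by linarith
  set Φ := ∏ P ∈ pd Q, (1 + gP P) with hΦ
  set G := ∑ P ∈ pd Q, P.natDegree * gP P with hG
  have h1 : Tendsto (fun y => |∑ h ∈ (PL F m).filter (fun h => h ≠ 0), SP y (Q * h) -
        (Φ * q ^ m - q / (q - 1) - m - G)|) atTop
      (𝓝 |∑ h ∈ (PL F m).filter (fun h => h ≠ 0), S (Q * h) -
        (Φ * q ^ m - q / (q - 1) - m - G)|) := by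
    refine Tendsto.abs (Tendsto.sub_const ?_ _)
    apply tendsto_finsetSum
    intro h hh
    exact hS _ (mul_ne_zero hQ (mem_filter.mp hh).2)
  have h2 : Tendsto (fun y : ℕ => Φ * (4 * q ^ m / q ^ y +
      24 * (Real.exp 18 * 2 ^ (pd Q).card) / rho F ^ m)) atTop
      (𝓝 (Φ * (0 + 24 * (Real.exp 18 * 2 ^ (pd Q).card) / rho F ^ m))) := by
    refine Tendsto.const_mul _ (Tendsto.add_const _ ?_)
    have h3 : Tendsto (fun y : ℕ => 4 * q ^ m * (1 / q) ^ y) atTop (𝓝 (4 * q ^ m * 0)) := by
      refine Tendsto.const_mul _ (tendsto_pow_atTop_nhds_zero_of_lt_one (by positivity) ?_)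
      rw [div_lt_one hq0]
      linarith
    rw [mul_zero] at h3
    refine h3.congr (fun y => ?_)
    rw [one_div_pow]
    ring
  rw [zero_add] at h2
  refine le_of_tendsto_of_tendsto h1 h2 ?_
  filter_upwards [eventually_ge_atTop (max (max m 1) Q.natDegree)] with y hy
  have hy1 : m ≤ y := (le_max_left _ _).trans ((le_max_left _ _).trans hy)
  have hy2 : 1 ≤ y := (le_max_right _ _).trans ((le_max_left _ _).trans hy)
  have hy3 : Q.natDegree ≤ y := (le_max_right _ _).trans hy
  have h3 := sum_SP_finite hy1 hy2 (Q := Q)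
  unfold PhD at h3
  rw [TD_eq hQ hy3] at h3
  exact h3

end Pool.Agent.H523.CM
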