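import Pool.Agent.H523.CM53
import Pool.Agent.H523.CM20

set_option autoImplicit false
set_option linter.unusedSectionVars false

/-! # The variance of the primes in residue classes -/

namespace Pool.Agent.H523.CM

open Polynomial Finset Filter
open Pool.Agent.H341R2.Sharp (Mon mem_Mon)
open Pool.Agent.H523.FF (Ir mem_Ir PL mem_PL card_PL two_le_card IrLE mem_IrLE irr_coprime PL_mod
  Ir_card sum_IrLE)

open scoped Classical Topology

variable {F : Type} [Field F] [Fintype F]

/-- Euler's function -/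
noncomputable def tot (Q : F[X]) : ℕ := ((PL F Q.natDegree).filter (fun A => IsCoprime A Q)).card

theorem tot_eq {Q : F[X]} (hQ : Q.Monic) :
    (tot Q : ℝ) = (Fintype.card F : ℝ) ^ Q.natDegree * ∏ P ∈ pd Q, (1 - iP P) := by
  have hq := two_le_card (F := F)
  set q : ℝ := (Fintype.card F : ℝ) with hqd
  have hq0 : 0 < q := by linarith
  have hpr : ∀ U ∈ (pd Q).powerset, ∀ P ∈ U, P.Monic ∧ Irreducible P := fun U hU P hP => by
    have := (mem_pd hQ).mp (mem_powerset.mp hU hP)
    exact ⟨this.1, this.2.1⟩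
  have h1 : (tot Q : ℝ) = ∑ A ∈ PL F Q.natDegree, ∏ P ∈ pd Q, (1 + if P ∣ A then (-1:ℝ) else 0) := by
    unfold tot
    rw [card_eq_sum_ones, sum_filter]
    push_cast
    refine sum_congr rfl (fun A _ => ?_)
    rw [coprime_iff hQ]
    by_cases h : ∀ P ∈ pd Q, ¬ P ∣ A
    · rw [if_pos h]
      symm
      apply prod_eq_one
      intro P hP
      rw [if_neg (h P hP), add_zero]
    · rw [if_neg h]
      push Not at h
      obtain ⟨P, hP, hd⟩ := h
      symm
      apply prod_eq_zero hP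
      rw [if_pos hd]
      norm_num
  rw [h1]
  have h2 : ∀ A : F[X], ∏ P ∈ pd Q, (1 + if P ∣ A then (-1:ℝ) else 0) =
      ∑ U ∈ (pd Q).powerset, if ∏ P ∈ U, P ∣ A then (-1:ℝ) ^ U.card else 0 := by
    intro A
    rw [prod_one_add]
    refine sum_congr rfl (fun U hU => ?_)
    rw [prod_ite_zero]
    simp only [prod_dvd_iff (hpr U hU), prod_const]
  rw [sum_congr rfl (fun A _ => h2 A), sum_comm]
  have h3 : ∏ P ∈ pd Q, (1 - iP P) = ∑ U ∈ (pd Q).powerset, (-1:ℝ) ^ U.card * ∏ P ∈ U, iP P := by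
    rw [prod_congr rfl (fun P _ => sub_eq_add_neg 1 (iP P)), prod_one_add]
    refine sum_congr rfl (fun U _ => ?_)
    rw [prod_neg]
  rw [h3, mul_sum]
  refine sum_congr rfl (fun U hU => ?_)
  have hm := monic_pr (hpr U hU)
  have hdeg := natDegree_pr (hpr U hU)
  have hdvd : ∏ P ∈ U, P ∣ Q := by
    rw [prod_dvd_iff (hpr U hU)]
    intro P hP
    exact ((mem_pd hQ).mp (mem_powerset.mp hU hP)).2.2
  have hle := natDegree_le_of_dvd hdvd hQ.ne_zero
  rw [← sum_filter, sum_const, nsmul_eq_mul]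
  have h4 := PL_mod (∏ P ∈ U, P) hm 0 Q.natDegree hle
  simp only [sub_zero] at h4
  rw [h4, hdeg]
  unfold iP
  rw [prod_div_distrib, prod_const_one, prod_pow_eq_pow_sum]
  push_cast
  rw [← hqd]
  have h5 : q ^ Q.natDegree = q ^ (Q.natDegree - ∑ P ∈ U, P.natDegree) *
      q ^ (∑ P ∈ U, P.natDegree) := by
    rw [← pow_add]
    congr 1
    omega
  rw [h5]
  field_simp

/-- the weighted number of the primes of degree `n` in a residue class -/
noncomputable def vth (n : ℕ) (Q A : F[X]) : ℝ := ∑ f ∈ (Mon F n).filter (fun f => Q ∣ f - A), th n f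

theorem sum_classes {R : Type} [AddCommMonoid R] {Q : F[X]} (hQ : Q.Monic) (f : F[X])
    (w : F[X] → R) :
    ∑ A ∈ PL F Q.natDegree, (if Q ∣ f - A then w A else 0) = w (f %ₘ Q) := by
  rw [sum_eq_single_of_mem (f %ₘ Q)]
  · rw [if_pos]
    refine ⟨f /ₘ Q, ?_⟩
    have := modByMonic_add_div f Q
    calc f - f %ₘ Q = (f %ₘ Q + Q * (f /ₘ Q)) - f %ₘ Q := by rw [this]
      _ = _ := by ring
  · rw [mem_PL]
    have := degree_modByMonic_lt f hQ
    rwa [degree_eq_natDegree hQ.ne_zero] at this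
  · intro A hA hne
    rw [if_neg]
    intro hd
    apply hne
    rw [mem_PL, ← degree_eq_natDegree hQ.ne_zero] at hA
    have h1 : f %ₘ Q = A %ₘ Q := modByMonic_eq_of_dvd_sub hQ hd
    rw [h1]
    exact ((modByMonic_eq_self_iff hQ).mpr hA).symm

theorem sum_vth {n : ℕ} {Q : F[X]} (hQ : Q.Monic) :
    ∑ A ∈ PL F Q.natDegree, vth n Q A = ∑ f ∈ Mon F n, th n f := by
  unfold vth
  simp only [sum_filter]
  rw [sum_comm]
  refine sum_congr rfl (fun f _ => ?_)
  exact sum_classes hQ f (fun _ => th n f)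

/-- the multiples of `Q` near a monic polynomial -/
theorem sum_near {n : ℕ} {Q : F[X]} (hQ : Q.Monic) (hdn : Q.natDegree ≤ n) {f : F[X]}
    (hf : f ∈ Mon F n) (φ : F[X] → ℝ) :
    ∑ g ∈ (Mon F n).filter (fun g => Q ∣ f - g), φ g =
      ∑ h ∈ PL F (n - Q.natDegree), φ (f - Q * h) := by
  symm
  refine sum_bij (fun h _ => f - Q * h) ?_ ?_ ?_ (fun _ _ => rfl)
  · intro h hh
    rw [mem_PL] at hh
    rw [mem_filter]
    constructor
    · have h1 : (-(Q * h)).degree < (n : WithBot ℕ) := by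
        rw [degree_neg]
        by_cases h0 : h = 0
        · rw [h0, mul_zero, degree_zero]
          exact WithBot.bot_lt_coe n
        · rw [degree_mul, degree_eq_natDegree hQ.ne_zero, degree_eq_natDegree h0]
          rw [degree_eq_natDegree h0] at hh
          have h2 : h.natDegree < n - Q.natDegree := by exact_mod_cast hh
          have h3 : Q.natDegree + h.natDegree < n := by omega
          exact_mod_cast h3
      rw [mem_Mon] at hf ⊢
      have h2 : (-(Q * h)).degree < f.degree := by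
        rw [degree_eq_natDegree hf.1.ne_zero, hf.2]
        exact h1
      rw [sub_eq_add_neg]
      exact ⟨hf.1.add_of_left h2, by rw [natDegree_add_eq_left_of_degree_lt h2, hf.2]⟩
    · rw [sub_sub_cancel]
      exact dvd_mul_right Q h
  · intro a _ b _ h
    have h1 : Q * a = Q * b := by
      have : f - (f - Q * a) = f - (f - Q * b) := by rw [h]
      simpa using this
    exact mul_left_cancel₀ hQ.ne_zero h1
  · intro g hg
    rw [mem_filter] at hg
    obtain ⟨hg1, h, hh⟩ := hg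
    refine ⟨h, ?_, by rw [← hh]; ring⟩
    rw [mem_PL]
    have h1 : (f - g).degree < (n : WithBot ℕ) := by
      rw [mem_Mon] at hf hg1
      have h2 : (f - g).degree < f.degree := by
        refine degree_sub_lt_left ?_ hf.1.ne_zero ?_
        · rw [degree_eq_natDegree hf.1.ne_zero, degree_eq_natDegree hg1.1.ne_zero, hf.2, hg1.2]
        · rw [hf.1.leadingCoeff, hg1.1.leadingCoeff]
      rwa [degree_eq_natDegree hf.1.ne_zero, hf.2] at h2
    by_cases h0 : h = 0
    · rw [h0, degree_zero]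
      exact WithBot.bot_lt_coe _
    · rw [hh, degree_mul, degree_eq_natDegree hQ.ne_zero, degree_eq_natDegree h0] at h1
      have h2 : Q.natDegree + h.natDegree < n := by exact_mod_cast h1
      rw [degree_eq_natDegree h0]
      have h3 : h.natDegree < n - Q.natDegree := by omega
      exact_mod_cast h3

theorem conj2_sub (B f : F[X]) : conj2 1 (-1) B f = f - B := by
  unfold conj2
  have h1 : (C ((-1:F)⁻¹) : F[X]) = -1 := by
    rw [inv_neg, inv_one, C_neg, C_1]
  rw [h1, C_1]
  ring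

/-- the second moment over the residue classes -/
theorem sum_vth_sq {n : ℕ} {Q : F[X]} (hQ : Q.Monic) (hdn : Q.natDegree ≤ n) :
    ∑ A ∈ PL F Q.natDegree, vth n Q A ^ 2 =
      ∑ h ∈ PL F (n - Q.natDegree), TT (1:F) (-1) n (Q * h) := by
  have h1 : ∀ A : F[X], vth n Q A ^ 2 = ∑ f ∈ Mon F n, ∑ g ∈ Mon F n,
      (if Q ∣ f - A then (if Q ∣ g - A then th n f * th n g else 0) else 0) := by
    intro A
    unfold vth
    rw [sq, sum_filter, sum_mul_sum]
    refine sum_congr rfl (fun f _ => sum_congr rfl (fun g _ => ?_))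
    split_ifs <;> ring
  rw [sum_congr rfl (fun A _ => h1 A), sum_comm]
  have h2 : ∀ f ∈ Mon F n, ∑ A ∈ PL F Q.natDegree, ∑ g ∈ Mon F n,
      (if Q ∣ f - A then (if Q ∣ g - A then th n f * th n g else 0) else 0) =
      ∑ h ∈ PL F (n - Q.natDegree), th n f * th n (f - Q * h) := by
    intro f hf
    have h3 : ∀ A : F[X], ∑ g ∈ Mon F n,
        (if Q ∣ f - A then (if Q ∣ g - A then th n f * th n g else 0) else 0) =
        if Q ∣ f - A then ∑ g ∈ Mon F n, (if Q ∣ g - A then th n f * th n g else 0) else 0 := by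
      intro A
      split_ifs
      · rfl
      · exact sum_const_zero
    rw [sum_congr rfl (fun A _ => h3 A), sum_classes hQ f]
    have h4 : ∀ g : F[X], Q ∣ g - f %ₘ Q ↔ Q ∣ f - g := by
      intro g
      have h5 : Q ∣ f - f %ₘ Q := ⟨f /ₘ Q, by
        have := modByMonic_add_div f Q
        calc f - f %ₘ Q = (f %ₘ Q + Q * (f /ₘ Q)) - f %ₘ Q := by rw [this]
          _ = _ := by ring⟩
      constructor
      · intro h6
        have := dvd_sub h5 h6
        have e : f - f %ₘ Q - (g - f %ₘ Q) = f - g := by ring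
        rwa [e] at this
      · intro h6
        have := dvd_sub h5 h6
        have e : f - f %ₘ Q - (f - g) = g - f %ₘ Q := by ring
        rwa [e] at this
    simp only [h4]
    rw [← sum_filter, sum_near hQ hdn hf (fun g => th n f * th n g)]
  rw [sum_congr rfl h2, sum_comm]
  refine sum_congr rfl (fun h _ => ?_)
  unfold TT
  refine sum_congr rfl (fun f _ => ?_)
  rw [conj2_sub]

theorem vth_zero {n : ℕ} {Q A : F[X]} (hQ : Q.Monic) (hdn : Q.natDegree < n)
    (hA : ¬ IsCoprime A Q) : vth n Q A = 0 := by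
  rw [coprime_iff hQ] at hA
  push Not at hA
  obtain ⟨P, hP, hPA⟩ := hA
  obtain ⟨h1, h2, h3⟩ := (mem_pd hQ).mp hP
  unfold vth
  apply sum_eq_zero
  intro f hf
  rw [mem_filter] at hf
  unfold th
  rw [if_neg]
  intro hI
  obtain ⟨h4, h5, h6⟩ := mem_Ir.mp hI
  have h7 : P ∣ f := by
    have h8 : P ∣ f - A := h3.trans hf.2
    have := dvd_add h8 hPA
    rwa [sub_add_cancel] at this
  have h8 : P = f := eq_of_monic_of_associated h1 h4 ((h2.dvd_irreducible_iff_associated h5).mp h7)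
  have h9 := natDegree_le_of_dvd h3 hQ.ne_zero
  rw [h8, h6] at h9
  omega

/-- the variance -/
noncomputable def GG (n : ℕ) (Q : F[X]) : ℝ :=
  ∑ A ∈ (PL F Q.natDegree).filter (fun A => IsCoprime A Q),
    (vth n Q A - (Fintype.card F : ℝ) ^ n / tot Q) ^ 2

theorem sum_th (n : ℕ) : ∑ f ∈ Mon F n, th n f = n * ((Ir F n).card : ℝ) := by
  have h1 : ∑ f ∈ Mon F n, th n f = ∑ f ∈ (Mon F n).filter (fun f => f ∈ Ir F n), (n:ℝ) := by
    rw [sum_filter]
    rfl
  rw [h1, sum_const, nsmul_eq_mul, mul_comm]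
  congr 2
  congr 1
  ext f
  rw [mem_filter, mem_Mon, mem_Ir]
  constructor
  · exact fun h => h.2
  · exact fun h => ⟨⟨h.1, h.2.2⟩, h⟩

theorem TT_zero (n : ℕ) : TT (1:F) (-1) n 0 = n * (n * ((Ir F n).card : ℝ)) := by
  rw [← sum_th, mul_sum]
  unfold TT
  refine sum_congr rfl (fun f _ => ?_)
  rw [conj2_sub, sub_zero]
  unfold th
  split_ifs <;> simp

/-- **The variance in terms of the pair correlations** -/
theorem GG_eq {n : ℕ} {Q : F[X]} (hQ : Q.Monic) (hdn : Q.natDegree < n) :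
    GG n Q = n * (n * ((Ir F n).card : ℝ)) +
      ∑ h ∈ (PL F (n - Q.natDegree)).filter (fun h => h ≠ 0), TT (1:F) (-1) n (Q * h) -
      2 * ((∏ P ∈ pd Q, (1 + gP P)) * (Fintype.card F : ℝ) ^ (n - Q.natDegree)) *
        (n * ((Ir F n).card : ℝ)) +
      (∏ P ∈ pd Q, (1 + gP P)) * (Fintype.card F : ℝ) ^ (n - Q.natDegree) *
        (Fintype.card F : ℝ) ^ n := by
  have hq := two_le_card (F := F)
  set q : ℝ := (Fintype.card F : ℝ) with hqd
  have hq0 : 0 < q := by linarith
  set d := Q.natDegree with hd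
  set Φ := ∏ P ∈ pd Q, (1 + gP P) with hΦ
  have hΦφ : Φ * ∏ P ∈ pd Q, (1 - iP P) = 1 := by
    rw [hΦ, ← prod_mul_distrib]
    apply prod_eq_one
    intro P hP
    have hx := iP_eq ((mem_pd hQ).mp hP).2.1
    have : (1 + gP P) * (1 - iP P) = 1 + gP P - iP P * (1 + gP P) := by ring
    rw [this, hx]
    ring
  have htot := tot_eq hQ
  rw [← hqd, ← hd] at htot
  have hφ0 : ∏ P ∈ pd Q, (1 - iP P) ≠ 0 := by
    intro h
    rw [h, mul_zero] at hΦφ
    exact zero_ne_one hΦφ
  have htot0 : (tot Q : ℝ) ≠ 0 := by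
    rw [htot]
    exact mul_ne_zero (by positivity) hφ0
  have hXtot : q ^ n / tot Q = Φ * q ^ (n - d) := by
    rw [div_eq_iff htot0, htot]
    have h1 : q ^ n = q ^ (n - d) * q ^ d := by
      rw [← pow_add]
      congr 1
      omega
    calc q ^ n = q ^ (n - d) * q ^ d * 1 := by rw [h1, mul_one]
      _ = q ^ (n - d) * q ^ d * (Φ * ∏ P ∈ pd Q, (1 - iP P)) := by rw [hΦφ]
      _ = _ := by ring
  have hsum1 : ∑ A ∈ (PL F d).filter (fun A => IsCoprime A Q), vth n Q A =
      n * ((Ir F n).card : ℝ) := by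
    rw [← sum_th, ← sum_vth hQ, sum_filter]
    refine sum_congr rfl (fun A _ => ?_)
    split_ifs with h
    · rfl
    · rw [vth_zero hQ hdn h]
  have hsum2 : ∑ A ∈ (PL F d).filter (fun A => IsCoprime A Q), vth n Q A ^ 2 =
      n * (n * ((Ir F n).card : ℝ)) +
      ∑ h ∈ (PL F (n - d)).filter (fun h => h ≠ 0), TT (1:F) (-1) n (Q * h) := by
    have h1 : ∑ A ∈ (PL F d).filter (fun A => IsCoprime A Q), vth n Q A ^ 2 =
        ∑ A ∈ PL F d, vth n Q A ^ 2 := by
      rw [sum_filter]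
      refine sum_congr rfl (fun A _ => ?_)
      split_ifs with h
      · rfl
      · rw [vth_zero hQ hdn h]
        norm_num
    rw [h1, sum_vth_sq hQ hdn.le, ← hd, ← TT_zero]
    have h0 : (0 : F[X]) ∈ PL F (n - d) := by
      rw [mem_PL, degree_zero]
      exact WithBot.bot_lt_coe _
    rw [← add_sum_erase _ _ h0, mul_zero]
    congr 1
    apply sum_congr _ (fun _ _ => rfl)
    ext h
    rw [mem_erase, mem_filter, and_comm]
  unfold GG
  rw [← hqd, ← hd, hXtot]
  have h1 : ∀ A : F[X], (vth n Q A - Φ * q ^ (n - d)) ^ 2 = vth n Q A ^ 2 -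
      2 * (Φ * q ^ (n - d)) * vth n Q A + (Φ * q ^ (n - d)) ^ 2 := fun A => by ring
  rw [sum_congr rfl (fun A _ => h1 A), sum_add_distrib, sum_sub_distrib, ← mul_sum, hsum1, hsum2,
    sum_const, nsmul_eq_mul]
  have h2 : ((((PL F d).filter (fun A => IsCoprime A Q)).card : ℕ) : ℝ) * (Φ * q ^ (n - d)) ^ 2 =
      Φ * q ^ (n - d) * q ^ n := by
    have h3 : ((((PL F d).filter (fun A => IsCoprime A Q)).card : ℕ) : ℝ) = tot Q := rfl
    rw [h3]
    have h4 : (tot Q : ℝ) * (Φ * q ^ (n - d)) = q ^ n := by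
      rw [← hXtot]
      field_simp
    calc (tot Q : ℝ) * (Φ * q ^ (n - d)) ^ 2 = ((tot Q : ℝ) * (Φ * q ^ (n - d))) *
        (Φ * q ^ (n - d)) := by ring
      _ = _ := by rw [h4]; ring
  rw [h2]

end Pool.Agent.H523.CM
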