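import Pool.Agent.H523.CM54
import Pool.Agent.H523.CM22

set_option autoImplicit false
set_option linter.unusedSectionVars false

/-! # The variance of the primes in residue classes, for almost all moduli -/

namespace Pool.Agent.H523.CM

open Polynomial Finset Filter
open Pool.Agent.H341R2.Sharp (Mon mem_Mon)
open Pool.Agent.H523.FF (Ir mem_Ir PL mem_PL card_PL two_le_card IrLE mem_IrLE irr_coprime PL_mod
  Ir_card sum_IrLE)

open scoped Classical Topology

variable {F : Type} [Field F] [Fintype F]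

/-- the error term of a modulus -/
noncomputable def erQ (n : ℕ) (S : F[X] → ℝ) (Q : F[X]) : ℝ :=
  ∑ h ∈ (PL F (n - Q.natDegree)).filter (fun h => h ≠ 0),
    (TT (1:F) (-1) n (Q * h) - (Fintype.card F : ℝ) ^ n * S (Q * h))

theorem GG_main {n : ℕ} {Q : F[X]} (hQ : Q.Monic) (hdn : Q.natDegree < n) (S : F[X] → ℝ)
    (hS : ∀ D : F[X], D ≠ 0 → Tendsto (fun y => SP y D) atTop (𝓝 (S D))) :
    |GG n Q - (Fintype.card F : ℝ) ^ n * (Q.natDegree -
        (Fintype.card F : ℝ) / ((Fintype.card F : ℝ) - 1) - ∑ P ∈ pd Q, P.natDegree * gP P)| ≤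
      |erQ n S Q| + (Fintype.card F : ℝ) ^ n * ((∏ P ∈ pd Q, (1 + gP P)) *
        (24 * (Real.exp 18 * 2 ^ (pd Q).card) / rho F ^ (n - Q.natDegree))) +
      2 * n * (Fintype.card F : ℝ) ^ (n / 2) +
      4 * ((∏ P ∈ pd Q, (1 + gP P)) * (Fintype.card F : ℝ) ^ (n - Q.natDegree)) *
        (Fintype.card F : ℝ) ^ (n / 2) := by
  have hq := two_le_card (F := F)
  have hGG := GG_eq hQ hdn
  have hSS := sum_SP_limit (m := n - Q.natDegree) hQ.ne_zero S hS
  set q : ℝ := (Fintype.card F : ℝ) with hqd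
  have hq0 : 0 < q := by linarith
  set d := Q.natDegree with hd
  set Φ := ∏ P ∈ pd Q, (1 + gP P) with hΦ
  have hΦ0 : 0 < Φ := prod_pos (fun P hP => by
    have := gP_pos ((mem_pd hQ).mp hP).2.1
    linarith)
  set G := ∑ P ∈ pd Q, P.natDegree * gP P with hG
  have hn1 : 1 ≤ n := by omega
  have hnr : (0:ℝ) < n := by exact_mod_cast hn1
  set T₁ : ℝ := n * ((Ir F n).card : ℝ) with hT₁
  set e : ℝ := q ^ n - T₁ with he
  have he0 : 0 ≤ e := by
    have h1 := Ir_card (F := F) n (by omega)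
    have h2 : ((n * (Ir F n).card : ℕ) : ℝ) ≤ ((Fintype.card F ^ n : ℕ) : ℝ) := by exact_mod_cast h1
    push_cast at h2
    rw [he, hT₁]
    linarith
  have he1 : e ≤ 2 * q ^ (n / 2) := by
    have h1 := Pool.Agent.H523.FF.Ir_card_lower (F := F) n (by omega)
    rw [← hqd] at h1
    have h2 : q ^ n - 2 * q ^ (n / 2) ≤ n * ((Ir F n).card : ℝ) := by
      have h3 := mul_le_mul_of_nonneg_left h1 hnr.le
      have h4 : (n:ℝ) * (q ^ n / n - 2 * q ^ (n / 2) / n) = q ^ n - 2 * q ^ (n / 2) := by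
        field_simp
      rw [h4] at h3
      exact h3
    rw [he, hT₁]
    linarith
  set A := ∑ h ∈ (PL F (n - d)).filter (fun h => h ≠ 0), TT (1:F) (-1) n (Q * h) with hA
  set Ssum := ∑ h ∈ (PL F (n - d)).filter (fun h => h ≠ 0), S (Q * h) with hSsum
  have herq : erQ n S Q = A - q ^ n * Ssum := by
    unfold erQ
    rw [sum_sub_distrib, ← mul_sum]
  set t := Ssum - (Φ * q ^ (n - d) - q / (q - 1) - ((n - d : ℕ) : ℝ) - G) with ht
  have hnd : ((n - d : ℕ) : ℝ) = (n:ℝ) - d := Nat.cast_sub hdn.le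
  have key : GG n Q - q ^ n * (d - q / (q - 1) - G) =
      erQ n S Q + q ^ n * t + (-(n * e)) + 2 * (Φ * q ^ (n - d)) * e := by
    have hT : T₁ = q ^ n - e := by rw [he]; ring
    rw [hGG, herq, ht, hnd, hT]
    ring
  rw [key]
  have h1 : |q ^ n * t| ≤ q ^ n * (Φ * (24 * (Real.exp 18 * 2 ^ (pd Q).card) / rho F ^ (n - d))) := by
    rw [abs_mul, abs_of_pos (by positivity : 0 < q ^ n)]
    exact mul_le_mul_of_nonneg_left hSS (by positivity)
  have h2 : |-(n * e)| ≤ 2 * n * q ^ (n / 2) := by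
    rw [abs_neg, abs_of_nonneg (by positivity)]
    calc n * e ≤ n * (2 * q ^ (n / 2)) := mul_le_mul_of_nonneg_left he1 hnr.le
      _ = _ := by ring
  have h3 : |2 * (Φ * q ^ (n - d)) * e| ≤ 4 * (Φ * q ^ (n - d)) * q ^ (n / 2) := by
    rw [abs_of_nonneg (by positivity)]
    calc 2 * (Φ * q ^ (n - d)) * e ≤ 2 * (Φ * q ^ (n - d)) * (2 * q ^ (n / 2)) :=
          mul_le_mul_of_nonneg_left he1 (by positivity)
      _ = _ := by ring
  refine (abs_add_le _ _).trans (add_le_add ?_ h3)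
  refine (abs_add_le _ _).trans (add_le_add ?_ h2)
  exact (abs_add_le _ _).trans (add_le_add le_rfl h1)

/-- **The pointwise bound of the divisor function**, from its moments -/
theorem tau_pow_le {κ n : ℕ} {s : F[X]} (hs : s ≠ 0) (hsn : s.natDegree < n) :
    (tau s : ℝ) ^ κ ≤ (n:ℝ) ^ (2 ^ κ) * (Fintype.card F : ℝ) ^ n := by
  have hq := two_le_card (F := F)
  set q : ℝ := (Fintype.card F : ℝ) with hqd
  have hlc : s.leadingCoeff ≠ 0 := leadingCoeff_ne_zero.mpr hs
  set s' := C s.leadingCoeff⁻¹ * s with hs'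
  have hm : s'.Monic := by
    rw [hs', Monic, leadingCoeff_mul, leadingCoeff_C, inv_mul_cancel₀ hlc]
  have hd : s'.natDegree = s.natDegree := by
    rw [hs', natDegree_C_mul (inv_ne_zero hlc)]
  have h1 : tau s ≤ tau s' := tau_dvd_le hm.ne_zero (dvd_mul_left s _)
  have h2 := tau_moment (F := F) κ s.natDegree
  have h3 : (tau s' : ℝ) ^ κ ≤ ∑ f ∈ Mon F s.natDegree, (tau f : ℝ) ^ κ :=
    single_le_sum (f := fun f : F[X] => (tau f : ℝ) ^ κ) (fun f _ => by positivity)
      (mem_Mon.mpr ⟨hm, hd⟩)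
  have hn1 : (1:ℝ) ≤ n := by
    have : 1 ≤ n := by omega
    exact_mod_cast this
  calc (tau s : ℝ) ^ κ ≤ (tau s' : ℝ) ^ κ := pow_le_pow_left₀ (by positivity) (by exact_mod_cast h1) κ
    _ ≤ _ := h3
    _ ≤ ((s.natDegree:ℝ) + 1) ^ (2 ^ κ - 1) * q ^ s.natDegree := h2
    _ ≤ (n:ℝ) ^ (2 ^ κ) * q ^ n := by
        apply mul_le_mul _ (pow_le_pow_right₀ (by linarith) hsn.le) (by positivity) (by positivity)
        calc ((s.natDegree:ℝ) + 1) ^ (2 ^ κ - 1) ≤ (n:ℝ) ^ (2 ^ κ - 1) := by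
              apply pow_le_pow_left₀ (by positivity)
              exact_mod_cast hsn
          _ ≤ (n:ℝ) ^ (2 ^ κ) := pow_le_pow_right₀ hn1 (Nat.sub_le _ _)

/-- the mean square of the error terms over the moduli -/
theorem sum_erQ_sq {n d : ℕ} (hdn : d < n) (S : F[X] → ℝ)
    (hS : ∀ D : F[X], D ≠ 0 → Tendsto (fun y => SP y D) atTop (𝓝 (S D))) {B : ℝ}
    (hB : ∀ s : F[X], s ≠ 0 → s.natDegree < n → (tau s : ℝ) ≤ B) :
    ∑ Q ∈ Mon F d, erQ n S Q ^ 2 ≤ (Fintype.card F : ℝ) ^ (n - d) * (B *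
      ((144 * (1 + Real.exp 3) + 320 * Real.exp 11 + 196 * Real.exp 22) * (n:ℝ) ^ 3 *
        (Fintype.card F : ℝ) ^ (2 * n + n - n / 2))) := by
  have hq := two_le_card (F := F)
  set q : ℝ := (Fintype.card F : ℝ) with hqd
  have hq0 : 0 < q := by linarith
  set c : F[X] → ℝ := fun s => (TT (1:F) (-1) n s - q ^ n * S s) ^ 2 with hc
  have hc0 : ∀ s, 0 ≤ c s := fun s => sq_nonneg _
  set H := (PL F (n - d)).filter (fun h => h ≠ 0) with hH
  have hHcard : (H.card : ℝ) ≤ q ^ (n - d) := by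
    have h1 : H.card ≤ (PL F (n - d)).card := card_le_card (filter_subset _ _)
    rw [card_PL] at h1
    have h2 : (H.card : ℝ) ≤ ((Fintype.card F ^ (n - d) : ℕ) : ℝ) := by exact_mod_cast h1
    push_cast at h2
    exact h2
  have h1 : ∀ Q ∈ Mon F d, erQ n S Q ^ 2 ≤ q ^ (n - d) * ∑ h ∈ H, c (Q * h) := by
    intro Q hQ
    rw [mem_Mon] at hQ
    unfold erQ
    rw [hQ.2]
    refine (sq_sum_le_card_mul_sum_sq (s := H)
      (f := fun h => TT (1:F) (-1) n (Q * h) - q ^ n * S (Q * h))).trans ?_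
    exact mul_le_mul_of_nonneg_right hHcard (sum_nonneg (fun h _ => sq_nonneg _))
  refine (sum_le_sum h1).trans ?_
  rw [← mul_sum]
  refine mul_le_mul_of_nonneg_left ?_ (by positivity)
  -- the pairs (Q, h)
  set N := (PL F n).filter (fun s => s ≠ 0) with hN
  have hmaps : ∀ x ∈ Mon F d ×ˢ H, x.1 * x.2 ∈ N := by
    intro x hx
    rw [mem_product, mem_Mon, hH, mem_filter, mem_PL] at hx
    obtain ⟨⟨h2, h3⟩, h4, h5⟩ := hx
    rw [hN, mem_filter, mem_PL]
    refine ⟨?_, mul_ne_zero h2.ne_zero h5⟩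
    rw [degree_mul, degree_eq_natDegree h2.ne_zero, degree_eq_natDegree h5, h3]
    rw [degree_eq_natDegree h5] at h4
    have h6 : x.2.natDegree < n - d := by exact_mod_cast h4
    have h7 : d + x.2.natDegree < n := by omega
    exact_mod_cast h7
  have h2 : ∑ Q ∈ Mon F d, ∑ h ∈ H, c (Q * h) = ∑ s ∈ N, ∑ x ∈ (Mon F d ×ˢ H).filter
      (fun x => x.1 * x.2 = s), c (x.1 * x.2) := by
    rw [sum_fiberwise_of_maps_to hmaps (fun x : F[X] × F[X] => c (x.1 * x.2)), sum_product]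
  rw [h2]
  have h3 : ∀ s ∈ N, ∑ x ∈ (Mon F d ×ˢ H).filter (fun x => x.1 * x.2 = s), c (x.1 * x.2) ≤
      B * c s := by
    intro s hs
    rw [hN, mem_filter, mem_PL] at hs
    have h4 : ∑ x ∈ (Mon F d ×ˢ H).filter (fun x => x.1 * x.2 = s), c (x.1 * x.2) =
        (((Mon F d ×ˢ H).filter (fun x => x.1 * x.2 = s)).card : ℝ) * c s := by
      rw [sum_congr rfl (fun x hx => by rw [(mem_filter.mp hx).2]), sum_const, nsmul_eq_mul]
    rw [h4]
    refine mul_le_mul_of_nonneg_right ?_ (hc0 s)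
    have hsd : s.natDegree < n := by
      rw [degree_eq_natDegree hs.2] at hs
      exact_mod_cast hs.1
    refine le_trans ?_ (hB s hs.2 hsd)
    have h5 : ((Mon F d ×ˢ H).filter (fun x => x.1 * x.2 = s)).card ≤ tau s := by
      unfold tau
      refine card_le_card_of_injOn (fun x => x.1) ?_ ?_
      · intro x hx
        rw [mem_coe, mem_filter, mem_product, mem_Mon] at hx
        rw [mem_coe, mem_div hs.2]
        exact ⟨hx.1.1.1, ⟨x.2, hx.2.symm⟩⟩
      · intro x hx y hy hxy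
        rw [mem_coe, mem_filter, mem_product, mem_Mon] at hx hy
        simp only at hxy
        have h6 : x.1 * x.2 = x.1 * y.2 := by
          rw [hx.2, hxy, hy.2]
        have h7 := mul_left_cancel₀ hx.1.1.1.ne_zero h6
        exact Prod.ext hxy h7
    exact_mod_cast h5
  refine (sum_le_sum h3).trans ?_
  rw [← mul_sum]
  have hB0 : 0 ≤ B := by
    have h4 := hB 1 one_ne_zero (by rw [natDegree_one]; omega)
    exact (Nat.cast_nonneg _).trans h4
  refine mul_le_mul_of_nonneg_left ?_ hB0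
  have h4 := goldbach_sq (F := F) (n := n) (m := n) (by omega) le_rfl (α := 1) (β := -1) one_ne_zero
    (by simp) (B := 0) (by
      rw [add_neg_cancel, C_0, zero_mul, sub_zero, degree_zero]
      exact WithBot.bot_lt_coe n) S hS
  simp only [zero_add] at h4
  exact h4

end Pool.Agent.H523.CM
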