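import Pool.Agent.H523.CM56
import Pool.Agent.H523.RH2

set_option autoImplicit false
set_option linter.unusedSectionVars false

/-! # The variance of the prime powers in residue classes -/

namespace Pool.Agent.H523.CM

open Polynomial Finset Filter
open Pool.Agent.H341R2.Sharp (Mon mem_Mon)
open Pool.Agent.H523.FF (Ir mem_Ir PL mem_PL card_PL two_le_card IrLE mem_IrLE irr_coprime PL_mod
  Ir_card sum_IrLE)

open scoped Classical Topology

variable {F : Type} [Field F] [Fintype F]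

/-- the primes of degree `e` whose power of degree `n` lies in the class of `A` -/
noncomputable def cnt (e n : ℕ) (Q A : F[X]) : ℕ :=
  ((Ir F e).filter (fun P => Q ∣ P ^ (n / e) - A)).card

/-- the weighted number of the prime powers of degree `n` in the class of `A` -/
noncomputable def psv (n : ℕ) (Q A : F[X]) : ℝ := ∑ e ∈ n.divisors, (e:ℝ) * (cnt e n Q A : ℝ)

theorem vth_eq {n : ℕ} (hn : 1 ≤ n) (Q A : F[X]) : vth n Q A = n * (cnt n n Q A : ℝ) := by
  unfold vth cnt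
  rw [Nat.div_self (by omega)]
  have h1 : ∀ f : F[X], th n f = if f ∈ Ir F n then (n:ℝ) else 0 := fun f => rfl
  rw [sum_congr rfl (fun f _ => h1 f), ← sum_filter, sum_const, nsmul_eq_mul, mul_comm]
  congr 3
  ext f
  rw [mem_filter, mem_filter, mem_filter, mem_Mon, mem_Ir, pow_one]
  tauto

theorem sum_cnt {e n : ℕ} {Q : F[X]} (hQ : Q.Monic) :
    ∑ A ∈ PL F Q.natDegree, (cnt e n Q A : ℝ) = ((Ir F e).card : ℝ) := by
  unfold cnt
  simp only [card_filter]
  push_cast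
  rw [sum_comm]
  rw [card_eq_sum_ones]
  push_cast
  refine sum_congr rfl (fun P _ => ?_)
  exact sum_classes hQ (P ^ (n / e)) (fun _ => (1:ℝ))

theorem Ir_le (e : ℕ) : (e:ℝ) * ((Ir F e).card : ℝ) ≤ (Fintype.card F : ℝ) ^ e := by
  rcases Nat.eq_zero_or_pos e with h | h
  · subst h
    simp
  · have h1 := Ir_card (F := F) e (by omega)
    have h2 : ((e * (Ir F e).card : ℕ) : ℝ) ≤ ((Fintype.card F ^ e : ℕ) : ℝ) := by exact_mod_cast h1
    push_cast at h2
    exact h2

theorem pow_inj_irr {P P' : F[X]} {k : ℕ} (hk : k ≠ 0) (h1 : P.Monic) (h2 : Irreducible P)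
    (h3 : P'.Monic) (h4 : Irreducible P') (h : P ^ k = P' ^ k) : P = P' := by
  have h5 : P ∣ P' ^ k := by
    rw [← h]
    exact dvd_pow_self P hk
  have h6 := h2.prime.dvd_of_dvd_pow h5
  exact eq_of_monic_of_associated h1 h3 ((h2.dvd_irreducible_iff_associated h4).mp h6)

/-- few squares of primes in a class -/
theorem cnt_half {e : ℕ} {Q : F[X]} (hQ : Q.Monic) (he : 1 ≤ e) (hdn : Q.natDegree ≤ e * 2)
    (A : F[X]) : (cnt e (e * 2) Q A : ℝ) ≤ (Fintype.card F : ℝ) ^ (e * 2 - Q.natDegree) := by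
  unfold cnt
  rw [Nat.mul_div_cancel_left _ (by omega : 0 < e)]
  set S := (Ir F e).filter (fun P => Q ∣ P ^ 2 - A) with hS
  rcases S.eq_empty_or_nonempty with h | ⟨P₀, hP₀⟩
  · rw [h, card_empty]
    push_cast
    positivity
  · have h0 := (mem_filter.mp hP₀)
    have hI := mem_Ir.mp h0.1
    have hf : P₀ ^ 2 ∈ Mon F (e * 2) := mem_Mon.mpr ⟨hI.1.pow 2, by
      rw [natDegree_pow, hI.2.2, mul_comm]⟩
    have h1 := sum_near hQ hdn hf (fun _ => (1:ℝ))
    rw [sum_const, sum_const, nsmul_eq_mul, nsmul_eq_mul, mul_one, mul_one, card_PL] at h1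
    push_cast at h1
    rw [← h1]
    have h2 : S.card ≤ ((Mon F (e * 2)).filter (fun g => Q ∣ P₀ ^ 2 - g)).card := by
      apply card_le_card_of_injOn (fun P => P ^ 2)
      · intro P hP
        rw [mem_coe, hS, mem_filter, mem_Ir] at hP
        rw [mem_coe, mem_filter, mem_Mon]
        refine ⟨⟨hP.1.1.pow 2, by rw [natDegree_pow, hP.1.2.2, mul_comm]⟩, ?_⟩
        have := dvd_sub h0.2 hP.2
        have e1 : P₀ ^ 2 - A - (P ^ 2 - A) = P₀ ^ 2 - P ^ 2 := by ring
        rwa [e1] at this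
      · intro P hP P' hP' h
        rw [mem_coe, hS, mem_filter, mem_Ir] at hP hP'
        exact pow_inj_irr (by norm_num : (2:ℕ) ≠ 0) hP.1.1 hP.1.2.1 hP'.1.1 hP'.1.2.1 h
    exact_mod_cast h2

/-- the proper prime powers in a class -/
noncomputable def prp (n : ℕ) (Q A : F[X]) : ℝ := ∑ e ∈ n.properDivisors, (e:ℝ) * (cnt e n Q A : ℝ)

theorem psv_eq {n : ℕ} (hn : 1 ≤ n) (Q A : F[X]) : psv n Q A = vth n Q A + prp n Q A := by
  unfold psv prp
  rw [vth_eq hn, ← Nat.insert_self_properDivisors (by omega),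
    sum_insert Nat.self_notMem_properDivisors]

/-- the second moment of the proper prime powers -/
theorem sum_prp_sq {n : ℕ} (hn : 1 ≤ n) {Q : F[X]} (hQ : Q.Monic) (hdn : Q.natDegree ≤ n) :
    ∑ A ∈ PL F Q.natDegree, prp n Q A ^ 2 ≤
      n ^ 2 * (Fintype.card F : ℝ) ^ (n - Q.natDegree + n / 2) +
        8 * (Fintype.card F : ℝ) ^ (2 * (n / 3)) := by
  have hq := two_le_card (F := F)
  set q : ℝ := (Fintype.card F : ℝ) with hqd
  have hq0 : 0 < q := by linarith
  -- the two parts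
  set w2 : F[X] → ℝ := fun A => if 2 ∣ n then ((n / 2 : ℕ):ℝ) * (cnt (n / 2) n Q A : ℝ) else 0 with hw2
  set D3 := n.properDivisors.filter (fun e => e ≤ n / 3) with hD3
  set w3 : F[X] → ℝ := fun A => ∑ e ∈ D3, (e:ℝ) * (cnt e n Q A : ℝ) with hw3
  have hw30 : ∀ A, 0 ≤ w3 A := fun A => sum_nonneg (fun e _ => by positivity)
  have hw20 : ∀ A, 0 ≤ w2 A := fun A => by
    rw [hw2]
    simp only
    split_ifs
    · positivity
    · exact le_rfl
  have hprp : ∀ A, prp n Q A ≤ w2 A + w3 A := by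
    intro A
    unfold prp
    rw [← sum_filter_add_sum_filter_not n.properDivisors (fun e => e ≤ n / 3), add_comm]
    refine add_le_add ?_ le_rfl
    have h1 : n.properDivisors.filter (fun e => ¬ e ≤ n / 3) ⊆
        if 2 ∣ n then {n / 2} else ∅ := by
      intro e he
      rw [mem_filter, Nat.mem_properDivisors] at he
      obtain ⟨⟨⟨k, hk⟩, h2⟩, h3⟩ := he
      have h4 : 0 < e := by
        rcases Nat.eq_zero_or_pos e with h | h
        · rw [h] at hk
          omega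
        · exact h
      have h5 : k = 2 := by
        have h6 : k ≠ 0 := by
          rintro rfl
          omega
        have h7 : k ≠ 1 := by
          rintro rfl
          omega
        by_contra h8
        have h9 : 3 ≤ k := by omega
        apply h3
        rw [Nat.le_div_iff_mul_le (by norm_num), hk]
        exact Nat.mul_le_mul_left e h9
      subst h5
      rw [if_pos ⟨e, by omega⟩, mem_singleton]
      omega
    refine (sum_le_sum_of_subset_of_nonneg h1 (fun _ _ _ => by positivity)).trans (le_of_eq ?_)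
    rw [hw2]
    simp only
    split_ifs
    · rw [sum_singleton]
    · rw [sum_empty]
  have hprp0 : ∀ A, 0 ≤ prp n Q A := fun A => sum_nonneg (fun e _ => by positivity)
  have h1 : ∀ A, prp n Q A ^ 2 ≤ 2 * w2 A ^ 2 + 2 * w3 A ^ 2 := by
    intro A
    have h2 := pow_le_pow_left₀ (hprp0 A) (hprp A) 2
    nlinarith [sq_nonneg (w2 A - w3 A)]
  have h2 : ∑ A ∈ PL F Q.natDegree, prp n Q A ^ 2 ≤ 2 * ∑ A ∈ PL F Q.natDegree, w2 A ^ 2 +
      2 * ∑ A ∈ PL F Q.natDegree, w3 A ^ 2 := by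
    refine (sum_le_sum (fun A _ => h1 A)).trans (le_of_eq ?_)
    rw [sum_add_distrib, mul_sum, mul_sum]
  -- the squares
  have h3 : 2 * ∑ A ∈ PL F Q.natDegree, w2 A ^ 2 ≤ n ^ 2 * q ^ (n - Q.natDegree + n / 2) := by
    by_cases h : 2 ∣ n
    · obtain ⟨e, he⟩ := h
      have he' : n / 2 = e := by omega
      have hw : ∀ A, w2 A = (e:ℝ) * (cnt e n Q A : ℝ) := by
        intro A
        rw [hw2]
        simp only
        rw [if_pos ⟨e, he⟩, he']
      have hc : ∀ A, (cnt e n Q A : ℝ) ≤ q ^ (n - Q.natDegree) := by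
        intro A
        have := cnt_half hQ (by omega : 1 ≤ e) (by omega) A
        rwa [show e * 2 = n by omega] at this
      have h5 : ∀ A, w2 A ^ 2 ≤ (e:ℝ) * q ^ (n - Q.natDegree) * ((e:ℝ) * (cnt e n Q A : ℝ)) := by
        intro A
        rw [hw A]
        have h6 : (e:ℝ) * (cnt e n Q A : ℝ) ≤ (e:ℝ) * q ^ (n - Q.natDegree) :=
          mul_le_mul_of_nonneg_left (hc A) (Nat.cast_nonneg _)
        rw [sq]
        exact mul_le_mul_of_nonneg_right h6 (by positivity)
      have h6 : ∑ A ∈ PL F Q.natDegree, w2 A ^ 2 ≤ (e:ℝ) * q ^ (n - Q.natDegree) * q ^ e := by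
        refine (sum_le_sum (fun A _ => h5 A)).trans ?_
        rw [← mul_sum]
        refine mul_le_mul_of_nonneg_left ?_ (by positivity)
        rw [← mul_sum, sum_cnt hQ]
        exact Ir_le e
      have h7 : (2:ℝ) * e ≤ n ^ 2 := by
        have h8 : (n:ℝ) = 2 * e := by
          rw [he]
          push_cast
          ring
        have h9 : (1:ℝ) ≤ n := by exact_mod_cast hn
        rw [← h8]
        nlinarith
      calc 2 * ∑ A ∈ PL F Q.natDegree, w2 A ^ 2 ≤ 2 * ((e:ℝ) * q ^ (n - Q.natDegree) * q ^ e) := by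
            linarith
        _ = (2 * e) * (q ^ (n - Q.natDegree) * q ^ e) := by ring
        _ ≤ n ^ 2 * (q ^ (n - Q.natDegree) * q ^ e) :=
            mul_le_mul_of_nonneg_right h7 (by positivity)
        _ = _ := by rw [← pow_add, he']
    · have hw : ∀ A, w2 A = 0 := by
        intro A
        rw [hw2]
        simp only
        rw [if_neg h]
      simp only [hw]
      norm_num
      positivity
  -- the higher powers
  have h4 : 2 * ∑ A ∈ PL F Q.natDegree, w3 A ^ 2 ≤ 8 * q ^ (2 * (n / 3)) := by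
    have h5 : ∑ A ∈ PL F Q.natDegree, w3 A ≤ 2 * q ^ (n / 3) := by
      rw [hw3]
      simp only
      rw [sum_comm]
      have h6 : ∀ e ∈ D3, ∑ A ∈ PL F Q.natDegree, (e:ℝ) * (cnt e n Q A : ℝ) ≤ q ^ e := by
        intro e _
        rw [← mul_sum, sum_cnt hQ]
        exact Ir_le e
      refine (sum_le_sum h6).trans ?_
      refine (sum_le_sum_of_subset_of_nonneg (t := range (n / 3 + 1)) ?_
        (fun _ _ _ => by positivity)).trans (RH.geom2 q hq (n / 3))
      intro e he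
      rw [hD3, mem_filter] at he
      rw [mem_range]
      omega
    have h6 : ∑ A ∈ PL F Q.natDegree, w3 A ^ 2 ≤ (∑ A ∈ PL F Q.natDegree, w3 A) ^ 2 :=
      sum_sq_le_sq_sum_of_nonneg (fun A _ => hw30 A)
    have h7 : (∑ A ∈ PL F Q.natDegree, w3 A) ^ 2 ≤ (2 * q ^ (n / 3)) ^ 2 :=
      pow_le_pow_left₀ (sum_nonneg (fun A _ => hw30 A)) h5 2
    have h8 : (2 * q ^ (n / 3)) ^ 2 = 4 * q ^ (2 * (n / 3)) := by
      rw [mul_pow, ← pow_mul, mul_comm (n / 3) 2]
      norm_num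
    linarith
  linarith

/-- the variance of the prime powers -/
noncomputable def GV (n : ℕ) (Q : F[X]) : ℝ :=
  ∑ A ∈ (PL F Q.natDegree).filter (fun A => IsCoprime A Q),
    (psv n Q A - (Fintype.card F : ℝ) ^ n / tot Q) ^ 2

theorem GV_GG {n : ℕ} (hn : 1 ≤ n) {Q : F[X]} (hQ : Q.Monic) (hdn : Q.natDegree ≤ n) {t : ℝ}
    (ht : 0 < t) : |GV n Q - GG n Q| ≤ t * GG n Q + (1 + 1 / t) *
      (n ^ 2 * (Fintype.card F : ℝ) ^ (n - Q.natDegree + n / 2) +
        8 * (Fintype.card F : ℝ) ^ (2 * (n / 3))) := by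
  set q : ℝ := (Fintype.card F : ℝ) with hqd
  set S := (PL F Q.natDegree).filter (fun A => IsCoprime A Q) with hS
  set v : F[X] → ℝ := fun A => vth n Q A - q ^ n / tot Q with hv
  set w : F[X] → ℝ := fun A => prp n Q A with hw
  have h1 : GV n Q - GG n Q = ∑ A ∈ S, (2 * v A * w A + w A ^ 2) := by
    unfold GV GG
    rw [← sum_sub_distrib]
    refine sum_congr rfl (fun A _ => ?_)
    rw [psv_eq hn, hv, hw]
    simp only
    ring
  have h2 : ∀ A, |2 * v A * w A + w A ^ 2| ≤ t * v A ^ 2 + (1 + 1 / t) * w A ^ 2 := by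
    intro A
    have h3 : |2 * v A * w A| ≤ t * v A ^ 2 + 1 / t * w A ^ 2 := by
      have h4 : t * v A ^ 2 + 1 / t * w A ^ 2 - 2 * v A * w A = (t * v A - w A) ^ 2 / t := by
        field_simp
        ring
      have h5 : t * v A ^ 2 + 1 / t * w A ^ 2 + 2 * v A * w A = (t * v A + w A) ^ 2 / t := by
        field_simp
        ring
      have h6 : 0 ≤ (t * v A - w A) ^ 2 / t := by positivity
      have h7 : 0 ≤ (t * v A + w A) ^ 2 / t := by positivity
      rw [abs_le]
      constructor <;> linarith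
    refine (abs_add_le _ _).trans ?_
    rw [abs_of_nonneg (sq_nonneg (w A))]
    linarith
  have h3 : ∑ A ∈ S, w A ^ 2 ≤ ∑ A ∈ PL F Q.natDegree, prp n Q A ^ 2 :=
    sum_le_sum_of_subset_of_nonneg (filter_subset _ _) (fun _ _ _ => sq_nonneg _)
  have h4 := sum_prp_sq hn hQ hdn
  rw [← hqd] at h4
  have h5 : 0 < 1 + 1 / t := by positivity
  calc |GV n Q - GG n Q| = |∑ A ∈ S, (2 * v A * w A + w A ^ 2)| := by rw [h1]
    _ ≤ ∑ A ∈ S, |2 * v A * w A + w A ^ 2| := abs_sum_le_sum_abs _ _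
    _ ≤ ∑ A ∈ S, (t * v A ^ 2 + (1 + 1 / t) * w A ^ 2) := sum_le_sum (fun A _ => h2 A)
    _ = t * GG n Q + (1 + 1 / t) * ∑ A ∈ S, w A ^ 2 := by
        rw [sum_add_distrib, ← mul_sum, ← mul_sum]
        rfl
    _ ≤ _ := by
        have := mul_le_mul_of_nonneg_left (h3.trans h4) h5.le
        linarith

theorem fg_mangoldt (ε : ℝ) (hε : 0 < ε) (hε1 : ε ≤ 1 / 4) : ∃ δ : ℝ, 0 < δ ∧ ∃ N : ℕ,
    ∀ (F : Type) [Field F] [Fintype F] (n d : ℕ), N ≤ n → (3 / 4 + ε) * n ≤ d →
      (d:ℝ) ≤ (1 - ε) * n →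
      (((Mon F d).filter (fun Q => (Fintype.card F : ℝ) ^ n * ((Fintype.card F : ℝ) ^ n) ^ (-δ) <
        |GV n Q - (Fintype.card F : ℝ) ^ n * (d -
          (Fintype.card F : ℝ) / ((Fintype.card F : ℝ) - 1) -
          ∑ P ∈ pd Q, P.natDegree * gP P)|)).card : ℝ) ≤
        (Fintype.card F : ℝ) ^ d * ((Fintype.card F : ℝ) ^ n) ^ (-δ) := by
  obtain ⟨δ₀, hδ₀, N₀, hN₀⟩ := fg_almost_all ε hε hε1
  set δ : ℝ := min δ₀ (1 / 16) / 2 with hδ
  have hδ0 : 0 < δ := by
    rw [hδ]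
    have : 0 < min δ₀ (1 / 16) := lt_min hδ₀ (by norm_num)
    linarith
  have hδ1 : 2 * δ ≤ δ₀ := by
    rw [hδ]
    linarith [min_le_left δ₀ (1 / 16)]
  have hδ2 : 2 * δ ≤ 1 / 16 := by
    rw [hδ]
    linarith [min_le_right δ₀ (1 / 16)]
  obtain ⟨N₁, hN₁⟩ := poly_le_exp 21 2 δ hδ0
  refine ⟨δ, hδ0, N₀ + N₁ + 1, ?_⟩
  intro F _ _ n d hn hd1 hd2
  have hq := two_le_card (F := F)
  set q : ℝ := (Fintype.card F : ℝ) with hqd
  have hq0 : 0 < q := by linarith
  have hn1 : 1 ≤ n := by omega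
  have hnr : (1:ℝ) ≤ n := by exact_mod_cast hn1
  set X : ℝ := q ^ n with hX
  have hX0 : 0 < X := by positivity
  have hX1 : 1 ≤ X := one_le_pow₀ (by linarith)
  have hXa : ∀ a : ℝ, X ^ a = q ^ ((n:ℝ) * a) := by
    intro a
    rw [hX, ← Real.rpow_natCast, ← Real.rpow_mul hq0.le]
  have hup : ∀ (k : ℕ) (a : ℝ), (k:ℝ) ≤ n * a → q ^ k ≤ X ^ a := by
    intro k a h
    rw [hXa, ← Real.rpow_natCast]
    exact Real.rpow_le_rpow_of_exponent_le (by linarith) h
  have hXmono : ∀ a b : ℝ, a ≤ b → X ^ a ≤ X ^ b := fun a b h =>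
    Real.rpow_le_rpow_of_exponent_le hX1 h
  have hXadd : ∀ a b : ℝ, X ^ (a + b) = X ^ a * X ^ b := fun a b => Real.rpow_add hX0 a b
  have hXpos : ∀ a : ℝ, 0 < X ^ a := fun a => Real.rpow_pos_of_pos hX0 a
  have hdn : d < n := by
    have h1 : (d:ℝ) < n := by nlinarith
    exact_mod_cast h1
  have hm : ((n - d : ℕ) : ℝ) = (n:ℝ) - d := Nat.cast_sub hdn.le
  have hpoly : 21 * (n:ℝ) ^ 2 ≤ X ^ δ := by
    refine (hN₁ n (by omega)).trans ?_
    rw [hXa, mul_comm (n:ℝ) δ, Real.rpow_mul hq0.le, Real.rpow_natCast]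
    exact pow_le_pow_left₀ (by positivity) (Real.rpow_le_rpow (by norm_num) hq hδ0.le) n
  have hold := hN₀ F n d (by omega) hd1 hd2
  rw [← hqd, ← hX] at hold
  refine le_trans ?_ (hold.trans ?_)
  · -- the inclusion of the exceptional sets
    norm_cast
    apply card_le_card
    intro Q hQ
    rw [mem_filter] at hQ ⊢
    refine ⟨hQ.1, ?_⟩
    by_contra hcon
    rw [not_lt] at hcon
    have hQ1 := mem_Mon.mp hQ.1
    apply absurd hQ.2
    rw [not_lt]
    set main : ℝ := X * (d - q / (q - 1) - ∑ P ∈ pd Q, P.natDegree * gP P) with hmain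
    have hmain1 : main ≤ X * n := by
      rw [hmain]
      apply mul_le_mul_of_nonneg_left _ hX0.le
      have h1 : 0 ≤ q / (q - 1) := div_nonneg hq0.le (by linarith)
      have h2 : 0 ≤ ∑ P ∈ pd Q, P.natDegree * gP P := sum_nonneg (fun P hP => by
        have := gP_pos ((mem_pd hQ1.1).mp hP).2.1
        positivity)
      have h3 : (d:ℝ) ≤ n := by exact_mod_cast hdn.le
      linarith
    have hXm : X * X ^ (-δ₀) = X ^ (1 - δ₀) := by
      rw [sub_eq_add_neg, hXadd, Real.rpow_one]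
    rw [hXm] at hcon
    have hXm' : X * X ^ (-δ) = X ^ (1 - δ) := by
      rw [sub_eq_add_neg, hXadd, Real.rpow_one]
    rw [hXm']
    have hGGle : GG n Q ≤ 2 * n * X := by
      have h1 := (abs_le.mp hcon).2
      have h2 : X ^ (1 - δ₀) ≤ X := by
        have := hXmono (1 - δ₀) 1 (by linarith)
        rwa [Real.rpow_one] at this
      nlinarith
    have ht : 0 < X ^ (-(1:ℝ) / 16) := hXpos _
    have h1 := GV_GG hn1 hQ1.1 (by rw [hQ1.2]; exact hdn.le) ht
    rw [hQ1.2, ← hqd] at h1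
    have h2 : q ^ (n - d + n / 2) ≤ X ^ ((3:ℝ) / 4) := by
      apply hup
      push_cast
      rw [hm]
      have : ((n / 2 : ℕ) : ℝ) ≤ (n:ℝ) / 2 := Nat.cast_div_le
      nlinarith
    have h3 : q ^ (2 * (n / 3)) ≤ X ^ ((3:ℝ) / 4) := by
      apply hup
      push_cast
      have : ((n / 3 : ℕ) : ℝ) ≤ (n:ℝ) / 3 := Nat.cast_div_le
      nlinarith
    have h4 : 1 / X ^ (-(1:ℝ) / 16) = X ^ ((1:ℝ) / 16) := by
      rw [one_div, ← Real.rpow_neg hX0.le]
      congr 1
      norm_num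
    have h5 : 1 ≤ X ^ ((1:ℝ) / 16) := Real.one_le_rpow hX1 (by norm_num)
    have h6 : |GV n Q - GG n Q| ≤ 20 * n ^ 2 * X ^ (1 - 2 * δ) := by
      have h7 : X ^ (-(1:ℝ) / 16) * GG n Q ≤ 2 * n ^ 2 * X ^ (1 - 2 * δ) := by
        calc X ^ (-(1:ℝ) / 16) * GG n Q ≤ X ^ (-(1:ℝ) / 16) * (2 * n * X) :=
              mul_le_mul_of_nonneg_left hGGle ht.le
          _ = 2 * n * X ^ (-(1:ℝ) / 16 + 1) := by
              rw [hXadd, Real.rpow_one]
              ring
          _ ≤ 2 * n * X ^ (1 - 2 * δ) := by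
              refine mul_le_mul_of_nonneg_left (hXmono _ _ ?_) (by positivity)
              linarith
          _ ≤ 2 * n ^ 2 * X ^ (1 - 2 * δ) := by
              refine mul_le_mul_of_nonneg_right ?_ (hXpos _).le
              nlinarith
      have h8 : (1 + 1 / X ^ (-(1:ℝ) / 16)) * (n ^ 2 * q ^ (n - d + n / 2) +
          8 * q ^ (2 * (n / 3))) ≤ 18 * n ^ 2 * X ^ (1 - 2 * δ) := by
        rw [h4]
        have hn2 : (1:ℝ) ≤ (n:ℝ) ^ 2 := one_le_pow₀ hnr
        have hX34 := hXpos ((3:ℝ) / 4)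
        calc (1 + X ^ ((1:ℝ) / 16)) * (n ^ 2 * q ^ (n - d + n / 2) + 8 * q ^ (2 * (n / 3)))
            ≤ (2 * X ^ ((1:ℝ) / 16)) * (n ^ 2 * X ^ ((3:ℝ) / 4) + 8 * n ^ 2 * X ^ ((3:ℝ) / 4)) := by
              refine mul_le_mul (by linarith) (add_le_add ?_ ?_) (by positivity) (by positivity)
              · exact mul_le_mul_of_nonneg_left h2 (by positivity)
              · calc 8 * q ^ (2 * (n / 3)) ≤ 8 * X ^ ((3:ℝ) / 4) := by linarith
                  _ = 8 * 1 * X ^ ((3:ℝ) / 4) := by ring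
                  _ ≤ 8 * n ^ 2 * X ^ ((3:ℝ) / 4) := by
                    refine mul_le_mul_of_nonneg_right ?_ hX34.le
                    linarith
          _ = 18 * n ^ 2 * X ^ ((1:ℝ) / 16 + 3 / 4) := by
              rw [hXadd]
              ring
          _ ≤ 18 * n ^ 2 * X ^ (1 - 2 * δ) := by
              refine mul_le_mul_of_nonneg_left (hXmono _ _ ?_) (by positivity)
              linarith
      linarith
    calc |GV n Q - main| = |(GV n Q - GG n Q) + (GG n Q - main)| := by ring_nf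
      _ ≤ |GV n Q - GG n Q| + |GG n Q - main| := abs_add_le _ _
      _ ≤ 20 * n ^ 2 * X ^ (1 - 2 * δ) + X ^ (1 - δ₀) := add_le_add h6 hcon
      _ ≤ 20 * n ^ 2 * X ^ (1 - 2 * δ) + n ^ 2 * X ^ (1 - 2 * δ) := by
          have h7 := hXmono (1 - δ₀) (1 - 2 * δ) (by linarith)
          have hn2 : (1:ℝ) ≤ (n:ℝ) ^ 2 := one_le_pow₀ hnr
          have h8 := hXpos (1 - 2 * δ)
          nlinarith
      _ = (21 * n ^ 2) * X ^ (1 - 2 * δ) := by ring
      _ ≤ X ^ δ * X ^ (1 - 2 * δ) := mul_le_mul_of_nonneg_right hpoly (hXpos _).le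
      _ = X ^ (1 - δ) := by
          rw [← hXadd]
          congr 1
          ring
  · refine mul_le_mul_of_nonneg_left (hXmono _ _ ?_) (by positivity)
    linarith

end Pool.Agent.H523.CM
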