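import Pool.Agent.H523.CM57

set_option autoImplicit false
set_option linter.unusedSectionVars false

/-! # The variance of the prime powers in residue classes: the uniform form -/

namespace Pool.Agent.H523.CM

open Polynomial Finset Filter
open Pool.Agent.H341R2.Sharp (Mon mem_Mon)
open Pool.Agent.H523.FF (Ir mem_Ir PL mem_PL card_PL two_le_card IrLE mem_IrLE irr_coprime PL_mod
  Ir_card sum_IrLE)

open scoped Classical Topology

variable {F : Type} [Field F] [Fintype F]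

/-- the size of the second error term -/
noncomputable def EQ (n : ℕ) (Q : F[X]) : ℝ :=
  (Fintype.card F : ℝ) ^ n * ((∏ P ∈ pd Q, (1 + gP P)) *
        (24 * (Real.exp 18 * 2 ^ (pd Q).card) / rho F ^ (n - Q.natDegree)))

theorem fg_gen (ε : ℝ) (hε : 0 < ε) (hε1 : ε ≤ 1 / 4) : ∃ δ : ℝ, 0 < δ ∧ ∃ N : ℕ,
    ∀ (F : Type) [Field F] [Fintype F] (n d : ℕ), N ≤ n → (3 / 4 + ε) * n ≤ d → d < n →
      (((Mon F d).filter (fun Q => (Fintype.card F : ℝ) ^ n * ((Fintype.card F : ℝ) ^ n) ^ (-δ) +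
          EQ n Q < |GV n Q - (Fintype.card F : ℝ) ^ n * (d -
          (Fintype.card F : ℝ) / ((Fintype.card F : ℝ) - 1) -
          ∑ P ∈ pd Q, P.natDegree * gP P)|)).card : ℝ) ≤
        (Fintype.card F : ℝ) ^ d * ((Fintype.card F : ℝ) ^ n) ^ (-δ) := by
  set K₀ : ℝ := 144 * (1 + Real.exp 3) + 320 * Real.exp 11 + 196 * Real.exp 22 with hK₀
  have hK₀0 : 0 < K₀ := by positivity
  set η : ℝ := ε / 64 with hη
  have hη0 : 0 < η := by positivity
  obtain ⟨κ, hκ⟩ := exists_nat_ge (64 / ε)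
  have hκη : 1 ≤ κ * η := by
    rw [hη]
    rw [div_le_iff₀ hε] at hκ
    linarith
  have hκ1 : 1 ≤ κ := by
    by_contra h
    have h0 : κ = 0 := by omega
    rw [h0] at hκη
    norm_num at hκη
  set C₁ : ℝ := 24 * Real.exp 18 + 4 * K₀ + 16 with hC₁
  have hC₁0 : 0 < C₁ := by positivity
  obtain ⟨N₁, hN₁⟩ := poly_le_exp C₁ (2 * 2 ^ κ + 3) η hη0
  obtain ⟨N₂, hN₂⟩ := exists_nat_ge (1 / η)
  refine ⟨η, hη0, N₁ + N₂ + 1, ?_⟩
  intro F _ _ n d hn hd1 hdn
  have hq := two_le_card (F := F)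
  set q : ℝ := (Fintype.card F : ℝ) with hqd
  have hq0 : 0 < q := by linarith
  have hn1 : 1 ≤ n := by omega
  have hnr : (1:ℝ) ≤ n := by exact_mod_cast hn1
  have hnη : 1 ≤ η * n := by
    have h1 : (N₂:ℝ) ≤ n := by exact_mod_cast (by omega : N₂ ≤ n)
    rw [div_le_iff₀ hη0] at hN₂
    nlinarith
  set X : ℝ := q ^ n with hX
  have hX0 : 0 < X := by positivity
  have hX1 : 1 ≤ X := one_le_pow₀ (by linarith)
  have hXa : ∀ a : ℝ, X ^ a = q ^ ((n:ℝ) * a) := by
    intro a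
    rw [hX, ← Real.rpow_natCast, ← Real.rpow_mul hq0.le]
  have hup : ∀ (k : ℕ) (a : ℝ), (k:ℝ) ≤ n * a → q ^ k ≤ X ^ a := by
    intro k a h
    rw [hXa, ← Real.rpow_natCast]
    exact Real.rpow_le_rpow_of_exponent_le (by linarith) h
  have hlow : ∀ (k : ℕ) (a : ℝ), n * a ≤ (k:ℝ) → X ^ a ≤ q ^ k := by
    intro k a h
    rw [hXa, ← Real.rpow_natCast]
    exact Real.rpow_le_rpow_of_exponent_le (by linarith) h
  have hXmono : ∀ a b : ℝ, a ≤ b → X ^ a ≤ X ^ b := fun a b h =>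
    Real.rpow_le_rpow_of_exponent_le hX1 h
  have hXadd : ∀ a b : ℝ, X ^ (a + b) = X ^ a * X ^ b := fun a b => Real.rpow_add hX0 a b
  have hXpos : ∀ a : ℝ, 0 < X ^ a := fun a => Real.rpow_pos_of_pos hX0 a
  have hm : ((n - d : ℕ) : ℝ) = (n:ℝ) - d := Nat.cast_sub hdn.le
  -- the polynomial factors
  have hpoly : C₁ * (n:ℝ) ^ (2 * 2 ^ κ + 3) ≤ X ^ η := by
    refine (hN₁ n (by omega)).trans ?_
    rw [hXa, mul_comm (n:ℝ) η, Real.rpow_mul hq0.le, Real.rpow_natCast]
    exact pow_le_pow_left₀ (by positivity) (Real.rpow_le_rpow (by norm_num) hq hη0.le) n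
  have hpoly' : ∀ (c : ℝ) (k : ℕ), 0 ≤ c → c ≤ C₁ → k ≤ 2 * 2 ^ κ + 3 → c * (n:ℝ) ^ k ≤ X ^ η := by
    intro c k hc0 hc hk
    refine le_trans ?_ hpoly
    exact mul_le_mul hc (pow_le_pow_right₀ hnr hk) (by positivity) hC₁0.le
  have hXη : 16 ≤ X ^ η := by
    have h1 := hpoly' 16 0 (by norm_num) (by rw [hC₁]; linarith [Real.exp_pos 18]) (by omega)
    rwa [pow_zero, mul_one] at h1
  -- the divisor function
  set B : ℝ := (n:ℝ) ^ (2 ^ κ) * X ^ η with hB
  have hB0 : 0 < B := mul_pos (by positivity) (hXpos _)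
  have hBtau : ∀ s : F[X], s ≠ 0 → s.natDegree < n → (tau s : ℝ) ≤ B := by
    intro s hs hsn
    have h1 := tau_pow_le (κ := κ) hs hsn
    rw [← hqd, ← hX] at h1
    have h2 : (n:ℝ) ^ (2 ^ κ) * X ≤ B ^ κ := by
      rw [hB, mul_pow]
      apply mul_le_mul _ _ hX0.le (by positivity)
      · exact le_self_pow₀ (one_le_pow₀ hnr) (by omega)
      · rw [← Real.rpow_mul_natCast hX0.le]
        calc X = X ^ (1:ℝ) := (Real.rpow_one X).symm
          _ ≤ X ^ (η * κ) := hXmono _ _ (by linarith)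
    exact le_of_pow_le_pow_left₀ (by omega) hB0.le (h1.trans h2)
  -- the singular series
  have hex : ∀ D : F[X], ∃ S : ℝ, D ≠ 0 → Tendsto (fun y => SP y D) atTop (𝓝 S) := by
    intro D
    by_cases h : D = 0
    · exact ⟨0, fun h' => absurd h h'⟩
    · obtain ⟨S, hS⟩ := SP_converges h
      exact ⟨S, fun _ => hS⟩
  choose S hS using hex
  -- the pointwise bound
  set main : F[X] → ℝ := fun Q => q ^ n * (d - q / (q - 1) - ∑ P ∈ pd Q, P.natDegree * gP P) with hmain
  have hpt : ∀ Q ∈ Mon F d, |GG n Q - main Q| ≤ |erQ n S Q| + EQ n Q + X ^ (1 - η) / 4 := by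
    intro Q hQ
    rw [mem_Mon] at hQ
    have h1 := GG_main hQ.1 (by rw [hQ.2]; exact hdn) S hS
    rw [hQ.2, ← hqd, ← hX] at h1
    have hpr : ∀ P ∈ pd Q, P.Monic ∧ Irreducible P := fun P hP =>
      ⟨((mem_pd hQ.1).mp hP).1, ((mem_pd hQ.1).mp hP).2.1⟩
    have h2 : (2:ℝ) ^ (pd Q).card ≤ B := by
      have h3 := pow_card_le_tau hpr
      have h4 : tau (∏ P ∈ pd Q, P) ≤ tau Q := tau_dvd_le hQ.1.ne_zero (pr_pd_dvd hQ.1)
      have h5 : ((2 ^ (pd Q).card : ℕ) : ℝ) ≤ (tau Q : ℝ) := by exact_mod_cast h3.trans h4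
      push_cast at h5
      exact h5.trans (hBtau Q hQ.1.ne_zero (by rw [hQ.2]; exact hdn))
    have h3 : ∏ P ∈ pd Q, (1 + gP P) ≤ B := by
      refine le_trans ?_ h2
      rw [← prod_const]
      refine prod_le_prod (fun P hP => ?_) (fun P hP => ?_)
      · have := gP_pos (hpr P hP).2
        linarith
      · have := gP_le_one (hpr P hP).2
        linarith
    have h30 : 0 < ∏ P ∈ pd Q, (1 + gP P) := prod_pos (fun P hP => by
      have := gP_pos (hpr P hP).2
      linarith)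
    set Φ := ∏ P ∈ pd Q, (1 + gP P) with hΦ
    have hn2 : q ^ (n / 2) ≤ X ^ ((1:ℝ) / 2) := by
      apply hup
      have : ((n / 2 : ℕ) : ℝ) ≤ (n:ℝ) / 2 := Nat.cast_div_le
      linarith
    have hm4 : q ^ (n - d) ≤ X ^ ((1:ℝ) / 4) := by
      apply hup
      rw [hm]
      nlinarith
    have t2 : 2 * n * q ^ (n / 2) ≤ X ^ (1 - 5 * η) := by
      calc 2 * n * q ^ (n / 2) ≤ X ^ η * X ^ ((1:ℝ) / 2) := by
            refine mul_le_mul ?_ hn2 (by positivity) (hXpos _).le
            have h4 := hpoly' 2 1 (by norm_num) (by rw [hC₁]; linarith [Real.exp_pos 18]) (by omega)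
            rwa [pow_one] at h4
        _ = X ^ (η + 1 / 2) := (hXadd _ _).symm
        _ ≤ _ := hXmono _ _ (by rw [hη]; linarith)
    have t3 : 4 * (Φ * q ^ (n - d)) * q ^ (n / 2) ≤ X ^ (1 - 5 * η) := by
      calc 4 * (Φ * q ^ (n - d)) * q ^ (n / 2) ≤ 4 * (B * X ^ ((1:ℝ) / 4)) * X ^ ((1:ℝ) / 2) := by
            have h4 := hXpos ((1:ℝ) / 4)
            refine mul_le_mul ?_ hn2 (by positivity) (by positivity)
            refine mul_le_mul_of_nonneg_left ?_ (by norm_num)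
            exact mul_le_mul h3 hm4 (by positivity) hB0.le
        _ = (4 * (n:ℝ) ^ (2 ^ κ)) * (X ^ η * X ^ ((1:ℝ) / 4) * X ^ ((1:ℝ) / 2)) := by
            rw [hB]
            ring
        _ ≤ X ^ η * (X ^ η * X ^ ((1:ℝ) / 4) * X ^ ((1:ℝ) / 2)) := by
            refine mul_le_mul_of_nonneg_right ?_ (by
              have h5 := hXpos η
              have h6 := hXpos ((1:ℝ) / 4)
              have h7 := hXpos ((1:ℝ) / 2)
              positivity)
            exact hpoly' _ _ (by norm_num) (by rw [hC₁]; linarith [Real.exp_pos 18]) (by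
              have : 2 ^ κ ≤ 2 * 2 ^ κ := by omega
              omega)
        _ = X ^ (η + (η + 1 / 4 + 1 / 2)) := by rw [hXadd, hXadd, hXadd]
        _ ≤ _ := hXmono _ _ (by rw [hη]; linarith)
    have h4 : 2 * X ^ (1 - 5 * η) ≤ X ^ (1 - η) / 4 := by
      have e1 : X ^ (1 - η) = X ^ (1 - 5 * η) * X ^ (4 * η) := by
        rw [← hXadd]
        congr 1
        ring
      have h5 : 16 ≤ X ^ (4 * η) := hXη.trans (hXmono _ _ (by linarith))
      have h6 := hXpos (1 - 5 * η)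
      rw [e1]
      nlinarith
    have hEQ : EQ n Q = X * (Φ * (24 * (Real.exp 18 * 2 ^ (pd Q).card) / rho F ^ (n - d))) := by
      unfold EQ
      rw [hQ.2]
    rw [hEQ]
    refine h1.trans ?_
    linarith
  have hpt2 : ∀ Q ∈ Mon F d, |erQ n S Q| < X ^ (1 - η) / 2 →
      |GV n Q - main Q| ≤ X ^ (1 - η) + EQ n Q := by
    intro Q hQ her
    have h0 := hpt Q hQ
    rw [mem_Mon] at hQ
    have hpr : ∀ P ∈ pd Q, P.Monic ∧ Irreducible P := fun P hP =>
      ⟨((mem_pd hQ.1).mp hP).1, ((mem_pd hQ.1).mp hP).2.1⟩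
    have h2 : (2:ℝ) ^ (pd Q).card ≤ B := by
      have h3 := pow_card_le_tau hpr
      have h4 : tau (∏ P ∈ pd Q, P) ≤ tau Q := tau_dvd_le hQ.1.ne_zero (pr_pd_dvd hQ.1)
      have h5 : ((2 ^ (pd Q).card : ℕ) : ℝ) ≤ (tau Q : ℝ) := by exact_mod_cast h3.trans h4
      push_cast at h5
      exact h5.trans (hBtau Q hQ.1.ne_zero (by rw [hQ.2]; exact hdn))
    have h3 : ∏ P ∈ pd Q, (1 + gP P) ≤ B := by
      refine le_trans ?_ h2
      rw [← prod_const]
      refine prod_le_prod (fun P hP => ?_) (fun P hP => ?_)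
      · have := gP_pos (hpr P hP).2
        linarith
      · have := gP_le_one (hpr P hP).2
        linarith
    have h30 : 0 < ∏ P ∈ pd Q, (1 + gP P) := prod_pos (fun P hP => by
      have := gP_pos (hpr P hP).2
      linarith)
    set Φ := ∏ P ∈ pd Q, (1 + gP P) with hΦ
    have hrho := rho_ge (F := F)
    have hρ1 : 1 ≤ rho F ^ (n - d) := one_le_pow₀ (by linarith)
    have hEQ : EQ n Q ≤ X ^ (1 + 3 * η) := by
      have hEQ' : EQ n Q = X * (Φ * (24 * (Real.exp 18 * 2 ^ (pd Q).card) / rho F ^ (n - d))) := by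
        unfold EQ
        rw [hQ.2]
      rw [hEQ']
      have h4 : 24 * (Real.exp 18 * 2 ^ (pd Q).card) / rho F ^ (n - d) ≤
          24 * (Real.exp 18 * B) := by
        rw [div_le_iff₀ (by linarith)]
        have h5 : 24 * (Real.exp 18 * 2 ^ (pd Q).card) ≤ 24 * (Real.exp 18 * B) :=
          mul_le_mul_of_nonneg_left (mul_le_mul_of_nonneg_left h2 (Real.exp_pos _).le)
            (by norm_num)
        have h6 : 0 ≤ 24 * (Real.exp 18 * B) := by positivity
        nlinarith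
      calc X * (Φ * (24 * (Real.exp 18 * 2 ^ (pd Q).card) / rho F ^ (n - d)))
          ≤ X * (B * (24 * (Real.exp 18 * B))) := by
            refine mul_le_mul_of_nonneg_left ?_ hX0.le
            refine mul_le_mul h3 h4 ?_ hB0.le
            positivity
        _ = ((24 * Real.exp 18) * (n:ℝ) ^ (2 * 2 ^ κ)) * (X * X ^ η * X ^ η) := by
            rw [hB]
            rw [show 2 * 2 ^ κ = 2 ^ κ + 2 ^ κ by ring, pow_add]
            ring
        _ ≤ X ^ η * (X * X ^ η * X ^ η) := by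
            refine mul_le_mul_of_nonneg_right ?_ (by
              have h5 := hXpos η
              positivity)
            exact hpoly' _ _ (by positivity) (by rw [hC₁]; linarith) (by omega)
        _ = X ^ (1 + 3 * η) := by
            have e1 : X * X ^ η * X ^ η = X ^ (1 + η + η) := by
              rw [hXadd, hXadd, Real.rpow_one]
            rw [e1, ← hXadd]
            congr 1
            ring
    have hmain1 : main Q ≤ X ^ (1 + 3 * η) := by
      have h4 : main Q ≤ X * n := by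
        rw [hmain]
        simp only
        rw [hX]
        apply mul_le_mul_of_nonneg_left _ hX0.le
        have h5 : 0 ≤ q / (q - 1) := div_nonneg hq0.le (by linarith)
        have h6 : 0 ≤ ∑ P ∈ pd Q, P.natDegree * gP P := sum_nonneg (fun P hP => by
          have := gP_pos (hpr P hP).2
          positivity)
        have h7 : (d:ℝ) ≤ n := by exact_mod_cast hdn.le
        linarith
      have h5 : (n:ℝ) ≤ X ^ η := by
        have := hpoly' 1 1 (by norm_num) (by rw [hC₁]; linarith [Real.exp_pos 18]) (by omega)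
        rwa [one_mul, pow_one] at this
      calc main Q ≤ X * n := h4
        _ ≤ X * X ^ η := mul_le_mul_of_nonneg_left h5 hX0.le
        _ = X ^ (1 + η) := by rw [hXadd, Real.rpow_one]
        _ ≤ _ := hXmono _ _ (by linarith)
    have hGGle : GG n Q ≤ 3 * X ^ (1 + 3 * η) := by
      have h4 := (abs_le.mp h0).2
      have h5 := hXmono (1 - η) (1 + 3 * η) (by linarith)
      have h6 := hXpos (1 + 3 * η)
      linarith
    have ht : 0 < X ^ (-(1:ℝ) / 8) := hXpos _
    have h10 := GV_GG hn1 hQ.1 (by rw [hQ.2]; exact hdn.le) ht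
    rw [hQ.2, ← hqd] at h10
    have hq34 : q ^ (n - d + n / 2) ≤ X ^ ((3:ℝ) / 4) := by
      apply hup
      push_cast
      rw [hm]
      have : ((n / 2 : ℕ) : ℝ) ≤ (n:ℝ) / 2 := Nat.cast_div_le
      nlinarith
    have hq34' : q ^ (2 * (n / 3)) ≤ X ^ ((3:ℝ) / 4) := by
      apply hup
      push_cast
      have : ((n / 3 : ℕ) : ℝ) ≤ (n:ℝ) / 3 := Nat.cast_div_le
      nlinarith
    have h4 : 1 / X ^ (-(1:ℝ) / 8) = X ^ ((1:ℝ) / 8) := by
      rw [one_div, ← Real.rpow_neg hX0.le]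
      congr 1
      norm_num
    have h5 : 1 ≤ X ^ ((1:ℝ) / 8) := Real.one_le_rpow hX1 (by norm_num)
    have h7 : X ^ (-(1:ℝ) / 8) * GG n Q ≤ 3 * X ^ (7 / 8 + 3 * η) := by
      calc X ^ (-(1:ℝ) / 8) * GG n Q ≤ X ^ (-(1:ℝ) / 8) * (3 * X ^ (1 + 3 * η)) :=
            mul_le_mul_of_nonneg_left hGGle ht.le
        _ = 3 * X ^ (-(1:ℝ) / 8 + (1 + 3 * η)) := by
            rw [hXadd (-(1:ℝ) / 8)]
            ring
        _ ≤ _ := mul_le_mul_of_nonneg_left (hXmono _ _ (by linarith)) (by norm_num)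
    have h8 : (1 + 1 / X ^ (-(1:ℝ) / 8)) * (n ^ 2 * q ^ (n - d + n / 2) +
        8 * q ^ (2 * (n / 3))) ≤ X ^ (7 / 8 + 3 * η) := by
      rw [h4]
      have hn2 : (1:ℝ) ≤ (n:ℝ) ^ 2 := one_le_pow₀ hnr
      have hX34 := hXpos ((3:ℝ) / 4)
      calc (1 + X ^ ((1:ℝ) / 8)) * (n ^ 2 * q ^ (n - d + n / 2) + 8 * q ^ (2 * (n / 3)))
          ≤ (2 * X ^ ((1:ℝ) / 8)) * (n ^ 2 * X ^ ((3:ℝ) / 4) + 8 * n ^ 2 * X ^ ((3:ℝ) / 4)) := by
            refine mul_le_mul (by linarith) (add_le_add ?_ ?_) (by positivity) (by positivity)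
            · exact mul_le_mul_of_nonneg_left hq34 (by positivity)
            · calc 8 * q ^ (2 * (n / 3)) ≤ 8 * X ^ ((3:ℝ) / 4) := by linarith
                _ = 8 * 1 * X ^ ((3:ℝ) / 4) := by ring
                _ ≤ 8 * n ^ 2 * X ^ ((3:ℝ) / 4) := by
                  refine mul_le_mul_of_nonneg_right ?_ hX34.le
                  linarith
        _ = (18 * n ^ 2) * (X ^ ((1:ℝ) / 8) * X ^ ((3:ℝ) / 4)) := by ring
        _ ≤ X ^ η * (X ^ ((1:ℝ) / 8) * X ^ ((3:ℝ) / 4)) := by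
            refine mul_le_mul_of_nonneg_right ?_ (by
              have h9 := hXpos ((1:ℝ) / 8)
              positivity)
            exact hpoly' _ _ (by norm_num) (by
              rw [hC₁]
              linarith [Real.add_one_le_exp (18:ℝ)]) (by omega)
        _ = X ^ (η + (1 / 8 + 3 / 4)) := by rw [hXadd η, hXadd (1 / 8)]
        _ ≤ _ := hXmono _ _ (by linarith)
    have h9 : 4 * X ^ (7 / 8 + 3 * η) ≤ X ^ (1 - η) / 4 := by
      have e1 : X ^ (1 - η) = X ^ (7 / 8 + 3 * η) * X ^ (1 / 8 - 4 * η) := by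
        rw [← hXadd]
        congr 1
        ring
      have h11 : 16 ≤ X ^ (1 / 8 - 4 * η) := hXη.trans (hXmono _ _ (by rw [hη]; linarith))
      have h12 := hXpos (7 / 8 + 3 * η)
      rw [e1]
      nlinarith
    calc |GV n Q - main Q| = |(GV n Q - GG n Q) + (GG n Q - main Q)| := by ring_nf
      _ ≤ |GV n Q - GG n Q| + |GG n Q - main Q| := abs_add_le _ _
      _ ≤ _ := by linarith
  -- the exceptional set
  set E := (Mon F d).filter (fun Q => q ^ n * (q ^ n) ^ (-η) + EQ n Q < |GV n Q - main Q|) with hE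
  have h1 := sum_erQ_sq hdn S hS hBtau
  rw [← hqd, ← hK₀] at h1
  have hXX : q ^ n * (q ^ n) ^ (-η) = X ^ (1 - η) := by
    rw [← hX, sub_eq_add_neg, hXadd, Real.rpow_one]
  have h2 : (E.card : ℝ) * (X ^ (1 - η) / 2) ^ 2 ≤ q ^ (n - d) * (B * (K₀ * (n:ℝ) ^ 3 *
      q ^ (2 * n + n - n / 2))) := by
    refine le_trans ?_ h1
    rw [← nsmul_eq_mul]
    refine le_trans (card_nsmul_le_sum E (fun Q => erQ n S Q ^ 2) _ (fun Q hQ => ?_)) ?_
    · rw [hE, mem_filter, hXX] at hQ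
      have h4 : X ^ (1 - η) / 2 ≤ |erQ n S Q| := by
        by_contra hcon
        rw [not_le] at hcon
        exact absurd (hpt2 Q hQ.1 hcon) (not_le.mpr hQ.2)
      rw [← sq_abs (erQ n S Q)]
      exact pow_le_pow_left₀ (by have := hXpos (1 - η); positivity) h4 2
    · exact sum_le_sum_of_subset_of_nonneg (filter_subset _ _) (fun _ _ _ => sq_nonneg _)
  have h3 : q ^ (2 * n + n - n / 2) ≤ X ^ (5 / 2 + η) := by
    apply hup
    have h4 : 2 * (2 * n + n - n / 2) ≤ 5 * n + 1 := by omega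
    have h5 : (2:ℝ) * ((2 * n + n - n / 2 : ℕ) : ℝ) ≤ 5 * n + 1 := by exact_mod_cast h4
    nlinarith
  have h4 : q ^ (n - d) ≤ X ^ (1 / 4 - ε) := by
    apply hup
    rw [hm]
    nlinarith
  have h5 : X ^ (3 / 4 + ε) ≤ q ^ d := by
    apply hlow
    linarith
  have h6 : q ^ (n - d) * (B * (K₀ * (n:ℝ) ^ 3 * q ^ (2 * n + n - n / 2))) ≤
      (q ^ d * X ^ (-η)) * (X ^ (1 - η) / 2) ^ 2 := by
    calc q ^ (n - d) * (B * (K₀ * (n:ℝ) ^ 3 * q ^ (2 * n + n - n / 2)))
        ≤ X ^ (1 / 4 - ε) * (B * (K₀ * (n:ℝ) ^ 3 * X ^ (5 / 2 + η))) := by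
          refine mul_le_mul h4 ?_ (by positivity) (hXpos _).le
          exact mul_le_mul_of_nonneg_left (mul_le_mul_of_nonneg_left h3 (by positivity)) hB0.le
      _ = (4 * K₀ * (n:ℝ) ^ (2 ^ κ + 3)) * (X ^ (1 / 4 - ε) * X ^ η * X ^ (5 / 2 + η)) / 4 := by
          rw [hB, pow_add]
          ring
      _ ≤ X ^ η * (X ^ (1 / 4 - ε) * X ^ η * X ^ (5 / 2 + η)) / 4 := by
          refine div_le_div_of_nonneg_right ?_ (by norm_num)
          refine mul_le_mul_of_nonneg_right ?_ (by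
            have h7 := hXpos η
            have h8 := hXpos (1 / 4 - ε)
            have h9 := hXpos (5 / 2 + η)
            positivity)
          exact hpoly' _ _ (by positivity) (by rw [hC₁]; linarith [Real.exp_pos 18]) (by
            have : 2 ^ κ ≤ 2 * 2 ^ κ := by omega
            omega)
      _ = X ^ (η + (1 / 4 - ε + η + (5 / 2 + η))) / 4 := by
          rw [hXadd η, hXadd (1 / 4 - ε + η), hXadd (1 / 4 - ε)]
      _ ≤ X ^ (3 / 4 + ε + -η + ((1 - η) + (1 - η))) / 4 := by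
          refine div_le_div_of_nonneg_right (hXmono _ _ ?_) (by norm_num)
          rw [hη]
          linarith
      _ = (X ^ (3 / 4 + ε) * X ^ (-η)) * (X ^ (1 - η) / 2) ^ 2 := by
          rw [hXadd (3 / 4 + ε + -η), hXadd (3 / 4 + ε), hXadd (1 - η)]
          ring
      _ ≤ _ := by
          refine mul_le_mul_of_nonneg_right ?_ (by positivity)
          exact mul_le_mul_of_nonneg_right h5 (hXpos _).le
  have h7 : 0 < (X ^ (1 - η) / 2) ^ 2 := by
    have := hXpos (1 - η)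
    positivity
  exact le_of_mul_le_mul_right (h2.trans h6) h7

end Pool.Agent.H523.CM
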