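import Pool.Agent.H523.CM5

set_option autoImplicit false
set_option linter.unusedSectionVars false

/-! # Models of the primes: local mean squares and Fourier coefficients -/

namespace Pool.Agent.H523.CM

open Polynomial Finset
open Pool.Agent.H341R2.Sharp (Mon mem_Mon)
open Pool.Agent.H523.FF (Ir mem_Ir PL mem_PL card_PL two_le_card IrLE mem_IrLE irr_coprime PL_mod)

open scoped Classical

variable {F : Type} [Field F] [Fintype F]

/-- `1 / (|P| - 1)` -/
noncomputable def gP (P : F[X]) : ℝ := 1 / ((Fintype.card F : ℝ) ^ P.natDegree - 1)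

theorem gP_pos {P : F[X]} (hP : Irreducible P) : 0 < gP P := by
  have := norm_gt hP
  unfold gP
  exact one_div_pos.mpr (by linarith)

theorem aP_periodic {P x y : F[X]} (h : P ∣ x - y) : aP P x = aP P y := by
  unfold aP
  have : P ∣ x ↔ P ∣ y := by
    constructor
    · intro hx
      have := dvd_sub hx h
      rwa [sub_sub_cancel] at this
    · intro hy
      have := dvd_add h hy
      rwa [sub_add_cancel] at this
  simp only [this]

/-- sums over the residues modulo a prime of functions of the zero class -/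
theorem sum_residues {P : F[X]} (hP : P.Monic) (α β : ℝ) :
    ∑ b ∈ PL F P.natDegree, (if P ∣ b then α else β) =
      α + ((Fintype.card F : ℝ) ^ P.natDegree - 1) * β := by
  have h1 : ∀ b ∈ PL F P.natDegree, (if P ∣ b then α else β) = β + (if b = 0 then α - β else 0) := by
    intro b hb
    have h2 : P ∣ b ↔ b = 0 := by
      constructor
      · intro h
        by_contra h0
        have h3 := degree_le_of_dvd h h0
        rw [mem_PL, ← degree_eq_natDegree hP.ne_zero] at hb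
        exact absurd h3 (not_le.mpr hb)
      · rintro rfl; exact dvd_zero _
    simp only [h2]
    split_ifs <;> ring
  rw [sum_congr rfl h1, sum_add_distrib, sum_const, sum_ite_eq' , card_PL, nsmul_eq_mul, if_pos (by
    rw [mem_PL, degree_zero]; exact WithBot.bot_lt_coe _)]
  push_cast
  ring

theorem sum_aP {P : F[X]} (hP : P.Monic) (hPI : Irreducible P) :
    ∑ b ∈ PL F P.natDegree, aP P b = 0 := by
  have h0 := norm_gt hPI
  have h1 : ∀ b : F[X], aP P b = if P ∣ b then -1 else gP P := by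
    intro b
    unfold aP gP
    split_ifs
    · rw [div_eq_iff (by linarith)]; ring
    · simp
  simp only [h1]
  rw [sum_residues hP]
  unfold gP
  field_simp
  ring_nf
  have h2 : (-1 + (Fintype.card F : ℝ) ^ P.natDegree) ≠ 0 := by linarith
  field_simp
  ring

theorem sum_aP_sq {P : F[X]} (hP : P.Monic) (hPI : Irreducible P) :
    ∑ b ∈ PL F P.natDegree, aP P b * aP P b = (Fintype.card F : ℝ) ^ P.natDegree * gP P := by
  have h0 := norm_gt hPI
  have h1 : ∀ b : F[X], aP P b * aP P b = if P ∣ b then 1 else gP P * gP P := by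
    intro b
    unfold aP gP
    split_ifs
    · field_simp
      have : (Fintype.card F : ℝ) ^ P.natDegree - 1 ≠ 0 := by linarith
      field_simp
      ring
    · simp
  simp only [h1]
  rw [sum_residues hP]
  unfold gP
  have : (Fintype.card F : ℝ) ^ P.natDegree - 1 ≠ 0 := by linarith
  field_simp
  ring

/-- orthogonality of the Ramanujan sums on discs -/
theorem orthogonality {s t : Finset F[X]} (hs : ∀ P ∈ s, P.Monic ∧ Irreducible P)
    (ht : ∀ P ∈ t, P.Monic ∧ Irreducible P) {m : ℕ} (hm : ∑ P ∈ s ∪ t, P.natDegree ≤ m) (f : F[X]) :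
    ∑ g ∈ PL F m, (∏ P ∈ s, aP P (f + g)) * (∏ P ∈ t, aP P (f + g)) =
      if s = t then (Fintype.card F : ℝ) ^ m * ∏ P ∈ s, gP P else 0 := by
  set φ : F[X] → F[X] → ℝ := fun P x => (if P ∈ s then aP P x else 1) * (if P ∈ t then aP P x else 1)
    with hφ
  have hu : ∀ P ∈ s ∪ t, P.Monic ∧ Irreducible P := by
    intro P hP
    rcases mem_union.mp hP with h | h
    · exact hs P h
    · exact ht P h
  have h1 : ∀ x : F[X], (∏ P ∈ s, aP P x) * (∏ P ∈ t, aP P x) = ∏ P ∈ s ∪ t, φ P x := by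
    intro x
    rw [hφ, prod_mul_distrib]
    congr 1
    · rw [prod_ite_mem]
      rw [union_inter_cancel_left]
    · rw [prod_ite_mem]
      rw [union_inter_cancel_right]
  simp only [h1]
  rw [independence hu hm φ (by
    intro P _ x y hxy
    simp only [hφ, aP_periodic hxy]) f]
  split_ifs with h
  · subst h
    rw [union_self]
    rw [union_self] at hm
    have h2 : ∀ P ∈ s, ∑ b ∈ PL F P.natDegree, φ P b = (Fintype.card F : ℝ) ^ P.natDegree * gP P := by
      intro P hP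
      simp only [hφ, if_pos hP]
      exact sum_aP_sq (hs P hP).1 (hs P hP).2
    rw [prod_congr rfl h2, prod_mul_distrib, prod_pow_eq_pow_sum]
    push_cast
    rw [← mul_assoc, ← pow_add, Nat.sub_add_cancel hm]
  · -- some prime is in exactly one of the sets
    have h3 : ∃ P ∈ s ∪ t, ∑ b ∈ PL F P.natDegree, φ P b = 0 := by
      have : ∃ P, ¬ (P ∈ s ↔ P ∈ t) := by
        by_contra hcon
        push Not at hcon
        exact h (Finset.ext hcon)
      obtain ⟨P, hP⟩ := this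
      by_cases hPs : P ∈ s
      · have hPt : P ∉ t := fun h' => hP ⟨fun _ => h', fun _ => hPs⟩
        refine ⟨P, mem_union_left _ hPs, ?_⟩
        simp only [hφ, if_pos hPs, if_neg hPt, mul_one]
        exact sum_aP (hs P hPs).1 (hs P hPs).2
      · have hPt : P ∈ t := by
          by_contra hPt
          exact hP ⟨fun h' => absurd h' hPs, fun h' => absurd h' hPt⟩
        refine ⟨P, mem_union_right _ hPt, ?_⟩
        simp only [hφ, if_neg hPs, if_pos hPt, one_mul]
        exact sum_aP (ht P hPt).1 (ht P hPt).2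
    obtain ⟨P, hP, h4⟩ := h3
    rw [prod_eq_zero hP h4, mul_zero]

/-- the model given by a collection of sets of primes -/
noncomputable def LS (𝒮 : Finset (Finset F[X])) (f : F[X]) : ℝ := ∑ s ∈ 𝒮, ∏ P ∈ s, aP P f

theorem Lb_eq (r : ℕ) (f : F[X]) : Lb r f = LS (SF F r) f := rfl

/-- the mean square of a model on a disc -/
theorem LS_sq {𝒮 : Finset (Finset F[X])} (h𝒮 : ∀ s ∈ 𝒮, ∀ P ∈ s, P.Monic ∧ Irreducible P) {m : ℕ}
    (hm : ∀ s ∈ 𝒮, ∀ t ∈ 𝒮, ∑ P ∈ s ∪ t, P.natDegree ≤ m) (f : F[X]) :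
    ∑ g ∈ PL F m, (LS 𝒮 (f + g)) ^ 2 = (Fintype.card F : ℝ) ^ m * ∑ s ∈ 𝒮, ∏ P ∈ s, gP P := by
  have h1 : ∀ g : F[X], (LS 𝒮 (f + g)) ^ 2 = ∑ s ∈ 𝒮, ∑ t ∈ 𝒮,
      (∏ P ∈ s, aP P (f + g)) * (∏ P ∈ t, aP P (f + g)) := by
    intro g
    unfold LS
    rw [sq, sum_mul_sum]
  simp only [h1]
  rw [sum_comm, mul_sum]
  refine sum_congr rfl (fun s hs => ?_)
  rw [sum_comm, sum_congr rfl (fun t ht => orthogonality (h𝒮 s hs) (h𝒮 t ht) (hm s hs t ht) f),
    sum_ite_eq, if_pos hs]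

/-- the set of the monic polynomials of degree `n` as a disc -/
theorem sum_Mon_eq {R : Type} [AddCommMonoid R] (n : ℕ) (φ : F[X] → R) :
    ∑ f ∈ Mon F n, φ f = ∑ g ∈ PL F n, φ (X ^ n + g) := by
  symm
  refine sum_bij (fun g _ => X ^ n + g) ?_ (fun a _ b _ h => by simpa using h) ?_ (fun _ _ => rfl)
  · intro g hg
    rw [mem_Mon]
    have h := mem_PL.mp hg
    exact ⟨monic_X_pow_add h, by
      rw [natDegree_add_eq_left_of_degree_lt (by rw [degree_X_pow]; exact h), natDegree_X_pow]⟩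
  · intro f hf
    rw [mem_Mon] at hf
    refine ⟨f - X ^ n, ?_, by ring⟩
    rw [mem_PL]
    have h1 : (f - X ^ n).degree < f.degree := by
      refine degree_sub_lt_left ?_ hf.1.ne_zero ?_
      · rw [degree_X_pow, degree_eq_natDegree hf.1.ne_zero, hf.2]
      · rw [hf.1.leadingCoeff, (monic_X_pow n).leadingCoeff]
    rwa [degree_eq_natDegree hf.1.ne_zero, hf.2] at h1

/-- the mean square of a model -/
theorem LS_sq_Mon {𝒮 : Finset (Finset F[X])} (h𝒮 : ∀ s ∈ 𝒮, ∀ P ∈ s, P.Monic ∧ Irreducible P) {n : ℕ}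
    (hn : ∀ s ∈ 𝒮, ∀ t ∈ 𝒮, ∑ P ∈ s ∪ t, P.natDegree ≤ n) :
    ∑ f ∈ Mon F n, (LS 𝒮 f) ^ 2 = (Fintype.card F : ℝ) ^ n * ∑ s ∈ 𝒮, ∏ P ∈ s, gP P := by
  rw [sum_Mon_eq n (fun f => (LS 𝒮 f) ^ 2)]
  exact LS_sq h𝒮 hn (X ^ n)

theorem mertens {z : ℕ} (hz : 0 < z) : ∏ P ∈ IrLE F z, (1 + gP P) ≤ Real.exp 3 * z := by
  refine le_trans (le_of_eq ?_) (Pool.Agent.H523.FF.mertens_upper F z hz)
  refine prod_congr rfl (fun P hP => ?_)
  have h := norm_gt (mem_IrLE.mp hP).2.1
  unfold gP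
  rw [inv_pow]
  have h1 : (Fintype.card F : ℝ) ^ P.natDegree - 1 ≠ 0 := by linarith
  have h2 : (Fintype.card F : ℝ) ^ P.natDegree ≠ 0 := by linarith
  field_simp
  ring

theorem sum_gP_le {z : ℕ} (hz : 0 < z) {𝒮 : Finset (Finset F[X])}
    (h𝒮 : 𝒮 ⊆ (IrLE F z).powerset) : ∑ s ∈ 𝒮, ∏ P ∈ s, gP P ≤ Real.exp 3 * z := by
  refine le_trans ?_ (mertens (F := F) hz)
  rw [prod_one_add]
  apply sum_le_sum_of_subset_of_nonneg h𝒮
  intro s hs _
  exact prod_nonneg (fun P hP => (gP_pos (mem_IrLE.mp (mem_powerset.mp hs hP)).2.1).le)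

/-- **Rankin's trick** -/
theorem rankin {z r : ℕ} (hz : 0 < z) :
    ∑ s ∈ (IrLE F z).powerset \ SF F r, ∏ P ∈ s, gP P ≤
      (1 / 2 : ℝ) ^ (r / z) * (Real.exp 3 * z) ^ 2 := by
  have hzr : (0:ℝ) < z := by exact_mod_cast hz
  have hmem : ∀ s ∈ (IrLE F z).powerset \ SF F r, (∀ P ∈ s, P.Monic ∧ Irreducible P ∧ P.natDegree ≤ z) ∧
      r < ∑ P ∈ s, P.natDegree := by
    intro s hs
    rw [mem_sdiff, mem_powerset] at hs
    have h1 : ∀ P ∈ s, P.Monic ∧ Irreducible P ∧ P.natDegree ≤ z := fun P hP => mem_IrLE.mp (hs.1 hP)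
    refine ⟨h1, ?_⟩
    by_contra hcon
    push Not at hcon
    exact hs.2 (mem_SF.mpr ⟨fun P hP => ⟨(h1 P hP).1, (h1 P hP).2.1⟩, hcon⟩)
  have h2 : ∀ s ∈ (IrLE F z).powerset \ SF F r, ∏ P ∈ s, gP P ≤
      (1 / 2 : ℝ) ^ (r / z) * ∏ P ∈ s, (2 * gP P) := by
    intro s hs
    obtain ⟨hP, hr⟩ := hmem s hs
    -- the number of the primes is at least `r / z`
    have hcard : r / z ≤ s.card := by
      have h3 : ∑ P ∈ s, P.natDegree ≤ s.card * z := by
        calc ∑ P ∈ s, P.natDegree ≤ ∑ _P ∈ s, z := sum_le_sum (fun P h => (hP P h).2.2)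
          _ = s.card * z := by rw [sum_const, smul_eq_mul]
      exact Nat.div_le_of_le_mul (by rw [mul_comm]; omega)
    rw [prod_mul_distrib, prod_const]
    have h4 : 0 ≤ ∏ P ∈ s, gP P := prod_nonneg (fun P h => (gP_pos (hP P h).2.1).le)
    have h5 : (1:ℝ) ≤ (1 / 2 : ℝ) ^ (r / z) * 2 ^ s.card := by
      have h6 : (1 / 2 : ℝ) ^ (r / z) * 2 ^ (r / z) = 1 := by
        rw [← mul_pow]; norm_num
      calc (1:ℝ) = (1 / 2 : ℝ) ^ (r / z) * 2 ^ (r / z) := h6.symm
        _ ≤ _ := mul_le_mul_of_nonneg_left (pow_le_pow_right₀ (by norm_num) hcard) (by positivity)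
    calc ∏ P ∈ s, gP P = 1 * ∏ P ∈ s, gP P := (one_mul _).symm
      _ ≤ ((1 / 2 : ℝ) ^ (r / z) * 2 ^ s.card) * ∏ P ∈ s, gP P :=
          mul_le_mul_of_nonneg_right h5 h4
      _ = _ := by ring
  calc ∑ s ∈ (IrLE F z).powerset \ SF F r, ∏ P ∈ s, gP P
      ≤ ∑ s ∈ (IrLE F z).powerset \ SF F r, (1 / 2 : ℝ) ^ (r / z) * ∏ P ∈ s, (2 * gP P) :=
        sum_le_sum h2
    _ ≤ ∑ s ∈ (IrLE F z).powerset, (1 / 2 : ℝ) ^ (r / z) * ∏ P ∈ s, (2 * gP P) := by
        apply sum_le_sum_of_subset_of_nonneg sdiff_subset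
        intro s hs _
        have : 0 ≤ ∏ P ∈ s, (2 * gP P) := prod_nonneg (fun P hP => by
          have := (gP_pos (mem_IrLE.mp (mem_powerset.mp hs hP)).2.1).le
          linarith)
        positivity
    _ = (1 / 2 : ℝ) ^ (r / z) * ∏ P ∈ IrLE F z, (1 + 2 * gP P) := by
        rw [← mul_sum, prod_one_add]
    _ ≤ (1 / 2 : ℝ) ^ (r / z) * (∏ P ∈ IrLE F z, (1 + gP P)) ^ 2 := by
        apply mul_le_mul_of_nonneg_left _ (by positivity)
        rw [← prod_pow]
        apply prod_le_prod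
        · intro P hP
          have := gP_pos (mem_IrLE.mp hP).2.1
          positivity
        · intro P _
          nlinarith [sq_nonneg (gP P)]
    _ ≤ (1 / 2 : ℝ) ^ (r / z) * (Real.exp 3 * z) ^ 2 := by
        apply mul_le_mul_of_nonneg_left _ (by positivity)
        apply pow_le_pow_left₀ _ (mertens hz)
        exact prod_nonneg (fun P hP => by
          have := gP_pos (mem_IrLE.mp hP).2.1
          positivity)

end Pool.Agent.H523.CM
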