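import Pool.Agent.H523.CM58

set_option autoImplicit false
set_option linter.unusedSectionVars false

/-! # The zeros of the L-functions of the characters modulo a polynomial -/

namespace Pool.Agent.H523.CM

open Polynomial Finset Filter
open Pool.Agent.H341R2.Sharp (Mon mem_Mon Mon_zero Irr mem_Irr)
open Pool.Agent.H523.FF (Ir mem_Ir PL mem_PL card_PL two_le_card IrLE mem_IrLE irr_coprime PL_mod
  Ir_card sum_IrLE)
open Pool.Agent.Q284 Pool.Agent.Q284.WE
open Pool.Agent.H435R3.Weil (AL TL AL_zero n_mul_AL)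
open Pool.Agent.Q265.WE (lin Pz Eu Eu_prod coeff_Pz_sum AL_eq_zero)

open scoped Classical

section Newton

/-- a polynomial with constant term one is the product of the `1 - X / r`, `r` the roots -/
theorem factor' (a : ℂ[X]) (ha : a.coeff 0 = 1) :
    (a : PowerSeries ℂ) = ((a.roots.map (fun r => r⁻¹)).map lin).prod := by
  have ha0 : a ≠ 0 := by
    rintro rfl
    simp at ha
  have hs := (IsAlgClosed.splits a).eq_prod_roots
  have hroot : ∀ r ∈ a.roots, r ≠ 0 := by
    rintro r hr rfl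
    rw [mem_roots ha0, IsRoot.def, ← coeff_zero_eq_eval_zero, ha] at hr
    exact one_ne_zero hr
  have hfac : ∀ s : Multiset ℂ, (∀ r ∈ s, r ≠ 0) → ∃ c : ℂ, (((s.map (fun r => X - C r)).prod : ℂ[X]) : PowerSeries ℂ) =
      PowerSeries.C c * ((s.map (fun r => r⁻¹)).map lin).prod := by
    intro s
    induction s using Multiset.induction_on with
    | empty => intro _; exact ⟨1, by simp⟩
    | cons w s ih =>
      intro h
      obtain ⟨c, hc⟩ := ih (fun r hr => h r (Multiset.mem_cons_of_mem hr))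
      have hw : w ≠ 0 := h w (Multiset.mem_cons_self _ _)
      refine ⟨-w * c, ?_⟩
      rw [Multiset.map_cons, Multiset.prod_cons, Polynomial.coe_mul, hc, Multiset.map_cons, Multiset.map_cons, Multiset.prod_cons]
      have h1 : ((X - C w : ℂ[X]) : PowerSeries ℂ) = PowerSeries.C (-w) * lin w⁻¹ := by
        unfold lin
        rw [Polynomial.coe_sub, coe_X, coe_C, mul_sub, mul_one, ← mul_assoc, ← map_mul, neg_mul, mul_inv_cancel₀ hw]
        simp
        ring
      rw [h1, map_mul]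
      ring
  obtain ⟨c, hc⟩ := hfac a.roots hroot
  have h2 : (a : PowerSeries ℂ) = PowerSeries.C (a.leadingCoeff * c) * ((a.roots.map (fun r => r⁻¹)).map lin).prod := by
    conv_lhs => rw [hs]
    rw [Polynomial.coe_mul, hc, coe_C, map_mul]
    ring
  have h3 : a.leadingCoeff * c = 1 := by
    have h4 := congrArg (PowerSeries.constantCoeff (R := ℂ)) h2
    rw [map_mul, PowerSeries.constantCoeff_C, map_multiset_prod, Multiset.map_map, constantCoeff_coe, ha] at h4
    have h5 : ((a.roots.map (fun r => r⁻¹)).map (PowerSeries.constantCoeff (R := ℂ) ∘ lin)) =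
        (a.roots.map (fun r => r⁻¹)).map (fun _ => (1 : ℂ)) := by
      apply Multiset.map_congr rfl
      intro x _
      simp [lin]
    rw [h5, Multiset.map_const', Multiset.prod_replicate, one_pow, mul_one] at h4
    exact h4.symm
  rw [h2, h3, map_one, one_mul]

/-- Newton's identities with the roots -/
theorem newton' (a : ℂ[X]) (ha : a.coeff 0 = 1) (S : ℕ → ℂ)
    (hid : ∀ n : ℕ, (n : ℂ) * a.coeff n = ∑ m ∈ Icc 1 n, a.coeff (n - m) * S m) :
    ∀ m : ℕ, 1 ≤ m → S m = -(a.roots.map (fun r => r⁻¹ ^ m)).sum := by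
  have hprod := factor' a ha
  set s := a.roots.map (fun r => r⁻¹) with hs
  have hE := Eu_prod s
  rw [← hprod] at hE
  have hT : Eu (a : PowerSeries ℂ) = (a : PowerSeries ℂ) * PowerSeries.mk (fun m => if m = 0 then 0 else S m) := by
    ext n
    unfold Eu
    rw [PowerSeries.coeff_mk, coeff_coe, hid, PowerSeries.coeff_mul, Nat.sum_antidiagonal_eq_sum_range_succ_mk]
    rw [← sum_range_reflect]
    have h3 : (range (n + 1)).filter (fun m => m ≠ 0) = Icc 1 n := by
      ext m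
      simp only [mem_filter, mem_range, mem_Icc]
      omega
    rw [← h3, sum_filter]
    apply sum_congr rfl
    intro m hm
    rw [mem_range] at hm
    rw [coeff_coe, PowerSeries.coeff_mk]
    have e1 : n + 1 - 1 - m = n - m := by omega
    have e2 : n - (n - m) = m := by omega
    rw [e1, e2]
    by_cases h0 : m = 0
    · simp [h0]
    · rw [if_pos h0, if_neg h0]
  have ha0 : (a : PowerSeries ℂ) ≠ 0 := by
    rw [Ne, coe_eq_zero_iff]
    rintro rfl
    simp at ha
  have h1 : PowerSeries.mk (fun m => if m = 0 then 0 else S m) = -(s.map Pz).sum := by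
    apply mul_left_cancel₀ ha0
    rw [← hT, hE]
    ring
  intro m hm
  have h2 := congrArg (PowerSeries.coeff (R := ℂ) m) h1
  rw [PowerSeries.coeff_mk, if_neg (by omega), map_neg, coeff_Pz_sum _ _ (by omega), hs,
    Multiset.map_map] at h2
  exact h2

end Newton

variable {F : Type} [Field F] [Fintype F] {Q : F[X]}

variable (Q) in
/-- the character as a function of the polynomials -/
noncomputable def cq (χ : MulChar (AdjoinRoot Q) ℂ) (f : F[X]) : ℂ :=
  if f.Monic then χ (AdjoinRoot.mk Q f) else 0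

theorem cq_monic (χ : MulChar (AdjoinRoot Q) ℂ) {f : F[X]} (hf : f.Monic) :
    cq Q χ f = χ (AdjoinRoot.mk Q f) := by
  unfold cq
  rw [if_pos hf]

theorem cq_hay (hQ : Q.Monic) (χ : MulChar (AdjoinRoot Q) ℂ) : PS.Hay Q 0 (cq Q χ) := by
  have := RH.finite_adjoinRoot hQ
  constructor
  · exact hQ
  · intro f hf
    unfold cq
    rw [if_neg hf]
  · rw [cq_monic χ monic_one, map_one, map_one]
  · intro f g hf hg
    rw [cq_monic χ hf, cq_monic χ hg, cq_monic χ (hf.mul hg), map_mul, map_mul]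
  · intro f hf hc
    rw [cq_monic χ hf]
    exact RH.norm_char χ (RH.isUnit_mk_iff.mpr hc)
  · intro f hf hc
    rw [cq_monic χ hf]
    exact χ.map_nonunit (fun h => hc (RH.isUnit_mk_iff.mp h))
  · intro f g hf hg h1 _
    rw [cq_monic χ hf, cq_monic χ hg]
    congr 1
    exact AdjoinRoot.mk_eq_mk.mpr h1

theorem monic_rep (hQ : Q.Monic) (h : F[X]) : (h %ₘ Q + Q).Monic ∧
    AdjoinRoot.mk Q (h %ₘ Q + Q) = AdjoinRoot.mk Q h := by
  constructor
  · rw [add_comm]
    exact hQ.add_of_left (degree_modByMonic_lt h hQ)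
  · rw [AdjoinRoot.mk_eq_mk]
    refine ⟨1 - h /ₘ Q, ?_⟩
    have := modByMonic_add_div h Q
    calc h %ₘ Q + Q - h = h %ₘ Q + Q - (h %ₘ Q + Q * (h /ₘ Q)) := by rw [this]
      _ = _ := by ring

theorem cq_nonpr (hQ : Q.Monic) {χ : MulChar (AdjoinRoot Q) ℂ} (hχ : χ ≠ 1) :
    NonPr Q (cq Q χ) := by
  by_contra hcon
  apply hχ
  ext u
  rw [MulChar.one_apply_coe]
  by_contra hne
  apply hcon
  obtain ⟨h, hh⟩ := AdjoinRoot.mk_surjective (u : AdjoinRoot Q)
  obtain ⟨h1, h2⟩ := monic_rep hQ h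
  refine ⟨h %ₘ Q + Q, h1, ?_, ?_⟩
  · rw [← RH.isUnit_mk_iff, h2, hh]
    exact u.isUnit
  · rw [cq_monic χ h1, h2, hh]
    exact hne

variable (Q) in
/-- the L-function, a polynomial -/
noncomputable def Lp (χ : MulChar (AdjoinRoot Q) ℂ) : ℂ[X] :=
  ∑ k ∈ range Q.natDegree, C (∑ f ∈ Mon F k, χ (AdjoinRoot.mk Q f)) * X ^ k

theorem Lp_coeff (χ : MulChar (AdjoinRoot Q) ℂ) (n : ℕ) :
    (Lp Q χ).coeff n = if n < Q.natDegree then ∑ f ∈ Mon F n, χ (AdjoinRoot.mk Q f) else 0 := by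
  unfold Lp
  rw [finsetSum_coeff]
  simp_rw [coeff_C_mul_X_pow]
  by_cases hn : n < Q.natDegree
  · rw [if_pos hn, sum_eq_single n]
    · rw [if_pos rfl]
    · intro m _ hm
      rw [if_neg (Ne.symm hm)]
    · intro h
      exact absurd (mem_range.2 hn) h
  · rw [if_neg hn, sum_eq_zero]
    intro m hm
    rw [mem_range] at hm
    rw [if_neg (by omega)]

theorem AL_cq (χ : MulChar (AdjoinRoot Q) ℂ) (n : ℕ) :
    AL (cq Q χ) n = ∑ f ∈ Mon F n, χ (AdjoinRoot.mk Q f) := by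
  unfold AL
  exact sum_congr rfl (fun f hf => cq_monic χ (mem_Mon.mp hf).1)

theorem Lp_coeff' (hQ : Q.Monic) {χ : MulChar (AdjoinRoot Q) ℂ} (hχ : χ ≠ 1) (n : ℕ) :
    (Lp Q χ).coeff n = AL (cq Q χ) n := by
  rw [Lp_coeff]
  split_ifs with h
  · rw [AL_cq]
  · have := AL_eq_zero (cq_hay hQ χ) (cq_nonpr hQ hχ) (n := n) (by omega)
    unfold AL
    exact this.symm

theorem Lp_zero (hd : 0 < Q.natDegree) (χ : MulChar (AdjoinRoot Q) ℂ) :
    (Lp Q χ).coeff 0 = 1 := by
  rw [Lp_coeff, if_pos hd, Mon_zero, sum_singleton, map_one, map_one]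

/-- the sums over the prime powers and the zeros -/
theorem trc_eq (hQ : Q.Monic) (hd : 0 < Q.natDegree) {χ : MulChar (AdjoinRoot Q) ℂ} (hχ : χ ≠ 1)
    {m : ℕ} (hm : 1 ≤ m) :
    trc (cq Q χ) m = -((Lp Q χ).roots.map (fun r => r⁻¹ ^ m)).sum := by
  have hay := cq_hay hQ χ
  rw [← newton' (Lp Q χ) (Lp_zero hd χ) (fun m => TL (cq Q χ) m) (by
    intro n
    simp_rw [Lp_coeff' hQ hχ]
    exact n_mul_AL (cq Q χ) hay.one hay.mul n) m hm]
  unfold trc TL
  refine sum_congr ?_ (fun _ _ => rfl)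
  ext P
  unfold PS.PD
  simp only [mem_filter, mem_biUnion, mem_range, mem_Mon, mem_Irr]
  constructor
  · rintro ⟨⟨k, hk1, hk2, hk3⟩, hk4, hk5⟩
    exact ⟨⟨hk2, hk4, by omega⟩, hk5⟩
  · rintro ⟨⟨h1, h2, h3⟩, h4⟩
    exact ⟨⟨P.natDegree, by omega, h1, rfl⟩, h2, h4⟩

/-- power sums of bounded size have small terms -/
theorem norm_le_of_powerSum (s : Multiset ℂ) (C r : ℝ) (hr : 0 < r)
    (h : ∀ m : ℕ, 1 ≤ m → ‖(s.map (fun z => z ^ m)).sum‖ ≤ C * r ^ m) : ∀ z ∈ s, ‖z‖ ≤ r := by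
  intro z hz
  by_contra hcon
  rw [not_le] at hcon
  have hlist : s = (s.toList : Multiset ℂ) := (Multiset.coe_toList s).symm
  set l := s.toList with hl
  have hzl : z ∈ l := by
    rw [hl, Multiset.mem_toList]
    exact hz
  obtain ⟨i, hi⟩ := List.get_of_mem hzl
  have hsum : ∀ m : ℕ, (s.map (fun z => z ^ m)).sum = ∑ j, (l.get j) ^ m := by
    intro m
    rw [hlist, Multiset.map_coe, Multiset.sum_coe, ← List.sum_ofFn]
    congr 1
    apply List.ext_get
    · simp
    · intro n h1 h2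
      simp
  have h1 : 1 < ‖z‖ / r := by rwa [lt_div_iff₀ hr, one_mul]
  obtain ⟨s₀, hs₀⟩ := pow_unbounded_of_one_lt (2 * C) h1
  obtain ⟨t, ht1, _, ht2⟩ := Pool.Agent.Q24.WE.t_REC l.length (fun j => l.get j) (s₀ + 1) (by omega)
  have h2 : ‖z‖ ^ t / 2 ≤ ‖∑ j, (l.get j) ^ t‖ := by
    have h3 : ‖z‖ ^ t / 2 ≤ ((l.get i) ^ t).re := by
      have := ht2 i
      rwa [hi] at this ⊢
    have h4 : ((l.get i) ^ t).re ≤ ∑ j, ((l.get j) ^ t).re := by
      apply single_le_sum (f := fun j => ((l.get j) ^ t).re) (fun j _ => ?_) (mem_univ i)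
      have := ht2 j
      have h5 : 0 ≤ ‖l.get j‖ ^ t / 2 := by positivity
      exact h5.trans this
    have h5 : ∑ j, ((l.get j) ^ t).re = (∑ j, (l.get j) ^ t).re := by
      rw [Complex.re_sum]
    calc ‖z‖ ^ t / 2 ≤ (∑ j, (l.get j) ^ t).re := by rw [← h5]; exact h3.trans h4
      _ ≤ _ := Complex.re_le_norm _
  have h3 := h t (by omega)
  rw [hsum] at h3
  have h4 : ‖z‖ ^ t ≤ 2 * C * r ^ t := by linarith
  have h5 : (‖z‖ / r) ^ t ≤ 2 * C := by
    rw [div_pow, div_le_iff₀ (by positivity)]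
    exact h4
  have h6 : (‖z‖ / r) ^ s₀ ≤ (‖z‖ / r) ^ t := pow_le_pow_right₀ h1.le (by omega)
  linarith

/-- Weil's bound for the zeros -/
theorem norm_root (hQ : Q.Monic) (hd : 0 < Q.natDegree) {χ : MulChar (AdjoinRoot Q) ℂ}
    (hχ : χ ≠ 1) {r : ℂ} (hr : r ∈ (Lp Q χ).roots) : ‖r⁻¹‖ ≤ √(Fintype.card F : ℝ) := by
  have hq := two_le_card (F := F)
  have h1 : ∀ z ∈ (Lp Q χ).roots.map (fun r => r⁻¹), ‖z‖ ≤ √(Fintype.card F : ℝ) := by
    apply norm_le_of_powerSum _ (Q.natDegree : ℝ) _ (Real.sqrt_pos.mpr (by linarith))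
    intro m hm
    rw [Multiset.map_map]
    have h2 := weil_hayes F Q 0 (cq Q χ) (cq_hay hQ χ) (cq_nonpr hQ hχ) m hm
    rw [trc_eq hQ hd hχ hm, norm_neg, add_zero] at h2
    exact h2
  exact h1 _ (Multiset.mem_map_of_mem _ hr)

end Pool.Agent.H523.CM
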