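import Pool.Agent.H523.CM60

set_option autoImplicit false
set_option linter.unusedSectionVars false

/-! # Parseval's identity for the characters modulo a polynomial -/

namespace Pool.Agent.H523.CM

open Polynomial Finset Filter
open Pool.Agent.H341R2.Sharp (Mon mem_Mon Mon_zero Irr mem_Irr)
open Pool.Agent.H523.FF (Ir mem_Ir PL mem_PL card_PL two_le_card IrLE mem_IrLE irr_coprime PL_mod
  Ir_card sum_IrLE)
open Pool.Agent.Q284 Pool.Agent.Q284.WE

open scoped Classical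

section Parseval

variable {B : Type} [CommRing B] [Finite B]

theorem conj_char (χ : MulChar B ℂ) (u : Bˣ) : (starRingEnd ℂ) (χ (u : B)) = χ (↑u⁻¹ : B) := by
  have key : ∀ z : ℂ, ((‖z‖ ^ 2 : ℝ) : ℂ) = z * (starRingEnd ℂ) z := by
    intro z
    rw [Complex.mul_conj, Complex.normSq_eq_norm_sq]
  have h1 : χ (u : B) * χ (↑u⁻¹ : B) = 1 := by rw [← map_mul, Units.mul_inv, map_one]
  have h2 : ‖χ (u : B)‖ = 1 := RH.norm_char χ (Units.isUnit _)
  have h3 : χ (u : B) * (starRingEnd ℂ) (χ (u : B)) = 1 := by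
    rw [← key, h2]; norm_num
  have h4 : χ (u : B) ≠ 0 := by
    intro h; rw [h, zero_mul] at h1; exact zero_ne_one h1
  exact mul_left_cancel₀ h4 (h3.trans h1.symm)

/-- Parseval's identity on the characters -/
theorem parseval2 [Fintype Bˣ] [Fintype (MulChar B ℂ)] (c : Bˣ → ℂ) :
    ∑ χ : MulChar B ℂ, ‖∑ u : Bˣ, c u * χ (u : B)‖ ^ 2 = (Nat.card Bˣ : ℝ) * ∑ u : Bˣ, ‖c u‖ ^ 2 := by
  have key : ∀ z : ℂ, ((‖z‖ ^ 2 : ℝ) : ℂ) = z * (starRingEnd ℂ) z := by
    intro z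
    rw [Complex.mul_conj, Complex.normSq_eq_norm_sq]
  have hC : ((∑ χ : MulChar B ℂ, ‖∑ u : Bˣ, c u * χ (u : B)‖ ^ 2 : ℝ) : ℂ) =
      (((Nat.card Bˣ : ℝ) * ∑ u : Bˣ, ‖c u‖ ^ 2 : ℝ) : ℂ) := by
    rw [Complex.ofReal_sum, sum_congr rfl (fun χ _ => key _)]
    have h1 : ∀ χ : MulChar B ℂ, (∑ u : Bˣ, c u * χ (u : B)) *
        (starRingEnd ℂ) (∑ u : Bˣ, c u * χ (u : B)) =
        ∑ u : Bˣ, ∑ v : Bˣ, c u * (starRingEnd ℂ) (c v) * (χ (↑v⁻¹ : B) * χ (u : B)) := by
      intro χ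
      rw [map_sum, sum_mul_sum]
      refine sum_congr rfl (fun u _ => sum_congr rfl (fun v _ => ?_))
      rw [map_mul, conj_char]
      ring
    rw [sum_congr rfl (fun χ _ => h1 χ), sum_comm]
    have h2 : ∀ u : Bˣ, ∑ χ : MulChar B ℂ, ∑ v : Bˣ,
        c u * (starRingEnd ℂ) (c v) * (χ (↑v⁻¹ : B) * χ (u : B)) =
        (Nat.card Bˣ : ℂ) * (c u * (starRingEnd ℂ) (c u)) := by
      intro u
      rw [sum_comm]
      have h3 : ∀ v : Bˣ, ∑ χ : MulChar B ℂ, c u * (starRingEnd ℂ) (c v) *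
          (χ (↑v⁻¹ : B) * χ (u : B)) =
          if v = u then (Nat.card Bˣ : ℂ) * (c u * (starRingEnd ℂ) (c u)) else 0 := by
        intro v
        rw [← mul_sum, RH.detect v (u : B)]
        by_cases h : v = u
        · rw [if_pos h, if_pos (by rw [h]), h]
          ring
        · rw [if_neg h, if_neg (fun h' => h (Units.ext h'.symm)), mul_zero]
      rw [sum_congr rfl (fun v _ => h3 v), sum_ite_eq' univ u, if_pos (mem_univ u)]
    rw [sum_congr rfl (fun u _ => h2 u), ← mul_sum, Complex.ofReal_mul, Complex.ofReal_natCast,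
      Complex.ofReal_sum]
    congr 1
    exact sum_congr rfl (fun u _ => (key _).symm)
  exact_mod_cast hC

end Parseval

variable {F : Type} [Field F] [Fintype F] {Q : F[X]}

/-- Parseval's identity for a weighted sum over polynomials -/
theorem parseval_poly (hQ : Q.Monic) [Fintype (AdjoinRoot Q)ˣ] [Fintype (MulChar (AdjoinRoot Q) ℂ)]
    (T : Finset F[X]) (w : F[X] → ℝ) :
    ∑ χ : MulChar (AdjoinRoot Q) ℂ, ‖∑ f ∈ T, (w f : ℂ) * χ (AdjoinRoot.mk Q f)‖ ^ 2 =
      (Nat.card (AdjoinRoot Q)ˣ : ℝ) * ∑ u : (AdjoinRoot Q)ˣ,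
        (∑ f ∈ T.filter (fun f => AdjoinRoot.mk Q f = u), w f) ^ 2 := by
  have := RH.finite_adjoinRoot hQ
  have h1 : ∀ χ : MulChar (AdjoinRoot Q) ℂ, ∑ f ∈ T, (w f : ℂ) * χ (AdjoinRoot.mk Q f) =
      ∑ u : (AdjoinRoot Q)ˣ, ((∑ f ∈ T.filter (fun f => AdjoinRoot.mk Q f = u), w f : ℝ) : ℂ) *
        χ (u : AdjoinRoot Q) := by
    intro χ
    have h2 : ∀ u : (AdjoinRoot Q)ˣ, ((∑ f ∈ T.filter (fun f => AdjoinRoot.mk Q f = u), w f : ℝ) : ℂ) *
        χ (u : AdjoinRoot Q) = ∑ f ∈ T, if AdjoinRoot.mk Q f = u then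
          (w f : ℂ) * χ (AdjoinRoot.mk Q f) else 0 := by
      intro u
      rw [← sum_filter, Complex.ofReal_sum, sum_mul]
      refine sum_congr rfl (fun f hf => ?_)
      rw [(mem_filter.mp hf).2]
    rw [sum_congr rfl (fun u _ => h2 u), sum_comm]
    refine sum_congr rfl (fun f _ => ?_)
    by_cases hu : IsUnit (AdjoinRoot.mk Q f)
    · obtain ⟨u, hu⟩ := hu
      rw [sum_eq_single_of_mem u (mem_univ u)]
      · rw [if_pos hu.symm]
      · intro v _ hv
        rw [if_neg]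
        intro h
        exact hv (Units.ext (by rw [← h, hu]))
    · rw [χ.map_nonunit hu, mul_zero]
      symm
      apply sum_eq_zero
      intro u _
      split_ifs <;> rfl
  rw [sum_congr rfl (fun χ _ => by rw [h1 χ]), parseval2]
  congr 1
  refine sum_congr rfl (fun u _ => ?_)
  rw [Complex.norm_real, Real.norm_eq_abs, sq_abs]

theorem mk_inj (hQ : Q.Monic) {f g : F[X]} (h : (f - g).degree < Q.degree)
    (hfg : AdjoinRoot.mk Q f = AdjoinRoot.mk Q g) : f = g := by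
  rw [AdjoinRoot.mk_eq_mk] at hfg
  by_contra hne
  have := degree_le_of_dvd hfg (sub_ne_zero.mpr hne)
  exact absurd h (not_lt.mpr this)

/-- the sum over the units for an injective set of units -/
theorem sum_units_inj (hQ : Q.Monic) [Fintype (AdjoinRoot Q)ˣ]
    (T : Finset F[X]) (w : F[X] → ℝ)
    (hinj : ∀ f ∈ T, ∀ g ∈ T, AdjoinRoot.mk Q f = AdjoinRoot.mk Q g → f = g)
    (hunit : ∀ f ∈ T, w f ≠ 0 → IsCoprime f Q) :
    ∑ u : (AdjoinRoot Q)ˣ, (∑ f ∈ T.filter (fun f => AdjoinRoot.mk Q f = u), w f) ^ 2 =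
      ∑ f ∈ T, w f ^ 2 := by
  have h1 : ∀ u : (AdjoinRoot Q)ˣ, (∑ f ∈ T.filter (fun f => AdjoinRoot.mk Q f = u), w f) ^ 2 =
      ∑ f ∈ T, if AdjoinRoot.mk Q f = u then w f ^ 2 else 0 := by
    intro u
    rw [← sum_filter]
    rcases (T.filter (fun f => AdjoinRoot.mk Q f = (u : AdjoinRoot Q))).eq_empty_or_nonempty with
      h | ⟨f, hf⟩
    · rw [h, sum_empty, sum_empty]
      norm_num
    · have h2 : T.filter (fun f => AdjoinRoot.mk Q f = (u : AdjoinRoot Q)) = {f} := by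
        ext g
        rw [mem_singleton]
        constructor
        · intro hg
          rw [mem_filter] at hf hg
          exact hinj g hg.1 f hf.1 (by rw [hg.2, hf.2])
        · rintro rfl
          exact hf
      rw [h2, sum_singleton, sum_singleton]
  rw [sum_congr rfl (fun u _ => h1 u), sum_comm]
  refine sum_congr rfl (fun f hf => ?_)
  by_cases hw : w f = 0
  · rw [hw]
    simp
  · obtain ⟨u, hu⟩ := RH.isUnit_mk_iff.mpr (hunit f hf hw)
    rw [sum_eq_single_of_mem u (mem_univ u)]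
    · rw [if_pos hu.symm]
    · intro v _ hv
      rw [if_neg]
      intro h
      exact hv (Units.ext (by rw [← h, hu]))

/-- the characters which are trivial on the constants -/
def EvenC (χ : MulChar (AdjoinRoot Q) ℂ) : Prop :=
  ∀ c : F, c ≠ 0 → χ (AdjoinRoot.mk Q (C c)) = 1

theorem mkC_ne (hQ : Q.Monic) (hd : 0 < Q.natDegree) {c c' : F}
    (h : AdjoinRoot.mk Q (C c) = AdjoinRoot.mk Q (C c')) : c = c' := by
  apply C_injective
  apply mk_inj hQ _ h
  rw [← C_sub]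
  refine lt_of_le_of_lt degree_C_le ?_
  rw [degree_eq_natDegree hQ.ne_zero]
  exact_mod_cast hd

theorem card_even (hQ : Q.Monic) (hd : 0 < Q.natDegree) [Fintype (MulChar (AdjoinRoot Q) ℂ)] :
    ((Fintype.card F : ℝ) - 1) * ((univ.filter (fun χ : MulChar (AdjoinRoot Q) ℂ => EvenC χ)).card : ℝ)
      = (Nat.card (AdjoinRoot Q)ˣ : ℝ) := by
  have := RH.finite_adjoinRoot hQ
  have hne : ∀ c : Fˣ, c ≠ 1 → AdjoinRoot.mk Q (C (c : F)) ≠ 1 := by
    intro c hc h
    apply hc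
    apply Units.ext
    rw [Units.val_one]
    apply mkC_ne hQ hd
    rw [h, C_1, map_one]
  have h1 : ∑ c : Fˣ, ∑ χ : MulChar (AdjoinRoot Q) ℂ, χ (AdjoinRoot.mk Q (C (c : F))) =
      (Nat.card (AdjoinRoot Q)ˣ : ℂ) := by
    rw [sum_eq_single_of_mem (1 : Fˣ) (mem_univ _)]
    · rw [Units.val_one, C_1, map_one]
      exact RH.sum_char_one
    · intro c _ hc
      exact RH.sum_char_ne (hne c hc)
  rw [sum_comm] at h1
  have h2 : ∀ χ : MulChar (AdjoinRoot Q) ℂ, ∑ c : Fˣ, χ (AdjoinRoot.mk Q (C (c : F))) =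
      if EvenC χ then ((Fintype.card F : ℂ) - 1) else 0 := by
    intro χ
    split_ifs with h
    · rw [sum_congr rfl (fun (c : Fˣ) _ => h (c : F) c.ne_zero), sum_const, nsmul_eq_mul, mul_one, card_univ,
        Fintype.card_units, Nat.cast_sub (by have := Fintype.one_lt_card (α := F); omega)]
      norm_num
    · unfold EvenC at h
      push Not at h
      obtain ⟨c₀, hc₀, h3⟩ := h
      set u₀ : Fˣ := Units.mk0 c₀ hc₀ with hu₀
      have h4 : ∑ c : Fˣ, χ (AdjoinRoot.mk Q (C (c : F))) =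
          ∑ c : Fˣ, χ (AdjoinRoot.mk Q (C ((u₀ * c : Fˣ) : F))) :=
        (Fintype.sum_equiv (Equiv.mulLeft u₀) _ _ (fun u => rfl)).symm
      have h5 : ∑ c : Fˣ, χ (AdjoinRoot.mk Q (C ((u₀ * c : Fˣ) : F))) =
          χ (AdjoinRoot.mk Q (C c₀)) * ∑ c : Fˣ, χ (AdjoinRoot.mk Q (C (c : F))) := by
        rw [mul_sum]
        refine sum_congr rfl fun u _ => ?_
        rw [Units.val_mul, C_mul, map_mul, map_mul]
        rfl
      rw [h5] at h4
      have h6 : (χ (AdjoinRoot.mk Q (C c₀)) - 1) * ∑ c : Fˣ, χ (AdjoinRoot.mk Q (C (c : F))) = 0 := by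
        linear_combination -h4
      rcases mul_eq_zero.1 h6 with h7 | h7
      · exact absurd (sub_eq_zero.1 h7) h3
      · exact h7
  rw [sum_congr rfl (fun χ _ => h2 χ), ← sum_filter, sum_const, nsmul_eq_mul] at h1
  have h3 : (((Fintype.card F : ℝ) - 1) *
      ((univ.filter (fun χ : MulChar (AdjoinRoot Q) ℂ => EvenC χ)).card : ℝ) : ℝ) =
      ((Nat.card (AdjoinRoot Q)ˣ : ℝ)) := by
    have h4 : (((((Fintype.card F : ℝ) - 1) *
      ((univ.filter (fun χ : MulChar (AdjoinRoot Q) ℂ => EvenC χ)).card : ℝ) : ℝ)) : ℂ) =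
      (((Nat.card (AdjoinRoot Q)ˣ : ℝ)) : ℂ) := by
      push_cast
      rw [mul_comm]
      exact h1
    exact_mod_cast h4
  exact h3

/-- the residues -/
theorem sum_resB {R : Type} [AddCommMonoid R] (hQ : Q.Monic) [Fintype (AdjoinRoot Q)]
    (φ : AdjoinRoot Q → R) :
    ∑ x : AdjoinRoot Q, φ x = ∑ h ∈ PL F Q.natDegree, φ (AdjoinRoot.mk Q h) := by
  symm
  refine sum_bij (fun h _ => AdjoinRoot.mk Q h) (fun _ _ => mem_univ _) ?_ ?_ (fun _ _ => rfl)
  · intro f hf g hg h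
    apply mk_inj hQ _ h
    rw [mem_PL] at hf hg
    rw [degree_eq_natDegree hQ.ne_zero]
    exact lt_of_le_of_lt (degree_sub_le _ _) (max_lt hf hg)
  · intro x _
    obtain ⟨h, rfl⟩ := AdjoinRoot.mk_surjective x
    refine ⟨h %ₘ Q, ?_, ?_⟩
    · rw [mem_PL, ← degree_eq_natDegree hQ.ne_zero]
      exact degree_modByMonic_lt h hQ
    · rw [AdjoinRoot.mk_eq_mk]
      refine ⟨-(h /ₘ Q), ?_⟩
      have := modByMonic_add_div h Q
      calc h %ₘ Q - h = h %ₘ Q - (h %ₘ Q + Q * (h /ₘ Q)) := by rw [this]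
        _ = _ := by ring

/-- polynomials of small degree are constants times monic ones -/
theorem sum_scaled (d : ℕ) (φ : F[X] → ℂ) (h0 : φ 0 = 0) :
    ∑ h ∈ PL F d, φ h = ∑ c : Fˣ, ∑ k ∈ range d, ∑ f ∈ Mon F k, φ (C (c : F) * f) := by
  have h1 : ∀ c : Fˣ, ∑ k ∈ range d, ∑ f ∈ Mon F k, φ (C (c : F) * f) =
      ∑ f ∈ (range d).biUnion (Mon F), φ (C (c : F) * f) := by
    intro c
    rw [sum_biUnion]
    intro i _ j _ hij
    rw [Function.onFun, disjoint_left]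
    intro f hf hf'
    exact hij ((mem_Mon.mp hf).2.symm.trans (mem_Mon.mp hf').2)
  rw [sum_congr rfl (fun c _ => h1 c), ← sum_product']
  have h2 : ∑ h ∈ PL F d, φ h = ∑ h ∈ (PL F d).filter (fun h => h ≠ 0), φ h := by
    rw [sum_filter]
    refine sum_congr rfl (fun h _ => ?_)
    split_ifs with hh
    · rfl
    · rw [not_not] at hh
      rw [hh, h0]
  rw [h2]
  symm
  refine sum_bij (fun x _ => C (x.1 : F) * x.2) ?_ ?_ ?_ (fun _ _ => rfl)
  · rintro ⟨c, f⟩ hx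
    rw [mem_product, mem_biUnion] at hx
    obtain ⟨_, k, hk, hf⟩ := hx
    rw [mem_range] at hk
    obtain ⟨hf1, hf2⟩ := mem_Mon.mp hf
    have hc : (C (c : F) : F[X]) ≠ 0 := C_ne_zero.mpr c.ne_zero
    rw [mem_filter, mem_PL]
    refine ⟨?_, mul_ne_zero hc hf1.ne_zero⟩
    simp only
    rw [degree_mul, degree_C c.ne_zero, zero_add, degree_eq_natDegree hf1.ne_zero, hf2]
    exact_mod_cast hk
  · rintro ⟨c, f⟩ hx ⟨c', f'⟩ hx' h
    rw [mem_product, mem_biUnion] at hx hx'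
    obtain ⟨_, k, hk, hf⟩ := hx
    obtain ⟨_, k', hk', hf'⟩ := hx'
    obtain ⟨hf1, hf2⟩ := mem_Mon.mp hf
    obtain ⟨hf1', hf2'⟩ := mem_Mon.mp hf'
    simp only at h hf1 hf1'
    have h3 : (c : F) = c' := by
      have h4 := congrArg leadingCoeff h
      rwa [leadingCoeff_mul, leadingCoeff_mul, leadingCoeff_C, leadingCoeff_C, hf1.leadingCoeff,
        hf1'.leadingCoeff, mul_one, mul_one] at h4
    have h4 : c = c' := Units.ext h3
    subst h4
    have hc : (C (c : F) : F[X]) ≠ 0 := C_ne_zero.mpr c.ne_zero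
    have h5 := mul_left_cancel₀ hc h
    rw [h5]
  · intro h hh
    rw [mem_filter, mem_PL] at hh
    have hlc : h.leadingCoeff ≠ 0 := leadingCoeff_ne_zero.mpr hh.2
    refine ⟨(Units.mk0 h.leadingCoeff hlc, C (h.leadingCoeff)⁻¹ * h), ?_, ?_⟩
    · rw [mem_product, mem_biUnion]
      refine ⟨mem_univ _, h.natDegree, ?_, ?_⟩
      · rw [mem_range]
        have := hh.1
        rw [degree_eq_natDegree hh.2] at this
        exact_mod_cast this
      · rw [mem_Mon]
        constructor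
        · unfold Monic
          rw [leadingCoeff_mul, leadingCoeff_C, inv_mul_cancel₀ hlc]
        · exact natDegree_C_mul (inv_ne_zero hlc)
    · simp only [Units.val_mk0]
      rw [← mul_assoc, ← C_mul, mul_inv_cancel₀ hlc, C_1, one_mul]

/-- the trivial zero -/
theorem Lp_eval_one (hQ : Q.Monic) (hd : 0 < Q.natDegree) {χ : MulChar (AdjoinRoot Q) ℂ}
    (hχ : χ ≠ 1) (he : EvenC χ) : (Lp Q χ).eval 1 = 0 := by
  have := RH.finite_adjoinRoot hQ
  have _ : Fintype (AdjoinRoot Q) := Fintype.ofFinite _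
  have hnt : Nontrivial (AdjoinRoot Q) := by
    refine ⟨⟨AdjoinRoot.mk Q (C 0), AdjoinRoot.mk Q (C 1), fun h => ?_⟩⟩
    exact zero_ne_one (mkC_ne hQ hd h)
  have h1 : ∑ x : AdjoinRoot Q, χ x = 0 := MulChar.sum_eq_zero_of_ne_one hχ
  rw [sum_resB hQ, sum_scaled Q.natDegree (fun h => χ (AdjoinRoot.mk Q h))
    (by simp only [map_zero]; exact MulChar.map_zero χ)] at h1
  have h2 : ∀ c : Fˣ, ∑ k ∈ range Q.natDegree, ∑ f ∈ Mon F k, χ (AdjoinRoot.mk Q (C (c : F) * f)) =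
      (Lp Q χ).eval 1 := by
    intro c
    unfold Lp
    rw [eval_finset_sum]
    refine sum_congr rfl (fun k _ => ?_)
    rw [eval_mul, eval_C, eval_pow, eval_X, one_pow, mul_one]
    refine sum_congr rfl (fun f _ => ?_)
    rw [map_mul, map_mul, he (c : F) c.ne_zero, one_mul]
  rw [sum_congr rfl (fun c _ => h2 c), sum_const, nsmul_eq_mul] at h1
  rcases mul_eq_zero.1 h1 with h | h
  · rw [card_univ, Nat.cast_eq_zero] at h
    exact absurd h Fintype.card_ne_zero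
  · exact h

end Pool.Agent.H523.CM
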