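import Pool.Agent.H523.CM61

set_option autoImplicit false
set_option linter.unusedSectionVars false

/-! # The zeros modulo a prime polynomial lie on the circle -/

namespace Pool.Agent.H523.CM

open Polynomial Finset Filter
open Pool.Agent.H341R2.Sharp (Mon mem_Mon Mon_zero Irr mem_Irr)
open Pool.Agent.H523.FF (Ir mem_Ir PL mem_PL card_PL two_le_card IrLE mem_IrLE irr_coprime PL_mod
  Ir_card sum_IrLE)
open Pool.Agent.Q284 Pool.Agent.Q284.WE

open scoped Classical

theorem norm_lc (a : ℂ[X]) (ha : a.coeff 0 = 1) :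
    ‖a.leadingCoeff‖ = (a.roots.map (fun r => ‖r⁻¹‖)).prod := by
  have hs := (IsAlgClosed.splits a).eq_prod_roots
  have h1 : a.eval 0 = 1 := by rw [← coeff_zero_eq_eval_zero, ha]
  have h2 : a.leadingCoeff * (a.roots.map (fun r => -r)).prod = 1 := by
    rw [hs, eval_mul, eval_C, eval_multiset_prod, Multiset.map_map] at h1
    rw [← h1]
    congr 2
    apply Multiset.map_congr rfl
    intro r _
    simp
  have h3 : ‖a.leadingCoeff‖ * (a.roots.map (fun r => ‖r‖)).prod = 1 := by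
    have h4 := congrArg norm h2
    rw [norm_mul, norm_one] at h4
    rw [← h4]
    congr 1
    have : ∀ s : Multiset ℂ, (s.map (fun r => ‖r‖)).prod = ‖(s.map (fun r => -r)).prod‖ := by
      intro s
      induction s using Multiset.induction_on with
      | empty => simp
      | cons w s ih => rw [Multiset.map_cons, Multiset.prod_cons, Multiset.map_cons,
          Multiset.prod_cons, norm_mul, norm_neg, ih]
    exact this _
  have h4 : (a.roots.map (fun r => ‖r⁻¹‖)).prod = ((a.roots.map (fun r => ‖r‖)).prod)⁻¹ := by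
    have : ∀ s : Multiset ℂ, (s.map (fun r => ‖r⁻¹‖)).prod = ((s.map (fun r => ‖r‖)).prod)⁻¹ := by
      intro s
      induction s using Multiset.induction_on with
      | empty => simp
      | cons w s ih => rw [Multiset.map_cons, Multiset.prod_cons, Multiset.map_cons,
          Multiset.prod_cons, norm_inv, ih, mul_inv]
    exact this _
  rw [h4]
  exact eq_inv_of_mul_eq_one_left h3

theorem prod_le_pow (M : ℝ) (hM : 0 < M) (t : Multiset ℝ) (h : ∀ x ∈ t, 0 ≤ x ∧ x ≤ M) :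
    0 ≤ t.prod ∧ t.prod ≤ M ^ t.card ∧ (t.prod = M ^ t.card → ∀ x ∈ t, x = M) := by
  induction t using Multiset.induction_on with
  | empty =>
    refine ⟨by simp, by simp, fun _ x hx => absurd hx (Multiset.notMem_zero x)⟩
  | cons y t ih =>
    obtain ⟨h1, h2, h3⟩ := ih (fun x hx => h x (Multiset.mem_cons_of_mem hx))
    obtain ⟨hy0, hy1⟩ := h y (Multiset.mem_cons_self y t)
    rw [Multiset.prod_cons, Multiset.card_cons, pow_succ]
    have hMk : 0 < M ^ t.card := by positivity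
    refine ⟨mul_nonneg hy0 h1, ?_, ?_⟩
    · rw [mul_comm]
      exact mul_le_mul h2 hy1 hy0 hMk.le
    · intro heq
      have hyM : y = M := by
        by_contra hne
        have hlt : y < M := lt_of_le_of_ne hy1 hne
        have : y * t.prod < M ^ t.card * M := by
          calc y * t.prod ≤ y * M ^ t.card := mul_le_mul_of_nonneg_left h2 hy0
            _ < M * M ^ t.card := mul_lt_mul_of_pos_right hlt hMk
            _ = _ := mul_comm _ _
        exact absurd heq this.ne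
      have hP : t.prod = M ^ t.card := by
        rw [hyM, mul_comm] at heq
        exact mul_right_cancel₀ hM.ne' heq
      intro x hx
      rw [Multiset.mem_cons] at hx
      rcases hx with hx | hx
      · rw [hx, hyM]
      · exact h3 hP x hx

variable {F : Type} [Field F] [Fintype F] {Q : F[X]}

theorem Lp_natDegree (hd : 0 < Q.natDegree) (χ : MulChar (AdjoinRoot Q) ℂ) :
    (Lp Q χ).natDegree ≤ Q.natDegree - 1 := by
  rw [natDegree_le_iff_coeff_eq_zero]
  intro n hn
  rw [Lp_coeff, if_neg (by omega)]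

theorem Lp_ne_zero (hd : 0 < Q.natDegree) (χ : MulChar (AdjoinRoot Q) ℂ) : Lp Q χ ≠ 0 := by
  intro h
  have := Lp_zero hd χ
  rw [h, coeff_zero] at this
  exact zero_ne_one this

theorem card_roots_Lp (χ : MulChar (AdjoinRoot Q) ℂ) :
    (Lp Q χ).roots.card = (Lp Q χ).natDegree :=
  (IsAlgClosed.splits _).natDegree_eq_card_roots.symm

/-- the bound for the top coefficient, general character -/
theorem top_le (hQ : Q.Monic) (hd : 0 < Q.natDegree) {χ : MulChar (AdjoinRoot Q) ℂ} (hχ : χ ≠ 1) :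
    ‖(Lp Q χ).coeff (Q.natDegree - 1)‖ ≤ (√(Fintype.card F : ℝ)) ^ (Q.natDegree - 1) ∧
    (‖(Lp Q χ).coeff (Q.natDegree - 1)‖ = (√(Fintype.card F : ℝ)) ^ (Q.natDegree - 1) →
      (Lp Q χ).roots.card = Q.natDegree - 1 ∧ ∀ r ∈ (Lp Q χ).roots, ‖r⁻¹‖ = √(Fintype.card F : ℝ)) := by
  have hq := two_le_card (F := F)
  set s := √(Fintype.card F : ℝ) with hs
  have hs0 : 0 < s := Real.sqrt_pos.mpr (by linarith)
  have hN := Lp_natDegree hd χ
  rcases Nat.lt_or_ge (Lp Q χ).natDegree (Q.natDegree - 1) with h | h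
  · rw [coeff_eq_zero_of_natDegree_lt h, norm_zero]
    refine ⟨by positivity, fun h0 => ?_⟩
    exfalso
    have : 0 < s ^ (Q.natDegree - 1) := by positivity
    linarith
  · have hNe : (Lp Q χ).natDegree = Q.natDegree - 1 := le_antisymm hN h
    have h1 : (Lp Q χ).coeff (Q.natDegree - 1) = (Lp Q χ).leadingCoeff := by
      unfold leadingCoeff
      rw [hNe]
    rw [h1, norm_lc _ (Lp_zero hd χ)]
    have h2 := prod_le_pow s hs0 ((Lp Q χ).roots.map (fun r => ‖r⁻¹‖)) (by
      intro x hx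
      rw [Multiset.mem_map] at hx
      obtain ⟨r, hr, rfl⟩ := hx
      exact ⟨norm_nonneg _, norm_root hQ hd hχ hr⟩)
    rw [Multiset.card_map, card_roots_Lp, hNe] at h2
    refine ⟨h2.2.1, fun h3 => ⟨by rw [card_roots_Lp, hNe], fun r hr => ?_⟩⟩
    exact h2.2.2 h3 _ (Multiset.mem_map_of_mem _ hr)

/-- the bound for the top coefficient, even character -/
theorem top_le_even (hQ : Q.Monic) (hd : 2 ≤ Q.natDegree) {χ : MulChar (AdjoinRoot Q) ℂ}
    (hχ : χ ≠ 1) (he : EvenC χ) :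
    ‖(Lp Q χ).coeff (Q.natDegree - 1)‖ ≤ (√(Fintype.card F : ℝ)) ^ (Q.natDegree - 2) ∧
    (‖(Lp Q χ).coeff (Q.natDegree - 1)‖ = (√(Fintype.card F : ℝ)) ^ (Q.natDegree - 2) →
      ∃ t : Multiset ℂ, (Lp Q χ).roots = 1 ::ₘ t ∧ t.card = Q.natDegree - 2 ∧
        ∀ r ∈ t, ‖r⁻¹‖ = √(Fintype.card F : ℝ)) := by
  have hq := two_le_card (F := F)
  set s := √(Fintype.card F : ℝ) with hs
  have hs0 : 0 < s := Real.sqrt_pos.mpr (by linarith)
  have hd0 : 0 < Q.natDegree := by omega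
  have hN := Lp_natDegree hd0 χ
  rcases Nat.lt_or_ge (Lp Q χ).natDegree (Q.natDegree - 1) with h | h
  · rw [coeff_eq_zero_of_natDegree_lt h, norm_zero]
    refine ⟨by positivity, fun h0 => ?_⟩
    exfalso
    have : 0 < s ^ (Q.natDegree - 2) := by positivity
    linarith
  · have hNe : (Lp Q χ).natDegree = Q.natDegree - 1 := le_antisymm hN h
    have h1 : (Lp Q χ).coeff (Q.natDegree - 1) = (Lp Q χ).leadingCoeff := by
      unfold leadingCoeff
      rw [hNe]
    have hmem : (1:ℂ) ∈ (Lp Q χ).roots := by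
      rw [mem_roots (Lp_ne_zero hd0 χ), IsRoot.def]
      exact Lp_eval_one hQ hd0 hχ he
    obtain ⟨t, ht⟩ := Multiset.exists_cons_of_mem hmem
    have htc : t.card = Q.natDegree - 2 := by
      have := card_roots_Lp χ
      rw [ht, Multiset.card_cons, hNe] at this
      omega
    rw [h1, norm_lc _ (Lp_zero hd0 χ), ht, Multiset.map_cons, Multiset.prod_cons]
    have h2 := prod_le_pow s hs0 (t.map (fun r => ‖r⁻¹‖)) (by
      intro x hx
      rw [Multiset.mem_map] at hx
      obtain ⟨r, hr, rfl⟩ := hx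
      refine ⟨norm_nonneg _, norm_root hQ hd0 hχ ?_⟩
      rw [ht]
      exact Multiset.mem_cons_of_mem hr)
    rw [Multiset.card_map, htc] at h2
    rw [inv_one, norm_one, one_mul]
    refine ⟨h2.2.1, fun h3 => ⟨t, rfl, htc, fun r hr => ?_⟩⟩
    exact h2.2.2 h3 _ (Multiset.mem_map_of_mem _ hr)

theorem card_B (hQ : Q.Monic) : Nat.card (AdjoinRoot Q) = Fintype.card F ^ Q.natDegree := by
  have := RH.finite_adjoinRoot hQ
  have _ : Fintype (AdjoinRoot Q) := Fintype.ofFinite _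
  have h1 := sum_resB hQ (fun _ => (1:ℂ))
  rw [sum_const, sum_const, nsmul_eq_mul, nsmul_eq_mul, mul_one, mul_one, card_univ, card_PL] at h1
  rw [Nat.card_eq_fintype_card]
  exact_mod_cast h1

theorem card_units (hQ : Q.Monic) (hirr : Irreducible Q) :
    (Nat.card (AdjoinRoot Q)ˣ : ℝ) = (Fintype.card F : ℝ) ^ Q.natDegree - 1 := by
  have := RH.finite_adjoinRoot hQ
  have _ : Fact (Irreducible Q) := ⟨hirr⟩
  have h1 : Nat.card (AdjoinRoot Q)ˣ = Nat.card (AdjoinRoot Q) - 1 := Nat.card_units (AdjoinRoot Q)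
  rw [h1, card_B hQ, Nat.cast_sub (Nat.one_le_pow _ _ Fintype.card_pos)]
  push_cast
  ring

/-- **All the nontrivial zeros lie on the circle.** -/
theorem circle (hQ : Q.Monic) (hirr : Irreducible Q) (hd : 2 ≤ Q.natDegree)
    {χ : MulChar (AdjoinRoot Q) ℂ} (hχ : χ ≠ 1) :
    (EvenC χ → ∃ t : Multiset ℂ, (Lp Q χ).roots = 1 ::ₘ t ∧ t.card = Q.natDegree - 2 ∧
        ∀ r ∈ t, ‖r⁻¹‖ = √(Fintype.card F : ℝ)) ∧
    (¬ EvenC χ → (Lp Q χ).roots.card = Q.natDegree - 1 ∧
        ∀ r ∈ (Lp Q χ).roots, ‖r⁻¹‖ = √(Fintype.card F : ℝ)) := by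
  have := RH.finite_adjoinRoot hQ
  have _ : Fintype (AdjoinRoot Q)ˣ := Fintype.ofFinite _
  have _ : Finite (MulChar (AdjoinRoot Q) ℂ) := inferInstance
  have _ : Fintype (MulChar (AdjoinRoot Q) ℂ) := Fintype.ofFinite _
  have hq := two_le_card (F := F)
  set q : ℝ := (Fintype.card F : ℝ) with hqd
  have hq0 : 0 < q := by linarith
  set s := √q with hs
  have hs2 : s ^ 2 = q := Real.sq_sqrt hq0.le
  have hs0 : 0 < s := Real.sqrt_pos.mpr hq0
  set d := Q.natDegree with hdd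
  have hd0 : 0 < d := by omega
  set b : MulChar (AdjoinRoot Q) ℂ → ℂ := fun ψ => (Lp Q ψ).coeff (d - 1) with hb
  set G : ℝ := (Nat.card (AdjoinRoot Q)ˣ : ℝ) with hG
  have hGq : G = q ^ d - 1 := card_units hQ hirr
  have hcop : ∀ f ∈ Mon F (d - 1), IsCoprime f Q := by
    intro f hf
    obtain ⟨hf1, hf2⟩ := mem_Mon.mp hf
    rw [isCoprime_comm]
    rw [Irreducible.coprime_iff_not_dvd hirr]
    intro hdvd
    have := natDegree_le_of_dvd hdvd hf1.ne_zero
    omega
  -- Parseval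
  have hpar : ∑ ψ : MulChar (AdjoinRoot Q) ℂ, ‖b ψ‖ ^ 2 = G * q ^ (d - 1) := by
    have h1 := parseval_poly hQ (Mon F (d - 1)) (fun _ => 1)
    rw [sum_units_inj hQ (Mon F (d - 1)) (fun _ => 1) (by
      intro f hf g hg hfg
      obtain ⟨hf1, hf2⟩ := mem_Mon.mp hf
      obtain ⟨hg1, hg2⟩ := mem_Mon.mp hg
      apply mk_inj hQ _ hfg
      refine lt_of_le_of_lt (degree_sub_le _ _) (max_lt ?_ ?_)
      · rw [degree_eq_natDegree hf1.ne_zero, degree_eq_natDegree hQ.ne_zero, hf2, ← hdd]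
        exact_mod_cast (by omega : d - 1 < d)
      · rw [degree_eq_natDegree hg1.ne_zero, degree_eq_natDegree hQ.ne_zero, hg2, ← hdd]
        exact_mod_cast (by omega : d - 1 < d)) (fun f hf _ => hcop f hf)] at h1
    have h2 : ∑ f ∈ Mon F (d - 1), (1:ℝ) ^ 2 = q ^ (d - 1) := by
      rw [one_pow, sum_const, nsmul_eq_mul, mul_one, card_Mon]
    rw [h2] at h1
    rw [← h1]
    refine sum_congr rfl (fun ψ _ => ?_)
    rw [hb]
    simp only
    rw [Lp_coeff, if_pos (by omega)]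
    congr 2
    refine sum_congr rfl (fun f _ => ?_)
    rw [Complex.ofReal_one, one_mul]
  have hb1 : ‖b 1‖ ^ 2 = q ^ (d - 1) * q ^ (d - 1) := by
    have h1 : b 1 = ((q ^ (d - 1) : ℝ) : ℂ) := by
      rw [hb]
      simp only
      rw [Lp_coeff, if_pos (by omega)]
      rw [sum_congr rfl (fun f hf => by
        obtain ⟨u, hu⟩ := RH.isUnit_mk_iff.mpr (hcop f hf)
        rw [← hu, MulChar.one_apply_coe] : ∀ f ∈ Mon F (d - 1), (1 : MulChar (AdjoinRoot Q) ℂ)
          (AdjoinRoot.mk Q f) = 1), sum_const, nsmul_eq_mul, mul_one]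
      rw [← card_Mon (F := F)]
      push_cast
      rfl
    rw [h1, Complex.norm_real, Real.norm_eq_abs, sq_abs, sq]
  -- the bounds
  set Bd : MulChar (AdjoinRoot Q) ℂ → ℝ := fun ψ => if EvenC ψ then q ^ (d - 2) else q ^ (d - 1) with hBd
  have hle : ∀ ψ ∈ (univ : Finset (MulChar (AdjoinRoot Q) ℂ)).erase 1, ‖b ψ‖ ^ 2 ≤ Bd ψ := by
    intro ψ hψ
    have hne : ψ ≠ 1 := (mem_erase.mp hψ).1
    rw [hBd]
    simp only
    split_ifs with he
    · have h1 := (top_le_even hQ hd hne he).1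
      calc ‖b ψ‖ ^ 2 ≤ (s ^ (d - 2)) ^ 2 := pow_le_pow_left₀ (norm_nonneg _) h1 2
        _ = q ^ (d - 2) := by rw [← pow_mul, mul_comm, pow_mul, hs2]
    · have h1 := (top_le hQ hd0 hne).1
      calc ‖b ψ‖ ^ 2 ≤ (s ^ (d - 1)) ^ 2 := pow_le_pow_left₀ (norm_nonneg _) h1 2
        _ = q ^ (d - 1) := by rw [← pow_mul, mul_comm, pow_mul, hs2]
  have hEv1 : EvenC (1 : MulChar (AdjoinRoot Q) ℂ) := by
    intro c hc
    have hu : IsUnit (AdjoinRoot.mk Q (C c)) :=
      (isUnit_C.mpr (isUnit_iff_ne_zero.mpr hc)).map (AdjoinRoot.mk Q)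
    obtain ⟨u, hu⟩ := hu
    rw [← hu, MulChar.one_apply_coe]
  set E : ℝ := ((univ.filter (fun χ : MulChar (AdjoinRoot Q) ℂ => EvenC χ)).card : ℝ) with hE
  have hEG : (q - 1) * E = G := card_even hQ hd0
  have hcard : ((univ : Finset (MulChar (AdjoinRoot Q) ℂ)).card : ℝ) = G := by
    rw [hG, card_univ, ← MulChar.card_eq_card_units_of_hasEnoughRootsOfUnity (AdjoinRoot Q) ℂ,
      Nat.card_eq_fintype_card]
  have hBsum : ∑ ψ ∈ (univ : Finset (MulChar (AdjoinRoot Q) ℂ)).erase 1, Bd ψ =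
      G * q ^ (d - 1) - q ^ (d - 1) * q ^ (d - 1) := by
    have h1 := add_sum_erase (univ : Finset (MulChar (AdjoinRoot Q) ℂ)) Bd (mem_univ 1)
    have h2 : ∑ ψ : MulChar (AdjoinRoot Q) ℂ, Bd ψ = E * q ^ (d - 2) + (G - E) * q ^ (d - 1) := by
      rw [hBd]
      simp only
      rw [sum_ite, sum_const, sum_const, nsmul_eq_mul, nsmul_eq_mul]
      have h3 := card_filter_add_card_filter_not (s := (univ : Finset (MulChar (AdjoinRoot Q) ℂ)))
        (fun χ => EvenC χ)
      have h4 : E + ((univ.filter (fun χ : MulChar (AdjoinRoot Q) ℂ => ¬ EvenC χ)).card : ℝ) = G := by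
        rw [← hcard, ← h3, hE]
        push_cast
        ring
      rw [← hE, show G - E = ((univ.filter (fun χ : MulChar (AdjoinRoot Q) ℂ => ¬ EvenC χ)).card : ℝ)
        by linarith]
    have h3 : Bd 1 = q ^ (d - 2) := by
      rw [hBd]
      simp only
      rw [if_pos hEv1]
    have e1 : q ^ (d - 1) = q * q ^ (d - 2) := by
      rw [← pow_succ']
      congr 1
      omega
    have e2 : q ^ d = q * (q * q ^ (d - 2)) := by
      rw [← pow_succ', ← pow_succ']
      congr 1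
      omega
    have h4 : ∑ ψ ∈ (univ : Finset (MulChar (AdjoinRoot Q) ℂ)).erase 1, Bd ψ =
        E * q ^ (d - 2) + (G - E) * q ^ (d - 1) - q ^ (d - 2) := by
      rw [← h2, ← h1, h3]
      ring
    rw [h4, e1]
    have h5 : G = q * (q * q ^ (d - 2)) - 1 := by rw [hGq, e2]
    have h6 : E * q ^ (d - 2) - E * (q * q ^ (d - 2)) = - (G * q ^ (d - 2)) := by
      rw [← hEG]
      ring
    calc E * q ^ (d - 2) + (G - E) * (q * q ^ (d - 2)) - q ^ (d - 2)
        = (E * q ^ (d - 2) - E * (q * q ^ (d - 2))) + G * (q * q ^ (d - 2)) - q ^ (d - 2) := by ring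
      _ = - (G * q ^ (d - 2)) + G * (q * q ^ (d - 2)) - q ^ (d - 2) := by rw [h6]
      _ = G * (q * q ^ (d - 2)) - (G + 1) * q ^ (d - 2) := by ring
      _ = _ := by
          rw [show (G + 1) = q * (q * q ^ (d - 2)) by rw [h5]; ring]
          ring
  have hbsum : ∑ ψ ∈ (univ : Finset (MulChar (AdjoinRoot Q) ℂ)).erase 1, ‖b ψ‖ ^ 2 =
      G * q ^ (d - 1) - q ^ (d - 1) * q ^ (d - 1) := by
    have h1 := add_sum_erase (univ : Finset (MulChar (AdjoinRoot Q) ℂ)) (fun ψ => ‖b ψ‖ ^ 2)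
      (mem_univ 1)
    rw [hpar, hb1] at h1
    linarith
  have heq := (sum_eq_sum_iff_of_le hle).mp (by rw [hbsum, hBsum])
  have h1 := heq χ (mem_erase.mpr ⟨hχ, mem_univ _⟩)
  constructor
  · intro he
    apply (top_le_even hQ hd hχ he).2
    rw [hBd] at h1
    simp only at h1
    rw [if_pos he] at h1
    have h2 : ‖b χ‖ ^ 2 = (s ^ (d - 2)) ^ 2 := by
      rw [h1, ← pow_mul, mul_comm, pow_mul, hs2]
    exact (pow_left_inj₀ (norm_nonneg _) (by positivity) (by norm_num)).mp h2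
  · intro he
    apply (top_le hQ hd0 hχ).2
    rw [hBd] at h1
    simp only at h1
    rw [if_neg he] at h1
    have h2 : ‖b χ‖ ^ 2 = (s ^ (d - 1)) ^ 2 := by
      rw [h1, ← pow_mul, mul_comm, pow_mul, hs2]
    exact (pow_left_inj₀ (norm_nonneg _) (by positivity) (by norm_num)).mp h2

end Pool.Agent.H523.CM
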