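import Pool.Agent.H523.CM62

set_option autoImplicit false
set_option linter.unusedSectionVars false

/-! # The second moment over the characters and the variance -/

namespace Pool.Agent.H523.CM

open Polynomial Finset Filter
open Pool.Agent.H341R2.Sharp (Mon mem_Mon Mon_zero Irr mem_Irr)
open Pool.Agent.H523.FF (Ir mem_Ir PL mem_PL card_PL two_le_card IrLE mem_IrLE irr_coprime PL_mod
  Ir_card sum_IrLE Ir_disj)
open Pool.Agent.Q284 Pool.Agent.Q284.WE
open Pool.Agent.H435R3.Weil (AL TL AL_zero n_mul_AL)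

open scoped Classical

variable {F : Type} [Field F] [Fintype F] {Q : F[X]}

/-- the von Mangoldt function -/
noncomputable def lam (m : ℕ) (f : F[X]) : ℝ :=
  ∑ e ∈ m.divisors, ∑ P ∈ Ir F e, if P ^ (m / e) = f then (e:ℝ) else 0

theorem lam_nonneg (m : ℕ) (f : F[X]) : 0 ≤ lam m f :=
  sum_nonneg (fun e _ => sum_nonneg (fun P _ => by split_ifs <;> positivity))

theorem pow_mem_Mon {m e : ℕ} (he : e ∈ m.divisors) {P : F[X]} (hP : P ∈ Ir F e) :
    P ^ (m / e) ∈ Mon F m := by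
  obtain ⟨h1, h2, h3⟩ := mem_Ir.mp hP
  rw [mem_Mon]
  refine ⟨h1.pow _, ?_⟩
  rw [natDegree_pow, h3]
  exact Nat.div_mul_cancel (Nat.mem_divisors.mp he).1

/-- sums over the prime powers of degree `m` -/
theorem sum_lam {R : Type} [CommRing R] [Algebra ℝ R] (m : ℕ)
    (φ : F[X] → R) :
    ∑ f ∈ Mon F m, algebraMap ℝ R (lam m f) * φ f =
      ∑ e ∈ m.divisors, ∑ P ∈ Ir F e, algebraMap ℝ R e * φ (P ^ (m / e)) := by
  have h1 : ∀ f ∈ Mon F m, algebraMap ℝ R (lam m f) * φ f =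
      ∑ e ∈ m.divisors, ∑ P ∈ Ir F e, if P ^ (m / e) = f then algebraMap ℝ R e * φ f else 0 := by
    intro f _
    unfold lam
    rw [map_sum, sum_mul]
    refine sum_congr rfl (fun e _ => ?_)
    rw [map_sum, sum_mul]
    refine sum_congr rfl (fun P _ => ?_)
    split_ifs
    · rfl
    · rw [map_zero, zero_mul]
  rw [sum_congr rfl h1, sum_comm]
  refine sum_congr rfl (fun e he => ?_)
  rw [sum_comm]
  refine sum_congr rfl (fun P hP => ?_)
  rw [sum_eq_single_of_mem (P ^ (m / e)) (pow_mem_Mon he hP)]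
  · rw [if_pos rfl]
  · intro f _ hf
    rw [if_neg (Ne.symm hf)]

theorem sum_lam_real (m : ℕ) (φ : F[X] → ℝ) :
    ∑ f ∈ Mon F m, lam m f * φ f = ∑ e ∈ m.divisors, ∑ P ∈ Ir F e, (e:ℝ) * φ (P ^ (m / e)) := by
  have := sum_lam (R := ℝ) m φ
  simpa using this

theorem sum_lam_complex (m : ℕ) (φ : F[X] → ℂ) :
    ∑ f ∈ Mon F m, (lam m f : ℂ) * φ f = ∑ e ∈ m.divisors, ∑ P ∈ Ir F e, (e:ℂ) * φ (P ^ (m / e)) := by
  have := sum_lam (R := ℂ) m φ
  simpa using this

theorem psv_lam (m : ℕ) (A : F[X]) :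
    psv m Q A = ∑ f ∈ (Mon F m).filter (fun f => Q ∣ f - A), lam m f := by
  rw [sum_filter]
  have h1 : ∀ f ∈ Mon F m, (if Q ∣ f - A then lam m f else 0) =
      lam m f * (if Q ∣ f - A then 1 else 0) := by
    intro f _
    split_ifs
    · rw [mul_one]
    · rw [mul_zero]
  rw [sum_congr rfl h1, sum_lam_real m (fun f => if Q ∣ f - A then 1 else 0)]
  unfold psv cnt
  refine sum_congr rfl (fun e _ => ?_)
  rw [card_filter]
  push_cast
  rw [mul_sum]

theorem trc_lam {m : ℕ} (hm : 1 ≤ m) (χ : MulChar (AdjoinRoot Q) ℂ) :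
    trc (cq Q χ) m = ∑ f ∈ Mon F m, (lam m f : ℂ) * χ (AdjoinRoot.mk Q f) := by
  rw [sum_lam_complex m (fun f => χ (AdjoinRoot.mk Q f))]
  unfold trc
  rw [RH.PD_eq m hm, Finset.sum_biUnion (fun a _ b _ hab => Ir_disj a trivial b trivial hab)]
  refine sum_congr rfl (fun e _ => sum_congr rfl (fun P hP => ?_))
  obtain ⟨h1, h2, h3⟩ := mem_Ir.mp hP
  rw [cq_monic χ h1, h3, map_pow, map_pow]

/-- sums over the units -/
theorem sum_unitsB {R : Type} [AddCommMonoid R] (hQ : Q.Monic) [Fintype (AdjoinRoot Q)ˣ]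
    (g : AdjoinRoot Q → R) :
    ∑ u : (AdjoinRoot Q)ˣ, g (u : AdjoinRoot Q) =
      ∑ A ∈ (PL F Q.natDegree).filter (fun A => IsCoprime A Q), g (AdjoinRoot.mk Q A) := by
  have := RH.finite_adjoinRoot hQ
  have _ : Fintype (AdjoinRoot Q) := Fintype.ofFinite _
  have h1 : ∑ u : (AdjoinRoot Q)ˣ, g (u : AdjoinRoot Q) =
      ∑ x ∈ (univ : Finset (AdjoinRoot Q)).filter (fun x => IsUnit x), g x := by
    refine sum_bij (fun u _ => (u : AdjoinRoot Q)) ?_ ?_ ?_ (fun _ _ => rfl)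
    · intro u _
      rw [mem_filter]
      exact ⟨mem_univ _, u.isUnit⟩
    · intro u _ v _ h
      exact Units.ext h
    · intro x hx
      rw [mem_filter] at hx
      obtain ⟨u, hu⟩ := hx.2
      exact ⟨u, mem_univ _, hu⟩
  rw [h1, sum_filter, sum_resB hQ, sum_filter]
  refine sum_congr rfl (fun A _ => ?_)
  by_cases h : IsCoprime A Q
  · rw [if_pos (RH.isUnit_mk_iff.mpr h), if_pos h]
  · rw [if_neg (fun h' => h (RH.isUnit_mk_iff.mp h')), if_neg h]

theorem tot_eq_card (hQ : Q.Monic) : tot Q = Nat.card (AdjoinRoot Q)ˣ := by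
  have := RH.finite_adjoinRoot hQ
  have _ : Fintype (AdjoinRoot Q)ˣ := Fintype.ofFinite _
  have h1 := sum_unitsB hQ (fun _ => (1:ℕ))
  rw [sum_const, sum_const, smul_eq_mul, smul_eq_mul, mul_one, mul_one, card_univ] at h1
  unfold tot
  rw [← h1, Nat.card_eq_fintype_card]

/-- **The second moment over the characters.** -/
theorem second_moment (hQ : Q.Monic) [Fintype (MulChar (AdjoinRoot Q) ℂ)] {m : ℕ} (hm : 1 ≤ m) :
    ∑ χ : MulChar (AdjoinRoot Q) ℂ, ‖trc (cq Q χ) m‖ ^ 2 =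
      (tot Q : ℝ) * ∑ A ∈ (PL F Q.natDegree).filter (fun A => IsCoprime A Q), psv m Q A ^ 2 := by
  have := RH.finite_adjoinRoot hQ
  have _ : Fintype (AdjoinRoot Q)ˣ := Fintype.ofFinite _
  rw [sum_congr rfl (fun χ _ => by rw [trc_lam hm χ]), parseval_poly hQ (Mon F m) (lam m),
    tot_eq_card hQ]
  congr 1
  rw [sum_unitsB hQ (fun x => (∑ f ∈ (Mon F m).filter (fun f => AdjoinRoot.mk Q f = x), lam m f) ^ 2)]
  refine sum_congr rfl (fun A _ => ?_)
  rw [psv_lam]
  congr 2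
  ext f
  rw [mem_filter, mem_filter, AdjoinRoot.mk_eq_mk]

theorem trc_one (hQ : Q.Monic) {m : ℕ} (hm : 1 ≤ m) :
    trc (cq Q 1) m = ((∑ A ∈ (PL F Q.natDegree).filter (fun A => IsCoprime A Q), psv m Q A : ℝ) : ℂ)
      := by
  have := RH.finite_adjoinRoot hQ
  have _ : Fintype (AdjoinRoot Q)ˣ := Fintype.ofFinite _
  rw [trc_lam hm]
  have h1 : ∀ A, psv m Q A = ∑ f ∈ Mon F m, if AdjoinRoot.mk Q A = AdjoinRoot.mk Q f
      then lam m f else 0 := by
    intro A
    rw [psv_lam, sum_filter]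
    refine sum_congr rfl (fun f _ => ?_)
    by_cases h : Q ∣ f - A
    · rw [if_pos h, if_pos (AdjoinRoot.mk_eq_mk.mpr h).symm]
    · rw [if_neg h, if_neg (fun h' => h (AdjoinRoot.mk_eq_mk.mp h'.symm))]
  rw [sum_congr rfl (fun A _ => h1 A), ← sum_unitsB hQ (fun x => ∑ f ∈ Mon F m,
    if x = AdjoinRoot.mk Q f then lam m f else 0), sum_comm, Complex.ofReal_sum]
  refine sum_congr rfl (fun f _ => ?_)
  by_cases hu : IsUnit (AdjoinRoot.mk Q f)
  · obtain ⟨u, hu⟩ := hu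
    rw [← hu, MulChar.one_apply_coe, mul_one, sum_eq_single_of_mem u (mem_univ u)]
    · rw [if_pos rfl]
    · intro v _ hv
      rw [if_neg]
      intro h
      exact hv (Units.ext h)
  · rw [MulChar.map_nonunit _ hu, mul_zero, sum_eq_zero, Complex.ofReal_zero]
    intro u _
    rw [if_neg]
    intro h
    exact hu (h ▸ u.isUnit)

theorem trc_TL (l : F[X] → ℂ) {m : ℕ} (hm : 1 ≤ m) : trc l m = TL l m := by
  unfold trc TL
  refine sum_congr ?_ (fun _ _ => rfl)
  ext P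
  unfold PS.PD
  simp only [mem_filter, mem_biUnion, mem_range, mem_Mon, mem_Irr]
  constructor
  · rintro ⟨⟨k, hk1, hk2, hk3⟩, hk4, hk5⟩
    exact ⟨⟨hk2, hk4, by omega⟩, hk5⟩
  · rintro ⟨⟨h1, h2, h3⟩, h4⟩
    exact ⟨⟨P.natDegree, by omega, h1, rfl⟩, h2, h4⟩

/-- the sum of the von Mangoldt function -/
theorem sum_lam_total {m : ℕ} (hm : 1 ≤ m) : ∑ f ∈ Mon F m, lam m f = (Fintype.card F : ℝ) ^ m := by
  have hone : ∀ f : F[X], (1 : MulChar (AdjoinRoot (1 : F[X])) ℂ) (AdjoinRoot.mk 1 f) = 1 := by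
    intro f
    obtain ⟨u, hu⟩ := (RH.isUnit_mk_iff (M := (1 : F[X])) (h := f)).mpr isCoprime_one_right
    rw [← hu, MulChar.one_apply_coe]
  have hay := cq_hay (F := F) monic_one (1 : MulChar (AdjoinRoot (1 : F[X])) ℂ)
  have hAL : ∀ n, AL (cq (1 : F[X]) 1) n = ((Fintype.card F : ℝ) ^ n : ℝ) := by
    intro n
    rw [AL_cq, sum_congr rfl (fun f _ => hone f), sum_const, nsmul_eq_mul, mul_one, ← card_Mon]
    push_cast
    rfl
  have hTL : ∀ n : ℕ, 1 ≤ n → TL (cq (1 : F[X]) 1) n = ((Fintype.card F : ℝ) ^ n : ℝ) := by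
    intro n
    induction n using Nat.strong_induction_on with
    | _ n ih =>
      intro hn
      have h1 := n_mul_AL (cq (1 : F[X]) 1) hay.one hay.mul n
      have h2 : Icc 1 n = insert n (Icc 1 (n - 1)) := by
        ext x
        rw [mem_insert, mem_Icc, mem_Icc]
        omega
      rw [h2, sum_insert (by rw [mem_Icc]; omega), Nat.sub_self, hAL, hAL, pow_zero] at h1
      have h3 : ∑ x ∈ Icc 1 (n - 1), AL (cq (1 : F[X]) 1) (n - x) * TL (cq (1 : F[X]) 1) x =
          ∑ x ∈ Icc 1 (n - 1), (((Fintype.card F : ℝ) ^ n : ℝ) : ℂ) := by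
        refine sum_congr rfl (fun x hx => ?_)
        rw [mem_Icc] at hx
        rw [ih x (by omega) hx.1, hAL, ← Complex.ofReal_mul, ← pow_add]
        congr 3
        omega
      rw [h3, sum_const, Nat.card_Icc, nsmul_eq_mul, Nat.sub_add_cancel hn, Nat.cast_sub hn] at h1
      push_cast at h1 ⊢
      linear_combination -h1
  have h1 := hTL m hm
  rw [← trc_TL _ hm, trc_lam hm] at h1
  rw [sum_congr rfl (fun f _ => by rw [hone f, mul_one])] at h1
  have h2 : ((∑ f ∈ Mon F m, lam m f : ℝ) : ℂ) = ((Fintype.card F : ℝ) ^ m : ℝ) := by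
    rw [← h1]
    push_cast
    rfl
  exact_mod_cast h2

/-- the value on the powers of the primes -/
theorem lam_le (m : ℕ) (hm : 1 ≤ m) (f : F[X]) : lam m f ≤ m := by
  by_cases h : ∃ e ∈ m.divisors, ∃ P ∈ Ir F e, P ^ (m / e) = f
  · obtain ⟨e₀, he₀, P₀, hP₀, h0⟩ := h
    obtain ⟨hp1, hp2, hp3⟩ := mem_Ir.mp hP₀
    have he0 : 0 < e₀ := Nat.pos_of_dvd_of_pos (Nat.mem_divisors.mp he₀).1 (by omega)
    have hk0 : m / e₀ ≠ 0 :=
      (Nat.div_pos (Nat.le_of_dvd (by omega) (Nat.mem_divisors.mp he₀).1) he0).ne'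
    have huniq : ∀ e ∈ m.divisors, ∀ P ∈ Ir F e, P ^ (m / e) = f → e = e₀ ∧ P = P₀ := by
      intro e he P hP h1
      obtain ⟨h2, h3, h4⟩ := mem_Ir.mp hP
      have h5 : P₀ ∣ P ^ (m / e) := by
        rw [h1, ← h0]
        exact dvd_pow_self P₀ hk0
      have h6 := hp2.prime.dvd_of_dvd_pow h5
      have h7 := eq_of_monic_of_associated hp1 h2 ((hp2.dvd_irreducible_iff_associated h3).mp h6)
      exact ⟨by rw [← h4, ← h7, hp3], h7.symm⟩
    unfold lam
    rw [sum_eq_single_of_mem e₀ he₀ (fun e he hne => sum_eq_zero (fun P hP => by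
      rw [if_neg (fun h1 => hne (huniq e he P hP h1).1)])),
      sum_eq_single_of_mem P₀ hP₀ (fun P hP hne => by
      rw [if_neg (fun h1 => hne (huniq e₀ he₀ P hP h1).2)]), if_pos h0]
    exact_mod_cast Nat.le_of_dvd (by omega) (Nat.mem_divisors.mp he₀).1
  · push Not at h
    unfold lam
    rw [sum_eq_zero (fun e he => sum_eq_zero (fun P hP => by rw [if_neg (h e he P hP)]))]
    positivity

theorem lam_irr {m : ℕ} {f : F[X]} (hf : f ∈ Ir F m) (hm : 1 ≤ m) : (m:ℝ) ≤ lam m f := by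
  unfold lam
  have h1 : ∀ e ∈ m.divisors, 0 ≤ ∑ P ∈ Ir F e, (if P ^ (m / e) = f then (e:ℝ) else 0) :=
    fun e _ => sum_nonneg (fun P _ => by split_ifs <;> positivity)
  refine le_trans ?_ (single_le_sum h1 (Nat.mem_divisors_self m (by omega)))
  have h2 : ∀ P ∈ Ir F m, 0 ≤ (if P ^ (m / m) = f then (m:ℝ) else 0) :=
    fun P _ => by split_ifs <;> positivity
  refine le_trans ?_ (single_le_sum h2 hf)
  rw [Nat.div_self (by omega), pow_one, if_pos rfl]

/-- beyond the degree the second moment is the variance -/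
theorem moment_variance (hQ : Q.Monic) (hirr : Irreducible Q)
    [Fintype (MulChar (AdjoinRoot Q) ℂ)] {m : ℕ} (hm : Q.natDegree < m) (hm2 : m < 2 * Q.natDegree) :
    ∑ χ ∈ (univ : Finset (MulChar (AdjoinRoot Q) ℂ)).erase 1, ‖trc (cq Q χ) m‖ ^ 2 =
      (tot Q : ℝ) * GV m Q := by
  have hq := two_le_card (F := F)
  set q : ℝ := (Fintype.card F : ℝ) with hqd
  have hm1 : 1 ≤ m := by omega
  set S := (PL F Q.natDegree).filter (fun A => IsCoprime A Q) with hS
  have htot : (tot Q : ℝ) = S.card := rfl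
  have htot0 : (tot Q : ℝ) ≠ 0 := by
    rw [tot_eq_card hQ, card_units hQ hirr, ← hqd]
    have h1 : 0 < Q.natDegree := hirr.natDegree_pos
    have h2 : (1:ℝ) < q ^ Q.natDegree := one_lt_pow₀ (by linarith) h1.ne'
    linarith
  have hψ : ∑ A ∈ S, psv m Q A = q ^ m := by
    have h1 : ∀ A, psv m Q A = ∑ f ∈ Mon F m, if Q ∣ f - A then lam m f else 0 := by
      intro A
      rw [psv_lam, sum_filter]
    have h2 : ∑ A ∈ PL F Q.natDegree, psv m Q A = q ^ m := by
      rw [sum_congr rfl (fun A _ => h1 A), sum_comm, ← sum_lam_total hm1]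
      refine sum_congr rfl (fun f _ => ?_)
      exact sum_classes hQ f (fun _ => lam m f)
    rw [← h2, hS, sum_filter]
    refine sum_congr rfl (fun A hA => ?_)
    split_ifs with hc
    · rfl
    · symm
      rw [psv_lam]
      apply sum_eq_zero
      intro f hf
      rw [mem_filter] at hf
      have hQA : Q ∣ A := by
        by_contra h
        exact hc ((isCoprime_comm.mp ((Irreducible.coprime_iff_not_dvd hirr).mpr h)))
      have hQf : Q ∣ f := by
        have := dvd_add hf.2 hQA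
        rwa [sub_add_cancel] at this
      unfold lam
      refine sum_eq_zero (fun e he => sum_eq_zero (fun P hP => ?_))
      rw [if_neg]
      intro h
      obtain ⟨h3, h4, h5⟩ := mem_Ir.mp hP
      have h6 : Q ∣ P ^ (m / e) := by rw [h]; exact hQf
      have h7 := hirr.prime.dvd_of_dvd_pow h6
      have h8 := eq_of_monic_of_associated hQ h3 ((hirr.dvd_irreducible_iff_associated h4).mp h7)
      have h9 : Q.natDegree ∣ m := by
        rw [h8, h5]
        exact (Nat.mem_divisors.mp he).1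
      obtain ⟨k, hk⟩ := h9
      have h10 : 1 < k := by
        by_contra h11
        have : k ≤ 1 := by omega
        have := Nat.mul_le_mul_left Q.natDegree this
        omega
      have h11 : k < 2 := by
        by_contra h12
        have : 2 ≤ k := by omega
        have := Nat.mul_le_mul_left Q.natDegree this
        omega
      omega
  have h1 := add_sum_erase (univ : Finset (MulChar (AdjoinRoot Q) ℂ))
    (fun χ => ‖trc (cq Q χ) m‖ ^ 2) (mem_univ 1)
  rw [second_moment hQ hm1, trc_one hQ hm1, ← hS, hψ, Complex.norm_real, Real.norm_eq_abs,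
    sq_abs] at h1
  have h2 : GV m Q = ∑ A ∈ S, psv m Q A ^ 2 - 2 * (q ^ m / tot Q) * ∑ A ∈ S, psv m Q A +
      S.card * (q ^ m / tot Q) ^ 2 := by
    unfold GV
    rw [← hS, mul_sum, ← sum_sub_distrib, ← nsmul_eq_mul, ← sum_const, ← sum_add_distrib]
    refine sum_congr rfl (fun A _ => ?_)
    ring
  rw [h2, hψ, ← htot]
  have h3 : (tot Q : ℝ) * (∑ A ∈ S, psv m Q A ^ 2 - 2 * (q ^ m / tot Q) * q ^ m +
      tot Q * (q ^ m / tot Q) ^ 2) = (tot Q : ℝ) * ∑ A ∈ S, psv m Q A ^ 2 - (q ^ m) ^ 2 := by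
    field_simp
    ring
  rw [h3]
  linarith

theorem mk_inj_Mon (hQ : Q.Monic) {m : ℕ} (hm : m ≤ Q.natDegree) {f g : F[X]} (hf : f ∈ Mon F m)
    (hg : g ∈ Mon F m) (h : AdjoinRoot.mk Q f = AdjoinRoot.mk Q g) : f = g := by
  by_contra hne
  obtain ⟨hf1, hf2⟩ := mem_Mon.mp hf
  obtain ⟨hg1, hg2⟩ := mem_Mon.mp hg
  apply hne
  apply mk_inj hQ _ h
  have h1 : (f - g).degree < f.degree := by
    refine degree_sub_lt_left ?_ hf1.ne_zero ?_
    · rw [degree_eq_natDegree hf1.ne_zero, degree_eq_natDegree hg1.ne_zero, hf2, hg2]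
    · rw [hf1.leadingCoeff, hg1.leadingCoeff]
  refine lt_of_lt_of_le h1 ?_
  rw [degree_eq_natDegree hf1.ne_zero, degree_eq_natDegree hQ.ne_zero, hf2]
  exact_mod_cast hm

/-- up to the degree only the diagonal counts -/
theorem moment_upper (hQ : Q.Monic) [Fintype (MulChar (AdjoinRoot Q) ℂ)] {m : ℕ} (hm1 : 1 ≤ m)
    (hm : m ≤ Q.natDegree) :
    ∑ χ ∈ (univ : Finset (MulChar (AdjoinRoot Q) ℂ)).erase 1, ‖trc (cq Q χ) m‖ ^ 2 ≤
      (tot Q : ℝ) * (m * (Fintype.card F : ℝ) ^ m) := by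
  have := RH.finite_adjoinRoot hQ
  have _ : Fintype (AdjoinRoot Q)ˣ := Fintype.ofFinite _
  refine (sum_le_sum_of_subset_of_nonneg (erase_subset _ _) (fun _ _ _ => sq_nonneg _)).trans ?_
  set T := (Mon F m).filter (fun f => IsCoprime f Q) with hT
  have h1 : ∀ χ : MulChar (AdjoinRoot Q) ℂ, trc (cq Q χ) m =
      ∑ f ∈ T, (lam m f : ℂ) * χ (AdjoinRoot.mk Q f) := by
    intro χ
    rw [trc_lam hm1, hT, sum_filter]
    refine sum_congr rfl (fun f _ => ?_)
    split_ifs with h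
    · rfl
    · rw [χ.map_nonunit (fun hh => h (RH.isUnit_mk_iff.mp hh)), mul_zero]
  rw [sum_congr rfl (fun χ _ => by rw [h1 χ]), parseval_poly hQ T (lam m),
    sum_units_inj hQ T (lam m) (fun f hf g hg h => mk_inj_Mon hQ hm (mem_filter.mp hf).1
      (mem_filter.mp hg).1 h) (fun f hf _ => (mem_filter.mp hf).2), tot_eq_card hQ]
  apply mul_le_mul_of_nonneg_left _ (Nat.cast_nonneg _)
  rw [← sum_lam_total hm1, mul_sum]
  refine le_trans (sum_le_sum_of_subset_of_nonneg (filter_subset _ _) (fun _ _ _ => sq_nonneg _)) ?_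
  refine sum_le_sum (fun f _ => ?_)
  rw [sq]
  exact mul_le_mul_of_nonneg_right (lam_le m hm1 f) (lam_nonneg m f)

/-- the lower bound below the degree -/
theorem moment_lower (hQ : Q.Monic) (hirr : Irreducible Q) [Fintype (MulChar (AdjoinRoot Q) ℂ)]
    {m : ℕ} (hm1 : 1 ≤ m) (hm : m < Q.natDegree) :
    (tot Q : ℝ) * (m * ((Fintype.card F : ℝ) ^ m - 2 * (Fintype.card F : ℝ) ^ (m / 2))) -
      ((Fintype.card F : ℝ) ^ m) ^ 2 ≤
    ∑ χ ∈ (univ : Finset (MulChar (AdjoinRoot Q) ℂ)).erase 1, ‖trc (cq Q χ) m‖ ^ 2 := by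
  have := RH.finite_adjoinRoot hQ
  have _ : Fintype (AdjoinRoot Q)ˣ := Fintype.ofFinite _
  set q : ℝ := (Fintype.card F : ℝ) with hqd
  have hcop : ∀ f ∈ Mon F m, IsCoprime f Q := by
    intro f hf
    obtain ⟨hf1, hf2⟩ := mem_Mon.mp hf
    rw [isCoprime_comm]
    rw [Irreducible.coprime_iff_not_dvd hirr]
    intro hdvd
    have := natDegree_le_of_dvd hdvd hf1.ne_zero
    omega
  have h1 := add_sum_erase (univ : Finset (MulChar (AdjoinRoot Q) ℂ))
    (fun χ => ‖trc (cq Q χ) m‖ ^ 2) (mem_univ 1)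
  have h2 : ∑ χ : MulChar (AdjoinRoot Q) ℂ, ‖trc (cq Q χ) m‖ ^ 2 =
      (tot Q : ℝ) * ∑ f ∈ Mon F m, lam m f ^ 2 := by
    rw [sum_congr rfl (fun χ _ => by rw [trc_lam hm1 χ]), parseval_poly hQ (Mon F m) (lam m),
      sum_units_inj hQ (Mon F m) (lam m) (fun f hf g hg h => mk_inj_Mon hQ hm.le hf hg h)
      (fun f hf _ => hcop f hf), tot_eq_card hQ]
  have h3 : trc (cq Q 1) m = ((q ^ m : ℝ) : ℂ) := by
    rw [trc_lam hm1, ← sum_lam_total hm1, Complex.ofReal_sum]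
    refine sum_congr rfl (fun f hf => ?_)
    obtain ⟨u, hu⟩ := RH.isUnit_mk_iff.mpr (hcop f hf)
    rw [← hu, MulChar.one_apply_coe, mul_one]
  rw [h2, h3, Complex.norm_real, Real.norm_eq_abs, sq_abs] at h1
  have h4 : (m:ℝ) * (q ^ m - 2 * q ^ (m / 2)) ≤ ∑ f ∈ Mon F m, lam m f ^ 2 := by
    have h5 : (Ir F m) ⊆ Mon F m := by
      intro f hf
      obtain ⟨h6, h7, h8⟩ := mem_Ir.mp hf
      exact mem_Mon.mpr ⟨h6, h8⟩
    have h6 : ∑ f ∈ Ir F m, (m:ℝ) ^ 2 ≤ ∑ f ∈ Mon F m, lam m f ^ 2 := by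
      refine le_trans (sum_le_sum (fun f hf => ?_))
        (sum_le_sum_of_subset_of_nonneg h5 (fun _ _ _ => sq_nonneg _))
      exact pow_le_pow_left₀ (Nat.cast_nonneg _) (lam_irr hf hm1) 2
    rw [sum_const, nsmul_eq_mul] at h6
    refine le_trans ?_ h6
    have h7 := Pool.Agent.H523.FF.Ir_card_lower (F := F) m (by omega)
    rw [← hqd] at h7
    have hmr : (0:ℝ) < m := by exact_mod_cast hm1
    have h8 : q ^ m - 2 * q ^ (m / 2) ≤ ((Ir F m).card : ℝ) * m := by
      have h9 := mul_le_mul_of_nonneg_right h7 hmr.le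
      have h10 : (q ^ m / m - 2 * q ^ (m / 2) / m) * m = q ^ m - 2 * q ^ (m / 2) := by
        field_simp
      linarith
    calc (m:ℝ) * (q ^ m - 2 * q ^ (m / 2)) ≤ m * (((Ir F m).card : ℝ) * m) :=
          mul_le_mul_of_nonneg_left h8 hmr.le
      _ = _ := by ring
  have h5 := mul_le_mul_of_nonneg_left h4 (Nat.cast_nonneg (α := ℝ) (tot Q))
  linarith

end Pool.Agent.H523.CM
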