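import Pool.Agent.H523.CM63

set_option autoImplicit false
set_option linter.unusedSectionVars false

/-! # The Fejér kernel and the power sums of the zeros -/

namespace Pool.Agent.H523.CM

open Polynomial Finset Filter
open Pool.Agent.H341R2.Sharp (Mon mem_Mon Mon_zero Irr mem_Irr)
open Pool.Agent.H523.FF (Ir mem_Ir PL mem_PL card_PL two_le_card IrLE mem_IrLE irr_coprime PL_mod
  Ir_card sum_IrLE Ir_disj)
open Pool.Agent.Q284 Pool.Agent.Q284.WE

open scoped Classical

section Fejer

theorem sum_dist (g : ℕ → ℝ) (M : ℕ) :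
    ∑ k ∈ range M, ∑ l ∈ range M, g ((k - l) + (l - k)) =
      M * g 0 + 2 * ∑ j ∈ Ico 1 M, ((M:ℝ) - j) * g j := by
  induction M with
  | zero => simp
  | succ M ih =>
    have h1 : ∑ k ∈ range (M + 1), ∑ l ∈ range (M + 1), g ((k - l) + (l - k)) =
        ∑ k ∈ range M, ∑ l ∈ range M, g ((k - l) + (l - k)) + 2 * ∑ l ∈ range M, g (M - l) + g 0 := by
      rw [sum_range_succ]
      have h2 : ∑ k ∈ range M, ∑ l ∈ range (M + 1), g ((k - l) + (l - k)) =
          ∑ k ∈ range M, ∑ l ∈ range M, g ((k - l) + (l - k)) + ∑ k ∈ range M, g (M - k) := by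
        rw [← sum_add_distrib]
        refine sum_congr rfl (fun k hk => ?_)
        rw [sum_range_succ]
        congr 2
        rw [mem_range] at hk
        omega
      have h3 : ∑ l ∈ range (M + 1), g ((M - l) + (l - M)) = ∑ l ∈ range M, g (M - l) + g 0 := by
        rw [sum_range_succ]
        congr 1
        · refine sum_congr rfl (fun k hk => ?_)
          rw [mem_range] at hk
          congr 1
          omega
        · congr 1
          omega
      rw [h2, h3]
      ring
    have h2 : ∑ l ∈ range M, g (M - l) = ∑ j ∈ Ico 1 (M + 1), g j := by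
      refine sum_bij (fun l _ => M - l) ?_ ?_ ?_ (fun _ _ => rfl)
      · intro l hl
        rw [mem_range] at hl
        rw [mem_Ico]
        omega
      · intro a ha b hb h
        rw [mem_range] at ha hb
        omega
      · intro j hj
        rw [mem_Ico] at hj
        exact ⟨M - j, by rw [mem_range]; omega, by omega⟩
    rw [h1, ih, h2]
    rcases Nat.eq_zero_or_pos M with h0 | h0
    · subst h0
      simp
    · rw [sum_Ico_succ_top (by omega), sum_Ico_succ_top (by omega)]
      have h3 : ∑ j ∈ Ico 1 M, (((M + 1 : ℕ) : ℝ) - j) * g j =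
          ∑ j ∈ Ico 1 M, ((M:ℝ) - j) * g j + ∑ j ∈ Ico 1 M, g j := by
        rw [← sum_add_distrib]
        refine sum_congr rfl (fun j _ => ?_)
        push_cast
        ring
      rw [h3]
      push_cast
      ring

theorem unit_pow (w : ℂ) (hw : ‖w‖ = 1) (k l : ℕ) :
    w ^ k * (starRingEnd ℂ) w ^ l = if l ≤ k then w ^ (k - l) else (starRingEnd ℂ) (w ^ (l - k)) := by
  have h1 : w * (starRingEnd ℂ) w = 1 := by
    rw [Complex.mul_conj, Complex.normSq_eq_norm_sq, hw]
    norm_num
  split_ifs with h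
  · calc w ^ k * (starRingEnd ℂ) w ^ l = w ^ (k - l) * (w * (starRingEnd ℂ) w) ^ l := by
          rw [mul_pow, ← mul_assoc, ← pow_add, Nat.sub_add_cancel h]
      _ = _ := by rw [h1, one_pow, mul_one]
  · have h' : k ≤ l := by omega
    calc w ^ k * (starRingEnd ℂ) w ^ l = (w * (starRingEnd ℂ) w) ^ k * (starRingEnd ℂ) w ^ (l - k) := by
          rw [mul_pow, mul_assoc, ← pow_add, Nat.add_sub_cancel' h']
      _ = _ := by rw [h1, one_pow, one_mul, map_pow]

/-- **Fejér's inequality**: multiplicities against power sums -/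
theorem fejer {ι : Type} (T : Finset ι) (c : ι → ℝ) (hc : ∀ i ∈ T, 0 ≤ c i) (w : ι → ℂ)
    (hw : ∀ i ∈ T, ‖w i‖ = 1) (M : ℕ) :
    (M:ℝ) ^ 2 * ∑ i ∈ T, c i ^ 2 ≤ M * (∑ i ∈ T, c i) ^ 2 +
      2 * ∑ j ∈ Ico 1 M, ((M:ℝ) - j) * ‖∑ i ∈ T, (c i : ℂ) * w i ^ j‖ ^ 2 := by
  have key : ∀ z : ℂ, ((‖z‖ ^ 2 : ℝ) : ℂ) = z * (starRingEnd ℂ) z := by
    intro z
    rw [Complex.mul_conj, Complex.normSq_eq_norm_sq]
  set g : ℕ → ℝ := fun j => ‖∑ i ∈ T, (c i : ℂ) * w i ^ j‖ ^ 2 with hg
  have hg0 : g 0 = (∑ i ∈ T, c i) ^ 2 := by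
    rw [hg]
    simp only [pow_zero, mul_one]
    rw [← Complex.ofReal_sum, Complex.norm_real, Real.norm_eq_abs, sq_abs]
  have h1 := sum_dist g M
  rw [hg0] at h1
  rw [← h1]
  -- the double sums
  have h2 : ∀ k l : ℕ, g ((k - l) + (l - k)) =
      ‖∑ i ∈ T, (c i : ℂ) * (w i ^ k * (starRingEnd ℂ) (w i) ^ l)‖ ^ 2 := by
    intro k l
    rw [hg]
    simp only
    rcases le_or_gt l k with h | h
    · rw [Nat.sub_eq_zero_of_le h, add_zero]
      congr 2
      refine sum_congr rfl (fun i hi => ?_)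
      rw [unit_pow _ (hw i hi), if_pos h]
    · rw [Nat.sub_eq_zero_of_le h.le, zero_add]
      have h3 : ∑ i ∈ T, (c i : ℂ) * (w i ^ k * (starRingEnd ℂ) (w i) ^ l) =
          (starRingEnd ℂ) (∑ i ∈ T, (c i : ℂ) * w i ^ (l - k)) := by
        rw [map_sum]
        refine sum_congr rfl (fun i hi => ?_)
        rw [unit_pow _ (hw i hi), if_neg (by omega), map_mul, Complex.conj_ofReal]
      rw [h3, RCLike.norm_conj]
  have h3 : ∑ k ∈ range M, ∑ l ∈ range M, g ((k - l) + (l - k)) =
      ∑ i ∈ T, ∑ j ∈ T, c i * c j * ‖∑ k ∈ range M, (w i * (starRingEnd ℂ) (w j)) ^ k‖ ^ 2 := by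
    have h4 : ((∑ k ∈ range M, ∑ l ∈ range M, g ((k - l) + (l - k)) : ℝ) : ℂ) =
        ((∑ i ∈ T, ∑ j ∈ T, c i * c j *
          ‖∑ k ∈ range M, (w i * (starRingEnd ℂ) (w j)) ^ k‖ ^ 2 : ℝ) : ℂ) := by
      simp only [h2]
      push_cast [key]
      have e1 : ∀ i j : ι, (∑ k ∈ range M, (w i * (starRingEnd ℂ) (w j)) ^ k) *
          (starRingEnd ℂ) (∑ k ∈ range M, (w i * (starRingEnd ℂ) (w j)) ^ k) =
          ∑ k ∈ range M, ∑ l ∈ range M, (w i ^ k * (starRingEnd ℂ) (w i) ^ l) *
            (starRingEnd ℂ) (w j ^ k * (starRingEnd ℂ) (w j) ^ l) := by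
        intro i j
        rw [map_sum, sum_mul_sum]
        refine sum_congr rfl (fun k _ => sum_congr rfl (fun l _ => ?_))
        simp only [map_mul, map_pow, Complex.conj_conj]
        ring
      have e2 : ∀ k l : ℕ, (∑ i ∈ T, (c i : ℂ) * (w i ^ k * (starRingEnd ℂ) (w i) ^ l)) *
          (starRingEnd ℂ) (∑ i ∈ T, (c i : ℂ) * (w i ^ k * (starRingEnd ℂ) (w i) ^ l)) =
          ∑ i ∈ T, ∑ j ∈ T, (c i : ℂ) * c j * ((w i ^ k * (starRingEnd ℂ) (w i) ^ l) *
            (starRingEnd ℂ) (w j ^ k * (starRingEnd ℂ) (w j) ^ l)) := by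
        intro k l
        rw [map_sum, sum_mul_sum]
        refine sum_congr rfl (fun i _ => sum_congr rfl (fun j _ => ?_))
        rw [map_mul, Complex.conj_ofReal]
        ring
      have e3 : ∀ z : ℂ, ((‖z‖ : ℝ) : ℂ) ^ 2 = z * (starRingEnd ℂ) z := by
        intro z
        rw [← key]
        push_cast
        rfl
      simp only [e1, e2, mul_sum]
      calc ∑ k ∈ range M, ∑ l ∈ range M, ∑ i ∈ T, ∑ j ∈ T,
            (c i : ℂ) * c j * ((w i ^ k * (starRingEnd ℂ) (w i) ^ l) *
            (starRingEnd ℂ) (w j ^ k * (starRingEnd ℂ) (w j) ^ l))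
          = ∑ k ∈ range M, ∑ i ∈ T, ∑ l ∈ range M, ∑ j ∈ T,
            (c i : ℂ) * c j * ((w i ^ k * (starRingEnd ℂ) (w i) ^ l) *
            (starRingEnd ℂ) (w j ^ k * (starRingEnd ℂ) (w j) ^ l)) :=
            sum_congr rfl (fun k _ => sum_comm)
        _ = ∑ i ∈ T, ∑ k ∈ range M, ∑ l ∈ range M, ∑ j ∈ T,
            (c i : ℂ) * c j * ((w i ^ k * (starRingEnd ℂ) (w i) ^ l) *
            (starRingEnd ℂ) (w j ^ k * (starRingEnd ℂ) (w j) ^ l)) := sum_comm
        _ = ∑ i ∈ T, ∑ k ∈ range M, ∑ j ∈ T, ∑ l ∈ range M,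
            (c i : ℂ) * c j * ((w i ^ k * (starRingEnd ℂ) (w i) ^ l) *
            (starRingEnd ℂ) (w j ^ k * (starRingEnd ℂ) (w j) ^ l)) :=
            sum_congr rfl (fun i _ => sum_congr rfl (fun k _ => sum_comm))
        _ = ∑ i ∈ T, ∑ j ∈ T, ∑ k ∈ range M, ∑ l ∈ range M,
            (c i : ℂ) * c j * ((w i ^ k * (starRingEnd ℂ) (w i) ^ l) *
            (starRingEnd ℂ) (w j ^ k * (starRingEnd ℂ) (w j) ^ l)) :=
            sum_congr rfl (fun i _ => sum_comm)
    exact_mod_cast h4
  rw [h3, mul_sum]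
  refine sum_le_sum (fun i hi => ?_)
  have h4 : ∀ j ∈ T, 0 ≤ c i * c j * ‖∑ k ∈ range M, (w i * (starRingEnd ℂ) (w j)) ^ k‖ ^ 2 :=
    fun j hj => mul_nonneg (mul_nonneg (hc i hi) (hc j hj)) (sq_nonneg _)
  refine le_trans (le_of_eq ?_) (single_le_sum h4 hi)
  have h5 : w i * (starRingEnd ℂ) (w i) = 1 := by
    rw [Complex.mul_conj, Complex.normSq_eq_norm_sq, hw i hi]
    norm_num
  rw [h5]
  simp only [one_pow, sum_const, card_range, nsmul_eq_mul, mul_one]
  rw [Complex.norm_natCast]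
  ring

/-- the weighted sum of the expected values -/
theorem sum_min (d M : ℕ) (hdM : d ≤ M) :
    2 * ∑ j ∈ Ico 1 M, ((M:ℝ) - j) * min (j:ℝ) d = d * (M:ℝ) ^ 2 + ((d:ℝ) ^ 3 - d) / 3 - M * (d:ℝ) ^ 2 := by
  have hbase : ∀ d : ℕ, 2 * ∑ j ∈ Ico 1 d, ((d:ℝ) - j) * j = ((d:ℝ) ^ 3 - d) / 3 := by
    intro d
    induction d with
    | zero => simp
    | succ d ih =>
      rcases Nat.eq_zero_or_pos d with h0 | h0
      · subst h0
        simp
      · rw [sum_Ico_succ_top (by omega)]
        have h1 : ∑ j ∈ Ico 1 d, (((d + 1 : ℕ) : ℝ) - j) * j =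
            ∑ j ∈ Ico 1 d, ((d:ℝ) - j) * j + ∑ j ∈ Ico 1 d, (j:ℝ) := by
          rw [← sum_add_distrib]
          refine sum_congr rfl (fun j _ => ?_)
          push_cast
          ring
        have h2 : ∀ d : ℕ, 1 ≤ d → ∑ j ∈ Ico 1 d, (j:ℝ) = d * ((d:ℝ) - 1) / 2 := by
          intro d hd
          induction d with
          | zero => omega
          | succ d ih =>
            rcases Nat.eq_zero_or_pos d with h0 | h0
            · subst h0
              simp
            · rw [sum_Ico_succ_top (by omega), ih (by omega)]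
              push_cast
              ring
        rw [h1, h2 d h0]
        push_cast
        linarith
  induction M, hdM using Nat.le_induction with
  | base =>
    have h1 : ∑ j ∈ Ico 1 d, ((d:ℝ) - j) * min (j:ℝ) d = ∑ j ∈ Ico 1 d, ((d:ℝ) - j) * j := by
      refine sum_congr rfl (fun j hj => ?_)
      rw [mem_Ico] at hj
      rw [min_eq_left (by exact_mod_cast hj.2.le)]
    rw [h1, hbase d]
    ring
  | succ M hM ih =>
    rcases Nat.eq_zero_or_pos M with h0 | h0
    · subst h0
      have hd0 : d = 0 := by omega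
      subst hd0
      simp
    · rw [sum_Ico_succ_top (by omega)]
      have h1 : ∑ j ∈ Ico 1 M, (((M + 1 : ℕ) : ℝ) - j) * min (j:ℝ) d =
          ∑ j ∈ Ico 1 M, ((M:ℝ) - j) * min (j:ℝ) d + ∑ j ∈ Ico 1 M, min (j:ℝ) d := by
        rw [← sum_add_distrib]
        refine sum_congr rfl (fun j _ => ?_)
        push_cast
        ring
      have h2 : ∀ M : ℕ, d ≤ M → 1 ≤ M →
          2 * ∑ j ∈ Ico 1 M, min (j:ℝ) d = 2 * (M:ℝ) * d - d - (d:ℝ) ^ 2 := by
        intro M hdM
        induction M, hdM using Nat.le_induction with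
        | base =>
          intro hd1
          have h3 : ∀ d : ℕ, 1 ≤ d → ∑ j ∈ Ico 1 d, (j:ℝ) = d * ((d:ℝ) - 1) / 2 := by
            intro d hd
            induction d with
            | zero => omega
            | succ d ih =>
              rcases Nat.eq_zero_or_pos d with h0 | h0
              · subst h0
                simp
              · rw [sum_Ico_succ_top (by omega), ih (by omega)]
                push_cast
                ring
          have h4 : ∑ j ∈ Ico 1 d, min (j:ℝ) d = ∑ j ∈ Ico 1 d, (j:ℝ) := by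
            refine sum_congr rfl (fun j hj => ?_)
            rw [mem_Ico] at hj
            rw [min_eq_left (by exact_mod_cast hj.2.le)]
          rw [h4, h3 d hd1]
          ring
        | succ M hM ih =>
          intro _
          rcases Nat.eq_zero_or_pos M with h0 | h0
          · subst h0
            have hd0 : d = 0 := by omega
            subst hd0
            simp
          · rw [sum_Ico_succ_top (by omega), mul_add, ih h0, min_eq_right (by exact_mod_cast hM)]
            push_cast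
            ring
      rw [h1, min_eq_right (by exact_mod_cast hM)]
      have h3 := h2 M hM h0
      push_cast
      linarith

end Fejer

end Pool.Agent.H523.CM
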