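import Pool.Agent.H523.CM64

set_option autoImplicit false
set_option linter.unusedSectionVars false

/-! # The power sums of the nontrivial zeros -/

namespace Pool.Agent.H523.CM

open Polynomial Finset Filter
open Pool.Agent.H341R2.Sharp (Mon mem_Mon Mon_zero Irr mem_Irr)
open Pool.Agent.H523.FF (Ir mem_Ir PL mem_PL card_PL two_le_card IrLE mem_IrLE irr_coprime PL_mod
  Ir_card sum_IrLE Ir_disj)
open Pool.Agent.Q284 Pool.Agent.Q284.WE

open scoped Classical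

variable {F : Type} [Field F] [Fintype F] {Q : F[X]}

/-- the nontrivial zeros -/
noncomputable def zs (χ : MulChar (AdjoinRoot Q) ℂ) : Multiset ℂ :=
  (Lp Q χ).roots.filter (fun r => ‖r‖ = (√(Fintype.card F : ℝ))⁻¹)

/-- the normalized power sums -/
noncomputable def pw (χ : MulChar (AdjoinRoot Q) ℂ) (m : ℕ) : ℂ :=
  ((zs χ).map (fun r => (((√(Fintype.card F : ℝ) : ℝ) : ℂ) * r)⁻¹ ^ m)).sum

theorem one_lt_sqrt : 1 < √(Fintype.card F : ℝ) := by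
  have hq := two_le_card (F := F)
  rw [Real.lt_sqrt (by norm_num)]
  linarith

theorem zs_odd (hQ : Q.Monic) (hirr : Irreducible Q) (hd : 2 ≤ Q.natDegree)
    {χ : MulChar (AdjoinRoot Q) ℂ} (hχ : χ ≠ 1) (he : ¬ EvenC χ) : zs χ = (Lp Q χ).roots ∧
    (zs χ).card = Q.natDegree - 1 := by
  obtain ⟨h1, h2⟩ := (circle hQ hirr hd hχ).2 he
  have h3 : zs χ = (Lp Q χ).roots := by
    unfold zs
    rw [Multiset.filter_eq_self]
    intro r hr
    rw [← h2 r hr, norm_inv, inv_inv]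
  exact ⟨h3, by rw [h3, h1]⟩

theorem zs_even (hQ : Q.Monic) (hirr : Irreducible Q) (hd : 2 ≤ Q.natDegree)
    {χ : MulChar (AdjoinRoot Q) ℂ} (hχ : χ ≠ 1) (he : EvenC χ) : (Lp Q χ).roots = 1 ::ₘ zs χ ∧
    (zs χ).card = Q.natDegree - 2 := by
  obtain ⟨t, h1, h2, h3⟩ := (circle hQ hirr hd hχ).1 he
  have hs := one_lt_sqrt (F := F)
  have h4 : zs χ = t := by
    unfold zs
    rw [h1, Multiset.filter_cons_of_neg, Multiset.filter_eq_self]
    · intro r hr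
      rw [← h3 r hr, norm_inv, inv_inv]
    · rw [norm_one]
      intro h
      have : (√(Fintype.card F : ℝ))⁻¹ < 1 := inv_lt_one_of_one_lt₀ hs
      linarith
  exact ⟨by rw [h4, h1], by rw [h4, h2]⟩

theorem card_zs_le (hQ : Q.Monic) (hirr : Irreducible Q) (hd : 2 ≤ Q.natDegree)
    {χ : MulChar (AdjoinRoot Q) ℂ} (hχ : χ ≠ 1) : (zs χ).card ≤ Q.natDegree - 1 ∧
    Q.natDegree - 2 ≤ (zs χ).card := by
  by_cases he : EvenC χ
  · have := (zs_even hQ hirr hd hχ he).2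
    omega
  · have := (zs_odd hQ hirr hd hχ he).2
    omega

theorem pw_factor (s : Multiset ℂ) (m : ℕ) :
    (s.map (fun r => (((√(Fintype.card F : ℝ) : ℝ) : ℂ) * r)⁻¹ ^ m)).sum =
      (((√(Fintype.card F : ℝ))⁻¹ ^ m : ℝ) : ℂ) * (s.map (fun r => r⁻¹ ^ m)).sum := by
  rw [← Multiset.sum_map_mul_left]
  congr 1
  apply Multiset.map_congr rfl
  intro r _
  rw [mul_inv, mul_pow]
  push_cast
  rfl

theorem pw_eq (hQ : Q.Monic) (hirr : Irreducible Q) (hd : 2 ≤ Q.natDegree)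
    {χ : MulChar (AdjoinRoot Q) ℂ} (hχ : χ ≠ 1) {m : ℕ} (hm : 1 ≤ m) :
    ∃ e : ℝ, 0 ≤ e ∧ e ≤ 1 ∧
      pw χ m = -((((√(Fintype.card F : ℝ))⁻¹ ^ m : ℝ) : ℂ) * (trc (cq Q χ) m + e)) := by
  have htr := trc_eq hQ (by omega) hχ hm
  by_cases he : EvenC χ
  · have h1 := (zs_even hQ hirr hd hχ he).1
    refine ⟨1, by norm_num, le_rfl, ?_⟩
    unfold pw
    rw [pw_factor, htr, h1, Multiset.map_cons, Multiset.sum_cons, inv_one, one_pow]
    push_cast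
    ring
  · have h1 := (zs_odd hQ hirr hd hχ he).1
    refine ⟨0, le_rfl, by norm_num, ?_⟩
    unfold pw
    rw [pw_factor, htr, h1]
    push_cast
    ring

theorem norm_pw (hQ : Q.Monic) (hirr : Irreducible Q) (hd : 2 ≤ Q.natDegree)
    {χ : MulChar (AdjoinRoot Q) ℂ} (hχ : χ ≠ 1) {m : ℕ} (hm : 1 ≤ m) :
    ‖pw χ m‖ ^ 2 ≤ (1 + (√(Fintype.card F : ℝ))⁻¹ ^ m) * (‖trc (cq Q χ) m‖ ^ 2 /
      (Fintype.card F : ℝ) ^ m) + 2 * (√(Fintype.card F : ℝ))⁻¹ ^ m ∧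
    (1 - (√(Fintype.card F : ℝ))⁻¹ ^ m) * (‖trc (cq Q χ) m‖ ^ 2 /
      (Fintype.card F : ℝ) ^ m) - (√(Fintype.card F : ℝ))⁻¹ ^ m ≤ ‖pw χ m‖ ^ 2 := by
  have hq := two_le_card (F := F)
  have hs := one_lt_sqrt (F := F)
  set q : ℝ := (Fintype.card F : ℝ) with hqd
  set s := √q with hsd
  have hs0 : 0 < s := by linarith
  have hs2 : s ^ 2 = q := Real.sq_sqrt (by linarith)
  obtain ⟨e, he0, he1, heq⟩ := pw_eq hQ hirr hd hχ hm
  rw [← hqd, ← hsd] at heq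
  set x : ℝ := s⁻¹ ^ m with hx
  have hx0 : 0 < x := by positivity
  have hx1 : x ≤ 1 := pow_le_one₀ (by positivity) (inv_le_one_of_one_le₀ hs.le)
  have hqm : q ^ m = (x ^ 2)⁻¹ := by
    rw [hx, ← hs2, ← pow_mul, ← pow_mul, mul_comm m 2, inv_pow, inv_inv]
  set T := trc (cq Q χ) m with hT
  set a := ‖T‖ with ha
  have ha0 : 0 ≤ a := norm_nonneg _
  have h1 : ‖pw χ m‖ = x * ‖T + e‖ := by
    rw [heq, norm_neg, norm_mul, Complex.norm_real, Real.norm_eq_abs, abs_of_pos hx0]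
  have h2 : ‖T + e‖ ≤ a + 1 := by
    refine (norm_add_le _ _).trans ?_
    rw [Complex.norm_real, Real.norm_eq_abs, abs_of_nonneg he0]
    linarith
  have h3 : a - e ≤ ‖T + e‖ := by
    have := norm_sub_norm_le T (-(e:ℂ))
    rw [norm_neg, Complex.norm_real, Real.norm_eq_abs, abs_of_nonneg he0, sub_neg_eq_add] at this
    exact this
  have h4 : a ^ 2 - 2 * a ≤ ‖T + e‖ ^ 2 := by
    rcases le_or_gt a 1 with h | h
    · nlinarith [sq_nonneg ‖T + (e:ℂ)‖]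
    · have h5 : 0 ≤ a - e := by linarith
      have h6 := pow_le_pow_left₀ h5 h3 2
      nlinarith
  have h5 : a ^ 2 / q ^ m = x ^ 2 * a ^ 2 := by
    rw [hqm, div_inv_eq_mul, mul_comm]
  rw [h1, mul_pow, h5]
  have hax : 2 * (x * a) * x ≤ x * (x * a) ^ 2 + x := by
    have := mul_le_mul_of_nonneg_left (two_mul_le_add_sq (x * a) 1) hx0.le
    nlinarith
  have hxx : x ^ 2 ≤ x := by nlinarith
  constructor
  · have h6 : ‖T + e‖ ^ 2 ≤ (a + 1) ^ 2 := pow_le_pow_left₀ (norm_nonneg _) h2 2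
    have h7 := mul_le_mul_of_nonneg_left h6 (sq_nonneg x)
    nlinarith
  · have h7 := mul_le_mul_of_nonneg_left h4 (sq_nonneg x)
    nlinarith

/-- the mean square of the power sums, from above -/
theorem W_le (hQ : Q.Monic) (hirr : Irreducible Q) (hd : 2 ≤ Q.natDegree)
    [Fintype (MulChar (AdjoinRoot Q) ℂ)] {m : ℕ} (hm : 1 ≤ m) :
    ∑ χ ∈ (univ : Finset (MulChar (AdjoinRoot Q) ℂ)).erase 1, ‖pw χ m‖ ^ 2 ≤
      (1 + (√(Fintype.card F : ℝ))⁻¹ ^ m) *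
      ((∑ χ ∈ (univ : Finset (MulChar (AdjoinRoot Q) ℂ)).erase 1, ‖trc (cq Q χ) m‖ ^ 2) /
        (Fintype.card F : ℝ) ^ m) + 2 * (√(Fintype.card F : ℝ))⁻¹ ^ m *
        ((univ : Finset (MulChar (AdjoinRoot Q) ℂ)).erase 1).card := by
  refine (sum_le_sum (fun χ hχ => (norm_pw hQ hirr hd (mem_erase.mp hχ).1 hm).1)).trans
    (le_of_eq ?_)
  rw [sum_add_distrib, sum_const, ← mul_sum, sum_div, nsmul_eq_mul]
  ring

/-- the mean square of the power sums, from below -/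
theorem W_ge (hQ : Q.Monic) (hirr : Irreducible Q) (hd : 2 ≤ Q.natDegree)
    [Fintype (MulChar (AdjoinRoot Q) ℂ)] {m : ℕ} (hm : 1 ≤ m) :
    (1 - (√(Fintype.card F : ℝ))⁻¹ ^ m) *
      ((∑ χ ∈ (univ : Finset (MulChar (AdjoinRoot Q) ℂ)).erase 1, ‖trc (cq Q χ) m‖ ^ 2) /
        (Fintype.card F : ℝ) ^ m) - (√(Fintype.card F : ℝ))⁻¹ ^ m *
        ((univ : Finset (MulChar (AdjoinRoot Q) ℂ)).erase 1).card ≤
    ∑ χ ∈ (univ : Finset (MulChar (AdjoinRoot Q) ℂ)).erase 1, ‖pw χ m‖ ^ 2 := by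
  refine le_trans (le_of_eq ?_) (sum_le_sum (fun χ hχ =>
    (norm_pw hQ hirr hd (mem_erase.mp hχ).1 hm).2))
  rw [sum_sub_distrib, sum_const, ← mul_sum, sum_div, nsmul_eq_mul]
  ring

theorem card_nonpr (hQ : Q.Monic) (hirr : Irreducible Q) [Fintype (MulChar (AdjoinRoot Q) ℂ)] :
    (((univ : Finset (MulChar (AdjoinRoot Q) ℂ)).erase 1).card : ℝ) =
      (Fintype.card F : ℝ) ^ Q.natDegree - 2 := by
  have := RH.finite_adjoinRoot hQ
  have h1 : ((univ : Finset (MulChar (AdjoinRoot Q) ℂ)).card : ℝ) =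
      (Fintype.card F : ℝ) ^ Q.natDegree - 1 := by
    rw [card_univ, ← card_units hQ hirr,
      ← MulChar.card_eq_card_units_of_hasEnoughRootsOfUnity (AdjoinRoot Q) ℂ,
      Nat.card_eq_fintype_card]
  have h2 := card_erase_add_one (mem_univ (1 : MulChar (AdjoinRoot Q) ℂ))
  have h3 : ((((univ : Finset (MulChar (AdjoinRoot Q) ℂ)).erase 1).card : ℝ)) + 1 =
      ((univ : Finset (MulChar (AdjoinRoot Q) ℂ)).card : ℝ) := by exact_mod_cast h2
  linarith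

/-- multiplicities against power sums, for one character -/
theorem fejer_char (hQ : Q.Monic) (hirr : Irreducible Q) (hd : 2 ≤ Q.natDegree)
    {χ : MulChar (AdjoinRoot Q) ℂ} (hχ : χ ≠ 1) (M : ℕ) :
    (M:ℝ) ^ 2 * ∑ r ∈ (zs χ).toFinset, ((zs χ).count r : ℝ) ^ 2 ≤ M * (Q.natDegree:ℝ) ^ 2 +
      2 * ∑ j ∈ Ico 1 M, ((M:ℝ) - j) * ‖pw χ j‖ ^ 2 := by
  have hs := one_lt_sqrt (F := F)
  have h1 := fejer (zs χ).toFinset (fun r => ((zs χ).count r : ℝ)) (fun _ _ => Nat.cast_nonneg _)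
    (fun r => (((√(Fintype.card F : ℝ) : ℝ) : ℂ) * r)⁻¹) (by
      intro r hr
      rw [Multiset.mem_toFinset, zs, Multiset.mem_filter] at hr
      rw [norm_inv, norm_mul, hr.2, Complex.norm_real, Real.norm_eq_abs, abs_of_pos (by linarith),
        mul_inv_cancel₀ (by linarith), inv_one]) M
  have h2 : ∀ j, ∑ r ∈ (zs χ).toFinset, (((zs χ).count r : ℝ) : ℂ) *
      ((((√(Fintype.card F : ℝ) : ℝ) : ℂ) * r)⁻¹) ^ j = pw χ j := by
    intro j
    unfold pw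
    rw [Finset.sum_multiset_map_count]
    refine sum_congr rfl (fun r _ => ?_)
    rw [nsmul_eq_mul]
    push_cast
    rfl
  have h3 : ∑ r ∈ (zs χ).toFinset, ((zs χ).count r : ℝ) = (zs χ).card := by
    have := Multiset.toFinset_sum_count_eq (zs χ)
    exact_mod_cast this
  simp only [h2, h3] at h1
  refine h1.trans ?_
  have h4 : ((zs χ).card : ℝ) ≤ Q.natDegree := by
    have := (card_zs_le hQ hirr hd hχ).1
    exact_mod_cast (by omega : (zs χ).card ≤ Q.natDegree)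
  have h5 : ((zs χ).card : ℝ) ^ 2 ≤ (Q.natDegree : ℝ) ^ 2 :=
    pow_le_pow_left₀ (Nat.cast_nonneg _) h4 2
  have h6 := mul_le_mul_of_nonneg_left h5 (Nat.cast_nonneg (α := ℝ) M)
  linarith

end Pool.Agent.H523.CM
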