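import Pool.Agent.H523.CM65

set_option autoImplicit false
set_option linter.unusedSectionVars false

/-! # The prime moduli with a good variance at all places up to 4/3 of the degree -/

namespace Pool.Agent.H523.CM

open Polynomial Finset Filter
open Pool.Agent.H341R2.Sharp (Mon mem_Mon Mon_zero Irr mem_Irr)
open Pool.Agent.H523.FF (Ir mem_Ir PL mem_PL card_PL two_le_card IrLE mem_IrLE irr_coprime PL_mod
  Ir_card sum_IrLE Ir_disj)

open scoped Classical

theorem pd_irr {F : Type} [Field F] [Fintype F] {Q : F[X]} (hQ : Q.Monic) (hirr : Irreducible Q) :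
    pd Q = {Q} := by
  ext P
  rw [mem_pd hQ, mem_singleton]
  constructor
  · rintro ⟨h1, h2, h3⟩
    exact eq_of_monic_of_associated h1 hQ ((h2.dvd_irreducible_iff_associated hirr).mp h3)
  · rintro rfl
    exact ⟨hQ, hirr, dvd_rfl⟩

/-- the bad prime moduli -/
def BadQ {F : Type} [Field F] [Fintype F] (ε δ : ℝ) (Q : F[X]) : Prop :=
  ∃ m : ℕ, Q.natDegree < m ∧ (m:ℝ) ≤ (4 / 3 - ε) * Q.natDegree ∧
    (Fintype.card F : ℝ) ^ m * ((Fintype.card F : ℝ) ^ (-(δ * Q.natDegree)) +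
      96 * Real.exp 18 / rho F ^ (m - Q.natDegree)) <
      |GV m Q - (Fintype.card F : ℝ) ^ m * (Q.natDegree -
        (Fintype.card F : ℝ) / ((Fintype.card F : ℝ) - 1))|

theorem good_irr (ε : ℝ) (hε : 0 < ε) : ∃ δ : ℝ, 0 < δ ∧ ∃ N : ℕ,
    ∀ (F : Type) [Field F] [Fintype F] (d : ℕ), N ≤ d →
      (((Ir F d).filter (fun Q => BadQ ε δ Q)).card : ℝ) ≤
        (Fintype.card F : ℝ) ^ d * (Fintype.card F : ℝ) ^ (-(δ * d)) := by
  have hε' : 0 < min (ε / 2) (1 / 4) := lt_min (by linarith) (by norm_num)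
  obtain ⟨δ₀, hδ₀, N₀, hN₀⟩ := fg_gen (min (ε / 2) (1 / 4)) hε' (min_le_right _ _)
  set δ : ℝ := min δ₀ 1 / 2 with hδ
  have hmin : 0 < min δ₀ 1 := lt_min hδ₀ one_pos
  have hδ0 : 0 < δ := by rw [hδ]; linarith
  have hδ1 : 2 * δ ≤ δ₀ := by rw [hδ]; linarith [min_le_left δ₀ 1]
  have hδ2 : δ ≤ 1 / 2 := by rw [hδ]; linarith [min_le_right δ₀ 1]
  obtain ⟨N₁, hN₁⟩ := poly_le_exp 4 1 δ hδ0
  obtain ⟨N₂, hN₂⟩ := poly_le_exp 4 1 (1 / 2) (by norm_num)
  refine ⟨δ, hδ0, N₀ + N₁ + N₂ + 1, ?_⟩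
  intro F _ _ d hd
  have hq := two_le_card (F := F)
  set q : ℝ := (Fintype.card F : ℝ) with hqd
  have hq0 : 0 < q := by linarith
  have hd1 : 1 ≤ d := by omega
  have hdr : (1:ℝ) ≤ d := by exact_mod_cast hd1
  have hexp : ∀ η : ℝ, 0 ≤ η → ((2:ℝ) ^ η) ^ d ≤ q ^ (η * d) := by
    intro η hη
    rw [Real.rpow_mul hq0.le, Real.rpow_natCast]
    exact pow_le_pow_left₀ (by positivity) (Real.rpow_le_rpow (by norm_num) hq hη) d
  set y : ℝ := q ^ (-(δ * d)) with hy
  have hy0 : 0 < y := Real.rpow_pos_of_pos hq0 _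
  have hyinv : y = (q ^ (δ * d))⁻¹ := by rw [hy, Real.rpow_neg hq0.le]
  have hYpos : 0 < q ^ (δ * d) := Real.rpow_pos_of_pos hq0 _
  have h4d : 4 * (d:ℝ) ≤ q ^ (δ * d) := by
    have := hN₁ d (by omega)
    rw [pow_one] at this
    exact this.trans (hexp δ hδ0.le)
  have hyd : d * y ≤ 1 / 4 := by
    rw [hyinv, ← div_eq_mul_inv, div_le_iff₀ hYpos]
    linarith
  have hy14 : y ≤ 1 / 4 := by nlinarith
  -- the bad sets
  set J : Finset ℕ := (Ioc d (2 * d)).filter (fun m : ℕ => (m:ℝ) ≤ (4 / 3 - ε) * d) with hJ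
  set Bm : ℕ → Finset F[X] := fun m => (Mon F d).filter (fun Q => q ^ m * (q ^ m) ^ (-δ₀) +
          EQ m Q < |GV m Q - q ^ m * (d - q / (q - 1) - ∑ P ∈ pd Q, P.natDegree * gP P)|) with hBm
  have hsub : (Ir F d).filter (fun Q => BadQ ε δ Q) ⊆ J.biUnion Bm := by
    intro Q hQ
    rw [mem_filter] at hQ
    obtain ⟨hQI, m, hm1, hm2, hm3⟩ := hQ
    obtain ⟨hQ1, hQ2, hQ3⟩ := mem_Ir.mp hQI
    rw [hQ3] at hm1 hm2 hm3
    rw [mem_biUnion]
    refine ⟨m, ?_, ?_⟩
    · rw [hJ, mem_filter, mem_Ioc]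
      refine ⟨⟨hm1, ?_⟩, hm2⟩
      have : (m:ℝ) ≤ 2 * d := by nlinarith
      exact_mod_cast this
    · rw [hBm]
      simp only
      rw [mem_filter, mem_Mon]
      refine ⟨⟨hQ1, hQ3⟩, ?_⟩
      rw [pd_irr hQ1 hQ2, sum_singleton, hQ3]
      have hqm : 0 < q ^ m := by positivity
      have hEQ : EQ m Q ≤ q ^ m * (96 * Real.exp 18 / rho F ^ (m - d)) := by
        unfold EQ
        rw [pd_irr hQ1 hQ2, prod_singleton, card_singleton, pow_one, hQ3, ← hqd]
        apply mul_le_mul_of_nonneg_left _ hqm.le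
        have h1 := gP_le_one hQ2
        have h2 := rho_ge (F := F)
        have h3 : 0 ≤ 24 * (Real.exp 18 * 2) / rho F ^ (m - d) := by
          have : 0 < rho F := by linarith
          positivity
        calc (1 + gP Q) * (24 * (Real.exp 18 * 2) / rho F ^ (m - d))
            ≤ 2 * (24 * (Real.exp 18 * 2) / rho F ^ (m - d)) :=
              mul_le_mul_of_nonneg_right (by linarith) h3
          _ = _ := by ring
      have hgP : d * gP Q ≤ y / 2 := by
        unfold gP
        rw [hQ3, ← hqd]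
        have h1 : 2 ≤ q ^ d := by
          calc (2:ℝ) ≤ q := hq
            _ = q ^ 1 := (pow_one q).symm
            _ ≤ q ^ d := pow_le_pow_right₀ (by linarith) hd1
        have h2 : 1 / (q ^ d - 1) ≤ 2 / q ^ d := by
          rw [div_le_div_iff₀ (by linarith) (by linarith)]
          linarith
        have h3 : 4 * (d:ℝ) ≤ q ^ ((1:ℝ) / 2 * d) := by
          have := hN₂ d (by omega)
          rw [pow_one] at this
          exact this.trans (hexp (1 / 2) (by norm_num))
        have h4 : q ^ ((1:ℝ) / 2 * d) * q ^ ((1:ℝ) / 2 * d) = q ^ d := by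
          rw [← Real.rpow_add hq0, ← Real.rpow_natCast]
          congr 1
          ring
        have h5 : q ^ (δ * d) ≤ q ^ ((1:ℝ) / 2 * d) := by
          apply Real.rpow_le_rpow_of_exponent_le (by linarith)
          exact mul_le_mul_of_nonneg_right hδ2 (by linarith)
        have h6 : 0 < q ^ ((1:ℝ) / 2 * d) := Real.rpow_pos_of_pos hq0 _
        calc (d:ℝ) * (1 / (q ^ d - 1)) ≤ d * (2 / q ^ d) :=
              mul_le_mul_of_nonneg_left h2 (by linarith)
          _ = (4 * d) / (2 * (q ^ ((1:ℝ) / 2 * d) * q ^ ((1:ℝ) / 2 * d))) := by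
              rw [h4]
              have : q ^ d ≠ 0 := by positivity
              field_simp
              norm_num
          _ ≤ q ^ ((1:ℝ) / 2 * d) / (2 * (q ^ ((1:ℝ) / 2 * d) * q ^ ((1:ℝ) / 2 * d))) :=
              div_le_div_of_nonneg_right h3 (by positivity)
          _ = 1 / (2 * q ^ ((1:ℝ) / 2 * d)) := by field_simp
          _ ≤ 1 / (2 * q ^ (δ * d)) := by
              apply one_div_le_one_div_of_le (by positivity)
              linarith
          _ = y / 2 := by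
              rw [hyinv]
              field_simp
      have hpw : (q ^ m) ^ (-δ₀) ≤ y / 2 := by
        have h1 : (q ^ m) ^ (-δ₀) = q ^ (-(δ₀ * m)) := by
          rw [← Real.rpow_natCast, ← Real.rpow_mul hq0.le]
          congr 1
          ring
        rw [h1]
        have h2 : q ^ (-(δ₀ * m)) ≤ q ^ (-(δ * d) + -(δ * d)) := by
          apply Real.rpow_le_rpow_of_exponent_le (by linarith)
          have h3 : (d:ℝ) ≤ m := by exact_mod_cast hm1.le
          have h4 : 2 * δ * d ≤ δ₀ * m := mul_le_mul hδ1 h3 (by linarith) hδ₀.le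
          linarith
        rw [Real.rpow_add hq0, ← hy] at h2
        nlinarith
      have h1 : |GV m Q - q ^ m * (d - q / (q - 1))| ≤
          |GV m Q - q ^ m * (d - q / (q - 1) - d * gP Q)| + q ^ m * (d * gP Q) := by
        have hg0 := gP_pos hQ2
        have : GV m Q - q ^ m * (d - q / (q - 1)) =
            (GV m Q - q ^ m * (d - q / (q - 1) - d * gP Q)) + (-(q ^ m * (d * gP Q))) := by ring
        rw [this]
        refine (abs_add_le _ _).trans ?_
        rw [abs_neg, abs_of_nonneg (by positivity : 0 ≤ q ^ m * (d * gP Q))]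
      have h2 : q ^ m * (d * gP Q) ≤ q ^ m * (y / 2) := mul_le_mul_of_nonneg_left hgP hqm.le
      have h3 : q ^ m * (q ^ m) ^ (-δ₀) ≤ q ^ m * (y / 2) := mul_le_mul_of_nonneg_left hpw hqm.le
      rw [mul_add] at hm3
      linarith
  have hcard : ∀ m ∈ J, ((Bm m).card : ℝ) ≤ q ^ d * (y * y) := by
    intro m hm
    rw [hJ, mem_filter, mem_Ioc] at hm
    have hmd : d < m := hm.1.1
    have h1 := hN₀ F m d (by omega) (by
      have h2 : min (ε / 2) (1 / 4) ≤ ε / 2 := min_le_left _ _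
      have h3 : 0 ≤ (m:ℝ) := Nat.cast_nonneg m
      have h4 : (3 / 4 + min (ε / 2) (1 / 4)) * (m:ℝ) ≤ (3 / 4 + ε / 2) * ((4 / 3 - ε) * d) :=
        mul_le_mul (by linarith) hm.2 h3 (by linarith)
      refine h4.trans ?_
      have h5 : (3 / 4 + ε / 2) * (4 / 3 - ε) ≤ 1 := by nlinarith
      calc (3 / 4 + ε / 2) * ((4 / 3 - ε) * (d:ℝ)) = ((3 / 4 + ε / 2) * (4 / 3 - ε)) * d := by ring
        _ ≤ 1 * d := mul_le_mul_of_nonneg_right h5 (by linarith)
        _ = d := one_mul _) hmd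
    rw [← hqd] at h1
    refine h1.trans ?_
    apply mul_le_mul_of_nonneg_left _ (by positivity)
    have h2 : (q ^ m) ^ (-δ₀) = q ^ (-(δ₀ * m)) := by
      rw [← Real.rpow_natCast, ← Real.rpow_mul hq0.le]
      congr 1
      ring
    rw [h2, hy, ← Real.rpow_add hq0]
    apply Real.rpow_le_rpow_of_exponent_le (by linarith)
    have h3 : (d:ℝ) ≤ m := by exact_mod_cast hmd.le
    have h4 : 2 * δ * d ≤ δ₀ * m := mul_le_mul hδ1 h3 (by linarith) hδ₀.le
    linarith
  have hJc : (J.card : ℝ) ≤ d := by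
    have h1 : J.card ≤ (Ioc d (2 * d)).card := card_filter_le _ _
    rw [Nat.card_Ioc] at h1
    have : J.card ≤ d := by omega
    exact_mod_cast this
  calc (((Ir F d).filter (fun Q => BadQ ε δ Q)).card : ℝ) ≤ ((J.biUnion Bm).card : ℝ) := by
        exact_mod_cast card_le_card hsub
    _ ≤ ∑ m ∈ J, ((Bm m).card : ℝ) := by exact_mod_cast card_biUnion_le
    _ ≤ ∑ m ∈ J, q ^ d * (y * y) := sum_le_sum hcard
    _ = J.card * (q ^ d * (y * y)) := by rw [sum_const, nsmul_eq_mul]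
    _ ≤ d * (q ^ d * (y * y)) := mul_le_mul_of_nonneg_right hJc (by positivity)
    _ = q ^ d * y * (d * y) := by ring
    _ ≤ q ^ d * y * 1 := mul_le_mul_of_nonneg_left (by linarith) (by positivity)
    _ = _ := mul_one _

end Pool.Agent.H523.CM
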