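import Pool.Agent.H523.CM66

set_option autoImplicit false
set_option linter.unusedSectionVars false

/-! # Simple zeros for the good prime moduli -/

namespace Pool.Agent.H523.CM

open Polynomial Finset Filter
open Pool.Agent.H341R2.Sharp (Mon mem_Mon Mon_zero Irr mem_Irr)
open Pool.Agent.H523.FF (Ir mem_Ir PL mem_PL card_PL two_le_card IrLE mem_IrLE irr_coprime PL_mod
  Ir_card sum_IrLE Ir_disj)
open Pool.Agent.Q284 Pool.Agent.Q284.WE

open scoped Classical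

variable {F : Type} [Field F] [Fintype F] {Q : F[X]}

theorem sqrt_growth (m : ℕ) : (m:ℝ) * (√(Fintype.card F : ℝ))⁻¹ ^ m ≤ 3 ∧
    (√(Fintype.card F : ℝ))⁻¹ ^ m ≤ 1 ∧ 0 < (√(Fintype.card F : ℝ))⁻¹ ^ m := by
  have hs := one_lt_sqrt (F := F)
  have hq := two_le_card (F := F)
  set s := √(Fintype.card F : ℝ) with hsd
  have hs0 : 0 < s := by linarith
  have h14 : (1:ℝ) + 0.4 ≤ s := by
    rw [hsd]
    apply Real.le_sqrt_of_sq_le
    norm_num
    linarith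
  have h1 : (1:ℝ) + m * 0.4 ≤ s ^ m := by
    refine (one_add_mul_le_pow (by norm_num : (-2:ℝ) ≤ 0.4) m).trans ?_
    exact pow_le_pow_left₀ (by norm_num) h14 m
  refine ⟨?_, pow_le_one₀ (by positivity) (inv_le_one_of_one_le₀ hs.le), by positivity⟩
  rw [inv_pow, ← div_eq_mul_inv, div_le_iff₀ (by positivity)]
  linarith

/-- the absolute constant -/
noncomputable def C1 : ℝ := 192 * Real.exp 18 + 5

theorem C1_pos : 0 < C1 := by
  unfold C1
  positivity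

/-- the upper bound of the mean square, all places up to 4/3 -/
theorem W_upper (hQ : Q.Monic) (hirr : Irreducible Q) (hd : 2 ≤ Q.natDegree)
    [Fintype (MulChar (AdjoinRoot Q) ℂ)] {ε δ : ℝ} (hε : 0 < ε) (hδ : 0 ≤ δ) (hgood : ¬ BadQ ε δ Q)
    {m : ℕ} (hm : 1 ≤ m) (hm2 : (m:ℝ) ≤ (4 / 3 - ε) * Q.natDegree) :
    ∑ χ ∈ (univ : Finset (MulChar (AdjoinRoot Q) ℂ)).erase 1, ‖pw χ m‖ ^ 2 ≤
      (tot Q : ℝ) * (min (m:ℝ) Q.natDegree + C1) := by
  have hq := two_le_card (F := F)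
  have hW := W_le hQ hirr hd hm
  have hcard := card_nonpr hQ hirr
  obtain ⟨hx3, hx1, hx0⟩ := sqrt_growth (F := F) m
  set q : ℝ := (Fintype.card F : ℝ) with hqd
  have hq0 : 0 < q := by linarith
  set d := Q.natDegree with hdd
  set x : ℝ := (√q)⁻¹ ^ m with hx
  have htot : (tot Q : ℝ) = q ^ d - 1 := by rw [tot_eq_card hQ, card_units hQ hirr]
  have hqd2 : 2 ≤ q ^ d := by
    calc (2:ℝ) ≤ q := hq
      _ = q ^ 1 := (pow_one q).symm
      _ ≤ q ^ d := pow_le_pow_right₀ (by linarith) (by omega)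
  have htot0 : 0 < (tot Q : ℝ) := by linarith
  have hcard' : (((univ : Finset (MulChar (AdjoinRoot Q) ℂ)).erase 1).card : ℝ) ≤ tot Q := by
    rw [hcard, htot]
    linarith
  have hqm : 0 < q ^ m := by positivity
  have h18 := Real.exp_pos 18
  have hV : (∑ χ ∈ (univ : Finset (MulChar (AdjoinRoot Q) ℂ)).erase 1, ‖trc (cq Q χ) m‖ ^ 2) /
      q ^ m ≤ tot Q * (min (m:ℝ) d + 96 * Real.exp 18) := by
    rw [div_le_iff₀ hqm]
    rcases le_or_gt m d with h | h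
    · have h1 := moment_upper hQ hm h
      rw [← hqd] at h1
      rw [min_eq_left (by exact_mod_cast h)]
      refine h1.trans ?_
      rw [← mul_assoc]
      apply mul_le_mul_of_nonneg_right _ hqm.le
      apply mul_le_mul_of_nonneg_left _ htot0.le
      linarith
    · have h2d : m < 2 * d := by
        have hdr : (0:ℝ) < d := by exact_mod_cast (by omega : 0 < d)
        have : (m:ℝ) < 2 * d := by nlinarith
        exact_mod_cast this
      rw [moment_variance hQ hirr h h2d]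
      unfold BadQ at hgood
      push Not at hgood
      have h1 := (abs_le.mp (hgood m h hm2)).2
      rw [← hqd, ← hdd] at h1
      have hrho := rho_ge (F := F)
      have h2 : 96 * Real.exp 18 / rho F ^ (m - d) ≤ 96 * Real.exp 18 := by
        apply div_le_self (by positivity)
        exact one_le_pow₀ (by linarith)
      have h3 : q ^ (-(δ * d)) ≤ 1 := by
        apply Real.rpow_le_one_of_one_le_of_nonpos (by linarith)
        have : 0 ≤ δ * d := by positivity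
        linarith
      have h4 : 1 ≤ q / (q - 1) := by
        rw [le_div_iff₀ (by linarith)]
        linarith
      rw [min_eq_right (by exact_mod_cast h.le), mul_assoc]
      apply mul_le_mul_of_nonneg_left _ htot0.le
      have h5 : GV m Q ≤ q ^ m * (d - q / (q - 1)) +
          q ^ m * (q ^ (-(δ * d)) + 96 * Real.exp 18 / rho F ^ (m - d)) := by linarith
      refine h5.trans ?_
      rw [← mul_add, mul_comm]
      apply mul_le_mul_of_nonneg_right _ hqm.le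
      linarith
  have hmin : 0 ≤ min (m:ℝ) d := le_min (Nat.cast_nonneg _) (Nat.cast_nonneg _)
  have hminx : min (m:ℝ) d * x ≤ 3 :=
    (mul_le_mul_of_nonneg_right (min_le_left _ _) hx0.le).trans hx3
  refine hW.trans ?_
  have h1 : (1 + x) * ((∑ χ ∈ (univ : Finset (MulChar (AdjoinRoot Q) ℂ)).erase 1,
      ‖trc (cq Q χ) m‖ ^ 2) / q ^ m) ≤ (1 + x) * (tot Q * (min (m:ℝ) d + 96 * Real.exp 18)) :=
    mul_le_mul_of_nonneg_left hV (by linarith)
  have h2 : 2 * x * (((univ : Finset (MulChar (AdjoinRoot Q) ℂ)).erase 1).card : ℝ) ≤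
      2 * tot Q := by
    calc 2 * x * (((univ : Finset (MulChar (AdjoinRoot Q) ℂ)).erase 1).card : ℝ)
        ≤ 2 * 1 * (tot Q : ℝ) := mul_le_mul (by linarith) hcard' (Nat.cast_nonneg _) (by norm_num)
      _ = _ := by ring
  have h3 : (1 + x) * (tot Q * (min (m:ℝ) d + 96 * Real.exp 18)) ≤
      tot Q * (min (m:ℝ) d + 3 + 192 * Real.exp 18) := by
    have h4 : (1 + x) * (min (m:ℝ) d + 96 * Real.exp 18) ≤ min (m:ℝ) d + 3 + 192 * Real.exp 18 := by
      have h5 : x * (96 * Real.exp 18) ≤ 1 * (96 * Real.exp 18) :=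
        mul_le_mul_of_nonneg_right hx1 (by positivity)
      nlinarith
    calc (1 + x) * (tot Q * (min (m:ℝ) d + 96 * Real.exp 18))
        = tot Q * ((1 + x) * (min (m:ℝ) d + 96 * Real.exp 18)) := by ring
      _ ≤ _ := mul_le_mul_of_nonneg_left h4 htot0.le
  unfold C1
  calc _ ≤ tot Q * (min (m:ℝ) d + 3 + 192 * Real.exp 18) + 2 * tot Q := by linarith
    _ = _ := by ring

/-- the sum of the squares of the multiplicities -/
noncomputable def sqm (χ : MulChar (AdjoinRoot Q) ℂ) : ℝ :=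
  ∑ r ∈ (zs χ).toFinset, ((zs χ).count r : ℝ) ^ 2

theorem sum_sqm (hQ : Q.Monic) (hirr : Irreducible Q) (hd : 2 ≤ Q.natDegree)
    [Fintype (MulChar (AdjoinRoot Q) ℂ)] {ε δ : ℝ} (hε : 0 < ε) (hε1 : ε ≤ 1 / 3) (hδ : 0 ≤ δ)
    (hgood : ¬ BadQ ε δ Q) :
    ∑ χ ∈ (univ : Finset (MulChar (AdjoinRoot Q) ℂ)).erase 1, sqm χ ≤
      (tot Q : ℝ) * (Q.natDegree * (1 + 1 / (3 * (4 / 3 - ε) ^ 2)) + C1) := by
  have hC := C1_pos
  set d := Q.natDegree with hdd
  have hdr : (2:ℝ) ≤ d := by exact_mod_cast hd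
  set κ : ℝ := 4 / 3 - ε with hκ
  have hκ1 : 1 ≤ κ := by rw [hκ]; linarith
  set M : ℕ := ⌊κ * d⌋₊ + 1 with hM
  have hM1 : κ * d ≤ M := by
    rw [hM]
    push_cast
    exact (Nat.lt_floor_add_one _).le
  have hM0 : (0:ℝ) < M := by rw [hM]; positivity
  have hdM : d ≤ M := by
    have : (d:ℝ) ≤ M := by nlinarith
    exact_mod_cast this
  have hj : ∀ j ∈ Ico 1 M, (j:ℝ) ≤ κ * d := by
    intro j hj
    rw [mem_Ico, hM] at hj
    have h1 : j ≤ ⌊κ * d⌋₊ := by omega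
    exact (Nat.cast_le.mpr h1).trans (Nat.floor_le (by positivity))
  have htot0 : (0:ℝ) ≤ tot Q := Nat.cast_nonneg _
  have hcard' : (((univ : Finset (MulChar (AdjoinRoot Q) ℂ)).erase 1).card : ℝ) ≤ tot Q := by
    rw [card_nonpr hQ hirr, tot_eq_card hQ, card_units hQ hirr]
    linarith
  set E := (univ : Finset (MulChar (AdjoinRoot Q) ℂ)).erase 1 with hE
  have h1 : (M:ℝ) ^ 2 * ∑ χ ∈ E, sqm χ ≤ E.card * (M * (d:ℝ) ^ 2) +
      2 * ∑ j ∈ Ico 1 M, ((M:ℝ) - j) * ∑ χ ∈ E, ‖pw χ j‖ ^ 2 := by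
    rw [mul_sum]
    refine (sum_le_sum (fun χ hχ => fejer_char hQ hirr hd (mem_erase.mp hχ).1 M)).trans
      (le_of_eq ?_)
    rw [sum_add_distrib, sum_const, nsmul_eq_mul, ← mul_sum, sum_comm]
    congr 2
    refine sum_congr rfl (fun j _ => ?_)
    rw [mul_sum]
  have h2 : ∑ j ∈ Ico 1 M, ((M:ℝ) - j) * ∑ χ ∈ E, ‖pw χ j‖ ^ 2 ≤
      ∑ j ∈ Ico 1 M, ((M:ℝ) - j) * (tot Q * (min (j:ℝ) d + C1)) := by
    refine sum_le_sum (fun j hj' => ?_)
    have h3 := mem_Ico.mp hj'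
    have h4 : (0:ℝ) ≤ (M:ℝ) - j := by
      have : (j:ℝ) ≤ M := by exact_mod_cast h3.2.le
      linarith
    exact mul_le_mul_of_nonneg_left (W_upper hQ hirr hd hε hδ hgood h3.1 (hj j hj')) h4
  have h3 : 2 * ∑ j ∈ Ico 1 M, ((M:ℝ) - j) * (tot Q * (min (j:ℝ) d + C1)) =
      tot Q * (d * (M:ℝ) ^ 2 + ((d:ℝ) ^ 3 - d) / 3 - M * (d:ℝ) ^ 2 +
        2 * C1 * ∑ j ∈ Ico 1 M, ((M:ℝ) - j)) := by
    rw [← sum_min d M hdM]
    have h4 : ∀ j : ℕ, ((M:ℝ) - j) * (tot Q * (min (j:ℝ) d + C1)) =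
        tot Q * (((M:ℝ) - j) * min (j:ℝ) d) + tot Q * C1 * ((M:ℝ) - j) := fun j => by ring
    rw [sum_congr rfl (fun j _ => h4 j), sum_add_distrib, ← mul_sum, ← mul_sum]
    ring
  have h4 : 2 * ∑ j ∈ Ico 1 M, ((M:ℝ) - j) ≤ (M:ℝ) ^ 2 := by
    have h5 : ∀ M : ℕ, 1 ≤ M → 2 * ∑ j ∈ Ico 1 M, ((M:ℝ) - j) = (M:ℝ) * (M - 1) := by
      intro M hM
      induction M with
      | zero => omega
      | succ M ih =>
        rcases Nat.eq_zero_or_pos M with h0 | h0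
        · subst h0
          simp
        · rw [sum_Ico_succ_top (by omega)]
          have h6 : ∑ j ∈ Ico 1 M, (((M + 1 : ℕ) : ℝ) - j) =
              ∑ j ∈ Ico 1 M, ((M:ℝ) - j) + (M - 1) := by
            have h7 : ∀ j ∈ Ico 1 M, (((M + 1 : ℕ) : ℝ) - j) = ((M:ℝ) - j) + 1 := by
              intro j _
              push_cast
              ring
            rw [sum_congr rfl h7, sum_add_distrib, sum_const, Nat.card_Ico, nsmul_eq_mul, mul_one,
              Nat.cast_sub (by omega)]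
            push_cast
            ring
          rw [h6]
          have := ih h0
          push_cast
          linarith
    rw [h5 M (by omega)]
    nlinarith
  have h5 : (M:ℝ) ^ 2 * ∑ χ ∈ E, sqm χ ≤
      tot Q * (d * (M:ℝ) ^ 2 + (d:ℝ) ^ 3 / 3 + C1 * (M:ℝ) ^ 2) := by
    have h6 : (E.card : ℝ) * (M * (d:ℝ) ^ 2) ≤ tot Q * (M * (d:ℝ) ^ 2) :=
      mul_le_mul_of_nonneg_right hcard' (by positivity)
    have h7 : (tot Q : ℝ) * (d * (M:ℝ) ^ 2 + ((d:ℝ) ^ 3 - d) / 3 - M * (d:ℝ) ^ 2 +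
        2 * C1 * ∑ j ∈ Ico 1 M, ((M:ℝ) - j)) ≤
        tot Q * (d * (M:ℝ) ^ 2 + (d:ℝ) ^ 3 / 3 - M * (d:ℝ) ^ 2 + C1 * (M:ℝ) ^ 2) := by
      apply mul_le_mul_of_nonneg_left _ htot0
      have h8 := mul_le_mul_of_nonneg_left h4 hC.le
      linarith
    calc (M:ℝ) ^ 2 * ∑ χ ∈ E, sqm χ ≤ tot Q * (M * (d:ℝ) ^ 2) +
          tot Q * (d * (M:ℝ) ^ 2 + (d:ℝ) ^ 3 / 3 - M * (d:ℝ) ^ 2 + C1 * (M:ℝ) ^ 2) := by
          linarith
      _ = _ := by ring
  have h6 : ∑ χ ∈ E, sqm χ ≤ tot Q * (d * (M:ℝ) ^ 2 + (d:ℝ) ^ 3 / 3 + C1 * (M:ℝ) ^ 2) /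
      (M:ℝ) ^ 2 := by
    rw [le_div_iff₀ (by positivity), mul_comm]
    exact h5
  refine h6.trans ?_
  rw [mul_div_assoc]
  apply mul_le_mul_of_nonneg_left _ htot0
  have h7 : (d * (M:ℝ) ^ 2 + (d:ℝ) ^ 3 / 3 + C1 * (M:ℝ) ^ 2) / (M:ℝ) ^ 2 =
      d + d * ((d:ℝ) ^ 2 / (3 * (M:ℝ) ^ 2)) + C1 := by
    field_simp
  rw [h7]
  have h8 : (d:ℝ) ^ 2 / (3 * (M:ℝ) ^ 2) ≤ 1 / (3 * κ ^ 2) := by
    rw [div_le_div_iff₀ (by positivity) (by positivity)]
    have h9 : (κ * d) ^ 2 ≤ (M:ℝ) ^ 2 := pow_le_pow_left₀ (by positivity) hM1 2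
    nlinarith
  have h9 := mul_le_mul_of_nonneg_left h8 (by linarith : (0:ℝ) ≤ d)
  linarith

end Pool.Agent.H523.CM
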