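import Pool.Agent.H523.CM67

set_option autoImplicit false
set_option linter.unusedSectionVars false

/-! # At least 13/16 of the zeros are simple for almost all prime moduli -/

namespace Pool.Agent.H523.CM

open Polynomial Finset Filter
open Pool.Agent.H341R2.Sharp (Mon mem_Mon Mon_zero Irr mem_Irr)
open Pool.Agent.H523.FF (Ir mem_Ir PL mem_PL card_PL two_le_card IrLE mem_IrLE irr_coprime PL_mod
  Ir_card sum_IrLE Ir_disj)
open Pool.Agent.Q284 Pool.Agent.Q284.WE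

open scoped Classical

/-- the number of the simple elements of a multiset -/
noncomputable def nsim (Z : Multiset ℂ) : ℕ := (Z.toFinset.filter (fun r => Z.count r = 1)).card

theorem nsim_ge (Z : Multiset ℂ) :
    2 * (Z.card : ℝ) - ∑ r ∈ Z.toFinset, (Z.count r : ℝ) ^ 2 ≤ nsim Z := by
  have h1 : (Z.card : ℝ) = ∑ r ∈ Z.toFinset, (Z.count r : ℝ) := by
    have := Multiset.toFinset_sum_count_eq Z
    exact_mod_cast this.symm
  have h2 : (nsim Z : ℝ) = ∑ r ∈ Z.toFinset, if Z.count r = 1 then (1:ℝ) else 0 := by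
    unfold nsim
    rw [card_filter]
    push_cast
    rfl
  rw [h1, h2, mul_sum, ← sum_sub_distrib]
  refine sum_le_sum (fun r hr => ?_)
  have h3 : 1 ≤ Z.count r := Multiset.one_le_count_iff_mem.mpr (Multiset.mem_toFinset.mp hr)
  split_ifs with h
  · rw [h]
    norm_num
  · have h4 : (2:ℝ) ≤ Z.count r := by exact_mod_cast (by omega : 2 ≤ Z.count r)
    nlinarith

theorem ndis_ge (Z : Multiset ℂ) :
    (3 * (Z.card : ℝ) - ∑ r ∈ Z.toFinset, (Z.count r : ℝ) ^ 2) / 2 ≤ Z.toFinset.card := by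
  have h1 : (Z.card : ℝ) = ∑ r ∈ Z.toFinset, (Z.count r : ℝ) := by
    have := Multiset.toFinset_sum_count_eq Z
    exact_mod_cast this.symm
  have h2 : (Z.toFinset.card : ℝ) = ∑ r ∈ Z.toFinset, (1:ℝ) := by
    rw [sum_const, nsmul_eq_mul, mul_one]
  rw [h1, h2, mul_sum, ← sum_sub_distrib, sum_div]
  refine sum_le_sum (fun r hr => ?_)
  have h3 : 1 ≤ Z.count r := Multiset.one_le_count_iff_mem.mpr (Multiset.mem_toFinset.mp hr)
  rcases Nat.lt_or_ge (Z.count r) 2 with h | h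
  · have h4 : Z.count r = 1 := by omega
    rw [h4]
    norm_num
  · have h4 : (2:ℝ) ≤ Z.count r := by exact_mod_cast h
    nlinarith

theorem simple_core (ε₀ : ℝ) (hε₀ : 0 < ε₀) : ∃ ε : ℝ, 0 < ε ∧ ∃ N : ℕ,
    ∀ (F : Type) [Field F] [Fintype F] (Q : F[X]) [Fintype (MulChar (AdjoinRoot Q) ℂ)] (δ : ℝ),
      0 ≤ δ → Q.Monic → Irreducible Q → N ≤ Q.natDegree → ¬ BadQ ε δ Q →
      ∑ χ ∈ (univ : Finset (MulChar (AdjoinRoot Q) ℂ)).erase 1, sqm χ ≤
        (19 / 16 + ε₀) *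
          ∑ χ ∈ (univ : Finset (MulChar (AdjoinRoot Q) ℂ)).erase 1, ((zs χ).card : ℝ) := by
  have hC := C1_pos
  set ε : ℝ := min (ε₀ / 4) (1 / 3) with hε
  have hε0 : 0 < ε := lt_min (by linarith) (by norm_num)
  have hε1 : ε ≤ 1 / 3 := min_le_right _ _
  have hε2 : ε ≤ ε₀ / 4 := min_le_left _ _
  obtain ⟨N, hN⟩ := exists_nat_ge ((3 * (19 / 16 + ε₀) + C1) / (3 / 4 * ε₀))
  refine ⟨ε, hε0, N + 2, ?_⟩
  intro F _ _ Q _ δ hδ hQ hirr hNd hgood
  have hq := two_le_card (F := F)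
  have h1 := sum_sqm hQ hirr (by omega) hε0 hε1 hδ hgood
  have hcard := card_nonpr hQ hirr
  have htot : (tot Q : ℝ) = (Fintype.card F : ℝ) ^ Q.natDegree - 1 := by
    rw [tot_eq_card hQ, card_units hQ hirr]
  set q : ℝ := (Fintype.card F : ℝ) with hqd
  set d := Q.natDegree with hdd
  set G : ℝ := (tot Q : ℝ) with hG
  have hdN : (N:ℝ) ≤ d := by exact_mod_cast (by omega : N ≤ d)
  have hd2 : (2:ℝ) ≤ d := by exact_mod_cast (by omega : 2 ≤ d)
  have hdG : (d:ℝ) ≤ G := by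
    rw [htot]
    have h2 : (d:ℝ) + 1 ≤ 2 ^ d := by
      have := Nat.lt_two_pow_self (n := d)
      exact_mod_cast this
    have h3 : (2:ℝ) ^ d ≤ q ^ d := pow_le_pow_left₀ (by norm_num) hq d
    linarith
  have hbig : 3 * (19 / 16 + ε₀) + C1 ≤ 3 / 4 * ε₀ * d := by
    have h2 := hN.trans hdN
    rw [div_le_iff₀ (by positivity)] at h2
    linarith
  have hκ : 1 / (3 * (4 / 3 - ε) ^ 2) ≤ 3 / 16 + ε := by
    have h3 : 0 < 4 / 3 - ε := by linarith
    rw [div_le_iff₀ (by positivity)]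
    nlinarith [mul_nonneg hε0.le (by linarith : 0 ≤ 1 / 3 - ε), mul_nonneg hε0.le hε0.le,
      mul_nonneg (mul_nonneg hε0.le hε0.le) hε0.le]
  have hlow : (G - 1) * (d - 2) ≤
      ∑ χ ∈ (univ : Finset (MulChar (AdjoinRoot Q) ℂ)).erase 1, ((zs χ).card : ℝ) := by
    have h2 : (G - 1) * (d - 2) =
        ∑ χ ∈ (univ : Finset (MulChar (AdjoinRoot Q) ℂ)).erase 1, ((d:ℝ) - 2) := by
      rw [sum_const, nsmul_eq_mul, hcard, htot]
      ring
    rw [h2]
    refine sum_le_sum (fun χ hχ => ?_)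
    have h3 := (card_zs_le hQ hirr (by omega) (mem_erase.mp hχ).1).2
    have h4 : ((d - 2 : ℕ) : ℝ) ≤ (zs χ).card := by exact_mod_cast h3
    rw [Nat.cast_sub (by omega)] at h4
    exact_mod_cast h4
  have h2 : G * (d * (1 + 1 / (3 * (4 / 3 - ε) ^ 2)) + C1) ≤ (19 / 16 + ε₀) * ((G - 1) * (d - 2)) := by
    have hG0 : 0 ≤ G := by linarith
    have h3 : d * (1 + 1 / (3 * (4 / 3 - ε) ^ 2)) + C1 ≤ d * (19 / 16 + ε₀ / 4) + C1 := by
      have : (1 + 1 / (3 * (4 / 3 - ε) ^ 2)) ≤ 19 / 16 + ε₀ / 4 := by linarith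
      have := mul_le_mul_of_nonneg_left this (by linarith : (0:ℝ) ≤ d)
      linarith
    have h4 : d * (19 / 16 + ε₀ / 4) + C1 ≤ (19 / 16 + ε₀) * (d - 3) := by nlinarith
    calc G * (d * (1 + 1 / (3 * (4 / 3 - ε) ^ 2)) + C1) ≤ G * ((19 / 16 + ε₀) * (d - 3)) :=
          mul_le_mul_of_nonneg_left (h3.trans h4) hG0
      _ = (19 / 16 + ε₀) * (G * (d - 3)) := by ring
      _ ≤ (19 / 16 + ε₀) * ((G - 1) * (d - 2)) := by
          apply mul_le_mul_of_nonneg_left _ (by linarith)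
          nlinarith
  calc _ ≤ G * (d * (1 + 1 / (3 * (4 / 3 - ε) ^ 2)) + C1) := h1
    _ ≤ _ := h2
    _ ≤ _ := mul_le_mul_of_nonneg_left hlow (by linarith)

end Pool.Agent.H523.CM
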