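import Pool.Agent.H523.CM68

set_option autoImplicit false
set_option linter.unusedSectionVars false

/-! # The form factor of the zeros -/

namespace Pool.Agent.H523.CM

open Polynomial Finset Filter
open Pool.Agent.H341R2.Sharp (Mon mem_Mon Mon_zero Irr mem_Irr)
open Pool.Agent.H523.FF (Ir mem_Ir PL mem_PL card_PL two_le_card IrLE mem_IrLE irr_coprime PL_mod
  Ir_card sum_IrLE Ir_disj)
open Pool.Agent.Q284 Pool.Agent.Q284.WE

open scoped Classical

variable {F : Type} [Field F] [Fintype F] {Q : F[X]}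

/-- the lower bound at the degree -/
theorem moment_lower2 (hQ : Q.Monic) (hirr : Irreducible Q) [Fintype (MulChar (AdjoinRoot Q) ℂ)]
    {m : ℕ} (hm1 : 1 ≤ m) (hm : m ≤ Q.natDegree) :
    (tot Q : ℝ) * (m * ((Fintype.card F : ℝ) ^ m - 2 * (Fintype.card F : ℝ) ^ (m / 2)) - m ^ 2) -
      ((Fintype.card F : ℝ) ^ m) ^ 2 ≤
    ∑ χ ∈ (univ : Finset (MulChar (AdjoinRoot Q) ℂ)).erase 1, ‖trc (cq Q χ) m‖ ^ 2 := by
  have := RH.finite_adjoinRoot hQ
  have _ : Fintype (AdjoinRoot Q)ˣ := Fintype.ofFinite _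
  set q : ℝ := (Fintype.card F : ℝ) with hqd
  set T := (Mon F m).filter (fun f => IsCoprime f Q) with hT
  have h1 := add_sum_erase (univ : Finset (MulChar (AdjoinRoot Q) ℂ))
    (fun χ => ‖trc (cq Q χ) m‖ ^ 2) (mem_univ 1)
  have h0 : ∀ χ : MulChar (AdjoinRoot Q) ℂ, trc (cq Q χ) m =
      ∑ f ∈ T, (lam m f : ℂ) * χ (AdjoinRoot.mk Q f) := by
    intro χ
    rw [trc_lam hm1, hT, sum_filter]
    refine sum_congr rfl (fun f _ => ?_)
    split_ifs with h
    · rfl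
    · rw [χ.map_nonunit (fun hh => h (RH.isUnit_mk_iff.mp hh)), mul_zero]
  have h2 : ∑ χ : MulChar (AdjoinRoot Q) ℂ, ‖trc (cq Q χ) m‖ ^ 2 =
      (tot Q : ℝ) * ∑ f ∈ T, lam m f ^ 2 := by
    rw [sum_congr rfl (fun χ _ => by rw [h0 χ]), parseval_poly hQ T (lam m),
      sum_units_inj hQ T (lam m) (fun f hf g hg h => mk_inj_Mon hQ hm (mem_filter.mp hf).1
      (mem_filter.mp hg).1 h) (fun f hf _ => (mem_filter.mp hf).2), tot_eq_card hQ]
  have h3 : trc (cq Q 1) m = ((∑ f ∈ T, lam m f : ℝ) : ℂ) := by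
    rw [h0, Complex.ofReal_sum]
    refine sum_congr rfl (fun f hf => ?_)
    obtain ⟨u, hu⟩ := RH.isUnit_mk_iff.mpr (mem_filter.mp hf).2
    rw [← hu, MulChar.one_apply_coe, mul_one]
  have h30 : 0 ≤ ∑ f ∈ T, lam m f := sum_nonneg (fun f _ => lam_nonneg m f)
  have h31 : ∑ f ∈ T, lam m f ≤ q ^ m := by
    rw [← sum_lam_total hm1]
    exact sum_le_sum_of_subset_of_nonneg (filter_subset _ _) (fun f _ _ => lam_nonneg m f)
  rw [h2, h3, Complex.norm_real, Real.norm_eq_abs, sq_abs] at h1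
  have h32 : (∑ f ∈ T, lam m f) ^ 2 ≤ (q ^ m) ^ 2 := pow_le_pow_left₀ h30 h31 2
  have h4 : (m:ℝ) * (q ^ m - 2 * q ^ (m / 2)) - m ^ 2 ≤ ∑ f ∈ T, lam m f ^ 2 := by
    have h5 : (Ir F m).erase Q ⊆ T := by
      intro f hf
      rw [mem_erase] at hf
      obtain ⟨h6, h7, h8⟩ := mem_Ir.mp hf.2
      rw [hT, mem_filter, mem_Mon]
      refine ⟨⟨h6, h8⟩, ?_⟩
      rw [Irreducible.coprime_iff_not_dvd h7]
      intro hdvd
      exact hf.1 (eq_of_monic_of_associated h6 hQ ((h7.dvd_irreducible_iff_associated hirr).mp hdvd))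
    have h6 : ∑ f ∈ (Ir F m).erase Q, (m:ℝ) ^ 2 ≤ ∑ f ∈ T, lam m f ^ 2 := by
      refine le_trans (sum_le_sum (fun f hf => ?_))
        (sum_le_sum_of_subset_of_nonneg h5 (fun _ _ _ => sq_nonneg _))
      exact pow_le_pow_left₀ (Nat.cast_nonneg _) (lam_irr (mem_of_mem_erase hf) hm1) 2
    rw [sum_const, nsmul_eq_mul] at h6
    refine le_trans ?_ h6
    have h60 : ((Ir F m).card : ℝ) - 1 ≤ (((Ir F m).erase Q).card : ℝ) := by
      have h61 := pred_card_le_card_erase (s := Ir F m) (a := Q)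
      have h62 : (Ir F m).card ≤ ((Ir F m).erase Q).card + 1 := by omega
      have h63 : ((Ir F m).card : ℝ) ≤ (((Ir F m).erase Q).card : ℝ) + 1 := by exact_mod_cast h62
      linarith
    have h7 := Pool.Agent.H523.FF.Ir_card_lower (F := F) m (by omega)
    rw [← hqd] at h7
    have hmr : (0:ℝ) < m := by exact_mod_cast hm1
    have h8 : q ^ m - 2 * q ^ (m / 2) ≤ ((Ir F m).card : ℝ) * m := by
      have h9 := mul_le_mul_of_nonneg_right h7 hmr.le
      have h10 : (q ^ m / m - 2 * q ^ (m / 2) / m) * m = q ^ m - 2 * q ^ (m / 2) := by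
        field_simp
      linarith
    calc (m:ℝ) * (q ^ m - 2 * q ^ (m / 2)) - m ^ 2 ≤ m * (((Ir F m).card : ℝ) * m) - m ^ 2 := by
          have := mul_le_mul_of_nonneg_left h8 hmr.le
          linarith
      _ = (((Ir F m).card : ℝ) - 1) * m ^ 2 := by ring
      _ ≤ _ := mul_le_mul_of_nonneg_right h60 (sq_nonneg _)
  have h5 := mul_le_mul_of_nonneg_left h4 (Nat.cast_nonneg (α := ℝ) (tot Q))
  linarith

/-- the number of the nontrivial zeros of all the characters -/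
theorem sum_card_zs (hQ : Q.Monic) (hirr : Irreducible Q) (hd : 2 ≤ Q.natDegree)
    [Fintype (MulChar (AdjoinRoot Q) ℂ)] :
    ∑ χ ∈ (univ : Finset (MulChar (AdjoinRoot Q) ℂ)).erase 1, ((zs χ).card : ℝ) =
      ((Fintype.card F : ℝ) ^ Q.natDegree - 2) * (Q.natDegree - 1) -
        ((Fintype.card F : ℝ) ^ Q.natDegree - (Fintype.card F : ℝ)) /
          ((Fintype.card F : ℝ) - 1) := by
  have hq := two_le_card (F := F)
  have hE := card_even hQ (by omega)
  have hcard := card_nonpr hQ hirr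
  rw [card_units hQ hirr] at hE
  set q : ℝ := (Fintype.card F : ℝ) with hqd
  set d := Q.natDegree with hdd
  have hd1 : ((d - 1 : ℕ) : ℝ) = (d:ℝ) - 1 := by rw [Nat.cast_sub (by omega)]; norm_num
  have hd2 : ((d - 2 : ℕ) : ℝ) = (d:ℝ) - 2 := by rw [Nat.cast_sub (by omega)]; norm_num
  have h1 : ∀ χ ∈ (univ : Finset (MulChar (AdjoinRoot Q) ℂ)).erase 1, ((zs χ).card : ℝ) =
      ((d:ℝ) - 1) - (if EvenC χ then 1 else 0) := by
    intro χ hχ
    have hne := (mem_erase.mp hχ).1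
    split_ifs with he
    · rw [(zs_even hQ hirr hd hne he).2, hd2]
      ring
    · rw [(zs_odd hQ hirr hd hne he).2, hd1]
      ring
  have hEv1 : EvenC (1 : MulChar (AdjoinRoot Q) ℂ) := by
    intro c hc
    have hu : IsUnit (AdjoinRoot.mk Q (C c)) :=
      (isUnit_C.mpr (isUnit_iff_ne_zero.mpr hc)).map (AdjoinRoot.mk Q)
    obtain ⟨u, hu⟩ := hu
    rw [← hu, MulChar.one_apply_coe]
  have h2 : ∑ χ ∈ (univ : Finset (MulChar (AdjoinRoot Q) ℂ)).erase 1,
      (if EvenC χ then (1:ℝ) else 0) = (q ^ d - 1) / (q - 1) - 1 := by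
    have h3 := add_sum_erase (univ : Finset (MulChar (AdjoinRoot Q) ℂ))
      (fun χ => if EvenC χ then (1:ℝ) else 0) (mem_univ 1)
    rw [if_pos hEv1] at h3
    have h4 : ∑ χ : MulChar (AdjoinRoot Q) ℂ, (if EvenC χ then (1:ℝ) else 0) =
        ((univ.filter (fun χ : MulChar (AdjoinRoot Q) ℂ => EvenC χ)).card : ℝ) := by
      rw [← sum_filter, sum_const, nsmul_eq_mul, mul_one]
    have h5 : ((univ.filter (fun χ : MulChar (AdjoinRoot Q) ℂ => EvenC χ)).card : ℝ) =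
        (q ^ d - 1) / (q - 1) := by
      rw [eq_div_iff (by linarith), mul_comm]
      exact hE
    rw [← h5, ← h4, ← h3]
    ring
  rw [sum_congr rfl h1, sum_sub_distrib, sum_const, nsmul_eq_mul, hcard, h2]
  have : q - 1 ≠ 0 := by linarith
  field_simp
  ring

/-- the mean square over the nonprincipal characters -/
noncomputable def MSq (Q : F[X]) [Fintype (MulChar (AdjoinRoot Q) ℂ)] (m : ℕ) : ℝ :=
  (∑ χ ∈ (univ : Finset (MulChar (AdjoinRoot Q) ℂ)).erase 1, ‖pw χ m‖ ^ 2) /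
    ((Fintype.card F : ℝ) ^ Q.natDegree - 2)

/-- the mean number of the zeros -/
noncomputable def Nav (Q : F[X]) [Fintype (MulChar (AdjoinRoot Q) ℂ)] : ℝ :=
  (∑ χ ∈ (univ : Finset (MulChar (AdjoinRoot Q) ℂ)).erase 1, ((zs χ).card : ℝ)) /
    ((Fintype.card F : ℝ) ^ Q.natDegree - 2)

theorem q_pow_ge (hd : 2 ≤ Q.natDegree) : 4 ≤ (Fintype.card F : ℝ) ^ Q.natDegree := by
  have hq := two_le_card (F := F)
  calc (4:ℝ) = 2 ^ 2 := by norm_num
    _ ≤ 2 ^ Q.natDegree := pow_le_pow_right₀ (by norm_num) hd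
    _ ≤ _ := pow_le_pow_left₀ (by norm_num) hq _

theorem Nav_eq (hQ : Q.Monic) (hirr : Irreducible Q) (hd : 2 ≤ Q.natDegree)
    [Fintype (MulChar (AdjoinRoot Q) ℂ)] : ∃ t : ℝ,
    Nav Q = (Q.natDegree - 1) - t ∧ 0 ≤ t ∧ t ≤ 1 / ((Fintype.card F : ℝ) - 1) ∧
    1 / ((Fintype.card F : ℝ) - 1) - t ≤ 1 / ((Fintype.card F : ℝ) ^ Q.natDegree - 2) := by
  have hq := two_le_card (F := F)
  have h4 := q_pow_ge (F := F) (Q := Q) hd
  have hs := sum_card_zs hQ hirr hd
  set q : ℝ := (Fintype.card F : ℝ) with hqd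
  set d := Q.natDegree with hdd
  set X := q ^ d with hX
  have hX2 : 0 < X - 2 := by linarith
  have hq1 : 0 < q - 1 := by linarith
  have hXq : q ≤ X := by
    rw [hX]
    calc q = q ^ 1 := (pow_one q).symm
      _ ≤ q ^ d := pow_le_pow_right₀ (by linarith) (by omega)
  refine ⟨(X - q) / ((q - 1) * (X - 2)), ?_, ?_, ?_, ?_⟩
  · unfold Nav
    rw [hs, ← hqd, ← hdd, ← hX]
    field_simp
  · exact div_nonneg (by linarith) (by positivity)
  · rw [div_le_div_iff₀ (by positivity) hq1]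
    nlinarith
  · have h5 : 1 / (q - 1) - (X - q) / ((q - 1) * (X - 2)) = (q - 2) / ((q - 1) * (X - 2)) := by
      field_simp
      ring
    rw [h5, div_le_div_iff₀ (by positivity) hX2]
    nlinarith

end Pool.Agent.H523.CM
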