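import Pool.Agent.H523.CM6

set_option autoImplicit false
set_option linter.unusedSectionVars false

/-! # The prime tuples against arbitrary weights: comparison with the rough polynomials -/

namespace Pool.Agent.H523.CM

open Polynomial Finset
open Pool.Agent.H341R2.Sharp (Mon mem_Mon)
open Pool.Agent.H523.FF (Ir mem_Ir PL mem_PL card_PL two_le_card IrLE mem_IrLE irr_coprime PL_mod)

open scoped Classical

variable {F : Type} [Field F] [Fintype F]

theorem norm_char (χ : AddChar F[X] ℂ) (x : F[X]) : ‖χ x‖ = 1 := by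
  obtain ⟨p, hp⟩ := CharP.exists F
  have hp0 : p ≠ 0 := (CharP.char_is_prime F p).ne_zero
  have h1 : χ x ^ p = 1 := by
    rw [← AddChar.map_nsmul_eq_pow, nsmul_eq_mul, CharP.cast_eq_zero, zero_mul,
      AddChar.map_zero_eq_one]
  have h2 : ‖χ x‖ ^ p = 1 := by rw [← norm_pow, h1, norm_one]
  exact (pow_eq_one_iff_of_nonneg (norm_nonneg _) hp0).mp h2

theorem card_Mon (n : ℕ) : ((Mon F n).card : ℝ) = (Fintype.card F : ℝ) ^ n := by
  have h := sum_Mon_eq (F := F) n (fun _ => (1:ℝ))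
  rw [sum_const, sum_const, nsmul_eq_mul, nsmul_eq_mul, mul_one, mul_one, card_PL] at h
  rw [h]
  push_cast
  rfl

/-- from small discs and small denominators to all characters -/
theorem V_abstract {m n r : ℕ} (hrm : 2 * r ≤ m) (hmn : m ≤ n) (Ev : F[X] → ℝ) (W : ℝ)
    (hW : ∀ (φ : AddChar F[X] ℂ) (Q : F[X]), Q.Monic → (∀ y : F[X], φ (Q * y) = 1) →
      (∀ T : F[X], (∀ y : F[X], φ (T * y) = 1) → Q ∣ T) → Q.natDegree ≤ r →
      ∑ f ∈ Mon F n, ‖∑ g ∈ PL F (Q.natDegree + r), (Ev (f + g) : ℂ) * φ (f + g)‖ ^ 2 ≤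
        ((Fintype.card F : ℝ) ^ Q.natDegree) ^ 2 * W) (ψ : AddChar (Fin m → F) ℂ) :
    ((Fintype.card F : ℝ) ^ r) ^ 2 *
      ∑ f ∈ Mon F n, ‖∑ c, (Ev (f + inc m c) : ℂ) * ψ c‖ ^ 2 ≤
      ((Fintype.card F : ℝ) ^ m) ^ 2 * W := by
  have hq := two_le_card (F := F)
  set q : ℝ := (Fintype.card F : ℝ) with hqd
  have hq0 : 0 < q := by linarith
  set Ψ : AddChar F[X] ℂ := ψ.compAddMonoidHom (cf m) with hΨ
  obtain ⟨Q, hQ, hQr, hg, hmin⟩ := exists_denominator Ψ r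
  set φ := phi Ψ Q with hφd
  set d := Q.natDegree + r with hdd
  have hdm : d ≤ m := by omega
  have hU := hW φ Q hQ (fun y => phi_mul (Ψ := Ψ) hQ y)
    (fun T hT => phi_conductor hQ hg hmin hT) hQr
  rw [← hdd] at hU
  have hΨ1 : ∀ c : Fin m → F, ψ c = Ψ (inc m c) := by
    intro c
    rw [hΨ, AddChar.compAddMonoidHom_apply, cf_inc]
  -- averaging over the smaller disc
  have key : ∀ f : F[X], (q ^ d) ^ 2 * ‖∑ c, (Ev (f + inc m c) : ℂ) * ψ c‖ ^ 2 ≤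
      q ^ m * ∑ h ∈ PL F m, ‖∑ g ∈ PL F d, (Ev (f + h + g) : ℂ) * φ (f + h + g)‖ ^ 2 := by
    intro f
    have e1 : ∑ c, (Ev (f + inc m c) : ℂ) * ψ c = ∑ h ∈ PL F m, (Ev (f + h) : ℂ) * Ψ h := by
      rw [← sum_inc m (fun h => (Ev (f + h) : ℂ) * Ψ h)]
      exact sum_congr rfl (fun c _ => by rw [hΨ1])
    have e2 : ∀ g ∈ PL F d, ∑ h ∈ PL F m, (Ev (f + h) : ℂ) * Ψ h =
        ∑ h ∈ PL F m, (Ev (f + h + g) : ℂ) * (Ψ h * Ψ g) := by
      intro g hg
      rw [← sum_PL_shift (h := g) (lt_of_lt_of_le (mem_PL.mp hg) (by exact_mod_cast hdm))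
        (fun h => (Ev (f + h) : ℂ) * Ψ h)]
      refine sum_congr rfl (fun h _ => ?_)
      rw [AddChar.map_add_eq_mul, add_assoc]
    have e3 : ((q ^ d : ℝ) : ℂ) * ∑ h ∈ PL F m, (Ev (f + h) : ℂ) * Ψ h =
        ∑ h ∈ PL F m, Ψ h * ((φ (f + h))⁻¹ *
          ∑ g ∈ PL F d, (Ev (f + h + g) : ℂ) * φ (f + h + g)) := by
      have hcd : ((q ^ d : ℝ) : ℂ) = ((PL F d).card : ℂ) := by
        rw [card_PL, hqd]; push_cast; rfl
      rw [hcd, ← nsmul_eq_mul, ← sum_const, sum_congr rfl e2, sum_comm]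
      refine sum_congr rfl (fun h _ => ?_)
      rw [mul_sum, mul_sum]
      refine sum_congr rfl (fun g hg' => ?_)
      have h0 : φ (f + h) ≠ 0 := (φ.val_isUnit _).ne_zero
      have h1 : φ g = Ψ g := phi_eq hQ hg (mem_PL.mp hg')
      rw [AddChar.map_add_eq_mul φ (f + h) g, ← h1]
      field_simp
    rw [e1]
    have e4 : (q ^ d) ^ 2 * ‖∑ h ∈ PL F m, (Ev (f + h) : ℂ) * Ψ h‖ ^ 2 =
        ‖((q ^ d : ℝ) : ℂ) * ∑ h ∈ PL F m, (Ev (f + h) : ℂ) * Ψ h‖ ^ 2 := by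
      rw [norm_mul, mul_pow, Complex.norm_real, Real.norm_of_nonneg (by positivity)]
    rw [e4, e3]
    have e5 : ‖∑ h ∈ PL F m, Ψ h * ((φ (f + h))⁻¹ *
          ∑ g ∈ PL F d, (Ev (f + h + g) : ℂ) * φ (f + h + g))‖ ≤
        ∑ h ∈ PL F m, ‖∑ g ∈ PL F d, (Ev (f + h + g) : ℂ) * φ (f + h + g)‖ := by
      refine (norm_sum_le _ _).trans (le_of_eq (sum_congr rfl (fun h _ => ?_)))
      rw [norm_mul, norm_mul, norm_inv, norm_char, norm_char, inv_one, one_mul, one_mul]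
    refine (pow_le_pow_left₀ (norm_nonneg _) e5 2).trans ?_
    refine sq_sum_le_card_mul_sum_sq.trans (le_of_eq ?_)
    rw [card_PL, hqd]
    push_cast
    rfl
  have h1 : (q ^ Q.natDegree) ^ 2 * ((q ^ r) ^ 2 *
      ∑ f ∈ Mon F n, ‖∑ c, (Ev (f + inc m c) : ℂ) * ψ c‖ ^ 2) ≤
      (q ^ Q.natDegree) ^ 2 * ((q ^ m) ^ 2 * W) := by
    have e' : q ^ d = q ^ Q.natDegree * q ^ r := by rw [hdd, pow_add]
    calc (q ^ Q.natDegree) ^ 2 * ((q ^ r) ^ 2 *
          ∑ f ∈ Mon F n, ‖∑ c, (Ev (f + inc m c) : ℂ) * ψ c‖ ^ 2)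
        = ∑ f ∈ Mon F n, (q ^ d) ^ 2 * ‖∑ c, (Ev (f + inc m c) : ℂ) * ψ c‖ ^ 2 := by
          rw [← mul_sum, e']; ring
      _ ≤ ∑ f ∈ Mon F n, q ^ m * ∑ h ∈ PL F m,
            ‖∑ g ∈ PL F d, (Ev (f + h + g) : ℂ) * φ (f + h + g)‖ ^ 2 :=
          sum_le_sum (fun f _ => key f)
      _ = q ^ m * ∑ h ∈ PL F m, ∑ f ∈ Mon F n,
            ‖∑ g ∈ PL F d, (Ev (f + h + g) : ℂ) * φ (f + h + g)‖ ^ 2 := by
          rw [← mul_sum, sum_comm]
      _ = q ^ m * (q ^ m * ∑ f ∈ Mon F n,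
            ‖∑ g ∈ PL F d, (Ev (f + g) : ℂ) * φ (f + g)‖ ^ 2) := by
          congr 1
          rw [sum_congr rfl (g := fun _ => ∑ f ∈ Mon F n,
            ‖∑ g ∈ PL F d, (Ev (f + g) : ℂ) * φ (f + g)‖ ^ 2) (fun h hh => by
            apply sum_Mon_shift
              (φ := fun f => ‖∑ g ∈ PL F d, (Ev (f + g) : ℂ) * φ (f + g)‖ ^ 2)
            exact lt_of_lt_of_le (mem_PL.mp hh) (by exact_mod_cast hmn)), sum_const,
            nsmul_eq_mul, card_PL, hqd]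
          push_cast
          rfl
      _ ≤ q ^ m * (q ^ m * ((q ^ Q.natDegree) ^ 2 * W)) := by
          apply mul_le_mul_of_nonneg_left _ (by positivity)
          exact mul_le_mul_of_nonneg_left hU (by positivity)
      _ = _ := by ring
  exact le_of_mul_le_mul_left h1 (by positivity)

/-- Fourier coefficients of a part of the model -/
theorem LS_fourier {φ : AddChar F[X] ℂ} {Q : F[X]} (hQ : Q.Monic) (hφ : ∀ y : F[X], φ (Q * y) = 1)
    (hc : ∀ T : F[X], (∀ y : F[X], φ (T * y) = 1) → Q ∣ T) {r : ℕ}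
    {𝒮 : Finset (Finset F[X])} (h𝒮 : 𝒮 ⊆ SF F r) (δ : ℝ) (hδ0 : 0 ≤ δ)
    (hδ : ∀ s ∈ 𝒮, ∏ P ∈ s, gP P ≤ δ) (f : F[X]) :
    ‖∑ g ∈ PL F (Q.natDegree + r), (LS 𝒮 (f + g) : ℂ) * φ (f + g)‖ ≤
      (Fintype.card F : ℝ) ^ (Q.natDegree + r) * δ := by
  set d := Q.natDegree + r with hd
  have hL : ∑ g ∈ PL F d, (LS 𝒮 (f + g) : ℂ) * φ (f + g) = ∑ s ∈ 𝒮,
      (∏ P ∈ s, (1 / ((Fintype.card F : ℂ) ^ P.natDegree - 1))) *
        ((Fintype.card F : ℂ) ^ d * (if Q = ∏ P ∈ s, P then (-1) ^ s.card else 0)) := by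
    have e : ∀ g ∈ PL F d, (LS 𝒮 (f + g) : ℂ) * φ (f + g) = ∑ s ∈ 𝒮,
        (∏ P ∈ s, (1 / ((Fintype.card F : ℂ) ^ P.natDegree - 1))) *
        ((∏ P ∈ s, (1 + (if P ∣ f + g then -((Fintype.card F : ℂ) ^ P.natDegree) else 0))) *
          φ (f + g)) := by
      intro g _
      unfold LS
      rw [Complex.ofReal_sum, sum_mul]
      refine sum_congr rfl (fun s _ => ?_)
      rw [aP_prod]
      ring
    rw [sum_congr rfl e, sum_comm]
    refine sum_congr rfl (fun s hs => ?_)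
    have hs' := mem_SF.mp (h𝒮 hs)
    rw [← mul_sum, sum_ramanujan hQ hφ hc hs'.1 (by have := hs'.2; omega)]
  rw [hL]
  by_cases h : ∃ s ∈ 𝒮, Q = ∏ P ∈ s, P
  · obtain ⟨s, hs, hQs⟩ := h
    have hs' := mem_SF.mp (h𝒮 hs)
    rw [sum_eq_single_of_mem s hs]
    · rw [if_pos hQs]
      have h1 : ∏ P ∈ s, (1 / ((Fintype.card F : ℂ) ^ P.natDegree - 1)) =
          ((∏ P ∈ s, gP P : ℝ) : ℂ) := by
        unfold gP
        push_cast
        rfl
      rw [h1, norm_mul, norm_mul, norm_pow, norm_pow, norm_neg, norm_one, one_pow, mul_one,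
        Complex.norm_real, Complex.norm_natCast,
        Real.norm_of_nonneg (prod_nonneg (fun P hP => (gP_pos (hs'.1 P hP).2).le)), mul_comm]
      exact mul_le_mul_of_nonneg_left (hδ s hs) (by positivity)
    · intro t ht hne
      rw [if_neg, mul_zero, mul_zero]
      intro h3
      exact hne (pr_inj (mem_SF.mp (h𝒮 ht)).1 hs'.1 (h3.symm.trans hQs))
  · rw [sum_eq_zero]
    · rw [norm_zero]; positivity
    · intro s hs
      rw [if_neg, mul_zero, mul_zero]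
      intro h3
      exact h ⟨s, hs, h3⟩

/-- the product model: the rough polynomials -/
noncomputable def Lz (z : ℕ) (f : F[X]) : ℝ := ∏ P ∈ IrLE F z, (1 + aP P f)

theorem Lz_eq (z : ℕ) (f : F[X]) : Lz z f = LS (IrLE F z).powerset f := by
  unfold Lz LS
  rw [prod_one_add]

theorem one_add_aP {P : F[X]} (hP : Irreducible P) (f : F[X]) :
    0 ≤ 1 + aP P f ∧ 1 + aP P f ≤ 1 + gP P := by
  have h := norm_gt hP
  have h1 := gP_pos hP
  have h2 : aP P f = if P ∣ f then -1 else gP P := by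
    unfold aP gP
    split_ifs
    · rw [div_eq_iff (by linarith)]; ring
    · simp
  rw [h2]
  split_ifs
  · constructor <;> linarith
  · constructor <;> linarith

theorem Lz_bounds {z : ℕ} (hz : 0 < z) (f : F[X]) : 0 ≤ Lz z f ∧ Lz z f ≤ Real.exp 3 * z := by
  unfold Lz
  constructor
  · exact prod_nonneg (fun P hP => (one_add_aP (mem_IrLE.mp hP).2.1 f).1)
  · refine le_trans ?_ (mertens (F := F) hz)
    exact prod_le_prod (fun P hP => (one_add_aP (mem_IrLE.mp hP).2.1 f).1)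
      (fun P hP => (one_add_aP (mem_IrLE.mp hP).2.1 f).2)

/-- dispersion of the difference of the two models -/
theorem V_models {m n r z : ℕ} (hrm : 2 * r ≤ m) (hmn : m ≤ n) (hz : 0 < z) (hzr : z ≤ r)
    (hW : ∑ P ∈ IrLE F z, P.natDegree ≤ n) (ψ : AddChar (Fin m → F) ℂ) :
    ∑ f ∈ Mon F n, ‖∑ c, ((Lb r (f + inc m c) - Lz z (f + inc m c) : ℝ) : ℂ) * ψ c‖ ^ 2 ≤
      (Fintype.card (Fin m → F) : ℝ) * ((Fintype.card F : ℝ) ^ (n + m) *
        (2 * (1 / (Fintype.card F : ℝ) ^ z) ^ 2 +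
          2 * ((1 / 2 : ℝ) ^ (r / z) * (Real.exp 3 * z) ^ 2))) := by
  have hq := two_le_card (F := F)
  set q : ℝ := (Fintype.card F : ℝ) with hqd
  have hq0 : 0 < q := by linarith
  set 𝒮₁ := SF F r \ (IrLE F z).powerset with h𝒮₁
  set 𝒮₂ := (IrLE F z).powerset \ SF F r with h𝒮₂
  have hsplit : ∀ x : F[X], Lb r x - Lz z x = LS 𝒮₁ x - LS 𝒮₂ x := by
    intro x
    rw [Lb_eq, Lz_eq]
    unfold LS
    rw [h𝒮₁, h𝒮₂]
    have e1 := sum_inter_add_sum_sdiff (SF F r) (IrLE F z).powerset (fun s => ∏ P ∈ s, aP P x)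
    have e2 := sum_inter_add_sum_sdiff (IrLE F z).powerset (SF F r) (fun s => ∏ P ∈ s, aP P x)
    rw [inter_comm] at e2
    linarith
  have hm𝒮₂ : ∀ s ∈ 𝒮₂, s ⊆ IrLE F z := fun s hs => mem_powerset.mp (mem_sdiff.mp hs).1
  have hcard : (Fintype.card (Fin m → F) : ℝ) = q ^ m := by
    rw [Fintype.card_fun, Fintype.card_fin, hqd]; push_cast; rfl
  -- the first part
  have h1 : ∑ f ∈ Mon F n, ‖∑ c, (LS 𝒮₁ (f + inc m c) : ℂ) * ψ c‖ ^ 2 ≤
      (q ^ m) ^ 2 * (q ^ n * (1 / q ^ z) ^ 2) := by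
    have h2 := V_abstract hrm hmn (LS 𝒮₁) (q ^ n * ((q ^ r) ^ 2 * (1 / q ^ z) ^ 2)) (by
      intro φ Q hQ hφ hc hQr
      calc ∑ f ∈ Mon F n, ‖∑ g ∈ PL F (Q.natDegree + r), (LS 𝒮₁ (f + g) : ℂ) * φ (f + g)‖ ^ 2
          ≤ ∑ f ∈ Mon F n, (q ^ (Q.natDegree + r) * (1 / q ^ z)) ^ 2 := by
            refine sum_le_sum (fun f _ => pow_le_pow_left₀ (norm_nonneg _) ?_ 2)
            refine LS_fourier hQ hφ hc sdiff_subset (1 / q ^ z) (by positivity) ?_ f
            intro s hs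
            rw [mem_sdiff, mem_powerset] at hs
            have hs' := mem_SF.mp hs.1
            have h3 : ∃ P ∈ s, z < P.natDegree := by
              by_contra hcon
              push Not at hcon
              exact hs.2 (fun P hP => mem_IrLE.mpr ⟨(hs'.1 P hP).1, (hs'.1 P hP).2, hcon P hP⟩)
            obtain ⟨P₀, hP₀, hdeg⟩ := h3
            have hg1 : ∀ P ∈ s, 0 ≤ gP P ∧ gP P ≤ 1 := by
              intro P hP
              refine ⟨(gP_pos (hs'.1 P hP).2).le, ?_⟩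
              unfold gP
              have h4 : q ^ 1 ≤ q ^ P.natDegree :=
                pow_le_pow_right₀ (by linarith) (hs'.1 P hP).2.natDegree_pos
              rw [pow_one] at h4
              rw [div_le_one (by linarith)]
              linarith
            rw [← mul_prod_erase s gP hP₀]
            have h5 : ∏ P ∈ s.erase P₀, gP P ≤ 1 :=
              prod_le_one (fun P hP => (hg1 P (mem_of_mem_erase hP)).1)
                (fun P hP => (hg1 P (mem_of_mem_erase hP)).2)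
            have h6 : gP P₀ ≤ 1 / q ^ z := by
              unfold gP
              apply one_div_le_one_div_of_le (by positivity)
              have h7 : q ^ (z + 1) ≤ q ^ P₀.natDegree := pow_le_pow_right₀ (by linarith) hdeg
              have h8 : (1:ℝ) ≤ q ^ z := one_le_pow₀ (by linarith)
              have h9 : q ^ (z + 1) = q ^ z * q := pow_succ _ _
              nlinarith
            calc gP P₀ * ∏ P ∈ s.erase P₀, gP P ≤ gP P₀ * 1 :=
                  mul_le_mul_of_nonneg_left h5 (hg1 P₀ hP₀).1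
              _ ≤ 1 / q ^ z := by rw [mul_one]; exact h6
        _ = (q ^ Q.natDegree) ^ 2 * (q ^ n * ((q ^ r) ^ 2 * (1 / q ^ z) ^ 2)) := by
            rw [sum_const, nsmul_eq_mul, card_Mon, ← hqd, pow_add]
            ring) ψ
    have h3 : (q ^ r) ^ 2 * ∑ f ∈ Mon F n, ‖∑ c, (LS 𝒮₁ (f + inc m c) : ℂ) * ψ c‖ ^ 2 ≤
        (q ^ r) ^ 2 * ((q ^ m) ^ 2 * (q ^ n * (1 / q ^ z) ^ 2)) := by
      refine h2.trans (le_of_eq ?_)
      ring
    exact le_of_mul_le_mul_left h3 (by positivity)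
  -- the second part
  have h2 : ∑ f ∈ Mon F n, ‖∑ c, (LS 𝒮₂ (f + inc m c) : ℂ) * ψ c‖ ^ 2 ≤
      (q ^ m) ^ 2 * (q ^ n * ((1 / 2 : ℝ) ^ (r / z) * (Real.exp 3 * z) ^ 2)) := by
    have hψ1 : ∀ c : Fin m → F, ‖ψ c‖ = 1 := by
      intro c
      have := norm_char (ψ.compAddMonoidHom (cf m)) (inc m c)
      rwa [AddChar.compAddMonoidHom_apply, cf_inc] at this
    calc ∑ f ∈ Mon F n, ‖∑ c, (LS 𝒮₂ (f + inc m c) : ℂ) * ψ c‖ ^ 2
        ≤ ∑ f ∈ Mon F n, q ^ m * ∑ h ∈ PL F m, (LS 𝒮₂ (f + h)) ^ 2 := by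
          apply sum_le_sum
          intro f _
          have e1 : ‖∑ c, (LS 𝒮₂ (f + inc m c) : ℂ) * ψ c‖ ≤ ∑ c, |LS 𝒮₂ (f + inc m c)| := by
            refine (norm_sum_le _ _).trans (le_of_eq (sum_congr rfl (fun c _ => ?_)))
            rw [norm_mul, hψ1, mul_one, Complex.norm_real, Real.norm_eq_abs]
          rw [sum_inc m (fun h => |LS 𝒮₂ (f + h)|)] at e1
          refine (pow_le_pow_left₀ (norm_nonneg _) e1 2).trans ?_
          refine sq_sum_le_card_mul_sum_sq.trans (le_of_eq ?_)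
          rw [card_PL, hqd]
          simp only [sq_abs]
          push_cast
          rfl
      _ = q ^ m * (q ^ m * ∑ f ∈ Mon F n, (LS 𝒮₂ f) ^ 2) := by
          rw [← mul_sum, sum_comm]
          congr 1
          rw [sum_congr rfl (g := fun _ => ∑ f ∈ Mon F n, (LS 𝒮₂ f) ^ 2) (fun h hh => by
            apply sum_Mon_shift (φ := fun f => (LS 𝒮₂ f) ^ 2)
            exact lt_of_lt_of_le (mem_PL.mp hh) (by exact_mod_cast hmn)), sum_const,
            nsmul_eq_mul, card_PL, hqd]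
          push_cast
          rfl
      _ ≤ q ^ m * (q ^ m * (q ^ n * ((1 / 2 : ℝ) ^ (r / z) * (Real.exp 3 * z) ^ 2))) := by
          rw [LS_sq_Mon (n := n) (fun s hs P hP => by
            have := mem_IrLE.mp (hm𝒮₂ s hs hP)
            exact ⟨this.1, this.2.1⟩) (fun s hs t ht =>
            (sum_le_sum_of_subset (union_subset (hm𝒮₂ s hs) (hm𝒮₂ t ht))).trans hW)]
          apply mul_le_mul_of_nonneg_left _ (by positivity)
          apply mul_le_mul_of_nonneg_left _ (by positivity)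
          exact mul_le_mul_of_nonneg_left (rankin hz) (by positivity)
      _ = _ := by ring
  rw [hcard]
  calc ∑ f ∈ Mon F n, ‖∑ c, ((Lb r (f + inc m c) - Lz z (f + inc m c) : ℝ) : ℂ) * ψ c‖ ^ 2
      ≤ ∑ f ∈ Mon F n, (2 * ‖∑ c, (LS 𝒮₁ (f + inc m c) : ℂ) * ψ c‖ ^ 2 +
          2 * ‖∑ c, (LS 𝒮₂ (f + inc m c) : ℂ) * ψ c‖ ^ 2) := by
        apply sum_le_sum
        intro f _
        have e : ∑ c, ((Lb r (f + inc m c) - Lz z (f + inc m c) : ℝ) : ℂ) * ψ c =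
            ∑ c, (LS 𝒮₁ (f + inc m c) : ℂ) * ψ c - ∑ c, (LS 𝒮₂ (f + inc m c) : ℂ) * ψ c := by
          rw [← sum_sub_distrib]
          refine sum_congr rfl (fun c _ => ?_)
          rw [hsplit]
          push_cast
          ring
        rw [e]
        have h3 := norm_sub_le (∑ c, (LS 𝒮₁ (f + inc m c) : ℂ) * ψ c)
          (∑ c, (LS 𝒮₂ (f + inc m c) : ℂ) * ψ c)
        refine (pow_le_pow_left₀ (norm_nonneg _) h3 2).trans ?_
        nlinarith [sq_nonneg (‖∑ c, (LS 𝒮₁ (f + inc m c) : ℂ) * ψ c‖ -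
          ‖∑ c, (LS 𝒮₂ (f + inc m c) : ℂ) * ψ c‖)]
    _ ≤ 2 * ((q ^ m) ^ 2 * (q ^ n * (1 / q ^ z) ^ 2)) +
          2 * ((q ^ m) ^ 2 * (q ^ n * ((1 / 2 : ℝ) ^ (r / z) * (Real.exp 3 * z) ^ 2))) := by
        rw [sum_add_distrib, ← mul_sum, ← mul_sum]
        linarith
    _ = _ := by rw [pow_add]; ring

end Pool.Agent.H523.CM
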