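import Pool.Agent.H523.CM69

set_option autoImplicit false
set_option linter.unusedSectionVars false

/-! # The form factor of the zeros: the theorems -/

namespace Pool.Agent.H523.CM

open Polynomial Finset Filter
open Pool.Agent.H341R2.Sharp (Mon mem_Mon Mon_zero Irr mem_Irr)
open Pool.Agent.H523.FF (Ir mem_Ir PL mem_PL card_PL two_le_card IrLE mem_IrLE irr_coprime PL_mod
  Ir_card sum_IrLE Ir_disj)
open Pool.Agent.Q284 Pool.Agent.Q284.WE

open scoped Classical

variable {F : Type} [Field F] [Fintype F] {Q : F[X]}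

/-- the mean square in terms of the second moment -/
theorem MSq_bounds (hQ : Q.Monic) (hirr : Irreducible Q) (hd : 2 ≤ Q.natDegree)
    [Fintype (MulChar (AdjoinRoot Q) ℂ)] {m : ℕ} (hm : 1 ≤ m) :
    MSq Q m ≤ (1 + (√(Fintype.card F : ℝ))⁻¹ ^ m) *
      ((∑ χ ∈ (univ : Finset (MulChar (AdjoinRoot Q) ℂ)).erase 1, ‖trc (cq Q χ) m‖ ^ 2) /
        (Fintype.card F : ℝ) ^ m / ((Fintype.card F : ℝ) ^ Q.natDegree - 2)) +
        2 * (√(Fintype.card F : ℝ))⁻¹ ^ m ∧
    (1 - (√(Fintype.card F : ℝ))⁻¹ ^ m) *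
      ((∑ χ ∈ (univ : Finset (MulChar (AdjoinRoot Q) ℂ)).erase 1, ‖trc (cq Q χ) m‖ ^ 2) /
        (Fintype.card F : ℝ) ^ m / ((Fintype.card F : ℝ) ^ Q.natDegree - 2)) -
        (√(Fintype.card F : ℝ))⁻¹ ^ m ≤ MSq Q m := by
  have h4 := q_pow_ge (F := F) (Q := Q) hd
  have h1 := W_le hQ hirr hd hm
  have h2 := W_ge hQ hirr hd hm
  have hcard := card_nonpr hQ hirr
  rw [hcard] at h1 h2
  have hX : 0 < (Fintype.card F : ℝ) ^ Q.natDegree - 2 := by linarith
  unfold MSq
  constructor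
  · rw [div_le_iff₀ hX]
    refine h1.trans (le_of_eq ?_)
    field_simp
  · rw [le_div_iff₀ hX]
    refine le_trans (le_of_eq ?_) h2
    field_simp

/-- **below the degree: the ramp** -/
theorem ff_below (hQ : Q.Monic) (hirr : Irreducible Q) (hd : 2 ≤ Q.natDegree)
    [Fintype (MulChar (AdjoinRoot Q) ℂ)] {m : ℕ} (hm : 1 ≤ m) (hmd : m < Q.natDegree) :
    |MSq Q m - min (m:ℝ) (Nav Q)| ≤ 7 * (m * (√(Fintype.card F : ℝ))⁻¹ ^ m) +
      4 * ((Fintype.card F : ℝ) ^ m / (Fintype.card F : ℝ) ^ Q.natDegree) := by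
  have hq := two_le_card (F := F)
  have h4 := q_pow_ge (F := F) (Q := Q) hd
  obtain ⟨hb1, hb2⟩ := MSq_bounds hQ hirr hd hm
  obtain ⟨hx3, hx1, hx0⟩ := sqrt_growth (F := F) m
  have hup := moment_upper hQ hm hmd.le
  have hlo := moment_lower hQ hirr hm hmd
  have htot : (tot Q : ℝ) = (Fintype.card F : ℝ) ^ Q.natDegree - 1 := by
    rw [tot_eq_card hQ, card_units hQ hirr]
  obtain ⟨t, hN, ht0, ht1, ht2⟩ := Nav_eq hQ hirr hd
  have hhalf := RH.half_le (F := F) m
  rw [htot] at hup hlo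
  set q : ℝ := (Fintype.card F : ℝ) with hqd
  set d := Q.natDegree with hdd
  set X := q ^ d with hX
  set V := ∑ χ ∈ (univ : Finset (MulChar (AdjoinRoot Q) ℂ)).erase 1, ‖trc (cq Q χ) m‖ ^ 2 with hV
  set s := √q with hs
  have hs1 : 1 < s := one_lt_sqrt
  set x : ℝ := s⁻¹ ^ m with hx
  have hs2 : s ^ 2 = q := Real.sq_sqrt (by linarith)
  have hqm : 0 < q ^ m := by positivity
  have hmr : (1:ℝ) ≤ m := by exact_mod_cast hm
  have hxs : x * s ^ m = 1 := by
    rw [hx, ← mul_pow, inv_mul_cancel₀ (by linarith), one_pow]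
  have hqs : q ^ m = s ^ m * s ^ m := by
    rw [← hs2, ← pow_mul, ← pow_add]
    congr 1
    ring
  have hXq : q * q ^ m ≤ X := by
    rw [hX, ← pow_succ']
    exact pow_le_pow_right₀ (by linarith) (by omega)
  have hG : 0 < X - 2 := by linarith
  have hGX : X / 2 ≤ X - 2 := by linarith
  have hX0 : 0 < X := by linarith
  have hsm : 1 ≤ s ^ m := one_le_pow₀ hs1.le
  -- 1 / (X - 2) is small
  have hinv : 1 / (X - 2) ≤ 2 / X := by
    rw [div_le_div_iff₀ hG hX0]
    linarith
  have hinv2 : 1 / X ≤ x := by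
    rw [div_le_iff₀ hX0]
    have h5 : q ^ m ≤ X := by nlinarith
    have h6 : x * q ^ m = s ^ m := by rw [hqs, ← mul_assoc, hxs, one_mul]
    have h7 := mul_le_mul_of_nonneg_left h5 hx0.le
    linarith
  have hinv3 : 1 / (X - 2) ≤ 2 * x := by
    refine hinv.trans ?_
    calc 2 / X = 2 * (1 / X) := by ring
      _ ≤ 2 * x := by linarith
  have hVup : V / q ^ m / (X - 2) ≤ m + m * (1 / (X - 2)) := by
    rw [div_div, div_le_iff₀ (by positivity)]
    refine hup.trans (le_of_eq ?_)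
    field_simp
    ring
  have hVlo : m - 2 * (m * x) - m * (1 / (X - 2)) - q ^ m * (1 / (X - 2)) ≤ V / q ^ m / (X - 2) := by
    rw [div_div, le_div_iff₀ (by positivity)]
    refine le_trans ?_ hlo
    have h5 : (m - 2 * (m * x) - m * (1 / (X - 2)) - q ^ m * (1 / (X - 2))) * (q ^ m * (X - 2)) =
        m * q ^ m * (X - 2) - 2 * m * (x * q ^ m) * (X - 2) - m * q ^ m - q ^ m * q ^ m := by
      field_simp
    have h6 : x * q ^ m = s ^ m := by rw [hqs, ← mul_assoc, hxs, one_mul]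
    rw [h5, h6]
    have h7 : (X - 1) * (m * (q ^ m - 2 * q ^ (m / 2))) ≥
        (X - 1) * (m * (q ^ m - 2 * s ^ m)) := by
      apply mul_le_mul_of_nonneg_left _ (by linarith)
      apply mul_le_mul_of_nonneg_left _ (by linarith)
      linarith
    have h8 : (X - 1) * (m * (q ^ m - 2 * s ^ m)) = m * q ^ m * (X - 2) - 2 * m * s ^ m * (X - 2) +
        m * q ^ m - 2 * m * s ^ m := by ring
    have h9 : s ^ m ≤ q ^ m := by
      rw [hqs]
      nlinarith
    have h10 : 2 * m * s ^ m ≤ 2 * m * q ^ m := mul_le_mul_of_nonneg_left h9 (by positivity)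
    nlinarith
  have hv2 : V / q ^ m / (X - 2) ≤ 2 * m := by
    refine hVup.trans ?_
    have h5 : 1 / (X - 2) ≤ 1 := by
      rw [div_le_one hG]
      linarith
    nlinarith
  set v := V / q ^ m / (X - 2) with hv
  have hv0 : 0 ≤ v := by positivity
  have hmain : |MSq Q m - m| ≤ 7 * (m * x) + 2 * (q ^ m / X) := by
    have h5 : q ^ m * (1 / (X - 2)) ≤ 2 * (q ^ m / X) := by
      have := mul_le_mul_of_nonneg_left hinv hqm.le
      calc q ^ m * (1 / (X - 2)) ≤ q ^ m * (2 / X) := this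
        _ = _ := by ring
    have h6 : m * (1 / (X - 2)) ≤ 2 * (m * x) := by
      have := mul_le_mul_of_nonneg_left hinv3 (by linarith : (0:ℝ) ≤ m)
      linarith
    have h7 : x ≤ m * x := le_mul_of_one_le_left hx0.le hmr
    have h8 : x * v ≤ 2 * (m * x) := by
      have := mul_le_mul_of_nonneg_left hv2 hx0.le
      linarith
    have h9 : 0 < q ^ m / X := by positivity
    rw [abs_le]
    constructor
    · have h10 : (1 - x) * v = v - x * v := by ring
      rw [h10] at hb2
      linarith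
    · have h10 : (1 + x) * v = v + x * v := by ring
      rw [h10] at hb1
      linarith
  have hmin : |(m:ℝ) - min (m:ℝ) (Nav Q)| ≤ 2 * (q ^ m / X) := by
    rcases Nat.lt_or_ge m (d - 1) with h | h
    · have h5 : (m:ℝ) ≤ Nav Q := by
        have h6 : (m:ℝ) + 2 ≤ d := by exact_mod_cast (by omega : m + 2 ≤ d)
        have h7 : 1 / (q - 1) ≤ 1 := by
          rw [div_le_one (by linarith)]
          linarith
        rw [hN]
        linarith
      rw [min_eq_left h5, sub_self, abs_zero]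
      positivity
    · have hm' : m = d - 1 := by omega
      have h5 : (m:ℝ) = d - 1 := by
        rw [hm', Nat.cast_sub (by omega)]
        norm_num
      have h6 : min (m:ℝ) (Nav Q) = m - t := by
        rw [hN, ← h5, min_eq_right (by linarith)]
      rw [h6, sub_sub_cancel, abs_of_nonneg ht0]
      refine ht1.trans ?_
      have h7 : X = q * q ^ m := by
        rw [hX, ← pow_succ']
        congr 1
        omega
      have h8 : q ^ m / X = 1 / q := by
        rw [h7]
        field_simp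
      rw [h8, div_le_iff₀ (by linarith)]
      have : 2 * (1 / q) * (q - 1) = 2 - 2 / q := by
        field_simp
      rw [this]
      have h9 : 2 / q ≤ 1 := by
        rw [div_le_one (by linarith)]
        exact hq
      linarith
  calc |MSq Q m - min (m:ℝ) (Nav Q)| = |(MSq Q m - m) + (m - min (m:ℝ) (Nav Q))| := by ring_nf
    _ ≤ |MSq Q m - m| + |(m:ℝ) - min (m:ℝ) (Nav Q)| := abs_add_le _ _
    _ ≤ _ := by linarith

/-- at the degree -/
theorem ff_at (hQ : Q.Monic) (hirr : Irreducible Q) (hd : 2 ≤ Q.natDegree)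
    [Fintype (MulChar (AdjoinRoot Q) ℂ)] : |MSq Q Q.natDegree - Nav Q| ≤ 50 := by
  have hq := two_le_card (F := F)
  have h4 := q_pow_ge (F := F) (Q := Q) hd
  have hm : 1 ≤ Q.natDegree := by omega
  obtain ⟨hb1, hb2⟩ := MSq_bounds hQ hirr hd hm
  obtain ⟨hx3, hx1, hx0⟩ := sqrt_growth (F := F) Q.natDegree
  have hup := moment_upper hQ hm le_rfl
  have hlo := moment_lower2 hQ hirr hm le_rfl
  have htot : (tot Q : ℝ) = (Fintype.card F : ℝ) ^ Q.natDegree - 1 := by
    rw [tot_eq_card hQ, card_units hQ hirr]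
  obtain ⟨t, hN, ht0, ht1, ht2⟩ := Nav_eq hQ hirr hd
  have hhalf := RH.half_le (F := F) Q.natDegree
  rw [htot] at hup hlo
  set q : ℝ := (Fintype.card F : ℝ) with hqd
  set d := Q.natDegree with hdd
  set X := q ^ d with hX
  set V := ∑ χ ∈ (univ : Finset (MulChar (AdjoinRoot Q) ℂ)).erase 1, ‖trc (cq Q χ) d‖ ^ 2 with hV
  set s := √q with hs
  have hs1 : 1 < s := one_lt_sqrt
  set x : ℝ := s⁻¹ ^ d with hx
  have hs2 : s ^ 2 = q := Real.sq_sqrt (by linarith)
  have hmr : (2:ℝ) ≤ d := by exact_mod_cast hd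
  have hxs : x * s ^ d = 1 := by
    rw [hx, ← mul_pow, inv_mul_cancel₀ (by linarith), one_pow]
  have hqs : X = s ^ d * s ^ d := by
    rw [hX, ← hs2, ← pow_mul, ← pow_add]
    congr 1
    ring
  have hG : 0 < X - 2 := by linarith
  have hX0 : 0 < X := by linarith
  have hsm : 1 ≤ s ^ d := one_le_pow₀ hs1.le
  have hxX : x * X = s ^ d := by rw [hqs, ← mul_assoc, hxs, one_mul]
  have hX1 : 1 / X = x * x := by
    rw [div_eq_iff hX0.ne', mul_assoc, hxX, hxs]
  have hinv : 1 / (X - 2) ≤ 2 / X := by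
    rw [div_le_div_iff₀ hG hX0]
    linarith
  have hinv3 : 1 / (X - 2) ≤ 2 * x := by
    refine hinv.trans ?_
    calc 2 / X = 2 * (1 / X) := by ring
      _ = 2 * (x * x) := by rw [hX1]
      _ ≤ 2 * x := by nlinarith
  have hVup : V / X / (X - 2) ≤ d + d * (1 / (X - 2)) := by
    rw [div_div, div_le_iff₀ (by positivity)]
    refine hup.trans (le_of_eq ?_)
    field_simp
    ring
  have hXX : X * (1 / (X - 2)) ≤ 2 := by
    rw [mul_one_div, div_le_iff₀ hG]
    linarith
  have hVlo : d - 2 * (d * x) - 2 * (d * x) - d * x * (d * x) * 2 - X * (1 / (X - 2)) ≤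
      V / X / (X - 2) := by
    have h5 : (X - 1) * (d * (X - 2 * s ^ d) - d ^ 2) - X ^ 2 ≤ V := by
      refine le_trans ?_ hlo
      have : (X - 1) * (d * (X - 2 * s ^ d) - d ^ 2) ≤
          (X - 1) * (d * (X - 2 * q ^ (d / 2)) - d ^ 2) := by
        apply mul_le_mul_of_nonneg_left _ (by linarith)
        have := mul_le_mul_of_nonneg_left hhalf (by linarith : (0:ℝ) ≤ d)
        linarith
      linarith
    have h6 : (X - 1) * (d * (X - 2 * s ^ d) - d ^ 2) - X ^ 2 =
        X * ((X - 1) * (d - 2 * (d * x) - d * x * (d * x)) - X) := by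
      have h7 : s ^ d = x * X := hxX.symm
      have h8 : x * x * X = 1 := by rw [mul_assoc, hxX, hxs]
      rw [h7]
      have : (d:ℝ) ^ 2 = d ^ 2 * (x * x * X) := by rw [h8, mul_one]
      rw [this]
      ring
    rw [h6] at h5
    rw [div_div, le_div_iff₀ (by positivity)]
    refine le_trans ?_ h5
    have h7 : (d - 2 * (d * x) - 2 * (d * x) - d * x * (d * x) * 2 - X * (1 / (X - 2))) *
        (X * (X - 2)) = X * ((X - 2) * (d - 4 * (d * x) - d * x * (d * x) * 2) - X) := by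
      field_simp
      ring
    rw [h7]
    apply mul_le_mul_of_nonneg_left _ hX0.le
    have h8 : 0 ≤ d * x := by positivity
    nlinarith [mul_nonneg h8 h8, mul_nonneg h8 (by linarith : 0 ≤ X - 3),
      mul_nonneg (mul_nonneg h8 h8) (by linarith : 0 ≤ X - 3)]
  set v := V / X / (X - 2) with hv
  have h1G : 1 / (X - 2) ≤ 1 / 2 := by
    rw [div_le_div_iff₀ hG (by norm_num)]
    linarith
  have hv2 : v ≤ 2 * d := by
    refine hVup.trans ?_
    nlinarith
  have h8 : x * v ≤ 6 := by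
    have := mul_le_mul_of_nonneg_left hv2 hx0.le
    linarith
  have hNd : |Nav Q - d| ≤ 2 := by
    have h7 : 1 / (q - 1) ≤ 1 := by
      rw [div_le_one (by linarith)]
      linarith
    rw [hN, abs_le]
    constructor <;> linarith
  have hdx2 : d * x * (d * x) ≤ 9 := by
    have h9 : 0 ≤ d * x := by positivity
    nlinarith
  have hdG : d * (1 / (X - 2)) ≤ 6 := by
    have := mul_le_mul_of_nonneg_left hinv3 (by linarith : (0:ℝ) ≤ d)
    linarith
  have hb1' : MSq Q d ≤ v + x * v + 2 * x := by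
    refine hb1.trans (le_of_eq ?_)
    ring
  have hb2' : v - x * v - x ≤ MSq Q d := by
    refine le_trans (le_of_eq ?_) hb2
    ring
  rw [abs_le] at hNd ⊢
  constructor
  · linarith
  · linarith

/-- **beyond the degree: the plateau** -/
theorem ff_beyond (δ : ℝ) (hδ : 0 < δ) (hδ1 : δ ≤ 1 / 4) : ∃ N : ℕ,
    ∀ (F : Type) [Field F] [Fintype F] (Q : F[X]) [Fintype (MulChar (AdjoinRoot Q) ℂ)] (ε : ℝ),
      0 < ε → Q.Monic → Irreducible Q → N ≤ Q.natDegree → ¬ BadQ ε δ Q → ∀ m : ℕ,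
      Q.natDegree ≤ m → (m:ℝ) ≤ (4 / 3 - ε) * Q.natDegree →
      |MSq Q m - Nav Q| ≤ (Fintype.card F : ℝ) ^ (-(δ / 2 * Q.natDegree)) +
        (96 * Real.exp 18 + 50) / rho F ^ (m - Q.natDegree) := by
  set C₂ : ℝ := 14 + 480 * Real.exp 18 with hC₂
  have hC₂0 : 0 < C₂ := by positivity
  obtain ⟨N₁, hN₁⟩ := poly_le_exp C₂ 1 (1 / 4) (by norm_num)
  obtain ⟨N₂, hN₂⟩ := poly_le_exp 4 1 δ hδ
  refine ⟨N₁ + N₂ + 2, ?_⟩
  intro F _ _ Q _ ε hε hQ hirr hNd hgood m hdm hm2
  have hq := two_le_card (F := F)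
  have hd : 2 ≤ Q.natDegree := by omega
  have h4 := q_pow_ge (F := F) (Q := Q) hd
  have hrho := rho_ge (F := F)
  have h18 := Real.exp_pos 18
  rcases Nat.eq_or_lt_of_le hdm with h | h
  · -- at the degree
    have h1 := ff_at hQ hirr hd
    rw [← h, Nat.sub_self, pow_zero, div_one]
    have h2 : 0 < (Fintype.card F : ℝ) ^ (-(δ / 2 * Q.natDegree)) :=
      Real.rpow_pos_of_pos (by linarith) _
    linarith
  have hm : 1 ≤ m := by omega
  obtain ⟨hb1, hb2⟩ := MSq_bounds hQ hirr hd hm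
  obtain ⟨hx3, hx1, hx0⟩ := sqrt_growth (F := F) m
  obtain ⟨t, hN, ht0, ht1, ht2⟩ := Nav_eq hQ hirr hd
  have h2d : m < 2 * Q.natDegree := by
    have hdr : (0:ℝ) < Q.natDegree := by exact_mod_cast (by omega : 0 < Q.natDegree)
    have : (m:ℝ) < 2 * Q.natDegree := by nlinarith
    exact_mod_cast this
  have hmv := moment_variance hQ hirr h h2d
  have htot : (tot Q : ℝ) = (Fintype.card F : ℝ) ^ Q.natDegree - 1 := by
    rw [tot_eq_card hQ, card_units hQ hirr]
  have hGV0 : 0 ≤ GV m Q := sum_nonneg (fun _ _ => sq_nonneg _)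
  unfold BadQ at hgood
  push Not at hgood
  have hg := hgood m h hm2
  rw [hmv, htot] at hb1 hb2
  set q : ℝ := (Fintype.card F : ℝ) with hqd
  have hq0 : 0 < q := by linarith
  set d := Q.natDegree with hdd
  set X := q ^ d with hX
  set x : ℝ := (√q)⁻¹ ^ m with hx
  have hqm : 0 < q ^ m := by positivity
  have hdr : (2:ℝ) ≤ d := by exact_mod_cast hd
  have hG : 0 < X - 2 := by linarith
  have hX0 : 0 < X := by linarith
  set b : ℝ := 96 * Real.exp 18 / rho F ^ (m - d) with hb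
  have hρ1 : 1 ≤ rho F ^ (m - d) := one_le_pow₀ (by linarith)
  have hb0 : 0 < b := by positivity
  have hb96 : b ≤ 96 * Real.exp 18 := div_le_self (by positivity) hρ1
  set y : ℝ := q ^ (-(δ * d)) with hy
  have hy0 : 0 < y := Real.rpow_pos_of_pos hq0 _
  set z : ℝ := q ^ (-((1:ℝ) / 2 * d)) with hz
  have hz0 : 0 < z := Real.rpow_pos_of_pos hq0 _
  have hexp : ∀ η : ℝ, 0 ≤ η → ((2:ℝ) ^ η) ^ d ≤ q ^ (η * d) := by
    intro η hη
    rw [Real.rpow_mul hq0.le, Real.rpow_natCast]
    exact pow_le_pow_left₀ (by positivity) (Real.rpow_le_rpow (by norm_num) hq hη) d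
  have hzz : z * z = 1 / X := by
    rw [eq_div_iff hX0.ne', hz, hX, ← Real.rpow_add hq0, ← Real.rpow_natCast,
      ← Real.rpow_add hq0]
    have : -((1:ℝ) / 2 * d) + -((1:ℝ) / 2 * d) + (d:ℝ) = 0 := by ring
    rw [this, Real.rpow_zero]
  have hz1 : z ≤ 1 := by
    apply Real.rpow_le_one_of_one_le_of_nonpos (by linarith)
    have : 0 ≤ (1:ℝ) / 2 * d := by positivity
    linarith
  have hxz : x ≤ z := by
    rw [hx, hz, Real.sqrt_eq_rpow, ← Real.rpow_neg hq0.le, ← Real.rpow_natCast,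
      ← Real.rpow_mul hq0.le]
    apply Real.rpow_le_rpow_of_exponent_le (by linarith)
    have : (d:ℝ) ≤ m := by exact_mod_cast h.le
    linarith
  have hinv : 1 / (X - 2) ≤ 2 * z := by
    calc 1 / (X - 2) ≤ 2 / X := by
          rw [div_le_div_iff₀ hG hX0]
          linarith
      _ = 2 * (z * z) := by rw [hzz]; ring
      _ ≤ 2 * z := by nlinarith
  -- the comparison of the exponentials
  have hyz : z * (C₂ * d) ≤ y := by
    have h1 := (hN₁ d (by omega)).trans (hexp (1 / 4) (by norm_num))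
    rw [pow_one] at h1
    have h2 : z * q ^ ((1:ℝ) / 4 * d) ≤ y := by
      rw [hz, hy, ← Real.rpow_add hq0]
      apply Real.rpow_le_rpow_of_exponent_le (by linarith)
      nlinarith
    exact (mul_le_mul_of_nonneg_left h1 hz0.le).trans h2
  have hy4 : y ≤ 1 / 4 := by
    have h1 := (hN₂ d (by omega)).trans (hexp δ hδ.le)
    rw [pow_one] at h1
    have h2 : y * q ^ (δ * d) = 1 := by
      rw [hy, ← Real.rpow_add hq0]
      have : -(δ * d) + δ * d = 0 := by ring
      rw [this, Real.rpow_zero]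
    nlinarith
  have hyy : 2 * y ≤ q ^ (-(δ / 2 * d)) := by
    have h1 : q ^ (-(δ / 2 * d)) * q ^ (-(δ / 2 * d)) = y := by
      rw [hy, ← Real.rpow_add hq0]
      congr 1
      ring
    have h2 : 0 < q ^ (-(δ / 2 * d)) := Real.rpow_pos_of_pos hq0 _
    nlinarith
  -- the main quantity
  set g := GV m Q / q ^ m with hgd
  have hg0 : 0 ≤ g := by positivity
  have hgb : |g - (d - q / (q - 1))| ≤ y + b := by
    have h1 : g - (d - q / (q - 1)) = (GV m Q - q ^ m * (d - q / (q - 1))) / q ^ m := by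
      rw [hgd]
      field_simp
    rw [h1, abs_div, abs_of_pos hqm, div_le_iff₀ hqm]
    calc |GV m Q - q ^ m * (d - q / (q - 1))| ≤ q ^ m * (y + b) := hg
      _ = (y + b) * q ^ m := mul_comm _ _
  have hVg : (X - 1) * GV m Q / q ^ m / (X - 2) = g + g * (1 / (X - 2)) := by
    rw [hgd]
    field_simp
    ring
  rw [hVg] at hb1 hb2
  have hgd2 : g ≤ d * (1 + 48 * Real.exp 18) + 1 := by
    have h1 := (abs_le.mp hgb).2
    have h2 : 0 ≤ q / (q - 1) := div_nonneg hq0.le (by linarith)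
    have h3 : 2 * (48 * Real.exp 18) ≤ d * (48 * Real.exp 18) :=
      mul_le_mul_of_nonneg_right hdr (by positivity)
    linarith
  have hgG : g * (1 / (X - 2)) ≤ 2 * (z * g) := by
    have := mul_le_mul_of_nonneg_left hinv hg0
    linarith
  have hgG0 : 0 ≤ g * (1 / (X - 2)) := by positivity
  have hxg : x * g ≤ z * g := mul_le_mul_of_nonneg_right hxz hg0
  have hMg : |MSq Q m - g| ≤ 5 * (z * g) + 2 * z := by
    have h1 : x * (g * (1 / (X - 2))) ≤ 1 * (g * (1 / (X - 2))) :=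
      mul_le_mul_of_nonneg_right hx1 hgG0
    have h2 : 0 ≤ (1 - x) * (g * (1 / (X - 2))) := mul_nonneg (by linarith) hgG0
    have h3 : 0 ≤ z * g := by positivity
    rw [abs_le]
    constructor <;> nlinarith
  have hNg : |g - Nav Q| ≤ y + b + 2 * z := by
    have h1 : g - Nav Q = (g - (d - q / (q - 1))) + (-(1 / (q - 1) - t)) := by
      rw [hN]
      have : q / (q - 1) = 1 + 1 / (q - 1) := by
        have : q - 1 ≠ 0 := by linarith
        field_simp
        ring
      rw [this]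
      ring
    rw [h1]
    refine (abs_add_le _ _).trans ?_
    rw [abs_neg, abs_of_nonneg (by linarith : 0 ≤ 1 / (q - 1) - t)]
    linarith
  have hzg : z * g ≤ z * (d * (1 + 48 * Real.exp 18) + 1) := mul_le_mul_of_nonneg_left hgd2 hz0.le
  have hfin : 5 * (z * g) + 2 * z + 2 * z ≤ y := by
    refine le_trans ?_ hyz
    rw [hC₂]
    have h1 : z * 2 ≤ z * d := mul_le_mul_of_nonneg_left hdr hz0.le
    have h2 : 0 ≤ z * d * Real.exp 18 := by positivity
    nlinarith
  have hbb : b ≤ (96 * Real.exp 18 + 50) / rho F ^ (m - d) :=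
    div_le_div_of_nonneg_right (by linarith) (by linarith)
  calc |MSq Q m - Nav Q| = |(MSq Q m - g) + (g - Nav Q)| := by ring_nf
    _ ≤ |MSq Q m - g| + |g - Nav Q| := abs_add_le _ _
    _ ≤ (5 * (z * g) + 2 * z) + (y + b + 2 * z) := add_le_add hMg hNg
    _ ≤ _ := by linarith

end Pool.Agent.H523.CM
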