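import Pool.Agent.H523.CM32

set_option autoImplicit false
set_option linter.unusedSectionVars false

/-! # Convolutions with a function on a small disc -/

namespace Pool.Agent.H523.CM

open Polynomial Finset
open Pool.Agent.H341R2.Sharp (Mon mem_Mon)
open Pool.Agent.H523.FF (Ir mem_Ir PL mem_PL card_PL two_le_card IrLE mem_IrLE irr_coprime PL_mod
  Ir_card)

open scoped Classical

section abs
variable {G A : Type} [AddCommGroup G] [Fintype G] [AddCommGroup A]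

/-- **The norm of a convolution** -/
theorem conv_bound (ι : G →+ A) (S : Finset A) (hS : ∀ g f, f + ι g ∈ S ↔ f ∈ S)
    (u : G → ℂ) (w : A → ℂ) (K : ℝ) (hK : ∀ ψ : AddChar G ℂ, ‖∑ g, u g * ψ g‖ ^ 2 ≤ K) :
    ∑ f ∈ S, ‖∑ g, u g * w (f + ι g)‖ ^ 2 ≤ K * ∑ f ∈ S, ‖w f‖ ^ 2 := by
  set N : ℝ := (Fintype.card G : ℝ) with hN
  have hN0 : 0 < N := by rw [hN]; exact_mod_cast Fintype.card_pos
  have hpt : ∀ f : A, ∑ h : G, ‖∑ g, u g * w (f + ι h + ι g)‖ ^ 2 ≤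
      K * ∑ k : G, ‖w (f + ι k)‖ ^ 2 := by
    intro f
    have h1 := parseval (fun h : G => ∑ g, u g * w (f + ι h + ι g))
    have h2 := parseval (fun k : G => w (f + ι k))
    have h3 : ∀ ψ : AddChar G ℂ, ‖∑ h : G, (∑ g, u g * w (f + ι h + ι g)) * ψ h‖ ^ 2 ≤
        K * ‖∑ k : G, w (f + ι k) * ψ k‖ ^ 2 := by
      intro ψ
      have h4 : ∑ h : G, (∑ g, u g * w (f + ι h + ι g)) * ψ h =
          (∑ g, u g * (-ψ) g) * ∑ k : G, w (f + ι k) * ψ k := by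
        simp only [sum_mul]
        rw [sum_comm]
        refine sum_congr rfl (fun g _ => ?_)
        rw [mul_sum, ← Equiv.sum_comp (Equiv.addRight g)
          (fun k => u g * (-ψ) g * (w (f + ι k) * ψ k))]
        refine sum_congr rfl (fun h _ => ?_)
        simp only [Equiv.coe_addRight, map_add, AddChar.map_add_eq_mul, AddChar.neg_apply']
        have h0 : ψ g ≠ 0 := ψ.val_isUnit g |>.ne_zero
        rw [← add_assoc]
        field_simp
      rw [h4, norm_mul, mul_pow]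
      exact mul_le_mul_of_nonneg_right (hK (-ψ)) (sq_nonneg _)
    have h5 : N * ∑ h : G, ‖∑ g, u g * w (f + ι h + ι g)‖ ^ 2 ≤
        N * (K * ∑ k : G, ‖w (f + ι k)‖ ^ 2) := by
      rw [← h1]
      refine (sum_le_sum (fun ψ _ => h3 ψ)).trans (le_of_eq ?_)
      rw [← mul_sum, h2]
      ring
    exact le_of_mul_le_mul_left h5 hN0
  have h6 : N * ∑ f ∈ S, ‖∑ g, u g * w (f + ι g)‖ ^ 2 ≤ N * (K * ∑ f ∈ S, ‖w f‖ ^ 2) := by
    have e1 : N * ∑ f ∈ S, ‖∑ g, u g * w (f + ι g)‖ ^ 2 =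
        ∑ f ∈ S, ∑ h : G, ‖∑ g, u g * w (f + ι h + ι g)‖ ^ 2 := by
      rw [sum_comm, sum_congr rfl (fun h _ => sum_shift ι S hS
        (fun f => ‖∑ g, u g * w (f + ι g)‖ ^ 2) h), sum_const, card_univ, nsmul_eq_mul]
    have e2 : N * (K * ∑ f ∈ S, ‖w f‖ ^ 2) = ∑ f ∈ S, K * ∑ k : G, ‖w (f + ι k)‖ ^ 2 := by
      rw [← mul_sum, sum_comm, sum_congr rfl (fun h _ => sum_shift ι S hS
        (fun f => ‖w f‖ ^ 2) h), sum_const, card_univ, nsmul_eq_mul]
      ring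
    rw [e1, e2]
    exact sum_le_sum (fun f _ => hpt f)
  exact le_of_mul_le_mul_left h6 hN0

end abs

variable {F : Type} [Field F] [Fintype F]

/-- the sup norm of the exponential sum of the error term over one disc -/
theorem sup_E {m r : ℕ} (hrm : 2 * r ≤ m) (hr : r < m) (ψ : AddChar (Fin m → F) ℂ) :
    ‖∑ c, ((th m (X ^ m + inc m c) - Lb r (X ^ m + inc m c) : ℝ) : ℂ) * ψ c‖ ^ 2 ≤
      ((m : ℝ) + 5) ^ 2 * (Fintype.card F : ℝ) ^ (m + m - r) := by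
  have hv := V_bound (F := F) hrm le_rfl hr ψ
  have hc0 : (0:ℝ) < (Fintype.card (Fin m → F) : ℝ) := by exact_mod_cast Fintype.card_pos
  rw [sum_Mon_eq m (fun f => ‖∑ c, ((th m (f + inc m c) - Lb r (f + inc m c) : ℝ) : ℂ) * ψ c‖ ^ 2),
    ← sum_inc m (fun g => ‖∑ c, ((th m (X ^ m + g + inc m c) - Lb r (X ^ m + g + inc m c) : ℝ) : ℂ)
      * ψ c‖ ^ 2)] at hv
  have h1 : ∀ b : Fin m → F,
      ‖∑ c, ((th m (X ^ m + inc m b + inc m c) - Lb r (X ^ m + inc m b + inc m c) : ℝ) : ℂ)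
        * ψ c‖ ^ 2 =
      ‖∑ c, ((th m (X ^ m + inc m c) - Lb r (X ^ m + inc m c) : ℝ) : ℂ) * ψ c‖ ^ 2 := by
    intro b
    have h2 : ∑ c, ((th m (X ^ m + inc m b + inc m c) - Lb r (X ^ m + inc m b + inc m c) : ℝ) : ℂ)
        * ψ c = (ψ b)⁻¹ *
        ∑ c, ((th m (X ^ m + inc m c) - Lb r (X ^ m + inc m c) : ℝ) : ℂ) * ψ c := by
      rw [mul_sum, ← Equiv.sum_comp (Equiv.addLeft b)
        (fun c => (ψ b)⁻¹ * (((th m (X ^ m + inc m c) - Lb r (X ^ m + inc m c) : ℝ) : ℂ) * ψ c))]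
      refine sum_congr rfl (fun c _ => ?_)
      simp only [Equiv.coe_addLeft, map_add, AddChar.map_add_eq_mul]
      have h0 : ψ b ≠ 0 := ψ.val_isUnit b |>.ne_zero
      rw [add_assoc]
      field_simp
    rw [h2, norm_mul, norm_inv, ψ.norm_apply, inv_one, one_mul]
  rw [sum_congr rfl (fun b _ => h1 b), sum_const, card_univ, nsmul_eq_mul] at hv
  exact le_of_mul_le_mul_left hv hc0

/-- the first error term: the small summand -/
theorem part_small {n m r : ℕ} (hmn : m < n) (hrm : 2 * r ≤ m) (hr : r < m) {β : F} (w : F[X] → ℝ) :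
    ∑ A ∈ Mon F n, (∑ g ∈ Mon F m, (th m g - Lb r g) * w (A - C β * g)) ^ 2 ≤
      ((m : ℝ) + 5) ^ 2 * (Fintype.card F : ℝ) ^ (m + m - r) * ∑ f ∈ Mon F n, w f ^ 2 := by
  set ι : (Fin m → F) →+ F[X] := (AddMonoidHom.mulLeft (C (-β))).comp (inc m) with hι
  have hιdeg : ∀ c, (ι c).degree < (m : WithBot ℕ) := by
    intro c
    have : ι c = C (-β) * inc m c := rfl
    rw [this]
    exact lt_of_le_of_lt (deg_C_mul_le _ _) (mem_PL.mp (inc_mem c))
  have hS : ∀ (c : Fin m → F) (f : F[X]), f + ι c ∈ Mon F n ↔ f ∈ Mon F n := fun c f =>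
    Mon_shift hmn.le _ _ (hιdeg c)
  have h := conv_bound ι (Mon F n) hS
    (fun c => ((th m (X ^ m + inc m c) - Lb r (X ^ m + inc m c) : ℝ) : ℂ))
    (fun f => ((w f : ℝ) : ℂ)) _ (fun ψ => sup_E hrm hr ψ)
  have hdeg : (-(C β * X ^ m) : F[X]).degree < (n : WithBot ℕ) := by
    rw [degree_neg]
    exact lt_of_le_of_lt (degree_C_mul_X_pow_le m β) (by exact_mod_cast hmn)
  rw [← sum_Mon_shift hdeg (fun f => ‖∑ c, ((th m (X ^ m + inc m c) - Lb r (X ^ m + inc m c) : ℝ) : ℂ)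
    * ((w (f + ι c) : ℝ) : ℂ)‖ ^ 2)] at h
  have e1 : ∑ A ∈ Mon F n, (∑ g ∈ Mon F m, (th m g - Lb r g) * w (A - C β * g)) ^ 2 =
      ∑ A ∈ Mon F n, ‖∑ c, ((th m (X ^ m + inc m c) - Lb r (X ^ m + inc m c) : ℝ) : ℂ)
        * ((w (A + -(C β * X ^ m) + ι c) : ℝ) : ℂ)‖ ^ 2 := by
    refine sum_congr rfl (fun A _ => ?_)
    have e2 : ∑ c, ((th m (X ^ m + inc m c) - Lb r (X ^ m + inc m c) : ℝ) : ℂ)
        * ((w (A + -(C β * X ^ m) + ι c) : ℝ) : ℂ) =
        ((∑ g ∈ Mon F m, (th m g - Lb r g) * w (A - C β * g) : ℝ) : ℂ) := by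
      rw [sum_Mon_eq m (fun g => (th m g - Lb r g) * w (A - C β * g)),
        ← sum_inc m (fun g => (th m (X ^ m + g) - Lb r (X ^ m + g)) * w (A - C β * (X ^ m + g)))]
      push_cast
      refine sum_congr rfl (fun c _ => ?_)
      have e3 : A + -(C β * X ^ m) + ι c = A - C β * (X ^ m + inc m c) := by
        have : ι c = C (-β) * inc m c := rfl
        rw [this, C_neg]
        ring
      rw [e3]
    rw [e2, Complex.norm_real, Real.norm_eq_abs, sq_abs]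
  rw [e1]
  refine h.trans (le_of_eq ?_)
  congr 1
  refine sum_congr rfl (fun f _ => ?_)
  rw [Complex.norm_real, Real.norm_eq_abs, sq_abs]

end Pool.Agent.H523.CM
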