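import Pool.Agent.H523.CM71
import Pool.Agent.H523.CM54

set_option autoImplicit false
set_option linter.unusedSectionVars false

/-! # The error term in progressions inside the discs -/

namespace Pool.Agent.H523.CM

open Polynomial Finset
open Pool.Agent.H341R2.Sharp (Mon mem_Mon)
open Pool.Agent.H523.FF (Ir mem_Ir PL mem_PL card_PL two_le_card IrLE mem_IrLE irr_coprime PL_mod
  Ir_card)
open Pool.Agent.H523.RH (NP Phi Phi_prod Phi_pos var_NP)

open scoped Classical

variable {F : Type} [Field F] [Fintype F]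

/-- the error term -/
noncomputable def Er (n r : ℕ) (x : F[X]) : ℝ := th n x - Lb r x

/-- the prime divisors of a product of distinct primes -/
theorem pd_prod {t : Finset F[X]} (ht : ∀ P ∈ t, P.Monic ∧ Irreducible P) :
    pd (∏ P ∈ t, P) = t := by
  ext P
  rw [mem_pd (monic_pr ht)]
  constructor
  · rintro ⟨h1, h2, h3⟩
    exact mem_of_dvd ht h1 h2 h3
  · intro h
    exact ⟨(ht P h).1, (ht P h).2, dvd_prod_of_mem (fun P => P) h⟩

/-- the sum of the error term over a progression in a disc -/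
theorem cell_sum {n m r : ℕ} (hrm : 2 * r ≤ m) (hmn : m < n) {t : Finset F[X]} (ht : t ∈ SF F r)
    {x : F[X]} (hx : x ∈ Mon F n) :
    ∑ k ∈ (PL F m).filter (fun k => ∏ P ∈ t, P ∣ k), Er n r (x + k) =
      if IsCoprime x (∏ P ∈ t, P) then (n : ℝ) * NP (∏ P ∈ t, P) (n - m) n x -
        (Fintype.card F : ℝ) ^ n / (Phi (∏ P ∈ t, P) (n - m) : ℝ) else 0 := by
  have hq := two_le_card (F := F)
  set q : ℝ := (Fintype.card F : ℝ) with hqd
  have hq0 : 0 < q := by linarith
  obtain ⟨htp, htr⟩ := mem_SF.mp ht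
  set D := ∏ P ∈ t, P with hD
  have hDm : D.Monic := monic_pr htp
  have hDd : D.natDegree = ∑ P ∈ t, P.natDegree := natDegree_pr htp
  have hnm : n - (n - m) = m := by omega
  -- the primes
  have h1 : ∑ k ∈ (PL F m).filter (fun k => D ∣ k), th n (x + k) = (n : ℝ) * NP D (n - m) n x := by
    have h2 : ∀ k ∈ (PL F m).filter (fun k => D ∣ k), th n (x + k) =
        if x + k ∈ Ir F n then (n : ℝ) else 0 := fun k _ => rfl
    rw [sum_congr rfl h2, ← sum_filter, sum_const, nsmul_eq_mul, mul_comm]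
    congr 2
    unfold NP
    rw [hnm]
    refine card_bij (fun k _ => x + k) ?_ (fun a _ b _ h => by simpa using h) ?_
    · intro k hk
      rw [mem_filter, mem_filter, mem_PL] at hk
      rw [mem_filter, add_sub_cancel_left]
      exact ⟨hk.2, hk.1.2, hk.1.1⟩
    · intro P hP
      rw [mem_filter] at hP
      refine ⟨P - x, ?_, by ring⟩
      rw [mem_filter, mem_filter, mem_PL, add_sub_cancel]
      exact ⟨⟨hP.2.2, hP.2.1⟩, hP.1⟩
  -- the model
  set f₀ : F[X] := D * X ^ (m - D.natDegree) with hf₀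
  have hf₀m : f₀ ∈ Mon F m := by
    rw [mem_Mon]
    refine ⟨hDm.mul (monic_X_pow _), ?_⟩
    rw [hf₀, hDm.natDegree_mul (monic_X_pow _), natDegree_X_pow]
    omega
  have hf₀d : D ∣ f₀ := dvd_mul_right _ _
  have h3 : ∑ k ∈ (PL F m).filter (fun k => D ∣ k), Lb r (x + k) =
      ∑ f ∈ (Mon F m).filter (fun f => D ∣ f), Lb r (f + (x - f₀)) := by
    refine sum_bij (fun k _ => f₀ + k) ?_ (fun a _ b _ h => by simpa using h) ?_ ?_
    · intro k hk
      rw [mem_filter, mem_PL] at hk
      rw [mem_filter]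
      exact ⟨(Mon_shift le_rfl _ _ hk.1).mpr hf₀m, dvd_add hf₀d hk.2⟩
    · intro f hf
      rw [mem_filter] at hf
      refine ⟨f - f₀, ?_, by ring⟩
      rw [mem_filter, mem_PL]
      refine ⟨?_, dvd_sub hf.2 hf₀d⟩
      have h4 := mem_Mon.mp hf.1
      have h5 := mem_Mon.mp hf₀m
      have h6 : (f - f₀).degree < f.degree := by
        refine degree_sub_lt_left ?_ h4.1.ne_zero ?_
        · rw [degree_eq_natDegree h4.1.ne_zero, degree_eq_natDegree h5.1.ne_zero, h4.2, h5.2]
        · rw [h4.1.leadingCoeff, h5.1.leadingCoeff]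
      rwa [degree_eq_natDegree h4.1.ne_zero, h4.2] at h6
    · intro k _
      congr 1
      ring
  have hcop : IsCoprime (x - f₀) D ↔ IsCoprime x D := by
    obtain ⟨z, hz⟩ := hf₀d
    have : x = (x - f₀) + z * D := by rw [hz]; ring
    conv_rhs => rw [this]
    exact IsCoprime.add_mul_right_left_iff.symm
  have h7 : ∑ f ∈ (Mon F m).filter (fun f => D ∣ f), Lb r (f + (x - f₀)) =
      if IsCoprime x D then q ^ n / (Phi D (n - m) : ℝ) else 0 := by
    have h8 := class_diff hDm (n := m) (r := r) (by omega) (x - f₀)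
    have h9 : (pd D).powerset.filter (fun s => r < ∑ P ∈ s, P.natDegree) = ∅ := by
      rw [filter_eq_empty_iff]
      intro s hs
      rw [hD, pd_prod htp, mem_powerset] at hs
      have : ∑ P ∈ s, P.natDegree ≤ ∑ P ∈ t, P.natDegree := sum_le_sum_of_subset hs
      omega
    rw [h9, sum_empty, mul_zero, neg_zero, sub_eq_zero] at h8
    rw [h8]
    simp only [hcop]
    have h10 : q ^ m / (phi1 D : ℝ) = q ^ n / (Phi D (n - m) : ℝ) := by
      have h11 : (Phi D (n - m) : ℝ) = q ^ (n - m) * (phi1 D : ℝ) := by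
        rw [phi1_eq hDm, hD, Phi_prod t htp, pd_prod htp, ← hD, hDd, Nat.sub_self, pow_zero, one_mul]
      have h12 : 0 < (Phi D (n - m) : ℝ) := by exact_mod_cast Phi_pos hDm (n - m)
      have h13 : 0 < (phi1 D : ℝ) := by
        rw [h11] at h12
        exact pos_of_mul_pos_right h12 (by positivity)
      rw [h11, div_eq_div_iff h13.ne' (by positivity)]
      have : q ^ n = q ^ m * q ^ (n - m) := by rw [← pow_add]; congr 1; omega
      rw [this]
      ring
    rw [h10]
  have h14 : ∑ k ∈ (PL F m).filter (fun k => D ∣ k), Er n r (x + k) =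
      (n : ℝ) * NP D (n - m) n x - if IsCoprime x D then q ^ n / (Phi D (n - m) : ℝ) else 0 := by
    unfold Er
    rw [sum_sub_distrib, h1, h3, h7]
  rw [h14]
  split_ifs with h
  · rfl
  · have h0 : NP D (n - m) n x = 0 := by
      unfold NP
      rw [card_eq_zero, filter_eq_empty_iff]
      rintro P hP ⟨h1, -⟩
      apply h
      have hP := mem_Ir.mp hP
      have h2 : IsCoprime P D := by
        rw [hP.2.1.coprime_iff_not_dvd]
        intro h3
        have := natDegree_le_of_dvd h3 hDm.ne_zero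
        omega
      obtain ⟨z, hz⟩ := h1
      have h3 : x = P + (-z) * D := by linear_combination -hz
      rw [h3]
      exact IsCoprime.add_mul_right_left_iff.mpr h2
    rw [h0]
    simp

/-- the correlations of the error term -/
noncomputable def Hc (n r : ℕ) (k : F[X]) : ℝ := ∑ x ∈ Mon F n, Er n r x * Er n r (x + k)

/-- **The correlations over the multiples of a small modulus** -/
theorem Hc_multiples {n m r : ℕ} (hrm : 2 * r ≤ m) (hmn : m < n) {t : Finset F[X]} (ht : t ∈ SF F r) :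
    0 ≤ ∑ k ∈ (PL F m).filter (fun k => ∏ P ∈ t, P ∣ k), Hc n r k ∧
    ∑ k ∈ (PL F m).filter (fun k => ∏ P ∈ t, P ∣ k), Hc n r k ≤
      ((n : ℝ) + 5) ^ 2 * (Fintype.card F : ℝ) ^ n := by
  have hq := two_le_card (F := F)
  set q : ℝ := (Fintype.card F : ℝ) with hqd
  have hq0 : 0 < q := by linarith
  obtain ⟨htp, htr⟩ := mem_SF.mp ht
  set D := ∏ P ∈ t, P with hD
  have hDm : D.Monic := monic_pr htp
  have hDd : D.natDegree = ∑ P ∈ t, P.natDegree := natDegree_pr htp
  have hDr : D.natDegree ≤ r := by rw [hDd]; exact htr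
  set T := (PL F m).filter (fun k => D ∣ k) with hT
  have hTc : (T.card : ℝ) = q ^ (m - D.natDegree) := by
    have h := PL_mod D hDm 0 m (by omega)
    simp only [sub_zero] at h
    rw [hT, h, hqd]
    push_cast
    rfl
  set Cs : F[X] → ℝ := fun x => ∑ k ∈ T, Er n r (x + k) with hCs
  -- shifts
  have hshift : ∀ k₀ ∈ T, ∀ x : F[X], Cs (x + k₀) = Cs x := by
    intro k₀ hk₀ x
    rw [hT, mem_filter, mem_PL] at hk₀
    simp only [hCs]
    refine sum_bij (fun k _ => k₀ + k) ?_ (fun a _ b _ h => by simpa using h) ?_ ?_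
    · intro k hk
      rw [hT, mem_filter, mem_PL] at hk ⊢
      exact ⟨lt_of_le_of_lt (degree_add_le _ _) (max_lt hk₀.1 hk.1), dvd_add hk₀.2 hk.2⟩
    · intro k hk
      rw [hT, mem_filter, mem_PL] at hk
      refine ⟨k - k₀, ?_, by ring⟩
      rw [hT, mem_filter, mem_PL]
      exact ⟨lt_of_le_of_lt (degree_sub_le _ _) (max_lt hk.1 hk₀.1), dvd_sub hk.2 hk₀.2⟩
    · intro k _
      rw [add_assoc]
  have h1 : ∑ k ∈ T, Hc n r k = ∑ x ∈ Mon F n, Er n r x * Cs x := by
    unfold Hc
    rw [sum_comm]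
    refine sum_congr rfl (fun x _ => ?_)
    rw [hCs, mul_sum]
  have h2 : (T.card : ℝ) * ∑ k ∈ T, Hc n r k = ∑ x ∈ Mon F n, Cs x ^ 2 := by
    have h3 : ∀ k₀ ∈ T, ∑ k ∈ T, Hc n r k = ∑ x ∈ Mon F n, Er n r (x + k₀) * Cs x := by
      intro k₀ hk₀
      have hk₁ := hk₀
      rw [hT, mem_filter, mem_PL] at hk₁
      rw [h1, ← sum_Mon_shift (lt_trans hk₁.1 (by exact_mod_cast hmn)) (fun x => Er n r x * Cs x)]
      refine sum_congr rfl (fun x _ => ?_)
      rw [hshift k₀ hk₀ x]
    rw [← nsmul_eq_mul, ← sum_const, sum_congr rfl h3, sum_comm]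
    refine sum_congr rfl (fun x _ => ?_)
    rw [← sum_mul, sq]
  have h4 : ∑ x ∈ Mon F n, Cs x ^ 2 ≤ ((n : ℝ) + 5) ^ 2 * q ^ n * q ^ (m - D.natDegree) := by
    have hv := var_NP hDm (n - m) n (by omega) (by omega)
    rw [← hqd] at hv
    have h5 : ∑ x ∈ Mon F n, Cs x ^ 2 = ∑ f ∈ (Mon F n).filter (fun f => IsCoprime f D),
        ((n : ℝ) * NP D (n - m) n f - q ^ n / (Phi D (n - m) : ℝ)) ^ 2 := by
      rw [sum_filter]
      refine sum_congr rfl (fun x hx => ?_)
      have h6 : Cs x = if IsCoprime x D then (n : ℝ) * NP D (n - m) n x -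
          q ^ n / (Phi D (n - m) : ℝ) else 0 := cell_sum hrm hmn ht hx
      rw [h6]
      split_ifs
      · rfl
      · ring
    rw [h5]
    refine hv.trans ?_
    have h7 : n - D.natDegree - (n - m) = m - D.natDegree := by omega
    rw [h7]
    have h8 : (2 * (D.natDegree : ℝ) + ((n - m : ℕ) : ℝ) + 5) ^ 2 ≤ ((n : ℝ) + 5) ^ 2 := by
      apply pow_le_pow_left₀ (by positivity)
      have h9 : 2 * (D.natDegree : ℝ) ≤ m := by exact_mod_cast (by omega : 2 * D.natDegree ≤ m)
      rw [Nat.cast_sub hmn.le]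
      linarith
    exact mul_le_mul_of_nonneg_right (mul_le_mul_of_nonneg_right h8 (by positivity)) (by positivity)
  rw [hTc] at h2
  have hp : 0 < q ^ (m - D.natDegree) := by positivity
  constructor
  · have h5 : 0 ≤ ∑ x ∈ Mon F n, Cs x ^ 2 := sum_nonneg (fun _ _ => sq_nonneg _)
    rw [← h2] at h5
    exact nonneg_of_mul_nonneg_right h5 hp
  · rw [← h2] at h4
    have h5 : q ^ (m - D.natDegree) * ∑ k ∈ T, Hc n r k ≤
        q ^ (m - D.natDegree) * (((n : ℝ) + 5) ^ 2 * q ^ n) := by linarith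
    exact le_of_mul_le_mul_left h5 hp

end Pool.Agent.H523.CM
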