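import Pool.Agent.H523.CM72

set_option autoImplicit false
set_option linter.unusedSectionVars false

/-! # The second error term: the large summand -/

namespace Pool.Agent.H523.CM

open Polynomial Finset
open Pool.Agent.H341R2.Sharp (Mon mem_Mon)
open Pool.Agent.H523.FF (Ir mem_Ir PL mem_PL card_PL two_le_card IrLE mem_IrLE irr_coprime PL_mod
  Ir_card)

open scoped Classical

variable {F : Type} [Field F] [Fintype F]

theorem sum_Mon_around {R : Type} [AddCommMonoid R] {m : ℕ} {f₀ : F[X]} (hf₀ : f₀ ∈ Mon F m)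
    (φ : F[X] → R) : ∑ g ∈ Mon F m, φ g = ∑ k ∈ PL F m, φ (f₀ + k) := by
  have h5 := mem_Mon.mp hf₀
  have h6 : (f₀ - X ^ m).degree < (m : WithBot ℕ) := by
    have h7 : (f₀ - X ^ m).degree < f₀.degree := by
      refine degree_sub_lt_left ?_ h5.1.ne_zero ?_
      · rw [degree_X_pow, degree_eq_natDegree h5.1.ne_zero, h5.2]
      · rw [h5.1.leadingCoeff, (monic_X_pow m).leadingCoeff]
    rwa [degree_eq_natDegree h5.1.ne_zero, h5.2] at h7
  rw [sum_Mon_eq m φ, ← sum_PL_shift h6 (fun k => φ (X ^ m + k))]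
  refine sum_congr rfl (fun k _ => ?_)
  congr 1
  ring

theorem SB_unit {r : ℕ} {c : F} (hc : c ≠ 0) (x : F[X]) : SB r (C c * x) = SB r x := by
  unfold SB
  refine sum_congr rfl (fun s _ => prod_congr rfl (fun P _ => ?_))
  rw [aP_unit hc]

/-- the second error term as a correlation sum -/
theorem part_large_eq {n m r : ℕ} (hrm : 2 * r ≤ m) (hmn : m < n) {β : F} (hβ : β ≠ 0) :
    ∑ A ∈ Mon F n, (∑ g ∈ Mon F m, Lb r g * Er n r (A - C β * g)) ^ 2 =
      (Fintype.card F : ℝ) ^ m * ∑ k ∈ PL F m, SB r k * Hc n r k := by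
  have h1 : ∀ g ∈ Mon F m, ∀ g' ∈ Mon F m,
      ∑ A ∈ Mon F n, Er n r (A - C β * g) * Er n r (A - C β * g') = Hc n r (C β * (g - g')) := by
    intro g hg g' _
    have hdeg : (C β * g).degree < (n : WithBot ℕ) := by
      refine lt_of_le_of_lt (deg_C_mul_le _ _) ?_
      rw [degree_eq_natDegree (mem_Mon.mp hg).1.ne_zero, (mem_Mon.mp hg).2]
      exact_mod_cast hmn
    rw [← sum_Mon_shift hdeg (fun A => Er n r (A - C β * g) * Er n r (A - C β * g'))]
    unfold Hc
    refine sum_congr rfl (fun A _ => ?_)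
    have e1 : A + C β * g - C β * g = A := by ring
    have e2 : A + C β * g - C β * g' = A + C β * (g - g') := by ring
    rw [e1, e2]
  have h2 : ∀ k ∈ PL F m, ∑ g ∈ Mon F m, Lb r g * Lb r (g + k) =
      (Fintype.card F : ℝ) ^ m * SB r k := by
    intro k _
    rw [← main_binary hrm (neg_ne_zero.mpr (one_ne_zero (α := F))) (one_ne_zero (α := F)) k]
    refine sum_congr rfl (fun g _ => ?_)
    have e : conj2 (-1 : F) 1 k g = g + k := by
      unfold conj2
      rw [inv_one, C_1, one_mul, C_neg, C_1]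
      ring
    rw [e]
  calc ∑ A ∈ Mon F n, (∑ g ∈ Mon F m, Lb r g * Er n r (A - C β * g)) ^ 2
      = ∑ A ∈ Mon F n, ∑ g' ∈ Mon F m, ∑ g ∈ Mon F m,
          (Lb r g' * Lb r g) * (Er n r (A - C β * g) * Er n r (A - C β * g')) := by
        refine sum_congr rfl (fun A _ => ?_)
        rw [sq, sum_mul_sum, sum_comm]
        refine sum_congr rfl (fun g' _ => sum_congr rfl (fun g _ => ?_))
        ring
    _ = ∑ g' ∈ Mon F m, ∑ g ∈ Mon F m, (Lb r g' * Lb r g) * Hc n r (C β * (g - g')) := by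
        rw [sum_comm]
        refine sum_congr rfl (fun g' hg' => ?_)
        rw [sum_comm]
        refine sum_congr rfl (fun g hg => ?_)
        rw [← mul_sum, h1 g hg g' hg']
    _ = ∑ g' ∈ Mon F m, ∑ k ∈ PL F m, (Lb r g' * Lb r (g' + k)) * Hc n r (C β * k) := by
        refine sum_congr rfl (fun g' hg' => ?_)
        rw [sum_Mon_around hg' (fun g => (Lb r g' * Lb r g) * Hc n r (C β * (g - g')))]
        refine sum_congr rfl (fun k _ => ?_)
        rw [add_sub_cancel_left]
    _ = ∑ k ∈ PL F m, (Fintype.card F : ℝ) ^ m * SB r (C β * k) * Hc n r (C β * k) := by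
        rw [sum_comm]
        refine sum_congr rfl (fun k hk => ?_)
        rw [← sum_mul, h2 k hk, SB_unit hβ]
    _ = (Fintype.card F : ℝ) ^ m * ∑ k ∈ PL F m, SB r k * Hc n r k := by
        rw [sum_PL_scale hβ (fun k => (Fintype.card F : ℝ) ^ m * SB r k * Hc n r k), mul_sum]
        refine sum_congr rfl (fun k _ => ?_)
        ring

/-- **The second error term** -/
theorem part_large {n m r : ℕ} (hrm : 2 * r ≤ m) (hmn : m < n) {β : F} (hβ : β ≠ 0) :
    ∑ A ∈ Mon F n, (∑ g ∈ Mon F m, Lb r g * Er n r (A - C β * g)) ^ 2 ≤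
      (Fintype.card F : ℝ) ^ m * ((Real.exp 3 * (r + 1 : ℕ)) ^ 3 *
        (((n : ℝ) + 5) ^ 2 * (Fintype.card F : ℝ) ^ n)) := by
  have hq := two_le_card (F := F)
  rw [part_large_eq hrm hmn hβ]
  set q : ℝ := (Fintype.card F : ℝ) with hqd
  have hq0 : 0 < q := by linarith
  set V : ℝ := ((n : ℝ) + 5) ^ 2 * q ^ n with hV
  have hV0 : 0 ≤ V := by positivity
  apply mul_le_mul_of_nonneg_left _ (by positivity)
  -- one set of primes
  have h1 : ∀ s ∈ SF F r, ∑ k ∈ PL F m, (∏ P ∈ s, (-(gP P) * aP P k)) * Hc n r k ≤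
      (∏ P ∈ s, (3 * gP P)) * V := by
    intro s hs
    obtain ⟨hsp, hsr⟩ := mem_SF.mp hs
    have h2 : ∀ k : F[X], ∏ P ∈ s, (-(gP P) * aP P k) = ∑ t ∈ s.powerset,
        (if ∏ P ∈ t, P ∣ k then ∏ P ∈ t, (gP P + gP P ^ 2) else 0) *
          ∏ P ∈ s \ t, (-(gP P ^ 2)) := by
      intro k
      have h3 : ∀ P ∈ s, -(gP P) * aP P k =
          (if P ∣ k then gP P + gP P ^ 2 else 0) + (-(gP P ^ 2)) := by
        intro P hP
        rw [aP_values P (hsp P hP).2]
        split_ifs <;> ring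
      rw [prod_congr rfl h3, prod_add]
      refine sum_congr rfl (fun t ht => ?_)
      rw [prod_ite_zero]
      simp only [prod_dvd_iff (fun P hP => hsp P (mem_powerset.mp ht hP))]
    have h4 : ∑ k ∈ PL F m, (∏ P ∈ s, (-(gP P) * aP P k)) * Hc n r k =
        ∑ t ∈ s.powerset, ((∏ P ∈ t, (gP P + gP P ^ 2)) * ∏ P ∈ s \ t, (-(gP P ^ 2))) *
          ∑ k ∈ (PL F m).filter (fun k => ∏ P ∈ t, P ∣ k), Hc n r k := by
      simp only [h2, sum_mul]
      rw [sum_comm]
      refine sum_congr rfl (fun t _ => ?_)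
      rw [mul_sum, sum_filter]
      refine sum_congr rfl (fun k _ => ?_)
      split_ifs <;> ring
    rw [h4]
    calc ∑ t ∈ s.powerset, ((∏ P ∈ t, (gP P + gP P ^ 2)) * ∏ P ∈ s \ t, (-(gP P ^ 2))) *
          ∑ k ∈ (PL F m).filter (fun k => ∏ P ∈ t, P ∣ k), Hc n r k
        ≤ ∑ t ∈ s.powerset, ((∏ P ∈ t, (gP P + gP P ^ 2)) * ∏ P ∈ s \ t, gP P ^ 2) * V := by
          refine sum_le_sum (fun t ht => ?_)
          rw [mem_powerset] at ht
          have htF : t ∈ SF F r := by
            rw [mem_SF]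
            refine ⟨fun P hP => hsp P (ht hP), ?_⟩
            exact (sum_le_sum_of_subset ht).trans hsr
          obtain ⟨h5, h6⟩ := Hc_multiples hrm hmn htF
          have h7 : |(∏ P ∈ t, (gP P + gP P ^ 2)) * ∏ P ∈ s \ t, (-(gP P ^ 2))| =
              (∏ P ∈ t, (gP P + gP P ^ 2)) * ∏ P ∈ s \ t, gP P ^ 2 := by
            rw [abs_mul, abs_prod, abs_prod]
            congr 1
            · refine prod_congr rfl (fun P hP => ?_)
              have := gP_pos (hsp P (ht hP)).2
              exact abs_of_pos (by positivity)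
            · refine prod_congr rfl (fun P _ => ?_)
              rw [abs_neg, abs_of_nonneg (sq_nonneg _)]
          refine (le_abs_self _).trans ?_
          rw [abs_mul, h7, abs_of_nonneg h5]
          refine mul_le_mul_of_nonneg_left h6 ?_
          rw [← h7]
          exact abs_nonneg _
      _ = (∏ P ∈ s, ((gP P + gP P ^ 2) + gP P ^ 2)) * V := by
          rw [← sum_mul, prod_add]
      _ ≤ (∏ P ∈ s, (3 * gP P)) * V := by
          apply mul_le_mul_of_nonneg_right _ hV0
          refine prod_le_prod (fun P hP => ?_) (fun P hP => ?_)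
          · have := gP_pos (hsp P hP).2
            positivity
          · have h8 := gP_pos (hsp P hP).2
            have h9 := gP_le_one (hsp P hP).2
            nlinarith
  -- the sum over all sets
  have h10 : ∑ k ∈ PL F m, SB r k * Hc n r k =
      ∑ s ∈ SF F r, ∑ k ∈ PL F m, (∏ P ∈ s, (-(gP P) * aP P k)) * Hc n r k := by
    unfold SB
    simp only [sum_mul]
    rw [sum_comm]
  rw [h10]
  refine (sum_le_sum h1).trans ?_
  rw [← sum_mul]
  apply mul_le_mul_of_nonneg_right _ hV0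
  have hsub : SF F r ⊆ (IrLE F (r + 1)).powerset := by
    intro s hs
    rw [mem_SF] at hs
    rw [mem_powerset]
    intro P hP
    rw [mem_IrLE]
    refine ⟨(hs.1 P hP).1, (hs.1 P hP).2, ?_⟩
    have h3 : P.natDegree ≤ ∑ P ∈ s, P.natDegree :=
      single_le_sum (f := fun P : F[X] => P.natDegree) (fun _ _ => Nat.zero_le _) hP
    omega
  calc ∑ s ∈ SF F r, ∏ P ∈ s, (3 * gP P)
      ≤ ∑ s ∈ (IrLE F (r + 1)).powerset, ∏ P ∈ s, (3 * gP P) := by
        apply sum_le_sum_of_subset_of_nonneg hsub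
        intro s hs _
        refine prod_nonneg (fun P hP => ?_)
        have := gP_pos (mem_IrLE.mp (mem_powerset.mp hs hP)).2.1
        positivity
    _ = ∏ P ∈ IrLE F (r + 1), (1 + 3 * gP P) := by rw [prod_one_add]
    _ ≤ ∏ P ∈ IrLE F (r + 1), (1 + gP P) ^ 3 := by
        refine prod_le_prod (fun P hP => ?_) (fun P hP => ?_)
        · have := gP_pos (mem_IrLE.mp hP).2.1
          positivity
        · have := gP_pos (mem_IrLE.mp hP).2.1
          nlinarith [sq_nonneg (gP P), mul_pos this (mul_pos this this)]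
    _ = (∏ P ∈ IrLE F (r + 1), (1 + gP P)) ^ 3 := by rw [prod_pow]
    _ ≤ (Real.exp 3 * (r + 1 : ℕ)) ^ 3 := by
        apply pow_le_pow_left₀ _ (mertens (F := F) (Nat.succ_pos r))
        refine prod_nonneg (fun P hP => ?_)
        have := gP_pos (mem_IrLE.mp hP).2.1
        positivity

end Pool.Agent.H523.CM
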