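import Pool.Agent.H523.CM73

set_option autoImplicit false
set_option linter.unusedSectionVars false

/-! # Representations with a prime summand of small degree -/

namespace Pool.Agent.H523.CM

open Polynomial Finset Filter
open Pool.Agent.H341R2.Sharp (Mon mem_Mon)
open Pool.Agent.H523.FF (Ir mem_Ir PL mem_PL card_PL two_le_card IrLE mem_IrLE irr_coprime PL_mod
  Ir_card)

open scoped Classical Topology

variable {F : Type} [Field F] [Fintype F]

/-- the cubes over the large sets of primes -/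
theorem sum_cube_tail {R r : ℕ} : ∑ s ∈ SF F R \ SF F r, ∏ P ∈ s, gP P ^ 3 ≤
    Real.exp 11 * (2 * ((r + 1 : ℕ) + 2) * (1 / (Fintype.card F : ℝ) ^ 2) ^ (r + 1)) := by
  have hq := two_le_card (F := F)
  set q : ℝ := (Fintype.card F : ℝ) with hqd
  have hq0 : 0 < q := by linarith
  have hsub : SF F R \ SF F r ⊆ (Finset.Ico (r + 1) (max (R + 1) (r + 1))).biUnion (fun j => SDj F R j) := by
    intro s hs
    rw [Finset.mem_sdiff, mem_SF, mem_SF] at hs
    rw [mem_biUnion]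
    have h1 : r < ∑ P ∈ s, P.natDegree := by
      by_contra h
      exact hs.2 ⟨hs.1.1, by omega⟩
    refine ⟨∑ P ∈ s, P.natDegree, mem_Ico.mpr ⟨by omega, by have := hs.1.2; omega⟩, mem_SDj.mpr ⟨?_, rfl⟩⟩
    intro P hP
    rw [mem_IrLE]
    refine ⟨(hs.1.1 P hP).1, (hs.1.1 P hP).2, ?_⟩
    have h3 : P.natDegree ≤ ∑ P ∈ s, P.natDegree :=
      single_le_sum (f := fun P : F[X] => P.natDegree) (fun _ _ => Nat.zero_le _) hP
    have := hs.1.2
    omega
  calc ∑ s ∈ SF F R \ SF F r, ∏ P ∈ s, gP P ^ 3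
      ≤ ∑ s ∈ (Finset.Ico (r + 1) (max (R + 1) (r + 1))).biUnion (fun j => SDj F R j),
          ∏ P ∈ s, gP P ^ 3 := by
        apply sum_le_sum_of_subset_of_nonneg hsub
        intro s hs _
        obtain ⟨j, _, hj⟩ := mem_biUnion.mp hs
        refine prod_nonneg (fun P hP => ?_)
        have := gP_pos (SDj_prime hj P hP).2
        positivity
    _ = ∑ j ∈ Finset.Ico (r + 1) (max (R + 1) (r + 1)), ∑ s ∈ SDj F R j, ∏ P ∈ s, gP P ^ 3 := by
        rw [sum_biUnion]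
        intro i _ j _ hij
        rw [Function.onFun, Finset.disjoint_left]
        intro s hs ht
        exact hij ((mem_SDj.mp hs).2.symm.trans (mem_SDj.mp ht).2)
    _ ≤ ∑ j ∈ Finset.Ico (r + 1) (max (R + 1) (r + 1)),
          Real.exp 11 * (((j:ℝ) + 1) * (1 / q ^ 2) ^ j) := by
        refine sum_le_sum (fun j _ => (sum_cube (F := F) (y := R) (j := j)).trans (le_of_eq ?_))
        rw [one_div_pow, ← pow_mul, ← hqd]
        ring
    _ ≤ _ := by
        rw [← mul_sum]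
        apply mul_le_mul_of_nonneg_left _ (Real.exp_pos _).le
        refine geom_tail _ (by positivity) ?_ _ _ (le_max_right _ _)
        have : (2:ℝ) ≤ q ^ 2 := by nlinarith
        exact one_div_le_one_div_of_le (by norm_num) this

/-- the truncated singular series at two levels -/
theorem SB_levels {n r R : ℕ} (hrR : r ≤ R) (hR : 2 * R ≤ n) :
    ∑ A ∈ Mon F n, (SB R A - SB r A) ^ 2 ≤ (Fintype.card F : ℝ) ^ n *
      (Real.exp 11 * (2 * ((r + 1 : ℕ) + 2) * (1 / (Fintype.card F : ℝ) ^ 2) ^ (r + 1))) := by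
  have hq := two_le_card (F := F)
  have hsub : SF F r ⊆ SF F R := by
    intro s hs
    rw [mem_SF] at hs ⊢
    exact ⟨hs.1, hs.2.trans hrR⟩
  have h1 : ∀ A : F[X], SB R A - SB r A =
      ∑ s ∈ SF F R \ SF F r, (∏ P ∈ s, -(gP P)) * ∏ P ∈ s, aP P A := by
    intro A
    unfold SB
    rw [← sum_sdiff hsub, add_sub_cancel_right]
    exact sum_congr rfl (fun s _ => prod_mul_distrib)
  rw [sum_Mon_eq n (fun A => (SB R A - SB r A) ^ 2)]
  simp only [h1]
  rw [weighted_sq_real (fun s hs => (mem_SF.mp (Finset.mem_sdiff.mp hs).1).1) (fun s hs t ht => by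
    have h2 := (mem_SF.mp (Finset.mem_sdiff.mp hs).1).2
    have h3 := (mem_SF.mp (Finset.mem_sdiff.mp ht).1).2
    have h4 := sum_union_inter (s₁ := s) (s₂ := t) (f := fun P : F[X] => P.natDegree)
    omega) (fun s => ∏ P ∈ s, -(gP P)) (X ^ n)]
  apply mul_le_mul_of_nonneg_left _ (by positivity)
  refine le_trans (le_of_eq ?_) (sum_cube_tail (F := F) (R := R) (r := r))
  refine sum_congr rfl (fun s _ => ?_)
  rw [← prod_pow, ← prod_mul_distrib]
  exact prod_congr rfl (fun P _ => by ring)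

/-- **The singular series against its truncation**, over all polynomials of degree `n` -/
theorem sing_all {n r : ℕ} (hn : 1 ≤ n) (hr : 2 * r ≤ n) (S : F[X] → ℝ)
    (hS : ∀ D : F[X], D ≠ 0 → Tendsto (fun y => SP y D) atTop (𝓝 (S D))) :
    ∑ A ∈ Mon F n, (SB r A - S A) ^ 2 ≤ 2 * ((Fintype.card F : ℝ) ^ n *
      (Real.exp 11 * (2 * ((r + 1 : ℕ) + 2) * (1 / (Fintype.card F : ℝ) ^ 2) ^ (r + 1)))) +
        2 * ((160 * Real.exp 11 + 98 * Real.exp 22) * (n:ℝ) ^ 3) := by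
  set R := n / 2 with hR
  have h1 := SB_levels (F := F) (n := n) (r := r) (R := R) (by omega) (by omega)
  have h2 : ∑ A ∈ Mon F n, (SB R A - S A) ^ 2 ≤
      (160 * Real.exp 11 + 98 * Real.exp 22) * (n:ℝ) ^ 3 := by
    have hne : ∀ h ∈ PL F n, (X ^ n + h : F[X]) ≠ 0 := by
      intro h hh
      exact (monic_X_pow_add (mem_PL.mp hh)).ne_zero
    have hfil : (PL F n).filter (fun h => (X ^ n + h : F[X]) ≠ 0) = PL F n :=
      filter_true_of_mem hne
    have hlim : Tendsto (fun y => ∑ h ∈ PL F n, (SB R (X ^ n + h) - SP y (X ^ n + h)) ^ 2) atTop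
        (𝓝 (∑ h ∈ PL F n, (SB R (X ^ n + h) - S (X ^ n + h)) ^ 2)) := by
      apply tendsto_finsetSum
      intro h hh
      exact (tendsto_const_nhds.sub (hS _ (hne h hh))).pow 2
    rw [sum_Mon_eq n (fun A => (SB R A - S A) ^ 2)]
    refine le_of_tendsto hlim ?_
    filter_upwards [eventually_ge_atTop n] with y hy
    have h3 := tail_sq (F := F) (n := n) (m := n) (r := R) (y := y) hn le_rfl (by omega) (by omega)
      hy (X ^ n) (natDegree_X_pow_le n)
    rw [hfil] at h3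
    exact h3
  calc ∑ A ∈ Mon F n, (SB r A - S A) ^ 2
      ≤ ∑ A ∈ Mon F n, (2 * (SB R A - SB r A) ^ 2 + 2 * (SB R A - S A) ^ 2) := by
        refine sum_le_sum (fun A _ => ?_)
        nlinarith [sq_nonneg ((SB R A - S A) + (SB R A - SB r A))]
    _ ≤ _ := by
        rw [sum_add_distrib, ← mul_sum, ← mul_sum]
        linarith

/-- the weighted number of the representations `A = P + β P'`, `deg P' = m`, `deg P = n` -/
noncomputable def TS (β : F) (m n : ℕ) (A : F[X]) : ℝ :=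
  ∑ g ∈ Mon F m, th m g * th n (A - C β * g)

/-- **The binary problem with a small summand** -/
theorem small_sq {n m : ℕ} (hm : 1 ≤ m) (hmn : m < n) {β : F} (hβ : β ≠ 0) (S : F[X] → ℝ)
    (hS : ∀ D : F[X], D ≠ 0 → Tendsto (fun y => SP y D) atTop (𝓝 (S D))) :
    ∑ A ∈ Mon F n, (TS β m n A - (Fintype.card F : ℝ) ^ m * S A) ^ 2 ≤
      (108 + 108 * Real.exp 9 + 1000 * Real.exp 11 + 600 * Real.exp 22) *
        ((Fintype.card F : ℝ) ^ n * ((Fintype.card F : ℝ) ^ m) ^ 2 *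
          (n * m ^ 2 / (Fintype.card F : ℝ) ^ (m / 2) +
            (n:ℝ) ^ 2 * m ^ 3 / (Fintype.card F : ℝ) ^ m)) := by
  have hq := two_le_card (F := F)
  set q : ℝ := (Fintype.card F : ℝ) with hqd
  have hq0 : 0 < q := by linarith
  set r := m / 2 with hr
  have hrm : 2 * r ≤ m := by omega
  have hrm' : r < m := by omega
  have hn : 1 ≤ n := by omega
  have hmr : (1:ℝ) ≤ m := by exact_mod_cast hm
  have hnr : (1:ℝ) ≤ n := by exact_mod_cast hn
  have hmn' : (m:ℝ) ≤ n := by exact_mod_cast hmn.le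
  have p1 := part_small (F := F) hmn hrm hrm' (β := β) (fun x => th n x)
  have p2 := part_large (F := F) hrm hmn hβ
  have p3 := sing_all (F := F) hn (show 2 * r ≤ n by omega) S hS
  rw [← hqd] at p1 p2 p3
  have hth := sum_th_sq (F := F) hn
  rw [← hqd] at hth
  -- the decomposition
  have e1 : ∀ A : F[X], TS β m n A - q ^ m * S A =
      (∑ g ∈ Mon F m, (th m g - Lb r g) * th n (A - C β * g)) +
      (∑ g ∈ Mon F m, Lb r g * Er n r (A - C β * g)) + q ^ m * (SB r A - S A) := by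
    intro A
    have e2 : ∑ g ∈ Mon F m, Lb r g * Lb r (A - C β * g) = q ^ m * SB r A := by
      rw [hqd, ← main_binary hrm hβ (one_ne_zero (α := F)) A]
      refine sum_congr rfl (fun g _ => ?_)
      have e : conj2 β (1 : F) A g = A - C β * g := by
        unfold conj2
        rw [inv_one, C_1, one_mul]
      rw [e]
    rw [mul_sub, ← e2]
    unfold TS Er
    have e3 : ∑ g ∈ Mon F m, th m g * th n (A - C β * g) =
        (∑ g ∈ Mon F m, (th m g - Lb r g) * th n (A - C β * g)) +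
        (∑ g ∈ Mon F m, Lb r g * (th n (A - C β * g) - Lb r (A - C β * g))) +
        ∑ g ∈ Mon F m, Lb r g * Lb r (A - C β * g) := by
      rw [← sum_add_distrib, ← sum_add_distrib]
      exact sum_congr rfl (fun g _ => by ring)
    rw [e3]
    ring
  have hsum : ∑ A ∈ Mon F n, (TS β m n A - q ^ m * S A) ^ 2 ≤
      3 * (((m : ℝ) + 5) ^ 2 * q ^ (m + m - r) * (n * q ^ n)) +
      3 * (q ^ m * ((Real.exp 3 * (r + 1 : ℕ)) ^ 3 * (((n : ℝ) + 5) ^ 2 * q ^ n))) +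
      3 * (q ^ m) ^ 2 * (2 * (q ^ n *
      (Real.exp 11 * (2 * ((r + 1 : ℕ) + 2) * (1 / q ^ 2) ^ (r + 1)))) +
        2 * ((160 * Real.exp 11 + 98 * Real.exp 22) * (n:ℝ) ^ 3)) := by
    calc ∑ A ∈ Mon F n, (TS β m n A - q ^ m * S A) ^ 2
        ≤ ∑ A ∈ Mon F n, (3 * (∑ g ∈ Mon F m, (th m g - Lb r g) * th n (A - C β * g)) ^ 2 +
          3 * (∑ g ∈ Mon F m, Lb r g * Er n r (A - C β * g)) ^ 2 +
          3 * (q ^ m) ^ 2 * (SB r A - S A) ^ 2) := by
          refine sum_le_sum (fun A _ => ?_)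
          rw [e1]
          have key : ∀ a b c : ℝ, (a + b + c) ^ 2 ≤ 3 * a ^ 2 + 3 * b ^ 2 + 3 * c ^ 2 := by
            intro a b c
            nlinarith [sq_nonneg (a - b), sq_nonneg (a - c), sq_nonneg (b - c)]
          refine (key _ _ _).trans (le_of_eq ?_)
          ring
      _ = 3 * ∑ A ∈ Mon F n, (∑ g ∈ Mon F m, (th m g - Lb r g) * th n (A - C β * g)) ^ 2 +
          3 * ∑ A ∈ Mon F n, (∑ g ∈ Mon F m, Lb r g * Er n r (A - C β * g)) ^ 2 +
          3 * (q ^ m) ^ 2 * ∑ A ∈ Mon F n, (SB r A - S A) ^ 2 := by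
          rw [sum_add_distrib, sum_add_distrib, ← mul_sum, ← mul_sum, ← mul_sum]
      _ ≤ _ := by
          have h1 : ((m : ℝ) + 5) ^ 2 * q ^ (m + m - r) * ∑ f ∈ Mon F n, th n f ^ 2 ≤
              ((m : ℝ) + 5) ^ 2 * q ^ (m + m - r) * (n * q ^ n) :=
            mul_le_mul_of_nonneg_left hth (by positivity)
          have h2 := mul_le_mul_of_nonneg_left p3 (show 0 ≤ 3 * (q ^ m) ^ 2 by positivity)
          linarith
  refine hsum.trans ?_
  -- the numerical estimates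
  have hqr : q ^ (m + m - r) = (q ^ m) ^ 2 / q ^ r := by
    rw [eq_div_iff (by positivity), ← pow_add, ← pow_mul]
    congr 1
    omega
  have t1 : 3 * (((m : ℝ) + 5) ^ 2 * q ^ (m + m - r) * (n * q ^ n)) ≤
      108 * (q ^ n * (q ^ m) ^ 2 * (n * m ^ 2 / q ^ r)) := by
    rw [hqr]
    have h1 : ((m : ℝ) + 5) ^ 2 ≤ 36 * m ^ 2 := by nlinarith
    calc 3 * (((m : ℝ) + 5) ^ 2 * ((q ^ m) ^ 2 / q ^ r) * (n * q ^ n))
        = (3 * ((q ^ m) ^ 2 / q ^ r) * (n * q ^ n)) * ((m : ℝ) + 5) ^ 2 := by ring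
      _ ≤ (3 * ((q ^ m) ^ 2 / q ^ r) * (n * q ^ n)) * (36 * m ^ 2) :=
          mul_le_mul_of_nonneg_left h1 (by positivity)
      _ = _ := by ring
  have hr1 : ((r + 1 : ℕ) : ℝ) ≤ m := by exact_mod_cast (by omega : r + 1 ≤ m)
  have hW : q ^ n * (q ^ m) ^ 2 * ((n:ℝ) ^ 2 * m ^ 3 / q ^ m) = q ^ n * q ^ m * ((n:ℝ) ^ 2 * m ^ 3) := by
    field_simp
  have t2 : 3 * (q ^ m * ((Real.exp 3 * (r + 1 : ℕ)) ^ 3 * (((n : ℝ) + 5) ^ 2 * q ^ n))) ≤
      108 * Real.exp 9 * (q ^ n * (q ^ m) ^ 2 * ((n:ℝ) ^ 2 * m ^ 3 / q ^ m)) := by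
    rw [hW]
    have h1 : ((n : ℝ) + 5) ^ 2 ≤ 36 * n ^ 2 := by nlinarith
    have h2 : (Real.exp 3 * (r + 1 : ℕ)) ^ 3 ≤ Real.exp 9 * m ^ 3 := by
      have e9 : Real.exp 9 = Real.exp 3 ^ 3 := by
        rw [← Real.exp_nat_mul]
        norm_num
      rw [mul_pow, e9]
      exact mul_le_mul_of_nonneg_left (pow_le_pow_left₀ (Nat.cast_nonneg _) hr1 3) (by positivity)
    calc 3 * (q ^ m * ((Real.exp 3 * (r + 1 : ℕ)) ^ 3 * (((n : ℝ) + 5) ^ 2 * q ^ n)))
        ≤ 3 * (q ^ m * ((Real.exp 9 * m ^ 3) * ((36 * n ^ 2) * q ^ n))) := by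
          apply mul_le_mul_of_nonneg_left _ (by norm_num)
          apply mul_le_mul_of_nonneg_left _ (by positivity)
          apply mul_le_mul h2 _ (by positivity) (by positivity)
          exact mul_le_mul_of_nonneg_right h1 (by positivity)
      _ = _ := by ring
  have t3 : 3 * (q ^ m) ^ 2 * (2 * (q ^ n *
      (Real.exp 11 * (2 * ((r + 1 : ℕ) + 2) * (1 / q ^ 2) ^ (r + 1))))) ≤
      36 * Real.exp 11 * (q ^ n * (q ^ m) ^ 2 * ((n:ℝ) ^ 2 * m ^ 3 / q ^ m)) := by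
    have h1 : (1 / q ^ 2) ^ (r + 1) ≤ 1 / q ^ m := by
      rw [one_div_pow, ← pow_mul]
      apply one_div_le_one_div_of_le (by positivity)
      exact pow_le_pow_right₀ (by linarith) (by omega)
    have h2 : ((r + 1 : ℕ) : ℝ) + 2 ≤ 3 * m := by linarith
    have h3 : (m:ℝ) ≤ (n:ℝ) ^ 2 * m ^ 3 := by
      have h4 : (1:ℝ) ≤ (n:ℝ) ^ 2 := one_le_pow₀ hnr
      have h5 : (m:ℝ) ≤ m ^ 3 := le_self_pow₀ hmr (by norm_num)
      nlinarith [show (0:ℝ) ≤ (m:ℝ) ^ 3 by positivity]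
    have h6 : 2 * (((r + 1 : ℕ) : ℝ) + 2) * (1 / q ^ 2) ^ (r + 1) ≤
        6 * ((n:ℝ) ^ 2 * m ^ 3) * (1 / q ^ m) := by
      apply mul_le_mul _ h1 (by positivity) (by positivity)
      linarith
    calc 3 * (q ^ m) ^ 2 * (2 * (q ^ n *
      (Real.exp 11 * (2 * (((r + 1 : ℕ) : ℝ) + 2) * (1 / q ^ 2) ^ (r + 1)))))
        ≤ 3 * (q ^ m) ^ 2 * (2 * (q ^ n * (Real.exp 11 *
          (6 * ((n:ℝ) ^ 2 * m ^ 3) * (1 / q ^ m))))) := by
          apply mul_le_mul_of_nonneg_left _ (by positivity)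
          apply mul_le_mul_of_nonneg_left _ (by norm_num)
          apply mul_le_mul_of_nonneg_left _ (by positivity)
          exact mul_le_mul_of_nonneg_left h6 (Real.exp_pos _).le
      _ = _ := by ring
  have t4 : 3 * (q ^ m) ^ 2 * (2 * ((160 * Real.exp 11 + 98 * Real.exp 22) * (n:ℝ) ^ 3)) ≤
      (960 * Real.exp 11 + 588 * Real.exp 22) *
        (q ^ n * (q ^ m) ^ 2 * ((n:ℝ) ^ 2 * m ^ 3 / q ^ m)) := by
    rw [hW]
    have h1 : (n:ℝ) ≤ m ^ 3 * q ^ (n - m) := by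
      have h2 : (1:ℝ) + ((n - m : ℕ) : ℝ) ≤ q ^ (n - m) := by
        have h3 := one_add_mul_le_pow (show (-2:ℝ) ≤ q - 1 by linarith) (n - m)
        have h4 : (0:ℝ) ≤ ((n - m : ℕ) : ℝ) := Nat.cast_nonneg _
        have h5 : 1 + ((n - m : ℕ) : ℝ) * (q - 1) ≤ q ^ (n - m) := by
          have e : (1 + (q - 1)) = q := by ring
          rwa [e] at h3
        nlinarith
      rw [Nat.cast_sub hmn.le] at h2
      have h6 : (m:ℝ) ≤ m ^ 3 := le_self_pow₀ hmr (by norm_num)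
      have h7 : (n:ℝ) ≤ m * (1 + (n - m)) := by nlinarith
      calc (n:ℝ) ≤ m * (1 + (n - m)) := h7
        _ ≤ m ^ 3 * q ^ (n - m) := mul_le_mul h6 h2 (by linarith) (by positivity)
    have h8 : (q ^ m) ^ 2 * (n:ℝ) ^ 3 ≤ q ^ n * q ^ m * ((n:ℝ) ^ 2 * m ^ 3) := by
      have e : q ^ n = q ^ m * q ^ (n - m) := by rw [← pow_add]; congr 1; omega
      calc (q ^ m) ^ 2 * (n:ℝ) ^ 3 = ((q ^ m) ^ 2 * (n:ℝ) ^ 2) * n := by ring
        _ ≤ ((q ^ m) ^ 2 * (n:ℝ) ^ 2) * (m ^ 3 * q ^ (n - m)) :=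
            mul_le_mul_of_nonneg_left h1 (by positivity)
        _ = _ := by rw [e]; ring
    calc 3 * (q ^ m) ^ 2 * (2 * ((160 * Real.exp 11 + 98 * Real.exp 22) * (n:ℝ) ^ 3))
        = (960 * Real.exp 11 + 588 * Real.exp 22) * ((q ^ m) ^ 2 * (n:ℝ) ^ 3) := by ring
      _ ≤ _ := mul_le_mul_of_nonneg_left h8 (by positivity)
  set a := q ^ n * (q ^ m) ^ 2 * (n * m ^ 2 / q ^ r) with ha
  set b := q ^ n * (q ^ m) ^ 2 * ((n:ℝ) ^ 2 * m ^ 3 / q ^ m) with hb
  have ha0 : 0 ≤ a := by positivity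
  have hb0 : 0 ≤ b := by positivity
  have e9 : q ^ n * (q ^ m) ^ 2 * (n * m ^ 2 / q ^ r + (n:ℝ) ^ 2 * m ^ 3 / q ^ m) = a + b := by
    rw [ha, hb]; ring
  rw [e9]
  have x9 := Real.exp_pos 9
  have x11 := Real.exp_pos 11
  have x22 := Real.exp_pos 22
  have y1 : 0 ≤ Real.exp 9 * a := by positivity
  have y2 : 0 ≤ Real.exp 11 * a := by positivity
  have y3 : 0 ≤ Real.exp 22 * a := by positivity
  have y4 : 0 ≤ Real.exp 11 * b := by positivity
  have y5 : 0 ≤ Real.exp 22 * b := by positivity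
  nlinarith [t1, t2, t3, t4]

end Pool.Agent.H523.CM
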