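import Pool.Agent.H523.CM8

set_option autoImplicit false
set_option linter.unusedSectionVars false

/-! # The singular series -/

namespace Pool.Agent.H523.CM

open Polynomial Finset
open Pool.Agent.H341R2.Sharp (Mon mem_Mon)
open Pool.Agent.H523.FF (Ir mem_Ir PL mem_PL card_PL two_le_card IrLE mem_IrLE irr_coprime PL_mod
  Ir_card sum_IrLE)

open scoped Classical

variable {F : Type} [Field F] [Fintype F]

/-- the number of the residue classes of a tuple modulo `P` -/
noncomputable def nu {k : ℕ} (P : F[X]) (g : Fin k → F[X]) : ℕ :=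
  (univ.image (fun i => g i %ₘ P)).card

/-- the local density of a tuple at `P` -/
noncomputable def beta {k : ℕ} (P : F[X]) (g : Fin k → F[X]) : ℝ :=
  (1 - nu P g / (Fintype.card F : ℝ) ^ P.natDegree) /
    (1 - 1 / (Fintype.card F : ℝ) ^ P.natDegree) ^ k

theorem one_add_aP_eq {P : F[X]} (hP : Irreducible P) (x : F[X]) :
    1 + aP P x = if P ∣ x then 0 else (1 - 1 / (Fintype.card F : ℝ) ^ P.natDegree)⁻¹ := by
  have h := norm_gt hP
  have h1 : (Fintype.card F : ℝ) ^ P.natDegree - 1 ≠ 0 := by linarith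
  have h2 : (Fintype.card F : ℝ) ^ P.natDegree ≠ 0 := by linarith
  unfold aP
  split_ifs
  · field_simp
    ring
  · field_simp
    ring

theorem nu_le {k : ℕ} (P : F[X]) (g : Fin k → F[X]) : nu P g ≤ k := by
  unfold nu
  exact card_image_le.trans (by simp)

theorem local_sum {k : ℕ} {P : F[X]} (hP : P.Monic) (hPI : Irreducible P) (g : Fin k → F[X]) :
    ∑ b ∈ PL F P.natDegree, ∏ i, (1 + aP P (b + g i)) =
      (Fintype.card F : ℝ) ^ P.natDegree * beta P g := by
  have h := norm_gt hPI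
  set x : ℝ := (Fintype.card F : ℝ) ^ P.natDegree with hx
  have hPd : (P.natDegree : WithBot ℕ) = P.degree := (degree_eq_natDegree hP.ne_zero).symm
  have h1 : ∀ b : F[X], ∏ i, (1 + aP P (b + g i)) =
      if ∀ i, ¬ P ∣ b + g i then ((1 - 1 / x)⁻¹) ^ k else 0 := by
    intro b
    simp only [one_add_aP_eq hPI, ← hx]
    split_ifs with h2
    · rw [prod_congr rfl (g := fun _ => (1 - 1 / x)⁻¹) (fun i _ => if_neg (h2 i)), prod_const,
        card_univ, Fintype.card_fin]
    · push Not at h2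
      obtain ⟨i, hi⟩ := h2
      exact prod_eq_zero (mem_univ i) (if_pos hi)
  rw [sum_congr rfl (fun b _ => h1 b), ← sum_filter, sum_const, nsmul_eq_mul]
  -- count the classes
  have hset : (PL F P.natDegree).filter (fun b => ¬ ∀ i, ¬ P ∣ b + g i) =
      (univ.image (fun i => g i %ₘ P)).image (fun y => -y) := by
    ext b
    rw [mem_filter, mem_image, mem_PL, hPd]
    constructor
    · rintro ⟨hb, hb2⟩
      push Not at hb2
      obtain ⟨i, hi⟩ := hb2
      refine ⟨g i %ₘ P, mem_image.mpr ⟨i, mem_univ _, rfl⟩, ?_⟩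
      rw [← modByMonic_eq_zero_iff_dvd hP, add_modByMonic, (modByMonic_eq_self_iff hP).mpr hb] at hi
      exact (eq_neg_of_add_eq_zero_left hi).symm
    · rintro ⟨y, hy, rfl⟩
      obtain ⟨i, -, rfl⟩ := mem_image.mp hy
      refine ⟨by rw [degree_neg]; exact degree_modByMonic_lt _ hP, ?_⟩
      push Not
      refine ⟨i, ?_⟩
      have e := modByMonic_add_div (g i) P
      exact ⟨g i /ₘ P, by linear_combination -e⟩
  have hcnt : (((PL F P.natDegree).filter (fun b => ∀ i, ¬ P ∣ b + g i)).card : ℝ) = x - nu P g := by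
    have h3 := card_filter_add_card_filter_not (s := PL F P.natDegree) (fun b => ∀ i, ¬ P ∣ b + g i)
    rw [hset, card_image_of_injective _ neg_injective, card_PL] at h3
    have h4 : (((PL F P.natDegree).filter (fun b => ∀ i, ¬ P ∣ b + g i)).card : ℝ) + nu P g = x := by
      rw [hx]
      exact_mod_cast h3
    linarith
  rw [hcnt]
  unfold beta
  rw [← hx, inv_pow]
  have h5 : x ≠ 0 := by linarith
  field_simp

/-- **The main term** -/
theorem main_term {k n z : ℕ} (hW : ∑ P ∈ IrLE F z, P.natDegree ≤ n) (g : Fin k → F[X]) :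
    ∑ f ∈ Mon F n, ∏ i, Lz z (f + g i) = (Fintype.card F : ℝ) ^ n * ∏ P ∈ IrLE F z, beta P g := by
  have hu : ∀ P ∈ IrLE F z, P.Monic ∧ Irreducible P := fun P hP =>
    ⟨(mem_IrLE.mp hP).1, (mem_IrLE.mp hP).2.1⟩
  rw [sum_Mon_eq n (fun f => ∏ i, Lz z (f + g i))]
  have h1 : ∀ x : F[X], ∏ i, Lz z (x + g i) = ∏ P ∈ IrLE F z, ∏ i, (1 + aP P (x + g i)) := by
    intro x
    unfold Lz
    rw [prod_comm]
  simp only [h1]
  rw [independence hu hW (fun P x => ∏ i, (1 + aP P (x + g i))) (by
    intro P _ x y hxy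
    refine prod_congr rfl (fun i _ => ?_)
    rw [aP_periodic (x := x + g i) (y := y + g i) (by simpa using hxy)]) (X ^ n)]
  rw [prod_congr rfl (fun P hP => local_sum (hu P hP).1 (hu P hP).2 g), prod_mul_distrib,
    prod_pow_eq_pow_sum]
  push_cast
  rw [← mul_assoc, ← pow_add, Nat.sub_add_cancel hW]

/-- bounds for the local densities at large primes -/
theorem beta_bounds {k : ℕ} {P : F[X]} (hPI : Irreducible P) (g : Fin k → F[X])
    (hk : 2 * (k : ℝ) ≤ (Fintype.card F : ℝ) ^ P.natDegree) :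
    1 - (k : ℝ) ^ 2 / ((Fintype.card F : ℝ) ^ P.natDegree) ^ 2 -
      (if nu P g = k then 0 else k / (Fintype.card F : ℝ) ^ P.natDegree) ≤ beta P g ∧
    0 ≤ beta P g ∧
    beta P g ≤ Real.exp (if nu P g = k then 0 else 2 * k / (Fintype.card F : ℝ) ^ P.natDegree) := by
  have h := norm_gt hPI
  have h2' : 2 ≤ (Fintype.card F : ℝ) ^ P.natDegree := by
    have hq := two_le_card (F := F)
    calc (2:ℝ) ≤ (Fintype.card F : ℝ) := hq
      _ = (Fintype.card F : ℝ) ^ 1 := (pow_one _).symm
      _ ≤ _ := pow_le_pow_right₀ (by linarith) hPI.natDegree_pos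
  unfold beta
  set x : ℝ := (Fintype.card F : ℝ) ^ P.natDegree with hx
  have hx0 : 0 < x := by linarith
  have hk0 : (0:ℝ) ≤ k := Nat.cast_nonneg _
  have hν : (nu P g : ℝ) ≤ k := by exact_mod_cast nu_le P g
  have hν0 : (0:ℝ) ≤ nu P g := Nat.cast_nonneg _
  have hd0 : 0 < 1 - 1 / x := by
    rw [sub_pos, div_lt_one hx0]; exact h
  have hd1 : 1 - 1 / x ≤ 1 := by
    have : 0 < 1 / x := by positivity
    linarith
  have hpow0 : 0 < (1 - 1 / x) ^ k := pow_pos hd0 k
  have hpow1 : (1 - 1 / x) ^ k ≤ 1 := pow_le_one₀ hd0.le hd1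
  have hnum0 : 0 ≤ 1 - nu P g / x := by
    rw [sub_nonneg, div_le_one hx0]; linarith
  refine ⟨?_, div_nonneg hnum0 hpow0.le, ?_⟩
  · rw [le_div_iff₀ hpow0]
    split_ifs with hν'
    · rw [hν', sub_zero]
      -- `(1 - k²/x²) (1 - 1/x)^k ≤ 1 - k/x`
      have h1 : (1 + k / x) * (1 - 1 / x) ^ k ≤ 1 := by
        have h3 : 1 + k / x ≤ (1 + 1 / x) ^ k := by
          have := one_add_mul_le_pow (a := 1 / x) (by have : 0 < 1 / x := by positivity
                                                      linarith) k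
          calc 1 + k / x = 1 + k * (1 / x) := by ring
            _ ≤ _ := this
        calc (1 + k / x) * (1 - 1 / x) ^ k ≤ (1 + 1 / x) ^ k * (1 - 1 / x) ^ k :=
              mul_le_mul_of_nonneg_right h3 hpow0.le
          _ = (1 - (1 / x) ^ 2) ^ k := by rw [← mul_pow]; ring
          _ ≤ 1 := by
              apply pow_le_one₀
              · have : (1 / x) ^ 2 ≤ 1 := pow_le_one₀ (by positivity) (by
                  rw [div_le_one hx0]; linarith)
                linarith
              · have : 0 ≤ (1 / x) ^ 2 := by positivity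
                linarith
      have h4 : 0 ≤ 1 - k / x := by
        rw [sub_nonneg, div_le_one hx0]; linarith
      calc (1 - (k:ℝ) ^ 2 / x ^ 2) * (1 - 1 / x) ^ k = (1 - k / x) * ((1 + k / x) * (1 - 1 / x) ^ k) := by
            field_simp; ring
        _ ≤ (1 - k / x) * 1 := mul_le_mul_of_nonneg_left h1 h4
        _ = _ := by ring
    · have h5 : 1 - (k:ℝ) ^ 2 / x ^ 2 - k / x ≤ 1 - nu P g / x := by
        have h6 : 0 ≤ (k:ℝ) ^ 2 / x ^ 2 := by positivity
        have h7 : (nu P g : ℝ) / x ≤ k / x := div_le_div_of_nonneg_right hν hx0.le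
        linarith
      rcases le_or_gt 0 (1 - (k:ℝ) ^ 2 / x ^ 2 - k / x) with h8 | h8
      · calc (1 - (k:ℝ) ^ 2 / x ^ 2 - k / x) * (1 - 1 / x) ^ k
            ≤ (1 - (k:ℝ) ^ 2 / x ^ 2 - k / x) * 1 := mul_le_mul_of_nonneg_left hpow1 h8
          _ ≤ _ := by rw [mul_one]; exact h5
      · exact (mul_nonpos_of_nonpos_of_nonneg h8.le hpow0.le).trans hnum0
  · rw [div_le_iff₀ hpow0]
    split_ifs with hν'
    · rw [hν', Real.exp_zero, one_mul]
      have := one_add_mul_le_pow (a := -(1 / x)) (by linarith) k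
      calc 1 - k / x = 1 + k * -(1 / x) := by ring
        _ ≤ (1 + -(1 / x)) ^ k := this
        _ = _ := by ring
    · -- `1 ≤ exp (2k/x) (1 - 1/x)^k`
      have h9 : 1 ≤ Real.exp (2 / x) * (1 - 1 / x) := by
        have h10 := Real.add_one_le_exp (2 / x)
        calc (1:ℝ) ≤ (2 / x + 1) * (1 - 1 / x) := by
              have h11 : (2 / x + 1) * (1 - 1 / x) = 1 + (x - 2) / x ^ 2 := by field_simp; ring
              rw [h11]
              have : 0 ≤ (x - 2) / x ^ 2 := div_nonneg (by linarith) (by positivity)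
              linarith
          _ ≤ _ := mul_le_mul_of_nonneg_right h10 hd0.le
      have h12 : 1 ≤ Real.exp (2 * k / x) * (1 - 1 / x) ^ k := by
        have e : Real.exp (2 * k / x) = Real.exp (2 / x) ^ k := by
          rw [← Real.exp_nat_mul]; congr 1; ring
        rw [e, ← mul_pow]
        exact one_le_pow₀ h9
      have h13 : 1 - nu P g / x ≤ 1 := by
        have : 0 ≤ (nu P g : ℝ) / x := by positivity
        linarith
      linarith

/-- a product close to one -/
theorem prod_near_one {ι : Type} (s : Finset ι) (β a t : ι → ℝ) (h0 : ∀ i ∈ s, 0 ≤ β i)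
    (hl : ∀ i ∈ s, 1 - a i ≤ β i) (hu : ∀ i ∈ s, β i ≤ Real.exp (t i)) (ha : ∀ i ∈ s, 0 ≤ a i)
    (ht : ∑ i ∈ s, t i ≤ 1) (ht0 : 0 ≤ ∑ i ∈ s, t i) :
    |∏ i ∈ s, β i - 1| ≤ 2 * ∑ i ∈ s, t i + ∑ i ∈ s, a i := by
  have ha0 : 0 ≤ ∑ i ∈ s, a i := sum_nonneg ha
  rw [abs_le]
  constructor
  · have key : ∀ u : Finset ι, u ⊆ s → 1 - ∑ i ∈ u, a i ≤ ∏ i ∈ u, β i := by
      intro u
      induction u using Finset.induction_on with
      | empty => intro _; simp
      | insert i u hi ih =>
        intro hu'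
        have h1 := ih (fun j hj => hu' (mem_insert_of_mem hj))
        have hi' := hu' (mem_insert_self i u)
        rw [sum_insert hi, prod_insert hi]
        have h2 : 0 ≤ ∏ j ∈ u, β j := prod_nonneg (fun j hj => h0 j (hu' (mem_insert_of_mem hj)))
        rcases le_or_gt (1 - a i) 0 with h3 | h3
        · have h4 : 0 ≤ β i * ∏ j ∈ u, β j := mul_nonneg (h0 i hi') h2
          have h5 : 0 ≤ ∑ j ∈ u, a j := sum_nonneg (fun j hj => ha j (hu' (mem_insert_of_mem hj)))
          linarith
        · rcases le_or_gt (1 - ∑ j ∈ u, a j) 0 with h6 | h6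
          · have h4 : 0 ≤ β i * ∏ j ∈ u, β j := mul_nonneg (h0 i hi') h2
            have := ha i hi'
            linarith
          · have h7 : (1 - a i) * (1 - ∑ j ∈ u, a j) ≤ β i * ∏ j ∈ u, β j :=
              mul_le_mul (hl i hi') h1 h6.le (h0 i hi')
            have h8 : 0 ≤ a i * ∑ j ∈ u, a j :=
              mul_nonneg (ha i hi') (sum_nonneg (fun j hj => ha j (hu' (mem_insert_of_mem hj))))
            nlinarith
    have h1 := key s (Subset.refl s)
    linarith
  · have h1 : ∏ i ∈ s, β i ≤ Real.exp (∑ i ∈ s, t i) := by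
      rw [Real.exp_sum]
      exact prod_le_prod h0 hu
    have h2 := Real.abs_exp_sub_one_le (x := ∑ i ∈ s, t i) (by rw [abs_of_nonneg ht0]; exact ht)
    rw [abs_of_nonneg ht0, abs_le] at h2
    linarith [h2.2]

end Pool.Agent.H523.CM
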