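import Pool.Graph.R_seed8.H256R2.SC.V2
import Pool.Graph.R_seed8.H256R2.SC.J
import Pool.Graph.R_seed8.H256R2.SC.S

set_option autoImplicit false
set_option linter.unusedSectionVars false

/-! # The covering sieve in an arbitrary commutative ring

A version of `Pool.Agent.H256R2.SC.covering` (integers) in which the sieving primes are a finite
set `PP` of pairwise coprime ideals of a commutative ring with a size function `nrm`. -/

namespace Pool.Agent.H523.Cov

open Finset Pool.Agent.H256R2.SC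

open scoped Classical

section
variable {T : Type}

/-- enumeration of a finite set -/
noncomputable def em (PP : Finset T) : Fin PP.card ↪ T :=
  (PP.equivFin.symm.toEmbedding).trans (Function.Embedding.subtype _)

lemma em_mem (PP : Finset T) (i : Fin PP.card) : em PP i ∈ PP := (PP.equivFin.symm i).2

lemma em_surj (PP : Finset T) {p : T} (hp : p ∈ PP) : ∃ i, em PP i = p :=
  ⟨PP.equivFin ⟨p, hp⟩, by simp [em]⟩

theorem Asum_en (PP : Finset T) (nrm : T → ℝ) (x : ℝ) :
    Asum (fun i => nrm (em PP i)) (fun i => 1 / nrm (em PP i)) x =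
      ∑ s ∈ (PP.powerset.filter (fun s : Finset T => s.Nonempty ∧ ∏ p ∈ s, nrm p ≤ x)),
        ∏ p ∈ s, 1 / nrm p := by
  unfold Asum
  refine Finset.sum_bij' (fun s _ => s.map (em PP))
    (fun t _ => univ.filter (fun i => em PP i ∈ t)) ?_ ?_ ?_ ?_ ?_
  · intro s hs
    rw [Finset.mem_filter] at hs ⊢
    refine ⟨Finset.mem_powerset.mpr ?_, hs.2.1.map, ?_⟩
    · intro p hp
      obtain ⟨i, _, rfl⟩ := Finset.mem_map.mp hp
      exact em_mem PP i
    · rw [Finset.prod_map]
      exact hs.2.2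
  · intro t ht
    rw [Finset.mem_filter, Finset.mem_powerset] at ht
    have hmap : (univ.filter (fun i => em PP i ∈ t)).map (em PP) = t := by
      ext p
      rw [Finset.mem_map]
      constructor
      · rintro ⟨i, hi, rfl⟩
        exact (Finset.mem_filter.mp hi).2
      · intro hp
        obtain ⟨i, rfl⟩ := em_surj PP (ht.1 hp)
        exact ⟨i, Finset.mem_filter.mpr ⟨Finset.mem_univ _, hp⟩, rfl⟩
    rw [Finset.mem_filter]
    refine ⟨Finset.mem_univ _, ?_, ?_⟩
    · have := ht.2.1
      rw [← hmap] at this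
      exact Finset.map_nonempty.mp this
    · have := ht.2.2
      rw [← hmap, Finset.prod_map] at this
      exact this
  · intro s _
    ext i
    rw [Finset.mem_filter, Finset.mem_map' (em PP)]
    simp
  · intro t ht
    rw [Finset.mem_filter, Finset.mem_powerset] at ht
    ext p
    rw [Finset.mem_map]
    constructor
    · rintro ⟨i, hi, rfl⟩
      exact (Finset.mem_filter.mp hi).2
    · intro hp
      obtain ⟨i, rfl⟩ := em_surj PP (ht.1 hp)
      exact ⟨i, Finset.mem_filter.mpr ⟨Finset.mem_univ _, hp⟩, rfl⟩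
  · intro s _
    rw [Finset.prod_map]

end

section
variable {R : Type} [CommRing R] {κ : Type} [Fintype κ] [DecidableEq κ]

/-- colouring of the ring: prime number `i` kills the shift `k` -/
noncomputable def cl (PP : Finset (Ideal R)) (res : Ideal R → κ → R) (a : R) :
    Col PP.card κ := fun i =>
  if h : ∃ k, a - res (em PP i) k ∈ em PP i then some h.choose else none

lemma cl_eq {PP : Finset (Ideal R)} {res : Ideal R → κ → R}
    (hinj : ∀ p ∈ PP, ∀ k l, k ≠ l → ¬ (res p k - res p l ∈ p)) (a : R) (i : Fin PP.card)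
    (k : κ) : cl PP res a i = some k ↔ a - res (em PP i) k ∈ em PP i := by
  unfold cl
  constructor
  · intro h
    split_ifs at h with h1
    have h2 := Option.some.inj h
    have h3 := h1.choose_spec
    rw [h2] at h3
    exact h3
  · intro h
    have h1 : ∃ k, a - res (em PP i) k ∈ em PP i := ⟨k, h⟩
    rw [dif_pos h1]
    congr 1
    by_contra hne
    apply hinj (em PP i) (em_mem PP i) h1.choose k hne
    have h3 := h1.choose_spec
    have h4 := (em PP i).sub_mem h h3
    have h5 : a - res (em PP i) k - (a - res (em PP i) h1.choose) =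
        res (em PP i) h1.choose - res (em PP i) k := by ring
    rwa [h5] at h4

/-- primes of an assignment -/
noncomputable def qs (PP : Finset (Ideal R)) (D : Col PP.card κ) : Finset (Ideal R) :=
  (supp D).map (em PP)

lemma qs_sub (PP : Finset (Ideal R)) (D : Col PP.card κ) : qs PP D ⊆ PP := by
  intro p hp
  obtain ⟨i, _, rfl⟩ := Finset.mem_map.mp hp
  exact em_mem PP i

lemma qq_eq (PP : Finset (Ideal R)) (nrm : Ideal R → ℝ) (D : Col PP.card κ) :
    qq (fun i => nrm (em PP i)) D = ∏ p ∈ qs PP D, nrm p := by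
  unfold qq qs
  rw [prod_nu1, Finset.prod_map]

lemma nu_eq' (PP : Finset (Ideal R)) (nrm : Ideal R → ℝ) (D : Col PP.card κ) :
    nu (fun i => 1 / nrm (em PP i)) D = 1 / ∏ p ∈ qs PP D, nrm p := by
  unfold nu qs
  rw [prod_nu1, Finset.prod_map, Finset.prod_div_distrib, Finset.prod_const_one]

/-- an elementary event is a residue class -/
theorem ev_iff {PP : Finset (Ideal R)} (hP : ∀ p ∈ PP, ∀ p' ∈ PP, p ≠ p' → IsCoprime p p')
    {res : Ideal R → κ → R}
    (hinj : ∀ p ∈ PP, ∀ k l, k ≠ l → ¬ (res p k - res p l ∈ p)) (D : Col PP.card κ) :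
    ∃ r : R, ∀ a : R, (∀ i, D i ≠ none → cl PP res a i = D i) ↔
      a - r ∈ ∏ p ∈ qs PP D, p := by
  have hcop : Pairwise (Function.onFun IsCoprime (fun i : Fin PP.card => em PP i)) :=
    fun i j hij => hP _ (em_mem PP i) _ (em_mem PP j) (fun h => hij ((em PP).injective h))
  obtain ⟨r, hr⟩ := Ideal.exists_forall_sub_mem_ideal hcop
    (fun i => match D i with | none => 0 | some k => res (em PP i) k)
  refine ⟨r, fun a => ?_⟩
  have key : ∀ i ∈ supp D, (cl PP res a i = D i ↔ a - r ∈ em PP i) := by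
    intro i hi
    obtain ⟨k, hk⟩ := Option.ne_none_iff_exists'.mp (mem_supp.mp hi)
    have h1 := hr i
    rw [hk] at h1 ⊢
    simp only at h1
    rw [cl_eq hinj]
    constructor
    · intro h2
      have := (em PP i).sub_mem h2 h1
      have e : a - res (em PP i) k - (r - res (em PP i) k) = a - r := by ring
      rwa [e] at this
    · intro h2
      have := (em PP i).add_mem h2 h1
      have e : a - r + (r - res (em PP i) k) = a - res (em PP i) k := by ring
      rwa [e] at this
  have hprod : ∏ p ∈ qs PP D, p = ⨅ i ∈ supp D, em PP i := by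
    unfold qs
    rw [Finset.prod_map]
    exact Ideal.prod_eq_iInf_of_pairwise_isCoprime (fun i _ j _ hij => hcop hij)
  rw [hprod]
  simp only [Ideal.mem_iInf]
  constructor
  · intro h i hi
    exact (key i hi).mp (h i (mem_supp.mp hi))
  · intro h i hi
    have hi' : i ∈ supp D := mem_supp.mpr hi
    rw [key i hi']
    exact h i hi'

end

private lemma vaux1 (L : ℝ) (hL : 0 < L) : (2 / L) ^ 2 = 4 / L ^ 2 := by field_simp; norm_num
private lemma vaux2 (L : ℝ) (hL : 0 < L) : L * (5 / L ^ 2) = 5 / L := by field_simp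
private lemma vaux3 (L : ℝ) (hL : 0 < L) : (L / 8) * (1 / L) = 1 / 8 := by field_simp

/-- **The covering theorem in an arbitrary commutative ring.**  The constant `c` and the threshold
depend only on the constants `c₂`, `CM` of the two Mertens-type hypotheses. -/
theorem covering_general (c₂ CM : ℝ) (hc₂ : 0 < c₂) :
    ∃ c : ℝ, 0 < c ∧ ∃ X₀ : ℝ, ∀ X : ℝ, X₀ ≤ X → ∃ z : ℝ, 0 < z ∧
    Real.log X / (2000 * Real.log (Real.log X)) ≤ Real.log z ∧
    Real.log z ≤ Real.log X / (1000 * Real.log (Real.log X)) ∧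
    ∀ (R : Type) [CommRing R] (nrm : Ideal R → ℝ) (PP : Finset (Ideal R)),
    (∀ p ∈ PP, ∀ p' ∈ PP, p ≠ p' → IsCoprime p p') →
    (∀ p ∈ PP, (Real.log X) ^ 2 < nrm p ∧ nrm p ≤ z) →
    ((PP.card : ℝ) + 1 ≤ z ^ 2) →
    (∑ p ∈ PP, 1 / nrm p ≤ 2 * Real.log (Real.log X) + CM) →
    (∀ x : ℝ, (Real.log X) ^ 2 ≤ x → x ≤ z →
      c₂ * Real.log x / Real.log ((Real.log X) ^ 2) - 1 ≤
        ∑ s ∈ (PP.powerset.filter (fun s : Finset (Ideal R) => s.Nonempty ∧ ∏ p ∈ s, nrm p ≤ x)),
          ∏ p ∈ s, 1 / nrm p) →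
    ∀ (κ : Type) [Fintype κ] [DecidableEq κ], (Fintype.card κ : ℝ) ≤ c * Real.log X →
    ∀ (res : Ideal R → κ → R), (∀ p ∈ PP, ∀ k l, k ≠ l → ¬ (res p k - res p l ∈ p)) →
    ∀ (𝒜 : Finset R) (N Err : ℝ), 0 < N → 0 ≤ Err → Err * X ^ (1 / 4 : ℝ) ≤ N →
    (∀ s : Finset (Ideal R), s ⊆ PP → ∏ p ∈ s, nrm p ≤ X ^ (1 / 4 : ℝ) → ∀ r : R,
      |((𝒜.filter (fun x => x - r ∈ ∏ p ∈ s, p)).card : ℝ) - N / ∏ p ∈ s, nrm p| ≤ Err) →
    ∃ x ∈ 𝒜, ∀ k : κ, ∃ p ∈ PP, x - res p k ∈ p := by
  set C₀ : ℝ := 2 / c₂ + 1 with hC₀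
  have hC1 : 1 ≤ C₀ := by rw [hC₀]; have : 0 < 2 / c₂ := by positivity
                          linarith
  set c : ℝ := min (1 / 8) (c₂ / 6400) with hc
  have hc0 : 0 < c := lt_min (by norm_num) (by positivity)
  have hc8 : c ≤ 1 / 8 := min_le_left _ _
  have hcc : c ≤ c₂ / 6400 := min_le_right _ _
  obtain ⟨L₀, hL₀⟩ := ev_facts C₀ CM
  refine ⟨c, hc0, Real.exp L₀, ?_⟩
  intro X hX
  have hX0 : 0 < X := lt_of_lt_of_le (Real.exp_pos _) hX
  set L : ℝ := Real.log X with hL
  have hXL : X = Real.exp L := (Real.exp_log hX0).symm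
  have hLL : L₀ ≤ L := by
    rw [hL, ← Real.log_exp L₀]
    exact Real.log_le_log (Real.exp_pos _) hX
  obtain ⟨f1, f2, f3, f4, f5, f6⟩ := hL₀ L hLL
  obtain ⟨m, hm1, hm2, hm3⟩ := scales C₀ L hC1 f1 f3 f5
  set l : ℝ := Real.log L with hl
  have hl0 : 0 < l := by linarith
  have hLpos : 0 < L := by linarith
  have hLexp : L = Real.exp l := (Real.exp_log hLpos).symm
  have hXr : ∀ s : ℝ, X ^ s = Real.exp (s * L) := by
    intro s
    rw [hXL, ← Real.exp_mul, mul_comm]
  set z₀ : ℝ := Real.exp (2 * C₀ * l) with hz₀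
  set z : ℝ := z₀ ^ (2 ^ m) with hz
  have hlogz0 : Real.log z₀ = 2 * C₀ * l := Real.log_exp _
  have hz01 : 1 < z₀ := by rw [hz₀]; exact Real.one_lt_exp_iff.mpr (by positivity)
  have hlogzj : ∀ j : ℕ, Real.log (z₀ ^ (2 ^ j)) = (2:ℝ) ^ j * (2 * C₀ * l) := by
    intro j
    rw [Real.log_pow, hlogz0]
    push_cast
    ring
  have hlogz : Real.log z = (2:ℝ) ^ m * (2 * C₀ * l) := hlogzj m
  have hzpos : 0 < z := by rw [hz]; positivity
  have hlz1 : Real.log z ≤ L / (1000 * l) := by rw [hlogz]; exact hm1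
  have hlz2 : L / (2000 * l) ≤ Real.log z := by rw [hlogz]; exact hm2
  have hlzpos : 0 < Real.log z := lt_of_lt_of_le (by positivity) hlz2
  have hzexp : z = Real.exp (Real.log z) := (Real.exp_log hzpos).symm
  have hlzL : Real.log z ≤ L / 10000 := by
    refine hlz1.trans ?_
    apply div_le_div_of_nonneg_left hLpos.le (by norm_num)
    nlinarith
  set y₁ : ℝ := L ^ 2 with hy₁
  have hy1 : 3 ≤ y₁ := by rw [hy₁]; nlinarith
  have hlogy : Real.log y₁ = 2 * l := by rw [hy₁, Real.log_pow]; push_cast; ring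
  refine ⟨z, hzpos, hlz2, hlz1, ?_⟩
  intro R _ nrm PP hPcop hPPmem hcardPP hsumPP hAl κ _ _ hκ res hinj 𝒜 N Err hNpos hErr0 hErr hcount
  set n : ℕ := PP.card with hn
  set P : Fin n → ℝ := fun i => nrm (em PP i) with hP
  set g : Fin n → ℝ := fun i => 1 / nrm (em PP i) with hg
  have hPy : ∀ i, y₁ < P i := fun i => (hPPmem _ (em_mem PP i)).1
  have hPz : ∀ i, P i ≤ z := fun i => (hPPmem _ (em_mem PP i)).2
  have hP1 : ∀ i, 1 < P i := fun i => by linarith [hPy i]
  have hP0 : ∀ i, 0 < P i := fun i => by linarith [hPy i]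
  have hg0 : ∀ i, 0 < g i := fun i => by
    have : g i = 1 / P i := rfl
    rw [this]
    exact div_pos one_pos (hP0 i)
  have hgP : ∀ i, g i = 1 / P i := fun i => rfl
  have hgy : ∀ i, g i ≤ 1 / y₁ := fun i => by
    rw [hgP]
    exact one_div_le_one_div_of_le (by linarith) (hPy i).le
  -- the profile
  set lam : ℝ := c₂ / (4 * l) with hlam
  have hlam0 : 0 < lam := by positivity
  have hA : ∀ j < m + 1, 1 ≤ Asum P g (z₀ ^ (2 ^ j)) ∧
      lam * (2 ^ j * Real.log z₀) ≤ Asum P g (z₀ ^ (2 ^ j)) := by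
    intro j hj
    have h1 : Asum P g (z₀ ^ (2 ^ j)) = _ := Asum_en PP nrm (z₀ ^ (2 ^ j))
    have hxl := hlogzj j
    have h2j : (1:ℝ) ≤ 2 ^ j := one_le_pow₀ (by norm_num)
    have hyx : y₁ ≤ z₀ ^ (2 ^ j) := by
      rw [← Real.log_le_log_iff (by linarith) (by positivity), hxl, hlogy]
      have : 2 * l ≤ 1 * (2 * C₀ * l) := by nlinarith
      nlinarith
    have hxz : z₀ ^ (2 ^ j) ≤ z := by
      rw [hz]
      exact pow_le_pow_right₀ hz01.le (Nat.pow_le_pow_right (by norm_num) (by omega))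
    have h2 := hAl (z₀ ^ (2 ^ j)) hyx hxz
    have h3 : c₂ * Real.log (z₀ ^ (2 ^ j)) / Real.log y₁ = c₂ * (2 ^ j * C₀) := by
      rw [hxl, hlogy]
      field_simp
    rw [h3] at h2
    have h4 : c₂ * C₀ = 2 + c₂ := by
      rw [hC₀]
      field_simp
    have h5 : c₂ * (2 ^ j * C₀) - 1 ≤ Asum P g (z₀ ^ (2 ^ j)) := by
      rw [h1]
      exact h2
    have h6 : 2 ≤ c₂ * (2 ^ j * C₀) := by
      calc (2:ℝ) ≤ c₂ * C₀ := by linarith
        _ = c₂ * (1 * C₀) := by ring
        _ ≤ c₂ * (2 ^ j * C₀) := by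
          apply mul_le_mul_of_nonneg_left _ hc₂.le
          apply mul_le_mul_of_nonneg_right h2j (by linarith)
    refine ⟨by linarith, ?_⟩
    have h7 : lam * (2 ^ j * Real.log z₀) = c₂ * (2 ^ j * C₀) / 2 := by
      rw [hlam, hlogz0]
      field_simp
      ring
    rw [h7]
    linarith
  obtain ⟨h, H⟩ := exists_h P g hP1 hg0 (m + 1) (by omega) z₀ lam hz01 hlam0 hA
  have hzz : z₀ ^ (2 ^ (m + 1 - 1)) = z := by rw [hz, Nat.add_sub_cancel]
  rw [hzz] at H
  set K : ℝ := 4 / (lam * ((m + 1 : ℕ) : ℝ)) with hK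
  have hK16 : K ≤ 16 / c₂ := by
    rw [hK, div_le_div_iff₀ (by positivity) hc₂]
    have h1 : c₂ / 4 ≤ lam * ((m + 1 : ℕ) : ℝ) := by
      push_cast
      calc c₂ / 4 = lam * l := by rw [hlam]; field_simp
        _ ≤ lam * (m + 1) := mul_le_mul_of_nonneg_left hm3 hlam0.le
    nlinarith
  have hK0 : 0 ≤ K := H.K0
  set u : ℝ := (Fintype.card κ : ℝ) with hu
  have hu0 : 0 ≤ u := Nat.cast_nonneg _
  have huL : u ≤ L / 8 := by nlinarith
  -- the sum of the reciprocals
  have hG : ∑ i, g i ≤ 2 * l + CM := by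
    have h1 : ∑ i, g i = ∑ p ∈ PP, 1 / nrm p := by
      have : PP = univ.map (em PP) := by
        ext p
        rw [Finset.mem_map]
        constructor
        · intro hp
          obtain ⟨i, hi⟩ := em_surj PP hp
          exact ⟨i, Finset.mem_univ _, hi⟩
        · rintro ⟨i, _, rfl⟩
          exact em_mem PP i
      conv_rhs => rw [this]
      rw [Finset.sum_map]
    rw [h1]
    exact hsumPP
  have hGn : 0 ≤ ∑ i, g i := Finset.sum_nonneg (fun i _ => (hg0 i).le)
  -- parameters
  set Q : ℝ := Real.exp (L / 40) with hQ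
  set J : ℕ := 2 * ⌈21 * l⌉₊ with hJ
  have hJ1 : 42 * l ≤ (J:ℝ) := by
    have := Nat.le_ceil (21 * l)
    rw [hJ]; push_cast; linarith
  have hJ2 : (J:ℝ) ≤ 43 * l := by
    have := Nat.ceil_lt_add_one (show 0 ≤ 21 * l by positivity)
    rw [hJ]; push_cast; linarith
  have hJe : Even J := ⟨⌈21 * l⌉₊, by rw [hJ]; ring⟩
  have hQ1 : 1 ≤ Q := Real.one_le_exp (by positivity)
  have hzJ : z ^ J ≤ Real.exp (43 * L / 1000) := by
    rw [hzexp, ← Real.exp_nat_mul]
    apply Real.exp_le_exp.mpr
    calc (J:ℝ) * Real.log z ≤ (43 * l) * (L / (1000 * l)) :=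
          mul_le_mul hJ2 hlz1 hlzpos.le (by positivity)
      _ = 43 * L / 1000 := by field_simp
  -- sizes of supports
  have hsupp : ∀ D : Col n κ, qq P D ≤ Q → ((supp D).card : ℝ) ≤ L / 40 := by
    intro D hD
    have h1 : Real.exp ((supp D).card : ℝ) ≤ qq P D := by
      unfold qq
      rw [prod_nu1]
      have : Real.exp ((supp D).card : ℝ) = ∏ i ∈ supp D, Real.exp 1 := by
        rw [Finset.prod_const, ← Real.exp_nat_mul, mul_one]
      rw [this]
      apply Finset.prod_le_prod
      · intro i _; exact (Real.exp_pos _).le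
      · intro i _
        have := Real.exp_one_lt_d9
        linarith [hPy i]
    have h2 := h1.trans hD
    rw [hQ] at h2
    exact Real.exp_le_exp.mp h2
  have hδ : ∀ D : Col n κ, qq P D ≤ Q → 2 * ∑ i with D i ≠ none, g i ≤ 2 / L := by
    intro D hD
    have h1 : ∑ i with D i ≠ none, g i ≤ (supp D).card * (1 / y₁) := by
      have : ∑ i ∈ supp D, g i ≤ ∑ i ∈ supp D, (1 / y₁) := Finset.sum_le_sum (fun i _ => hgy i)
      rw [Finset.sum_const, nsmul_eq_mul] at this
      exact this
    have h2 := hsupp D hD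
    have h3 : ((supp D).card : ℝ) * (1 / y₁) ≤ L / 40 * (1 / y₁) :=
      mul_le_mul_of_nonneg_right h2 (by positivity)
    have h4 : L / 40 * (1 / y₁) = 1 / (40 * L) := by rw [hy₁]; field_simp
    have h5 : 1 / (40 * L) ≤ 1 / L := by
      apply one_div_le_one_div_of_le hLpos
      linarith
    have h6 : 2 / L = 2 * (1 / L) := by ring
    rw [h6]
    linarith
  -- the count
  have hevent : ∀ D : Col n κ, qq P D ≤ Q ^ 2 * z ^ J →
      |((𝒜.filter (fun a => ∀ i, D i ≠ none → cl PP res a i = D i)).card : ℝ) - N * nu g D| ≤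
        Err := by
    intro D hD
    obtain ⟨r, hr⟩ := ev_iff hPcop hinj D
    have h1 : (𝒜.filter (fun a => ∀ i, D i ≠ none → cl PP res a i = D i)) =
        𝒜.filter (fun a => a - r ∈ ∏ p ∈ qs PP D, p) := by
      apply Finset.filter_congr
      intro a _
      exact hr a
    rw [h1]
    have h2 : nu g D = 1 / ∏ p ∈ qs PP D, nrm p := nu_eq' PP nrm D
    rw [h2, mul_one_div]
    apply hcount (qs PP D) (qs_sub PP D)
    have h3 : qq P D = ∏ p ∈ qs PP D, nrm p := qq_eq PP nrm D
    rw [← h3]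
    refine le_trans hD ?_
    rw [hXr]
    calc Q ^ 2 * z ^ J ≤ Real.exp (L / 40) ^ 2 * Real.exp (43 * L / 1000) :=
          mul_le_mul_of_nonneg_left hzJ (by positivity)
      _ = Real.exp (L / 20 + 43 * L / 1000) := by
          rw [← Real.exp_nat_mul, ← Real.exp_add]
          congr 1
          push_cast
          ring
      _ ≤ Real.exp (1 / 4 * L) := Real.exp_le_exp.mpr (by linarith)
  have hn1 : (n:ℝ) + 1 ≤ z ^ 2 := hcardPP
  -- apply the core theorem
  have hL8 : (80:ℝ) ≤ L := by linarith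
  obtain ⟨a, ha, hcov⟩ := core (κ := κ) 𝒜 (cl PP res) H Q (2 / L) 3 N Err J hJe (by norm_num)
    hNpos hErr0 hQ1 hPz
    (fun i => by
      have h1 : (1:ℝ) / y₁ ≤ 1 := by rw [div_le_one (by linarith)]; linarith
      exact (hgy i).trans h1)
    (fun i => by
      have h1 : (1:ℝ) / y₁ ≤ 1 / 9 := one_div_le_one_div_of_le (by norm_num) (by rw [hy₁]; nlinarith)
      have := hgy i
      linarith)
    (fun i => by
      have h1 : u * g i ≤ (L / 8) * (1 / y₁) := mul_le_mul huL (hgy i) (hg0 i).le (by positivity)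
      have h2 : (L / 8) * (1 / y₁) = 1 / (8 * L) := by rw [hy₁]; field_simp
      have h3 : 1 / (8 * L) ≤ 1 := by rw [div_le_one (by positivity)]; linarith
      linarith)
    hδ
    (by
      have : u * (2 / L) ≤ (L / 8) * (2 / L) := mul_le_mul_of_nonneg_right huL (by positivity)
      have e : (L / 8) * (2 / L) = 1 / 4 := by field_simp; norm_num
      linarith)
    (by
      have h1 : ∑ i, 1 / (P i) ^ 2 ≤ (1 / y₁) * ∑ i, g i := by
        rw [Finset.mul_sum]
        apply Finset.sum_le_sum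
        intro i _
        have : 1 / (P i) ^ 2 = g i * g i := by rw [hgP]; field_simp
        rw [this]
        exact mul_le_mul_of_nonneg_right (hgy i) (hg0 i).le
      have h2 : (1 / y₁) * ∑ i, g i ≤ (1 / y₁) * (2 * L) := by
        apply mul_le_mul_of_nonneg_left _ (by positivity)
        have e3 : L ^ (3 / 10 : ℝ) ≤ L := by
          calc L ^ (3 / 10 : ℝ) ≤ L ^ (1:ℝ) :=
                Real.rpow_le_rpow_of_exponent_le (by linarith) (by norm_num)
            _ = L := Real.rpow_one L
        have e4 : 20000 * l ≤ 2000 * C₀ * l ^ 2 := by nlinarith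
        linarith
      have h3 : (1 / y₁) * (2 * L) = 2 / L := by rw [hy₁]; field_simp
      have h4 : 2 * u * ∑ i, 1 / (P i) ^ 2 ≤ 2 * (L / 8) * (2 / L) := by
        apply mul_le_mul _ (by linarith) (Finset.sum_nonneg (fun i _ => by positivity))
          (by positivity)
        linarith
      have e : 2 * (L / 8) * (2 / L) = 1 / 2 := by field_simp; norm_num
      linarith)
    (by
      have h1 : 2 * u * K / Real.log z ≤ 10 * l := by
        rw [div_le_iff₀ hlzpos]
        have e1 : 2 * u * K ≤ 2 * (c * L) * (16 / c₂) := by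
          apply mul_le_mul (by linarith) hK16 hK0 (by positivity)
        have e2 : 2 * (c * L) * (16 / c₂) ≤ L / 200 := by
          have : c * (16 / c₂) ≤ 1 / 400 := by
            calc c * (16 / c₂) ≤ c₂ / 6400 * (16 / c₂) :=
                  mul_le_mul_of_nonneg_right hcc (by positivity)
              _ = 1 / 400 := by field_simp; norm_num
          nlinarith
        have e3 : L / 200 = 10 * l * (L / (2000 * l)) := by field_simp; norm_num
        have e4 : 10 * l * (L / (2000 * l)) ≤ 10 * l * Real.log z :=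
          mul_le_mul_of_nonneg_left hlz2 (by positivity)
        linarith
      have h2 : 25 * l - 1 ≤ Real.log (Q / z) / Real.log z := by
        rw [Real.log_div (by positivity) hzpos.ne', hQ, Real.log_exp, sub_div, div_self hlzpos.ne']
        have : 25 * l ≤ L / 40 / Real.log z := by
          rw [le_div_iff₀ hlzpos]
          calc 25 * l * Real.log z ≤ 25 * l * (L / (1000 * l)) :=
                mul_le_mul_of_nonneg_left hlz1 (by positivity)
            _ = L / 40 := by field_simp; norm_num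
        linarith
      have h3 : Real.exp (2 * u * K / Real.log z - Real.log (Q / z) / Real.log z) ≤ 1 / L ^ 2 := by
        have e1 : (1:ℝ) / L ^ 2 = Real.exp (-(2 * l)) := by
          rw [Real.exp_neg, hLexp, ← Real.exp_nat_mul]
          push_cast
          rw [one_div]
        rw [e1]
        apply Real.exp_le_exp.mpr
        linarith
      have h4 : (u + 1) * ((2 / L) ^ 2 + Real.exp (2 * u * K / Real.log z -
          Real.log (Q / z) / Real.log z)) ≤ L * (5 / L ^ 2) := by
        apply mul_le_mul (by linarith) _ (by positivity) hLpos.le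
        have : (2 / L) ^ 2 = 4 / L ^ 2 := vaux1 L hLpos
        rw [this]
        have e : (5:ℝ) / L ^ 2 = 4 / L ^ 2 + 1 / L ^ 2 := by ring
        rw [e]
        linarith
      have h5 : L * (5 / L ^ 2) = 5 / L := vaux2 L hLpos
      have h6 : 5 / L ≤ 1 / 8 := by rw [div_le_div_iff₀ hLpos (by norm_num)]; linarith
      linarith)
    (by
      have h1 : (1 / (3:ℝ)) ^ J ≤ Real.exp (-(42 * l)) := by
        have e1 : (1 / (3:ℝ)) = Real.exp (-(Real.log 3)) := by
          rw [Real.exp_neg, Real.exp_log (by norm_num)]; norm_num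
        rw [e1, ← Real.exp_nat_mul]
        apply Real.exp_le_exp.mpr
        have e2 : (1:ℝ) ≤ Real.log 3 := by
          rw [Real.le_log_iff_exp_le (by norm_num)]
          have := Real.exp_one_lt_d9
          linarith
        have e3 : 42 * l ≤ J * Real.log 3 := by nlinarith
        linarith
      have h2 : Real.exp ((2 + 6 * 3) * ∑ i, g i) ≤ Real.exp (41 * l) := by
        apply Real.exp_le_exp.mpr
        linarith
      have h3 : (1 / (3:ℝ)) ^ J * Real.exp ((2 + 6 * 3) * ∑ i, g i) ≤ 1 / L := by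
        calc (1 / (3:ℝ)) ^ J * Real.exp ((2 + 6 * 3) * ∑ i, g i)
            ≤ Real.exp (-(42 * l)) * Real.exp (41 * l) :=
              mul_le_mul h1 h2 (Real.exp_pos _).le (Real.exp_pos _).le
          _ = Real.exp (-l) := by rw [← Real.exp_add]; congr 1; ring
          _ = 1 / L := by rw [Real.exp_neg, ← hLexp, one_div]
      calc u * (1 / (3:ℝ)) ^ J * Real.exp ((2 + 6 * 3) * ∑ i, g i)
          = u * ((1 / (3:ℝ)) ^ J * Real.exp ((2 + 6 * 3) * ∑ i, g i)) := by ring
        _ ≤ (L / 8) * (1 / L) := mul_le_mul huL h3 (by positivity) (by positivity)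
        _ = 1 / 8 := vaux3 L hLpos)
    hevent
    (by
      rw [hXr] at hErr
      have hn0 : (0:ℝ) ≤ (n:ℝ) + 1 := add_nonneg (Nat.cast_nonneg n) zero_le_one
      have hnJ0 : (0:ℝ) ≤ ((n:ℝ) + 1) ^ J := pow_nonneg hn0 J
      have h1 : ((n:ℝ) + 1) ^ J ≤ Real.exp (86 * L / 1000) := by
        calc ((n:ℝ) + 1) ^ J ≤ (z ^ 2) ^ J := pow_le_pow_left₀ hn0 hn1 J
          _ = (z ^ J) ^ 2 := pow_right_comm z 2 J
          _ ≤ (Real.exp (43 * L / 1000)) ^ 2 := pow_le_pow_left₀ (by positivity) hzJ 2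
          _ = Real.exp (86 * L / 1000) := by
              rw [← Real.exp_nat_mul]; congr 1; push_cast; ring
      have h2 : u * ((n:ℝ) + 1) ^ J ≤ Real.exp (L / 100) * Real.exp (86 * L / 1000) :=
        mul_le_mul (by linarith) h1 hnJ0 (Real.exp_pos _).le
      have h3 : (1:ℝ) ≤ Real.exp (96 * L / 1000) := Real.one_le_exp (by positivity)
      have h4 : 1 + u * ((n:ℝ) + 1) ^ J ≤ 2 * Real.exp (96 * L / 1000) := by
        have : Real.exp (L / 100) * Real.exp (86 * L / 1000) = Real.exp (96 * L / 1000) := by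
          rw [← Real.exp_add]; congr 1; ring
        linarith
      have h5 : Q ^ 4 = Real.exp (L / 10) := by
        rw [hQ, ← Real.exp_nat_mul]; congr 1; push_cast; ring
      have h6 : Err * (9 * Q ^ 4 * (1 + u * ((n:ℝ) + 1) ^ J)) ≤
          Err * (9 * Real.exp (L / 10) * (2 * Real.exp (96 * L / 1000))) := by
        rw [h5]
        have h50 : (0:ℝ) ≤ 9 * Real.exp (L / 10) :=
          mul_nonneg (by norm_num) (Real.exp_pos _).le
        exact mul_le_mul_of_nonneg_left (mul_le_mul_of_nonneg_left h4 h50) hErr0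
      have h7 : Err * (9 * Real.exp (L / 10) * (2 * Real.exp (96 * L / 1000))) =
          (Err * Real.exp (1 / 4 * L)) * (18 * Real.exp (-(54 * L / 1000))) := by
        have : Real.exp (L / 10) * Real.exp (96 * L / 1000) =
            Real.exp (1 / 4 * L) * Real.exp (-(54 * L / 1000)) := by
          rw [← Real.exp_add, ← Real.exp_add]; congr 1; ring
        calc _ = 18 * Err * (Real.exp (L / 10) * Real.exp (96 * L / 1000)) := by
              ring
          _ = _ := by rw [this]; ring
      have h8 : 18 * Real.exp (-(54 * L / 1000)) < 1 / 8 := by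
        have e2 : (144:ℝ) < Real.exp (54 * L / 1000) := by
          have e3 : (44:ℝ) ≤ 54 * L / 1000 := by linarith
          have e4 : Real.exp 44 ≤ Real.exp (54 * L / 1000) := Real.exp_le_exp.mpr e3
          have e5 : (144:ℝ) < Real.exp 44 := by
            have e6 : Real.exp 44 = (Real.exp 22) ^ 2 := by
              rw [← Real.exp_nat_mul]; congr 1; norm_num
            have e7 := Real.add_one_le_exp (22:ℝ)
            rw [e6]
            nlinarith
          linarith
        rw [Real.exp_neg, ← div_eq_mul_inv, div_lt_iff₀ (Real.exp_pos _)]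
        linarith
      rw [h7] at h6
      have h9 : (Err * Real.exp (1 / 4 * L)) * (18 * Real.exp (-(54 * L / 1000))) ≤
          N * (18 * Real.exp (-(54 * L / 1000))) :=
        mul_le_mul_of_nonneg_right hErr (by positivity)
      have h10 : N * (18 * Real.exp (-(54 * L / 1000))) < N * (1 / 8) :=
        mul_lt_mul_of_pos_left h8 hNpos
      linarith)
  refine ⟨a, ha, fun k => ?_⟩
  obtain ⟨i, hi⟩ := hcov k
  have h1 := (cl_eq hinj a i k).mp hi
  exact ⟨em PP i, em_mem PP i, h1⟩

end Pool.Agent.H523.Cov
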