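import Pool.Agent.H523.Cov

set_option autoImplicit false
set_option linter.unusedSectionVars false

/-! # The covering theorem, principal ideals -/

namespace Pool.Agent.H523.Cov

open Finset

open scoped Classical

section
variable {R : Type} [CommRing R]

/-- a chosen element of `PP` generating an ideal -/
noncomputable def gn (PP : Finset R) (I : Ideal R) : R :=
  if h : ∃ p ∈ PP, Ideal.span {p} = I then h.choose else 0

lemma gn_span {PP : Finset R}
    (hinj : ∀ p ∈ PP, ∀ p' ∈ PP, Ideal.span {p} = Ideal.span {p'} → p = p') {p : R} (hp : p ∈ PP) :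
    gn PP (Ideal.span {p}) = p := by
  have h : ∃ p' ∈ PP, Ideal.span {p'} = Ideal.span {p} := ⟨p, hp, rfl⟩
  unfold gn
  rw [dif_pos h]
  exact hinj _ h.choose_spec.1 _ hp h.choose_spec.2

lemma span_gn {PP : Finset R} {I : Ideal R} (hI : I ∈ PP.image (fun p => Ideal.span {p})) :
    gn PP I ∈ PP ∧ Ideal.span {gn PP I} = I := by
  obtain ⟨p, hp, hpI⟩ := Finset.mem_image.mp hI
  have h : ∃ p' ∈ PP, Ideal.span {p'} = I := ⟨p, hp, hpI⟩
  unfold gn
  rw [dif_pos h]
  exact ⟨h.choose_spec.1, h.choose_spec.2⟩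

end

/-- **The covering theorem**, sieving by elements. -/
theorem covering_elem (c₂ CM : ℝ) (hc₂ : 0 < c₂) :
    ∃ c : ℝ, 0 < c ∧ ∃ X₀ : ℝ, ∀ X : ℝ, X₀ ≤ X → ∃ z : ℝ, 0 < z ∧
    Real.log X / (2000 * Real.log (Real.log X)) ≤ Real.log z ∧
    Real.log z ≤ Real.log X / (1000 * Real.log (Real.log X)) ∧
    ∀ (R : Type) [CommRing R] (nrm : R → ℝ) (PP : Finset R),
    (∀ p ∈ PP, ∀ p' ∈ PP, p ≠ p' → IsCoprime p p') →
    (∀ p ∈ PP, ∀ p' ∈ PP, Ideal.span {p} = Ideal.span {p'} → p = p') →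
    (∀ p ∈ PP, (Real.log X) ^ 2 < nrm p ∧ nrm p ≤ z) →
    ((PP.card : ℝ) + 1 ≤ z ^ 2) →
    (∑ p ∈ PP, 1 / nrm p ≤ 2 * Real.log (Real.log X) + CM) →
    (∀ x : ℝ, (Real.log X) ^ 2 ≤ x → x ≤ z →
      c₂ * Real.log x / Real.log ((Real.log X) ^ 2) - 1 ≤
        ∑ s ∈ (PP.powerset.filter (fun s : Finset R => s.Nonempty ∧ ∏ p ∈ s, nrm p ≤ x)),
          ∏ p ∈ s, 1 / nrm p) →
    ∀ (κ : Type) [Fintype κ] [DecidableEq κ], (Fintype.card κ : ℝ) ≤ c * Real.log X →
    ∀ (res : R → κ → R), (∀ p ∈ PP, ∀ k l, k ≠ l → ¬ (p ∣ res p k - res p l)) →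
    ∀ (𝒜 : Finset R) (N Err : ℝ), 0 < N → 0 ≤ Err → Err * X ^ (1 / 4 : ℝ) ≤ N →
    (∀ s : Finset R, s ⊆ PP → ∏ p ∈ s, nrm p ≤ X ^ (1 / 4 : ℝ) → ∀ r : R,
      |((𝒜.filter (fun x => (∏ p ∈ s, p) ∣ x - r)).card : ℝ) - N / ∏ p ∈ s, nrm p| ≤ Err) →
    ∃ x ∈ 𝒜, ∀ k : κ, ∃ p ∈ PP, p ∣ x - res p k := by
  obtain ⟨c, hc, X₀, H⟩ := covering_general c₂ CM hc₂
  refine ⟨c, hc, X₀, fun X hX => ?_⟩
  obtain ⟨z, hz, hz1, hz2, H⟩ := H X hX
  refine ⟨z, hz, hz1, hz2, ?_⟩
  intro R _ nrm PP hcop hinj hPP hcard hsum hA κ _ _ hκ res hres 𝒜 N Err hN hErr0 hErr hcount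
  set sp : R → Ideal R := fun p => Ideal.span {p} with hsp
  set PI : Finset (Ideal R) := PP.image sp with hPI
  have hinj' : ∀ p ∈ PP, ∀ p' ∈ PP, sp p = sp p' → p = p' := hinj
  have hg1 : ∀ p ∈ PP, gn PP (sp p) = p := fun p hp => gn_span hinj hp
  have hg2 : ∀ I ∈ PI, gn PP I ∈ PP ∧ sp (gn PP I) = I := fun I hI => span_gn hI
  -- subsets
  have hsub1 : ∀ s : Finset (Ideal R), s ⊆ PI → s.image (gn PP) ⊆ PP := by
    intro s hs p hp
    obtain ⟨I, hI, rfl⟩ := Finset.mem_image.mp hp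
    exact (hg2 I (hs hI)).1
  have hgi : ∀ s : Finset (Ideal R), s ⊆ PI → ∀ I ∈ s, ∀ I' ∈ s, gn PP I = gn PP I' → I = I' := by
    intro s hs I hI I' hI' h
    rw [← (hg2 I (hs hI)).2, ← (hg2 I' (hs hI')).2, h]
  have hback : ∀ s : Finset (Ideal R), s ⊆ PI → (s.image (gn PP)).image sp = s := by
    intro s hs
    rw [Finset.image_image]
    ext I
    rw [Finset.mem_image]
    constructor
    · rintro ⟨I', hI', rfl⟩
      rw [Function.comp_apply, (hg2 I' (hs hI')).2]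
      exact hI'
    · intro hI
      exact ⟨I, hI, (hg2 I (hs hI)).2⟩
  have hforth : ∀ s : Finset R, s ⊆ PP → (s.image sp).image (gn PP) = s := by
    intro s hs
    rw [Finset.image_image]
    ext p
    rw [Finset.mem_image]
    constructor
    · rintro ⟨p', hp', rfl⟩
      rw [Function.comp_apply, hg1 p' (hs hp')]
      exact hp'
    · intro hp
      exact ⟨p, hp, hg1 p (hs hp)⟩
  have hprodn : ∀ s : Finset (Ideal R), s ⊆ PI → ∀ f : R → ℝ,
      ∏ I ∈ s, f (gn PP I) = ∏ p ∈ s.image (gn PP), f p := by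
    intro s hs f
    rw [Finset.prod_image (fun I hI I' hI' h => hgi s hs I hI I' hI' h)]
  have := H R (fun I => nrm (gn PP I)) PI ?_ ?_ ?_ ?_ ?_ κ hκ (fun I k => res (gn PP I) k) ?_ 𝒜 N Err
    hN hErr0 hErr ?_
  · obtain ⟨x, hx, hcov⟩ := this
    refine ⟨x, hx, fun k => ?_⟩
    obtain ⟨I, hI, hIk⟩ := hcov k
    refine ⟨gn PP I, (hg2 I hI).1, ?_⟩
    rw [← Ideal.mem_span_singleton]
    have h3 := (hg2 I hI).2
    rw [hsp] at h3
    simp only at h3
    rw [h3]
    exact hIk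
  · intro I hI I' hI' hne
    rw [← (hg2 I hI).2, ← (hg2 I' hI').2]
    rw [hsp]
    simp only
    rw [Ideal.isCoprime_span_singleton_iff]
    apply hcop _ (hg2 I hI).1 _ (hg2 I' hI').1
    intro h
    exact hne (hgi PI (Finset.Subset.refl _) I hI I' hI' h)
  · intro I hI
    exact hPP _ (hg2 I hI).1
  · have : (PI.card : ℝ) ≤ PP.card := by exact_mod_cast Finset.card_image_le
    linarith
  · rw [hPI, Finset.sum_image (fun p hp p' hp' h => hinj' p hp p' hp' h)]
    refine le_trans (le_of_eq ?_) hsum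
    exact Finset.sum_congr rfl (fun p hp => by rw [hg1 p hp])
  · intro x hx1 hx2
    refine (hA x hx1 hx2).trans (le_of_eq ?_)
    refine Finset.sum_bij' (fun s _ => s.image sp) (fun s _ => s.image (gn PP)) ?_ ?_ ?_ ?_ ?_
    · intro s hs
      rw [Finset.mem_filter, Finset.mem_powerset] at hs ⊢
      have hs' : s.image sp ⊆ PI := Finset.image_subset_image hs.1
      refine ⟨hs', hs.2.1.image _, ?_⟩
      rw [hprodn _ hs' nrm, hforth s hs.1]
      exact hs.2.2
    · intro s hs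
      rw [Finset.mem_filter, Finset.mem_powerset] at hs ⊢
      refine ⟨hsub1 s hs.1, hs.2.1.image _, ?_⟩
      rw [← hprodn _ hs.1 nrm]
      exact hs.2.2
    · intro s hs
      rw [Finset.mem_filter, Finset.mem_powerset] at hs
      exact hforth s hs.1
    · intro s hs
      rw [Finset.mem_filter, Finset.mem_powerset] at hs
      exact hback s hs.1
    · intro s hs
      rw [Finset.mem_filter, Finset.mem_powerset] at hs
      have hs' : s.image sp ⊆ PI := Finset.image_subset_image hs.1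
      rw [hprodn _ hs' (fun p => 1 / nrm p), hforth s hs.1]
  · intro I hI k l hkl h
    have h2 := hg2 I hI
    apply hres _ h2.1 k l hkl
    rw [← Ideal.mem_span_singleton]
    have h3 := h2.2
    rw [hsp] at h3
    simp only at h3
    rw [h3]
    exact h
  · intro s hs hle r
    have h1 : ∏ I ∈ s, nrm (gn PP I) = ∏ p ∈ s.image (gn PP), nrm p := hprodn s hs nrm
    have h2 : ∏ I ∈ s, I = Ideal.span {∏ p ∈ s.image (gn PP), p} := by
      rw [← Ideal.prod_span_singleton, Finset.prod_image (fun I hI I' hI' h => hgi s hs I hI I' hI' h)]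
      exact Finset.prod_congr rfl (fun I hI => ((hg2 I (hs hI)).2).symm)
    rw [h1] at hle ⊢
    have h3 := hcount (s.image (gn PP)) (hsub1 s hs) hle r
    rw [h2]
    simp only [Ideal.mem_span_singleton]
    exact h3

end Pool.Agent.H523.Cov
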