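import Mathlib

set_option autoImplicit false
set_option linter.unusedSectionVars false

/-! # Polynomials over a finite field: boxes, residue classes, monic irreducibles -/

namespace Pool.Agent.H523.FF

open Polynomial Finset

open scoped Classical

variable (F : Type) [Field F] [Fintype F]

/-- polynomials of degree `< n` -/
noncomputable def PL (n : ℕ) : Finset F[X] :=
  (Finset.univ : Finset (Fin n → F)).image (fun c => ((degreeLTEquiv F n).symm c : F[X]))

variable {F}

lemma mem_PL {n : ℕ} {f : F[X]} : f ∈ PL F n ↔ f.degree < n := by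
  unfold PL
  rw [Finset.mem_image]
  constructor
  · rintro ⟨c, _, rfl⟩
    exact mem_degreeLT.mp ((degreeLTEquiv F n).symm c).2
  · intro h
    refine ⟨degreeLTEquiv F n ⟨f, mem_degreeLT.mpr h⟩, Finset.mem_univ _, ?_⟩
    simp

lemma card_PL (n : ℕ) : (PL F n).card = Fintype.card F ^ n := by
  unfold PL
  rw [Finset.card_image_of_injective]
  · simp
  · intro c c' h
    exact (degreeLTEquiv F n).symm.injective (Subtype.ext h)

/-- a residue class modulo a monic polynomial in a box -/
theorem PL_mod (Q : F[X]) (hQ : Q.Monic) (r : F[X]) (n : ℕ) (hn : Q.natDegree ≤ n) :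
    ((PL F n).filter (fun x => Q ∣ x - r)).card = Fintype.card F ^ (n - Q.natDegree) := by
  rw [← card_PL]
  symm
  have hQ0 : Q ≠ 0 := hQ.ne_zero
  refine Finset.card_bij (fun g _ => r %ₘ Q + Q * g) ?_ ?_ ?_
  · intro g hg
    rw [mem_PL] at hg
    rw [Finset.mem_filter, mem_PL]
    constructor
    · refine lt_of_le_of_lt (degree_add_le _ _) (max_lt ?_ ?_)
      · refine lt_of_lt_of_le (degree_modByMonic_lt r hQ) ?_
        rw [degree_eq_natDegree hQ0]
        exact_mod_cast hn
      · by_cases hg0 : g = 0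
        · rw [hg0, mul_zero, degree_zero]
          exact WithBot.bot_lt_coe n
        · rw [degree_mul, degree_eq_natDegree hQ0, degree_eq_natDegree hg0]
          rw [degree_eq_natDegree hg0] at hg
          have : g.natDegree < n - Q.natDegree := by exact_mod_cast hg
          have h2 : Q.natDegree + g.natDegree < n := by omega
          exact_mod_cast h2
    · have h := modByMonic_add_div r Q
      have : r %ₘ Q + Q * g - r = Q * (g - r /ₘ Q) := by linear_combination h
      rw [this]
      exact dvd_mul_right _ _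
  · intro g _ g' _ h
    have := add_left_cancel h
    exact mul_left_cancel₀ hQ0 this
  · intro x hx
    rw [Finset.mem_filter, mem_PL] at hx
    obtain ⟨hx1, hx2⟩ := hx
    have h := modByMonic_add_div r Q
    have hd : Q ∣ x - r %ₘ Q := by
      have : x - r %ₘ Q = (x - r) + Q * (r /ₘ Q) := by linear_combination -h
      rw [this]
      exact dvd_add hx2 (dvd_mul_right _ _)
    obtain ⟨g, hg⟩ := hd
    refine ⟨g, ?_, ?_⟩
    · rw [mem_PL]
      by_cases hg0 : g = 0
      · rw [hg0, degree_zero]; exact WithBot.bot_lt_coe _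
      · have h3 : (Q * g).degree < n := by
          rw [← hg]
          refine lt_of_le_of_lt (degree_sub_le _ _) (max_lt hx1 ?_)
          refine lt_of_lt_of_le (degree_modByMonic_lt r hQ) ?_
          rw [degree_eq_natDegree hQ0]
          exact_mod_cast hn
        rw [degree_mul, degree_eq_natDegree hQ0, degree_eq_natDegree hg0] at h3
        have h4 : Q.natDegree + g.natDegree < n := by exact_mod_cast h3
        rw [degree_eq_natDegree hg0]
        have h5 : g.natDegree < n - Q.natDegree := by omega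
        exact_mod_cast h5
    · show r %ₘ Q + Q * g = x
      rw [← hg]; ring

/-! ## Monic irreducible polynomials -/

variable (F) in
/-- monic irreducible polynomials of degree `d` -/
noncomputable def Ir (d : ℕ) : Finset F[X] :=
  (PL F (d + 1)).filter (fun P => P.Monic ∧ Irreducible P ∧ P.natDegree = d)

lemma mem_Ir {d : ℕ} {P : F[X]} : P ∈ Ir F d ↔ P.Monic ∧ Irreducible P ∧ P.natDegree = d := by
  unfold Ir
  rw [Finset.mem_filter, mem_PL]
  constructor
  · exact fun h => h.2
  · intro h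
    refine ⟨?_, h⟩
    rw [degree_eq_natDegree h.1.ne_zero, h.2.2]
    exact_mod_cast Nat.lt_succ_self d

/-- distinct monic irreducible polynomials are coprime -/
lemma irr_coprime {P Q : F[X]} (hP : P.Monic) (hP' : Irreducible P) (hQ : Q.Monic)
    (hQ' : Irreducible Q) (h : P ≠ Q) : IsCoprime P Q := by
  rw [hP'.coprime_iff_not_dvd]
  intro hd
  exact h (eq_of_monic_of_associated hP hQ ((hP'.dvd_irreducible_iff_associated hQ').mp hd))

theorem Ir_card (d : ℕ) (hd : 0 < d) : d * (Ir F d).card ≤ Fintype.card F ^ d := by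
  have hq : 1 < Fintype.card F := Fintype.one_lt_card
  have h1 : ∏ P ∈ Ir F d, P ∣ (X ^ (Fintype.card F) ^ d - X : F[X]) := by
    apply Finset.prod_dvd_of_coprime
    · intro P hP Q hQ hPQ
      have hP := mem_Ir.mp hP
      have hQ := mem_Ir.mp hQ
      exact irr_coprime hP.1 hP.2.1 hQ.1 hQ.2.1 hPQ
    · intro P hP
      have hP := mem_Ir.mp hP
      have := (hP.2.1.natDegree_dvd_iff_dvd_X_pow_card_pow_sub_X (n := d)).mp
        (by rw [hP.2.2])
      rwa [Nat.card_eq_fintype_card] at this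
  have h2 : (∏ P ∈ Ir F d, P).natDegree = d * (Ir F d).card := by
    rw [natDegree_prod_of_monic _ _ (fun P hP => (mem_Ir.mp hP).1)]
    rw [Finset.sum_congr rfl (fun P hP => (mem_Ir.mp hP).2.2), Finset.sum_const, smul_eq_mul,
      mul_comm]
  have h3 := natDegree_le_of_dvd h1 (FiniteField.X_pow_card_pow_sub_X_ne_zero F hd.ne' hq)
  rw [h2, FiniteField.X_pow_card_pow_sub_X_natDegree_eq F hd.ne' hq] at h3
  exact h3

variable (F) in
/-- monic polynomials of degree `d` -/
noncomputable def Mo (d : ℕ) : Finset F[X] := (PL F d).image (fun g => X ^ d + g)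

lemma mem_Mo {d : ℕ} {f : F[X]} : f ∈ Mo F d ↔ f.Monic ∧ f.natDegree = d := by
  unfold Mo
  rw [Finset.mem_image]
  constructor
  · rintro ⟨g, hg, rfl⟩
    rw [mem_PL] at hg
    refine ⟨monic_X_pow_add hg, ?_⟩
    have h1 : (X ^ d + g : F[X]).degree = (X ^ d : F[X]).degree :=
      degree_add_eq_left_of_degree_lt (by rw [degree_X_pow]; exact hg)
    rw [natDegree_eq_of_degree_eq h1, natDegree_X_pow]
  · rintro ⟨h1, h2⟩
    refine ⟨f - X ^ d, ?_, by ring⟩
    rw [mem_PL]
    have h3 : f.degree = (X ^ d : F[X]).degree := by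
      rw [degree_eq_natDegree h1.ne_zero, h2, degree_X_pow]
    have h4 := degree_sub_lt_left h3 h1.ne_zero (by rw [h1.leadingCoeff, (monic_X_pow d).leadingCoeff])
    rw [degree_eq_natDegree h1.ne_zero, h2] at h4
    exact h4

lemma card_Mo (d : ℕ) : (Mo F d).card = Fintype.card F ^ d := by
  unfold Mo
  rw [Finset.card_image_of_injective _ (add_right_injective _), card_PL]

lemma Mo_disj : ∀ d ∈ (Set.univ : Set ℕ), ∀ e ∈ (Set.univ : Set ℕ), d ≠ e →
    Disjoint (Mo F d) (Mo F e) := by
  intro d _ e _ hde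
  rw [Finset.disjoint_left]
  intro f hf hf'
  exact hde ((mem_Mo.mp hf).2.symm.trans (mem_Mo.mp hf').2)

variable (F) in
/-- monic polynomials of degree `≤ d` -/
noncomputable def MoLE (d : ℕ) : Finset F[X] := (range (d + 1)).biUnion (Mo F)

lemma mem_MoLE {d : ℕ} {f : F[X]} : f ∈ MoLE F d ↔ f.Monic ∧ f.natDegree ≤ d := by
  unfold MoLE
  rw [Finset.mem_biUnion]
  constructor
  · rintro ⟨e, he, h⟩
    rw [Finset.mem_range] at he
    have h := mem_Mo.mp h
    exact ⟨h.1, by rw [h.2]; omega⟩
  · rintro ⟨h1, h2⟩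
    exact ⟨f.natDegree, Finset.mem_range.mpr (by omega), mem_Mo.mpr ⟨h1, rfl⟩⟩

/-- sum over monic polynomials of a function of the degree -/
lemma sum_MoLE (d : ℕ) (φ : ℕ → ℝ) :
    ∑ f ∈ MoLE F d, φ f.natDegree = ∑ e ∈ range (d + 1), (Fintype.card F : ℝ) ^ e * φ e := by
  unfold MoLE
  rw [Finset.sum_biUnion (fun a _ b _ hab => Mo_disj a trivial b trivial hab)]
  refine Finset.sum_congr rfl (fun e _ => ?_)
  rw [Finset.sum_congr rfl (fun f hf => by rw [(mem_Mo.mp hf).2]), Finset.sum_const, card_Mo,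
    nsmul_eq_mul]
  push_cast
  ring

variable (F) in
/-- monic irreducible polynomials of degree `≤ d` -/
noncomputable def IrLE (d : ℕ) : Finset F[X] := (Finset.Icc 1 d).biUnion (Ir F)

lemma mem_IrLE {d : ℕ} {P : F[X]} : P ∈ IrLE F d ↔ P.Monic ∧ Irreducible P ∧ P.natDegree ≤ d := by
  unfold IrLE
  rw [Finset.mem_biUnion]
  constructor
  · rintro ⟨e, he, h⟩
    rw [Finset.mem_Icc] at he
    have h := mem_Ir.mp h
    exact ⟨h.1, h.2.1, by rw [h.2.2]; omega⟩
  · rintro ⟨h1, h2, h3⟩
    exact ⟨P.natDegree, Finset.mem_Icc.mpr ⟨h2.natDegree_pos, h3⟩, mem_Ir.mpr ⟨h1, h2, rfl⟩⟩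

lemma Ir_disj : ∀ d ∈ (Set.univ : Set ℕ), ∀ e ∈ (Set.univ : Set ℕ), d ≠ e →
    Disjoint (Ir F d) (Ir F e) := by
  intro d _ e _ hde
  rw [Finset.disjoint_left]
  intro f hf hf'
  exact hde ((mem_Ir.mp hf).2.2.symm.trans (mem_Ir.mp hf').2.2)

lemma sum_IrLE (s : Finset ℕ) (φ : ℕ → ℝ) :
    ∑ f ∈ s.biUnion (Ir F), φ f.natDegree = ∑ e ∈ s, ((Ir F e).card : ℝ) * φ e := by
  rw [Finset.sum_biUnion (fun a _ b _ hab => Ir_disj a trivial b trivial hab)]
  refine Finset.sum_congr rfl (fun e _ => ?_)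
  rw [Finset.sum_congr rfl (fun f hf => by rw [(mem_Ir.mp hf).2.2]), Finset.sum_const,
    nsmul_eq_mul]

lemma Ir_card_real (d : ℕ) (hd : 0 < d) :
    ((Ir F d).card : ℝ) ≤ (Fintype.card F : ℝ) ^ d / d := by
  rw [le_div_iff₀ (by exact_mod_cast hd), mul_comm]
  exact_mod_cast Ir_card d hd

end Pool.Agent.H523.FF
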