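import Pool.Agent.H523.FF1

set_option autoImplicit false
set_option linter.unusedSectionVars false

/-! # Euler products over monic irreducible polynomials -/

namespace Pool.Agent.H523.FF

open Polynomial Finset

open scoped Classical

variable {F : Type} [Field F] [Fintype F]

/-- `f` is monic and all its monic irreducible factors lie in `T` -/
def Fac (T : Finset F[X]) (f : F[X]) : Prop :=
  f.Monic ∧ ∀ P : F[X], P.Monic → Irreducible P → P ∣ f → P ∈ T

lemma geom_le (x : ℝ) (h0 : 0 ≤ x) (h1 : x < 1) (n : ℕ) : ∑ j ∈ range n, x ^ j ≤ (1 - x)⁻¹ := by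
  rw [← tsum_geometric_of_lt_one h0 h1]
  exact (summable_geometric_of_lt_one h0 h1).sum_le_tsum _ (fun i _ => pow_nonneg h0 i)

/-- splitting off the `P`-part of a monic polynomial -/
lemma split_off {P f : F[X]} (hP : P.Monic) (hP' : Irreducible P) (hf : f.Monic) :
    ∃ (k : ℕ) (g : F[X]), f = P ^ k * g ∧ ¬ P ∣ g ∧ g.Monic := by
  have h := FiniteMultiplicity.of_not_isUnit hP'.not_isUnit hf.ne_zero
  obtain ⟨g, hg1, hg2⟩ := h.exists_eq_pow_mul_and_not_dvd
  refine ⟨_, g, hg1, hg2, ?_⟩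
  rw [hg1] at hf
  exact (hP.pow _).of_mul_monic_left hf

theorem euler_le (r : ℝ) (hr0 : 0 ≤ r) (hr1 : r < 1) (T : Finset F[X])
    (hT : ∀ P ∈ T, P.Monic ∧ Irreducible P) : ∀ 𝓕 : Finset F[X], (∀ f ∈ 𝓕, Fac T f) →
    ∑ f ∈ 𝓕, r ^ f.natDegree ≤ ∏ P ∈ T, (1 - r ^ P.natDegree)⁻¹ := by
  induction T using Finset.induction_on with
  | empty =>
    intro 𝓕 h𝓕
    have hsub : 𝓕 ⊆ {1} := by
      intro f hf
      rw [Finset.mem_singleton]
      by_contra hne
      have h1 := h𝓕 f hf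
      have h2 : ¬ IsUnit f := fun hu => hne (h1.1.isUnit_iff.mp hu)
      obtain ⟨P, hP1, hP2, hP3⟩ := exists_monic_irreducible_factor f h2
      exact absurd (h1.2 P hP1 hP2 hP3) (Finset.notMem_empty _)
    calc ∑ f ∈ 𝓕, r ^ f.natDegree ≤ ∑ f ∈ ({1} : Finset F[X]), r ^ f.natDegree :=
          Finset.sum_le_sum_of_subset_of_nonneg hsub (fun f _ _ => pow_nonneg hr0 _)
      _ = 1 := by simp
      _ ≤ _ := by simp
  | insert P T hPT ih =>
    intro 𝓕 h𝓕
    have hP := hT P (Finset.mem_insert_self _ _)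
    have ih' := ih (fun Q hQ => hT Q (Finset.mem_insert_of_mem hQ))
    have hdeg : 0 < P.natDegree := hP.2.natDegree_pos
    have hsp : ∀ f : F[X], ∃ t : ℕ × F[X], f ∈ 𝓕 → f = P ^ t.1 * t.2 ∧ ¬ P ∣ t.2 ∧ t.2.Monic := by
      intro f
      by_cases hf : f ∈ 𝓕
      · obtain ⟨k, g, h⟩ := split_off hP.1 hP.2 (h𝓕 f hf).1
        exact ⟨(k, g), fun _ => h⟩
      · exact ⟨(0, 0), fun h => absurd h hf⟩
    choose φ hφ using hsp
    set x : ℝ := r ^ P.natDegree with hx
    have hx0 : 0 ≤ x := pow_nonneg hr0 _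
    have hx1 : x < 1 := pow_lt_one₀ hr0 hr1 hdeg.ne'
    set G : Finset F[X] := 𝓕.image (fun f => (φ f).2) with hG
    set B : ℕ := (𝓕.image (fun f => (φ f).1)).sup id + 1 with hB
    have hGF : ∀ g ∈ G, Fac T g := by
      intro g hg
      obtain ⟨f, hf, rfl⟩ := Finset.mem_image.mp hg
      obtain ⟨h1, h2, h3⟩ := hφ f hf
      refine ⟨h3, fun Q hQ1 hQ2 hQ3 => ?_⟩
      have h4 := (h𝓕 f hf).2 Q hQ1 hQ2 (by rw [h1]; exact Dvd.dvd.mul_left hQ3 _)
      rcases Finset.mem_insert.mp h4 with rfl | h5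
      · exact absurd hQ3 h2
      · exact h5
    have hterm : ∀ f ∈ 𝓕, r ^ f.natDegree = x ^ (φ f).1 * r ^ (φ f).2.natDegree := by
      intro f hf
      obtain ⟨h1, h2, h3⟩ := hφ f hf
      have : f.natDegree = P.natDegree * (φ f).1 + (φ f).2.natDegree := by
        conv_lhs => rw [h1]
        rw [(hP.1.pow _).natDegree_mul h3, hP.1.natDegree_pow]
        ring
      rw [this, pow_add, pow_mul]
    have hinj : ∀ f ∈ 𝓕, ∀ f' ∈ 𝓕, φ f = φ f' → f = f' := by
      intro f hf f' hf' h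
      rw [(hφ f hf).1, (hφ f' hf').1, h]
    calc ∑ f ∈ 𝓕, r ^ f.natDegree = ∑ f ∈ 𝓕, x ^ (φ f).1 * r ^ (φ f).2.natDegree :=
          Finset.sum_congr rfl hterm
      _ = ∑ t ∈ 𝓕.image φ, x ^ t.1 * r ^ t.2.natDegree := by
          rw [Finset.sum_image (fun f hf f' hf' h => hinj f hf f' hf' h)]
      _ ≤ ∑ t ∈ range B ×ˢ G, x ^ t.1 * r ^ t.2.natDegree := by
          apply Finset.sum_le_sum_of_subset_of_nonneg
          · intro t ht
            obtain ⟨f, hf, rfl⟩ := Finset.mem_image.mp ht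
            rw [Finset.mem_product, Finset.mem_range]
            refine ⟨?_, Finset.mem_image_of_mem _ hf⟩
            have : (φ f).1 ≤ (𝓕.image (fun f => (φ f).1)).sup id :=
              Finset.le_sup (f := id) (Finset.mem_image_of_mem (fun f => (φ f).1) hf)
            omega
          · intro t _ _
            exact mul_nonneg (pow_nonneg hx0 _) (pow_nonneg hr0 _)
      _ = (∑ j ∈ range B, x ^ j) * ∑ g ∈ G, r ^ g.natDegree := by
          rw [Finset.sum_product, Finset.sum_mul]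
          refine Finset.sum_congr rfl (fun j _ => ?_)
          rw [Finset.mul_sum]
      _ ≤ (1 - x)⁻¹ * ∏ Q ∈ T, (1 - r ^ Q.natDegree)⁻¹ := by
          apply mul_le_mul (geom_le x hx0 hx1 B) (ih' G hGF)
            (Finset.sum_nonneg (fun g _ => pow_nonneg hr0 _))
          exact inv_nonneg.mpr (by linarith)
      _ = ∏ Q ∈ insert P T, (1 - r ^ Q.natDegree)⁻¹ := by
          rw [Finset.prod_insert hPT]

/-- the cardinality of the field, as a real number -/
lemma two_le_card : (2 : ℝ) ≤ (Fintype.card F : ℝ) := by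
  exact_mod_cast (Fintype.one_lt_card (α := F))

variable (F) in
/-- lower Mertens bound -/
theorem mertens_lower (d : ℕ) :
    (d : ℝ) + 1 ≤ ∏ P ∈ IrLE F d, (1 - ((Fintype.card F : ℝ)⁻¹) ^ P.natDegree)⁻¹ := by
  have hq := two_le_card (F := F)
  have h1 : ((Fintype.card F : ℝ)⁻¹) < 1 := inv_lt_one_of_one_lt₀ (by linarith)
  have h := euler_le ((Fintype.card F : ℝ)⁻¹) (by positivity) h1 (IrLE F d)
    (fun P hP => ⟨(mem_IrLE.mp hP).1, (mem_IrLE.mp hP).2.1⟩) (MoLE F d) (by
      intro f hf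
      have hf := mem_MoLE.mp hf
      refine ⟨hf.1, fun P hP1 hP2 hP3 => mem_IrLE.mpr ⟨hP1, hP2, ?_⟩⟩
      exact (natDegree_le_of_dvd hP3 hf.1.ne_zero).trans hf.2)
  rw [sum_MoLE d (fun e => ((Fintype.card F : ℝ)⁻¹) ^ e)] at h
  refine le_trans (le_of_eq ?_) h
  have : ∀ e ∈ range (d + 1), (Fintype.card F : ℝ) ^ e * ((Fintype.card F : ℝ)⁻¹) ^ e = 1 := by
    intro e _
    rw [← mul_pow, mul_inv_cancel₀ (by linarith), one_pow]
  rw [Finset.sum_congr rfl this]
  simp

/-- one factor of the Euler product -/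
lemma fac_le_exp (x : ℝ) (h1 : x < 1) : (1 - x)⁻¹ ≤ Real.exp (x / (1 - x)) := by
  have h2 : 0 < 1 - x := by linarith
  have : (1 - x)⁻¹ = x / (1 - x) + 1 := by field_simp; ring
  rw [this]
  exact Real.add_one_le_exp _

lemma harm_le (d : ℕ) : ∑ e ∈ Finset.Icc 1 d, (1 : ℝ) / e ≤ 1 + Real.log d := by
  have h := harmonic_le_one_add_log d
  rw [harmonic_eq_sum_Icc] at h
  push_cast at h
  simpa [one_div] using h

lemma sum_half (d : ℕ) : ∑ e ∈ Finset.Icc 1 d, (1 / 2 : ℝ) ^ (e - 1) ≤ 2 := by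
  have h1 : ∑ e ∈ Finset.Icc 1 d, (1 / 2 : ℝ) ^ (e - 1) = ∑ j ∈ range d, (1 / 2 : ℝ) ^ j := by
    rw [Finset.range_eq_Ico]
    have : Finset.Icc 1 d = Finset.Ico (0 + 1) (d + 1) := by ext; simp
    rw [this, ← Finset.sum_Ico_add' (fun e => (1 / 2 : ℝ) ^ (e - 1))]
    simp
  rw [h1]
  have := geom_le (1 / 2) (by norm_num) (by norm_num) d
  norm_num at this ⊢
  exact this

variable (F) in
/-- upper Mertens bound -/
theorem mertens_upper (d : ℕ) (hd : 1 ≤ d) :
    ∏ P ∈ IrLE F d, (1 - ((Fintype.card F : ℝ)⁻¹) ^ P.natDegree)⁻¹ ≤ Real.exp 3 * d := by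
  have hq := two_le_card (F := F)
  set q : ℝ := (Fintype.card F : ℝ) with hqd
  have hd0 : (0:ℝ) < d := by exact_mod_cast hd
  calc ∏ P ∈ IrLE F d, (1 - (q⁻¹) ^ P.natDegree)⁻¹
      ≤ ∏ P ∈ IrLE F d, Real.exp (1 / (q ^ P.natDegree - 1)) := by
        apply Finset.prod_le_prod
        · intro P hP
          have hP := mem_IrLE.mp hP
          have : (q⁻¹) ^ P.natDegree < 1 :=
            pow_lt_one₀ (by positivity) (inv_lt_one_of_one_lt₀ (by linarith)) hP.2.1.natDegree_pos.ne'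
          exact inv_nonneg.mpr (by linarith)
        · intro P hP
          have hP := mem_IrLE.mp hP
          have h1 : (q⁻¹) ^ P.natDegree < 1 :=
            pow_lt_one₀ (by positivity) (inv_lt_one_of_one_lt₀ (by linarith)) hP.2.1.natDegree_pos.ne'
          have h2 := fac_le_exp _ h1
          have h3 : (q⁻¹) ^ P.natDegree / (1 - (q⁻¹) ^ P.natDegree) = 1 / (q ^ P.natDegree - 1) := by
            rw [inv_pow]
            have h4 : 1 < q ^ P.natDegree := one_lt_pow₀ (by linarith) hP.2.1.natDegree_pos.ne'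
            have h5 : q ^ P.natDegree - 1 ≠ 0 := by linarith
            have h6 : q ^ P.natDegree ≠ 0 := by positivity
            field_simp
          rw [h3] at h2
          exact h2
    _ = Real.exp (∑ P ∈ IrLE F d, 1 / (q ^ P.natDegree - 1)) := (Real.exp_sum _ _).symm
    _ ≤ Real.exp (3 + Real.log d) := by
        apply Real.exp_le_exp.mpr
        unfold IrLE
        rw [sum_IrLE (Finset.Icc 1 d) (fun e => 1 / (q ^ e - 1))]
        have hterm : ∀ e ∈ Finset.Icc 1 d, ((Ir F e).card : ℝ) * (1 / (q ^ e - 1)) ≤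
            1 / e + (1 / 2) ^ (e - 1) := by
          intro e he
          rw [Finset.mem_Icc] at he
          have he0 : (1:ℝ) ≤ e := by exact_mod_cast he.1
          have h1 := Ir_card_real (F := F) e he.1
          have hqe : (2:ℝ) ^ e ≤ q ^ e := pow_le_pow_left₀ (by norm_num) hq e
          have h2e : (2:ℝ) ^ e = 2 * 2 ^ (e - 1) := by
            rw [← pow_succ']; congr 1; omega
          have h2p : (1:ℝ) ≤ 2 ^ (e - 1) := one_le_pow₀ (by norm_num)
          have hqe1 : (2:ℝ) ^ (e - 1) ≤ q ^ e - 1 := by linarith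
          have hpos : 0 < q ^ e - 1 := by linarith
          calc ((Ir F e).card : ℝ) * (1 / (q ^ e - 1)) ≤ (q ^ e / e) * (1 / (q ^ e - 1)) :=
                mul_le_mul_of_nonneg_right h1 (by positivity)
            _ = 1 / e + 1 / e * (1 / (q ^ e - 1)) := by field_simp; ring
            _ ≤ 1 / e + 1 * (1 / 2 ^ (e - 1)) := by
                have a1 : (1:ℝ) / e ≤ 1 := by rw [div_le_one (by linarith)]; exact he0
                have a2 : 1 / (q ^ e - 1) ≤ 1 / 2 ^ (e - 1) :=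
                  one_div_le_one_div_of_le (by positivity) hqe1
                have := mul_le_mul a1 a2 (by positivity) (by norm_num)
                linarith
            _ = 1 / e + (1 / 2) ^ (e - 1) := by rw [one_mul, one_div_pow]
        calc ∑ e ∈ Finset.Icc 1 d, ((Ir F e).card : ℝ) * (1 / (q ^ e - 1))
            ≤ ∑ e ∈ Finset.Icc 1 d, ((1:ℝ) / e + (1 / 2) ^ (e - 1)) := Finset.sum_le_sum hterm
          _ = ∑ e ∈ Finset.Icc 1 d, (1:ℝ) / e + ∑ e ∈ Finset.Icc 1 d, (1 / 2 : ℝ) ^ (e - 1) :=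
              Finset.sum_add_distrib
          _ ≤ (1 + Real.log d) + 2 := add_le_add (harm_le d) (sum_half d)
          _ = 3 + Real.log d := by ring
    _ = Real.exp 3 * d := by rw [Real.exp_add, Real.exp_log hd0]

/-- the sum of the inverse norms over a set of degrees -/
theorem sum_inv_le (s : Finset ℕ) (hs : ∀ e ∈ s, 0 < e) :
    ∑ P ∈ s.biUnion (Ir F), ((Fintype.card F : ℝ)⁻¹) ^ P.natDegree ≤ ∑ e ∈ s, (1 : ℝ) / e := by
  have hq := two_le_card (F := F)
  rw [sum_IrLE s (fun e => ((Fintype.card F : ℝ)⁻¹) ^ e)]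
  apply Finset.sum_le_sum
  intro e he
  have h1 := Ir_card_real (F := F) e (hs e he)
  calc ((Ir F e).card : ℝ) * ((Fintype.card F : ℝ)⁻¹) ^ e ≤
      ((Fintype.card F : ℝ) ^ e / e) * ((Fintype.card F : ℝ)⁻¹) ^ e :=
        mul_le_mul_of_nonneg_right h1 (by positivity)
    _ = 1 / e := by
        rw [inv_pow]
        have : (Fintype.card F : ℝ) ^ e ≠ 0 := by positivity
        field_simp

end Pool.Agent.H523.FF
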