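import Pool.Agent.H523.FF2

set_option autoImplicit false
set_option linter.unusedSectionVars false

/-! # Rough squarefree polynomials -/

namespace Pool.Agent.H523.FF

open Polynomial Finset

open scoped Classical

variable {F : Type} [Field F] [Fintype F]

/-- a monic irreducible divisor of a product -/
lemma irr_dvd_mul {P Q a : F[X]} (hP : P.Monic) (hP' : Irreducible P) (hQ : Q.Monic)
    (hQ' : Irreducible Q) (h : Q ∣ P * a) : Q = P ∨ Q ∣ a := by
  rcases hQ'.prime.dvd_or_dvd h with h1 | h1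
  · left
    exact eq_of_monic_of_associated hQ hP ((hQ'.dvd_irreducible_iff_associated hP').mp h1)
  · exact Or.inr h1

/-- the decomposition `f = a l² ∏ s` -/
theorem decomp (T : Finset F[X]) : ∀ (n : ℕ) (f : F[X]), f.natDegree = n → f.Monic →
    ∃ (a l : F[X]) (s : Finset F[X]), Fac T a ∧ l.Monic ∧
      (∀ P ∈ s, P.Monic ∧ Irreducible P ∧ P ∉ T) ∧ f = a * l ^ 2 * ∏ P ∈ s, P := by
  intro n
  induction n using Nat.strong_induction_on with
  | _ n ih =>
    intro f hfn hf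
    by_cases h1 : f = 1
    · refine ⟨1, 1, ∅, ⟨monic_one, ?_⟩, monic_one, by simp, by simp [h1]⟩
      intro P hP hP' hd
      exact absurd (isUnit_of_dvd_one hd) hP'.not_isUnit
    · have h2 : ¬ IsUnit f := fun hu => h1 (hf.isUnit_iff.mp hu)
      obtain ⟨P, hP1, hP2, g, hg⟩ := exists_monic_irreducible_factor f h2
      have hgm : g.Monic := by rw [hg] at hf; exact hP1.of_mul_monic_left hf
      have hdeg : f.natDegree = P.natDegree + g.natDegree := by rw [hg, hP1.natDegree_mul hgm]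
      have hPd := hP2.natDegree_pos
      obtain ⟨a, l, s, ha, hl, hs, hfac⟩ := ih g.natDegree (by omega) g rfl hgm
      by_cases hPT : P ∈ T
      · refine ⟨P * a, l, s, ⟨hP1.mul ha.1, ?_⟩, hl, hs, by rw [hg, hfac]; ring⟩
        intro Q hQ1 hQ2 hQ3
        rcases irr_dvd_mul hP1 hP2 hQ1 hQ2 hQ3 with rfl | h3
        · exact hPT
        · exact ha.2 Q hQ1 hQ2 h3
      · by_cases hPs : P ∈ s
        · refine ⟨a, P * l, s.erase P, ha, hP1.mul hl, ?_, ?_⟩
          · intro Q hQ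
            exact hs Q (Finset.mem_of_mem_erase hQ)
          · rw [hg, hfac, ← Finset.mul_prod_erase s _ hPs]
            ring
        · refine ⟨a, l, insert P s, ha, hl, ?_, ?_⟩
          · intro Q hQ
            rcases Finset.mem_insert.mp hQ with rfl | hQ
            · exact ⟨hP1, hP2, hPT⟩
            · exact hs Q hQ
          · rw [hg, hfac, Finset.prod_insert hPs]
            ring

/-- the sum of `1/|l|²` over monic `l` -/
lemma sum_sq (e : ℕ) : ∑ l ∈ MoLE F e, (((Fintype.card F : ℝ)⁻¹) ^ l.natDegree) ^ 2 ≤ 2 := by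
  have hq := two_le_card (F := F)
  set q : ℝ := (Fintype.card F : ℝ) with hqd
  rw [sum_MoLE e (fun j => ((q⁻¹) ^ j) ^ 2)]
  calc ∑ j ∈ range (e + 1), q ^ j * ((q⁻¹) ^ j) ^ 2 = ∑ j ∈ range (e + 1), (q⁻¹) ^ j := by
        refine Finset.sum_congr rfl (fun j _ => ?_)
        rw [inv_pow]
        have : q ^ j ≠ 0 := by positivity
        field_simp
    _ ≤ (1 - q⁻¹)⁻¹ := geom_le _ (by positivity) (inv_lt_one_of_one_lt₀ (by linarith)) _
    _ ≤ 2 := by
        have h1 : q⁻¹ ≤ 1 / 2 := by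
          rw [inv_eq_one_div]
          exact one_div_le_one_div_of_le (by norm_num) hq
        have h2 : (1:ℝ) / 2 ≤ 1 - q⁻¹ := by linarith
        calc (1 - q⁻¹)⁻¹ ≤ (1 / 2 : ℝ)⁻¹ := inv_anti₀ (by norm_num) h2
          _ = 2 := by norm_num

/-- the combinatorial inequality -/
theorem main_ineq (D₁ D₂ e : ℕ) (x : ℝ) (he : (Fintype.card F : ℝ) ^ e ≤ x) (heD : e ≤ D₂) :
    (e : ℝ) + 1 ≤
      (∏ P ∈ IrLE F D₁, (1 - ((Fintype.card F : ℝ)⁻¹) ^ P.natDegree)⁻¹) * 2 *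
      (1 + ∑ s ∈ (((Finset.Ioc D₁ D₂).biUnion (Ir F)).powerset.filter
        (fun s : Finset F[X] => s.Nonempty ∧ ∏ p ∈ s, (Fintype.card F : ℝ) ^ p.natDegree ≤ x)),
          ∏ p ∈ s, 1 / (Fintype.card F : ℝ) ^ p.natDegree) := by
  have hq := two_le_card (F := F)
  set q : ℝ := (Fintype.card F : ℝ) with hqd
  have hq0 : 0 < q := by linarith
  have hqi : q⁻¹ < 1 := inv_lt_one_of_one_lt₀ (by linarith)
  have hqi0 : 0 < q⁻¹ := inv_pos.mpr hq0
  set T := IrLE F D₁ with hT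
  have hdec : ∀ f : F[X], ∃ t : F[X] × F[X] × Finset F[X], f.Monic → (Fac T t.1 ∧ t.2.1.Monic ∧
      (∀ P ∈ t.2.2, P.Monic ∧ Irreducible P ∧ P ∉ T) ∧ f = t.1 * t.2.1 ^ 2 * ∏ P ∈ t.2.2, P) := by
    intro f
    by_cases hf : f.Monic
    · obtain ⟨a, l, s, h⟩ := decomp T f.natDegree f rfl hf
      exact ⟨(a, l, s), fun _ => h⟩
    · exact ⟨(0, 0, ∅), fun h => absurd h hf⟩
  choose φ hφ using hdec
  set A : Finset F[X] := (MoLE F e).filter (fun a => Fac T a) with hA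
  set W : Finset (Finset F[X]) := (((Finset.Ioc D₁ D₂).biUnion (Ir F)).powerset.filter
        (fun s : Finset F[X] => ∏ p ∈ s, q ^ p.natDegree ≤ x)) with hW
  set G : F[X] × F[X] × Finset F[X] → ℝ := fun t => (q⁻¹) ^ t.1.natDegree *
    ((((q⁻¹) ^ t.2.1.natDegree) ^ 2) * ∏ p ∈ t.2.2, 1 / q ^ p.natDegree) with hG
  have hsprod : ∀ s : Finset F[X], (∀ P ∈ s, P.Monic) → (∏ P ∈ s, P).natDegree =
      ∑ P ∈ s, P.natDegree := fun s hs => natDegree_prod_of_monic _ _ hs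
  have hdeg : ∀ f ∈ MoLE F e, f.natDegree = (φ f).1.natDegree + 2 * (φ f).2.1.natDegree +
      ∑ P ∈ (φ f).2.2, P.natDegree := by
    intro f hf
    obtain ⟨g1, g2, g3, g4⟩ := hφ f (mem_MoLE.mp hf).1
    conv_lhs => rw [g4]
    have hs : (∏ P ∈ (φ f).2.2, P).Monic := monic_prod_of_monic _ _ (fun P hP => (g3 P hP).1)
    rw [(g1.1.mul (g2.pow 2)).natDegree_mul hs, g1.1.natDegree_mul (g2.pow 2), g2.natDegree_pow,
      hsprod _ (fun P hP => (g3 P hP).1)]
  have hprodq : ∀ s : Finset F[X], ∏ p ∈ s, q ^ p.natDegree = q ^ (∑ P ∈ s, P.natDegree) :=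
    fun s => Finset.prod_pow_eq_pow_sum s _ q
  have h1 : ∑ f ∈ MoLE F e, (q⁻¹) ^ f.natDegree = ∑ f ∈ MoLE F e, G (φ f) := by
    refine Finset.sum_congr rfl fun f hf => ?_
    rw [hdeg f hf, hG]
    simp only
    have : ∏ p ∈ (φ f).2.2, 1 / q ^ p.natDegree = (q⁻¹) ^ (∑ P ∈ (φ f).2.2, P.natDegree) := by
      rw [← Finset.prod_pow_eq_pow_sum]
      exact Finset.prod_congr rfl (fun p _ => by rw [inv_pow, one_div])
    rw [this, pow_add, pow_add, ← pow_mul, mul_assoc, mul_comm 2]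
  have hinj : ∀ f ∈ MoLE F e, ∀ f' ∈ MoLE F e, φ f = φ f' → f = f' := by
    intro f hf f' hf' h
    rw [(hφ f (mem_MoLE.mp hf).1).2.2.2, (hφ f' (mem_MoLE.mp hf').1).2.2.2, h]
  have h2 : ∑ f ∈ MoLE F e, G (φ f) = ∑ t ∈ (MoLE F e).image φ, G t :=
    (Finset.sum_image (fun f hf f' hf' h => hinj f hf f' hf' h)).symm
  have hsub : (MoLE F e).image φ ⊆ A ×ˢ (MoLE F e ×ˢ W) := by
    intro t ht
    obtain ⟨f, hf, rfl⟩ := Finset.mem_image.mp ht
    have hfm := mem_MoLE.mp hf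
    obtain ⟨g1, g2, g3, g4⟩ := hφ f hfm.1
    have hd := hdeg f hf
    rw [Finset.mem_product, Finset.mem_product, hA, Finset.mem_filter, mem_MoLE, mem_MoLE, hW,
      Finset.mem_filter, Finset.mem_powerset]
    refine ⟨⟨⟨g1.1, by omega⟩, g1⟩, ⟨g2, by omega⟩, ?_, ?_⟩
    · intro P hP
      obtain ⟨k1, k2, k3⟩ := g3 P hP
      rw [Finset.mem_biUnion]
      have hPle : P.natDegree ≤ ∑ P ∈ (φ f).2.2, P.natDegree :=
        Finset.single_le_sum (f := fun P : F[X] => P.natDegree) (fun _ _ => Nat.zero_le _) hP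
      refine ⟨P.natDegree, Finset.mem_Ioc.mpr ⟨?_, by omega⟩, mem_Ir.mpr ⟨k1, k2, rfl⟩⟩
      by_contra hc
      push Not at hc
      exact k3 (mem_IrLE.mpr ⟨k1, k2, hc⟩)
    · rw [hprodq]
      refine le_trans ?_ he
      exact pow_le_pow_right₀ (by linarith) (by omega)
  have h3 : ∑ t ∈ (MoLE F e).image φ, G t ≤ ∑ t ∈ A ×ˢ (MoLE F e ×ˢ W), G t := by
    refine Finset.sum_le_sum_of_subset_of_nonneg hsub fun t _ _ => ?_
    rw [hG]; positivity
  have h4 : ∑ t ∈ A ×ˢ (MoLE F e ×ˢ W), G t =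
      (∑ a ∈ A, (q⁻¹) ^ a.natDegree) * ((∑ l ∈ MoLE F e, (((q⁻¹) ^ l.natDegree) ^ 2)) *
        ∑ s ∈ W, ∏ p ∈ s, 1 / q ^ p.natDegree) := by
    rw [Finset.sum_product, Finset.sum_mul]
    refine Finset.sum_congr rfl fun a _ => ?_
    rw [Finset.sum_product, Finset.sum_mul, Finset.mul_sum]
    refine Finset.sum_congr rfl fun l _ => ?_
    rw [Finset.mul_sum, Finset.mul_sum]
  have hx1 : 1 ≤ x := le_trans (one_le_pow₀ (by linarith)) he
  have h5 : ∑ s ∈ W, ∏ p ∈ s, 1 / q ^ p.natDegree = 1 +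
      ∑ s ∈ (((Finset.Ioc D₁ D₂).biUnion (Ir F)).powerset.filter
        (fun s : Finset F[X] => s.Nonempty ∧ ∏ p ∈ s, q ^ p.natDegree ≤ x)),
          ∏ p ∈ s, 1 / q ^ p.natDegree := by
    have he : W = insert ∅ (((Finset.Ioc D₁ D₂).biUnion (Ir F)).powerset.filter
        (fun s : Finset F[X] => s.Nonempty ∧ ∏ p ∈ s, q ^ p.natDegree ≤ x)) := by
      ext s
      rw [hW, Finset.mem_insert, Finset.mem_filter, Finset.mem_filter, Finset.mem_powerset]
      constructor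
      · rintro ⟨a1, a2⟩
        rcases Finset.eq_empty_or_nonempty s with h | h
        · exact Or.inl h
        · exact Or.inr ⟨a1, h, a2⟩
      · rintro (rfl | ⟨a1, _, a2⟩)
        · simpa using hx1
        · exact ⟨a1, a2⟩
    rw [he, Finset.sum_insert (by simp)]
    simp
  have h6 : 0 ≤ ∑ s ∈ W, ∏ p ∈ s, 1 / q ^ p.natDegree := Finset.sum_nonneg fun s _ => by positivity
  have h7 : ∑ a ∈ A, (q⁻¹) ^ a.natDegree ≤ ∏ P ∈ T, (1 - (q⁻¹) ^ P.natDegree)⁻¹ :=
    euler_le (q⁻¹) hqi0.le hqi T (fun P hP => ⟨(mem_IrLE.mp hP).1, (mem_IrLE.mp hP).2.1⟩) A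
      (fun a ha => (Finset.mem_filter.1 ha).2)
  have h8 : 0 ≤ ∑ a ∈ A, (q⁻¹) ^ a.natDegree := Finset.sum_nonneg fun s _ => by positivity
  have h0 : ∑ f ∈ MoLE F e, (q⁻¹) ^ f.natDegree = (e:ℝ) + 1 := by
    rw [sum_MoLE e (fun j => (q⁻¹) ^ j)]
    have : ∀ j ∈ range (e + 1), q ^ j * (q⁻¹) ^ j = 1 := by
      intro j _
      rw [← mul_pow, mul_inv_cancel₀ hq0.ne', one_pow]
    rw [Finset.sum_congr rfl this]
    simp
  rw [← h0, h1, h2]
  refine h3.trans ?_
  rw [h4, h5, mul_assoc]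
  rw [h5] at h6
  refine mul_le_mul h7 (mul_le_mul_of_nonneg_right (sum_sq e) h6) ?_ (h8.trans h7)
  exact mul_nonneg (Finset.sum_nonneg fun s _ => by positivity) h6

/-- lower bound for the sums over rough squarefree polynomials -/
theorem A_lower (D₁ D₂ : ℕ) (hD₁ : 1 ≤ D₁) (x y : ℝ) (hy : (Fintype.card F : ℝ) ^ D₁ ≤ y)
    (hyx : y ≤ x) (hx : x < (Fintype.card F : ℝ) ^ (D₂ + 1)) :
    (1 / (Real.exp 3 * 2)) * Real.log x / Real.log y - 1 ≤
      ∑ s ∈ (((Finset.Ioc D₁ D₂).biUnion (Ir F)).powerset.filter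
        (fun s : Finset F[X] => s.Nonempty ∧ ∏ p ∈ s, (Fintype.card F : ℝ) ^ p.natDegree ≤ x)),
          ∏ p ∈ s, 1 / (Fintype.card F : ℝ) ^ p.natDegree := by
  have hq := two_le_card (F := F)
  set q : ℝ := (Fintype.card F : ℝ) with hqd
  have hlq : 0 < Real.log q := Real.log_pos (by linarith)
  have hy1 : 1 < y := lt_of_lt_of_le (one_lt_pow₀ (by linarith) (by omega)) hy
  have hly : 0 < Real.log y := Real.log_pos hy1
  have hlx : 0 < Real.log x := Real.log_pos (by linarith)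
  set e : ℕ := ⌊Real.log x / Real.log q⌋₊ with he
  have he1 : (e:ℝ) ≤ Real.log x / Real.log q := Nat.floor_le (by positivity)
  have he2 : Real.log x / Real.log q ≤ (e:ℝ) + 1 := (Nat.lt_floor_add_one _).le
  have hqe : q ^ e ≤ x := by
    rw [← Real.log_le_log_iff (by positivity) (by linarith), Real.log_pow]
    rwa [le_div_iff₀ hlq] at he1
  have heD : e ≤ D₂ := by
    have h1 : q ^ e < q ^ (D₂ + 1) := lt_of_le_of_lt hqe hx
    have := (pow_lt_pow_iff_right₀ (show (1:ℝ) < q by linarith)).mp h1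
    omega
  have hm := main_ineq D₁ D₂ e x hqe heD
  rw [← hqd] at hm
  have hu := mertens_upper F D₁ hD₁
  rw [← hqd] at hu
  set R := ∑ s ∈ (((Finset.Ioc D₁ D₂).biUnion (Ir F)).powerset.filter
        (fun s : Finset F[X] => s.Nonempty ∧ ∏ p ∈ s, q ^ p.natDegree ≤ x)),
          ∏ p ∈ s, 1 / q ^ p.natDegree with hR
  have hR0 : 0 ≤ R := Finset.sum_nonneg fun s _ => by positivity
  have hD1 : (D₁:ℝ) ≤ Real.log y / Real.log q := by
    rw [le_div_iff₀ hlq, ← Real.log_pow]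
    exact Real.log_le_log (by positivity) hy
  have h1 : Real.log x / Real.log q ≤ (Real.exp 3 * (Real.log y / Real.log q)) * 2 * (1 + R) := by
    refine he2.trans (hm.trans ?_)
    refine mul_le_mul_of_nonneg_right (mul_le_mul_of_nonneg_right (hu.trans ?_) (by norm_num))
      (by linarith)
    exact mul_le_mul_of_nonneg_left hD1 (Real.exp_pos _).le
  have h2 : Real.log x ≤ Real.exp 3 * 2 * Real.log y * (1 + R) := by
    rw [div_le_iff₀ hlq] at h1
    refine h1.trans (le_of_eq ?_)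
    field_simp
  have h3 : 1 / (Real.exp 3 * 2) * Real.log x / Real.log y ≤ 1 + R := by
    rw [div_le_iff₀ hly, one_div, ← div_eq_inv_mul, div_le_iff₀ (by positivity)]
    linarith
  linarith

end Pool.Agent.H523.FF
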