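import Pool.Agent.H523.FF3

set_option autoImplicit false
set_option linter.unusedSectionVars false

/-! # Sieving a box of polynomials by small primes -/

namespace Pool.Agent.H523.FF

open Polynomial Finset

open scoped Classical

variable {F : Type} [Field F] [Fintype F]

/-- greedy choice of residue classes -/
theorem greedy (S : Finset F[X]) (T : Finset F[X]) (hT : ∀ P ∈ T, P.Monic) :
    ∃ b : F[X] → F[X], ((S.filter (fun h => ∀ P ∈ T, ¬ P ∣ h - b P)).card : ℝ) ≤
      S.card * ∏ P ∈ T, (1 - ((Fintype.card F : ℝ)⁻¹) ^ P.natDegree) := by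
  have hq := two_le_card (F := F)
  have hq0 : (0:ℝ) < (Fintype.card F : ℝ) := by linarith
  induction T using Finset.induction_on with
  | empty =>
    refine ⟨fun _ => 0, ?_⟩
    simp
  | insert P T hPT ih =>
    obtain ⟨b, hb⟩ := ih (fun Q hQ => hT Q (Finset.mem_insert_of_mem hQ))
    have hP := hT P (Finset.mem_insert_self _ _)
    set S' := S.filter (fun h => ∀ Q ∈ T, ¬ Q ∣ h - b Q) with hS'
    set w : ℝ := ((Fintype.card F : ℝ)⁻¹) ^ P.natDegree with hw
    have hw1 : w ≤ 1 := pow_le_one₀ (by positivity) (inv_le_one_of_one_le₀ (by linarith))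
    have hmaps : ∀ h ∈ S', h %ₘ P ∈ PL F P.natDegree := by
      intro h _
      rw [mem_PL, ← degree_eq_natDegree hP.ne_zero]
      exact degree_modByMonic_lt h hP
    have hne : (PL F P.natDegree).Nonempty := by
      rw [← Finset.card_pos, card_PL]
      exact pow_pos Fintype.card_pos _
    have hcard : ((PL F P.natDegree).card) • ((S'.card : ℝ) * w) ≤ (S'.card : ℝ) := by
      rw [card_PL, nsmul_eq_mul]
      push_cast
      have : (Fintype.card F : ℝ) ^ P.natDegree * w = 1 := by
        rw [hw, ← mul_pow, mul_inv_cancel₀ hq0.ne', one_pow]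
      calc (Fintype.card F : ℝ) ^ P.natDegree * ((S'.card : ℝ) * w) =
            (S'.card : ℝ) * ((Fintype.card F : ℝ) ^ P.natDegree * w) := by ring
        _ ≤ (S'.card : ℝ) := by rw [this, mul_one]
    obtain ⟨r, _, hr⟩ := Finset.exists_le_card_fiber_of_nsmul_le_card_of_maps_to hmaps hne hcard
    refine ⟨Function.update b P r, ?_⟩
    have hsub : S.filter (fun h => ∀ Q ∈ insert P T, ¬ Q ∣ h - Function.update b P r Q) ⊆
        S' \ (S'.filter (fun h => h %ₘ P = r)) := by
      intro h hh
      rw [Finset.mem_filter] at hh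
      obtain ⟨h1, h2⟩ := hh
      rw [Finset.mem_sdiff, Finset.mem_filter, hS', Finset.mem_filter]
      have hmem : h ∈ S ∧ ∀ Q ∈ T, ¬ Q ∣ h - b Q := by
        refine ⟨h1, fun Q hQ => ?_⟩
        have := h2 Q (Finset.mem_insert_of_mem hQ)
        rwa [Function.update_of_ne (by rintro rfl; exact hPT hQ)] at this
      refine ⟨hmem, fun hc => ?_⟩
      have h3 := h2 P (Finset.mem_insert_self _ _)
      rw [Function.update_self, ← hc.2] at h3
      apply h3
      have h4 := modByMonic_add_div h P
      exact ⟨h /ₘ P, by linear_combination -h4⟩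
    have hle : ((S.filter (fun h => ∀ Q ∈ insert P T, ¬ Q ∣ h - Function.update b P r Q)).card : ℝ) ≤
        (S'.card : ℝ) - ((S'.filter (fun h => h %ₘ P = r)).card : ℝ) := by
      have h1 := Finset.card_le_card hsub
      rw [Finset.card_sdiff_of_subset (Finset.filter_subset _ _)] at h1
      have h2 : (S'.filter (fun h => h %ₘ P = r)).card ≤ S'.card :=
        Finset.card_le_card (Finset.filter_subset _ _)
      rw [← Nat.cast_sub h2]
      exact_mod_cast h1
    rw [Finset.prod_insert hPT]
    calc ((S.filter (fun h => ∀ Q ∈ insert P T, ¬ Q ∣ h - Function.update b P r Q)).card : ℝ)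
        ≤ (S'.card : ℝ) - (S'.card : ℝ) * w := by linarith
      _ = (S'.card : ℝ) * (1 - w) := by ring
      _ ≤ (S.card * ∏ P ∈ T, (1 - ((Fintype.card F : ℝ)⁻¹) ^ P.natDegree)) * (1 - w) :=
          mul_le_mul_of_nonneg_right hb (by linarith)
      _ = _ := by ring

/-- elements of a box divisible by a polynomial of a given degree -/
lemma card_dvd (Q : F[X]) (hQ : Q.Monic) (m : ℕ) (hm : Q.natDegree ≤ m) :
    ((PL F m).filter (fun h => Q ∣ h)).card = Fintype.card F ^ (m - Q.natDegree) := by
  have := PL_mod Q hQ 0 m hm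
  simpa using this

/-- elements of a box divisible by a large prime -/
theorem large_count (D m : ℕ) (hD : 1 ≤ D) :
    ((((Finset.Ioo D m).biUnion (Ir F)).biUnion
      (fun Q => (PL F m).filter (fun h => Q ∣ h))).card : ℝ) ≤
      (Fintype.card F : ℝ) ^ m * ((m - D : ℕ) / D) := by
  have hq := two_le_card (F := F)
  set q : ℝ := (Fintype.card F : ℝ) with hqd
  have hq0 : 0 < q := by linarith
  have hD0 : (0:ℝ) < D := by exact_mod_cast hD
  calc ((((Finset.Ioo D m).biUnion (Ir F)).biUnion
      (fun Q => (PL F m).filter (fun h => Q ∣ h))).card : ℝ)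
      ≤ ∑ Q ∈ (Finset.Ioo D m).biUnion (Ir F), (((PL F m).filter (fun h => Q ∣ h)).card : ℝ) := by
        exact_mod_cast Finset.card_biUnion_le
    _ = ∑ Q ∈ (Finset.Ioo D m).biUnion (Ir F), q ^ m * (q⁻¹) ^ Q.natDegree := by
        refine Finset.sum_congr rfl (fun Q hQ => ?_)
        obtain ⟨d, hd, hQd⟩ := Finset.mem_biUnion.mp hQ
        have hQd := mem_Ir.mp hQd
        rw [Finset.mem_Ioo] at hd
        have hle : Q.natDegree ≤ m := by rw [hQd.2.2]; omega
        rw [card_dvd Q hQd.1 m hle]
        push_cast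
        rw [inv_pow, ← div_eq_mul_inv, eq_div_iff (by positivity), ← pow_add]
        congr 1
        omega
    _ = q ^ m * ∑ Q ∈ (Finset.Ioo D m).biUnion (Ir F), (q⁻¹) ^ Q.natDegree := by
        rw [Finset.mul_sum]
    _ ≤ q ^ m * ∑ e ∈ Finset.Ioo D m, (1:ℝ) / e := by
        apply mul_le_mul_of_nonneg_left _ (by positivity)
        exact sum_inv_le (Finset.Ioo D m) (fun e he => by rw [Finset.mem_Ioo] at he; omega)
    _ ≤ q ^ m * ∑ e ∈ Finset.Ioo D m, (1:ℝ) / D := by
        apply mul_le_mul_of_nonneg_left _ (by positivity)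
        apply Finset.sum_le_sum
        intro e he
        rw [Finset.mem_Ioo] at he
        exact one_div_le_one_div_of_le hD0 (by exact_mod_cast he.1.le)
    _ ≤ q ^ m * ((m - D : ℕ) / D) := by
        apply mul_le_mul_of_nonneg_left _ (by positivity)
        rw [Finset.sum_const, nsmul_eq_mul, Nat.card_Ioo, mul_one_div]
        apply div_le_div_of_nonneg_right _ hD0.le
        exact_mod_cast Nat.sub_le _ _

/-- smooth polynomials in a box, Rankin's trick -/
theorem smooth_count (D₀ m : ℕ) (hD₀ : 1 ≤ D₀) (s : ℝ) (hs : 1 ≤ s)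
    (hs2 : s ^ ((1:ℝ) / D₀) ≤ 4 / 3) :
    (((PL F m).filter (fun h => h ≠ 0 ∧ ∀ P : F[X], P.Monic → Irreducible P → P ∣ h →
      P.natDegree ≤ D₀)).card : ℝ) ≤
      (Fintype.card F : ℝ) ^ (m + 1) * Real.exp (3 * (1 + Real.log D₀ + s) -
        (m / D₀) * Real.log s) := by
  have hq := two_le_card (F := F)
  set q : ℝ := (Fintype.card F : ℝ) with hqd
  have hq0 : 0 < q := by linarith
  have hD00 : (0:ℝ) < D₀ := by exact_mod_cast hD₀
  have hs0 : 0 < s := by linarith
  set t : ℝ := s ^ ((1:ℝ) / D₀) with ht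
  have ht1 : 1 ≤ t := Real.one_le_rpow hs (by positivity)
  have ht0 : 0 < t := by linarith
  set r : ℝ := t / q with hr
  have hr0 : 0 < r := by positivity
  have hr23 : r ≤ 2 / 3 := by
    rw [hr, div_le_iff₀ hq0]; nlinarith
  have hr1 : r < 1 := by linarith
  -- the set of monic smooth polynomials
  set G : Finset F[X] := (MoLE F m).filter (fun f => Fac (IrLE F D₀) f) with hG
  -- reduction to monic polynomials
  have h1 : (((PL F m).filter (fun h => h ≠ 0 ∧ ∀ P : F[X], P.Monic → Irreducible P → P ∣ h →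
      P.natDegree ≤ D₀)).card : ℝ) ≤ q * G.card := by
    have hsub : (PL F m).filter (fun h => h ≠ 0 ∧ ∀ P : F[X], P.Monic → Irreducible P → P ∣ h →
      P.natDegree ≤ D₀) ⊆ ((Finset.univ : Finset F) ×ˢ G).image (fun t => C t.1 * t.2) := by
      intro h hh
      rw [Finset.mem_filter, mem_PL] at hh
      obtain ⟨a1, a2, a3⟩ := hh
      rw [Finset.mem_image]
      have hlc : h.leadingCoeff ≠ 0 := leadingCoeff_ne_zero.mpr a2
      have hmon : (C h.leadingCoeff⁻¹ * h).Monic := by
        rw [mul_comm]; exact monic_mul_leadingCoeff_inv a2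
      have heq : C h.leadingCoeff * (C h.leadingCoeff⁻¹ * h) = h := by
        rw [← mul_assoc, ← C_mul, mul_inv_cancel₀ hlc, C_1, one_mul]
      refine ⟨(h.leadingCoeff, C h.leadingCoeff⁻¹ * h), ?_, heq⟩
      rw [Finset.mem_product, hG, Finset.mem_filter, mem_MoLE]
      refine ⟨Finset.mem_univ _, ⟨hmon, ?_⟩, hmon, ?_⟩
      · show (C h.leadingCoeff⁻¹ * h).natDegree ≤ m
        rw [natDegree_C_mul (inv_ne_zero hlc)]
        have := (natDegree_lt_iff_degree_lt a2).mpr a1
        omega
      · intro P hP1 hP2 hP3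
        refine mem_IrLE.mpr ⟨hP1, hP2, a3 P hP1 hP2 ?_⟩
        rw [← heq]
        exact Dvd.dvd.mul_left hP3 _
    calc (((PL F m).filter (fun h => h ≠ 0 ∧ ∀ P : F[X], P.Monic → Irreducible P → P ∣ h →
        P.natDegree ≤ D₀)).card : ℝ)
        ≤ ((((Finset.univ : Finset F) ×ˢ G).image (fun t => C t.1 * t.2)).card : ℝ) := by
          exact_mod_cast Finset.card_le_card hsub
      _ ≤ (((Finset.univ : Finset F) ×ˢ G).card : ℝ) := by
          exact_mod_cast Finset.card_image_le
      _ = q * G.card := by rw [Finset.card_product, Finset.card_univ]; push_cast; rfl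
  -- Rankin
  have h2 : (G.card : ℝ) * r ^ m ≤ ∏ P ∈ IrLE F D₀, (1 - r ^ P.natDegree)⁻¹ := by
    have e1 := euler_le r hr0.le hr1 (IrLE F D₀)
      (fun P hP => ⟨(mem_IrLE.mp hP).1, (mem_IrLE.mp hP).2.1⟩) G
      (fun f hf => (Finset.mem_filter.mp hf).2)
    refine le_trans ?_ e1
    have e2 : (G.card : ℝ) * r ^ m = ∑ f ∈ G, r ^ m := by
      rw [Finset.sum_const, nsmul_eq_mul]
    rw [e2]
    apply Finset.sum_le_sum
    intro f hf
    have hf := mem_MoLE.mp (Finset.mem_filter.mp hf).1
    exact pow_le_pow_of_le_one hr0.le hr1.le hf.2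
  have h3 : ∏ P ∈ IrLE F D₀, (1 - r ^ P.natDegree)⁻¹ ≤
      Real.exp (3 * (1 + Real.log D₀ + s)) := by
    calc ∏ P ∈ IrLE F D₀, (1 - r ^ P.natDegree)⁻¹
        ≤ ∏ P ∈ IrLE F D₀, Real.exp (3 * r ^ P.natDegree) := by
          apply Finset.prod_le_prod
          · intro P hP
            have hP := mem_IrLE.mp hP
            have : r ^ P.natDegree < 1 := pow_lt_one₀ hr0.le hr1 hP.2.1.natDegree_pos.ne'
            exact inv_nonneg.mpr (by linarith)
          · intro P hP
            have hP := mem_IrLE.mp hP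
            have h4 : r ^ P.natDegree ≤ r ^ 1 :=
              pow_le_pow_of_le_one hr0.le hr1.le hP.2.1.natDegree_pos
            rw [pow_one] at h4
            have h5 : r ^ P.natDegree < 1 := by linarith
            refine (fac_le_exp _ h5).trans (Real.exp_le_exp.mpr ?_)
            rw [div_le_iff₀ (by linarith)]
            have h6 : 0 ≤ r ^ P.natDegree := by positivity
            nlinarith
      _ = Real.exp (∑ P ∈ IrLE F D₀, 3 * r ^ P.natDegree) := (Real.exp_sum _ _).symm
      _ ≤ Real.exp (3 * (1 + Real.log D₀ + s)) := by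
          apply Real.exp_le_exp.mpr
          unfold IrLE
          rw [sum_IrLE (Finset.Icc 1 D₀) (fun e => 3 * r ^ e)]
          have hterm : ∀ e ∈ Finset.Icc 1 D₀, ((Ir F e).card : ℝ) * (3 * r ^ e) ≤
              3 * (1 / e + s / D₀) := by
            intro e he
            rw [Finset.mem_Icc] at he
            have he0 : (0:ℝ) < e := by exact_mod_cast he.1
            have k1 := Ir_card_real (F := F) e he.1
            have k2 : t ^ e ≤ 1 + (e / D₀) * s := by
              have k3 : t ^ e = (1 + (s - 1)) ^ ((e:ℝ) / D₀) := by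
                rw [ht, ← Real.rpow_natCast, ← Real.rpow_mul hs0.le]
                congr 1
                · ring
                · ring
              rw [k3]
              have k4 := rpow_one_add_le_one_add_mul_self (s := s - 1) (by linarith)
                (p := (e:ℝ) / D₀) (by positivity)
                (by rw [div_le_one hD00]; exact_mod_cast he.2)
              have k5 : (e:ℝ) / D₀ * (s - 1) ≤ (e:ℝ) / D₀ * s :=
                mul_le_mul_of_nonneg_left (by linarith) (by positivity)
              linarith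
            calc ((Ir F e).card : ℝ) * (3 * r ^ e) ≤ (q ^ e / e) * (3 * r ^ e) :=
                  mul_le_mul_of_nonneg_right k1 (by positivity)
              _ = 3 * (t ^ e / e) := by
                  rw [hr, div_pow]
                  field_simp
              _ ≤ 3 * ((1 + (e / D₀) * s) / e) := by
                  apply mul_le_mul_of_nonneg_left _ (by norm_num)
                  exact div_le_div_of_nonneg_right k2 he0.le
              _ = 3 * (1 / e + s / D₀) := by field_simp
          calc ∑ e ∈ Finset.Icc 1 D₀, ((Ir F e).card : ℝ) * (3 * r ^ e)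
              ≤ ∑ e ∈ Finset.Icc 1 D₀, 3 * ((1:ℝ) / e + s / D₀) := Finset.sum_le_sum hterm
            _ = 3 * (∑ e ∈ Finset.Icc 1 D₀, (1:ℝ) / e + s) := by
                rw [← Finset.mul_sum, Finset.sum_add_distrib, Finset.sum_const, Nat.card_Icc,
                  nsmul_eq_mul]
                congr 2
                simp only [Nat.add_sub_cancel]
                field_simp
            _ ≤ 3 * (1 + Real.log D₀ + s) := by
                have := harm_le D₀
                linarith
  have h4 : r ^ m = Real.exp ((m / D₀) * Real.log s) / q ^ m := by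
    rw [hr, div_pow]
    congr 1
    rw [ht, ← Real.rpow_natCast, ← Real.rpow_mul hs0.le, Real.rpow_def_of_pos hs0]
    congr 1
    ring
  have h5 : (G.card : ℝ) ≤ q ^ m * Real.exp (3 * (1 + Real.log D₀ + s) - (m / D₀) * Real.log s) := by
    have e1 := h2.trans h3
    rw [h4] at e1
    rw [Real.exp_sub, mul_div_assoc', le_div_iff₀ (Real.exp_pos _)]
    rw [mul_div_assoc', div_le_iff₀ (by positivity)] at e1
    linarith
  calc (((PL F m).filter (fun h => h ≠ 0 ∧ ∀ P : F[X], P.Monic → Irreducible P → P ∣ h →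
      P.natDegree ≤ D₀)).card : ℝ) ≤ q * G.card := h1
    _ ≤ q * (q ^ m * Real.exp (3 * (1 + Real.log D₀ + s) - (m / D₀) * Real.log s)) :=
        mul_le_mul_of_nonneg_left h5 hq0.le
    _ = _ := by rw [pow_succ]; ring

end Pool.Agent.H523.FF
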