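import Pool.Agent.H523.FF4

set_option autoImplicit false
set_option linter.unusedSectionVars false

/-! # Survivors of the small primes -/

namespace Pool.Agent.H523.FF

open Polynomial Finset Filter

open scoped Classical

variable {F : Type} [Field F] [Fintype F]

/-- largeness conditions -/
theorem ev_D (C : ℝ) : ∃ D₁ : ℕ, ∀ D : ℕ, D₁ ≤ D → 1 ≤ Real.log (Real.log D) ∧
    48 * Real.log D ≤ D ∧ 3 + 3 * Real.sqrt (Real.log D) + C ≤ 2 * Real.log D ∧ 1 ≤ Real.log D := by
  have hl : Tendsto (fun D : ℕ => Real.log (D:ℝ)) atTop atTop :=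
    Real.tendsto_log_atTop.comp tendsto_natCast_atTop_atTop
  have h1 : ∀ᶠ D : ℕ in atTop, 1 ≤ Real.log (Real.log D) :=
    (Real.tendsto_log_atTop.comp hl).eventually_ge_atTop 1
  have h2 : ∀ᶠ D : ℕ in atTop, 48 * Real.log D ≤ D := by
    have e1 := (Real.isLittleO_log_id_atTop.comp_tendsto tendsto_natCast_atTop_atTop).def
      (show (0:ℝ) < 1 / 48 by norm_num)
    filter_upwards [e1, eventually_ge_atTop 1] with D hD hD1
    have hD1' : (1:ℝ) ≤ D := by exact_mod_cast hD1
    simp only [Function.comp_apply, id] at hD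
    rw [Real.norm_eq_abs, abs_of_nonneg (Real.log_nonneg hD1'), Real.norm_eq_abs,
      abs_of_nonneg (by linarith)] at hD
    linarith
  have h3 : ∀ᶠ D : ℕ in atTop, 3 + 3 * Real.sqrt (Real.log D) + C ≤ 2 * Real.log D := by
    filter_upwards [hl.eventually_ge_atTop (max 9 (3 + C))] with D hD
    have k1 : 9 ≤ Real.log D := le_trans (le_max_left _ _) hD
    have k2 : 3 + C ≤ Real.log D := le_trans (le_max_right _ _) hD
    have k3 : 3 ≤ Real.sqrt (Real.log D) := by
      rw [show (3:ℝ) = Real.sqrt 9 by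
        rw [show (9:ℝ) = 3 ^ 2 by norm_num, Real.sqrt_sq (by norm_num)]]
      exact Real.sqrt_le_sqrt k1
    have k4 : Real.sqrt (Real.log D) * Real.sqrt (Real.log D) = Real.log D :=
      Real.mul_self_sqrt (by linarith)
    nlinarith
  have h4 : ∀ᶠ D : ℕ in atTop, 1 ≤ Real.log D := hl.eventually_ge_atTop 1
  obtain ⟨D₁, h⟩ := Filter.eventually_atTop.mp (((h1.and h2).and h3).and h4)
  exact ⟨D₁, fun D hD => ⟨(h D hD).1.1.1, (h D hD).1.1.2, (h D hD).1.2, (h D hD).2⟩⟩

variable (F) in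
/-- few elements of a box survive the small primes, for a suitable choice of classes -/
theorem survivors : ∃ D₁ : ℕ, ∀ D : ℕ, D₁ ≤ D → ∀ m : ℕ, D ≤ m → ∃ b : F[X] → F[X],
    (((PL F m).filter (fun h => ∀ P ∈ IrLE F D, ¬ P ∣ h - b P)).card : ℝ) ≤
      (Fintype.card F : ℝ) ^ m * (((m - D : ℕ) : ℝ) + 2) * (12 * Real.log D) /
        ((D:ℝ) ^ 2 * Real.log (Real.log D)) := by
  have hq := two_le_card (F := F)
  set q : ℝ := (Fintype.card F : ℝ) with hqd
  have hq0 : 0 < q := by linarith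
  obtain ⟨D₁, hD₁⟩ := ev_D (Real.log q)
  refine ⟨max D₁ 1, fun D hD m hDm => ?_⟩
  obtain ⟨f1, f2, f3, f4⟩ := hD₁ D ((le_max_left _ _).trans hD)
  have hD1 : 1 ≤ D := (le_max_right _ _).trans hD
  have hD0 : (0:ℝ) < D := by exact_mod_cast hD1
  have hlD : 0 < Real.log D := by linarith
  have hllD : 0 < Real.log (Real.log D) := by linarith
  set a : ℝ := D * Real.log (Real.log D) / (12 * Real.log D) with ha
  have ha4 : 4 * Real.log (Real.log D) ≤ a := by
    rw [ha, le_div_iff₀ (by positivity)]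
    nlinarith
  set D₀ : ℕ := ⌊a⌋₊ with hD₀
  have ha0 : 0 < a := by linarith
  have hD0a : (D₀:ℝ) ≤ a := Nat.floor_le ha0.le
  have hD0a' : a < D₀ + 1 := Nat.lt_floor_add_one a
  have hD0r : 2 * Real.log (Real.log D) ≤ (D₀:ℝ) := by linarith
  have hD01 : 1 ≤ D₀ := by
    have : (1:ℝ) ≤ D₀ := by linarith
    exact_mod_cast this
  have hD00 : (0:ℝ) < D₀ := by exact_mod_cast hD01
  have haD : a ≤ D := by
    rw [ha, div_le_iff₀ (by positivity)]
    have : Real.log (Real.log D) ≤ Real.log D := by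
      have := Real.log_le_sub_one_of_pos hlD
      linarith
    nlinarith
  set s : ℝ := Real.sqrt (Real.log D) with hs
  have hs1 : 1 ≤ s := by
    rw [hs, show (1:ℝ) = Real.sqrt 1 by rw [Real.sqrt_one]]
    exact Real.sqrt_le_sqrt f4
  have hs0 : 0 < s := by linarith
  have hls : Real.log s = Real.log (Real.log D) / 2 := Real.log_sqrt hlD.le
  have hs2 : s ^ ((1:ℝ) / D₀) ≤ 4 / 3 := by
    rw [Real.rpow_def_of_pos hs0, hls]
    have e1 : Real.log (Real.log D) / 2 * (1 / D₀) ≤ 1 / 4 := by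
      rw [mul_one_div, div_le_iff₀ hD00]
      linarith
    have e2 : (1:ℝ) / 4 ≤ Real.log (4 / 3) := by
      have := Real.one_sub_inv_le_log_of_pos (show (0:ℝ) < 4 / 3 by norm_num)
      norm_num at this ⊢
      exact this
    calc Real.exp (Real.log (Real.log D) / 2 * (1 / D₀)) ≤ Real.exp (Real.log (4 / 3)) :=
          Real.exp_le_exp.mpr (by linarith)
      _ = 4 / 3 := Real.exp_log (by norm_num)
  have hsm := smooth_count (F := F) D₀ m hD01 s hs1 hs2
  rw [← hqd] at hsm
  have hexp : 3 * (1 + Real.log D₀ + s) - (m / D₀) * Real.log s ≤ -Real.log D - Real.log q := by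
    have e1 : Real.log D₀ ≤ Real.log D := Real.log_le_log hD00 (hD0a.trans haD)
    have e2 : 6 * Real.log D ≤ (m / D₀) * Real.log s := by
      have e3 : (D:ℝ) / a ≤ m / D₀ :=
        div_le_div₀ (by positivity) (by exact_mod_cast hDm) hD00 hD0a
      have e4 : (D:ℝ) / a = 12 * Real.log D / Real.log (Real.log D) := by
        rw [ha]; field_simp
      rw [hls]
      calc 6 * Real.log D = (12 * Real.log D / Real.log (Real.log D)) *
            (Real.log (Real.log D) / 2) := by field_simp; ring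
        _ ≤ (m / D₀) * (Real.log (Real.log D) / 2) := by
            rw [← e4]
            exact mul_le_mul_of_nonneg_right e3 (by positivity)
    linarith
  have hsm2 : (((PL F m).filter (fun h => h ≠ 0 ∧ ∀ P : F[X], P.Monic → Irreducible P → P ∣ h →
      P.natDegree ≤ D₀)).card : ℝ) ≤ q ^ m / D := by
    refine hsm.trans ?_
    calc q ^ (m + 1) * Real.exp (3 * (1 + Real.log D₀ + s) - (m / D₀) * Real.log s)
        ≤ q ^ (m + 1) * Real.exp (-Real.log D - Real.log q) :=
          mul_le_mul_of_nonneg_left (Real.exp_le_exp.mpr hexp) (by positivity)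
      _ = q ^ m / D := by
          rw [sub_eq_add_neg, Real.exp_add, Real.exp_neg, Real.exp_neg, Real.exp_log hD0,
            Real.exp_log hq0, pow_succ]
          field_simp
  have hlg := large_count (F := F) D m hD1
  rw [← hqd] at hlg
  -- the first stage
  set S₁ : Finset F[X] := (PL F m).filter (fun h => ∀ P : F[X], P.Monic → Irreducible P →
    D₀ < P.natDegree → P.natDegree ≤ D → ¬ P ∣ h) with hS₁
  have hS1 : (S₁.card : ℝ) ≤ q ^ m * (((m - D : ℕ) : ℝ) + 2) / D := by
    have hsub : S₁ ⊆ {0} ∪ ((PL F m).filter (fun h => h ≠ 0 ∧ ∀ P : F[X], P.Monic →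
        Irreducible P → P ∣ h → P.natDegree ≤ D₀) ∪
        ((Finset.Ioo D m).biUnion (Ir F)).biUnion (fun Q => (PL F m).filter (fun h => Q ∣ h))) := by
      intro h hh
      rw [hS₁, Finset.mem_filter] at hh
      obtain ⟨g1, g2⟩ := hh
      rw [Finset.mem_union, Finset.mem_union, Finset.mem_singleton, Finset.mem_filter,
        Finset.mem_biUnion]
      by_cases h0 : h = 0
      · exact Or.inl h0
      · right
        by_cases hsmo : ∀ P : F[X], P.Monic → Irreducible P → P ∣ h → P.natDegree ≤ D₀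
        · exact Or.inl ⟨g1, h0, hsmo⟩
        · right
          push Not at hsmo
          obtain ⟨P, hP1, hP2, hP3, hP4⟩ := hsmo
          have hP5 : D < P.natDegree := by
            by_contra hc
            push Not at hc
            exact g2 P hP1 hP2 hP4 hc hP3
          have hP6 : P.natDegree < m := by
            have k1 := natDegree_le_of_dvd hP3 h0
            have k2 := (natDegree_lt_iff_degree_lt h0).mpr (mem_PL.mp g1)
            omega
          refine ⟨P, Finset.mem_biUnion.mpr ⟨P.natDegree, Finset.mem_Ioo.mpr ⟨hP5, hP6⟩,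
            mem_Ir.mpr ⟨hP1, hP2, rfl⟩⟩, Finset.mem_filter.mpr ⟨g1, hP3⟩⟩
    have hc1 := Finset.card_le_card hsub
    have hc2 := (Finset.card_union_le _ _).trans
      (add_le_add_right (Finset.card_union_le ((PL F m).filter (fun h => h ≠ 0 ∧ ∀ P : F[X],
        P.Monic → Irreducible P → P ∣ h → P.natDegree ≤ D₀))
        (((Finset.Ioo D m).biUnion (Ir F)).biUnion (fun Q => (PL F m).filter (fun h => Q ∣ h))))
        ({0} : Finset F[X]).card)
    have hc3 : (S₁.card : ℝ) ≤ 1 + (((PL F m).filter (fun h => h ≠ 0 ∧ ∀ P : F[X], P.Monic →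
        Irreducible P → P ∣ h → P.natDegree ≤ D₀)).card +
        (((Finset.Ioo D m).biUnion (Ir F)).biUnion
          (fun Q => (PL F m).filter (fun h => Q ∣ h))).card) := by
      have := hc1.trans hc2
      rw [Finset.card_singleton] at this
      exact_mod_cast this
    have h1D : 1 ≤ q ^ m / D := by
      rw [le_div_iff₀ hD0, one_mul]
      have k1 : (D:ℝ) < 2 ^ D := by exact_mod_cast D.lt_two_pow_self
      have k2 : (2:ℝ) ^ D ≤ q ^ D := pow_le_pow_left₀ (by norm_num) hq D
      have k3 : q ^ D ≤ q ^ m := pow_le_pow_right₀ (by linarith) hDm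
      linarith
    calc (S₁.card : ℝ) ≤ q ^ m / D + (q ^ m / D + q ^ m * ((m - D : ℕ) / D)) := by linarith
      _ = q ^ m * (((m - D : ℕ) : ℝ) + 2) / D := by field_simp; ring
  -- the greedy stage
  obtain ⟨b₀, hb₀⟩ := greedy S₁ (IrLE F D₀) (fun P hP => (mem_IrLE.mp hP).1)
  refine ⟨fun P => if P.natDegree ≤ D₀ then b₀ P else 0, ?_⟩
  have hsub : (PL F m).filter (fun h => ∀ P ∈ IrLE F D,
      ¬ P ∣ h - (if P.natDegree ≤ D₀ then b₀ P else 0)) ⊆
      S₁.filter (fun h => ∀ P ∈ IrLE F D₀, ¬ P ∣ h - b₀ P) := by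
    intro h hh
    rw [Finset.mem_filter] at hh
    obtain ⟨g1, g2⟩ := hh
    rw [Finset.mem_filter, hS₁, Finset.mem_filter]
    refine ⟨⟨g1, fun P hP1 hP2 hP3 hP4 => ?_⟩, fun P hP => ?_⟩
    · have := g2 P (mem_IrLE.mpr ⟨hP1, hP2, hP4⟩)
      rwa [if_neg (by omega), sub_zero] at this
    · have hP := mem_IrLE.mp hP
      have hDD : D₀ ≤ D := by
        have : (D₀:ℝ) ≤ D := hD0a.trans haD
        exact_mod_cast this
      have := g2 P (mem_IrLE.mpr ⟨hP.1, hP.2.1, hP.2.2.trans hDD⟩)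
      rwa [if_pos hP.2.2] at this
  have hprod : ∏ P ∈ IrLE F D₀, (1 - (q⁻¹) ^ P.natDegree) ≤ 12 * Real.log D /
      (D * Real.log (Real.log D)) := by
    have hm := mertens_lower F D₀
    rw [← hqd] at hm
    rw [Finset.prod_inv_distrib] at hm
    have hpos : 0 < ∏ P ∈ IrLE F D₀, (1 - (q⁻¹) ^ P.natDegree) := by
      apply Finset.prod_pos
      intro P hP
      have hP := mem_IrLE.mp hP
      have : (q⁻¹) ^ P.natDegree < 1 :=
        pow_lt_one₀ (by positivity) (inv_lt_one_of_one_lt₀ (by linarith)) hP.2.1.natDegree_pos.ne'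
      linarith
    have h1 : a ≤ (∏ P ∈ IrLE F D₀, (1 - (q⁻¹) ^ P.natDegree))⁻¹ := by linarith
    have h2 : ∏ P ∈ IrLE F D₀, (1 - (q⁻¹) ^ P.natDegree) ≤ a⁻¹ := by
      rw [← inv_inv (∏ P ∈ IrLE F D₀, (1 - (q⁻¹) ^ P.natDegree))]
      exact inv_anti₀ ha0 h1
    refine h2.trans (le_of_eq ?_)
    rw [ha, inv_div]
  calc (((PL F m).filter (fun h => ∀ P ∈ IrLE F D,
      ¬ P ∣ h - (if P.natDegree ≤ D₀ then b₀ P else 0))).card : ℝ)
      ≤ ((S₁.filter (fun h => ∀ P ∈ IrLE F D₀, ¬ P ∣ h - b₀ P)).card : ℝ) := by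
        exact_mod_cast Finset.card_le_card hsub
    _ ≤ S₁.card * ∏ P ∈ IrLE F D₀, (1 - (q⁻¹) ^ P.natDegree) := hb₀
    _ ≤ S₁.card * (12 * Real.log D / (D * Real.log (Real.log D))) :=
        mul_le_mul_of_nonneg_left hprod (Nat.cast_nonneg _)
    _ ≤ (q ^ m * (((m - D : ℕ) : ℝ) + 2) / D) * (12 * Real.log D /
        (D * Real.log (Real.log D))) :=
        mul_le_mul_of_nonneg_right hS1 (by positivity)
    _ = _ := by field_simp

end Pool.Agent.H523.FF
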