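import Pool.Agent.H523.CovE
import Pool.Agent.H523.FF5
import Pool.Agent.H523.FF6

set_option autoImplicit false
set_option linter.unusedSectionVars false

/-! # Long intervals without irreducible polynomials: assembly -/

namespace Pool.Agent.H523.FF

open Polynomial Finset Filter

open scoped Classical

/-- Chinese remainder theorem for a finite family of pairwise coprime moduli -/
theorem crt_ring {R ι : Type} [CommRing R] (s : Finset ι) (p : ι → R)
    (hp : ∀ i ∈ s, ∀ j ∈ s, i ≠ j → IsCoprime (p i) (p j)) (c : ι → R) :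
    ∃ r : R, ∀ i ∈ s, p i ∣ r - c i := by
  induction s using Finset.induction_on with
  | empty => exact ⟨0, by simp⟩
  | insert j s hj ih =>
    obtain ⟨r, hr⟩ := ih (fun i hi k hk hik =>
      hp i (Finset.mem_insert_of_mem hi) k (Finset.mem_insert_of_mem hk) hik)
    have hcop : IsCoprime (∏ i ∈ s, p i) (p j) := by
      apply IsCoprime.prod_left
      intro i hi
      exact hp i (Finset.mem_insert_of_mem hi) j (Finset.mem_insert_self _ _)
        (fun h => hj (h ▸ hi))
    obtain ⟨a, b, hab⟩ := hcop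
    refine ⟨r + (∏ i ∈ s, p i) * a * (c j - r), ?_⟩
    intro i hi
    rcases Finset.mem_insert.mp hi with rfl | hi
    · have : r + (∏ i ∈ s, p i) * a * (c i - r) - c i = p i * (b * (r - c i)) := by
        have h1 : (∏ i ∈ s, p i) * a = 1 - b * p i := by
          rw [← hab]; ring
        rw [h1]; ring
      rw [this]
      exact dvd_mul_right _ _
    · have h1 : r + (∏ i ∈ s, p i) * a * (c j - r) - c i =
          (r - c i) + (∏ i ∈ s, p i) * (a * (c j - r)) := by ring
      rw [h1]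
      exact dvd_add (hr i hi) (Dvd.dvd.mul_right (Finset.dvd_prod_of_mem p hi) _)

lemma nlog (q : ℕ) (hq : 2 ≤ q) (x : ℝ) (hx : 1 ≤ x) :
    ∃ e : ℕ, (q:ℝ) ^ e ≤ x ∧ x < (q:ℝ) ^ (e + 1) := by
  have hfl : ⌊x⌋₊ ≠ 0 := by
    have : 1 ≤ ⌊x⌋₊ := Nat.le_floor (by simpa using hx)
    omega
  refine ⟨Nat.log q ⌊x⌋₊, ?_, ?_⟩
  · have h1 : q ^ (Nat.log q ⌊x⌋₊) ≤ ⌊x⌋₊ := Nat.pow_log_le_self q hfl
    calc (q:ℝ) ^ (Nat.log q ⌊x⌋₊) ≤ (⌊x⌋₊ : ℝ) := by exact_mod_cast h1
      _ ≤ x := Nat.floor_le (by linarith)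
  · have h1 : ⌊x⌋₊ < q ^ (Nat.log q ⌊x⌋₊ + 1) := Nat.lt_pow_succ_log_self (by omega) _
    calc x < (⌊x⌋₊ : ℝ) + 1 := Nat.lt_floor_add_one x
      _ ≤ (q:ℝ) ^ (Nat.log q ⌊x⌋₊ + 1) := by exact_mod_cast h1

lemma geom2 (q : ℝ) (hq : 2 ≤ q) (b : ℕ) : ∑ e ∈ range (b + 1), q ^ e ≤ 2 * q ^ b := by
  induction b with
  | zero => simp
  | succ b ih =>
    rw [Finset.sum_range_succ]
    have : 2 * q ^ b ≤ q ^ (b + 1) := by
      rw [pow_succ, mul_comm]; exact mul_le_mul_of_nonneg_left hq (by positivity)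
    linarith

/-- largeness conditions for the covering part -/
theorem ev_L (q X₀ : ℝ) (hq : 2 ≤ q) : ∃ K₀ : ℕ, ∀ K : ℕ, K₀ ≤ K →
    X₀ ≤ q ^ K ∧ 4 ≤ Real.log K ∧ 4000 * Real.log (K * Real.log q) ≤ K * Real.log q ∧
    q ≤ (K * Real.log q) ^ 2 ∧ 4 ≤ Real.log (K * Real.log q) ∧ 1 ≤ K := by
  have hQ : 0 < Real.log q := Real.log_pos (by linarith)
  have h0 : Tendsto (fun K : ℕ => (K:ℝ)) atTop atTop := tendsto_natCast_atTop_atTop
  have h1 : Tendsto (fun K : ℕ => (K:ℝ) * Real.log q) atTop atTop :=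
    h0.atTop_mul_const hQ
  have g1 : ∀ᶠ K : ℕ in atTop, X₀ ≤ q ^ K :=
    (tendsto_pow_atTop_atTop_of_one_lt (by linarith : (1:ℝ) < q)).eventually_ge_atTop X₀
  have g2 : ∀ᶠ K : ℕ in atTop, 4 ≤ Real.log (K:ℝ) :=
    (Real.tendsto_log_atTop.comp h0).eventually_ge_atTop 4
  have g3 : ∀ᶠ K : ℕ in atTop, 4000 * Real.log (K * Real.log q) ≤ K * Real.log q := by
    have e0 : ∀ᶠ x : ℝ in atTop, 4000 * Real.log x ≤ x := by
      filter_upwards [Real.isLittleO_log_id_atTop.def (show (0:ℝ) < 1 / 4000 by norm_num),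
        eventually_ge_atTop (1:ℝ)] with L hL hL1
      rw [Real.norm_eq_abs, abs_of_nonneg (Real.log_nonneg hL1), Real.norm_eq_abs] at hL
      simp only [id] at hL
      rw [abs_of_nonneg (by linarith)] at hL
      linarith
    exact h1.eventually e0
  have g4 : ∀ᶠ K : ℕ in atTop, q ≤ (K * Real.log q) ^ 2 := by
    filter_upwards [h1.eventually_ge_atTop q] with K hK
    nlinarith
  have g5 : ∀ᶠ K : ℕ in atTop, 4 ≤ Real.log (K * Real.log q) :=
    (Real.tendsto_log_atTop.comp h1).eventually_ge_atTop 4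
  obtain ⟨K₀, h⟩ := Filter.eventually_atTop.mp
    (((((g1.and g2).and g3).and g4).and g5).and (eventually_ge_atTop 1))
  refine ⟨K₀, fun K hK => ?_⟩
  obtain ⟨⟨⟨⟨⟨a1, a2⟩, a3⟩, a4⟩, a5⟩, a6⟩ := h K hK
  exact ⟨a1, a2, a3, a4, a5, a6⟩

/-- **Long intervals of polynomials all of whose elements have a monic irreducible factor of small
degree.** -/
theorem ff_record : ∃ c : ℝ, 0 < c ∧ ∀ (F : Type) [Field F] [Fintype F], ∃ K₀ : ℕ,
    ∀ K : ℕ, K₀ ≤ K → ∀ A : F[X], ∃ g : F[X], g.degree < K ∧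
      ∀ (m : ℕ) (h : F[X]), (Fintype.card F : ℝ) ^ m ≤ c * GG K → h.degree < m →
        ∃ P : F[X], P.Monic ∧ Irreducible P ∧ (P.natDegree : ℝ) * Real.log K ≤ K ∧
          P ∣ A + g + h := by
  obtain ⟨c₁, hc₁, X₀, HC⟩ := Cov.covering_elem (1 / (Real.exp 3 * 2)) 1 (by positivity)
  refine ⟨min 1 (c₁ / 576), lt_min one_pos (by positivity), ?_⟩
  intro F _ _
  set c : ℝ := min 1 (c₁ / 576) with hc
  have hc0 : 0 < c := lt_min one_pos (by positivity)
  have hc1 : c ≤ 1 := min_le_left _ _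
  have hcc : c ≤ c₁ / 576 := min_le_right _ _
  have hq := two_le_card (F := F)
  have hqn : 2 ≤ Fintype.card F := Fintype.one_lt_card
  obtain ⟨D₁, hD₁⟩ := survivors F
  obtain ⟨K₁, hK₁⟩ := params (Fintype.card F) hqn c hc0 hc1 D₁
  obtain ⟨K₂, hK₂⟩ := ev_L (Fintype.card F : ℝ) X₀ hq
  set q : ℝ := (Fintype.card F : ℝ) with hqd
  have hq0 : 0 < q := by linarith
  set Q : ℝ := Real.log q with hQ
  have hQ2 : 0.69 < Q := by
    have h1 := Real.log_two_gt_d9
    have h2 : Real.log 2 ≤ Real.log q := Real.log_le_log (by norm_num) hq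
    rw [hQ]; linarith
  have hQ0 : 0 < Q := by linarith
  refine ⟨max K₁ K₂, fun K hK A => ?_⟩
  obtain ⟨D, m, hDD, hDm, hD1, hqD, hDK, hm1, hm2, hfin⟩ := hK₁ K ((le_max_left _ _).trans hK)
  obtain ⟨hX, f2, f3, f4, f5, f6⟩ := hK₂ K ((le_max_right _ _).trans hK)
  obtain ⟨b, hb⟩ := hD₁ D hDD m hDm
  have hK0 : (0:ℝ) < K := by exact_mod_cast f6
  -- the covering theorem
  have hlogX : Real.log (q ^ K) = K * Q := by rw [Real.log_pow]
  obtain ⟨z, hz0, hz1, hz2, HC⟩ := HC (q ^ K) hX
  rw [hlogX] at hz1 hz2 HC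
  set L : ℝ := K * Q with hL
  set l : ℝ := Real.log L with hl
  have hL0 : 0 < L := by positivity
  have hl0 : 0 < l := by linarith
  have hlz2 : 2 ≤ Real.log z := by
    refine le_trans ?_ hz1
    rw [le_div_iff₀ (by positivity)]
    linarith
  have hz3 : 3 ≤ z := by
    have h1 : Real.exp 2 ≤ z := by
      rw [← Real.exp_log hz0]; exact Real.exp_le_exp.mpr hlz2
    have := Real.add_one_le_exp (2:ℝ)
    linarith
  obtain ⟨E₁, hE1, hE1'⟩ := nlog (Fintype.card F) hqn (L ^ 2) (by nlinarith)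
  obtain ⟨E₂, hE2, hE2'⟩ := nlog (Fintype.card F) hqn z (by linarith)
  rw [← hqd] at hE1 hE1' hE2 hE2'
  have hE11 : 1 ≤ E₁ := by
    by_contra hcon
    have h0 : E₁ = 0 := by omega
    rw [h0] at hE1'
    simp only [zero_add, pow_one] at hE1'
    linarith
  have hmE : m ≤ E₁ := by
    have h1 : q ^ m < q ^ (E₁ + 1) := lt_of_le_of_lt hm2 hE1'
    have := (pow_lt_pow_iff_right₀ (show (1:ℝ) < q by linarith)).mp h1
    omega
  have hE2Q : (E₂:ℝ) * Q ≤ L / (1000 * l) := by
    have h1 := Real.log_le_log (by positivity) hE2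
    rw [Real.log_pow] at h1
    linarith
  have hE2L : (E₂:ℝ) ≤ L := by
    have h1 : L / (1000 * l) ≤ L / 4000 :=
      div_le_div_of_nonneg_left hL0.le (by norm_num) (by linarith)
    have h2 : (E₂:ℝ) * 0.69 ≤ E₂ * Q := mul_le_mul_of_nonneg_left hQ2.le (Nat.cast_nonneg _)
    linarith
  have hlogK : Real.log K ≤ 2 * l := by
    have h1 : (K:ℝ) / 2 ≤ L := by rw [hL]; nlinarith
    have h2 := Real.log_le_log (by positivity) h1
    rw [Real.log_div (by positivity) (by norm_num)] at h2
    have h3 := Real.log_two_lt_d9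
    have h4 : Real.log K - Real.log 2 ≤ l := h2
    linarith
  have hE2K : (E₂:ℝ) * Real.log K ≤ K := by
    have h1 : (E₂:ℝ) ≤ K / (1000 * l) := by
      have : L / (1000 * l) = (K / (1000 * l)) * Q := by rw [hL]; ring
      rw [this] at hE2Q
      exact le_of_mul_le_mul_right hE2Q hQ0
    calc (E₂:ℝ) * Real.log K ≤ (K / (1000 * l)) * (2 * l) :=
          mul_le_mul h1 hlogK (by linarith) (by positivity)
      _ = K * (2 / 1000) := by field_simp
      _ ≤ K := by nlinarith
  -- the sieving primes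
  set PP : Finset F[X] := (Finset.Ioc E₁ E₂).biUnion (Ir F) with hPP
  have hPPm : ∀ P ∈ PP, P.Monic ∧ Irreducible P ∧ E₁ < P.natDegree ∧ P.natDegree ≤ E₂ := by
    intro P hP
    obtain ⟨d, hd, hPd⟩ := Finset.mem_biUnion.mp hP
    rw [Finset.mem_Ioc] at hd
    have hPd := mem_Ir.mp hPd
    exact ⟨hPd.1, hPd.2.1, by rw [hPd.2.2]; exact hd.1, by rw [hPd.2.2]; exact hd.2⟩
  -- the modulus
  set M : F[X] := ∏ P ∈ IrLE F D, P with hM
  have hMmon : M.Monic := monic_prod_of_monic _ _ (fun P hP => (mem_IrLE.mp hP).1)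
  have hMdeg : 2 * M.natDegree ≤ K := by
    have h1 : (M.natDegree : ℝ) ≤ 2 * q ^ D := by
      rw [hM, natDegree_prod_of_monic _ _ (fun P hP => (mem_IrLE.mp hP).1)]
      push_cast
      unfold IrLE
      rw [sum_IrLE (Finset.Icc 1 D) (fun e => (e:ℝ))]
      calc ∑ e ∈ Finset.Icc 1 D, ((Ir F e).card : ℝ) * (e:ℝ) ≤ ∑ e ∈ Finset.Icc 1 D, q ^ e := by
            apply Finset.sum_le_sum
            intro e he
            rw [Finset.mem_Icc] at he
            have h3 := Ir_card (F := F) e he.1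
            have h4 : ((e * (Ir F e).card : ℕ) : ℝ) ≤ ((Fintype.card F ^ e : ℕ) : ℝ) :=
              Nat.cast_le.mpr h3
            push_cast at h4
            rw [mul_comm]
            exact h4
        _ ≤ ∑ e ∈ range (D + 1), q ^ e := by
            apply Finset.sum_le_sum_of_subset_of_nonneg
            · intro e he
              rw [Finset.mem_Icc] at he
              exact Finset.mem_range.mpr (by omega)
            · intro e _ _
              positivity
        _ ≤ 2 * q ^ D := geom2 q hq D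
    have h2 : (2:ℝ) * (M.natDegree : ℝ) ≤ K := by linarith
    exact_mod_cast h2
  have hDE : D ≤ E₁ := hDm.trans hmE
  have hcopM : ∀ P ∈ PP, IsCoprime P M := by
    intro P hP
    obtain ⟨a1, a2, a3, a4⟩ := hPPm P hP
    apply IsCoprime.prod_right
    intro P' hP'
    have hP' := mem_IrLE.mp hP'
    apply irr_coprime a1 a2 hP'.1 hP'.2.1
    rintro rfl
    omega
  have hinv : ∀ P : F[X], ∃ u : F[X], P ∈ PP → P ∣ M * u - 1 := by
    intro P
    by_cases hP : P ∈ PP
    · obtain ⟨a, u, hau⟩ := hcopM P hP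
      exact ⟨u, fun _ => ⟨-a, by linear_combination hau⟩⟩
    · exact ⟨0, fun h => absurd h hP⟩
  choose u hu using hinv
  -- the base point
  obtain ⟨r, hr⟩ := crt_ring (IrLE F D) (fun P => P) (fun P hP P' hP' hne =>
    irr_coprime (mem_IrLE.mp hP).1 (mem_IrLE.mp hP).2.1 (mem_IrLE.mp hP').1
      (mem_IrLE.mp hP').2.1 hne) (fun P => -A - b P)
  set g₀ : F[X] := r %ₘ M with hg₀
  have hg0 : ∀ P ∈ IrLE F D, P ∣ A + g₀ + b P := by
    intro P hP
    have h1 := hr P hP
    have h2 : P ∣ M := Finset.dvd_prod_of_mem _ hP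
    have h3 := modByMonic_add_div r M
    have h4 : A + g₀ + b P = (r - (-A - b P)) - M * (r /ₘ M) := by linear_combination h3
    rw [h4]
    exact dvd_sub h1 (Dvd.dvd.mul_right h2 _)
  have hg0deg : g₀.degree < K := by
    refine lt_of_lt_of_le (degree_modByMonic_lt r hMmon) ?_
    rw [degree_eq_natDegree hMmon.ne_zero]
    have : M.natDegree ≤ K := by omega
    exact_mod_cast this
  -- the survivors
  set S : Finset F[X] := (PL F m).filter (fun h => ∀ P ∈ IrLE F D, ¬ P ∣ h - b P) with hS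
  have hScard : (S.card : ℝ) ≤ c₁ * L := by
    refine hb.trans (hfin.trans ?_)
    calc 576 * c * (K * Q) ≤ 576 * (c₁ / 576) * (K * Q) := by
          apply mul_le_mul_of_nonneg_right _ (by positivity)
          linarith
      _ = c₁ * L := by rw [hL]; ring
  -- apply the covering theorem
  have hcov := HC F[X] (fun P => q ^ P.natDegree) PP
    (fun P hP P' hP' hne => irr_coprime (hPPm P hP).1 (hPPm P hP).2.1 (hPPm P' hP').1
      (hPPm P' hP').2.1 hne)
    (fun P hP P' hP' h => eq_of_monic_of_associated (hPPm P hP).1 (hPPm P' hP').1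
      (Ideal.span_singleton_eq_span_singleton.mp h))
    (fun P hP => by
      obtain ⟨a1, a2, a3, a4⟩ := hPPm P hP
      constructor
      · exact lt_of_lt_of_le hE1' (pow_le_pow_right₀ (by linarith) a3)
      · exact (pow_le_pow_right₀ (by linarith) a4).trans hE2)
    (by
      have h1 : (PP.card : ℝ) ≤ 2 * q ^ E₂ := by
        have h2 : (PP.card : ℝ) = ∑ e ∈ Finset.Ioc E₁ E₂, ((Ir F e).card : ℝ) * 1 := by
          rw [← sum_IrLE (Finset.Ioc E₁ E₂) (fun _ => (1:ℝ)), Finset.sum_const, nsmul_eq_mul,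
            mul_one]
        rw [h2]
        calc ∑ e ∈ Finset.Ioc E₁ E₂, ((Ir F e).card : ℝ) * 1 ≤ ∑ e ∈ Finset.Ioc E₁ E₂, q ^ e := by
              apply Finset.sum_le_sum
              intro e he
              rw [Finset.mem_Ioc] at he
              have h3 := Ir_card (F := F) e (by omega)
              have h4 : (Ir F e).card ≤ Fintype.card F ^ e := by
                refine le_trans ?_ h3
                exact Nat.le_mul_of_pos_left _ (by omega)
              have h5 : (((Ir F e).card : ℕ) : ℝ) ≤ ((Fintype.card F ^ e : ℕ) : ℝ) :=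
                Nat.cast_le.mpr h4
              push_cast at h5
              rw [mul_one]
              exact h5
          _ ≤ ∑ e ∈ range (E₂ + 1), q ^ e := by
              apply Finset.sum_le_sum_of_subset_of_nonneg
              · intro e he
                rw [Finset.mem_Ioc] at he
                exact Finset.mem_range.mpr (by omega)
              · intro e _ _
                positivity
          _ ≤ 2 * q ^ E₂ := geom2 q hq E₂
      nlinarith)
    (by
      have h1 : ∑ P ∈ PP, 1 / q ^ P.natDegree = ∑ P ∈ PP, (q⁻¹) ^ P.natDegree :=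
        Finset.sum_congr rfl (fun P _ => by rw [inv_pow, one_div])
      rw [h1]
      have h2 := sum_inv_le (F := F) (Finset.Ioc E₁ E₂)
        (fun e he => by rw [Finset.mem_Ioc] at he; omega)
      rw [← hqd] at h2
      have h3 : ∑ e ∈ Finset.Ioc E₁ E₂, (1:ℝ) / e ≤ ∑ e ∈ Finset.Icc 1 E₂, (1:ℝ) / e := by
        apply Finset.sum_le_sum_of_subset_of_nonneg
        · intro e he
          rw [Finset.mem_Ioc] at he
          exact Finset.mem_Icc.mpr (by omega)
        · intro e _ _
          positivity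
      have h4 := harm_le E₂
      have h5 : Real.log E₂ ≤ l := by
        rcases Nat.eq_zero_or_pos E₂ with h0 | h0
        · rw [h0]; simp only [Nat.cast_zero, Real.log_zero]; exact hl0.le
        · exact Real.log_le_log (by exact_mod_cast h0) hE2L
      linarith)
    (fun x hx1 hx2 => A_lower E₁ E₂ hE11 x (L ^ 2) hE1 hx1 (lt_of_le_of_lt hx2 hE2'))
    {h // h ∈ S} (by rw [Fintype.card_coe]; exact hScard)
    (fun P h => -(A + g₀ + h.1) * u P)
    (by
      intro P hP k k' hkk hdvd
      obtain ⟨a1, a2, a3, a4⟩ := hPPm P hP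
      apply hkk
      have h1 : P ∣ k.1 - k'.1 := by
        have h2 : P ∣ M * (-(A + g₀ + k.1) * u P - -(A + g₀ + k'.1) * u P) :=
          Dvd.dvd.mul_left hdvd _
        have h3 : k.1 - k'.1 = -(M * (-(A + g₀ + k.1) * u P - -(A + g₀ + k'.1) * u P)) -
            (k.1 - k'.1) * (M * u P - 1) := by ring
        rw [h3]
        exact dvd_sub (Dvd.dvd.neg_right h2) (Dvd.dvd.mul_left (hu P hP) _)
      by_contra hne
      have hne' : k.1 - k'.1 ≠ 0 := fun h0 => hne (Subtype.ext (sub_eq_zero.mp h0))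
      have h4 := natDegree_le_of_dvd h1 hne'
      have hk := mem_PL.mp (Finset.mem_filter.mp k.2).1
      have hk' := mem_PL.mp (Finset.mem_filter.mp k'.2).1
      have h5 : (k.1 - k'.1).degree < m := lt_of_le_of_lt (degree_sub_le _ _) (max_lt hk hk')
      have h6 := (natDegree_lt_iff_degree_lt hne').mpr h5
      omega)
    (PL F (K - M.natDegree)) (q ^ (K - M.natDegree)) 0 (by positivity) le_rfl
    (by rw [zero_mul]; positivity)
    (by
      intro s hs hle r'
      have hsm : ∀ P ∈ s, P.Monic := fun P hP => (hPPm P (hs hP)).1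
      set Qs : F[X] := ∏ p ∈ s, p with hQs
      have hQm : Qs.Monic := monic_prod_of_monic _ _ hsm
      have hQd : Qs.natDegree = ∑ P ∈ s, P.natDegree := natDegree_prod_of_monic _ _ hsm
      have hpr : ∏ p ∈ s, q ^ p.natDegree = q ^ Qs.natDegree := by
        rw [hQd]; exact Finset.prod_pow_eq_pow_sum s _ q
      rw [hpr] at hle ⊢
      have h1 : 4 * Qs.natDegree ≤ K := by
        have h2 := Real.log_le_log (by positivity) hle
        rw [Real.log_pow, Real.log_rpow (by positivity), Real.log_pow] at h2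
        have h3 : (Qs.natDegree : ℝ) * Q ≤ (K / 4 : ℝ) * Q := by
          have : (1 / 4 : ℝ) * (K * Real.log q) = (K / 4 : ℝ) * Q := by rw [hQ]; ring
          rw [this] at h2
          exact h2
        have h4 := le_of_mul_le_mul_right h3 hQ0
        have h5 : (4:ℝ) * (Qs.natDegree : ℝ) ≤ K := by linarith
        exact_mod_cast h5
      have h6 : Qs.natDegree ≤ K - M.natDegree := by omega
      rw [PL_mod Qs hQm r' _ h6]
      push_cast
      rw [← hqd]
      have h7 : q ^ (K - M.natDegree) = q ^ (K - M.natDegree - Qs.natDegree) * q ^ Qs.natDegree := by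
        rw [← pow_add]; congr 1; omega
      rw [h7, mul_div_assoc, div_self (by positivity), mul_one, sub_self, abs_zero])
  obtain ⟨x, hx, hcov⟩ := hcov
  refine ⟨g₀ + M * x, ?_, ?_⟩
  · refine lt_of_le_of_lt (degree_add_le _ _) (max_lt hg0deg ?_)
    by_cases hx0 : x = 0
    · rw [hx0, mul_zero, degree_zero]; exact WithBot.bot_lt_coe _
    · have h1 := mem_PL.mp hx
      rw [degree_eq_natDegree hx0] at h1
      have h2 : x.natDegree < K - M.natDegree := by exact_mod_cast h1
      rw [degree_mul, degree_eq_natDegree hMmon.ne_zero, degree_eq_natDegree hx0]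
      have h3 : M.natDegree + x.natDegree < K := by omega
      exact_mod_cast h3
  · intro m' h hm' hdeg
    have hmm : m' ≤ m := hm1 m' hm'
    have hhm : h ∈ PL F m := mem_PL.mpr (lt_of_lt_of_le hdeg (by exact_mod_cast hmm))
    by_cases hhS : h ∈ S
    · obtain ⟨P, hP, hdvd⟩ := hcov ⟨h, hhS⟩
      obtain ⟨a1, a2, a3, a4⟩ := hPPm P hP
      refine ⟨P, a1, a2, ?_, ?_⟩
      · have : (P.natDegree : ℝ) * Real.log K ≤ E₂ * Real.log K :=
          mul_le_mul_of_nonneg_right (by exact_mod_cast a4) (by linarith)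
        linarith
      · have h1 : A + (g₀ + M * x) + h = M * (x - -(A + g₀ + h) * u P) -
            (A + g₀ + h) * (M * u P - 1) := by ring
        rw [h1]
        exact dvd_sub (Dvd.dvd.mul_left hdvd _) (Dvd.dvd.mul_left (hu P hP) _)
    · have h1 : ∃ P ∈ IrLE F D, P ∣ h - b P := by
        by_contra hcon
        push Not at hcon
        exact hhS (Finset.mem_filter.mpr ⟨hhm, hcon⟩)
      obtain ⟨P, hP, hdvd⟩ := h1
      have hP' := mem_IrLE.mp hP
      refine ⟨P, hP'.1, hP'.2.1, ?_, ?_⟩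
      · have : (P.natDegree : ℝ) * Real.log K ≤ D * Real.log K :=
          mul_le_mul_of_nonneg_right (by exact_mod_cast hP'.2.2) (by linarith)
        linarith
      · have h2 : P ∣ M := Finset.dvd_prod_of_mem _ hP
        have h3 : A + (g₀ + M * x) + h = (A + g₀ + b P) + (h - b P) + M * x := by ring
        rw [h3]
        exact dvd_add (dvd_add (hg0 P hP) hdvd) (Dvd.dvd.mul_right h2 _)

end Pool.Agent.H523.FF
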