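import Pool.Agent.H523.FF6

set_option autoImplicit false
set_option linter.unusedSectionVars false

/-! # Parameters, with one more inequality -/

namespace Pool.Agent.H523.FF

open Polynomial Finset Filter

open scoped Classical

/-- all the numerical facts about the parameters -/
theorem params2 (q : ℕ) (hq : 2 ≤ q) (c : ℝ) (hc : 0 < c) (hc1 : c ≤ 1) (D₁ : ℕ) :
    ∃ K₀ : ℕ, ∀ K : ℕ, K₀ ≤ K → ∃ D m : ℕ, D₁ ≤ D ∧ D ≤ m ∧ m ≤ 2 * D ∧ 1 ≤ D ∧
      (q:ℝ) ^ D ≤ K / 4 ∧ (D:ℝ) * Real.log K ≤ K ∧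
      (∀ m' : ℕ, (q:ℝ) ^ m' ≤ c * GG K → m' ≤ m) ∧
      (q:ℝ) ^ m ≤ (K * Real.log q) ^ 2 ∧
      (q:ℝ) ^ m * (((m - D : ℕ) : ℝ) + 2) * (12 * Real.log D) /
        ((D:ℝ) ^ 2 * Real.log (Real.log D)) ≤ 576 * c * (K * Real.log q) := by
  have hq2 : (2:ℝ) ≤ q := by exact_mod_cast hq
  have hq0 : (0:ℝ) < q := by linarith
  set Q : ℝ := Real.log q with hQ
  have hQ2 : 0.69 < Q := by
    have h1 := Real.log_two_gt_d9
    have h2 : Real.log 2 ≤ Real.log q := Real.log_le_log (by norm_num) hq2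
    rw [hQ]; linarith
  have hQ0 : 0 < Q := by linarith
  have hl4 : Real.log 4 < 1.4 := by
    have h1 := Real.log_two_lt_d9
    have : Real.log 4 = 2 * Real.log 2 := by
      rw [show (4:ℝ) = 2 ^ 2 by norm_num, Real.log_pow]; push_cast; ring
    linarith
  obtain ⟨K₀, hK₀⟩ := ev_K (4 * (q:ℝ) ^ D₁ * q) 0 (max (1.4 + 3 * Q) 6)
    (max (2 * (1.4 + Q)) (max (q / c) (4 * Q ^ 2)))
  refine ⟨max K₀ 4, fun K hK => ?_⟩
  obtain ⟨k1, k2', k3, k4, k5, k6, _⟩ := hK₀ K ((le_max_left _ _).trans hK)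
  have k2 := (le_max_left _ _).trans k2'
  have k26 := (le_max_right _ _).trans k2'
  have hK4 : 4 ≤ K := (le_max_right _ _).trans hK
  have hK4' : (4:ℝ) ≤ K := by exact_mod_cast hK4
  have k3a : 2 * (1.4 + Q) ≤ Real.log K := (le_max_left _ _).trans k3
  have k3b : q / c ≤ Real.log K := (le_max_left _ _).trans ((le_max_right _ _).trans k3)
  have k3c : 4 * Q ^ 2 ≤ Real.log K := (le_max_right _ _).trans ((le_max_right _ _).trans k3)
  set l₁ : ℝ := Real.log K with hl₁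
  set l₂ : ℝ := Real.log l₁ with hl₂
  set l₃ : ℝ := Real.log l₂ with hl₃
  have hK0 : (0:ℝ) < K := by linarith
  have hl10 : 0 < l₁ := by nlinarith
  have hl20 : 0 < l₂ := by nlinarith
  have hl30 : 0 < l₃ := by linarith
  have hl21 : l₂ ≤ l₁ := by
    have := Real.log_le_sub_one_of_pos hl10; rw [hl₂]; linarith
  have hl32 : l₃ ≤ l₂ := by
    have := Real.log_le_sub_one_of_pos hl20; rw [hl₃]; linarith
  -- `D`
  set D : ℕ := Nat.log q (K / 4) with hD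
  have hK4n : K / 4 ≠ 0 := by omega
  have hqD : (q:ℝ) ^ D ≤ K / 4 := by
    have h1 : q ^ D ≤ K / 4 := Nat.pow_log_le_self q hK4n
    have h2 : (4:ℝ) * (q:ℝ) ^ D ≤ K := by
      have h3 : 4 * q ^ D ≤ K := by omega
      exact_mod_cast h3
    linarith
  have hqD' : (K:ℝ) < 4 * q * (q:ℝ) ^ D := by
    have h1 : K / 4 < q ^ (D + 1) := Nat.lt_pow_succ_log_self (by omega) _
    have h2 : K < 4 * q ^ (D + 1) := by omega
    have h3 : (K:ℝ) < 4 * (q:ℝ) ^ (D + 1) := by exact_mod_cast h2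
    rw [pow_succ] at h3
    linarith
  have hDD1 : D₁ ≤ D := by
    by_contra hcon
    push Not at hcon
    have h1 : (q:ℝ) ^ D ≤ (q:ℝ) ^ D₁ := pow_le_pow_right₀ (by linarith) hcon.le
    have : (4:ℝ) * q * (q:ℝ) ^ D ≤ 4 * (q:ℝ) ^ D₁ * q := by nlinarith
    linarith
  -- size of `D`
  have hDQ : (D:ℝ) * Q ≤ l₁ := by
    have h1 := Real.log_le_log (by positivity) hqD
    rw [Real.log_pow, Real.log_div (by linarith) (by norm_num)] at h1
    have : 0 < Real.log 4 := Real.log_pos (by norm_num)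
    rw [hl₁, hQ]; linarith
  have hDQ' : l₁ / 2 ≤ (D:ℝ) * Q := by
    have h1 := Real.log_lt_log hK0 hqD'
    rw [Real.log_mul (by positivity) (by positivity), Real.log_mul (by norm_num) (by positivity),
      Real.log_pow] at h1
    have : l₁ < Real.log 4 + Q + D * Q := h1
    linarith
  have hD2 : (D:ℝ) ≤ 2 * l₁ := by
    have : (D:ℝ) * 0.69 ≤ D * Q := mul_le_mul_of_nonneg_left hQ2.le (Nat.cast_nonneg _)
    linarith
  have hDpos : (0:ℝ) < D := by
    by_contra hcon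
    push Not at hcon
    have : (D:ℝ) * Q ≤ 0 := by nlinarith
    linarith
  have hD1 : 1 ≤ D := by
    have : 0 < D := by exact_mod_cast hDpos
    omega
  have hDsq : l₁ ≤ (D:ℝ) ^ 2 := by
    -- `D ≥ l₁/(2Q)`, `l₁ ≥ 4 Q²`
    have h1 : l₁ ^ 2 / 4 ≤ ((D:ℝ) * Q) ^ 2 := by
      have : l₁ ^ 2 / 4 = (l₁ / 2) ^ 2 := by ring
      rw [this]
      exact pow_le_pow_left₀ (by positivity) hDQ' 2
    have h2 : l₁ * (4 * Q ^ 2) ≤ l₁ * l₁ := mul_le_mul_of_nonneg_left k3c hl10.le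
    have h3 : l₁ * Q ^ 2 ≤ (D:ℝ) ^ 2 * Q ^ 2 := by nlinarith
    exact le_of_mul_le_mul_right h3 (by positivity)
  have hlogD1 : Real.log D ≤ 2 * l₂ := by
    have h1 := Real.log_le_log hDpos hD2
    rw [Real.log_mul (by norm_num) (by positivity)] at h1
    have h2 := Real.log_two_lt_d9
    have h3 : (1:ℝ) ≤ l₂ := by linarith
    have h4 : Real.log D ≤ Real.log 2 + l₂ := h1
    linarith
  have hlogD2 : l₂ / 2 ≤ Real.log D := by
    have h1 := Real.log_le_log hl10 hDsq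
    rw [Real.log_pow] at h1
    push_cast at h1
    have : l₂ ≤ 2 * Real.log D := h1
    linarith
  have hllD : l₃ / 2 ≤ Real.log (Real.log D) := by
    have h1 := Real.log_le_log (by positivity) hlogD2
    rw [Real.log_div (by positivity) (by norm_num)] at h1
    have h2 := Real.log_two_lt_d9
    have : l₃ - Real.log 2 ≤ Real.log (Real.log D) := h1
    linarith
  -- `m`
  have hG0 : 0 < GG K := by unfold GG; positivity
  have hGK : (K:ℝ) * l₁ ≤ GG K := by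
    show (K:ℝ) * l₁ ≤ K * l₁ ^ 2 * l₃ / l₂ ^ 2
    rw [le_div_iff₀ (by positivity)]
    have : K * l₁ * l₂ ^ 2 ≤ K * l₁ * l₁ := mul_le_mul_of_nonneg_left k4 (by positivity)
    have h2 : K * l₁ * l₁ * 1 ≤ K * l₁ * l₁ * l₃ :=
      mul_le_mul_of_nonneg_left (by linarith) (by positivity)
    nlinarith
  have hGK2 : GG K ≤ K * l₁ ^ 2 := by
    show K * l₁ ^ 2 * l₃ / l₂ ^ 2 ≤ K * l₁ ^ 2
    rw [div_le_iff₀ (by positivity)]
    apply mul_le_mul_of_nonneg_left _ (by positivity)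
    nlinarith
  have hcG1 : 1 ≤ c * GG K := by
    have h1 : c * (K * l₁) ≤ c * GG K := mul_le_mul_of_nonneg_left hGK hc.le
    have h2 : (q:ℝ) ≤ l₁ * c := by rwa [div_le_iff₀ hc] at k3b
    nlinarith
  set m : ℕ := Nat.log q ⌊c * GG K⌋₊ with hm
  have hfl : ⌊c * GG K⌋₊ ≠ 0 := by
    have : 1 ≤ ⌊c * GG K⌋₊ := Nat.le_floor (by simpa using hcG1)
    omega
  have hm1 : (q:ℝ) ^ m ≤ c * GG K := by
    have h1 : q ^ m ≤ ⌊c * GG K⌋₊ := Nat.pow_log_le_self q hfl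
    calc (q:ℝ) ^ m ≤ (⌊c * GG K⌋₊ : ℝ) := by exact_mod_cast h1
      _ ≤ c * GG K := Nat.floor_le (by linarith)
  have hm2 : ∀ m' : ℕ, (q:ℝ) ^ m' ≤ c * GG K → m' ≤ m := by
    intro m' hm'
    apply Nat.le_log_of_pow_le (by omega)
    apply Nat.le_floor
    push_cast
    exact hm'
  have hDm : D ≤ m := by
    apply hm2
    refine hqD.trans ?_
    have h1 : c * (K * l₁) ≤ c * GG K := mul_le_mul_of_nonneg_left hGK hc.le
    have h2 : (q:ℝ) ≤ l₁ * c := by rwa [div_le_iff₀ hc] at k3b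
    nlinarith
  have hmD : (((m - D : ℕ) : ℝ) + 2) * Q ≤ 3 * l₂ := by
    have h1 : (q:ℝ) ^ (m - D) ≤ 4 * q * l₁ ^ 2 := by
      have h2 : (q:ℝ) ^ m = q ^ (m - D) * q ^ D := by
        rw [← pow_add]; congr 1; omega
      have h3 : (q:ℝ) ^ m ≤ K * l₁ ^ 2 := by
        refine hm1.trans ?_
        have : c * GG K ≤ 1 * GG K := mul_le_mul_of_nonneg_right hc1 hG0.le
        linarith
      rw [h2] at h3
      have h4 : (K:ℝ) * l₁ ^ 2 ≤ (4 * q * (q:ℝ) ^ D) * l₁ ^ 2 :=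
        mul_le_mul_of_nonneg_right hqD'.le (by positivity)
      have h5 : (q:ℝ) ^ (m - D) * q ^ D ≤ (4 * q * l₁ ^ 2) * q ^ D := by
        refine (h3.trans h4).trans (le_of_eq ?_)
        ring
      exact le_of_mul_le_mul_right h5 (by positivity)
    have h2 := Real.log_le_log (by positivity) h1
    rw [Real.log_pow, Real.log_mul (by positivity) (by positivity),
      Real.log_mul (by norm_num) (by positivity), Real.log_pow] at h2
    push_cast at h2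
    have h3 : ((m - D : ℕ) : ℝ) * Q ≤ Real.log 4 + Q + 2 * l₂ := h2
    linarith
  have hm2D : m ≤ 2 * D := by
    have h1 : ((m - D : ℕ) : ℝ) * Q ≤ D * Q := by
      have e1 : 6 * l₂ ≤ l₁ := by nlinarith
      have e2 : (((m - D : ℕ) : ℝ) + 2) * Q = ((m - D : ℕ) : ℝ) * Q + 2 * Q := by ring
      linarith
    have h2 := le_of_mul_le_mul_right h1 hQ0
    have h3 : m - D ≤ D := by exact_mod_cast h2
    omega
  refine ⟨D, m, hDD1, hDm, hm2D, hD1, hqD, ?_, hm2, ?_, ?_⟩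
  · calc (D:ℝ) * l₁ ≤ 2 * l₁ * l₁ := mul_le_mul_of_nonneg_right hD2 hl10.le
      _ ≤ K := by nlinarith
  · have h1 : (q:ℝ) ^ m ≤ K * l₁ ^ 2 := by
      refine hm1.trans ?_
      have : c * GG K ≤ 1 * GG K := mul_le_mul_of_nonneg_right hc1 hG0.le
      linarith
    have h2 : l₁ ^ 2 ≤ K * Q ^ 2 := by
      have hQsq : 1 / 4 ≤ Q ^ 2 := by nlinarith
      have : (K:ℝ) * (1 / 4) ≤ K * Q ^ 2 := mul_le_mul_of_nonneg_left hQsq hK0.le
      linarith
    calc (q:ℝ) ^ m ≤ K * l₁ ^ 2 := h1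
      _ ≤ K * (K * Q ^ 2) := mul_le_mul_of_nonneg_left h2 hK0.le
      _ = (K * Q) ^ 2 := by ring
  · -- the final estimate
    have hD24 : l₁ ^ 2 / (4 * Q ^ 2) ≤ (D:ℝ) ^ 2 := by
      rw [div_le_iff₀ (by positivity)]
      have : l₁ ^ 2 / 4 ≤ ((D:ℝ) * Q) ^ 2 := by
        have : l₁ ^ 2 / 4 = (l₁ / 2) ^ 2 := by ring
        rw [this]
        exact pow_le_pow_left₀ (by positivity) hDQ' 2
      nlinarith
    have hden : l₁ ^ 2 / (4 * Q ^ 2) * (l₃ / 2) ≤ (D:ℝ) ^ 2 * Real.log (Real.log D) :=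
      mul_le_mul hD24 hllD (by positivity) (by positivity)
    have hden0 : 0 < l₁ ^ 2 / (4 * Q ^ 2) * (l₃ / 2) := by positivity
    have hnum : (q:ℝ) ^ m * (((m - D : ℕ) : ℝ) + 2) * (12 * Real.log D) ≤
        (c * GG K) * (3 * l₂ / Q) * (12 * (2 * l₂)) := by
      have a1 : (((m - D : ℕ) : ℝ) + 2) ≤ 3 * l₂ / Q := by rwa [le_div_iff₀ hQ0]
      have a2 : (12 * Real.log D) ≤ 12 * (2 * l₂) := by linarith
      have a3 : 0 ≤ Real.log D := by linarith
      have a4 : 0 ≤ c * GG K := by linarith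
      apply mul_le_mul (mul_le_mul hm1 a1 (by positivity) a4) a2 (by positivity) (by positivity)
    calc (q:ℝ) ^ m * (((m - D : ℕ) : ℝ) + 2) * (12 * Real.log D) /
          ((D:ℝ) ^ 2 * Real.log (Real.log D))
        ≤ ((c * GG K) * (3 * l₂ / Q) * (12 * (2 * l₂))) / (l₁ ^ 2 / (4 * Q ^ 2) * (l₃ / 2)) :=
          div_le_div₀ (by positivity) hnum hden0 hden
      _ = 576 * c * (K * Q) := by
          show ((c * (K * l₁ ^ 2 * l₃ / l₂ ^ 2)) * (3 * l₂ / Q) * (12 * (2 * l₂))) /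
            (l₁ ^ 2 / (4 * Q ^ 2) * (l₃ / 2)) = _
          field_simp
          ring


end Pool.Agent.H523.FF
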