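import Pool.Agent.H523.FF5

set_option autoImplicit false
set_option linter.unusedSectionVars false

/-! # Survivors of the small primes, one of them prescribed to be spared -/

namespace Pool.Agent.H523.FF

open Polynomial Finset Filter

open scoped Classical

section
variable {F : Type} [Field F] [Fintype F]

/-- greedy choice of residue classes that spare `s₀` -/
theorem greedy3 (S : Finset F[X]) (s₀ : F[X]) (T : Finset F[X])
    (hT : ∀ P ∈ T, P.Monic ∧ Irreducible P) : ∀ w : F[X] → ℝ, (∀ h ∈ S, 0 ≤ w h) →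
    ∃ b : F[X] → F[X], (∀ P ∈ T, ¬ P ∣ s₀ - b P) ∧
      ∑ h ∈ S.filter (fun h => ∀ P ∈ T, ¬ P ∣ h - b P), w h ≤
        ∑ h ∈ S, w h * ∏ P ∈ T,
          (if P ∣ h - s₀ then 1 else 1 - 1 / ((Fintype.card F : ℝ) ^ P.natDegree - 1)) := by
  have hq := two_le_card (F := F)
  set q : ℝ := (Fintype.card F : ℝ) with hqd
  have hphi0 : ∀ P : F[X], Irreducible P → (0:ℝ) ≤ 1 - 1 / (q ^ P.natDegree - 1) := by
    intro P hP
    have h1 : q ^ 1 ≤ q ^ P.natDegree := pow_le_pow_right₀ (by linarith) hP.natDegree_pos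
    rw [pow_one] at h1
    rw [sub_nonneg, div_le_one (by linarith)]
    linarith
  induction T using Finset.induction_on with
  | empty =>
    intro w _
    exact ⟨fun _ => 0, by simp, by simp⟩
  | insert P T hPT ih =>
    intro w hw
    have hP := hT P (Finset.mem_insert_self _ _)
    set φ : F[X] → ℝ := fun h => if P ∣ h - s₀ then 1 else 1 - 1 / (q ^ P.natDegree - 1) with hφ
    have hφ0 : ∀ h, 0 ≤ φ h := by
      intro h
      rw [hφ]
      simp only
      split_ifs
      · exact zero_le_one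
      · exact hphi0 P hP.2
    obtain ⟨b, hb1, hb2⟩ := ih (fun Q hQ => hT Q (Finset.mem_insert_of_mem hQ))
      (fun h => w h * φ h) (fun h hh => mul_nonneg (hw h hh) (hφ0 h))
    set S' := S.filter (fun h => ∀ Q ∈ T, ¬ Q ∣ h - b Q) with hS'
    set R : Finset F[X] := (PL F P.natDegree).filter (fun r => ¬ P ∣ s₀ - r) with hR
    have hsingle : ∀ h : F[X], ((PL F P.natDegree).filter (fun r => P ∣ h - r)).card = 1 := by
      intro h
      rw [Finset.card_eq_one]
      refine ⟨h %ₘ P, ?_⟩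
      ext r
      rw [Finset.mem_filter, Finset.mem_singleton, mem_PL, ← degree_eq_natDegree hP.1.ne_zero]
      constructor
      · rintro ⟨h1, h2⟩
        rw [← (modByMonic_eq_self_iff hP.1).mpr h1]
        apply modByMonic_eq_of_dvd_sub hP.1
        have := (dvd_neg (a := P)).mpr h2
        rwa [neg_sub] at this
      · rintro rfl
        refine ⟨degree_modByMonic_lt h hP.1, ?_⟩
        have h3 := modByMonic_add_div h P
        exact ⟨h /ₘ P, by linear_combination -h3⟩
    have hRc : (R.card : ℝ) = q ^ P.natDegree - 1 := by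
      have h1 := Finset.card_filter_add_card_filter_not (s := PL F P.natDegree)
        (fun r => P ∣ s₀ - r)
      rw [hsingle s₀, card_PL] at h1
      have h2 : ((1 + R.card : ℕ) : ℝ) = ((Fintype.card F ^ P.natDegree : ℕ) : ℝ) := by
        exact_mod_cast h1
      push_cast at h2
      linarith
    have hq1 : q ^ 1 ≤ q ^ P.natDegree := pow_le_pow_right₀ (by linarith) hP.2.natDegree_pos
    rw [pow_one] at hq1
    have hRpos : (0:ℝ) < R.card := by rw [hRc]; linarith
    have hRne : R.Nonempty := by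
      rw [← Finset.card_pos]; exact_mod_cast hRpos
    have hcnt : ∀ h : F[X], ((R.filter (fun r => ¬ P ∣ h - r)).card : ℝ) = R.card * φ h := by
      intro h
      by_cases hh : P ∣ h - s₀
      · have h1 : R.filter (fun r => ¬ P ∣ h - r) = R := by
          apply Finset.filter_true_of_mem
          intro r hr hd
          rw [hR, Finset.mem_filter] at hr
          apply hr.2
          have := dvd_sub hd hh
          rwa [sub_sub_sub_cancel_left] at this
        rw [h1, hφ]
        simp only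
        rw [if_pos hh, mul_one]
      · have h1 := Finset.card_filter_add_card_filter_not (s := R) (fun r => P ∣ h - r)
        have h2 : (R.filter (fun r => P ∣ h - r)).card = 1 := by
          rw [← hsingle h]
          congr 1
          ext r
          rw [hR, Finset.mem_filter, Finset.mem_filter, Finset.mem_filter]
          constructor
          · rintro ⟨⟨a1, _⟩, a3⟩
            exact ⟨a1, a3⟩
          · rintro ⟨a1, a3⟩
            refine ⟨⟨a1, fun a2 => hh ?_⟩, a3⟩
            have := dvd_sub a3 a2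
            rwa [sub_sub_sub_cancel_right] at this
        have h3 : (1:ℝ) + ((R.filter (fun r => ¬ P ∣ h - r)).card : ℝ) = R.card := by
          rw [h2] at h1
          exact_mod_cast h1
        rw [hφ]
        simp only
        rw [if_neg hh]
        have h4 : (R.card : ℝ) * (1 - 1 / (q ^ P.natDegree - 1)) = R.card - 1 := by
          rw [hRc]
          have : q ^ P.natDegree - 1 ≠ 0 := by linarith
          field_simp
        rw [h4]
        linarith
    have hsum : ∑ r ∈ R, ∑ h ∈ S'.filter (fun h => ¬ P ∣ h - r), w h ≤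
        ∑ r ∈ R, ∑ h ∈ S', w h * φ h := by
      apply le_of_eq
      rw [Finset.sum_const, nsmul_eq_mul, Finset.mul_sum]
      calc ∑ r ∈ R, ∑ h ∈ S'.filter (fun h => ¬ P ∣ h - r), w h
          = ∑ r ∈ R, ∑ h ∈ S', (if ¬ P ∣ h - r then w h else 0) :=
            Finset.sum_congr rfl (fun r _ => Finset.sum_filter _ _)
        _ = ∑ h ∈ S', ∑ r ∈ R, (if ¬ P ∣ h - r then w h else 0) := Finset.sum_comm
        _ = ∑ h ∈ S', (R.card : ℝ) * (w h * φ h) := by
            refine Finset.sum_congr rfl (fun h _ => ?_)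
            rw [← Finset.sum_filter, Finset.sum_const, nsmul_eq_mul, hcnt h]
            ring
    obtain ⟨r, hr, hrs⟩ := Finset.exists_le_of_sum_le hRne hsum
    refine ⟨Function.update b P r, ?_, ?_⟩
    · intro Q hQ
      rcases Finset.mem_insert.mp hQ with rfl | hQ'
      · rw [Function.update_self]
        exact (Finset.mem_filter.mp hr).2
      · rw [Function.update_of_ne (by rintro rfl; exact hPT hQ')]
        exact hb1 Q hQ'
    · have heq : S.filter (fun h => ∀ Q ∈ insert P T, ¬ Q ∣ h - Function.update b P r Q) =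
          S'.filter (fun h => ¬ P ∣ h - r) := by
        ext h
        rw [Finset.mem_filter, Finset.mem_filter, hS', Finset.mem_filter]
        constructor
        · rintro ⟨h1, h2⟩
          refine ⟨⟨h1, fun Q hQ => ?_⟩, ?_⟩
          · have := h2 Q (Finset.mem_insert_of_mem hQ)
            rwa [Function.update_of_ne (by rintro rfl; exact hPT hQ)] at this
          · have := h2 P (Finset.mem_insert_self _ _)
            rwa [Function.update_self] at this
        · rintro ⟨⟨h1, h2⟩, h3⟩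
          refine ⟨h1, fun Q hQ => ?_⟩
          rcases Finset.mem_insert.mp hQ with rfl | hQ'
          · rw [Function.update_self]; exact h3
          · rw [Function.update_of_ne (by rintro rfl; exact hPT hQ')]
            exact h2 Q hQ'
      rw [heq]
      refine hrs.trans (hb2.trans (le_of_eq ?_))
      refine Finset.sum_congr rfl (fun h _ => ?_)
      rw [Finset.prod_insert hPT]
      ring


theorem ev_D2 : ∃ D₁ : ℕ, ∀ D : ℕ, D₁ ≤ D → 96 * (Real.log D) ^ 2 ≤ D := by
  have e1 := (Real.isLittleO_pow_log_id_atTop (n := 2)).comp_tendsto tendsto_natCast_atTop_atTop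
  have e2 := e1.def (show (0:ℝ) < 1 / 96 by norm_num)
  obtain ⟨D₁, h⟩ := Filter.eventually_atTop.mp e2
  refine ⟨D₁, fun D hD => ?_⟩
  have h1 := h D hD
  simp only [Function.comp_apply, id] at h1
  rw [Real.norm_eq_abs, abs_of_nonneg (by positivity), Real.norm_eq_abs,
    abs_of_nonneg (by positivity)] at h1
  linarith

variable (F) in
/-- the first stage of the sieve by small primes -/
theorem stage1 : ∃ D₁ : ℕ, ∀ D : ℕ, D₁ ≤ D → ∀ m : ℕ, D ≤ m → ∃ D₀ : ℕ, 1 ≤ D₀ ∧ D₀ ≤ D ∧
    (((PL F m).filter (fun h => ∀ P : F[X], P.Monic → Irreducible P →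
      D₀ < P.natDegree → P.natDegree ≤ D → ¬ P ∣ h)).card : ℝ) ≤
        (Fintype.card F : ℝ) ^ m * (((m - D : ℕ) : ℝ) + 2) / D ∧
    ∏ P ∈ IrLE F D₀, (1 - ((Fintype.card F : ℝ)⁻¹) ^ P.natDegree) ≤ 12 * Real.log D /
      (D * Real.log (Real.log D)) ∧ 2 * (D:ℝ) ^ 3 ≤ 2 ^ D₀ ∧ 0 < Real.log D ∧
      0 < Real.log (Real.log D) ∧ Real.log (Real.log D) ≤ Real.log D ∧ 10 ≤ D := by
  have hq := two_le_card (F := F)
  set q : ℝ := (Fintype.card F : ℝ) with hqd
  have hq0 : 0 < q := by linarith
  obtain ⟨D₁, hD₁⟩ := ev_D (Real.log q)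
  obtain ⟨D₂, hD₂⟩ := ev_D2
  refine ⟨max D₁ (max D₂ 10), fun D hD m hDm => ?_⟩
  obtain ⟨f1, f2, f3, f4⟩ := hD₁ D ((le_max_left _ _).trans hD)
  have f5 := hD₂ D ((le_max_left _ _).trans ((le_max_right _ _).trans hD))
  have hD10 : 10 ≤ D := (le_max_right _ _).trans ((le_max_right _ _).trans hD)
  have hD1 : 1 ≤ D := by omega
  have hD0 : (0:ℝ) < D := by exact_mod_cast hD1
  have hlD : 0 < Real.log D := by linarith
  have hllD : 0 < Real.log (Real.log D) := by linarith
  set a : ℝ := D * Real.log (Real.log D) / (12 * Real.log D) with ha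
  have ha4 : 4 * Real.log (Real.log D) ≤ a := by
    rw [ha, le_div_iff₀ (by positivity)]
    nlinarith
  set D₀ : ℕ := ⌊a⌋₊ with hD₀
  have ha0 : 0 < a := by linarith
  have hD0a : (D₀:ℝ) ≤ a := Nat.floor_le ha0.le
  have hD0a' : a < D₀ + 1 := Nat.lt_floor_add_one a
  have hD0r : 2 * Real.log (Real.log D) ≤ (D₀:ℝ) := by linarith
  have hD01 : 1 ≤ D₀ := by
    have : (1:ℝ) ≤ D₀ := by linarith
    exact_mod_cast this
  have hD00 : (0:ℝ) < D₀ := by exact_mod_cast hD01
  have haD : a ≤ D := by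
    rw [ha, div_le_iff₀ (by positivity)]
    have : Real.log (Real.log D) ≤ Real.log D := by
      have := Real.log_le_sub_one_of_pos hlD
      linarith
    nlinarith
  set s : ℝ := Real.sqrt (Real.log D) with hs
  have hs1 : 1 ≤ s := by
    rw [hs, show (1:ℝ) = Real.sqrt 1 by rw [Real.sqrt_one]]
    exact Real.sqrt_le_sqrt f4
  have hs0 : 0 < s := by linarith
  have hls : Real.log s = Real.log (Real.log D) / 2 := Real.log_sqrt hlD.le
  have hs2 : s ^ ((1:ℝ) / D₀) ≤ 4 / 3 := by
    rw [Real.rpow_def_of_pos hs0, hls]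
    have e1 : Real.log (Real.log D) / 2 * (1 / D₀) ≤ 1 / 4 := by
      rw [mul_one_div, div_le_iff₀ hD00]
      linarith
    have e2 : (1:ℝ) / 4 ≤ Real.log (4 / 3) := by
      have := Real.one_sub_inv_le_log_of_pos (show (0:ℝ) < 4 / 3 by norm_num)
      norm_num at this ⊢
      exact this
    calc Real.exp (Real.log (Real.log D) / 2 * (1 / D₀)) ≤ Real.exp (Real.log (4 / 3)) :=
          Real.exp_le_exp.mpr (by linarith)
      _ = 4 / 3 := Real.exp_log (by norm_num)
  have hsm := smooth_count (F := F) D₀ m hD01 s hs1 hs2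
  rw [← hqd] at hsm
  have hexp : 3 * (1 + Real.log D₀ + s) - (m / D₀) * Real.log s ≤ -Real.log D - Real.log q := by
    have e1 : Real.log D₀ ≤ Real.log D := Real.log_le_log hD00 (hD0a.trans haD)
    have e2 : 6 * Real.log D ≤ (m / D₀) * Real.log s := by
      have e3 : (D:ℝ) / a ≤ m / D₀ :=
        div_le_div₀ (by positivity) (by exact_mod_cast hDm) hD00 hD0a
      have e4 : (D:ℝ) / a = 12 * Real.log D / Real.log (Real.log D) := by
        rw [ha]; field_simp
      rw [hls]
      calc 6 * Real.log D = (12 * Real.log D / Real.log (Real.log D)) *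
            (Real.log (Real.log D) / 2) := by field_simp; ring
        _ ≤ (m / D₀) * (Real.log (Real.log D) / 2) := by
            rw [← e4]
            exact mul_le_mul_of_nonneg_right e3 (by positivity)
    linarith
  have hsm2 : (((PL F m).filter (fun h => h ≠ 0 ∧ ∀ P : F[X], P.Monic → Irreducible P → P ∣ h →
      P.natDegree ≤ D₀)).card : ℝ) ≤ q ^ m / D := by
    refine hsm.trans ?_
    calc q ^ (m + 1) * Real.exp (3 * (1 + Real.log D₀ + s) - (m / D₀) * Real.log s)
        ≤ q ^ (m + 1) * Real.exp (-Real.log D - Real.log q) :=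
          mul_le_mul_of_nonneg_left (Real.exp_le_exp.mpr hexp) (by positivity)
      _ = q ^ m / D := by
          rw [sub_eq_add_neg, Real.exp_add, Real.exp_neg, Real.exp_neg, Real.exp_log hD0,
            Real.exp_log hq0, pow_succ]
          field_simp
  have hlg := large_count (F := F) D m hD1
  rw [← hqd] at hlg
  -- the first stage
  set S₁ : Finset F[X] := (PL F m).filter (fun h => ∀ P : F[X], P.Monic → Irreducible P →
    D₀ < P.natDegree → P.natDegree ≤ D → ¬ P ∣ h) with hS₁
  have hS1 : (S₁.card : ℝ) ≤ q ^ m * (((m - D : ℕ) : ℝ) + 2) / D := by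
    have hsub : S₁ ⊆ {0} ∪ ((PL F m).filter (fun h => h ≠ 0 ∧ ∀ P : F[X], P.Monic →
        Irreducible P → P ∣ h → P.natDegree ≤ D₀) ∪
        ((Finset.Ioo D m).biUnion (Ir F)).biUnion (fun Q => (PL F m).filter (fun h => Q ∣ h))) := by
      intro h hh
      rw [hS₁, Finset.mem_filter] at hh
      obtain ⟨g1, g2⟩ := hh
      rw [Finset.mem_union, Finset.mem_union, Finset.mem_singleton, Finset.mem_filter,
        Finset.mem_biUnion]
      by_cases h0 : h = 0
      · exact Or.inl h0
      · right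
        by_cases hsmo : ∀ P : F[X], P.Monic → Irreducible P → P ∣ h → P.natDegree ≤ D₀
        · exact Or.inl ⟨g1, h0, hsmo⟩
        · right
          push Not at hsmo
          obtain ⟨P, hP1, hP2, hP3, hP4⟩ := hsmo
          have hP5 : D < P.natDegree := by
            by_contra hc
            push Not at hc
            exact g2 P hP1 hP2 hP4 hc hP3
          have hP6 : P.natDegree < m := by
            have k1 := natDegree_le_of_dvd hP3 h0
            have k2 := (natDegree_lt_iff_degree_lt h0).mpr (mem_PL.mp g1)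
            omega
          refine ⟨P, Finset.mem_biUnion.mpr ⟨P.natDegree, Finset.mem_Ioo.mpr ⟨hP5, hP6⟩,
            mem_Ir.mpr ⟨hP1, hP2, rfl⟩⟩, Finset.mem_filter.mpr ⟨g1, hP3⟩⟩
    have hc1 := Finset.card_le_card hsub
    have hc2 := (Finset.card_union_le _ _).trans
      (add_le_add_right (Finset.card_union_le ((PL F m).filter (fun h => h ≠ 0 ∧ ∀ P : F[X],
        P.Monic → Irreducible P → P ∣ h → P.natDegree ≤ D₀))
        (((Finset.Ioo D m).biUnion (Ir F)).biUnion (fun Q => (PL F m).filter (fun h => Q ∣ h))))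
        ({0} : Finset F[X]).card)
    have hc3 : (S₁.card : ℝ) ≤ 1 + (((PL F m).filter (fun h => h ≠ 0 ∧ ∀ P : F[X], P.Monic →
        Irreducible P → P ∣ h → P.natDegree ≤ D₀)).card +
        (((Finset.Ioo D m).biUnion (Ir F)).biUnion
          (fun Q => (PL F m).filter (fun h => Q ∣ h))).card) := by
      have := hc1.trans hc2
      rw [Finset.card_singleton] at this
      exact_mod_cast this
    have h1D : 1 ≤ q ^ m / D := by
      rw [le_div_iff₀ hD0, one_mul]
      have k1 : (D:ℝ) < 2 ^ D := by exact_mod_cast D.lt_two_pow_self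
      have k2 : (2:ℝ) ^ D ≤ q ^ D := pow_le_pow_left₀ (by norm_num) hq D
      have k3 : q ^ D ≤ q ^ m := pow_le_pow_right₀ (by linarith) hDm
      linarith
    calc (S₁.card : ℝ) ≤ q ^ m / D + (q ^ m / D + q ^ m * ((m - D : ℕ) / D)) := by linarith
      _ = q ^ m * (((m - D : ℕ) : ℝ) + 2) / D := by field_simp; ring
  have hprod : ∏ P ∈ IrLE F D₀, (1 - (q⁻¹) ^ P.natDegree) ≤ 12 * Real.log D /
      (D * Real.log (Real.log D)) := by
    have hm := mertens_lower F D₀
    rw [← hqd] at hm
    rw [Finset.prod_inv_distrib] at hm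
    have hpos : 0 < ∏ P ∈ IrLE F D₀, (1 - (q⁻¹) ^ P.natDegree) := by
      apply Finset.prod_pos
      intro P hP
      have hP := mem_IrLE.mp hP
      have : (q⁻¹) ^ P.natDegree < 1 :=
        pow_lt_one₀ (by positivity) (inv_lt_one_of_one_lt₀ (by linarith)) hP.2.1.natDegree_pos.ne'
      linarith
    have h1 : a ≤ (∏ P ∈ IrLE F D₀, (1 - (q⁻¹) ^ P.natDegree))⁻¹ := by linarith
    have h2 : ∏ P ∈ IrLE F D₀, (1 - (q⁻¹) ^ P.natDegree) ≤ a⁻¹ := by
      rw [← inv_inv (∏ P ∈ IrLE F D₀, (1 - (q⁻¹) ^ P.natDegree))]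
      exact inv_anti₀ ha0 h1
    refine h2.trans (le_of_eq ?_)
    rw [ha, inv_div]
  have hDD : D₀ ≤ D := by
    have : (D₀:ℝ) ≤ D := hD0a.trans haD
    exact_mod_cast this
  have hllle : Real.log (Real.log D) ≤ Real.log D := by
    have := Real.log_le_sub_one_of_pos hlD
    linarith
  refine ⟨D₀, hD01, hDD, hS1, hprod, ?_, hlD, hllD, hllle, hD10⟩
  -- `2 D³ ≤ 2 ^ D₀`
  have h8a : 8 * Real.log D ≤ a := by
    rw [ha, le_div_iff₀ (by positivity)]
    nlinarith
  have h2 : (2:ℝ) ^ D₀ = Real.exp (D₀ * Real.log 2) := by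
    rw [mul_comm, Real.exp_mul, Real.exp_log (by norm_num), Real.rpow_natCast]
  have h3 : 2 * (D:ℝ) ^ 3 = Real.exp (Real.log 2 + 3 * Real.log D) := by
    rw [Real.exp_add, Real.exp_log (by norm_num), mul_comm 3, Real.exp_mul, Real.exp_log hD0]
    norm_num
  rw [h2, h3]
  apply Real.exp_le_exp.mpr
  have h4 := Real.log_two_gt_d9
  have h5 := Real.log_two_lt_d9
  have h6 : (8 * Real.log D - 1) * Real.log 2 ≤ D₀ * Real.log 2 :=
    mul_le_mul_of_nonneg_right (by linarith) (by linarith)
  nlinarith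


/-- the weight of the primes dividing `w` -/
noncomputable def psi (T : Finset F[X]) (w : F[X]) : ℝ :=
  ∏ P ∈ T, (if P ∣ w then 1 + 2 * ((Fintype.card F : ℝ)⁻¹) ^ P.natDegree else 1)

lemma psi_nonneg (T : Finset F[X]) (w : F[X]) : 0 ≤ psi T w := by
  have hq := two_le_card (F := F)
  unfold psi
  apply Finset.prod_nonneg
  intro P _
  split_ifs
  · positivity
  · exact zero_le_one

lemma card_dvd_le (m : ℕ) (Q : F[X]) (hQ : Q.Monic) :
    (((PL F m).filter (fun h => Q ∣ h)).card : ℝ) ≤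
      (Fintype.card F : ℝ) ^ m * ((Fintype.card F : ℝ)⁻¹) ^ Q.natDegree + 1 := by
  have hq := two_le_card (F := F)
  set q : ℝ := (Fintype.card F : ℝ) with hqd
  have hq0 : 0 < q := by linarith
  rcases le_or_gt Q.natDegree m with h | h
  · rw [card_dvd Q hQ m h]
    push_cast
    rw [← hqd]
    have : q ^ (m - Q.natDegree) = q ^ m * (q⁻¹) ^ Q.natDegree := by
      rw [inv_pow, ← div_eq_mul_inv, eq_div_iff (by positivity), ← pow_add]
      congr 1
      omega
    rw [this]
    linarith
  · have h1 : (PL F m).filter (fun h => Q ∣ h) ⊆ {0} := by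
      intro x hx
      rw [Finset.mem_filter, mem_PL] at hx
      rw [Finset.mem_singleton]
      by_contra hx0
      have h2 := natDegree_le_of_dvd hx.2 hx0
      have h3 := (natDegree_lt_iff_degree_lt hx0).mpr hx.1
      omega
    have h2 := Finset.card_le_card h1
    rw [Finset.card_singleton] at h2
    have h3 : (((PL F m).filter (fun h => Q ∣ h)).card : ℝ) ≤ 1 := by exact_mod_cast h2
    have : 0 ≤ q ^ m * (q⁻¹) ^ Q.natDegree := by positivity
    linarith

theorem sum_psi (T : Finset F[X]) (hT : ∀ P ∈ T, P.Monic ∧ Irreducible P) (m : ℕ) :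
    ∑ w ∈ PL F m, psi T w ≤
      (Fintype.card F : ℝ) ^ m * ∏ P ∈ T, (1 + 2 * (((Fintype.card F : ℝ)⁻¹) ^ P.natDegree) ^ 2) +
        ∏ P ∈ T, (1 + 2 * ((Fintype.card F : ℝ)⁻¹) ^ P.natDegree) := by
  have hq := two_le_card (F := F)
  set q : ℝ := (Fintype.card F : ℝ) with hqd
  have hq0 : 0 < q := by linarith
  have h1 : ∀ w : F[X], psi T w = ∑ s ∈ T.powerset, (if ∀ P ∈ s, P ∣ w then
      ∏ P ∈ s, (2 * (q⁻¹) ^ P.natDegree) else 0) := by
    intro w
    unfold psi
    rw [← hqd]
    have : ∀ P ∈ T, (if P ∣ w then 1 + 2 * (q⁻¹) ^ P.natDegree else 1) =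
        1 + (if P ∣ w then 2 * (q⁻¹) ^ P.natDegree else 0) := by
      intro P _
      split_ifs
      · rfl
      · rw [add_zero]
    rw [Finset.prod_congr rfl this, Finset.prod_one_add]
    refine Finset.sum_congr rfl (fun s _ => ?_)
    split_ifs with h
    · exact Finset.prod_congr rfl (fun P hP => if_pos (h P hP))
    · push Not at h
      obtain ⟨P, hP, hPw⟩ := h
      exact Finset.prod_eq_zero hP (if_neg hPw)
  rw [Finset.sum_congr rfl (fun w _ => h1 w), Finset.sum_comm, Finset.prod_one_add,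
    Finset.prod_one_add, Finset.mul_sum, ← Finset.sum_add_distrib]
  apply Finset.sum_le_sum
  intro s hs
  rw [Finset.mem_powerset] at hs
  rw [← Finset.sum_filter, Finset.sum_const, nsmul_eq_mul]
  have hsm : ∀ P ∈ s, P.Monic ∧ Irreducible P := fun P hP => hT P (hs hP)
  set Q : F[X] := ∏ P ∈ s, P with hQ
  have hQm : Q.Monic := monic_prod_of_monic _ _ (fun P hP => (hsm P hP).1)
  have hQd : Q.natDegree = ∑ P ∈ s, P.natDegree :=
    natDegree_prod_of_monic _ _ (fun P hP => (hsm P hP).1)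
  have hset : (PL F m).filter (fun w => ∀ P ∈ s, P ∣ w) = (PL F m).filter (fun w => Q ∣ w) := by
    apply Finset.filter_congr
    intro w _
    constructor
    · intro h
      apply Finset.prod_dvd_of_coprime _ h
      intro P hP P' hP' hne
      exact irr_coprime (hsm P hP).1 (hsm P hP).2 (hsm P' hP').1 (hsm P' hP').2 hne
    · intro h P hP
      exact (Finset.dvd_prod_of_mem _ hP).trans h
  rw [hset]
  have hpos : 0 ≤ ∏ P ∈ s, (2 * (q⁻¹) ^ P.natDegree) :=
    Finset.prod_nonneg (fun P _ => by positivity)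
  have h2 := mul_le_mul_of_nonneg_right (card_dvd_le m Q hQm) hpos
  refine h2.trans (le_of_eq ?_)
  rw [← hqd]
  have h3 : (q⁻¹) ^ Q.natDegree = ∏ P ∈ s, (q⁻¹) ^ P.natDegree := by
    rw [hQd]; exact (Finset.prod_pow_eq_pow_sum s _ _).symm
  have h4 : (q⁻¹) ^ Q.natDegree * ∏ P ∈ s, (2 * (q⁻¹) ^ P.natDegree) =
      ∏ P ∈ s, (2 * ((q⁻¹) ^ P.natDegree) ^ 2) := by
    rw [h3, ← Finset.prod_mul_distrib]
    exact Finset.prod_congr rfl (fun P _ => by ring)
  rw [← h4]
  ring

/-- the average of the weight is bounded -/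
theorem avg_psi (D₀ m : ℕ) (hD₀ : 1 ≤ D₀) (h : 8 * (D₀:ℝ) ^ 2 ≤ (Fintype.card F : ℝ) ^ m) :
    ∑ w ∈ PL F m, psi (IrLE F D₀) w ≤ 9 * (Fintype.card F : ℝ) ^ m := by
  have hq := two_le_card (F := F)
  have h1 := sum_psi (IrLE F D₀) (fun P hP => ⟨(mem_IrLE.mp hP).1, (mem_IrLE.mp hP).2.1⟩) m
  set q : ℝ := (Fintype.card F : ℝ) with hqd
  have hq0 : 0 < q := by linarith
  have hD0 : (0:ℝ) < D₀ := by exact_mod_cast hD₀
  have hexp : Real.exp 2 ≤ 8 := by
    have e1 : Real.exp 2 = (Real.exp 1) ^ 2 := by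
      rw [← Real.exp_nat_mul]; norm_num
    have e2 := Real.exp_one_lt_d9
    have e3 := Real.exp_pos 1
    rw [e1]
    nlinarith
  have hprod : ∀ g : F[X] → ℝ, (∀ P ∈ IrLE F D₀, 0 ≤ g P) →
      ∏ P ∈ IrLE F D₀, (1 + g P) ≤ Real.exp (∑ P ∈ IrLE F D₀, g P) := by
    intro g hg
    rw [Real.exp_sum]
    apply Finset.prod_le_prod
    · intro P hP
      have := hg P hP
      linarith
    · intro P _
      have := Real.add_one_le_exp (g P)
      linarith
  have h2 : ∏ P ∈ IrLE F D₀, (1 + 2 * ((q⁻¹) ^ P.natDegree) ^ 2) ≤ 8 := by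
    refine (hprod _ (fun P _ => by positivity)).trans ?_
    refine le_trans (Real.exp_le_exp.mpr ?_) hexp
    unfold IrLE
    rw [sum_IrLE (Finset.Icc 1 D₀) (fun e => 2 * ((q⁻¹) ^ e) ^ 2)]
    calc ∑ e ∈ Finset.Icc 1 D₀, ((Ir F e).card : ℝ) * (2 * ((q⁻¹) ^ e) ^ 2)
        ≤ ∑ e ∈ Finset.Icc 1 D₀, (1 / 2 : ℝ) ^ (e - 1) := by
          apply Finset.sum_le_sum
          intro e he
          rw [Finset.mem_Icc] at he
          have e0 : (1:ℝ) ≤ e := by exact_mod_cast he.1
          have e1 := Ir_card_real (F := F) e (by omega)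
          rw [← hqd] at e1
          calc ((Ir F e).card : ℝ) * (2 * ((q⁻¹) ^ e) ^ 2) ≤ (q ^ e / e) * (2 * ((q⁻¹) ^ e) ^ 2) :=
                mul_le_mul_of_nonneg_right e1 (by positivity)
            _ = 2 * (q⁻¹) ^ e / e := by
                rw [inv_pow]
                have : q ^ e ≠ 0 := by positivity
                field_simp
            _ ≤ 2 * (q⁻¹) ^ e := div_le_self (by positivity) e0
            _ ≤ 2 * (1 / 2) ^ e := by
                apply mul_le_mul_of_nonneg_left _ (by norm_num)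
                apply pow_le_pow_left₀ (by positivity)
                rw [one_div]
                exact inv_anti₀ (by norm_num) hq
            _ = (1 / 2) ^ (e - 1) := by
                have : e = (e - 1) + 1 := by omega
                conv_lhs => rw [this]
                rw [pow_succ]
                ring
      _ ≤ 2 := sum_half D₀
  have h3 : ∏ P ∈ IrLE F D₀, (1 + 2 * (q⁻¹) ^ P.natDegree) ≤ 8 * (D₀:ℝ) ^ 2 := by
    refine (hprod _ (fun P _ => by positivity)).trans ?_
    have h4 := sum_inv_le (F := F) (Finset.Icc 1 D₀) (fun e he => by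
      rw [Finset.mem_Icc] at he; omega)
    have h5 := harm_le D₀
    rw [← hqd] at h4
    have h6 : ∑ P ∈ IrLE F D₀, 2 * (q⁻¹) ^ P.natDegree ≤ 2 + 2 * Real.log D₀ := by
      rw [← Finset.mul_sum]
      unfold IrLE
      linarith
    calc Real.exp (∑ P ∈ IrLE F D₀, 2 * (q⁻¹) ^ P.natDegree) ≤ Real.exp (2 + 2 * Real.log D₀) :=
          Real.exp_le_exp.mpr h6
      _ = Real.exp 2 * (D₀:ℝ) ^ 2 := by
          rw [Real.exp_add, mul_comm 2 (Real.log (D₀:ℝ)), Real.exp_mul, Real.exp_log hD0]
          norm_num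
      _ ≤ 8 * (D₀:ℝ) ^ 2 := mul_le_mul_of_nonneg_right hexp (by positivity)
  have hqm : 0 < q ^ m := by positivity
  have h7 := mul_le_mul_of_nonneg_left h2 hqm.le
  linarith

variable (F) in
/-- few elements of a box survive the small primes, for a suitable choice of classes which spares
an element `s₀` -/
theorem survivors2 : ∃ D₁ : ℕ, ∀ D : ℕ, D₁ ≤ D → ∀ m : ℕ, D ≤ m → m ≤ 2 * D →
    ∃ s₀ ∈ PL F m, ∃ T ⊆ IrLE F D, ∃ b : F[X] → F[X], (∀ P ∈ T, ¬ P ∣ s₀ - b P) ∧
    (((PL F m).filter (fun h => ∀ P ∈ T, ¬ P ∣ h - b P)).card : ℝ) ≤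
      19 * ((Fintype.card F : ℝ) ^ m * (((m - D : ℕ) : ℝ) + 2) * (12 * Real.log D) /
        ((D:ℝ) ^ 2 * Real.log (Real.log D))) := by
  have hq := two_le_card (F := F)
  obtain ⟨D₁, hD₁⟩ := stage1 F
  refine ⟨D₁, fun D hD m hDm hmD => ?_⟩
  obtain ⟨D₀, hD01, hD0D, hS1, hprod, h2D, hlD, hllD, hllle, hD10⟩ := hD₁ D hD m hDm
  set q : ℝ := (Fintype.card F : ℝ) with hqd
  have hq0 : 0 < q := by linarith
  have hD0 : (10:ℝ) ≤ D := by exact_mod_cast hD10
  have hD00 : (0:ℝ) < D := by linarith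
  set S₁ : Finset F[X] := (PL F m).filter (fun h => ∀ P : F[X], P.Monic → Irreducible P →
    D₀ < P.natDegree → P.natDegree ≤ D → ¬ P ∣ h) with hS₁
  set T₀ := IrLE F D₀ with hT₀
  have hT0m : ∀ P ∈ T₀, P.Monic ∧ Irreducible P := fun P hP =>
    ⟨(mem_IrLE.mp hP).1, (mem_IrLE.mp hP).2.1⟩
  have hqm : 0 < q ^ m := by positivity
  have hqmD : 2 * (D:ℝ) ^ 3 ≤ q ^ m := by
    refine h2D.trans ?_
    calc (2:ℝ) ^ D₀ ≤ q ^ D₀ := pow_le_pow_left₀ (by norm_num) hq _
      _ ≤ q ^ m := pow_le_pow_right₀ (by linarith) (by omega)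
  have hD0r : (D₀:ℝ) ≤ D := by exact_mod_cast hD0D
  have havg := avg_psi (F := F) D₀ m hD01 (by
    rw [← hqd]
    have : (D₀:ℝ) ^ 2 ≤ (D:ℝ) ^ 2 := pow_le_pow_left₀ (Nat.cast_nonneg _) hD0r 2
    have h1 : (10:ℝ) * (D:ℝ) ^ 2 ≤ D * (D:ℝ) ^ 2 := mul_le_mul_of_nonneg_right hD0 (by positivity)
    have h3 : (D:ℝ) * (D:ℝ) ^ 2 = (D:ℝ) ^ 3 := by ring
    have h4 : 0 ≤ (D:ℝ) ^ 2 := by positivity
    linarith)
  rw [← hqd, ← hT₀] at havg
  -- choice of `s₀`
  obtain ⟨s₀, hs₀, hs₀s⟩ : ∃ s₀ ∈ (PL F m).erase 0, ∑ h ∈ S₁, psi T₀ (h - s₀) ≤ 18 * S₁.card := by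
    have hcard : (((PL F m).erase 0).card : ℝ) = q ^ m - 1 := by
      have h0 : (0 : F[X]) ∈ PL F m := by
        rw [mem_PL, degree_zero]; exact WithBot.bot_lt_coe _
      rw [Finset.card_erase_of_mem h0, card_PL, Nat.cast_sub (Nat.one_le_pow _ _ Fintype.card_pos)]
      push_cast; rfl
    have hqm2 : 2 ≤ q ^ m := by
      have h1 : (1:ℝ) ≤ (D:ℝ) ^ 3 := one_le_pow₀ (by linarith)
      linarith
    have hne : ((PL F m).erase 0).Nonempty := by
      rw [← Finset.card_pos]
      have : (0:ℝ) < (((PL F m).erase 0).card : ℝ) := by rw [hcard]; linarith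
      exact_mod_cast this
    apply Finset.exists_le_of_sum_le hne
    calc ∑ s ∈ (PL F m).erase 0, ∑ h ∈ S₁, psi T₀ (h - s)
        ≤ ∑ s ∈ PL F m, ∑ h ∈ S₁, psi T₀ (h - s) :=
          Finset.sum_le_sum_of_subset_of_nonneg (Finset.erase_subset _ _)
            (fun s _ _ => Finset.sum_nonneg (fun h _ => psi_nonneg _ _))
      _ = ∑ h ∈ S₁, ∑ s ∈ PL F m, psi T₀ (h - s) := Finset.sum_comm
      _ = ∑ h ∈ S₁, ∑ w ∈ PL F m, psi T₀ w := by
          refine Finset.sum_congr rfl (fun h hh => ?_)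
          have hhm := mem_PL.mp (Finset.mem_filter.mp hh).1
          refine Finset.sum_bij' (fun s _ => h - s) (fun w _ => h - w) ?_ ?_ ?_ ?_ ?_
          · intro s hs
            rw [mem_PL] at hs ⊢
            exact lt_of_le_of_lt (degree_sub_le _ _) (max_lt hhm hs)
          · intro s hs
            rw [mem_PL] at hs ⊢
            exact lt_of_le_of_lt (degree_sub_le _ _) (max_lt hhm hs)
          · intro s _; ring
          · intro s _; ring
          · intro s _; rfl
      _ ≤ ∑ h ∈ S₁, 9 * q ^ m := Finset.sum_le_sum (fun _ _ => havg)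
      _ = S₁.card * (9 * q ^ m) := by rw [Finset.sum_const, nsmul_eq_mul]
      _ ≤ ∑ s ∈ (PL F m).erase 0, 18 * (S₁.card : ℝ) := by
          rw [Finset.sum_const, nsmul_eq_mul, hcard]
          have h1 : (0:ℝ) ≤ S₁.card := Nat.cast_nonneg _
          nlinarith
  rw [Finset.mem_erase] at hs₀
  obtain ⟨hs0ne, hs0m⟩ := hs₀
  obtain ⟨b₀, hb1, hb2⟩ := greedy3 S₁ s₀ T₀ hT0m (fun _ => 1) (fun _ _ => zero_le_one)
  set Md : Finset F[X] := (IrLE F D).filter (fun P => D₀ < P.natDegree ∧ ¬ P ∣ s₀) with hMd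
  refine ⟨s₀, hs0m, T₀ ∪ Md, ?_, fun P => if P.natDegree ≤ D₀ then b₀ P else 0, ?_, ?_⟩
  · apply Finset.union_subset
    · intro P hP
      have hP := mem_IrLE.mp hP
      exact mem_IrLE.mpr ⟨hP.1, hP.2.1, hP.2.2.trans hD0D⟩
    · exact Finset.filter_subset _ _
  · intro P hP
    rcases Finset.mem_union.mp hP with hP | hP
    · simp only
      rw [if_pos (mem_IrLE.mp hP).2.2]
      exact hb1 P hP
    · rw [hMd, Finset.mem_filter] at hP
      simp only
      rw [if_neg (by omega), sub_zero]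
      exact hP.2.2
  · -- the count
    set E : Finset F[X] := ((IrLE F D).filter (fun P => D₀ < P.natDegree ∧ P ∣ s₀)).biUnion
      (fun P => (PL F m).filter (fun h => P ∣ h)) with hE
    have hsub : (PL F m).filter (fun h => ∀ P ∈ T₀ ∪ Md,
        ¬ P ∣ h - (if P.natDegree ≤ D₀ then b₀ P else 0)) ⊆
        S₁.filter (fun h => ∀ P ∈ T₀, ¬ P ∣ h - b₀ P) ∪ E := by
      intro h hh
      rw [Finset.mem_filter] at hh
      obtain ⟨g1, g2⟩ := hh
      rw [Finset.mem_union]
      by_cases hm : ∃ P : F[X], P.Monic ∧ Irreducible P ∧ D₀ < P.natDegree ∧ P.natDegree ≤ D ∧ P ∣ h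
      · right
        obtain ⟨P, a1, a2, a3, a4, a5⟩ := hm
        rw [hE, Finset.mem_biUnion]
        have hPI : P ∈ IrLE F D := mem_IrLE.mpr ⟨a1, a2, a4⟩
        refine ⟨P, Finset.mem_filter.mpr ⟨hPI, a3, ?_⟩, Finset.mem_filter.mpr ⟨g1, a5⟩⟩
        by_contra hns
        have := g2 P (Finset.mem_union_right _ (Finset.mem_filter.mpr ⟨hPI, a3, hns⟩))
        rw [if_neg (by omega), sub_zero] at this
        exact this a5
      · left
        push Not at hm
        rw [Finset.mem_filter, hS₁, Finset.mem_filter]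
        refine ⟨⟨g1, fun P a1 a2 a3 a4 => hm P a1 a2 a3 a4⟩, fun P hP => ?_⟩
        have := g2 P (Finset.mem_union_left _ hP)
        rwa [if_pos (mem_IrLE.mp hP).2.2] at this
    have hfirst : ((S₁.filter (fun h => ∀ P ∈ T₀, ¬ P ∣ h - b₀ P)).card : ℝ) ≤
        18 * (q ^ m * (((m - D : ℕ) : ℝ) + 2) * (12 * Real.log D) /
        ((D:ℝ) ^ 2 * Real.log (Real.log D))) := by
      have h1 : ((S₁.filter (fun h => ∀ P ∈ T₀, ¬ P ∣ h - b₀ P)).card : ℝ) =
          ∑ h ∈ S₁.filter (fun h => ∀ P ∈ T₀, ¬ P ∣ h - b₀ P), (1:ℝ) := by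
        rw [Finset.sum_const, nsmul_eq_mul, mul_one]
      rw [h1]
      refine hb2.trans ?_
      have hterm : ∀ h ∈ S₁, (1:ℝ) * ∏ P ∈ T₀,
          (if P ∣ h - s₀ then 1 else 1 - 1 / (q ^ P.natDegree - 1)) ≤
          (∏ P ∈ T₀, (1 - (q⁻¹) ^ P.natDegree)) * psi T₀ (h - s₀) := by
        intro h _
        unfold psi
        rw [one_mul, ← Finset.prod_mul_distrib, ← hqd]
        apply Finset.prod_le_prod
        · intro P hP
          have h1 : q ^ 1 ≤ q ^ P.natDegree :=
            pow_le_pow_right₀ (by linarith) (hT0m P hP).2.natDegree_pos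
          rw [pow_one] at h1
          split_ifs
          · exact zero_le_one
          · rw [sub_nonneg, div_le_one (by linarith)]
            linarith
        · intro P hP
          have h1 : q ^ 1 ≤ q ^ P.natDegree :=
            pow_le_pow_right₀ (by linarith) (hT0m P hP).2.natDegree_pos
          rw [pow_one] at h1
          have hx0 : 0 < (q⁻¹) ^ P.natDegree := by positivity
          have hx1 : (q⁻¹) ^ P.natDegree ≤ 1 / 2 := by
            rw [inv_pow, one_div]
            exact inv_anti₀ (by norm_num) (by linarith)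
          split_ifs
          · nlinarith
          · rw [mul_one, inv_pow]
            have : (q ^ P.natDegree)⁻¹ ≤ 1 / (q ^ P.natDegree - 1) := by
              rw [← one_div]
              exact one_div_le_one_div_of_le (by linarith) (by linarith)
            linarith
      have hpr0 : 0 ≤ ∏ P ∈ T₀, (1 - (q⁻¹) ^ P.natDegree) := by
        apply Finset.prod_nonneg
        intro P hP
        have : (q⁻¹) ^ P.natDegree ≤ 1 := pow_le_one₀ (by positivity)
          (inv_le_one_of_one_le₀ (by linarith))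
        linarith
      calc ∑ h ∈ S₁, (1:ℝ) * ∏ P ∈ T₀, (if P ∣ h - s₀ then 1 else 1 - 1 / (q ^ P.natDegree - 1))
          ≤ ∑ h ∈ S₁, (∏ P ∈ T₀, (1 - (q⁻¹) ^ P.natDegree)) * psi T₀ (h - s₀) :=
            Finset.sum_le_sum hterm
        _ = (∏ P ∈ T₀, (1 - (q⁻¹) ^ P.natDegree)) * ∑ h ∈ S₁, psi T₀ (h - s₀) := by
            rw [Finset.mul_sum]
        _ ≤ (12 * Real.log D / (D * Real.log (Real.log D))) * (18 * S₁.card) :=
            mul_le_mul hprod hs₀s (Finset.sum_nonneg (fun _ _ => psi_nonneg _ _)) (by positivity)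
        _ ≤ (12 * Real.log D / (D * Real.log (Real.log D))) *
              (18 * (q ^ m * (((m - D : ℕ) : ℝ) + 2) / D)) := by
            apply mul_le_mul_of_nonneg_left _ (by positivity)
            linarith
        _ = _ := by field_simp
    have hEc : (E.card : ℝ) ≤ q ^ m * (((m - D : ℕ) : ℝ) + 2) * (12 * Real.log D) /
        ((D:ℝ) ^ 2 * Real.log (Real.log D)) := by
      have h1 : (E.card : ℝ) ≤ ∑ P ∈ (IrLE F D).filter (fun P => D₀ < P.natDegree ∧ P ∣ s₀),
          (((PL F m).filter (fun h => P ∣ h)).card : ℝ) := by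
        exact_mod_cast Finset.card_biUnion_le
      have hcardS : (((IrLE F D).filter (fun P => D₀ < P.natDegree ∧ P ∣ s₀)).card : ℝ) ≤ m := by
        have hprodd : ∏ P ∈ (IrLE F D).filter (fun P => D₀ < P.natDegree ∧ P ∣ s₀), P ∣ s₀ := by
          apply Finset.prod_dvd_of_coprime
          · intro P hP Q hQ hne
            have hP := mem_IrLE.mp (Finset.mem_filter.mp hP).1
            have hQ := mem_IrLE.mp (Finset.mem_filter.mp hQ).1
            exact irr_coprime hP.1 hP.2.1 hQ.1 hQ.2.1 hne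
          · intro P hP
            exact (Finset.mem_filter.mp hP).2.2
        have h2 := natDegree_le_of_dvd hprodd hs0ne
        rw [natDegree_prod_of_monic _ _ (fun P hP =>
          (mem_IrLE.mp (Finset.mem_filter.mp hP).1).1)] at h2
        have h3 := (natDegree_lt_iff_degree_lt hs0ne).mpr (mem_PL.mp hs0m)
        have h4 : ((IrLE F D).filter (fun P => D₀ < P.natDegree ∧ P ∣ s₀)).card ≤
            ∑ P ∈ (IrLE F D).filter (fun P => D₀ < P.natDegree ∧ P ∣ s₀), P.natDegree := by
          rw [Finset.card_eq_sum_ones]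
          apply Finset.sum_le_sum
          intro P hP
          have := (Finset.mem_filter.mp hP).2.1
          omega
        have h5 : ((IrLE F D).filter (fun P => D₀ < P.natDegree ∧ P ∣ s₀)).card ≤ m := by omega
        exact_mod_cast h5
      have hterm : ∀ P ∈ (IrLE F D).filter (fun P => D₀ < P.natDegree ∧ P ∣ s₀),
          (((PL F m).filter (fun h => P ∣ h)).card : ℝ) ≤ q ^ m / q ^ D₀ := by
        intro P hP
        rw [Finset.mem_filter] at hP
        obtain ⟨a1, a2, a3⟩ := hP
        have a1 := mem_IrLE.mp a1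
        rw [card_dvd P a1.1 m (by omega)]
        push_cast
        rw [← hqd, le_div_iff₀ (by positivity), ← pow_add]
        exact pow_le_pow_right₀ (by linarith) (by omega)
      have h6 : (E.card : ℝ) ≤ m * (q ^ m / q ^ D₀) := by
        refine h1.trans ((Finset.sum_le_sum hterm).trans ?_)
        rw [Finset.sum_const, nsmul_eq_mul]
        exact mul_le_mul_of_nonneg_right hcardS (by positivity)
      refine h6.trans ?_
      have hmr : (m:ℝ) ≤ 2 * D := by exact_mod_cast hmD
      have hqD0 : 2 * (D:ℝ) ^ 3 ≤ q ^ D₀ :=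
        h2D.trans (pow_le_pow_left₀ (by norm_num) hq _)
      have hqD00 : 0 < q ^ D₀ := by positivity
      calc (m:ℝ) * (q ^ m / q ^ D₀) ≤ (2 * D) * (q ^ m / (2 * (D:ℝ) ^ 3)) := by
            apply mul_le_mul hmr _ (by positivity) (by positivity)
            exact div_le_div_of_nonneg_left hqm.le (by positivity) hqD0
        _ = q ^ m / (D:ℝ) ^ 2 := by field_simp
        _ ≤ (q ^ m * (((m - D : ℕ) : ℝ) + 2) * (12 * Real.log D) / Real.log (Real.log D)) /
              (D:ℝ) ^ 2 := by
            apply div_le_div_of_nonneg_right _ (by positivity)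
            rw [le_div_iff₀ hllD]
            have h7 : (0:ℝ) ≤ ((m - D : ℕ) : ℝ) := Nat.cast_nonneg _
            have h8 : Real.log (Real.log D) ≤ (((m - D : ℕ) : ℝ) + 2) * (12 * Real.log D) := by
              nlinarith
            calc q ^ m * Real.log (Real.log D) ≤
                q ^ m * ((((m - D : ℕ) : ℝ) + 2) * (12 * Real.log D)) :=
                  mul_le_mul_of_nonneg_left h8 hqm.le
              _ = _ := by ring
        _ = _ := by field_simp
    calc (((PL F m).filter (fun h => ∀ P ∈ T₀ ∪ Md,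
          ¬ P ∣ h - (if P.natDegree ≤ D₀ then b₀ P else 0))).card : ℝ)
        ≤ ((S₁.filter (fun h => ∀ P ∈ T₀, ¬ P ∣ h - b₀ P) ∪ E).card : ℝ) := by
          exact_mod_cast Finset.card_le_card hsub
      _ ≤ ((S₁.filter (fun h => ∀ P ∈ T₀, ¬ P ∣ h - b₀ P)).card : ℝ) + E.card := by
          exact_mod_cast Finset.card_union_le _ _
      _ ≤ _ := by linarith

end

end Pool.Agent.H523.FF
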