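import Pool.Agent.H523.FP1

set_option autoImplicit false
set_option linter.unusedSectionVars false

/-! # The targets: translates of constant polynomials -/

namespace Pool.Agent.H523.FF

open Polynomial Finset

open scoped Classical

variable {F : Type} [Field F] [Fintype F]

/-- the polynomial `f (x + h)` -/
noncomputable def tgt (f h : F[X]) : F[X][X] := (f.map C).comp (X + C h)

lemma tgt_eval (f h a : F[X]) : (tgt f h).eval a = f.comp (a + h) := by
  unfold tgt
  rw [eval_comp, eval_add, eval_X, eval_C, eval_map]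
  rfl

lemma pow_card_pow (f : F[X]) (d : ℕ) :
    f ^ (Fintype.card F ^ d) = expand F (Fintype.card F ^ d) f := by
  induction d with
  | zero => simp
  | succ d ih =>
    rw [pow_succ, pow_mul, ih, ← FiniteField.expand_card, expand_expand, mul_comm]

/-- a root of a constant irreducible polynomial of degree `d` modulo `P` -/
lemma root_pow {f P c : F[X]} (hf : Irreducible f) (d : ℕ) (hd : f.natDegree ∣ d)
    (h : P ∣ f.comp c) : P ∣ expand F (Fintype.card F ^ d) c - c := by
  have h1 := (hf.natDegree_dvd_iff_dvd_X_pow_card_pow_sub_X (n := d)).mp hd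
  rw [Nat.card_eq_fintype_card] at h1
  obtain ⟨g, hg⟩ := h1
  have h2 : (X ^ (Fintype.card F) ^ d - X : F[X]).comp c = f.comp c * g.comp c := by
    rw [hg, mul_comp]
  have h3 : (X ^ (Fintype.card F) ^ d - X : F[X]).comp c = expand F (Fintype.card F ^ d) c - c := by
    rw [sub_comp, X_comp, X_pow_comp, pow_card_pow]
  rw [← h3, h2]
  exact Dvd.dvd.mul_right h _

/-- a prime of large degree kills at most one target at a given point -/
theorem tgt_unique (d m : ℕ) (hd : 0 < d) {f f' h h' P a : F[X]} (hf : f.Monic)
    (hfi : Irreducible f) (hfd : f.natDegree = d) (hf' : f'.Monic) (hfi' : Irreducible f')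
    (hfd' : f'.natDegree = d) (hh : h ∈ PL F m) (hh' : h' ∈ PL F m) (hP : P.Monic)
    (hPi : Irreducible P) (hPd : Fintype.card F ^ d * m < P.natDegree)
    (h1 : P ∣ f.comp (a + h)) (h2 : P ∣ f'.comp (a + h')) : tgt f h = tgt f' h' := by
  have hq : 1 < Fintype.card F := Fintype.one_lt_card
  have hqd : 1 < Fintype.card F ^ d := Nat.one_lt_pow hd.ne' hq
  set w := h - h' with hw
  have e1 := root_pow hfi d (by rw [hfd]) h1
  have e2 := root_pow hfi' d (by rw [hfd']) h2
  have e3 : P ∣ expand F (Fintype.card F ^ d) w - w := by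
    have := dvd_sub e1 e2
    rw [hw]
    have h4 : expand F (Fintype.card F ^ d) (a + h) - (a + h) -
        (expand F (Fintype.card F ^ d) (a + h') - (a + h')) =
        expand F (Fintype.card F ^ d) (h - h') - (h - h') := by
      rw [map_add, map_add, map_sub]
      ring
    rw [h4] at this
    exact this
  have hwd : w.natDegree ≤ m := by
    rw [mem_PL] at hh hh'
    have : w.degree < m := lt_of_le_of_lt (degree_sub_le _ _) (max_lt hh hh')
    exact natDegree_le_of_degree_le this.le
  have e4 : expand F (Fintype.card F ^ d) w - w = 0 := by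
    by_contra hne
    have h5 := natDegree_le_of_dvd e3 hne
    have h6 : (expand F (Fintype.card F ^ d) w - w).natDegree ≤ Fintype.card F ^ d * m := by
      refine (natDegree_sub_le _ _).trans (max_le ?_ ?_)
      · rw [natDegree_expand, mul_comm]
        exact Nat.mul_le_mul_left _ hwd
      · calc w.natDegree ≤ m := hwd
          _ ≤ Fintype.card F ^ d * m := Nat.le_mul_of_pos_left _ (by omega)
    omega
  have e5 : w.natDegree = 0 := by
    have h7 : (expand F (Fintype.card F ^ d) w).natDegree = w.natDegree := by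
      rw [sub_eq_zero.mp e4]
    rw [natDegree_expand] at h7
    by_contra hne
    have h8 : w.natDegree * 1 < w.natDegree * Fintype.card F ^ d :=
      Nat.mul_lt_mul_of_pos_left hqd (Nat.pos_of_ne_zero hne)
    omega
  obtain ⟨v, hv⟩ := natDegree_eq_zero.mp e5
  have : Fact (Irreducible P) := ⟨hPi⟩
  have hmk : ∀ (g c : F[X]), aeval (AdjoinRoot.mk P c) g = AdjoinRoot.mk P (g.comp c) := by
    intro g c
    rw [Polynomial.comp, Polynomial.hom_eval₂]
    rfl
  have r1 : aeval (AdjoinRoot.mk P (a + h)) f = 0 := by
    rw [hmk, AdjoinRoot.mk_eq_zero]; exact h1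
  have r2 : aeval (AdjoinRoot.mk P (a + h')) f' = 0 := by
    rw [hmk, AdjoinRoot.mk_eq_zero]; exact h2
  have m1 := minpoly.eq_of_irreducible_of_monic hfi r1 hf
  have m2 := minpoly.eq_of_irreducible_of_monic hfi' r2 hf'
  have r3 : AdjoinRoot.mk P (a + h') = AdjoinRoot.mk P (a + h) - algebraMap F (AdjoinRoot P) v := by
    have : a + h' = (a + h) - C v := by rw [hv, hw]; ring
    rw [this, map_sub]
    rfl
  have m3 : f' = f.comp (X + C v) := by
    rw [m2, r3, minpoly.sub_algebraMap, ← m1]
  have hh2 : h = h' + C v := by rw [hv, hw]; ring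
  rw [m3, hh2]
  unfold tgt
  rw [Polynomial.map_comp, comp_assoc, Polynomial.map_add, map_X, map_C, add_comp, X_comp, C_comp,
    C_add, add_assoc]

end Pool.Agent.H523.FF
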