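import Pool.Agent.H523.FP2

set_option autoImplicit false
set_option linter.unusedSectionVars false

/-! # The profile of a set of primes from a Mertens type bound -/

namespace Pool.Agent.H523.FF

open Polynomial Finset

open scoped Classical

lemma one_add_ge_exp (x : ℝ) (h0 : 0 ≤ x) (h1 : x ≤ 1) : Real.exp (x - x ^ 2) ≤ 1 + x := by
  have h2 : 0 < 1 - (x - x ^ 2) := by nlinarith
  have h3 : 1 - (x - x ^ 2) ≤ Real.exp (-(x - x ^ 2)) := by
    have := Real.add_one_le_exp (-(x - x ^ 2)); linarith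
  have h4 : Real.exp (x - x ^ 2) ≤ 1 / (1 - (x - x ^ 2)) := by
    rw [le_div_iff₀ h2]
    calc Real.exp (x - x ^ 2) * (1 - (x - x ^ 2)) ≤
        Real.exp (x - x ^ 2) * Real.exp (-(x - x ^ 2)) :=
          mul_le_mul_of_nonneg_left h3 (Real.exp_pos _).le
      _ = 1 := by rw [← Real.exp_add]; simp
  refine h4.trans ?_
  rw [div_le_iff₀ h2]
  have : 0 ≤ x ^ 3 := by positivity
  nlinarith

/-- squarefree products of elements of `PP` whose size is at most `exp v` -/
theorem profile {T : Type} (PP : Finset T) (l g : T → ℝ) (hl : ∀ p ∈ PP, 0 ≤ l p)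
    (hg : ∀ p ∈ PP, 0 ≤ g p ∧ g p ≤ 1) (C₂ : ℝ) (hsq : ∑ p ∈ PP, g p ^ 2 ≤ C₂) (v w : ℝ)
    (hv : 0 < v) (hw : ∑ p ∈ PP.filter (fun p => l p ≤ w), g p * l p ≤ v / 2) (G : ℝ)
    (hG : G ≤ ∑ p ∈ PP.filter (fun p => l p ≤ w), g p) :
    Real.exp (G - C₂) / 2 - 1 ≤
      ∑ s ∈ PP.powerset.filter (fun s : Finset T => s.Nonempty ∧ ∑ p ∈ s, l p ≤ v),
        ∏ p ∈ s, g p := by
  set PW := PP.filter (fun p => l p ≤ w) with hPW
  have hsub : PW ⊆ PP := Finset.filter_subset _ _
  have hg' : ∀ p ∈ PW, 0 ≤ g p := fun p hp => (hg p (hsub hp)).1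
  have hl' : ∀ p ∈ PW, 0 ≤ l p := fun p hp => hl p (hsub hp)
  set Pr := ∏ p ∈ PW, (1 + g p) with hPr
  have hPr0 : 0 < Pr := Finset.prod_pos (fun p hp => by have := hg' p hp; linarith)
  have hPrexp : ∑ s ∈ PW.powerset, ∏ p ∈ s, g p = Pr := by
    rw [hPr, Finset.prod_one_add]
  have hprod0 : ∀ s ∈ PW.powerset, 0 ≤ ∏ p ∈ s, g p := fun s hs =>
    Finset.prod_nonneg (fun p hp => hg' p (Finset.mem_powerset.mp hs hp))
  -- the first moment
  have hfirst : ∑ s ∈ PW.powerset, (∏ p ∈ s, g p) * ∑ p ∈ s, l p ≤ Pr * (v / 2) := by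
    calc ∑ s ∈ PW.powerset, (∏ p ∈ s, g p) * ∑ p ∈ s, l p
        = ∑ s ∈ PW.powerset, ∑ p ∈ PW, (if p ∈ s then (∏ r ∈ s, g r) * l p else 0) := by
          refine Finset.sum_congr rfl (fun s hs => ?_)
          rw [Finset.mul_sum, ← Finset.sum_filter]
          refine Finset.sum_congr ?_ (fun _ _ => rfl)
          ext p
          rw [Finset.mem_filter]
          exact ⟨fun hp => ⟨Finset.mem_powerset.mp hs hp, hp⟩, fun hp => hp.2⟩
      _ = ∑ p ∈ PW, ∑ s ∈ PW.powerset, (if p ∈ s then (∏ r ∈ s, g r) * l p else 0) :=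
          Finset.sum_comm
      _ ≤ ∑ p ∈ PW, (g p * l p) * Pr := by
          apply Finset.sum_le_sum
          intro p hp
          rw [← Finset.sum_filter]
          have hbij : ∑ s ∈ PW.powerset.filter (fun s => p ∈ s), (∏ r ∈ s, g r) * l p =
              ∑ s ∈ (PW.erase p).powerset, (∏ r ∈ s, g r) * (g p * l p) := by
            refine Finset.sum_bij' (fun s _ => s.erase p) (fun s _ => insert p s) ?_ ?_ ?_ ?_ ?_
            · intro s hs
              rw [Finset.mem_filter, Finset.mem_powerset] at hs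
              rw [Finset.mem_powerset]
              exact Finset.erase_subset_erase p hs.1
            · intro s hs
              rw [Finset.mem_powerset] at hs
              rw [Finset.mem_filter, Finset.mem_powerset]
              refine ⟨?_, Finset.mem_insert_self _ _⟩
              intro r hr
              rcases Finset.mem_insert.mp hr with rfl | hr
              · exact hp
              · exact Finset.mem_of_mem_erase (hs hr)
            · intro s hs
              rw [Finset.mem_filter] at hs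
              exact Finset.insert_erase hs.2
            · intro s hs
              rw [Finset.mem_powerset] at hs
              exact Finset.erase_insert (fun h => by simpa using hs h)
            · intro s hs
              rw [Finset.mem_filter] at hs
              rw [← Finset.mul_prod_erase s g hs.2]
              ring
          rw [hbij, ← Finset.sum_mul]
          have h1 : ∑ s ∈ (PW.erase p).powerset, ∏ r ∈ s, g r ≤ Pr := by
            rw [← hPrexp]
            apply Finset.sum_le_sum_of_subset_of_nonneg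
            · exact Finset.powerset_mono.mpr (Finset.erase_subset _ _)
            · intro s hs _
              exact hprod0 s hs
          rw [mul_comm]
          exact mul_le_mul_of_nonneg_left h1 (mul_nonneg (hg' p hp) (hl' p hp))
      _ = (∑ p ∈ PW, g p * l p) * Pr := by rw [Finset.sum_mul]
      _ ≤ (v / 2) * Pr := mul_le_mul_of_nonneg_right hw hPr0.le
      _ = Pr * (v / 2) := mul_comm _ _
  -- Markov
  have hbig : ∑ s ∈ PW.powerset.filter (fun s => ¬ ∑ p ∈ s, l p ≤ v), ∏ p ∈ s, g p ≤ Pr / 2 := by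
    have h1 : (∑ s ∈ PW.powerset.filter (fun s => ¬ ∑ p ∈ s, l p ≤ v), ∏ p ∈ s, g p) * v ≤
        Pr * (v / 2) := by
      refine le_trans ?_ hfirst
      rw [Finset.sum_mul]
      calc ∑ s ∈ PW.powerset.filter (fun s => ¬ ∑ p ∈ s, l p ≤ v), (∏ p ∈ s, g p) * v
          ≤ ∑ s ∈ PW.powerset.filter (fun s => ¬ ∑ p ∈ s, l p ≤ v),
              (∏ p ∈ s, g p) * ∑ p ∈ s, l p := by
            apply Finset.sum_le_sum
            intro s hs
            rw [Finset.mem_filter] at hs
            exact mul_le_mul_of_nonneg_left (not_le.mp hs.2).le (hprod0 s hs.1)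
        _ ≤ ∑ s ∈ PW.powerset, (∏ p ∈ s, g p) * ∑ p ∈ s, l p := by
            apply Finset.sum_le_sum_of_subset_of_nonneg (Finset.filter_subset _ _)
            intro s hs _
            exact mul_nonneg (hprod0 s hs)
              (Finset.sum_nonneg (fun p hp => hl' p (Finset.mem_powerset.mp hs hp)))
    have h2 : (∑ s ∈ PW.powerset.filter (fun s => ¬ ∑ p ∈ s, l p ≤ v), ∏ p ∈ s, g p) * v ≤
        (Pr / 2) * v := by linarith
    exact le_of_mul_le_mul_right h2 hv
  have hsplit := Finset.sum_filter_add_sum_filter_not PW.powerset (fun s => ∑ p ∈ s, l p ≤ v)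
    (fun s => ∏ p ∈ s, g p)
  rw [hPrexp] at hsplit
  have hsmall : Pr / 2 ≤ ∑ s ∈ PW.powerset.filter (fun s => ∑ p ∈ s, l p ≤ v), ∏ p ∈ s, g p := by
    linarith
  -- removing the empty set
  have hrem : ∑ s ∈ PW.powerset.filter (fun s => ∑ p ∈ s, l p ≤ v), ∏ p ∈ s, g p ≤
      1 + ∑ s ∈ PP.powerset.filter (fun s : Finset T => s.Nonempty ∧ ∑ p ∈ s, l p ≤ v),
        ∏ p ∈ s, g p := by
    have hins : PW.powerset.filter (fun s => ∑ p ∈ s, l p ≤ v) ⊆
        insert ∅ (PP.powerset.filter (fun s : Finset T => s.Nonempty ∧ ∑ p ∈ s, l p ≤ v)) := by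
      intro s hs
      rw [Finset.mem_filter, Finset.mem_powerset] at hs
      rw [Finset.mem_insert, Finset.mem_filter, Finset.mem_powerset]
      rcases Finset.eq_empty_or_nonempty s with h | h
      · exact Or.inl h
      · exact Or.inr ⟨hs.1.trans hsub, h, hs.2⟩
    calc ∑ s ∈ PW.powerset.filter (fun s => ∑ p ∈ s, l p ≤ v), ∏ p ∈ s, g p
        ≤ ∑ s ∈ insert ∅ (PP.powerset.filter
            (fun s : Finset T => s.Nonempty ∧ ∑ p ∈ s, l p ≤ v)), ∏ p ∈ s, g p := by
          apply Finset.sum_le_sum_of_subset_of_nonneg hins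
          intro s hs _
          rcases Finset.mem_insert.mp hs with rfl | hs
          · simp
          · rw [Finset.mem_filter, Finset.mem_powerset] at hs
            exact Finset.prod_nonneg (fun p hp => (hg p (hs.1 hp)).1)
      _ = _ := by
          rw [Finset.sum_insert (by simp)]
          simp
  have hPrlow : Real.exp (G - C₂) ≤ Pr := by
    calc Real.exp (G - C₂) ≤ Real.exp (∑ p ∈ PW, (g p - g p ^ 2)) := by
          apply Real.exp_le_exp.mpr
          rw [Finset.sum_sub_distrib]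
          have : ∑ p ∈ PW, g p ^ 2 ≤ ∑ p ∈ PP, g p ^ 2 :=
            Finset.sum_le_sum_of_subset_of_nonneg hsub (fun p _ _ => by positivity)
          linarith
      _ = ∏ p ∈ PW, Real.exp (g p - g p ^ 2) := Real.exp_sum _ _
      _ ≤ Pr := by
          apply Finset.prod_le_prod
          · intro p _; exact (Real.exp_pos _).le
          · intro p hp
            exact one_add_ge_exp _ (hg p (hsub hp)).1 (hg p (hsub hp)).2
  linarith

/-! ## Primes whose degree is divisible by `d` -/

variable {F : Type} [Field F] [Fintype F]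

variable (F) in
/-- monic irreducible polynomials with degree in `(E₁, E₂]` and divisible by `d` -/
noncomputable def Pd (d E₁ E₂ : ℕ) : Finset F[X] :=
  ((Finset.Ioc E₁ E₂).filter (fun e => d ∣ e)).biUnion (Ir F)

lemma mem_Pd {d E₁ E₂ : ℕ} {P : F[X]} : P ∈ Pd F d E₁ E₂ ↔
    P.Monic ∧ Irreducible P ∧ E₁ < P.natDegree ∧ P.natDegree ≤ E₂ ∧ d ∣ P.natDegree := by
  unfold Pd
  rw [Finset.mem_biUnion]
  constructor
  · rintro ⟨e, he, h⟩
    rw [Finset.mem_filter, Finset.mem_Ioc] at he
    have h := mem_Ir.mp h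
    exact ⟨h.1, h.2.1, by rw [h.2.2]; exact he.1.1, by rw [h.2.2]; exact he.1.2,
      by rw [h.2.2]; exact he.2⟩
  · rintro ⟨h1, h2, h3, h4, h5⟩
    exact ⟨P.natDegree, Finset.mem_filter.mpr ⟨Finset.mem_Ioc.mpr ⟨h3, h4⟩, h5⟩,
      mem_Ir.mpr ⟨h1, h2, rfl⟩⟩

lemma sum_Pd (d E₁ E₂ : ℕ) (φ : ℕ → ℝ) : ∑ P ∈ Pd F d E₁ E₂, φ P.natDegree =
    ∑ e ∈ (Finset.Ioc E₁ E₂).filter (fun e => d ∣ e), ((Ir F e).card : ℝ) * φ e :=
  sum_IrLE _ _

lemma filt_image (d E₁ E₂ : ℕ) (hd : 0 < d) : (Finset.Ioc E₁ E₂).filter (fun e => d ∣ e) =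
    (Finset.Ioc (E₁ / d) (E₂ / d)).image (fun j => d * j) := by
  ext e
  rw [Finset.mem_filter, Finset.mem_Ioc, Finset.mem_image]
  constructor
  · rintro ⟨⟨h1, h2⟩, j, rfl⟩
    refine ⟨j, ?_, rfl⟩
    rw [Finset.mem_Ioc]
    refine ⟨?_, ?_⟩
    · rw [Nat.div_lt_iff_lt_mul hd, mul_comm]; exact h1
    · rw [Nat.le_div_iff_mul_le hd, mul_comm]; exact h2
  · rintro ⟨j, hj, rfl⟩
    rw [Finset.mem_Ioc] at hj
    refine ⟨⟨?_, ?_⟩, dvd_mul_right _ _⟩
    · have := hj.1
      rw [Nat.div_lt_iff_lt_mul hd, mul_comm] at this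
      exact this
    · have := hj.2
      rw [Nat.le_div_iff_mul_le hd, mul_comm] at this
      exact this

/-- sums over multiples of `d` -/
lemma sum_filt (d E₁ E₂ : ℕ) (hd : 0 < d) (φ : ℕ → ℝ) :
    ∑ e ∈ (Finset.Ioc E₁ E₂).filter (fun e => d ∣ e), φ e =
      ∑ j ∈ Finset.Ioc (E₁ / d) (E₂ / d), φ (d * j) := by
  rw [filt_image d E₁ E₂ hd, Finset.sum_image]
  intro a _ b _ h
  exact Nat.eq_of_mul_eq_mul_left hd h

lemma log_le_sum (a b : ℕ) (hab : a ≤ b) :
    Real.log (b + 1) - Real.log (a + 1) ≤ ∑ j ∈ Finset.Ioc a b, (1:ℝ) / j := by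
  induction b, hab using Nat.le_induction with
  | base => simp
  | succ b hab ih =>
    rw [Finset.sum_Ioc_succ_top hab]
    have h1 : Real.log ((b:ℝ) + 1 + 1) - Real.log (b + 1) ≤ 1 / ((b:ℝ) + 1) := by
      rw [← Real.log_div (by positivity) (by positivity)]
      have : ((b:ℝ) + 1 + 1) / (b + 1) = 1 + 1 / (b + 1) := by field_simp
      rw [this]
      have h2 := Real.log_le_sub_one_of_pos (show (0:ℝ) < 1 + 1 / ((b:ℝ) + 1) by positivity)
      linarith
    push_cast
    linarith

lemma sq_sum_le (n : ℕ) : ∑ e ∈ Finset.Icc 1 n, (1:ℝ) / (e:ℝ) ^ 2 ≤ 2 := by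
  rcases Nat.eq_zero_or_pos n with rfl | hn
  · simp
  · have h : ∑ e ∈ Finset.Icc 1 n, (1:ℝ) / (e:ℝ) ^ 2 ≤ 2 - 1 / n := by
      induction n, hn using Nat.le_induction with
      | base => norm_num
      | succ n hn ih =>
        have hn0 : (0:ℝ) < n := by exact_mod_cast hn
        rw [Finset.sum_Icc_succ_top (by omega)]
        push_cast
        have h1 : (1:ℝ) / ((n:ℝ) + 1) ^ 2 ≤ 1 / n - 1 / (n + 1) := by
          have : (1:ℝ) / n - 1 / (n + 1) = 1 / (n * (n + 1)) := by field_simp; ring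
          rw [this]
          apply one_div_le_one_div_of_le (by positivity)
          nlinarith
        linarith
    have h2 : (0:ℝ) ≤ 1 / n := by positivity
    linarith

end Pool.Agent.H523.FF
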