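import Pool.Agent.H523.FP3

set_option autoImplicit false
set_option linter.unusedSectionVars false

/-! # Mertens type bounds for primes whose degree is divisible by `d` -/

namespace Pool.Agent.H523.FF

open Polynomial Finset

open scoped Classical

variable {F : Type} [Field F] [Fintype F]

lemma half_pow_le (q : ℝ) (hq : 2 ≤ q) (e : ℕ) (he : 0 < e) : q ^ (e / 2) / q ^ e ≤ 1 / e := by
  have hq0 : 0 < q := by linarith
  have he0 : (0:ℝ) < e := by exact_mod_cast he
  set k := e - e / 2 with hk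
  have h1 : q ^ e = q ^ (e / 2) * q ^ k := by rw [← pow_add]; congr 1; omega
  have h2 : q ^ (e / 2) / q ^ e = 1 / q ^ k := by
    rw [h1]; field_simp
  rw [h2]
  apply one_div_le_one_div_of_le he0
  have hk1 : 1 ≤ k := by omega
  have h3 : 2 * k ≤ 2 ^ k := by
    have : k ≤ 2 ^ (k - 1) := by
      have := Nat.lt_two_pow_self (n := k - 1)
      omega
    calc 2 * k ≤ 2 * 2 ^ (k - 1) := by omega
      _ = 2 ^ k := by rw [← pow_succ']; congr 1; omega
  have h4 : e ≤ 2 * k := by omega
  calc (e:ℝ) ≤ ((2 ^ k : ℕ) : ℝ) := by exact_mod_cast h4.trans h3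
    _ = 2 ^ k := by push_cast; rfl
    _ ≤ q ^ k := pow_le_pow_left₀ (by norm_num) hq k

/-- lower Mertens bound for the primes whose degree is divisible by `d` -/
theorem Pd_lower (d : ℕ) (hd : 0 < d) (E₁ E₂ : ℕ) (h12 : E₁ ≤ E₂) :
    Real.log ((E₂ + 1) / (E₁ + d)) - 4 * d ≤
      ∑ P ∈ Pd F d E₁ E₂, (d : ℝ) / (Fintype.card F : ℝ) ^ P.natDegree := by
  have hq := two_le_card (F := F)
  set q : ℝ := (Fintype.card F : ℝ) with hqd
  have hq0 : 0 < q := by linarith
  have hd0 : (0:ℝ) < d := by exact_mod_cast hd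
  rw [sum_Pd d E₁ E₂ (fun e => (d : ℝ) / q ^ e)]
  have hterm : ∀ e ∈ (Finset.Ioc E₁ E₂).filter (fun e => d ∣ e),
      (d:ℝ) / e - 2 * d * (1 / (e:ℝ) ^ 2) ≤ ((Ir F e).card : ℝ) * ((d : ℝ) / q ^ e) := by
    intro e he
    rw [Finset.mem_filter, Finset.mem_Ioc] at he
    have he1 : 0 < e := by omega
    have he0 : (0:ℝ) < e := by exact_mod_cast he1
    have h1 := Ir_card_lower (F := F) e he1
    rw [← hqd] at h1
    have h2 := half_pow_le q hq e he1
    have h3 : (q ^ e / e - 2 * q ^ (e / 2) / e) * ((d : ℝ) / q ^ e) ≤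
        ((Ir F e).card : ℝ) * ((d : ℝ) / q ^ e) := mul_le_mul_of_nonneg_right h1 (by positivity)
    refine le_trans ?_ h3
    have h4 : (q ^ e / e - 2 * q ^ (e / 2) / e) * ((d : ℝ) / q ^ e) =
        (d:ℝ) / e - 2 * d / e * (q ^ (e / 2) / q ^ e) := by
      have : q ^ e ≠ 0 := by positivity
      field_simp
    rw [h4]
    have h5 : 2 * (d:ℝ) / e * (q ^ (e / 2) / q ^ e) ≤ 2 * (d:ℝ) / e * (1 / e) :=
      mul_le_mul_of_nonneg_left h2 (by positivity)
    have h6 : 2 * (d:ℝ) / e * (1 / e) = 2 * d * (1 / (e:ℝ) ^ 2) := by field_simp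
    linarith
  refine le_trans ?_ (Finset.sum_le_sum hterm)
  rw [Finset.sum_sub_distrib]
  have h1 : Real.log ((E₂ + 1) / (E₁ + d)) ≤
      ∑ e ∈ (Finset.Ioc E₁ E₂).filter (fun e => d ∣ e), (d:ℝ) / e := by
    rw [sum_filt d E₁ E₂ hd (fun e => (d:ℝ) / e)]
    have h2 := log_le_sum (E₁ / d) (E₂ / d) (Nat.div_le_div_right h12)
    have h3 : ∑ j ∈ Finset.Ioc (E₁ / d) (E₂ / d), (d:ℝ) / ((d * j : ℕ) : ℝ) =
        ∑ j ∈ Finset.Ioc (E₁ / d) (E₂ / d), (1:ℝ) / j := by
      refine Finset.sum_congr rfl (fun j _ => ?_)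
      push_cast
      rcases eq_or_ne (j:ℝ) 0 with h | h
      · rw [h]; simp
      · field_simp
    rw [h3]
    refine le_trans ?_ h2
    rw [← Real.log_div (by positivity) (by positivity)]
    apply Real.log_le_log (by positivity)
    rw [div_le_div_iff₀ (by positivity) (by positivity)]
    have h4 : ((E₂:ℝ) + 1) ≤ d * (((E₂ / d : ℕ) : ℝ) + 1) := by
      have : E₂ + 1 ≤ d * (E₂ / d + 1) := by
        have := Nat.lt_mul_div_succ E₂ hd
        omega
      exact_mod_cast this
    have h5 : (d:ℝ) * (((E₁ / d : ℕ) : ℝ) + 1) ≤ E₁ + d := by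
      have : d * (E₁ / d + 1) ≤ E₁ + d := by
        have := Nat.mul_div_le E₁ d
        rw [Nat.mul_add]
        omega
      exact_mod_cast this
    have h6 : 0 ≤ ((E₂ / d : ℕ) : ℝ) + 1 := by positivity
    have h7 : 0 ≤ ((E₁ / d : ℕ) : ℝ) + 1 := by positivity
    calc ((E₂:ℝ) + 1) * (((E₁ / d : ℕ) : ℝ) + 1)
        ≤ (d * (((E₂ / d : ℕ) : ℝ) + 1)) * (((E₁ / d : ℕ) : ℝ) + 1) :=
          mul_le_mul_of_nonneg_right h4 h7
      _ = (((E₂ / d : ℕ) : ℝ) + 1) * (d * (((E₁ / d : ℕ) : ℝ) + 1)) := by ring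
      _ ≤ (((E₂ / d : ℕ) : ℝ) + 1) * (E₁ + d) := mul_le_mul_of_nonneg_left h5 h6
  have h2 : ∑ e ∈ (Finset.Ioc E₁ E₂).filter (fun e => d ∣ e), 2 * (d:ℝ) * (1 / (e:ℝ) ^ 2) ≤
      4 * (d:ℝ) := by
    rw [← Finset.mul_sum]
    have h3 : ∑ e ∈ (Finset.Ioc E₁ E₂).filter (fun e => d ∣ e), (1:ℝ) / (e:ℝ) ^ 2 ≤ 2 := by
      refine le_trans ?_ (sq_sum_le E₂)
      apply Finset.sum_le_sum_of_subset_of_nonneg
      · intro e he
        rw [Finset.mem_filter, Finset.mem_Ioc] at he
        rw [Finset.mem_Icc]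
        omega
      · intro e _ _
        positivity
    nlinarith
  linarith

/-- upper Mertens bound -/
theorem Pd_upper (d : ℕ) (hd : 0 < d) (E₁ E₂ : ℕ) :
    ∑ P ∈ Pd F d E₁ E₂, (d : ℝ) / (Fintype.card F : ℝ) ^ P.natDegree ≤ 1 + Real.log E₂ := by
  have hq := two_le_card (F := F)
  set q : ℝ := (Fintype.card F : ℝ) with hqd
  have hq0 : 0 < q := by linarith
  have hd0 : (0:ℝ) < d := by exact_mod_cast hd
  rw [sum_Pd d E₁ E₂ (fun e => (d : ℝ) / q ^ e)]
  calc ∑ e ∈ (Finset.Ioc E₁ E₂).filter (fun e => d ∣ e), ((Ir F e).card : ℝ) * ((d : ℝ) / q ^ e)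
      ≤ ∑ e ∈ (Finset.Ioc E₁ E₂).filter (fun e => d ∣ e), (d:ℝ) / e := by
        apply Finset.sum_le_sum
        intro e he
        rw [Finset.mem_filter, Finset.mem_Ioc] at he
        have h1 := Ir_card_real (F := F) e (by omega)
        rw [← hqd] at h1
        calc ((Ir F e).card : ℝ) * ((d : ℝ) / q ^ e) ≤ (q ^ e / e) * ((d : ℝ) / q ^ e) :=
              mul_le_mul_of_nonneg_right h1 (by positivity)
          _ = (d:ℝ) / e := by
              have : q ^ e ≠ 0 := by positivity
              field_simp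
    _ = ∑ j ∈ Finset.Ioc (E₁ / d) (E₂ / d), (1:ℝ) / j := by
        rw [sum_filt d E₁ E₂ hd (fun e => (d:ℝ) / e)]
        refine Finset.sum_congr rfl (fun j _ => ?_)
        push_cast
        rcases eq_or_ne (j:ℝ) 0 with h | h
        · rw [h]; simp
        · field_simp
    _ ≤ ∑ j ∈ Finset.Icc 1 E₂, (1:ℝ) / j := by
        apply Finset.sum_le_sum_of_subset_of_nonneg
        · intro j hj
          rw [Finset.mem_Ioc] at hj
          have h1 := Nat.div_le_self E₂ d
          have h0 := Nat.zero_le (E₁ / d)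
          rw [Finset.mem_Icc]
          exact ⟨by omega, hj.2.trans h1⟩
        · intro j _ _
          positivity
    _ ≤ 1 + Real.log E₂ := harm_le E₂

/-- the profile of the primes whose degree is divisible by `d` -/
theorem Pd_profile (d : ℕ) (hd : 0 < d) : ∃ c₃ : ℝ, 0 < c₃ ∧ ∀ (F : Type) [Field F] [Fintype F],
    ∀ (E₁ E₂ : ℕ), 1 ≤ E₁ → ∀ x y : ℝ, (Fintype.card F : ℝ) ^ E₁ ≤ y → y ≤ x →
    x < (Fintype.card F : ℝ) ^ (E₂ + 1) →
    c₃ * Real.log x / Real.log y - 1 ≤
      ∑ s ∈ (Pd F d E₁ E₂).powerset.filter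
        (fun s : Finset F[X] => s.Nonempty ∧ ∏ p ∈ s, (Fintype.card F : ℝ) ^ p.natDegree ≤ x),
          ∏ p ∈ s, (d : ℝ) / (Fintype.card F : ℝ) ^ p.natDegree := by
  have hd0 : (0:ℝ) < d := by exact_mod_cast hd
  have hd1 : (1:ℝ) ≤ d := by exact_mod_cast hd
  set C : ℝ := 4 * d + d ^ 2 with hC
  set c₃ : ℝ := Real.exp (-C) / (4 * (1 + d)) with hc₃
  have hc₃0 : 0 < c₃ := by positivity
  refine ⟨c₃, hc₃0, ?_⟩
  intro F _ _ E₁ E₂ hE₁ x y hy hyx hx
  have hq := two_le_card (F := F)
  set q : ℝ := (Fintype.card F : ℝ) with hqd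
  have hq0 : 0 < q := by linarith
  have hlq : 0 < Real.log q := Real.log_pos (by linarith)
  have hy1 : 1 < y := lt_of_lt_of_le (one_lt_pow₀ (by linarith) (by omega)) hy
  have hly : 0 < Real.log y := Real.log_pos hy1
  have hx1 : 1 < x := by linarith
  have hlx : 0 < Real.log x := Real.log_pos hx1
  set v := Real.log x with hv
  set w := v / 2 with hw
  set E : ℕ := ⌊w / Real.log q⌋₊ with hE
  have hE1 : (E:ℝ) ≤ w / Real.log q := Nat.floor_le (by positivity)
  have hE2 : w / Real.log q < (E:ℝ) + 1 := Nat.lt_floor_add_one _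
  have hEE2 : E ≤ E₂ := by
    have h1 : v < (E₂ + 1 : ℕ) * Real.log q := by
      have := Real.log_lt_log (by linarith) hx
      rwa [Real.log_pow] at this
    have h2 : (E:ℝ) * Real.log q ≤ w := by rwa [le_div_iff₀ hlq] at hE1
    have h3 : (E:ℝ) * Real.log q < (E₂ + 1 : ℕ) * Real.log q := by linarith
    have h4 : (E:ℝ) < (E₂ + 1 : ℕ) := lt_of_mul_lt_mul_right h3 hlq.le
    have : E < E₂ + 1 := by exact_mod_cast h4
    omega
  have hprof := profile (Pd F d E₁ E₂) (fun P => (P.natDegree : ℝ) * Real.log q)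
    (fun P => (d:ℝ) / q ^ P.natDegree) (fun P _ => by positivity)
    (fun P hP => by
      have hP := mem_Pd.mp hP
      have hPd : 0 < P.natDegree := hP.2.1.natDegree_pos
      refine ⟨by positivity, ?_⟩
      rw [div_le_one (by positivity)]
      have h1 : d ≤ P.natDegree := Nat.le_of_dvd hPd hP.2.2.2.2
      have h2 : P.natDegree ≤ 2 ^ P.natDegree := Nat.lt_two_pow_self.le
      calc (d:ℝ) ≤ ((2 ^ P.natDegree : ℕ) : ℝ) := by exact_mod_cast h1.trans h2
        _ = 2 ^ P.natDegree := by push_cast; rfl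
        _ ≤ q ^ P.natDegree := pow_le_pow_left₀ (by norm_num) hq _)
    ((d:ℝ) ^ 2)
    (by
      rw [sum_Pd d E₁ E₂ (fun e => ((d:ℝ) / q ^ e) ^ 2)]
      calc ∑ e ∈ (Finset.Ioc E₁ E₂).filter (fun e => d ∣ e),
            ((Ir F e).card : ℝ) * ((d:ℝ) / q ^ e) ^ 2
          ≤ ∑ e ∈ (Finset.Ioc E₁ E₂).filter (fun e => d ∣ e), (d:ℝ) ^ 2 * (1 / 2) ^ e := by
            apply Finset.sum_le_sum
            intro e he
            rw [Finset.mem_filter, Finset.mem_Ioc] at he
            have he1 : 0 < e := by omega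
            have he0 : (1:ℝ) ≤ e := by exact_mod_cast he1
            have h1 := Ir_card_real (F := F) e he1
            rw [← hqd] at h1
            calc ((Ir F e).card : ℝ) * ((d:ℝ) / q ^ e) ^ 2
                ≤ (q ^ e / e) * ((d:ℝ) / q ^ e) ^ 2 :=
                  mul_le_mul_of_nonneg_right h1 (by positivity)
              _ = (d:ℝ) ^ 2 * (1 / q ^ e) * (1 / e) := by
                  have : q ^ e ≠ 0 := by positivity
                  field_simp
              _ ≤ (d:ℝ) ^ 2 * (1 / 2) ^ e * 1 := by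
                  have h2 : 1 / q ^ e ≤ (1 / 2) ^ e := by
                    rw [one_div_pow]
                    exact one_div_le_one_div_of_le (by positivity)
                      (pow_le_pow_left₀ (by norm_num) hq _)
                  have h3 : 1 / (e:ℝ) ≤ 1 := by rw [div_le_one (by linarith)]; exact he0
                  exact mul_le_mul (mul_le_mul_of_nonneg_left h2 (by positivity)) h3
                    (by positivity) (by positivity)
              _ = (d:ℝ) ^ 2 * (1 / 2) ^ e := mul_one _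
        _ = (d:ℝ) ^ 2 * ∑ e ∈ (Finset.Ioc E₁ E₂).filter (fun e => d ∣ e), (1 / 2 : ℝ) ^ e := by
            rw [Finset.mul_sum]
        _ ≤ (d:ℝ) ^ 2 * 1 := by
            apply mul_le_mul_of_nonneg_left _ (by positivity)
            calc ∑ e ∈ (Finset.Ioc E₁ E₂).filter (fun e => d ∣ e), (1 / 2 : ℝ) ^ e
                ≤ ∑ e ∈ Finset.Icc 1 E₂, (1 / 2 : ℝ) ^ e := by
                  apply Finset.sum_le_sum_of_subset_of_nonneg
                  · intro e he
                    rw [Finset.mem_filter, Finset.mem_Ioc] at he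
                    rw [Finset.mem_Icc]
                    omega
                  · intro e _ _
                    positivity
              _ = (1 / 2) * ∑ e ∈ Finset.Icc 1 E₂, (1 / 2 : ℝ) ^ (e - 1) := by
                  rw [Finset.mul_sum]
                  refine Finset.sum_congr rfl (fun e he => ?_)
                  rw [Finset.mem_Icc] at he
                  rw [← pow_succ']
                  congr 1
                  omega
              _ ≤ 1 := by
                  have := sum_half E₂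
                  linarith
        _ = (d:ℝ) ^ 2 := mul_one _)
    v w hlx
    (by
      have hfilt : (Pd F d E₁ E₂).filter (fun P => (P.natDegree : ℝ) * Real.log q ≤ w) =
          Pd F d E₁ E := by
        ext P
        rw [Finset.mem_filter, mem_Pd, mem_Pd]
        have key : (P.natDegree : ℝ) * Real.log q ≤ w ↔ P.natDegree ≤ E := by
          rw [← le_div_iff₀ hlq, hE]
          exact (Nat.le_floor_iff (by positivity)).symm
        rw [key]
        constructor
        · rintro ⟨⟨h1, h2, h3, _, h5⟩, h6⟩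
          exact ⟨h1, h2, h3, h6, h5⟩
        · rintro ⟨h1, h2, h3, h4, h5⟩
          exact ⟨⟨h1, h2, h3, h4.trans hEE2, h5⟩, h4⟩
      rw [hfilt]
      have h0 : ∀ P ∈ Pd F d E₁ E, (d:ℝ) / q ^ P.natDegree * ((P.natDegree : ℝ) * Real.log q) =
          (fun e : ℕ => (d:ℝ) / q ^ e * ((e : ℝ) * Real.log q)) P.natDegree := fun _ _ => rfl
      rw [Finset.sum_congr rfl h0, sum_Pd d E₁ E (fun e : ℕ => (d:ℝ) / q ^ e * ((e : ℝ) * Real.log q))]
      calc ∑ e ∈ (Finset.Ioc E₁ E).filter (fun e => d ∣ e),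
            ((Ir F e).card : ℝ) * ((d:ℝ) / q ^ e * ((e : ℝ) * Real.log q))
          ≤ ∑ e ∈ (Finset.Ioc E₁ E).filter (fun e => d ∣ e), (d:ℝ) * Real.log q := by
            apply Finset.sum_le_sum
            intro e he
            rw [Finset.mem_filter, Finset.mem_Ioc] at he
            have he1 : 0 < e := by omega
            have he0 : (0:ℝ) < e := by exact_mod_cast he1
            have h1 := Ir_card_real (F := F) e he1
            rw [← hqd] at h1
            calc ((Ir F e).card : ℝ) * ((d:ℝ) / q ^ e * ((e : ℝ) * Real.log q))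
                ≤ (q ^ e / e) * ((d:ℝ) / q ^ e * ((e : ℝ) * Real.log q)) :=
                  mul_le_mul_of_nonneg_right h1 (by positivity)
              _ = (d:ℝ) * Real.log q := by
                  have : q ^ e ≠ 0 := by positivity
                  field_simp
        _ = ((((Finset.Ioc E₁ E).filter (fun e => d ∣ e)).card : ℝ) * d) * Real.log q := by
            rw [Finset.sum_const, nsmul_eq_mul]; ring
        _ ≤ E * Real.log q := by
            apply mul_le_mul_of_nonneg_right _ hlq.le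
            rw [filt_image d E₁ E hd]
            have h1 : ((Finset.Ioc (E₁ / d) (E / d)).image (fun j => d * j)).card ≤ E / d := by
              refine Finset.card_image_le.trans ?_
              rw [Nat.card_Ioc]
              exact Nat.sub_le _ _
            have h2 : ((Finset.Ioc (E₁ / d) (E / d)).image (fun j => d * j)).card * d ≤ E :=
              (Nat.mul_le_mul_right d h1).trans (Nat.div_mul_le_self E d)
            exact_mod_cast h2
        _ ≤ w := by rwa [le_div_iff₀ hlq] at hE1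
        _ = v / 2 := rfl)
    (Real.log ((E + 1) / (E₁ + d)) - 4 * d)
    (by
      have hfilt : (Pd F d E₁ E₂).filter (fun P => (P.natDegree : ℝ) * Real.log q ≤ w) =
          Pd F d E₁ E := by
        ext P
        rw [Finset.mem_filter, mem_Pd, mem_Pd]
        have key : (P.natDegree : ℝ) * Real.log q ≤ w ↔ P.natDegree ≤ E := by
          rw [← le_div_iff₀ hlq, hE]
          exact (Nat.le_floor_iff (by positivity)).symm
        rw [key]
        constructor
        · rintro ⟨⟨h1, h2, h3, _, h5⟩, h6⟩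
          exact ⟨h1, h2, h3, h6, h5⟩
        · rintro ⟨h1, h2, h3, h4, h5⟩
          exact ⟨⟨h1, h2, h3, h4.trans hEE2, h5⟩, h4⟩
      rw [hfilt]
      rcases le_or_gt E₁ E with h | h
      · exact Pd_lower d hd E₁ E h
      · have h1 : Real.log (((E:ℝ) + 1) / (E₁ + d)) ≤ 0 := by
          apply Real.log_nonpos (by positivity)
          rw [div_le_one (by positivity)]
          have : ((E:ℝ) + 1) ≤ E₁ := by exact_mod_cast h
          linarith
        have h2 : 0 ≤ ∑ P ∈ Pd F d E₁ E, (d:ℝ) / q ^ P.natDegree :=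
          Finset.sum_nonneg (fun P _ => by positivity)
        linarith)
  -- conversion
  have hfam : (Pd F d E₁ E₂).powerset.filter
        (fun s : Finset F[X] => s.Nonempty ∧ ∑ p ∈ s, (p.natDegree : ℝ) * Real.log q ≤ v) =
      (Pd F d E₁ E₂).powerset.filter
        (fun s : Finset F[X] => s.Nonempty ∧ ∏ p ∈ s, q ^ p.natDegree ≤ x) := by
    apply Finset.filter_congr
    intro s _
    have h1 : Real.log (∏ p ∈ s, q ^ p.natDegree) = ∑ p ∈ s, (p.natDegree : ℝ) * Real.log q := by
      rw [Real.log_prod (fun p _ => by positivity)]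
      exact Finset.sum_congr rfl (fun p _ => Real.log_pow _ _)
    rw [← h1, hv, Real.log_le_log_iff (Finset.prod_pos (fun p _ => by positivity)) (by linarith)]
  rw [hfam] at hprof
  refine le_trans ?_ hprof
  have hkey : c₃ * v / Real.log y ≤
      Real.exp (Real.log ((E + 1) / (E₁ + d)) - 4 * d - (d:ℝ) ^ 2) / 2 := by
    have e1 : Real.exp (Real.log (((E:ℝ) + 1) / (E₁ + d)) - 4 * d - (d:ℝ) ^ 2) =
        (((E:ℝ) + 1) / (E₁ + d)) * Real.exp (-C) := by
      rw [hC, show Real.log (((E:ℝ) + 1) / (E₁ + d)) - 4 * d - (d:ℝ) ^ 2 =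
        Real.log (((E:ℝ) + 1) / (E₁ + d)) + -(4 * d + d ^ 2) by ring, Real.exp_add,
        Real.exp_log (by positivity)]
    rw [e1]
    have e2 : (E₁:ℝ) + d ≤ (1 + d) * (Real.log y / Real.log q) := by
      have h1 : (E₁:ℝ) ≤ Real.log y / Real.log q := by
        rw [le_div_iff₀ hlq, ← Real.log_pow]
        exact Real.log_le_log (by positivity) hy
      have h2 : (1:ℝ) ≤ E₁ := by exact_mod_cast hE₁
      nlinarith
    have e3 : v / 2 / Real.log q ≤ (E:ℝ) + 1 := hE2.le
    have e4 : v / (2 * (1 + d) * Real.log y) ≤ ((E:ℝ) + 1) / (E₁ + d) := by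
      rw [div_le_div_iff₀ (by positivity) (by positivity)]
      calc v * ((E₁:ℝ) + d) ≤ v * ((1 + d) * (Real.log y / Real.log q)) :=
            mul_le_mul_of_nonneg_left e2 hlx.le
        _ = (v / 2 / Real.log q) * (2 * (1 + d) * Real.log y) := by field_simp
        _ ≤ ((E:ℝ) + 1) * (2 * (1 + d) * Real.log y) :=
            mul_le_mul_of_nonneg_right e3 (by positivity)
    calc c₃ * v / Real.log y = v / (2 * (1 + d) * Real.log y) * Real.exp (-C) / 2 := by
          rw [hc₃]
          field_simp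
          ring
      _ ≤ (((E:ℝ) + 1) / (E₁ + d)) * Real.exp (-C) / 2 := by
          apply div_le_div_of_nonneg_right _ (by norm_num)
          exact mul_le_mul_of_nonneg_right e4 (Real.exp_pos _).le
  linarith

end Pool.Agent.H523.FF
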