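import Pool.Agent.H523.FF7
import Pool.Agent.H523.FF8
import Pool.Agent.H523.FF9
import Pool.Agent.H523.CovA
import Pool.Agent.H523.RH2

set_option autoImplicit false
set_option linter.unusedSectionVars false

/-! # Isolated irreducible polynomials -/

namespace Pool.Agent.H523.I1

open Polynomial Finset Filter
open Pool.Agent.H341R2.Sharp (Mon mem_Mon)
open Pool.Agent.H523.FF Pool.Agent.H523.RH

open scoped Classical

section
variable {F : Type} [Field F] [Fintype F]

/-- the prime polynomials in a residue class and in a ball -/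
theorem pnt_ball {M : F[X]} (hM : M.Monic) (κ n : ℕ) (hn : 1 ≤ n) (hκ : M.natDegree + κ ≤ n)
    {A : F[X]} (hA : A ∈ Mon F n) {r : F[X]} (hc : IsCoprime r M) :
    |n * (((Ir F n).filter
      (fun P => M ∣ P - r ∧ (P - A).degree < ((n - κ : ℕ) : WithBot ℕ))).card : ℝ) -
      (Fintype.card F : ℝ) ^ n / Phi M κ| ≤
      (2 * M.natDegree + κ + 4 : ℝ) * (√(Fintype.card F : ℝ)) ^ n := by
  have hA' := mem_Mon.mp hA
  set f₁ : F[X] := A + ((r - A) %ₘ M) with hf₁
  have hd : ((r - A) %ₘ M).degree < ((n - κ : ℕ) : WithBot ℕ) := by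
    refine lt_of_lt_of_le (degree_modByMonic_lt _ hM) ?_
    rw [degree_eq_natDegree hM.ne_zero]
    exact_mod_cast (by omega : M.natDegree ≤ n - κ)
  have hdn : ((r - A) %ₘ M).degree < A.degree := by
    refine lt_of_lt_of_le hd ?_
    rw [degree_eq_natDegree hA'.1.ne_zero, hA'.2]
    exact_mod_cast Nat.sub_le _ _
  have hf₁m : f₁ ∈ Mon F n := by
    rw [mem_Mon]
    refine ⟨?_, ?_⟩
    · exact hA'.1.add_of_left hdn
    · rw [hf₁, natDegree_add_eq_left_of_degree_lt hdn, hA'.2]
  have hdvd : M ∣ f₁ - r := by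
    have h3 := modByMonic_add_div (r - A) M
    refine ⟨-((r - A) /ₘ M), ?_⟩
    rw [hf₁]
    linear_combination h3
  have hcop : IsCoprime f₁ M := by
    obtain ⟨t, ht⟩ := hdvd
    have : f₁ = r + M * t := by linear_combination ht
    rw [this]
    exact IsCoprime.add_mul_left_left hc t
  have h := pnt hM κ n hn (by omega) hf₁m hcop
  have heq : (Ir F n).filter
      (fun P => M ∣ P - r ∧ (P - A).degree < ((n - κ : ℕ) : WithBot ℕ)) = (Ir F n).filter
      (fun P => M ∣ P - f₁ ∧ (P - f₁).degree < ((n - κ : ℕ) : WithBot ℕ)) := by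
    apply Finset.filter_congr
    intro P _
    apply and_congr
    · constructor
      · intro h1
        have := dvd_sub h1 hdvd
        have e : P - r - (f₁ - r) = P - f₁ := by ring
        rwa [e] at this
      · intro h1
        have := dvd_add h1 hdvd
        have e : P - f₁ + (f₁ - r) = P - r := by ring
        rwa [e] at this
    · constructor
      · intro h1
        have e : P - f₁ = (P - A) - ((r - A) %ₘ M) := by rw [hf₁]; ring
        rw [e]
        exact lt_of_le_of_lt (degree_sub_le _ _) (max_lt h1 hd)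
      · intro h1
        have e : P - A = (P - f₁) + ((r - A) %ₘ M) := by rw [hf₁]; ring
        rw [e]
        exact lt_of_le_of_lt (degree_add_le _ _) (max_lt h1 hd)
  rw [heq]
  exact h

end

/-- `1 / (x - 1) ≤ 1 / x + 2 / x ^ 2` -/
lemma inv_sub_one_le (x : ℝ) (hx : 2 ≤ x) : 1 / (x - 1) ≤ 1 / x + 2 / x ^ 2 := by
  have h1 : 0 < x - 1 := by linarith
  have h0 : 0 < x := by linarith
  rw [div_add_div _ _ h0.ne' (by positivity), div_le_div_iff₀ h1 (by positivity)]
  nlinarith

/-- **Isolated irreducible polynomials**, with record prime-free surroundings -/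
theorem ff_isolated : ∃ c : ℝ, 0 < c ∧ ∀ (F : Type) [Field F] [Fintype F], ∃ K₀ : ℕ,
    ∀ K : ℕ, K₀ ≤ K → ∀ n : ℕ, 2 * K ≤ n → (n:ℝ) ^ 5 ≤ (Fintype.card F : ℝ) ^ K →
    ∀ A : F[X], A.Monic → A.natDegree = n →
    ∃ f : F[X], f.Monic ∧ f.natDegree = n ∧ Irreducible f ∧ 2 * (f - A).natDegree < n + 2 * K ∧
      ∀ (m : ℕ) (h : F[X]), (Fintype.card F : ℝ) ^ m ≤ c * GG K → h.degree < m → h ≠ 0 →
        ∃ P : F[X], P.Monic ∧ Irreducible P ∧ (P.natDegree : ℝ) * Real.log K ≤ K ∧
          P ∣ f + h := by
  obtain ⟨c₁, hc₁, X₀, HC⟩ := CovA.covering_abs (1 / (Real.exp 3 * 2)) 3 2 (by positivity)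
    (by norm_num)
  refine ⟨min 1 (c₁ / 10944), lt_min one_pos (by positivity), ?_⟩
  intro F _ _
  set c : ℝ := min 1 (c₁ / 10944) with hc
  have hc0 : 0 < c := lt_min one_pos (by positivity)
  have hc1 : c ≤ 1 := min_le_left _ _
  have hcc : c ≤ c₁ / 10944 := min_le_right _ _
  have hq := two_le_card (F := F)
  have hqn : 2 ≤ Fintype.card F := Fintype.one_lt_card
  obtain ⟨D₁, hD₁⟩ := survivors2 F
  obtain ⟨K₁, hK₁⟩ := params2 (Fintype.card F) hqn c hc0 hc1 D₁
  obtain ⟨K₂, hK₂⟩ := ev_L (Fintype.card F : ℝ) X₀ hq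
  set q : ℝ := (Fintype.card F : ℝ) with hqd
  have hq0 : 0 < q := by linarith
  set Q : ℝ := Real.log q with hQ
  have hQ2 : 0.69 < Q := by
    have h1 := Real.log_two_gt_d9
    have h2 : Real.log 2 ≤ Real.log q := Real.log_le_log (by norm_num) hq
    rw [hQ]; linarith
  have hQ0 : 0 < Q := by linarith
  refine ⟨max (max K₁ K₂) 625, fun K hK n hKn hn5 A hAm hAn => ?_⟩
  obtain ⟨D, m, hDD, hDm, hmD, hD1, hqD, hDK, hm1, hm2, hfin⟩ :=
    hK₁ K (((le_max_left _ _).trans (le_max_left _ _)).trans hK)
  obtain ⟨hX, f2, f3, f4, f5, f6⟩ := hK₂ K (((le_max_right _ _).trans (le_max_left _ _)).trans hK)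
  have hK625 : 625 ≤ K := (le_max_right _ _).trans hK
  obtain ⟨s₀, hs₀m, T, hTD, b, hbT, hb⟩ := hD₁ D hDD m hDm hmD
  have hK0 : (0:ℝ) < K := by exact_mod_cast f6
  have hAM : A ∈ Mon F n := mem_Mon.mpr ⟨hAm, hAn⟩
  -- the covering theorem
  have hlogX : Real.log (q ^ K) = K * Q := by rw [Real.log_pow]
  obtain ⟨z, hz0, hz1, hz2, HC⟩ := HC (q ^ K) hX
  rw [hlogX] at hz1 hz2 HC
  set L : ℝ := K * Q with hL
  set l : ℝ := Real.log L with hl
  have hL0 : 0 < L := by positivity
  have hl0 : 0 < l := by linarith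
  have hlz2 : 2 ≤ Real.log z := by
    refine le_trans ?_ hz1
    rw [le_div_iff₀ (by positivity)]
    linarith
  have hz3 : 3 ≤ z := by
    have h1 : Real.exp 2 ≤ z := by
      rw [← Real.exp_log hz0]; exact Real.exp_le_exp.mpr hlz2
    have := Real.add_one_le_exp (2:ℝ)
    linarith
  obtain ⟨E₁, hE1, hE1'⟩ := nlog (Fintype.card F) hqn (L ^ 2) (by nlinarith)
  obtain ⟨E₂, hE2, hE2'⟩ := nlog (Fintype.card F) hqn z (by linarith)
  rw [← hqd] at hE1 hE1' hE2 hE2'
  have hE11 : 1 ≤ E₁ := by
    by_contra hcon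
    have h0 : E₁ = 0 := by omega
    rw [h0] at hE1'
    simp only [zero_add, pow_one] at hE1'
    linarith
  have hmE : m ≤ E₁ := by
    have h1 : q ^ m < q ^ (E₁ + 1) := lt_of_le_of_lt hm2 hE1'
    have := (pow_lt_pow_iff_right₀ (show (1:ℝ) < q by linarith)).mp h1
    omega
  have hE2Q : (E₂:ℝ) * Q ≤ L / (1000 * l) := by
    have h1 := Real.log_le_log (by positivity) hE2
    rw [Real.log_pow] at h1
    linarith
  have hE2L : (E₂:ℝ) ≤ L := by
    have h1 : L / (1000 * l) ≤ L / 4000 :=
      div_le_div_of_nonneg_left hL0.le (by norm_num) (by linarith)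
    have h2 : (E₂:ℝ) * 0.69 ≤ E₂ * Q := mul_le_mul_of_nonneg_left hQ2.le (Nat.cast_nonneg _)
    linarith
  have hlogK : Real.log K ≤ 2 * l := by
    have h1 : (K:ℝ) / 2 ≤ L := by rw [hL]; nlinarith
    have h2 := Real.log_le_log (by positivity) h1
    rw [Real.log_div (by positivity) (by norm_num)] at h2
    have h3 := Real.log_two_lt_d9
    have h4 : Real.log K - Real.log 2 ≤ l := h2
    linarith
  have hE2K : (E₂:ℝ) * Real.log K ≤ K := by
    have h1 : (E₂:ℝ) ≤ K / (1000 * l) := by
      have : L / (1000 * l) = (K / (1000 * l)) * Q := by rw [hL]; ring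
      rw [this] at hE2Q
      exact le_of_mul_le_mul_right hE2Q hQ0
    calc (E₂:ℝ) * Real.log K ≤ (K / (1000 * l)) * (2 * l) :=
          mul_le_mul h1 hlogK (by linarith) (by positivity)
      _ = K * (2 / 1000) := by field_simp
      _ ≤ K := by nlinarith
  -- the sieving primes
  set PP : Finset F[X] := (Finset.Ioc E₁ E₂).biUnion (Ir F) with hPP
  have hPPm : ∀ P ∈ PP, P.Monic ∧ Irreducible P ∧ E₁ < P.natDegree ∧ P.natDegree ≤ E₂ := by
    intro P hP
    obtain ⟨d, hd, hPd⟩ := Finset.mem_biUnion.mp hP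
    rw [Finset.mem_Ioc] at hd
    have hPd := mem_Ir.mp hPd
    exact ⟨hPd.1, hPd.2.1, by rw [hPd.2.2]; exact hd.1, by rw [hPd.2.2]; exact hd.2⟩
  have hTm : ∀ P ∈ T, P.Monic ∧ Irreducible P ∧ P.natDegree ≤ D := fun P hP =>
    mem_IrLE.mp (hTD hP)
  -- the modulus
  set M : F[X] := ∏ P ∈ T, P with hM
  have hMmon : M.Monic := monic_prod_of_monic _ _ (fun P hP => (hTm P hP).1)
  have hMdeg : 2 * M.natDegree ≤ K := by
    have h1 : (M.natDegree : ℝ) ≤ 2 * q ^ D := by
      rw [hM, natDegree_prod_of_monic _ _ (fun P hP => (hTm P hP).1)]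
      push_cast
      refine (Finset.sum_le_sum_of_subset_of_nonneg hTD (fun P _ _ => Nat.cast_nonneg _)).trans ?_
      unfold IrLE
      rw [sum_IrLE (Finset.Icc 1 D) (fun e => (e:ℝ))]
      calc ∑ e ∈ Finset.Icc 1 D, ((Ir F e).card : ℝ) * (e:ℝ) ≤ ∑ e ∈ Finset.Icc 1 D, q ^ e := by
            apply Finset.sum_le_sum
            intro e he
            rw [Finset.mem_Icc] at he
            have h3 := Ir_card (F := F) e he.1
            have h4 : ((e * (Ir F e).card : ℕ) : ℝ) ≤ ((Fintype.card F ^ e : ℕ) : ℝ) :=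
              Nat.cast_le.mpr h3
            push_cast at h4
            rw [mul_comm]
            exact h4
        _ ≤ ∑ e ∈ range (D + 1), q ^ e := by
            apply Finset.sum_le_sum_of_subset_of_nonneg
            · intro e he
              rw [Finset.mem_Icc] at he
              exact Finset.mem_range.mpr (by omega)
            · intro e _ _
              positivity
        _ ≤ 2 * q ^ D := FF.geom2 q hq D
    have h2 : (2:ℝ) * (M.natDegree : ℝ) ≤ K := by linarith
    exact_mod_cast h2
  have hDE : D ≤ E₁ := hDm.trans hmE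
  have hdisj : ∀ s ⊆ PP, Disjoint T s := by
    intro s hs
    rw [Finset.disjoint_left]
    intro P hP hPs
    have h1 := (hTm P hP).2.2
    have h2 := (hPPm P (hs hPs)).2.2.1
    omega
  -- the class modulo `M`
  obtain ⟨r, hr⟩ := crt_ring T (fun P => P) (fun P hP P' hP' hne =>
    irr_coprime (hTm P hP).1 (hTm P hP).2.1 (hTm P' hP').1
      (hTm P' hP').2.1 hne) (fun P => s₀ - b P)
  -- the targets
  set S : Finset F[X] := (PL F m).filter (fun h => ∀ P ∈ T, ¬ P ∣ h - b P) with hS
  have hScard : (S.card : ℝ) ≤ c₁ * L := by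
    refine hb.trans ((mul_le_mul_of_nonneg_left hfin (by norm_num)).trans ?_)
    calc 19 * (576 * c * (K * Q)) = 10944 * c * (K * Q) := by ring
      _ ≤ 10944 * (c₁ / 10944) * (K * Q) := by
          apply mul_le_mul_of_nonneg_right _ (by positivity)
          linarith
      _ = c₁ * L := by rw [hL]; ring
  have hs₀S : s₀ ∈ S := Finset.mem_filter.mpr ⟨hs₀m, hbT⟩
  set S' : Finset F[X] := insert (X ^ m) (S.erase s₀) with hS'
  have hS'card : (S'.card : ℝ) ≤ c₁ * L := by
    refine le_trans ?_ hScard
    have h1 : S'.card ≤ (S.erase s₀).card + 1 := Finset.card_insert_le _ _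
    have h2 := Finset.card_erase_of_mem hs₀S
    have h3 : 0 < S.card := Finset.card_pos.mpr ⟨s₀, hs₀S⟩
    exact_mod_cast (by omega : S'.card ≤ S.card)
  have hS'd : ∀ w ∈ S', w.degree ≤ m := by
    intro w hw
    rw [hS', Finset.mem_insert] at hw
    rcases hw with rfl | hw
    · exact degree_X_pow_le m
    · exact (mem_PL.mp (Finset.mem_filter.mp (Finset.mem_of_mem_erase hw)).1).le
  have hs₀d : s₀.degree ≤ m := (mem_PL.mp hs₀m).le
  have hS's : ∀ w ∈ S', w ≠ s₀ := by
    intro w hw
    rw [hS', Finset.mem_insert] at hw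
    rcases hw with rfl | hw
    · intro h
      have h1 := mem_PL.mp hs₀m
      rw [← h, degree_X_pow] at h1
      exact lt_irrefl _ h1
    · exact (Finset.mem_erase.mp hw).1
  have hnd : ∀ P ∈ PP, ∀ w w' : F[X], w.degree ≤ m → w'.degree ≤ m → P ∣ w - w' → w = w' := by
    intro P hP w w' hw hw' hd
    by_contra hne
    have hne' : w - w' ≠ 0 := sub_ne_zero.mpr hne
    have h4 := degree_le_of_dvd hd hne'
    have h5 : (w - w').degree ≤ m := (degree_sub_le _ _).trans (max_le hw hw')
    have h6 := h4.trans h5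
    rw [degree_eq_natDegree (hPPm P hP).1.ne_zero] at h6
    have h7 : P.natDegree ≤ m := by exact_mod_cast h6
    have := (hPPm P hP).2.2.1
    omega
  set κ : ℕ := n / 2 - K with hκ
  set 𝒜 : Finset F[X] := (Ir F n).filter
      (fun f => M ∣ f - r ∧ (f - A).degree < ((n - κ : ℕ) : WithBot ℕ)) with h𝒜
  have hne : Nonempty {w // w ∈ S'} := ⟨⟨X ^ m, Finset.mem_insert_self _ _⟩⟩
  have hn0 : 0 < n := by omega
  have hn0r : (0:ℝ) < n := by exact_mod_cast hn0
  have hPhi0 : (0:ℝ) < Phi M κ := by
    rw [hM, Phi_prod T (fun P hP => ⟨(hTm P hP).1, (hTm P hP).2.1⟩)]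
    apply mul_pos (by positivity)
    apply Finset.prod_pos
    intro P hP
    have h1 : q ^ 1 ≤ q ^ P.natDegree :=
      pow_le_pow_right₀ (by linarith) (hTm P hP).2.1.natDegree_pos
    rw [pow_one] at h1
    linarith
  set R : ℝ := (√q) ^ n with hR
  have hR0 : 0 < R := pow_pos (Real.sqrt_pos.mpr hq0) _
  have hRR : R * R = q ^ n := by
    rw [hR, ← mul_pow, Real.mul_self_sqrt hq0.le]
  -- apply the covering theorem
  have hcov := HC F[X] (fun P => q ^ P.natDegree) (fun P => 1 / (q ^ P.natDegree - 1)) PP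
    (fun P hP => by
      obtain ⟨a1, a2, a3, a4⟩ := hPPm P hP
      have h1 : q ^ 1 ≤ q ^ P.natDegree := pow_le_pow_right₀ (by linarith) (by omega)
      rw [pow_one] at h1
      have h2 : 2 ≤ q ^ P.natDegree := by linarith
      refine ⟨lt_of_lt_of_le hE1' (pow_le_pow_right₀ (by linarith) a3),
        (pow_le_pow_right₀ (by linarith) a4).trans hE2, ?_, ?_⟩
      · exact one_div_le_one_div_of_le (by linarith) (by linarith)
      · rw [div_le_div_iff₀ (by linarith) (by linarith)]
        linarith)
    (by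
      have h1 : (PP.card : ℝ) ≤ 2 * q ^ E₂ := by
        have h2 : (PP.card : ℝ) = ∑ e ∈ Finset.Ioc E₁ E₂, ((Ir F e).card : ℝ) * 1 := by
          rw [← sum_IrLE (Finset.Ioc E₁ E₂) (fun _ => (1:ℝ)), Finset.sum_const, nsmul_eq_mul,
            mul_one]
        rw [h2]
        calc ∑ e ∈ Finset.Ioc E₁ E₂, ((Ir F e).card : ℝ) * 1 ≤ ∑ e ∈ Finset.Ioc E₁ E₂, q ^ e := by
              apply Finset.sum_le_sum
              intro e he
              rw [Finset.mem_Ioc] at he
              have h3 := Ir_card (F := F) e (by omega)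
              have h4 : (Ir F e).card ≤ Fintype.card F ^ e := by
                refine le_trans ?_ h3
                exact Nat.le_mul_of_pos_left _ (by omega)
              have h5 : (((Ir F e).card : ℕ) : ℝ) ≤ ((Fintype.card F ^ e : ℕ) : ℝ) :=
                Nat.cast_le.mpr h4
              push_cast at h5
              rw [mul_one]
              exact h5
          _ ≤ ∑ e ∈ range (E₂ + 1), q ^ e := by
              apply Finset.sum_le_sum_of_subset_of_nonneg
              · intro e he
                rw [Finset.mem_Ioc] at he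
                exact Finset.mem_range.mpr (by omega)
              · intro e _ _
                positivity
          _ ≤ 2 * q ^ E₂ := FF.geom2 q hq E₂
      nlinarith)
    (by
      have h2 := sum_inv_le (F := F) (Finset.Ioc E₁ E₂)
        (fun e he => by rw [Finset.mem_Ioc] at he; omega)
      rw [← hqd] at h2
      have h3 : ∑ e ∈ Finset.Ioc E₁ E₂, (1:ℝ) / e ≤ ∑ e ∈ Finset.Icc 1 E₂, (1:ℝ) / e := by
        apply Finset.sum_le_sum_of_subset_of_nonneg
        · intro e he
          rw [Finset.mem_Ioc] at he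
          exact Finset.mem_Icc.mpr (by omega)
        · intro e _ _
          positivity
      have h4 := harm_le E₂
      have h5 : Real.log E₂ ≤ l := by
        rcases Nat.eq_zero_or_pos E₂ with h0 | h0
        · rw [h0]; simp only [Nat.cast_zero, Real.log_zero]; exact hl0.le
        · exact Real.log_le_log (by exact_mod_cast h0) hE2L
      -- the squares
      have h6 : ∑ P ∈ PP, 2 / (q ^ P.natDegree) ^ 2 ≤ 2 := by
        rw [hPP, sum_IrLE (Finset.Ioc E₁ E₂) (fun e => 2 / (q ^ e) ^ 2)]
        calc ∑ e ∈ Finset.Ioc E₁ E₂, ((Ir F e).card : ℝ) * (2 / (q ^ e) ^ 2)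
            ≤ ∑ e ∈ Finset.Ioc E₁ E₂, (1 / 2 : ℝ) ^ (e - 1) := by
              apply Finset.sum_le_sum
              intro e he
              rw [Finset.mem_Ioc] at he
              have h3 := Ir_card (F := F) e (by omega)
              have h4 : (Ir F e).card ≤ Fintype.card F ^ e := by
                refine le_trans ?_ h3
                exact Nat.le_mul_of_pos_left _ (by omega)
              have h5 : (((Ir F e).card : ℕ) : ℝ) ≤ ((Fintype.card F ^ e : ℕ) : ℝ) :=
                Nat.cast_le.mpr h4
              push_cast at h5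
              rw [← hqd] at h5
              have h6 : (0:ℝ) < q ^ e := by positivity
              calc ((Ir F e).card : ℝ) * (2 / (q ^ e) ^ 2) ≤ q ^ e * (2 / (q ^ e) ^ 2) :=
                    mul_le_mul_of_nonneg_right h5 (by positivity)
                _ = 2 / q ^ e := by field_simp
                _ ≤ 2 / 2 ^ e := by
                    apply div_le_div_of_nonneg_left (by norm_num) (by positivity)
                    exact pow_le_pow_left₀ (by norm_num) hq e
                _ = (1 / 2 : ℝ) ^ (e - 1) := by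
                    obtain ⟨k, rfl⟩ : ∃ k, e = k + 1 := ⟨e - 1, by omega⟩
                    rw [Nat.add_sub_cancel, pow_succ, one_div, inv_pow]
                    field_simp
          _ ≤ ∑ e ∈ Finset.Icc 1 E₂, (1 / 2 : ℝ) ^ (e - 1) := by
              apply Finset.sum_le_sum_of_subset_of_nonneg
              · intro e he
                rw [Finset.mem_Ioc] at he
                exact Finset.mem_Icc.mpr (by omega)
              · intro e _ _
                positivity
          _ ≤ 2 := sum_half E₂
      have h7 : ∑ P ∈ PP, 1 / (q ^ P.natDegree - 1) ≤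
          ∑ P ∈ PP, (q⁻¹) ^ P.natDegree + ∑ P ∈ PP, 2 / (q ^ P.natDegree) ^ 2 := by
        rw [← Finset.sum_add_distrib]
        apply Finset.sum_le_sum
        intro P hP
        have h1 : q ^ 1 ≤ q ^ P.natDegree :=
          pow_le_pow_right₀ (by linarith) (hPPm P hP).2.1.natDegree_pos
        rw [pow_one] at h1
        rw [inv_pow, ← one_div]
        exact inv_sub_one_le _ (by linarith)
      linarith)
    (fun x hx1 hx2 => by
      refine (A_lower E₁ E₂ hE11 x (L ^ 2) hE1 hx1 (lt_of_le_of_lt hx2 hE2')).trans ?_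
      apply Finset.sum_le_sum
      intro s hs
      rw [Finset.mem_filter, Finset.mem_powerset] at hs
      apply Finset.prod_le_prod
      · intro P _
        positivity
      · intro P hP
        have h1 : q ^ 1 ≤ q ^ P.natDegree :=
          pow_le_pow_right₀ (by linarith) (hPPm P (hs.1 hP)).2.1.natDegree_pos
        rw [pow_one] at h1
        exact one_div_le_one_div_of_le (by linarith) (by linarith))
    {w // w ∈ S'} (by rw [Fintype.card_coe]; exact hS'card)
    F[X] 𝒜 (fun f P w => P ∣ f - s₀ + w.1)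
    (by
      intro f _ P hP k k' h1 h2
      have h3 : P ∣ k.1 - k'.1 := by
        have := dvd_sub h1 h2
        have e : f - s₀ + k.1 - (f - s₀ + k'.1) = k.1 - k'.1 := by ring
        rwa [e] at this
      exact Subtype.ext (hnd P hP _ _ (hS'd _ k.2) (hS'd _ k'.2) h3))
    (q ^ n / (n * Phi M κ)) (5 * R) (by positivity) (by positivity)
    (by
      -- the size of the error
      have h1 : (Phi M κ : ℝ) ≤ q ^ (κ + M.natDegree) := by
        rw [hM, Phi_prod T (fun P hP => ⟨(hTm P hP).1, (hTm P hP).2.1⟩), ← hqd, pow_add,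
          natDegree_prod_of_monic _ _ (fun P hP => (hTm P hP).1), ← Finset.prod_pow_eq_pow_sum]
        apply mul_le_mul_of_nonneg_left _ (by positivity)
        apply Finset.prod_le_prod
        · intro P hP
          have h1 : q ^ 1 ≤ q ^ P.natDegree :=
            pow_le_pow_right₀ (by linarith) (hTm P hP).2.1.natDegree_pos
          rw [pow_one] at h1
          linarith
        · intro P _
          linarith
      rw [le_div_iff₀ (by positivity)]
      set Y : ℝ := (q ^ K) ^ (1 / 4 : ℝ) with hY
      have hY0 : 0 < Y := by positivity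
      have hY4 : Y ^ 4 = q ^ K := by
        rw [hY, ← Real.rpow_natCast, ← Real.rpow_mul (by positivity)]
        norm_num
      have hY5 : 5 * (n:ℝ) ≤ Y := by
        have h2 : (5 * (n:ℝ)) ^ 4 ≤ Y ^ 4 := by
          rw [hY4]
          refine le_trans ?_ hn5
          have h3 : (625:ℝ) ≤ n := by exact_mod_cast (by omega : 625 ≤ n)
          calc (5 * (n:ℝ)) ^ 4 = 625 * (n:ℝ) ^ 4 := by ring
            _ ≤ n * (n:ℝ) ^ 4 := mul_le_mul_of_nonneg_right h3 (by positivity)
            _ = (n:ℝ) ^ 5 := by ring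
        exact le_of_pow_le_pow_left₀ (by norm_num) hY0.le h2
      -- `Phi ≤ R / Y ^ 2`
      have h2 : (Phi M κ : ℝ) * Y ^ 2 ≤ R := by
        have h3 : ((Phi M κ : ℝ) * Y ^ 2) ^ 2 ≤ R ^ 2 := by
          calc ((Phi M κ : ℝ) * Y ^ 2) ^ 2 = (Phi M κ : ℝ) ^ 2 * Y ^ 4 := by ring
            _ = (Phi M κ : ℝ) ^ 2 * q ^ K := by rw [hY4]
            _ ≤ (q ^ (κ + M.natDegree)) ^ 2 * q ^ K :=
                mul_le_mul_of_nonneg_right (pow_le_pow_left₀ (Nat.cast_nonneg _) h1 2)
                  (by positivity)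
            _ = q ^ (2 * (κ + M.natDegree) + K) := by rw [← pow_mul, ← pow_add]; congr 1; ring
            _ ≤ q ^ n := pow_le_pow_right₀ (by linarith) (by omega)
            _ = R ^ 2 := by rw [← hRR]; ring
        exact le_of_pow_le_pow_left₀ (by norm_num) hR0.le h3
      calc 5 * R * Y * (n * Phi M κ) = R * ((5 * n) * Y * Phi M κ) := by ring
        _ ≤ R * (Y * Y * Phi M κ) := by
            apply mul_le_mul_of_nonneg_left _ hR0.le
            exact mul_le_mul_of_nonneg_right (mul_le_mul_of_nonneg_right hY5 hY0.le)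
              (Nat.cast_nonneg _)
        _ = R * (Phi M κ * Y ^ 2) := by ring
        _ ≤ R * R := mul_le_mul_of_nonneg_left h2 hR0.le
        _ = q ^ n := hRR)
    (by
      intro s hs hle c'
      have hsm : ∀ P ∈ s, P.Monic ∧ Irreducible P := fun P hP =>
        ⟨(hPPm P (hs hP)).1, (hPPm P (hs hP)).2.1⟩
      have hUm : ∀ P ∈ T ∪ s, P.Monic ∧ Irreducible P := by
        intro P hP
        rcases Finset.mem_union.mp hP with h | h
        · exact ⟨(hTm P h).1, (hTm P h).2.1⟩
        · exact hsm P h
      have hds := hdisj s hs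
      set Ms : F[X] := ∏ P ∈ T ∪ s, P with hMs
      have hMsm : Ms.Monic := monic_prod_of_monic _ _ (fun P hP => (hUm P hP).1)
      have hMsd : Ms.natDegree = M.natDegree + ∑ P ∈ s, P.natDegree := by
        rw [hMs, Finset.prod_union hds, hM, Monic.natDegree_mul hMmon
          (monic_prod_of_monic _ _ (fun P hP => (hsm P hP).1)),
          natDegree_prod_of_monic s _ (fun P hP => (hsm P hP).1)]
      have hsd : 4 * ∑ P ∈ s, P.natDegree ≤ K := by
        rw [Finset.prod_pow_eq_pow_sum] at hle
        have h2 := Real.log_le_log (by positivity) hle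
        rw [Real.log_pow, Real.log_rpow (by positivity), Real.log_pow] at h2
        have h3 : ((∑ P ∈ s, P.natDegree : ℕ) : ℝ) * Q ≤ (K / 4 : ℝ) * Q := by
          have : (1 / 4 : ℝ) * (K * Real.log q) = (K / 4 : ℝ) * Q := by rw [hQ]; ring
          rw [this] at h2
          exact h2
        have h4 := le_of_mul_le_mul_right h3 hQ0
        have h5 : (4:ℝ) * ((∑ P ∈ s, P.natDegree : ℕ) : ℝ) ≤ K := by linarith
        exact_mod_cast h5
      -- the class
      obtain ⟨r', hr'⟩ := crt_ring (T ∪ s) (fun P => P) (fun P hP P' hP' hne =>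
        irr_coprime (hUm P hP).1 (hUm P hP).2 (hUm P' hP').1 (hUm P' hP').2 hne)
        (fun P => if P ∈ T then s₀ - b P else s₀ - (c' P).1)
      have hr'T : ∀ P ∈ T, P ∣ r' - (s₀ - b P) := by
        intro P hP
        have := hr' P (Finset.mem_union_left _ hP)
        simpa only [if_pos hP] using this
      have hr's : ∀ P ∈ s, P ∣ r' - (s₀ - (c' P).1) := by
        intro P hP
        have h1 := hr' P (Finset.mem_union_right _ hP)
        have h2 : P ∉ T := fun h => Finset.disjoint_left.mp hds h hP
        simpa only [if_neg h2] using h1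
      have hcopr : IsCoprime r' Ms := by
        rw [hMs, IsCoprime.prod_right_iff]
        intro P hP
        rw [isCoprime_comm, (hUm P hP).2.coprime_iff_not_dvd]
        intro hd
        rcases Finset.mem_union.mp hP with h | h
        · apply hbT P h
          have := dvd_sub hd (hr'T P h)
          have e : r' - (r' - (s₀ - b P)) = s₀ - b P := by ring
          rwa [e] at this
        · have h1 := dvd_sub hd (hr's P h)
          have e : r' - (r' - (s₀ - (c' P).1)) = s₀ - (c' P).1 := by ring
          rw [e] at h1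
          exact hS's _ (c' P).2 (hnd P (hs h) _ _ hs₀d (hS'd _ (c' P).2) h1).symm
      have hpb := pnt_ball hMsm κ n hn0 (by omega) hAM hcopr
      have hMdvd : ∀ x : F[X], M ∣ x ↔ ∀ P ∈ T, P ∣ x := by
        intro x
        constructor
        · intro h P hP
          exact (Finset.dvd_prod_of_mem (fun P => P) hP).trans h
        · intro h
          rw [hM]
          apply Finset.prod_dvd_of_coprime
          · intro P hP P' hP' hne
            exact irr_coprime (hTm P hP).1 (hTm P hP).2.1 (hTm P' hP').1 (hTm P' hP').2.1 hne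
          · exact h
      have hMsdvd : ∀ x : F[X], Ms ∣ x ↔ ∀ P ∈ T ∪ s, P ∣ x := by
        intro x
        constructor
        · intro h P hP
          exact (Finset.dvd_prod_of_mem (fun P => P) hP).trans h
        · intro h
          rw [hMs]
          apply Finset.prod_dvd_of_coprime
          · intro P hP P' hP' hne
            exact irr_coprime (hUm P hP).1 (hUm P hP).2 (hUm P' hP').1 (hUm P' hP').2 hne
          · exact h
      have hset : 𝒜.filter (fun f => ∀ P ∈ s, P ∣ f - s₀ + (c' P).1) = (Ir F n).filter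
          (fun f => Ms ∣ f - r' ∧ (f - A).degree < ((n - κ : ℕ) : WithBot ℕ)) := by
        rw [h𝒜, Finset.filter_filter]
        apply Finset.filter_congr
        intro f _
        rw [hMdvd, hMsdvd]
        constructor
        · rintro ⟨⟨h1, h2⟩, h3⟩
          refine ⟨fun P hP => ?_, h2⟩
          rcases Finset.mem_union.mp hP with h | h
          · have g1 := dvd_add (h1 P h) (dvd_sub (hr P h) (hr'T P h))
            have e : f - r + (r - (s₀ - b P) - (r' - (s₀ - b P))) = f - r' := by ring
            rwa [e] at g1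
          · have g1 := dvd_sub (h3 P h) (hr's P h)
            have e : f - s₀ + (c' P).1 - (r' - (s₀ - (c' P).1)) = f - r' := by ring
            rwa [e] at g1
        · rintro ⟨h1, h2⟩
          refine ⟨⟨fun P h => ?_, h2⟩, fun P h => ?_⟩
          · have g1 := dvd_sub (h1 P (Finset.mem_union_left _ h))
              (dvd_sub (hr P h) (hr'T P h))
            have e : f - r' - (r - (s₀ - b P) - (r' - (s₀ - b P))) = f - r := by ring
            rwa [e] at g1
          · have g1 := dvd_add (h1 P (Finset.mem_union_right _ h)) (hr's P h)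
            have e : f - r' + (r' - (s₀ - (c' P).1)) = f - s₀ + (c' P).1 := by ring
            rwa [e] at g1
      rw [hset]
      have hPhis : (Phi Ms κ : ℝ) = Phi M κ * ∏ P ∈ s, (q ^ P.natDegree - 1) := by
        rw [hMs, Phi_prod _ hUm, hM, Phi_prod T (fun P hP => ⟨(hTm P hP).1, (hTm P hP).2.1⟩),
          Finset.prod_union hds, mul_assoc]
      have hprod0 : 0 < ∏ P ∈ s, (q ^ P.natDegree - 1) := by
        apply Finset.prod_pos
        intro P hP
        have h1 : q ^ 1 ≤ q ^ P.natDegree :=
          pow_le_pow_right₀ (by linarith) (hsm P hP).2.natDegree_pos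
        rw [pow_one] at h1
        linarith
      have hmain : q ^ n / (n * Phi M κ) * ∏ P ∈ s, 1 / (q ^ P.natDegree - 1) =
          (q ^ n / Phi Ms κ) / n := by
        rw [hPhis, Finset.prod_div_distrib, Finset.prod_const_one]
        field_simp
      rw [hmain]
      set W : ℝ := (((Ir F n).filter
          (fun f => Ms ∣ f - r' ∧ (f - A).degree < ((n - κ : ℕ) : WithBot ℕ))).card : ℝ) with hW
      have hdiv : W - (q ^ n / Phi Ms κ) / n = (n * W - q ^ n / Phi Ms κ) / n := by
        field_simp
      rw [hdiv, abs_div, abs_of_pos hn0r, div_le_iff₀ hn0r]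
      refine hpb.trans ?_
      rw [← hR]
      have hcoef : (2 * Ms.natDegree + κ + 4 : ℝ) ≤ 5 * n := by
        have : 2 * Ms.natDegree + κ + 4 ≤ 5 * n := by omega
        exact_mod_cast this
      calc (2 * Ms.natDegree + κ + 4 : ℝ) * R ≤ (5 * n) * R :=
            mul_le_mul_of_nonneg_right hcoef hR0.le
        _ = 5 * R * n := by ring)
  obtain ⟨f, hf, hcov⟩ := hcov
  rw [h𝒜, Finset.mem_filter] at hf
  obtain ⟨hfI, hfM, hfA⟩ := hf
  have hfI := mem_Ir.mp hfI
  refine ⟨f, hfI.1, hfI.2.2, hfI.2.1, ?_, ?_⟩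
  · by_cases h0 : f - A = 0
    · rw [h0, natDegree_zero]; omega
    · rw [degree_eq_natDegree h0] at hfA
      have : (f - A).natDegree < n - κ := by exact_mod_cast hfA
      omega
  · intro m' h hm' hdeg hne0
    have hmm : m' ≤ m := hm1 m' hm'
    have hhm : h.degree < m := lt_of_lt_of_le hdeg (by exact_mod_cast hmm)
    have hwm : h + s₀ ∈ PL F m := mem_PL.mpr
      (lt_of_le_of_lt (degree_add_le _ _) (max_lt hhm (mem_PL.mp hs₀m)))
    by_cases hhS : h + s₀ ∈ S
    · have hS'm : h + s₀ ∈ S' := by
        rw [hS', Finset.mem_insert]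
        right
        rw [Finset.mem_erase]
        refine ⟨fun he => hne0 ?_, hhS⟩
        linear_combination he
      obtain ⟨P, hP, hdvd⟩ := hcov ⟨h + s₀, hS'm⟩
      obtain ⟨a1, a2, a3, a4⟩ := hPPm P hP
      refine ⟨P, a1, a2, ?_, ?_⟩
      · have : (P.natDegree : ℝ) * Real.log K ≤ E₂ * Real.log K :=
          mul_le_mul_of_nonneg_right (by exact_mod_cast a4) (by linarith)
        linarith
      · have e : f + h = f - s₀ + (h + s₀) := by ring
        rw [e]
        exact hdvd
    · have h1 : ∃ P ∈ T, P ∣ h + s₀ - b P := by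
        by_contra hcon
        push Not at hcon
        exact hhS (Finset.mem_filter.mpr ⟨hwm, hcon⟩)
      obtain ⟨P, hP, hdvd⟩ := h1
      have hP' := hTm P hP
      refine ⟨P, hP'.1, hP'.2.1, ?_, ?_⟩
      · have : (P.natDegree : ℝ) * Real.log K ≤ D * Real.log K :=
          mul_le_mul_of_nonneg_right (by exact_mod_cast hP'.2.2) (by linarith)
        linarith
      · have h2 : P ∣ f - r := (Finset.dvd_prod_of_mem (fun P => P) hP).trans hfM
        have h3 := dvd_add (dvd_add h2 (hr P hP)) hdvd
        have e : f - r + (r - (s₀ - b P)) + (h + s₀ - b P) = f + h := by ring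
        rwa [e] at h3

end Pool.Agent.H523.I1
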