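import Pool.Agent.H523.RH2

set_option autoImplicit false
set_option linter.unusedSectionVars false

/-! # The variance of the primes in residue classes and short intervals, by Weil's theorem -/

namespace Pool.Agent.H523.RH

open Polynomial Finset
open Pool.Agent.H341R2.Sharp (Mon mem_Mon)
open Pool.Agent.H523.FF (Ir mem_Ir PL mem_PL card_PL two_le_card Ir_card Ir_card_sum Ir_disj
  count_multi irr_coprime PL_mod)
open Pool.Agent.Q284 Pool.Agent.Q284.WE

open scoped Classical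

section Parseval

variable {B : Type} [CommRing B] [Finite B]

/-- orthogonality of the characters, summed over the units -/
theorem sum_units [Fintype Bˣ] (χ : MulChar B ℂ) :
    ∑ u : Bˣ, χ (u : B) = if χ = 1 then (Nat.card Bˣ : ℂ) else 0 := by
  split_ifs with h
  · rw [h, sum_congr rfl (fun u _ => MulChar.one_apply_coe u), sum_const, nsmul_eq_mul, mul_one,
      card_univ, Nat.card_eq_fintype_card]
  · obtain ⟨u₀, hu₀⟩ : ∃ u : Bˣ, χ (u : B) ≠ 1 := by
      by_contra hcon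
      push Not at hcon
      apply h
      ext u
      rw [hcon u, MulChar.one_apply_coe]
    have h1 : ∑ u : Bˣ, χ (u : B) = ∑ u : Bˣ, χ ((u₀ * u : Bˣ) : B) :=
      (Fintype.sum_equiv (Equiv.mulLeft u₀) _ _ (fun u => rfl)).symm
    have h2 : ∑ u : Bˣ, χ ((u₀ * u : Bˣ) : B) = χ (u₀ : B) * ∑ u : Bˣ, χ (u : B) := by
      rw [mul_sum]
      exact sum_congr rfl fun u _ => by rw [Units.val_mul, map_mul]
    rw [h2] at h1
    have h3 : (χ (u₀ : B) - 1) * ∑ u : Bˣ, χ (u : B) = 0 := by linear_combination -h1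
    rcases mul_eq_zero.1 h3 with h4 | h4
    · exact absurd (sub_eq_zero.1 h4) hu₀
    · exact h4

/-- Parseval's identity on the units -/
theorem parseval [Fintype Bˣ] [Fintype (MulChar B ℂ)] (S : Finset (MulChar B ℂ))
    (a : MulChar B ℂ → ℂ) :
    ∑ u : Bˣ, ‖∑ χ ∈ S, χ (↑u⁻¹ : B) * a χ‖ ^ 2 = (Nat.card Bˣ : ℝ) * ∑ χ ∈ S, ‖a χ‖ ^ 2 := by
  have key : ∀ z : ℂ, ((‖z‖ ^ 2 : ℝ) : ℂ) = z * (starRingEnd ℂ) z := by
    intro z
    rw [Complex.mul_conj, Complex.normSq_eq_norm_sq]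
  have hconj : ∀ (χ : MulChar B ℂ) (u : Bˣ), (starRingEnd ℂ) (χ (↑u⁻¹ : B)) = χ (u : B) := by
    intro χ u
    have h1 : χ (↑u⁻¹ : B) * χ (u : B) = 1 := by rw [← map_mul, Units.inv_mul, map_one]
    have h2 : ‖χ (↑u⁻¹ : B)‖ = 1 := norm_char χ (Units.isUnit _)
    have h3 : χ (↑u⁻¹ : B) * (starRingEnd ℂ) (χ (↑u⁻¹ : B)) = 1 := by
      rw [← key, h2]; norm_num
    have h4 : χ (↑u⁻¹ : B) ≠ 0 := by
      intro h; rw [h, zero_mul] at h1; exact zero_ne_one h1
    exact mul_left_cancel₀ h4 (h3.trans h1.symm)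
  have hC : ((∑ u : Bˣ, ‖∑ χ ∈ S, χ (↑u⁻¹ : B) * a χ‖ ^ 2 : ℝ) : ℂ) =
      (((Nat.card Bˣ : ℝ) * ∑ χ ∈ S, ‖a χ‖ ^ 2 : ℝ) : ℂ) := by
    rw [Complex.ofReal_sum, sum_congr rfl (fun u _ => key _)]
    have h1 : ∀ u : Bˣ, (∑ χ ∈ S, χ (↑u⁻¹ : B) * a χ) *
        (starRingEnd ℂ) (∑ χ ∈ S, χ (↑u⁻¹ : B) * a χ) =
        ∑ χ ∈ S, ∑ χ' ∈ S, a χ * (starRingEnd ℂ) (a χ') * (χ⁻¹ * χ') (u : B) := by
      intro u
      rw [map_sum, sum_mul_sum]
      refine sum_congr rfl (fun χ _ => sum_congr rfl (fun χ' _ => ?_))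
      rw [map_mul, hconj, MulChar.mul_apply, MulChar.inv_apply]
      have h2 : Ring.inverse (u : B) = (↑u⁻¹ : B) := Ring.inverse_unit u
      rw [h2]
      ring
    rw [sum_congr rfl (fun u _ => h1 u), sum_comm]
    have h2 : ∀ χ ∈ S, ∑ u : Bˣ, ∑ χ' ∈ S, a χ * (starRingEnd ℂ) (a χ') * (χ⁻¹ * χ') (u : B) =
        (Nat.card Bˣ : ℂ) * (a χ * (starRingEnd ℂ) (a χ)) := by
      intro χ hχ
      rw [sum_comm]
      have h3 : ∀ χ' ∈ S, ∑ u : Bˣ, a χ * (starRingEnd ℂ) (a χ') * (χ⁻¹ * χ') (u : B) =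
          if χ' = χ then (Nat.card Bˣ : ℂ) * (a χ * (starRingEnd ℂ) (a χ)) else 0 := by
        intro χ' _
        rw [← mul_sum, sum_units]
        by_cases h : χ' = χ
        · rw [if_pos h, if_pos (by rw [h]; exact inv_mul_cancel χ), h]
          ring
        · rw [if_neg h, if_neg (fun h' => h (inv_mul_eq_one.mp h').symm), mul_zero]
      rw [sum_congr rfl h3, sum_ite_eq' S χ, if_pos hχ]
    rw [sum_congr rfl h2, ← mul_sum, Complex.ofReal_mul, Complex.ofReal_natCast, Complex.ofReal_sum]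
    congr 1
    exact sum_congr rfl (fun χ _ => (key _).symm)
  exact_mod_cast hC

end Parseval

variable {F : Type} [Field F] [Fintype F] {M : F[X]} {κ : ℕ}

/-- the deviation from the main term as a character sum -/
theorem diff_eq (hM : M.Monic) (n : ℕ) (hn : 1 ≤ n) [Fintype (MulChar (BB M κ) ℂ)] {f₀ : F[X]}
    (hf₀ : f₀.Monic) (u : (BB M κ)ˣ) (hu : (u : BB M κ) = cl M κ f₀) :
    (Nat.card (BB M κ)ˣ : ℂ) * (((WW M κ n f₀ - T0 M n / Phi M κ : ℝ)) : ℂ) =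
      ∑ χ ∈ univ.filter (fun χ : MulChar (BB M κ) ℂ => NonPr M (gχ M κ χ)),
        χ (↑u⁻¹ : BB M κ) * trc (gχ M κ χ) n := by
  have := finite_BB hM κ
  have hc : IsCoprime f₀ M := (isUnit_cl_iff (κ := κ) hf₀).mp ⟨u, hu⟩
  set G : ℂ := (Nat.card (BB M κ)ˣ : ℂ) with hG
  have hG0 : G ≠ 0 := by
    rw [hG, Nat.cast_ne_zero]
    exact Nat.card_pos.ne'
  set PR : Finset (MulChar (BB M κ) ℂ) := univ.filter (fun χ => ¬ NonPr M (gχ M κ χ)) with hPR
  have hprin : ∀ χ ∈ PR, ∀ f : F[X], f.Monic → IsCoprime f M → χ (cl M κ f) = 1 := by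
    intro χ hχ f hf hfc
    rw [hPR, mem_filter] at hχ
    by_contra hne
    exact hχ.2 ⟨f, hf, hfc, by rw [gχ_monic χ hf]; exact hne⟩
  have huinv : ∀ χ ∈ PR, χ (↑u⁻¹ : BB M κ) = 1 := by
    intro χ hχ
    have h1 : χ (↑u⁻¹ : BB M κ) * χ (u : BB M κ) = 1 := by
      rw [← map_mul, Units.inv_mul, map_one]
    rw [hu, hprin χ hχ f₀ hf₀ hc, mul_one] at h1
    exact h1
  -- the two sums
  have hdetect : ∀ x : BB M κ, ∑ χ : MulChar (BB M κ) ℂ, χ (↑u⁻¹ : BB M κ) * χ x =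
      if x = cl M κ f₀ then G else 0 := by
    intro x
    rw [detect u x, hu]
    split_ifs <;> rfl
  -- evaluation of the number of principal characters
  have hcount : (PR.card : ℂ) * (Phi M κ : ℂ) = G := by
    have h1 : ∑ f ∈ Mon F (M.natDegree + κ), ∑ χ : MulChar (BB M κ) ℂ,
        χ (↑u⁻¹ : BB M κ) * χ (cl M κ f) = G := by
      rw [sum_congr rfl (fun f _ => hdetect (cl M κ f)), ← sum_filter, sum_const,
        card_fiber hM κ f₀ hf₀, one_smul]
    rw [sum_comm] at h1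
    have h2 : ∀ χ : MulChar (BB M κ) ℂ, ∑ f ∈ Mon F (M.natDegree + κ),
        χ (↑u⁻¹ : BB M κ) * χ (cl M κ f) = if χ ∈ PR then (Phi M κ : ℂ) else 0 := by
      intro χ
      rw [← mul_sum]
      have h3 : ∑ f ∈ Mon F (M.natDegree + κ), χ (cl M κ f) =
          ∑ f ∈ Mon F (M.natDegree + κ), gχ M κ χ f :=
        sum_congr rfl (fun f hf => (gχ_monic χ (mem_Mon.mp hf).1).symm)
      split_ifs with h
      · rw [huinv χ h, one_mul]
        unfold Phi
        rw [card_filter]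
        push_cast
        refine sum_congr rfl (fun f hf => ?_)
        have hfm := (mem_Mon.mp hf).1
        split_ifs with hcf
        · exact hprin χ h f hfm hcf
        · exact χ.map_nonunit (fun hh => hcf ((isUnit_cl_iff hfm).mp hh))
      · rw [h3]
        have h4 : NonPr M (gχ M κ χ) := by
          by_contra h5
          exact h (mem_filter.mpr ⟨mem_univ _, h5⟩)
        rw [Pool.Agent.Q265.WE.AL_eq_zero (gχ_hay hM χ) h4 le_rfl, mul_zero]
    rw [sum_congr rfl (fun χ _ => h2 χ), sum_ite_mem, univ_inter, sum_const, nsmul_eq_mul] at h1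
    exact h1
  -- the main sum
  have hmain : (G : ℂ) * ((WW M κ n f₀ : ℝ) : ℂ) =
      ∑ χ : MulChar (BB M κ) ℂ, χ (↑u⁻¹ : BB M κ) * trc (gχ M κ χ) n := by
    unfold WW trc
    push_cast
    rw [mul_sum]
    simp only [mul_sum]
    rw [sum_comm]
    refine sum_congr rfl (fun P hP => ?_)
    have hPm : P.Monic := by
      unfold PS.PD at hP
      rw [mem_filter, mem_biUnion] at hP
      obtain ⟨⟨k, _, hk⟩, _⟩ := hP
      exact (mem_Mon.mp hk).1
    have h1 : ∀ χ : MulChar (BB M κ) ℂ, χ (↑u⁻¹ : BB M κ) * ((P.natDegree : ℂ) *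
        gχ M κ χ P ^ (n / P.natDegree)) = (P.natDegree : ℂ) *
        (χ (↑u⁻¹ : BB M κ) * χ (cl M κ P ^ (n / P.natDegree))) := by
      intro χ
      rw [gχ_monic χ hPm, map_pow]
      ring
    rw [sum_congr rfl (fun χ _ => h1 χ), ← mul_sum, hdetect]
    split_ifs
    · rw [Complex.ofReal_one]; ring
    · rw [Complex.ofReal_zero]; ring
  have hprsum : ∀ χ ∈ PR, χ (↑u⁻¹ : BB M κ) * trc (gχ M κ χ) n = ((T0 M n : ℝ) : ℂ) := by
    intro χ hχ
    rw [huinv χ hχ, one_mul]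
    unfold trc T0
    push_cast
    rw [sum_filter]
    refine sum_congr rfl (fun P hP => ?_)
    unfold PS.PD at hP
    rw [mem_filter, mem_biUnion] at hP
    obtain ⟨⟨k, hk1, hk⟩, hPi, hPd⟩ := hP
    have hPm := (mem_Mon.mp hk).1
    rw [gχ_monic χ hPm]
    split_ifs with hcf
    · rw [hprin χ hχ P hPm hcf, one_pow, mul_one]
    · rw [χ.map_nonunit (fun hh => hcf ((isUnit_cl_iff hPm).mp hh)), zero_pow, mul_zero]
      have h0 : 0 < P.natDegree := hPi.natDegree_pos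
      have h1 : P.natDegree ≤ n := Nat.le_of_dvd (by omega) hPd
      exact (Nat.div_pos h1 h0).ne'
  have hPhi0 : (Phi M κ : ℂ) ≠ 0 := by
    intro h0
    rw [h0, mul_zero] at hcount
    exact hG0 hcount.symm
  have h1 := sum_filter_add_sum_filter_not (univ : Finset (MulChar (BB M κ) ℂ))
    (fun χ => NonPr M (gχ M κ χ)) (fun χ => χ (↑u⁻¹ : BB M κ) * trc (gχ M κ χ) n)
  rw [← hmain] at h1
  have h2 : ∑ χ ∈ univ.filter (fun χ : MulChar (BB M κ) ℂ => ¬ NonPr M (gχ M κ χ)),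
      χ (↑u⁻¹ : BB M κ) * trc (gχ M κ χ) n = PR.card * ((T0 M n : ℝ) : ℂ) := by
    rw [← hPR, sum_congr rfl hprsum, sum_const, nsmul_eq_mul]
  rw [h2] at h1
  push_cast
  have h3 : G * (((T0 M n : ℝ) : ℂ) / (Phi M κ : ℂ)) = PR.card * ((T0 M n : ℝ) : ℂ) := by
    rw [← hcount]
    field_simp
  rw [mul_sub, h3, ← h1]
  ring

/-- **The variance of the primes over all residue classes and short intervals** -/
theorem variance (hM : M.Monic) (κ n : ℕ) (hn : 1 ≤ n) :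
    ∑ f ∈ (Mon F (M.natDegree + κ)).filter (fun f => IsCoprime f M),
      (WW M κ n f - T0 M n / Phi M κ) ^ 2 ≤
      ((M.natDegree + κ : ℕ) : ℝ) ^ 2 * (Fintype.card F : ℝ) ^ n := by
  have := finite_BB hM κ
  have : Finite (MulChar (BB M κ) ℂ) := inferInstance
  let _ : Fintype (MulChar (BB M κ) ℂ) := Fintype.ofFinite _
  let _ : Fintype (BB M κ)ˣ := Fintype.ofFinite _
  set G : ℝ := (Nat.card (BB M κ)ˣ : ℝ) with hG
  have hG0 : 0 < G := by
    rw [hG]
    exact_mod_cast Nat.card_pos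
  set S := univ.filter (fun χ : MulChar (BB M κ) ℂ => NonPr M (gχ M κ χ)) with hS
  set Y : (BB M κ)ˣ → ℝ := fun u => ‖∑ χ ∈ S, χ (↑u⁻¹ : BB M κ) * trc (gχ M κ χ) n‖ ^ 2 with hY
  set A := (Mon F (M.natDegree + κ)).filter (fun f => IsCoprime f M) with hA
  have hu : ∀ f : F[X], ∃ u : (BB M κ)ˣ, f ∈ A → (u : BB M κ) = cl M κ f := by
    intro f
    by_cases hf : f ∈ A
    · rw [hA, mem_filter] at hf
      obtain ⟨u, hu⟩ := (isUnit_cl_iff (κ := κ) (mem_Mon.mp hf.1).1).mpr hf.2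
      exact ⟨u, fun _ => hu⟩
    · exact ⟨1, fun h => absurd h hf⟩
  choose u hu using hu
  have h1 : ∀ f ∈ A, (WW M κ n f - T0 M n / Phi M κ) ^ 2 = Y (u f) / G ^ 2 := by
    intro f hf
    have hfm := (mem_Mon.mp (mem_filter.mp hf).1).1
    have h2 := diff_eq hM n hn hfm (u f) (hu f hf)
    rw [hY]
    simp only
    rw [← hS] at h2
    rw [← h2, norm_mul, Complex.norm_natCast, Complex.norm_real, Real.norm_eq_abs, mul_pow, sq_abs,
      mul_comm, mul_div_assoc, div_self (by positivity), mul_one]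
  have hinj : ∀ f ∈ A, ∀ g ∈ A, u f = u g → f = g := by
    intro f hf g hg h
    have h2 : cl M κ f = cl M κ g := by rw [← hu f hf, ← hu g hg, h]
    have hf' := (mem_filter.mp hf).1
    have hg' := (mem_filter.mp hg).1
    have h3 := card_fiber hM κ g (mem_Mon.mp hg').1
    rw [card_eq_one] at h3
    obtain ⟨x, hx⟩ := h3
    have h4 : f ∈ (Mon F (M.natDegree + κ)).filter (fun f => cl M κ f = cl M κ g) :=
      mem_filter.mpr ⟨hf', h2⟩
    have h5 : g ∈ (Mon F (M.natDegree + κ)).filter (fun f => cl M κ f = cl M κ g) :=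
      mem_filter.mpr ⟨hg', rfl⟩
    rw [hx, mem_singleton] at h4 h5
    rw [h4, h5]
  have h2 : ∑ f ∈ A, Y (u f) ≤ ∑ v : (BB M κ)ˣ, Y v := by
    rw [← sum_image hinj]
    exact sum_le_sum_of_subset_of_nonneg (subset_univ _) (fun _ _ _ => by rw [hY]; positivity)
  have h3 : ∑ v : (BB M κ)ˣ, Y v = G * ∑ χ ∈ S, ‖trc (gχ M κ χ) n‖ ^ 2 :=
    parseval S (fun χ => trc (gχ M κ χ) n)
  have h4 : ∑ χ ∈ S, ‖trc (gχ M κ χ) n‖ ^ 2 ≤
      G * (((M.natDegree + κ : ℕ) : ℝ) ^ 2 * (Fintype.card F : ℝ) ^ n) := by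
    calc ∑ χ ∈ S, ‖trc (gχ M κ χ) n‖ ^ 2
        ≤ ∑ χ ∈ S, (((M.natDegree + κ : ℕ) : ℝ) ^ 2 * (Fintype.card F : ℝ) ^ n) := by
          apply sum_le_sum
          intro χ hχ
          have h5 := weil_hayes F M κ (gχ M κ χ) (gχ_hay hM χ) (mem_filter.mp hχ).2 n hn
          have h6 := pow_le_pow_left₀ (norm_nonneg _) h5 2
          refine h6.trans (le_of_eq ?_)
          rw [mul_pow, ← pow_mul, mul_comm n 2, pow_mul, Real.sq_sqrt (Nat.cast_nonneg _)]
      _ ≤ _ := by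
          rw [sum_const, nsmul_eq_mul]
          apply mul_le_mul_of_nonneg_right _ (by positivity)
          rw [hG, ← MulChar.card_eq_card_units_of_hasEnoughRootsOfUnity (BB M κ) ℂ,
            Nat.card_eq_fintype_card]
          exact_mod_cast card_le_univ _
  rw [sum_congr rfl h1, ← sum_div, div_le_iff₀ (by positivity)]
  calc ∑ f ∈ A, Y (u f) ≤ G * ∑ χ ∈ S, ‖trc (gχ M κ χ) n‖ ^ 2 := h2.trans h3.le
    _ ≤ G * (G * (((M.natDegree + κ : ℕ) : ℝ) ^ 2 * (Fintype.card F : ℝ) ^ n)) :=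
        mul_le_mul_of_nonneg_left h4 hG0.le
    _ = _ := by ring

end Pool.Agent.H523.RH
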